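import Pool.Agent.Lib.MP_b65ff2_gt.Homol

namespace Pool.Agent.Lib.MP_b65ff2_gt

open Matrix MonoidAlgebra

set_option linter.unusedSectionVars false

noncomputable section

variable {G H I J K : Type} [Group G] [Group H] [Fintype I] [DecidableEq I] [Fintype J]
  [DecidableEq J] [Fintype K] [DecidableEq K]

abbrev QG (G : Type) : Type := MonoidAlgebra ℚ G

def st (x : QG G) : QG G := mapDomain (fun g => g⁻¹) x

lemma coeff_st (x : QG G) (g : G) : (st x).coeff g = x.coeff g⁻¹ := by
  have := Finsupp.mapDomain_apply (inv_injective (G := G)) x.coeff g⁻¹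
  rwa [inv_inv] at this

lemma st_single (g : G) (a : ℚ) : st (single g a) = single g⁻¹ a := mapDomain_single

lemma st_add (x y : QG G) : st (x + y) = st x + st y := mapDomain_add _ _ _

lemma st_zero : st (0 : QG G) = 0 := mapDomain_zero _

instance starQG : StarRing (QG G) where
  star := st
  star_involutive x := by ext g; simp [coeff_st]
  star_add := st_add
  star_mul x y := by
    induction x using induction_linear with
    | zero => simp [st_zero]
    | add a b ha hb => simp [add_mul, mul_add, st_add, ha, hb]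
    | single g a =>
      induction y using induction_linear with
      | zero => simp [st_zero]
      | add a b ha hb => simp [add_mul, mul_add, st_add, ha, hb]
      | single h b => simp [single_mul_single, st_single, mul_comm]

lemma coeff_star (x : QG G) (g : G) : (star x).coeff g = x.coeff g⁻¹ := coeff_st x g

instance starModQG : StarModule ℚ (QG G) where
  star_smul a x := by ext g; simp [coeff_star]

def mq (f : G →* H) : QG G →ₐ[ℚ] QG H := mapDomainAlgHom ℚ ℚ f

lemma mq_apply (f : G →* H) (x : QG G) : mq f x = mapDomain f x := rfl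

lemma mq_single (f : G →* H) (g : G) (a : ℚ) : mq f (single g a) = single (f g) a :=
  mapDomain_single

lemma mq_star (f : G →* H) (x : QG G) : mq f (star x) = star (mq f x) := by
  induction x using induction_linear with
  | zero => simp
  | add a b ha hb => simp [ha, hb]
  | single g a => exact (congrArg _ (st_single g a)).trans (by
      rw [mq_single, mq_single, map_inv]; exact (st_single _ _).symm)

lemma mq_mq {F : Type} [Group F] (f : G →* H) (f' : H →* F) (x : QG G) :
    mq f' (mq f x) = mq (f'.comp f) x := by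
  induction x using induction_linear with
  | zero => simp
  | add a b ha hb => simp [ha, hb]
  | single g a => simp [mq_single]

lemma coeff_mq_inj {f : G →* H} (hf : Function.Injective f) (x : QG G) (g : G) :
    (mq f x).coeff (f g) = x.coeff g := Finsupp.mapDomain_apply hf _ _

lemma coeff_mq_ne {f : G →* H} {x : QG G} {q : H} (h : (mq f x).coeff q ≠ 0) :
    ∃ g, x.coeff g ≠ 0 ∧ f g = q := by
  classical
  simpa using Finsupp.mapDomain_support (Finsupp.mem_support_iff.2 h)

lemma coeff_mq_one {f : G →* H} {x : QG G} (h : ∀ g, x.coeff g ≠ 0 → f g = 1 → g = 1) :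
    (mq f x).coeff 1 = x.coeff 1 := by
  classical
  change Finsupp.mapDomain f x.coeff 1 = _
  rw [Finsupp.mapDomain, Finsupp.sum_apply, Finsupp.sum, Finset.sum_eq_single 1]
  · simp
  · intro g hg h1
    exact Finsupp.single_eq_of_ne fun e => h1 (h g (Finsupp.mem_support_iff.1 hg) e.symm)
  · intro h1
    simp [Finsupp.notMem_support_iff.1 h1]

lemma coeff_one_comm (x y : QG G) : (x * y).coeff 1 = (y * x).coeff 1 := by
  rw [coeff_mul_apply_left, coeff_mul_apply_right]
  simp [mul_comm]

lemma coeff_mul_star (x : QG G) : (x * star x).coeff 1 = x.coeff.sum fun _ a => a * a := by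
  rw [coeff_mul_apply_left]
  exact Finsupp.sum_congr fun g _ => by simp [coeff_star]

lemma coeff_mul_star_nonneg (x : QG G) : 0 ≤ (x * star x).coeff 1 := by
  rw [coeff_mul_star]
  exact Finset.sum_nonneg fun _ _ => mul_self_nonneg _

lemma eq_zero_of_mul_star {x : QG G} (h : x * star x = 0) : x = 0 := by
  have := coeff_mul_star x
  rw [h] at this
  ext g
  by_contra hg
  have := (Finset.sum_eq_zero_iff_of_nonneg fun _ _ => mul_self_nonneg _).1 this.symm g
    (Finsupp.mem_support_iff.2 hg)
  exact hg (mul_self_eq_zero.1 this)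

lemma diag_nonneg (M : Matrix K K (QG G)) (i : K) : 0 ≤ ((M * Mᴴ) i i).coeff 1 := by
  rw [Matrix.mul_apply, coeff_sum, Finsupp.finsetSum_apply]
  exact Finset.sum_nonneg fun j _ => coeff_mul_star_nonneg _

def tau : Matrix K K (QG G) →ₗ[ℚ] ℚ where
  toFun M := ∑ i, (M i i).coeff 1
  map_add' M N := by simp [Finset.sum_add_distrib]
  map_smul' a M := by simp [Finset.mul_sum]

lemma tau_apply (M : Matrix K K (QG G)) : tau M = ∑ i, (M i i).coeff 1 := rfl

lemma tau_comm (M N : Matrix K K (QG G)) : tau (M * N) = tau (N * M) := by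
  simp only [tau_apply, Matrix.mul_apply, coeff_sum, Finsupp.finsetSum_apply]
  rw [Finset.sum_comm]
  simp only [coeff_one_comm]

def rep (M : Matrix I J (QG G)) : Matrix (G × I) (G × J) ℚ :=
  Matrix.of fun x y => (M x.2 y.2).coeff (x.1⁻¹ * y.1)

lemma rep_apply (M : Matrix I J (QG G)) (x y) : rep M x y = (M x.2 y.2).coeff (x.1⁻¹ * y.1) := rfl

lemma rep_star (M : Matrix I J (QG G)) : rep Mᴴ = (rep M)ᵀ := by
  ext x y; simp [rep_apply, coeff_star]

def n1 (x : QG G) : ℚ := x.coeff.sum fun _ a => |a|

lemma sum_le_n1 (x : QG G) (f : G →* H) {φ : H → H} (hφ : Function.Injective φ) (s : Finset H) :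
    ∑ q ∈ s, |(mq f x).coeff (φ q)| ≤ n1 x := by
  classical
  calc _ ≤ ∑ q ∈ s, ∑ g ∈ x.coeff.support, if φ q = f g then |x.coeff g| else 0 := by
        refine Finset.sum_le_sum fun q _ => ?_
        change |Finsupp.mapDomain f x.coeff (φ q)| ≤ _
        rw [Finsupp.mapDomain, Finsupp.sum_apply]
        refine (Finset.abs_sum_le_sum_abs _ _).trans (Finset.sum_le_sum fun g _ => ?_)
        simp only [Finsupp.single_apply]
        by_cases e : φ q = f g
        · simp [e]
        · simp [e, Ne.symm e]
    _ ≤ _ := by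
        rw [Finset.sum_comm]
        refine Finset.sum_le_sum fun g _ => ?_
        rw [← Finset.sum_filter, Finset.sum_const, nsmul_eq_mul]
        refine mul_le_of_le_one_left (abs_nonneg _) ?_
        have : (s.filter fun q => φ q = f g).card ≤ 1 := Finset.card_le_one.2 fun a ha b hb =>
          hφ ((Finset.mem_filter.1 ha).2.trans (Finset.mem_filter.1 hb).2.symm)
        exact_mod_cast this

def RC {X Y : Type} (M : Matrix X Y ℚ) (c : ℚ) : Prop :=
  (∀ x (s : Finset Y), ∑ y ∈ s, |M x y| ≤ c) ∧ ∀ y (s : Finset X), ∑ x ∈ s, |M x y| ≤ c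

lemma exists_rc (M : Matrix I J (QG G)) : ∃ c : ℚ, 1 ≤ c ∧
    ∀ (H : Type) [Group H] (f : G →* H), RC (rep (M.map (mq f))) c := by
  classical
  have p : ∀ i j, 0 ≤ n1 (M i j) := fun i j => Finset.sum_nonneg fun _ _ => abs_nonneg _
  refine ⟨1 + ∑ i, ∑ j, n1 (M i j), le_add_of_nonneg_right
    (Finset.sum_nonneg fun i _ => Finset.sum_nonneg fun j _ => p i j),
    fun H _ f => ⟨fun x s => ?_, fun y s => ?_⟩⟩
  · refine (Finset.sum_le_sum_of_subset_of_nonneg (t := s.image Prod.fst ×ˢ Finset.univ)
      (fun y hy => by simpa using ⟨_, hy⟩) fun _ _ _ => abs_nonneg _).trans ?_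
    rw [Finset.sum_product_right]
    refine le_add_of_nonneg_of_le zero_le_one ((Finset.sum_le_sum fun j _ =>
      sum_le_n1 (M x.2 j) f (mul_right_injective x.1⁻¹) _).trans ?_)
    exact Finset.single_le_sum (f := fun i => ∑ j, n1 (M i j))
      (fun i _ => Finset.sum_nonneg fun j _ => p i j) (Finset.mem_univ _)
  · refine (Finset.sum_le_sum_of_subset_of_nonneg (t := s.image Prod.fst ×ˢ Finset.univ)
      (fun y hy => by simpa using ⟨_, hy⟩) fun _ _ _ => abs_nonneg _).trans ?_
    rw [Finset.sum_product_right]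
    refine le_add_of_nonneg_of_le zero_le_one (Finset.sum_le_sum fun i _ =>
      (sum_le_n1 (M i y.2) f (φ := fun q => q⁻¹ * y.1) (fun a b e => by simpa using e) _).trans ?_)
    exact Finset.single_le_sum (fun j _ => p i j) (Finset.mem_univ _)

lemma RC.norm {X Y : Type} [Fintype X] [Fintype Y] {M : Matrix X Y ℚ} {c : ℚ} (h : RC M c)
    (hc : 0 ≤ c) (v : X → ℚ) : (v ᵥ* M) ⬝ᵥ (v ᵥ* M) ≤ c ^ 2 * (v ⬝ᵥ v) := by
  calc _ ≤ ∑ y, c * ∑ x, |M x y| * (v x * v x) := by
        refine Finset.sum_le_sum fun y _ => ?_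
        rw [← sq]
        refine (Finset.sum_sq_le_sum_mul_sum_of_sq_le_mul Finset.univ (f := fun x => |M x y|)
          (g := fun x => |M x y| * (v x * v x)) (fun _ _ => abs_nonneg _)
          (fun _ _ => mul_nonneg (abs_nonneg _) (mul_self_nonneg _)) fun x _ => le_of_eq ?_).trans
          (mul_le_mul_of_nonneg_right (h.2 y _) (Finset.sum_nonneg fun _ _ =>
            mul_nonneg (abs_nonneg _) (mul_self_nonneg _)))
        rw [← mul_assoc, abs_mul_abs_self]; ring
    _ ≤ _ := by
        rw [← Finset.mul_sum, Finset.sum_comm, sq, mul_assoc, dotProduct]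
        refine mul_le_mul_of_nonneg_left ?_ hc
        rw [Finset.mul_sum]
        refine Finset.sum_le_sum fun x _ => ?_
        rw [← Finset.sum_mul]
        exact mul_le_mul_of_nonneg_right (h.1 x _) (mul_self_nonneg _)

section
variable {Q : Type} [Group Q] [Fintype Q] [DecidableEq Q]

lemma coeff_mul_fin (x y : QG Q) (q : Q) : (x * y).coeff q = ∑ h, x.coeff h * y.coeff (h⁻¹ * q) := by
  rw [coeff_mul_apply_left, Finsupp.sum_fintype _ _ (by simp)]

def cv (Q K : Type) [Fintype Q] : (K → QG Q) ≃ₗ[ℚ] (Q × K → ℚ) where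
  toFun x y := (x y.2).coeff y.1
  invFun v k := .ofCoeff (Finsupp.equivFunOnFinite.symm fun q => v (q, k))
  map_add' _ _ := rfl
  map_smul' _ _ := rfl
  left_inv x := by ext k q; simp
  right_inv v := by ext y; simp

lemma cv_apply (x : K → QG Q) (y : Q × K) : cv Q K x y = (x y.2).coeff y.1 := rfl

lemma cv_vecMul (x : I → QG Q) (M : Matrix I J (QG Q)) : cv Q J (x ᵥ* M) = cv Q I x ᵥ* rep M := by
  ext y
  simp only [cv_apply, vecMul, dotProduct, coeff_sum, Finsupp.finsetSum_apply, coeff_mul_fin,
    Fintype.sum_prod_type_right, rep_apply]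

lemma rep_mul (M : Matrix I J (QG Q)) (N : Matrix J K (QG Q)) : rep (M * N) = rep M * rep N :=
  vecMul_ext fun v => by
    obtain ⟨x, rfl⟩ := (cv Q I).surjective v
    rw [← vecMul_vecMul, ← cv_vecMul, ← cv_vecMul, ← cv_vecMul, vecMul_vecMul]

def repA (Q K : Type) [Group Q] [Fintype Q] [DecidableEq Q] [Fintype K] [DecidableEq K] :
    Matrix K K (QG Q) →ₐ[ℚ] Matrix (Q × K) (Q × K) ℚ :=
  AlgHom.ofLinearMap ⟨⟨rep, fun _ _ => rfl⟩, fun _ _ => rfl⟩ (vecMul_ext fun v => by
    obtain ⟨x, rfl⟩ := (cv Q K).surjective v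
    exact (cv_vecMul x 1).symm.trans (by simp)) rep_mul

lemma repA_apply (M : Matrix K K (QG Q)) : repA Q K M = rep M := rfl

lemma trace_rep (M : Matrix K K (QG Q)) : (rep M).trace = Fintype.card Q * tau M := by
  simp [trace, rep_apply, Fintype.sum_prod_type, tau_apply]

end

end

end Pool.Agent.Lib.MP_b65ff2_gt
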