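import Pool.Agent.Lib.MP_b65ff2_gt.Comb

namespace Pool.Agent.Lib.MP_b65ff2_gt

open Matrix MonoidAlgebra Finset

set_option linter.unusedSectionVars false

noncomputable section

variable {Q I J K : Type} [Group Q] [Fintype Q] [DecidableEq Q] [Fintype I] [DecidableEq I]
  [Fintype J] [DecidableEq J] [Fintype K] [DecidableEq K]

open Classical in
def rho (P : Subgroup Q) : QG Q →ₗ[ℚ] QG Q where
  toFun z := .ofCoeff (z.coeff.filter (· ∈ P))
  map_add' _ _ := by ext; simp
  map_smul' _ _ := by ext; simp [Finsupp.filter_smul]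

open Classical in
lemma coeff_rho (P : Subgroup Q) (z : QG Q) (q : Q) :
    (rho P z).coeff q = if q ∈ P then z.coeff q else 0 := Finsupp.filter_apply _ _ _

def Su (P : Subgroup Q) (z : QG Q) : Prop := ∀ q, q ∉ P → z.coeff q = 0

lemma su_rho (P : Subgroup Q) (z : QG Q) : Su P (rho P z) := fun q hq => by simp [coeff_rho, hq]

lemma Su.rho {P : Subgroup Q} {z : QG Q} (h : Su P z) : rho P z = z := by
  ext q
  by_cases e : q ∈ P <;> simp [coeff_rho, e, h q]

lemma rho_mul_left {P : Subgroup Q} {w : QG Q} (h : Su P w) (z : QG Q) :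
    rho P (w * z) = w * rho P z := by
  ext q
  simp only [coeff_rho, coeff_mul_fin]
  split_ifs with e
  · refine sum_congr rfl fun g _ => ?_
    by_cases e' : g ∈ P
    · rw [if_pos (P.mul_mem (P.inv_mem e') e)]
    · simp [h g e']
  · refine (sum_eq_zero fun g _ => ?_).symm
    by_cases e' : g ∈ P
    · rw [if_neg fun h' => e (by simpa using P.mul_mem e' h'), mul_zero]
    · simp [h g e']

lemma rho_mul_right {P : Subgroup Q} {w : QG Q} (h : Su P w) (z : QG Q) :
    rho P (z * w) = rho P z * w := by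
  ext q
  simp only [coeff_rho, coeff_mul_fin]
  split_ifs with e
  · refine sum_congr rfl fun g _ => ?_
    by_cases e' : g ∈ P
    · rw [if_pos e']
    · rw [h _ fun h' => e' (by simpa using P.mul_mem e (P.inv_mem h'))]; simp
  · refine (sum_eq_zero fun g _ => ?_).symm
    by_cases e' : g ∈ P
    · rw [h _ fun h' => e (by simpa using P.mul_mem e' h'), mul_zero]
    · simp [e']

lemma Su.mul {P : Subgroup Q} {w z : QG Q} (h : Su P w) (h' : Su P z) : Su P (w * z) := by
  rw [← h'.rho, ← rho_mul_left h]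
  exact su_rho _ _

lemma su_single {P : Subgroup Q} {g : Q} (h : g ∈ P) (a : ℚ) : Su P (single g a) :=
  fun _ hq => Finsupp.single_eq_of_ne fun e => hq (e ▸ h)

lemma su_mq {G : Type} [Group G] (f : G →* Q) (x : QG G) : Su f.range (mq f x) := fun q hq => by
  by_contra h
  obtain ⟨g, -, rfl⟩ := coeff_mq_ne h
  exact hq ⟨g, rfl⟩

def Fs (P : Subgroup Q) (K : Type) : Submodule ℚ (K → QG Q) where
  carrier := {y | ∀ k, Su P (y k)}
  add_mem' ha hb k q hq := by simp [ha k q hq, hb k q hq]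
  zero_mem' _ _ _ := rfl
  smul_mem' c x hx k q hq := by simp [hx k q hq]

lemma nS_single_mul (g : Q) (z : QG Q) : nS (single g 1 * z) = nS z := by
  simp only [nS, coeff_single_mul_apply, one_mul]
  exact Equiv.sum_comp (Equiv.mulLeft g⁻¹) fun q => z.coeff q * z.coeff q

lemma nS_rho (P : Subgroup Q) (z : QG Q) : nS (rho P z) ≤ nS z :=
  sum_le_sum fun q _ => by
    rw [coeff_rho]
    split_ifs <;> simp [mul_self_nonneg]

open Classical in
def pS (P : Subgroup Q) (K : Type) [DecidableEq K] : Matrix (Q × K) (Q × K) ℚ :=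
  diagonal fun x => if x.1 ∈ P then 1 else 0

lemma pS_pS (P : Subgroup Q) : pS P K * pS P K = pS P K := by
  rw [pS, diagonal_mul_diagonal]
  congr 1
  funext i
  split_ifs <;> simp

lemma cv_pS (P : Subgroup Q) (x : K → QG Q) :
    cv Q K x ᵥ* pS P K = cv Q K fun k => rho P (x k) := by
  ext y
  simp [pS, vecMul_diagonal, cv_apply, coeff_rho]

lemma map_Fs (P : Subgroup Q) : (Fs P K).map (cv Q K).toLinearMap = rg (pS P K) := by
  ext x
  constructor
  · rintro ⟨y, hy, rfl⟩
    exact ⟨cv Q K y, (cv_pS P y).trans (congrArg _ (funext fun k => (hy k).rho))⟩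
  · rintro ⟨y, rfl⟩
    obtain ⟨y, rfl⟩ := (cv Q K).surjective y
    exact ⟨_, fun k => su_rho _ _, (cv_pS P y).symm⟩

lemma sum_pS (P : Subgroup Q) (w : K → ℚ) :
    ∑ x : Q × K, pS P K x x * w x.2 = Nat.card P * ∑ k, w k := by
  classical
  simp only [pS, diagonal_apply_eq, Fintype.sum_prod_type]
  simp [Fintype.card_subtype, ← sum_filter]

lemma Ht_Fs_map (P : Subgroup Q) (M : Matrix K K (QG Q)) (hi : ∀ i j, Zi (M i j)) {c : ℚ}
    (hc : 1 ≤ c) (h : ∀ x, (x ᵥ* rep M) ⬝ᵥ (x ᵥ* rep M) ≤ c * (x ⬝ᵥ x)) :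
    Ht ((Fs P K).map (vm M)) ≤ Nat.card P * Fintype.card K * Real.log c := by
  have h1 := Ht_map (vm M) (fun x hx k q => mem_Lam.1 ((cv_vecMul x M).symm ▸ lam_vecMul
    (mem_Lam.2 fun w : Q × K => hx w.2 w.1) fun i j => hi _ _ _) (q, k)) hc
    (fun x => by rw [← cv_dot, ← cv_dot, vm_apply, cv_vecMul]; exact h _) (Fs P K)
  have h2 : Ht (Fs P K) = 0 := by
    rw [Ht, map_Fs]
    classical
    exact ht_rg_proj (diagonal_transpose _) (pS_pS P) fun i j =>
      ⟨if i = j ∧ i.1 ∈ P then 1 else 0, by simp [pS, diagonal_apply, ite_and]⟩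
  have h3 : (Module.finrank ℚ (Fs P K) : ℚ) = Nat.card P * Fintype.card K := by
    rw [← LinearEquiv.finrank_map_eq (cv Q K), map_Fs, ← trace_idem (pS_pS P)]
    simpa [trace] using sum_pS (K := K) P fun _ => 1
  have h4 : (Module.finrank ℚ (Fs P K) : ℝ) = Nat.card P * Fintype.card K := by exact_mod_cast h3
  rw [h2, h4] at h1
  linarith [Ht_nonneg (Fs P K ⊓ LinearMap.ker (vm M))]

section
variable (P : Subgroup Q) (t : Q ⧸ P → Q)

def res (J : Type) (k : I × (Q ⧸ P)) : (I × J → QG Q) →ₗ[ℚ] (J → QG Q) where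
  toFun u j := rho P (single (t k.2)⁻¹ 1 * u (k.1, j))
  map_add' _ _ := by ext1; simp [mul_add]
  map_smul' _ _ := by ext1; simp

def inc (J : Type) (k : I × (Q ⧸ P)) : (J → QG Q) →ₗ[ℚ] (I × J → QG Q) where
  toFun y x := if x.1 = k.1 then single (t k.2) 1 * y x.2 else 0
  map_add' _ _ := by ext1; simp [mul_add, ite_add_ite]
  map_smul' _ _ := by ext1; simp

lemma res_apply (k : I × (Q ⧸ P)) (u : I × J → QG Q) (j : J) :
    res P t J k u j = rho P (single (t k.2)⁻¹ 1 * u (k.1, j)) := rfl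

lemma inc_apply (k : I × (Q ⧸ P)) (y : J → QG Q) (x : I × J) :
    inc P t J k y x = if x.1 = k.1 then single (t k.2) 1 * y x.2 else 0 := rfl

lemma res_mem (k : I × (Q ⧸ P)) (u : I × J → QG Q) : res P t J k u ∈ Fs P J := fun _ => su_rho _ _

lemma Ht_res (k : I × (Q ⧸ P)) (Y : Submodule ℚ (I × J → QG Q)) :
    Ht (Y.map (res P t J k)) + Ht (Y ⊓ LinearMap.ker (res P t J k)) ≤ Ht Y := by
  simpa using Ht_map (res P t J k) (fun x hx j q => by
    rw [res_apply, coeff_rho]
    split_ifs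
    · simpa using hx _ _
    · exact ⟨0, rfl⟩) le_rfl (fun x => by
    rw [one_mul, Fintype.sum_prod_type]
    refine (sum_le_sum fun j _ => (nS_rho _ _).trans_eq (nS_single_mul _ _)).trans ?_
    exact single_le_sum (f := fun i => ∑ j, nS (x (i, j)))
      (fun _ _ => sum_nonneg fun _ _ => nS_nonneg _) (mem_univ _)) Y

lemma Ht_inc (k : I × (Q ⧸ P)) (Y : Submodule ℚ (J → QG Q)) : Ht (Y.map (inc P t J k)) ≤ Ht Y := by
  have := Ht_map (inc P t J k) (fun x hx j q => by
    rw [inc_apply]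
    split_ifs
    · simpa using hx _ _
    · exact ⟨0, rfl⟩) le_rfl (fun x => by
    rw [one_mul, Fintype.sum_prod_type, sum_comm]
    refine sum_le_sum fun j _ => ?_
    simp [inc_apply, apply_ite nS, nS_single_mul, show nS (0 : QG Q) = 0 by simp [nS]]) Y
  simp only [Rat.cast_one, Real.log_one, mul_zero, add_zero] at this
  linarith [Ht_nonneg (Y ⊓ LinearMap.ker (inc P t J k))]

variable {P t} (ht : ∀ s, (t s : Q ⧸ P) = s)
include ht

open Classical in
lemma res_inc {y : J → QG Q} (hy : y ∈ Fs P J) (k k' : I × (Q ⧸ P)) :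
    res P t J k' (inc P t J k y) = if k' = k then y else 0 := by
  ext j q
  rw [res_apply, inc_apply, coeff_rho]
  by_cases e : k' = k
  · subst e
    by_cases e' : q ∈ P <;> simp [e', hy j q]
  · rw [if_neg e]
    split_ifs with e1 e2
    · simp only [coeff_single_mul_apply, one_mul, inv_inv]
      refine hy j _ fun h => e (Prod.ext e2 ?_)
      rw [← ht k'.2, ← ht k.2, eq_comm, QuotientGroup.eq]
      simpa [mul_assoc] using P.mul_mem h (P.inv_mem e1)
    · simp
    · simp

lemma sum_inc_res [Fintype (Q ⧸ P)] (u : I × J → QG Q) : ∑ k, inc P t J k (res P t J k u) = u := by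
  classical
  ext ⟨i, j⟩ q
  have : ∀ s : Q ⧸ P, (t s)⁻¹ * q ∈ P ↔ s = q := fun s => by rw [← QuotientGroup.eq, ht]
  simp [inc_apply, res_apply, Fintype.sum_prod_type, coeff_rho, this]

end

section
variable {G1 G2 : Type} [Group G1] [Group G2]

lemma vecMul_i1 (f : G1 →* Q) (a : Matrix I I (QG G1)) (u : I × J → QG Q) (i : I) (j : J) :
    (u ᵥ* i1 J f a) (i, j) = ((fun i' => u (i', j)) ᵥ* a.map (mq f)) i := by
  simp [vecMul, dotProduct, Fintype.sum_prod_type, i1_apply]

lemma vecMul_i2 (f : G2 →* Q) (b : Matrix J J (QG G2)) (u : I × J → QG Q) (i : I) (j : J) :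
    (u ᵥ* i2 I f b) (i, j) = ((fun j' => u (i, j')) ᵥ* b.map (mq f)) j := by
  simp [vecMul, dotProduct, Fintype.sum_prod_type_right, i2_apply]

variable (f : G2 →* Q) (b : Matrix J J (QG G2)) (t : Q ⧸ f.range → Q)

lemma res_i2 (k : I × (Q ⧸ f.range)) (u : I × J → QG Q) :
    res _ t J k (u ᵥ* i2 I f b) = res _ t J k u ᵥ* b.map (mq f) := by
  ext1 j
  simp only [res_apply, vecMul_i2]
  simp only [res_apply, vecMul, dotProduct, mul_sum, map_sum, ← mul_assoc, map_apply,
    rho_mul_right (su_mq f _)]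

lemma inc_i2 (k : I × (Q ⧸ f.range)) (y : J → QG Q) :
    inc _ t J k (y ᵥ* b.map (mq f)) = inc _ t J k y ᵥ* i2 I f b := by
  ext1 ⟨i, j⟩
  rw [vecMul_i2]
  by_cases e : i = k.1 <;> simp [inc_apply, e, vecMul, dotProduct, mul_sum, mul_assoc]

lemma Ht_range_i2 [Fintype (Q ⧸ f.range)] (ht : ∀ s, (t s : Q ⧸ f.range) = s) :
    Ht (LinearMap.range (vm (i2 I f b))) ≤
      Fintype.card (I × (Q ⧸ f.range)) * Ht ((Fs f.range J).map (vm (b.map (mq f)))) := by
  have : LinearMap.range (vm (i2 I f b)) = univ.sup fun k : I × (Q ⧸ f.range) =>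
      ((Fs f.range J).map (vm (b.map (mq f)))).map (inc _ t J k) := by
    refine le_antisymm ?_ (Finset.sup_le ?_)
    · rintro _ ⟨u, rfl⟩
      rw [← sum_inc_res ht u, map_sum]
      refine Submodule.sum_mem _ fun k _ => (le_sup (f := fun k : I × (Q ⧸ f.range) =>
        ((Fs f.range J).map (vm (b.map (mq f)))).map (inc _ t J k)) (mem_univ k)) ?_
      exact ⟨_, ⟨_, res_mem _ t k u, rfl⟩, inc_i2 f b t k _⟩
    · rintro k - _ ⟨_, ⟨y, -, rfl⟩, rfl⟩
      exact ⟨_, (inc_i2 f b t k y).symm⟩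
  rw [this]
  exact (Ht_iSup _ _).trans ((sum_le_card_nsmul _ _ _ fun k _ => Ht_inc _ t k _).trans (by simp))

end

end

end Pool.Agent.Lib.MP_b65ff2_gt
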