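import Pool.Agent.Lib.MP_b65ff2_gt.Super

namespace Pool.Agent.Lib.MP_b65ff2_gt

open Matrix MonoidAlgebra Finset

set_option linter.unusedSectionVars false

noncomputable section

theorem uncross {L : Type} [DistribLattice L] [BoundedOrder L] (h : L → ℝ) (h0 : ∀ a, 0 ≤ h a)
    (hs : ∀ a b, h (a ⊔ b) + h (a ⊓ b) ≤ h a + h b) (N β : ℕ) : ∀ e : ℕ → L,
    (∀ s ⊆ range N, s.card = β + 1 → s.inf e = ⊥) →
      ((N : ℝ) - β) * h ⊥ ≤ ∑ k ∈ range N, h (e k) := by
  induction β with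
  | zero =>
    intro e he
    rw [sum_congr rfl fun k hk => congrArg h (show e k = ⊥ by simpa using he {k} (by simpa using hk) rfl)]
    simp
  | succ β ih =>
    intro e he
    have h1 : ∀ n, ∑ k ∈ range n, h (e k ⊓ (range k).sup e) + h ((range n).sup e) ≤
        h ⊥ + ∑ k ∈ range n, h (e k) := fun n => by
      induction n with
      | zero => simp
      | succ n ih =>
        rw [sum_range_succ, sum_range_succ, range_add_one, sup_insert]
        linarith [hs (e n) ((range n).sup e)]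
    have h2 := ih (fun k => e k ⊓ (range k).sup e) fun s hs hc => by
      have ne : s.Nonempty := card_pos.1 (by omega)
      refine le_bot_iff.1 (le_trans (b := s.inf e ⊓ (range (s.min' ne)).sup e) (le_inf
        (inf_mono_fun fun _ _ => inf_le_left) ((inf_le (s.min'_mem ne)).trans inf_le_right)) ?_)
      rw [sup_inf_distrib_left, Finset.sup_le_iff]
      intro j hj
      have hj' : j ∉ s := fun h => absurd (s.min'_le j h) (not_le.2 (mem_range.1 hj))
      rw [inf_comm, ← inf_insert, he _ (insert_subset (mem_range.2 ((mem_range.1 hj).trans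
        (mem_range.1 (hs (s.min'_mem ne))))) hs) (by rw [card_insert_of_notMem hj', hc])]
    have := h1 N
    have := h0 ((range N).sup e)
    push_cast
    linarith

section
variable {E F : Type} [AddCommGroup E] [Module ℚ E] [AddCommGroup F] [Module ℚ F]

def fil (r : ℕ → E →ₗ[ℚ] F) (V : Submodule ℚ E) (n : ℕ) : Submodule ℚ E :=
  V ⊓ ⨅ j < n, LinearMap.ker (r j)

lemma mem_fil {r : ℕ → E →ₗ[ℚ] F} {V : Submodule ℚ E} {n : ℕ} {x : E} :
    x ∈ fil r V n ↔ x ∈ V ∧ ∀ j < n, r j x = 0 := by simp [fil]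

lemma filt (μ : Submodule ℚ E → ℝ) (ν : Submodule ℚ F → ℝ) (r : ℕ → E →ₗ[ℚ] F)
    (h0 : ∀ Y, 0 ≤ μ Y) (h : ∀ k Y, ν (Y.map (r k)) + μ (Y ⊓ LinearMap.ker (r k)) ≤ μ Y)
    (V : Submodule ℚ E) (n : ℕ) : ∑ k ∈ range n, ν ((fil r V k).map (r k)) ≤ μ V := by
  suffices ∑ k ∈ range n, ν ((fil r V k).map (r k)) + μ (fil r V n) ≤ μ V by
    linarith [h0 (fil r V n)]
  induction n with
  | zero => simp [fil]
  | succ n ih =>
    have : fil r V (n + 1) = fil r V n ⊓ LinearMap.ker (r n) := by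
      ext x; simp only [mem_fil, Nat.forall_lt_succ_right, and_assoc, Submodule.mem_inf,
        LinearMap.mem_ker]
    rw [sum_range_succ, this]
    linarith [h n (fil r V n)]

lemma finrank_map_add [Module.Finite ℚ E] (f : E →ₗ[ℚ] F) (Y : Submodule ℚ E) :
    Module.finrank ℚ (Y.map f) + Module.finrank ℚ (Y ⊓ LinearMap.ker f : Submodule ℚ E) =
      Module.finrank ℚ Y := by
  rw [← (f.domRestrict Y).finrank_range_add_finrank_ker, LinearMap.range_domRestrict,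
    LinearMap.ker_domRestrict, ← Submodule.finrank_map_subtype_eq, Submodule.map_comap_subtype]

end

section
variable {Ω : Type} [Fintype Ω] [DecidableEq Ω]

lemma rg_kr {B : Matrix Ω Ω ℚ} (s : Bᵀ = B) {x : Ω → ℚ} (h1 : x ∈ rg B) (h2 : x ∈ kr B) : x = 0 := by
  rw [← s, ← perp_rg] at h2
  exact dotProduct_self_eq_zero.1 (h2 x h1)

lemma step1 {A B : Matrix Ω Ω ℚ} (sA : Aᵀ = A) (sB : Bᵀ = B) (c : A * B = B * A)
    (hi : ∀ i j, ∃ z : ℤ, A i j = z) {k : ℚ} (hk : 1 ≤ k)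
    (h : ∀ x, (x ᵥ* A) ⬝ᵥ (x ᵥ* A) ≤ k * (x ⬝ᵥ x)) :
    ht (rg B ⊔ kr A ⊓ kr B) + ht (kr A ⊓ kr B) ≤
      ht (rg B) + Module.finrank ℚ (kr B) * Real.log k := by
  have h1 := ht_map A.vecMulLinear (fun x hx => lam_vecMul hx hi) hk h (kr B)
  have e : perp ((kr B).map A.vecMulLinear) = rg B ⊔ kr A ⊓ kr B := by
    refine le_antisymm (fun x hx => ?_) (sup_le ?_ ?_)
    · obtain ⟨w, hw, y, hy, rfl⟩ := exists_decomp (rg B) x
      rw [perp_rg, sB] at hy
      refine Submodule.add_mem_sup hw ⟨?_, hy⟩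
      have y1 : y ᵥ* A ∈ kr B := by
        rw [mem_kr, vecMul_vecMul, c, ← vecMul_vecMul, mem_kr.1 hy, zero_vecMul]
      have y2 : (y ᵥ* A) ᵥ* A ∈ kr B := by
        rw [mem_kr, vecMul_vecMul, c, ← vecMul_vecMul, mem_kr.1 y1, zero_vecMul]
      have := hx _ ⟨_, y1, rfl⟩
      rw [← sB, ← perp_rg] at y2
      rw [vecMulLinear_apply, add_dotProduct, dotProduct_comm, y2 w hw, zero_add] at this
      nth_rewrite 2 [← sA] at this
      rw [← dot_vecMul] at this
      exact dotProduct_self_eq_zero.1 this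
    · rintro w hw _ ⟨y, hy, rfl⟩
      have y1 : y ᵥ* A ∈ kr B := by
        rw [mem_kr, vecMul_vecMul, c, ← vecMul_vecMul, mem_kr.1 hy, zero_vecMul]
      rw [← sB, ← perp_rg] at y1
      rw [dotProduct_comm]
      exact y1 w hw
    · rintro u hu _ ⟨y, -, rfl⟩
      rw [vecMulLinear_apply, dotProduct_comm, dot_vecMul, sA, mem_kr.1 hu.1, dotProduct_zero]
  rwa [← ht_perp, e, ← kr, inf_comm (kr B), ht_kr B, sB] at h1

lemma trace_idem {E : Matrix Ω Ω ℚ} (h : E * E = E) : E.trace = Module.finrank ℚ (rg E) := by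
  obtain ⟨P, hP⟩ := exists_isP (rg E)
  have e1 : E * P = E := vecMul_ext fun x => by rw [← vecMul_vecMul, hP.fix _ (mem_rg.2 ⟨x, rfl⟩)]
  have e2 : P * E = P := vecMul_ext fun x => by
    obtain ⟨y, hy⟩ := mem_rg.1 (hP.mem x)
    rw [← vecMul_vecMul, ← hy, vecMul_vecMul, h]
  rw [← hP.tr, ← e1, trace_mul_comm, e2]

end

variable {Q K K' : Type} [Group Q] [Fintype Q] [DecidableEq Q] [Fintype K] [DecidableEq K]
  [Fintype K'] [DecidableEq K']

def Ht (W : Submodule ℚ (K → QG Q)) : ℝ := ht (W.map (cv Q K).toLinearMap)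

def nS (z : QG Q) : ℚ := ∑ q, z.coeff q * z.coeff q

lemma nS_nonneg (z : QG Q) : 0 ≤ nS z := sum_nonneg fun _ _ => mul_self_nonneg _

lemma cv_dot (x : K → QG Q) : cv Q K x ⬝ᵥ cv Q K x = ∑ k, nS (x k) := by
  simp [dotProduct, Fintype.sum_prod_type_right, nS, cv_apply]

def Zi (z : QG Q) : Prop := ∀ q, ∃ n : ℤ, z.coeff q = n

lemma Ht_map (f : (K → QG Q) →ₗ[ℚ] (K' → QG Q)) (hi : ∀ x, (∀ k, Zi (x k)) → ∀ k, Zi (f x k))
    {c : ℚ} (hc : 1 ≤ c) (h : ∀ x, ∑ k, nS (f x k) ≤ c * ∑ k, nS (x k))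
    (Y : Submodule ℚ (K → QG Q)) :
    Ht (Y.map f) + Ht (Y ⊓ LinearMap.ker f) ≤ Ht Y + Module.finrank ℚ Y * Real.log c := by
  have := ht_map ((cv Q K').toLinearMap ∘ₗ f ∘ₗ (cv Q K).symm.toLinearMap) (fun x hx => by
    obtain ⟨x, rfl⟩ := (cv Q K).surjective x
    rw [mem_Lam] at hx ⊢
    intro w
    simpa [cv_apply] using hi x (fun k q => hx (q, k)) w.2 w.1) hc (fun x => by
      obtain ⟨x, rfl⟩ := (cv Q K).surjective x
      simpa [cv_dot] using h x) (Y.map (cv Q K).toLinearMap)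
  rw [LinearEquiv.finrank_map_eq] at this
  unfold Ht
  convert this using 3
  · rw [← Submodule.map_comp, ← Submodule.map_comp]
    congr 1
    exact LinearMap.ext fun x => by simp
  · ext x
    obtain ⟨x, rfl⟩ := (cv Q K).surjective x
    simp

lemma Ht_nonneg (W : Submodule ℚ (K → QG Q)) : 0 ≤ Ht W := ht_nonneg _

lemma Ht_submod (V W : Submodule ℚ (K → QG Q)) : Ht (V ⊔ W) + Ht (V ⊓ W) ≤ Ht V + Ht W := by
  rw [Ht, Ht, Submodule.map_sup, Submodule.map_inf _ (cv Q K).injective]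
  exact ht_submod _ _

lemma Ht_bot : Ht (⊥ : Submodule ℚ (K → QG Q)) = 0 := by
  have : rg (0 : Matrix (Q × K) (Q × K) ℚ) = ⊥ := by ext x; simp [mem_rg, eq_comm]
  rw [Ht, Submodule.map_bot, ← this, ht_rg_zero]

lemma Ht_iSup {ι : Type} (s : Finset ι) (W : ι → Submodule ℚ (K → QG Q)) :
    Ht (s.sup W) ≤ ∑ i ∈ s, Ht (W i) := by
  classical
  induction s using Finset.induction_on with
  | empty => simp [Ht_bot]
  | insert a s ha ih =>
    rw [sup_insert, sum_insert ha]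
    linarith [Ht_submod (W a) (s.sup W), Ht_nonneg (W a ⊓ s.sup W)]

def vm (M : Matrix K K' (QG Q)) : (K → QG Q) →ₗ[ℚ] (K' → QG Q) := M.vecMulLinear.restrictScalars ℚ

lemma vm_apply (M : Matrix K K' (QG Q)) (x : K → QG Q) : vm M x = x ᵥ* M := rfl

lemma map_range_vm (M : Matrix K K' (QG Q)) :
    (LinearMap.range (vm M)).map (cv Q K').toLinearMap = rg (rep M) := by
  ext x
  constructor
  · rintro ⟨_, ⟨y, rfl⟩, rfl⟩
    exact ⟨cv Q K y, (cv_vecMul y M).symm⟩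
  · rintro ⟨y, rfl⟩
    obtain ⟨y, rfl⟩ := (cv Q K).surjective y
    exact ⟨_, ⟨y, rfl⟩, cv_vecMul y M⟩

lemma map_ker_vm (M : Matrix K K' (QG Q)) :
    (LinearMap.ker (vm M)).map (cv Q K).toLinearMap = kr (rep M) := by
  ext x
  obtain ⟨x, rfl⟩ := (cv Q K).surjective x
  simp [mem_kr, ← cv_vecMul, vm_apply]

lemma vm_zero {M : Matrix K K (QG Q)} (s : Mᴴ = M) {y : K → QG Q} (h : (y ᵥ* M) ᵥ* M = 0) :
    y ᵥ* M = 0 := by
  have := rg_kr (B := rep M) (by rw [← rep_star, s]) (x := cv Q K (y ᵥ* M))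
    ⟨cv Q K y, (cv_vecMul y M).symm⟩ (by rw [mem_kr, ← cv_vecMul, h, map_zero])
  simpa using this

end

end Pool.Agent.Lib.MP_b65ff2_gt
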