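import Pool.Agent.Lib.MP_b65ff2_gt.Block

namespace Pool.Agent.Lib.MP_b65ff2_gt

open Matrix MonoidAlgebra Finset

set_option linter.unusedSectionVars false

noncomputable section

variable {Q I J K Γ G1 G2 : Type} [Group Q] [Fintype Q] [DecidableEq Q] [Fintype I] [DecidableEq I]
  [Fintype J] [DecidableEq J] [Fintype K] [DecidableEq K] [CommGroup Γ] [Fintype Γ] [DecidableEq Γ]
  [Group G1] [Group G2]

lemma su_comm {P P' : Subgroup Q} (h : ∀ x ∈ P, ∀ y ∈ P', x * y = y * x) {w z : QG Q}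
    (hw : Su P w) (hz : Su P' z) : w * z = z * w := by
  ext q
  rw [coeff_mul_fin, coeff_mul_apply_right, Finsupp.sum_fintype _ _ (by simp)]
  refine sum_congr rfl fun g _ => ?_
  by_cases e : g ∈ P
  · rw [mul_comm]
    by_cases e1 : g⁻¹ * q ∈ P'
    · have := h g e _ e1
      rw [mul_inv_cancel_left] at this
      rw [show q * g⁻¹ = g⁻¹ * q by rw [mul_inv_eq_iff_eq_mul]; exact this]
    · rw [hz _ e1, hz _ fun e2 => e1 ?_]
      have := h g e _ e2
      rw [inv_mul_cancel_right] at this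
      rwa [show g⁻¹ * q = q * g⁻¹ by rw [inv_mul_eq_iff_eq_mul]; exact this.symm]
  · simp [hw g e]

lemma Fs_vecMul {P : Subgroup Q} {y : K → QG Q} (hy : y ∈ Fs P K) {M : Matrix K K (QG Q)}
    (hM : ∀ i j, Su P (M i j)) : y ᵥ* M ∈ Fs P K := fun k q hq => by
  simp only [vecMul, dotProduct, coeff_sum, Finsupp.finsetSum_apply]
  exact sum_eq_zero fun i _ => (hy i).mul (hM i k) q hq

def sig (c : Γ →* Q) (q : Q) : QG Q →ₗ[ℚ] QG Γ where
  toFun z := .ofCoeff (Finsupp.equivFunOnFinite.symm fun γ => z.coeff (c γ * q))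
  map_add' _ _ := by ext; simp
  map_smul' _ _ := by ext; simp

lemma coeff_sig (c : Γ →* Q) (q : Q) (z : QG Q) (γ : Γ) :
    (sig c q z).coeff γ = z.coeff (c γ * q) := rfl

lemma sig_mul (c : Γ →* Q) (q : Q) (r : QG Γ) (z : QG Q) : sig c q (mq c r * z) = r * sig c q z := by
  induction r using induction_linear with
  | zero => simp
  | add a b ha hb => simp [add_mul, ha, hb]
  | single g a => ext γ; simp [mq_single, coeff_sig, mul_assoc]

structure Ctx (f1 : G1 →* Q) (f2 : G2 →* Q) (c : Γ →* Q) (t : Q ⧸ f2.range → Q) : Prop where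
  comm : ∀ x y, Commute (f1 x) (f2 y)
  gen : ∀ q, ∃ x y, q = f1 x * f2 y
  inj : Function.Injective c
  rng : ∀ q, q ∈ c.range ↔ q ∈ f1.range ∧ q ∈ f2.range
  sec : ∀ s, (t s : Q ⧸ f2.range) = s
  mem : ∀ s, t s ∈ f1.range

def Xs (f1 : G1 →* Q) (a : Matrix I I (QG G1)) : Submodule ℚ (I → QG Q) :=
  Fs f1.range I ⊓ LinearMap.ker (vm (a.map (mq f1)))

def Zs (f2 : G2 →* Q) (b : Matrix J J (QG G2)) : Submodule ℚ (J → QG Q) :=
  (Fs f2.range J).map (vm (b.map (mq f2)))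

def Tm (c : Γ →* Q) (X : Submodule ℚ (K → QG Q)) (e : QG Γ) : Submodule ℚ (K → QG Q) where
  carrier := {y | y ∈ X ∧ mq c e • y = y}
  add_mem' ha hb := ⟨X.add_mem ha.1 hb.1, by rw [smul_add, ha.2, hb.2]⟩
  zero_mem' := ⟨X.zero_mem, smul_zero _⟩
  smul_mem' a x hx := ⟨X.smul_mem a hx.1, by rw [smul_comm, hx.2]⟩

def rs (c : Γ →* Q) {P : Subgroup Q} (t : Q ⧸ P → Q) (k : I × (Q ⧸ P)) :
    (I → QG Q) →ₗ[ℚ] QG Γ := sig c (t k.2) ∘ₗ LinearMap.proj k.1

lemma rs_apply (c : Γ →* Q) {P : Subgroup Q} (t : Q ⧸ P → Q) (k : I × (Q ⧸ P)) (x : I → QG Q) :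
    rs c t k x = sig c (t k.2) (x k.1) := rfl

lemma rs_smul (c : Γ →* Q) {P : Subgroup Q} (t : Q ⧸ P → Q) (k : I × (Q ⧸ P)) (r : QG Γ)
    (x : I → QG Q) : rs c t k (mq c r • x) = r * rs c t k x := sig_mul _ _ _ _

lemma Xs_smul {f : G1 →* Q} {a : Matrix I I (QG G1)} {w : QG Q} (hw : Su f.range w) {x : I → QG Q}
    (hx : x ∈ Xs f a) : w • x ∈ Xs f a :=
  ⟨fun i => hw.mul (hx.1 i), by
    change (w • x) ᵥ* _ = 0
    rw [smul_vecMul, show x ᵥ* _ = 0 from hx.2, smul_zero]⟩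

lemma star_map (f : G1 →* Q) {a : Matrix I I (QG G1)} (s : aᴴ = a) :
    (a.map (mq f))ᴴ = a.map (mq f) := by
  rw [← conjTranspose_map _ fun x => (mq_star f x).symm ▸ rfl, s]

lemma Zs_Xs {f : G2 →* Q} {b : Matrix J J (QG G2)} (s : bᴴ = b) {z y : J → QG Q} (hz : z ∈ Zs f b)
    (hy : y ∈ Xs f b) (h : z + y = 0) : y = 0 := by
  obtain ⟨w, -, rfl⟩ := hz
  have := congrArg (vm (b.map (mq f))) h
  rw [map_add, show vm _ y = 0 from hy.2, add_zero, map_zero] at this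
  rwa [vm_apply, vm_zero (star_map f s) this, zero_add] at h

variable {f1 : G1 →* Q} {f2 : G2 →* Q} {c : Γ →* Q} {t : Q ⧸ f2.range → Q} (H : Ctx f1 f2 c t)
include H

lemma Ctx.comm' : ∀ x ∈ f1.range, ∀ y ∈ f2.range, x * y = y * x := by
  rintro _ ⟨x, rfl⟩ _ ⟨y, rfl⟩
  exact H.comm x y

lemma Ctx.cen (γ : Γ) (q : Q) : Commute (c γ) q := by
  obtain ⟨x, y, rfl⟩ := H.gen q
  have := (H.rng _).1 ⟨γ, rfl⟩
  exact Commute.mul_right (H.comm' _ ⟨x, rfl⟩ _ this.2).symm (H.comm' _ this.1 _ ⟨y, rfl⟩)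

lemma Ctx.central (r : QG Γ) (z : QG Q) : mq c r * z = z * mq c r :=
  su_comm (P' := ⊤) (by rintro _ ⟨γ, rfl⟩ y -; exact H.cen γ y) (su_mq c r) fun _ h => absurd trivial h

lemma Ctx.su1 (r : QG Γ) : Su f1.range (mq c r) := fun q h => su_mq c r q fun e => h ((H.rng q).1 e).1

lemma Ctx.su2 (r : QG Γ) : Su f2.range (mq c r) := fun q h => su_mq c r q fun e => h ((H.rng q).1 e).2

lemma Ctx.rho_sig {g : Q} (hg : g ∈ f1.range) {x : QG Q} (hx : Su f1.range x) :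
    rho f2.range (single g⁻¹ 1 * x) = mq c (sig c g x) := by
  ext q
  rw [coeff_rho, coeff_single_mul_apply, one_mul, inv_inv]
  by_cases e : q ∈ c.range
  · obtain ⟨γ, rfl⟩ := e
    rw [coeff_mq_inj H.inj, coeff_sig, if_pos ((H.rng _).1 ⟨γ, rfl⟩).2, (H.cen γ g).eq]
  · rw [su_mq c _ q e]
    split_ifs with e1
    · exact hx _ fun e2 => e ((H.rng q).2 ⟨by simpa using mul_mem (inv_mem hg) e2, e1⟩)
    · rfl

lemma Ctx.exists_idem (a : Matrix I I (QG G1)) (κ : ℕ → I × (Q ⧸ f2.range)) (n : ℕ) :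
    ∃ e : QG Γ, IsIdempotentElem e ∧
      (∃ x ∈ fil (fun j => rs c t (κ j)) (Xs f1 a) n, rs c t (κ n) x = e) ∧
      ∀ x ∈ fil (fun j => rs c t (κ j)) (Xs f1 a) n, e * rs c t (κ n) x = rs c t (κ n) x := by
  let A : Ideal (QG Γ) :=
    { carrier := (fil (fun j => rs c t (κ j)) (Xs f1 a) n).map (rs c t (κ n))
      add_mem' := Submodule.add_mem _
      zero_mem' := Submodule.zero_mem _
      smul_mem' := by
        rintro r _ ⟨x, hx, rfl⟩
        have := mem_fil.1 hx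
        exact ⟨mq c r • x, mem_fil.2 ⟨Xs_smul (H.su1 r) this.1, fun j hj => by
          rw [rs_smul, this.2 j hj, mul_zero]⟩, rs_smul _ _ _ _ _⟩ }
  obtain ⟨e, he, h⟩ := IsSemisimpleRing.ideal_eq_span_idempotent A
  refine ⟨e, he, (show e ∈ A from h ▸ Ideal.mem_span_singleton_self e), fun x hx => ?_⟩
  obtain ⟨r, hr⟩ := Ideal.mem_span_singleton'.1 (h ▸ show rs c t (κ n) x ∈ A from ⟨x, hx, rfl⟩)
  rw [← hr, mul_left_comm, he.eq]

lemma Ctx.slice {a : Matrix I I (QG G1)} {u : I × J → QG Q} (hu : u ᵥ* i1 J f1 a = 0) {q : Q}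
    (hq : q ∈ f2.range) (j : J) : ∃ x ∈ Xs f1 a, ∀ k, rs c t k x = sig c q (res _ t J k u j) := by
  refine ⟨fun i => rho f1.range (u (i, j) * single q⁻¹ 1), ⟨fun i => su_rho _ _, funext fun i => ?_⟩,
    fun k => ?_⟩
  · have := congrFun hu (i, j)
    rw [vecMul_i1] at this
    simp only [vm_apply, vecMul, dotProduct, map_apply] at this ⊢
    simp only [← rho_mul_right (su_mq f1 _), mul_assoc, ← map_sum,
      ← su_comm H.comm' (su_mq f1 _) (su_single (inv_mem hq) 1)]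
    simp only [← mul_assoc, ← sum_mul, this]
    simp
  · ext γ
    have := (H.rng _).1 ⟨γ, rfl⟩
    simp only [rs_apply, coeff_sig, res_apply, coeff_rho, if_pos (mul_mem (H.mem _) this.1),
      if_pos (mul_mem this.2 hq), coeff_mul_single_apply, coeff_single_mul_apply, inv_inv,
      one_mul, mul_one, (H.cen γ (t k.2)).eq, mul_assoc]

lemma Ctx.main {a : Matrix I I (QG G1)} {b : Matrix J J (QG G2)} (sb : bᴴ = b)
    {κ : ℕ → I × (Q ⧸ f2.range)} {n : ℕ} (hκ : ∀ j < n, κ j ≠ κ n) {e : QG Γ}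
    (h1 : ∃ x ∈ fil (fun j => rs c t (κ j)) (Xs f1 a) n, rs c t (κ n) x = e)
    (h2 : ∀ x ∈ fil (fun j => rs c t (κ j)) (Xs f1 a) n, e * rs c t (κ n) x = rs c t (κ n) x) :
    (fil (fun j => res _ t J (κ j)) (LinearMap.range (vm (i2 I f2 b)) ⊔
      LinearMap.ker (vm (i1 J f1 a)) ⊓ LinearMap.ker (vm (i2 I f2 b))) n).map (res _ t J (κ n)) =
      Zs f2 b ⊔ Tm c (Xs f2 b) e := by
  refine le_antisymm ?_ (sup_le ?_ ?_)
  · rintro _ ⟨v, hv, rfl⟩
    obtain ⟨hv, h0⟩ := mem_fil.1 hv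
    obtain ⟨_, ⟨z, rfl⟩, u, hu, rfl⟩ := Submodule.mem_sup.1 hv
    have z1 : ∀ k, res _ t J k (vm (i2 I f2 b) z) ∈ Zs f2 b := fun k =>
      ⟨_, res_mem _ t k z, (res_i2 f2 b t k z).symm⟩
    have u1 : ∀ k, res _ t J k u ∈ Xs f2 b := fun k => ⟨res_mem _ t k u,
      (res_i2 f2 b t k u).symm.trans (by rw [show u ᵥ* _ = 0 from hu.2, map_zero])⟩
    have u2 : ∀ j < n, res _ t J (κ j) u = 0 := fun j hj =>
      Zs_Xs sb (z1 _) (u1 _) ((map_add _ _ _).symm.trans (h0 j hj))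
    rw [map_add]
    refine Submodule.add_mem_sup (z1 _) ⟨u1 _, ?_⟩
    ext j q
    by_cases hq : q ∈ f2.range
    · obtain ⟨x, hx, hx'⟩ := H.slice hu.1 hq j
      have := h2 x (mem_fil.2 ⟨hx, fun i hi => by rw [hx', u2 i hi]; simp⟩)
      rw [hx', ← sig_mul] at this
      simpa [coeff_sig] using congrArg (fun r : QG Γ => r.coeff 1) this
    · rw [(u1 _).1 j q hq]
      exact (H.su2 e).mul ((u1 _).1 j) q hq
  · rintro _ ⟨z, hz, rfl⟩
    have := Fs_vecMul hz (M := b.map (mq f2)) fun i j => su_mq f2 _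
    exact ⟨inc _ t J (κ n) (z ᵥ* b.map (mq f2)), mem_fil.2 ⟨Submodule.mem_sup_left
      ⟨_, (inc_i2 f2 b t _ z).symm⟩, fun j hj => by rw [res_inc H.sec this, if_neg (hκ j hj)]⟩,
      by rw [res_inc H.sec this, if_pos rfl]; rfl⟩
  · rintro y ⟨hy, hy'⟩
    obtain ⟨x, hx, hx'⟩ := h1
    obtain ⟨hx, h0⟩ := mem_fil.1 hx
    have r1 : ∀ k, res _ t J k (fun p => x p.1 * y p.2) = mq c (rs c t k x) • y := fun k => by
      funext j
      rw [res_apply, ← mul_assoc, rho_mul_right (hy.1 j), H.rho_sig (H.mem _) (hx.1 _)]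
      rfl
    refine ⟨fun p => x p.1 * y p.2, mem_fil.2 ⟨Submodule.mem_sup_right ⟨?_, ?_⟩, fun j hj => by
      rw [r1, h0 j hj]; simp⟩, by rw [r1, hx', hy']⟩
    · funext ⟨i, j⟩
      have := congrFun hx.2 i
      rw [vm_apply, vecMul_i1]
      simp only [vm_apply, vecMul, dotProduct, map_apply] at this ⊢
      simp only [mul_assoc, ← su_comm H.comm' (su_mq f1 _) (hy.1 j)]
      simp only [← mul_assoc, ← sum_mul, this]
      simp
    · funext ⟨i, j⟩
      have := congrFun hy.2 j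
      rw [vm_apply, vecMul_i2]
      simp only [vm_apply, vecMul, dotProduct, map_apply] at this ⊢
      simp only [mul_assoc, ← mul_sum, this]
      simp

lemma Ctx.submod {b : Matrix J J (QG G2)} (sb : bᴴ = b) (e f : {a : QG Γ // IsIdempotentElem a}) :
    Ht (Zs f2 b ⊔ Tm c (Xs f2 b) (e ⊔ f).1) + Ht (Zs f2 b ⊔ Tm c (Xs f2 b) (e ⊓ f).1) ≤
      Ht (Zs f2 b ⊔ Tm c (Xs f2 b) e.1) + Ht (Zs f2 b ⊔ Tm c (Xs f2 b) f.1) := by
  have m : ∀ {e f : QG Γ}, e * f = e → Tm c (Xs f2 b) e ≤ Tm c (Xs f2 b) f := fun h y hy =>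
    ⟨hy.1, by rw [← hy.2, smul_smul, ← map_mul, mul_comm, h]⟩
  have e1 : Tm c (Xs f2 b) (e ⊔ f).1 = Tm c (Xs f2 b) e.1 ⊔ Tm c (Xs f2 b) f.1 := by
    refine le_antisymm (fun y hy => ?_) (sup_le (m (le_sup_left : e ≤ e ⊔ f))
      (m (le_sup_right : f ≤ e ⊔ f)))
    have : y = mq c e.1 • y + mq c (f.1 - e.1 * f.1) • y := by
      rw [← add_smul, ← map_add, ← add_sub_assoc]; exact hy.2.symm
    rw [this]
    refine Submodule.add_mem_sup ⟨Xs_smul (H.su2 _) hy.1, ?_⟩ ⟨Xs_smul (H.su2 _) hy.1, ?_⟩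
    · rw [smul_smul, ← map_mul, e.2.eq]
    · rw [smul_smul, ← map_mul, mul_sub, mul_left_comm, f.2.eq]
  have e2 : Zs f2 b ⊔ Tm c (Xs f2 b) (e ⊓ f).1 =
      (Zs f2 b ⊔ Tm c (Xs f2 b) e.1) ⊓ (Zs f2 b ⊔ Tm c (Xs f2 b) f.1) := by
    refine le_antisymm (le_inf (sup_le_sup_left (m (inf_le_left : e ⊓ f ≤ e)) _)
      (sup_le_sup_left (m (inf_le_right : e ⊓ f ≤ f)) _)) fun v hv => ?_
    obtain ⟨z, hz, y, hy, rfl⟩ := Submodule.mem_sup.1 hv.1
    obtain ⟨z', hz', y', hy', h⟩ := Submodule.mem_sup.1 hv.2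
    have := Zs_Xs sb (sub_mem hz' hz) (sub_mem hy'.1 hy.1) (by rw [← sub_eq_zero.2 h]; abel)
    rw [sub_eq_zero] at this
    subst this
    refine Submodule.add_mem_sup hz ⟨hy.1, ?_⟩
    change mq c (e.1 * f.1) • y' = y'
    rw [map_mul, mul_smul, hy'.2, hy.2]
  rw [e1, e2, sup_sup_distrib_left]
  exact Ht_submod _ _

omit H in
lemma idem_star {f : QG Γ} (hf : IsIdempotentElem f) : f * star f = f := by
  have : f * (1 - star f) = 0 := eq_zero_of_mul_star (by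
    rw [star_mul, star_sub, star_one, star_star, mul_assoc, mul_comm (1 - f), ← mul_assoc (1 - _),
      hf.star.one_sub_mul_self, zero_mul, mul_zero])
  rw [mul_sub, mul_one, sub_eq_zero] at this
  exact this.symm

omit H in
lemma idem_pos {f : QG Γ} (hf : IsIdempotentElem f) (h0 : f ≠ 0) : 0 < f.coeff 1 := by
  rw [← idem_star hf, coeff_mul_star]
  exact sum_pos (fun g hg => mul_self_pos.2 (Finsupp.mem_support_iff.1 hg))
    (Finsupp.support_nonempty_iff.2 (by simpa))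

omit H in
lemma idem_rank {f : QG Γ} (hf : IsIdempotentElem f) :
    (Module.finrank ℚ (LinearMap.range (LinearMap.mulRight ℚ f)) : ℚ) =
      Fintype.card Γ * f.coeff 1 := by
  have : LinearMap.IsProj (LinearMap.range (LinearMap.mulRight ℚ f)) (LinearMap.mulRight ℚ f) :=
    ⟨fun x => ⟨x, rfl⟩, by rintro _ ⟨x, rfl⟩; simp [mul_assoc, hf.eq]⟩
  rw [← this.trace, LinearMap.trace_eq_matrix_trace ℚ (MonoidAlgebra.basis Γ ℚ)]
  simp [trace, LinearMap.toMatrix_apply, MonoidAlgebra.basis]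

lemma Ctx.rank_le {a : Matrix I I (QG G1)} {G : Matrix I I (QG Q)}
    (hG : ∀ x, x ᵥ* a.map (mq f1) = 0 → x ᵥ* G = x)
    (h0 : ∀ i γ, γ ≠ 1 → ((G * Gᴴ) i i).coeff (c γ) = 0) {δ : ℚ}
    (h1 : ∀ i, ((G * Gᴴ) i i).coeff 1 ≤ δ) {f : QG Γ} (hf : IsIdempotentElem f) (f0 : f ≠ 0) :
    (Module.finrank ℚ (Tm c (Xs f1 a) f) : ℚ) ≤
      Nat.card f1.range * Fintype.card I * δ * f.coeff 1 := by
  rw [← LinearEquiv.finrank_map_eq (cv Q I)]
  refine (finrank_le_trace (H := pS f1.range I * rep (mq c f • G)) ?_).trans ?_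
  · rintro _ ⟨x, hx, rfl⟩
    rw [← vecMul_vecMul, LinearEquiv.coe_coe, cv_pS, ← cv_vecMul, funext fun k => (hx.1.1 k).rho]
    congr 1
    rw [← hG x hx.1.2]
    nth_rewrite 2 [← hx.2]
    rw [hG x hx.1.2]
    funext i
    simp only [vecMul, dotProduct, Matrix.smul_apply, Pi.smul_apply, smul_eq_mul]
    exact sum_congr rfl fun j _ => by rw [← mul_assoc, ← H.central]
  · rw [transpose_mul, ← rep_star, Matrix.mul_assoc, ← Matrix.mul_assoc (rep _), ← rep_mul,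
      trace_mul_comm, Matrix.mul_assoc, show (pS f1.range I)ᵀ = _ from diagonal_transpose _,
      ← pS, pS_pS, trace_mul_comm]
    have e : ∀ i, ((mq c f • G * (mq c f • G)ᴴ) i i).coeff 1 =
        f.coeff 1 * ((G * Gᴴ) i i).coeff 1 := fun i => by
      have e1 : (mq c f • G * (mq c f • G)ᴴ) i i = mq c f * (G * Gᴴ) i i := by
        simp only [Matrix.mul_apply, conjTranspose_apply, Matrix.smul_apply, smul_eq_mul, star_mul,
          ← mq_star, mul_sum]
        refine sum_congr rfl fun j _ => ?_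
        rw [mul_assoc, ← mul_assoc (G i j), ← H.central, ← mul_assoc, ← map_mul, idem_star hf]
      have e2 : sig c 1 ((G * Gᴴ) i i) = MonoidAlgebra.single 1 (((G * Gᴴ) i i).coeff 1) := by
        ext γ
        by_cases e : γ = 1 <;> simp [coeff_sig, e, h0]
      have e3 := congrArg (fun r : QG Γ => r.coeff 1) (sig_mul c 1 f ((G * Gᴴ) i i))
      rw [e1]
      simpa [coeff_sig, e2] using e3
    have := sum_pS f1.range fun i => ((mq c f • G * (mq c f • G)ᴴ) i i).coeff 1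
    rw [trace, sum_congr rfl fun x _ => show diag _ x = pS f1.range I x x *
      ((mq c f • G * (mq c f • G)ᴴ) x.2 x.2).coeff 1 by simp [pS, rep_apply], this, mul_assoc,
      mul_assoc]
    refine mul_le_mul_of_nonneg_left ((sum_le_card_nsmul _ _ (δ * f.coeff 1) fun i _ => ?_).trans
      (by simp)) (by positivity)
    rw [e, mul_comm]
    exact mul_le_mul_of_nonneg_right (h1 i) (idem_pos hf f0).le

lemma Ctx.count {a : Matrix I I (QG G1)} {G : Matrix I I (QG Q)}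
    (hG : ∀ x, x ᵥ* a.map (mq f1) = 0 → x ᵥ* G = x)
    (h0 : ∀ i γ, γ ≠ 1 → ((G * Gᴴ) i i).coeff (c γ) = 0) {δ : ℚ}
    (h1 : ∀ i, ((G * Gᴴ) i i).coeff 1 ≤ δ) {κ : ℕ → I × (Q ⧸ f2.range)} {e : ℕ → QG Γ}
    (he : ∀ n, ∃ x ∈ fil (fun j => rs c t (κ j)) (Xs f1 a) n, rs c t (κ n) x = e n)
    {f : QG Γ} (hf : IsIdempotentElem f) (f0 : f ≠ 0) (s : Finset ℕ) (hs : ∀ k ∈ s, f * e k = f) :
    (s.card : ℚ) * Fintype.card Γ ≤ Nat.card f1.range * Fintype.card I * δ := by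
  obtain ⟨N, hN⟩ := s.exists_nat_subset_range
  have h2 := filt (fun Y => Module.finrank ℚ Y) (fun Y => Module.finrank ℚ Y)
    (fun j => rs c t (κ j)) (fun _ => Nat.cast_nonneg _)
    (fun k Y => by exact_mod_cast (finrank_map_add _ Y).le) (Tm c (Xs f1 a) f) N
  have h3 : s.card • Module.finrank ℚ (LinearMap.range (LinearMap.mulRight ℚ f)) ≤
      Module.finrank ℚ (Tm c (Xs f1 a) f) := by
    refine (card_nsmul_le_sum s _ _ fun k hk => Submodule.finrank_mono ?_).trans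
      ((sum_le_sum_of_subset hN).trans (by exact_mod_cast h2))
    rintro _ ⟨r, rfl⟩
    obtain ⟨x, hx, hx'⟩ := he k
    obtain ⟨hx, x0⟩ := mem_fil.1 hx
    refine ⟨mq c (r * f) • x, mem_fil.2 ⟨⟨Xs_smul (H.su1 _) hx, ?_⟩, fun j hj => ?_⟩, ?_⟩
    · rw [smul_smul, ← map_mul, mul_left_comm, hf.eq]
    · rw [rs_smul, x0 j hj, mul_zero]
    · rw [rs_smul, hx', mul_assoc, hs k hk]; rfl
  have h4 : (s.card : ℚ) * (Fintype.card Γ * f.coeff 1) ≤ _ :=
    le_trans (by rw [← idem_rank hf]; exact_mod_cast h3) (H.rank_le hG h0 h1 hf f0)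
  rw [← mul_assoc] at h4
  exact le_of_mul_le_mul_right h4 (idem_pos hf f0)

lemma Ctx.card_le : Nat.card f1.range * Nat.card f2.range ≤ Fintype.card Γ * Fintype.card Q := by
  have e : c.range = f2.range ⊓ f1.range := by ext q; simp only [H.rng, Subgroup.mem_inf, and_comm]
  have h1 := (c.range.subgroupOf f1.range).card_mul_index
  have h2 : Nat.card (c.range.subgroupOf f1.range) = Fintype.card Γ := by
    rw [Nat.card_congr (Subgroup.subgroupOfEquivOfLe (e ▸ inf_le_right)).toEquiv,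
      ← Nat.card_congr (c.ofInjective H.inj).toEquiv, Nat.card_eq_fintype_card]
  have h3 : (c.range.subgroupOf f1.range).index ≤ f2.range.index := by
    rw [← Subgroup.relIndex, e, Subgroup.inf_relIndex_right, ← Subgroup.relIndex_top_right]
    exact Subgroup.relIndex_le_of_le_right le_top
      (by rw [Subgroup.relIndex_top_right]; exact Subgroup.index_ne_zero_of_finite)
  rw [← h1, h2, mul_assoc, ← Nat.card_eq_fintype_card (α := Q), ← f2.range.index_mul_card]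
  gcongr

theorem Ctx.core [Nonempty I] {a : Matrix I I (QG G1)} {b : Matrix J J (QG G2)} (sa : aᴴ = a)
    (sb : bᴴ = b) (ia : ∀ x y, Zi (i1 J f1 a x y)) (ib : ∀ i j, Zi (mq f2 (b i j))) {k : ℚ}
    (hk : 1 ≤ k) (na : ∀ x, (x ᵥ* rep (i1 J f1 a)) ⬝ᵥ (x ᵥ* rep (i1 J f1 a)) ≤ k * (x ⬝ᵥ x))
    (nb : ∀ x, (x ᵥ* rep (b.map (mq f2))) ⬝ᵥ (x ᵥ* rep (b.map (mq f2))) ≤ k * (x ⬝ᵥ x))
    {G : Matrix I I (QG Q)} (hG : ∀ x, x ᵥ* a.map (mq f1) = 0 → x ᵥ* G = x)
    (h0 : ∀ i γ, γ ≠ 1 → ((G * Gᴴ) i i).coeff (c γ) = 0) {δ : ℚ} (hδ : 0 ≤ δ)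
    (h1 : ∀ i, ((G * Gᴴ) i i).coeff 1 ≤ δ) :
    ht (kr (rep (i1 J f1 a)) ⊓ kr (rep (i2 I f2 b))) ≤
      (Fintype.card Q * Fintype.card I * Fintype.card J * δ +
        Module.finrank ℚ (kr (rep (i2 I f2 b)))) * Real.log k := by
  classical
  have := Fintype.ofFinite (Q ⧸ f2.range)
  have s1 := step1 (A := rep (i1 J f1 a)) (B := rep (i2 I f2 b)) (by rw [← rep_star, ← i1_star, sa])
    (by rw [← rep_star, ← i2_star, sb]) (by rw [← rep_mul, ← rep_mul, (i_comm H.comm a b).eq])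
    (fun x y => ia _ _ _) hk na
  have s2 := Ht_range_i2 (I := I) f2 b t H.sec
  set N := Fintype.card (I × (Q ⧸ f2.range))
  let κ : ℕ → I × (Q ⧸ f2.range) := fun n =>
    if h : n < N then (Fintype.equivFin _).symm ⟨n, h⟩ else Classical.arbitrary _
  have hκ : ∀ n < N, ∀ j < n, κ j ≠ κ n := fun n hn j hj e => by
    simp only [κ, dif_pos hn, dif_pos (hj.trans hn), EmbeddingLike.apply_eq_iff_eq,
      Fin.mk.injEq] at e
    omega
  choose e e1 e2 e3 using H.exists_idem a κ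
  have s3 := filt Ht Ht (fun j => res _ t J (κ j)) Ht_nonneg (fun k Y => Ht_res _ t _ Y)
    (LinearMap.range (vm (i2 I f2 b)) ⊔
      LinearMap.ker (vm (i1 J f1 a)) ⊓ LinearMap.ker (vm (i2 I f2 b))) N
  rw [sum_congr rfl fun n hn => congrArg Ht
    (H.main sb (hκ n (mem_range.1 hn)) (e2 n) (e3 n))] at s3
  have g0 : (0 : ℚ) < Fintype.card Γ := by exact_mod_cast Fintype.card_pos
  have s4 := uncross (L := {a : QG Γ // IsIdempotentElem a})
    (fun e => Ht (Zs f2 b ⊔ Tm c (Xs f2 b) e.1)) (fun _ => Ht_nonneg _) (H.submod sb) N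
    ⌊(Nat.card f1.range * Fintype.card I * δ : ℚ) / Fintype.card Γ⌋₊ (fun n => ⟨e n, e1 n⟩)
    fun s _ hs => by
      by_contra h
      have := H.count hG h0 h1 e2 (s.inf fun n => (⟨e n, e1 n⟩ : {a // IsIdempotentElem a})).2
        (fun h' => h (Subtype.ext h')) s fun k hk =>
          (inf_le (f := fun n => (⟨e n, e1 n⟩ : {a // IsIdempotentElem a})) hk :)
      rw [← le_div_iff₀ g0, hs] at this
      exact absurd (Nat.lt_floor_add_one _) (not_lt.2 (by exact_mod_cast this))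
  have s5 : Zs f2 b ⊔ Tm c (Xs f2 b) (⊥ : {a : QG Γ // IsIdempotentElem a}).1 = Zs f2 b :=
    sup_eq_left.2 fun y hy => by
      have : y = 0 := hy.2.symm.trans (by change mq c 0 • y = 0; simp)
      exact this ▸ Submodule.zero_mem _
  have s6 : Ht (Zs f2 b) ≤ _ := Ht_Fs_map f2.range (b.map (mq f2)) ib hk nb
  have s7 : (⌊(Nat.card f1.range * Fintype.card I * δ : ℚ) / Fintype.card Γ⌋₊ : ℚ) *
      Nat.card f2.range ≤ Fintype.card Q * Fintype.card I * δ := by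
    refine (mul_le_mul_of_nonneg_right (Nat.floor_le (by positivity)) (by positivity)).trans ?_
    rw [div_mul_eq_mul_div, div_le_iff₀ g0]
    have : (Nat.card f1.range * Nat.card f2.range : ℚ) ≤ Fintype.card Γ * Fintype.card Q := by
      exact_mod_cast H.card_le
    nlinarith [mul_le_mul_of_nonneg_right this (show (0 : ℚ) ≤ Fintype.card I * δ by positivity)]
  simp only [s5] at s4
  rw [Ht, Submodule.map_sup, Submodule.map_inf _ (cv Q _).injective, map_range_vm, map_ker_vm,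
    map_ker_vm] at s3
  rw [Ht, map_range_vm] at s2
  generalize ⌊(Nat.card f1.range * Fintype.card I * δ : ℚ) / Fintype.card Γ⌋₊ = β at s4 s7
  have s8 : (β : ℝ) * Nat.card f2.range ≤ Fintype.card Q * Fintype.card I * δ := by
    exact_mod_cast s7
  have l0 : 0 ≤ Real.log k := Real.log_nonneg (by exact_mod_cast hk)
  have s9 := mul_le_mul_of_nonneg_left s6 (Nat.cast_nonneg (α := ℝ) β)
  have s10 := mul_le_mul_of_nonneg_right s8 (show (0 : ℝ) ≤ Fintype.card J * Real.log k by positivity)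
  change _ ≤ N * Ht (Zs f2 b) at s2
  nlinarith

end

end Pool.Agent.Lib.MP_b65ff2_gt
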