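import Mathlib

namespace Pool.Agent.Lib.MP_b65ff2_gt

open Matrix Kronecker Filter Topology

noncomputable section

variable {I J R : Type} [Fintype I] [DecidableEq I] [Fintype J] [DecidableEq J] [Ring R]

/-- A finite based free chain complex over `R`: basis `I` graded by `deg`, and the boundary of the
basis element `i` is the sum of `d i j` times `j`. -/
def IsCx (deg : I → ℕ) (d : Matrix I I R) : Prop :=
  (∀ i j, d i j ≠ 0 → deg i = deg j + 1) ∧ d * d = 0

/-- The boundary of the tensor product, with the usual sign. -/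
def tens (deg : I → ℕ) (a : Matrix I I R) (b : Matrix J J R) : Matrix (I × J) (I × J) R :=
  a ⊗ₖ (1 : Matrix J J R) + diagonal (fun i => (-1 : R) ^ deg i) ⊗ₖ b

/-- Change of group. -/
def push {G H : Type} [Group G] [Group H] (f : G →* H) (d : Matrix I I (MonoidAlgebra ℤ G)) :
    Matrix I I (MonoidAlgebra ℤ H) :=
  d.map (MonoidAlgebra.mapDomainRingHom ℤ f)

/-- Chains of degree `n`. -/
def chains (R : Type) [Ring R] (deg : I → ℕ) (n : ℕ) : Submodule ℤ (I → R) :=
  Submodule.pi {i | deg i ≠ n} fun _ => ⊥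

/-- The boundary map on chains. -/
def bdry (d : Matrix I I R) : (I → R) →ₗ[ℤ] (I → R) := d.vecMulLinear.restrictScalars ℤ

/-- Cycles of degree `n`. -/
def cycles (deg : I → ℕ) (d : Matrix I I R) (n : ℕ) : Submodule ℤ (I → R) :=
  chains R deg n ⊓ LinearMap.ker (bdry d)

/-- The order of the torsion subgroup. -/
def torsCard (A : Type) [AddCommGroup A] : ℕ := Nat.card (AddCommGroup.torsion A)

/-- The order of the torsion subgroup of the quotient of `Z` by `B`. -/
def torsQuot {E : Type} [AddCommGroup E] (Z B : Submodule ℤ E) : ℕ :=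
  torsCard (Z ⧸ B.submoduleOf Z)

/-- The order of the torsion subgroup of the `n`-th homology group. -/
def tors (deg : I → ℕ) (d : Matrix I I R) (n : ℕ) : ℕ :=
  torsQuot (cycles deg d n) ((chains R deg (n + 1)).map (bdry d))

abbrev L2 (X : Type) : Type := lp (fun _ : X => ℂ) 2

open Classical in
def delta {X : Type} (x : X) : L2 X := lp.single 2 x 1

/-- `D` is the boundary operator of the `L2` chain complex. -/
def IsOp {G : Type} [Group G] (d : Matrix I I (MonoidAlgebra ℤ G))
    (D : L2 (G × I) →L[ℂ] L2 (G × I)) : Prop :=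
  ∀ x y : G × I, D (delta x) y = ((d x.2 y.2).coeff (x.1⁻¹ * y.1) : ℤ)

variable {H : Type} [NormedAddCommGroup H] [InnerProductSpace ℂ H] [CompleteSpace H]

/-- The combinatorial Laplacian. -/
def lap (D : H →L[ℂ] H) : H →L[ℂ] H := star D * D + D * star D

/-- The Laplacian has trivial kernel. -/
def LapInj (D : H →L[ℂ] H) : Prop := Function.Injective (lap D)

/-- The operator `log (T + ε)`. -/
def logAdd (T : H →L[ℂ] H) (ε : ℝ) : H →L[ℂ] H := cfc (fun t : ℝ => Real.log (t + ε)) T

/-- The diagonal matrix coefficient of `T` at `x`. -/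
def diagCoeff {X : Type} (T : L2 X →L[ℂ] L2 X) (x : X) : ℝ := (inner ℂ (delta x) (T (delta x))).re

/-- The logarithm of the Fuglede-Kadison determinant of the `p`-th Laplacian is `r`. -/
def LogDet {G : Type} [Group G] (deg : I → ℕ) (D : L2 (G × I) →L[ℂ] L2 (G × I)) (p : ℕ) (r : ℝ) :
    Prop :=
  Tendsto (fun ε : ℝ => ∑ i with deg i = p, diagCoeff (logAdd (lap D) ε) (1, i)) (𝓝[>] 0) (𝓝 r)

/-- All `L2`-Betti numbers vanish: the Laplacian has trivial kernel. -/
def Acyclic {G : Type} [Group G] (d : Matrix I I (MonoidAlgebra ℤ G)) : Prop :=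
  ∃ D, IsOp d D ∧ LapInj D

/-- The complex (in degrees at most `m`) is det-`L2`-acyclic with `L2`-torsion `ρ`. -/
def HasL2Torsion {G : Type} [Group G] (deg : I → ℕ) (d : Matrix I I (MonoidAlgebra ℤ G)) (m : ℕ)
    (ρ : ℝ) : Prop :=
  ∃ D, IsOp d D ∧ LapInj D ∧ ∃ r : ℕ → ℝ, (∀ p, LogDet deg D p (r p)) ∧
    ρ = -(1 / 2) * ∑ p ∈ Finset.range (m + 1), (-1 : ℝ) ^ p * p * r p

/-- The normalised alternating sum of the logarithms of the torsion orders for the cover `N`. -/
def altTors {G : Type} [Group G] (deg : I → ℕ) (d : Matrix I I (MonoidAlgebra ℤ G)) (m : ℕ)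
    (N : Subgroup G) [N.Normal] : ℝ :=
  ∑ n ∈ Finset.range (m + 1),
    (-1 : ℝ) ^ n * (Real.log (tors deg (push (QuotientGroup.mk' N) d) n) / N.index)

end

end Pool.Agent.Lib.MP_b65ff2_gt
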