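import Pool.Agent.Lib.MP_b65ff2_gt.Op

namespace Pool.Agent.Lib.MP_b65ff2_gt

open Matrix MonoidAlgebra Finset Filter Topology
open Polynomial (aeval)

set_option linter.unusedSectionVars false

noncomputable section

variable {G H I J K : Type} [Group G] [Group H] [Fintype I] [DecidableEq I] [Fintype J]
  [DecidableEq J] [Fintype K] [DecidableEq K]

def ZS (G : Type) [Group G] : Subring (QG G) where
  carrier := {x | ∀ g, x.coeff g ∈ (Int.castRingHom ℚ).range}
  mul_mem' ha hb g := by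
    rw [coeff_mul_apply_left]
    exact sum_mem fun _ _ => mul_mem (ha _) (hb _)
  one_mem' g := by
    classical
    rw [one_def, coeff_single, Finsupp.single_apply]
    split_ifs
    exacts [one_mem _, zero_mem _]
  add_mem' ha hb g := add_mem (ha g) (hb g)
  zero_mem' _ := zero_mem _
  neg_mem' ha g := neg_mem (ha g)

lemma mq_mem (f : G →* H) {x : QG G} (h : x ∈ ZS G) : mq f x ∈ ZS H := fun q => by
  classical
  change Finsupp.mapDomain f x.coeff q ∈ _
  rw [Finsupp.mapDomain, Finsupp.sum_apply]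
  refine sum_mem fun g _ => ?_
  simp only [Finsupp.single_apply]
  split_ifs
  exacts [h g, zero_mem _]

def InZ (M : Matrix I J (QG G)) : Prop := ∀ i j, M i j ∈ ZS G

lemma InZ.mul {M : Matrix I J (QG G)} {N : Matrix J K (QG G)} (h : InZ M) (h' : InZ N) :
    InZ (M * N) := fun _ _ => sum_mem fun _ _ => mul_mem (h _ _) (h' _ _)

lemma InZ.star {M : Matrix I J (QG G)} (h : InZ M) : InZ Mᴴ := fun i j g => by
  rw [conjTranspose_apply, coeff_star]; exact h _ _ _

lemma InZ.lap {M : Matrix I I (QG G)} (h : InZ M) : InZ (Lap M) := fun i j =>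
  add_mem (h.star.mul h i j) (h.mul h.star i j)

lemma InZ.map {M : Matrix I J (QG G)} (h : InZ M) (f : G →* H) : InZ (M.map (mq f)) :=
  fun _ _ => mq_mem f (h _ _)

lemma InZ.int {M : Matrix I J (QG G)} (h : InZ M) (i j g) : ∃ n : ℤ, (M i j).coeff g = n :=
  let ⟨n, hn⟩ := h i j g; ⟨n, hn.symm⟩

lemma inZ_pj (deg : K → ℕ) (p : ℕ) : InZ (pj (QG G) deg p) := fun i j => by
  simp only [pj, diagonal_apply]
  split_ifs
  exacts [one_mem _, zero_mem _, zero_mem _]

lemma map_star' (f : G →* H) (M : Matrix I J (QG G)) : Mᴴ.map (mq f) = (M.map (mq f))ᴴ :=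
  conjTranspose_map _ fun x => (mq_star f x).symm ▸ rfl

lemma pj_star (deg : K → ℕ) (p : ℕ) : (pj (QG G) deg p)ᴴ = pj (QG G) deg p := by
  rw [pj, diagonal_conjTranspose]; congr 1; funext i; simp [apply_ite star]

lemma tau_pj (deg : K → ℕ) (p : ℕ) (M : Matrix K K (QG G)) :
    tau (pj _ deg p * M) = ∑ i with deg i = p, (M i i).coeff 1 := by
  simp [tau_apply, pj, sum_filter, apply_ite fun x : QG G => x.coeff 1]

lemma IsCx.pj_lap {deg : K → ℕ} {d : Matrix K K (QG G)} (h : IsCx deg d) (p : ℕ) :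
    Commute (pj _ deg p) (Lap d) := by
  have t : ∀ n, pj _ deg n * dᴴ = dᴴ * pj _ deg (n + 1) := fun n => by
    rw [← pj_star, ← conjTranspose_mul, h.mul_pj, conjTranspose_mul, pj_star]
  refine Commute.add_right ?_ ?_
  · rw [Commute, SemiconjBy, ← mul_assoc, t, mul_assoc, ← h.mul_pj, mul_assoc]
  · cases p with
    | zero =>
      rw [Commute, SemiconjBy, ← mul_assoc, h.pj_zero, mul_assoc, ← pj_star, ← conjTranspose_mul,
        h.pj_zero]
      simp
    | succ n => rw [Commute, SemiconjBy, ← mul_assoc, ← h.mul_pj, mul_assoc, t, mul_assoc]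

lemma mu_sum {X : Type} (s : Finset X) (c : X → ℝ) (m : X → ℕ → ℝ) (q : Polynomial ℝ) :
    mu (fun k => ∑ x ∈ s, c x * m x k) q = ∑ x ∈ s, c x * mu (m x) q := by
  induction q using Polynomial.induction_on' with
  | add p q hp hq => simp only [map_add, hp, hq, mul_add, sum_add_distrib]
  | monomial n a => simp only [mu_monomial, mul_sum, mul_left_comm]

def mom (deg : K → ℕ) (L : Matrix K K (QG G)) (p k : ℕ) : ℝ := tau (pj _ deg p * L ^ k)

def FF (deg : K → ℕ) (L : Matrix K K (QG G)) (p : ℕ) (ε : ℝ) : ℝ := ∑ i with deg i = p,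
  (inner ℂ (delta ((1 : G), i)) (logAdd (Phi G K L) ε (delta (1, i)))).re

lemma FF_approx (deg : K → ℕ) (d : Matrix K K (QG G)) (p : ℕ) {c ε η : ℝ}
    (hc : ‖Phi G K (Lap d)‖ ≤ c) (hε : 0 < ε) (hη : 0 ≤ η) {q : Polynomial ℝ}
    (hq : ∀ x ∈ Set.Icc 0 c, |q.eval x - Real.log (x + ε)| < η) :
    |mu (mom deg (Lap d) p) q - FF deg (Lap d) p ε| ≤ Fintype.card K * η := by
  have : mom deg (Lap d) p = fun k => ∑ i with deg i = p,
      1 * (inner ℂ (delta ((1 : G), i)) ((Phi G K (Lap d) ^ k) (delta (1, i)))).re := by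
    funext k
    simp only [mom, tau_pj, ← map_pow, inner_delta, Phi_delta, rep_apply]
    simp
  rw [this, mu_sum, FF, ← sum_sub_distrib]
  refine (abs_sum_le_sum_abs _ _).trans ((sum_le_card_nsmul _ _ η fun i _ => ?_).trans ?_)
  · rw [one_mul]
    exact logAdd_approx (by rw [Phi_lap]; exact lap_pos _) hc hε hη hq (norm_delta _)
  · rw [nsmul_eq_mul]
    exact mul_le_mul_of_nonneg_right (by exact_mod_cast card_le_univ _) hη

lemma mu_mom (deg : K → ℕ) (L : Matrix K K (QG G)) (p : ℕ) (g : Polynomial ℚ) :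
    mu (mom deg L p) (g.map (Rat.castHom ℝ)) = tau (pj _ deg p * aeval L g) := by
  induction g using Polynomial.induction_on' with
  | add p q hp hq => simp only [Polynomial.map_add, map_add, hp, hq, mul_add, Rat.cast_add]
  | monomial n a =>
    rw [Polynomial.map_monomial, mu_monomial, Polynomial.aeval_monomial, ← Algebra.smul_def,
      mul_smul_comm, map_smul]
    simp [mom]

theorem FF_alt {deg : K → ℕ} {d : Matrix K K (QG G)} {m : ℕ} (hm : ∀ i, deg i ≤ m)
    (h : ∀ k, tau (sg _ deg * nm _ deg * Lap d ^ k) = 0) {ε : ℝ} (hε : 0 < ε) :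
    ∑ p ∈ range (m + 1), (-1 : ℝ) ^ p * p * FF deg (Lap d) p ε = 0 := by
  have e : ∑ p ∈ range (m + 1), ((-1 : ℚ) ^ p * p) • pj (QG G) deg p = sg _ deg * nm _ deg := by
    ext1 i j
    by_cases e : i = j
    · subst e
      simp only [pj, sg, nm, Matrix.sum_apply, Matrix.smul_apply, diagonal_mul_diagonal,
        diagonal_apply_eq]
      simp only [smul_ite, smul_zero, sum_ite_eq, mem_range, Nat.lt_succ_iff, hm i, if_true]
      rw [← Algebra.algebraMap_eq_smul_one, map_mul, map_pow, map_neg, map_one, map_natCast]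
    · simp [pj, sg, nm, Matrix.sum_apply, e]
  have e1 : (fun k => ∑ p ∈ range (m + 1), (-1 : ℝ) ^ p * p * mom deg (Lap d) p k) = 0 := by
    funext k
    have := h k
    rw [← e, sum_mul, map_sum] at this
    simp only [smul_mul_assoc, map_smul, smul_eq_mul] at this
    simp only [mom, Pi.zero_apply]
    exact_mod_cast this
  refine abs_nonpos_iff.1 (le_of_forall_pos_le_add fun δ hδ => ?_)
  obtain ⟨η, hη, h1⟩ : ∃ η > 0, (m + 1) * (m * (Fintype.card K * η)) ≤ δ :=
    ⟨δ / ((m + 1) * m * Fintype.card K + 1), by positivity, by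
      rw [← mul_assoc, ← mul_assoc, ← mul_div_assoc, div_le_iff₀ (by positivity)]; nlinarith⟩
  obtain ⟨q, hq⟩ := exists_polynomial_near_of_continuousOn 0 _ _
    (cont_log hε ‖Phi G K (Lap d)‖) η hη
  have e2 := mu_sum (range (m + 1)) (fun p => (-1 : ℝ) ^ p * p) (mom deg (Lap d)) q
  rw [e1, show mu 0 q = 0 by simp [mu, Polynomial.sum]] at e2
  rw [← abs_neg, ← zero_sub, e2, ← sum_sub_distrib, ← e2, zero_add]
  refine (abs_sum_le_sum_abs _ _).trans ((sum_le_card_nsmul _ _ (m * (Fintype.card K * η))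
    fun p hp => ?_).trans (by simpa using h1))
  rw [← mul_sub, abs_mul, abs_mul, abs_pow, abs_neg, abs_one, one_pow, one_mul, Nat.abs_cast]
  exact mul_le_mul (by exact_mod_cast Nat.lt_succ_iff.1 (mem_range.1 hp))
    (FF_approx deg d p le_rfl hε hη.le hq) (abs_nonneg _) (by positivity)

variable {Q : ℕ → Type} [∀ k, Group (Q k)] [∀ k, Fintype (Q k)] [∀ k, DecidableEq (Q k)]
  {π : ∀ k, G →* Q k} (sep : ∀ g ≠ 1, ∀ᶠ k in atTop, π k g ≠ 1)
include sep

lemma ev_coeff (x : QG G) : ∀ᶠ k in atTop, (mq (π k) x).coeff 1 = x.coeff 1 := by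
  have : ∀ᶠ k in atTop, ∀ g ∈ x.coeff.support, π k g = 1 → g = 1 :=
    (eventually_all_finset _).2 fun g _ => by
      by_cases e : g = 1
      · simp [e]
      · exact (sep g e).mono fun k hk h => absurd h hk
  exact this.mono fun k hk => coeff_mq_one fun g hg => hk g (Finsupp.mem_support_iff.2 hg)

lemma ev_trace (M : Matrix K K (QG G)) :
    ∀ᶠ k in atTop, (rep (M.map (mq (π k)))).trace = Fintype.card (Q k) * tau M :=
  (eventually_all.2 fun i => ev_coeff sep (M i i)).mono fun k hk => by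
    rw [trace_rep, tau_apply, tau_apply]; simp only [map_apply, hk]

theorem FF_nonneg {deg : K → ℕ} {d : Matrix K K (QG G)} (hd : IsCx deg d) (hz : InZ d)
    (h : Dec (Lap d)) (p : ℕ) {ε : ℝ} (hε : 0 < ε) (h1 : ε ≤ 1) : 0 ≤ FF deg (Lap d) p ε := by
  let M := fromCols (pj _ deg p * d) (pj _ deg p * dᴴ)
  have zM : InZ M := fun i j => by
    cases j
    exacts [(inZ_pj deg p).mul hz _ _, (inZ_pj deg p).mul hz.star _ _]
  have eM : M * Mᴴ = pj _ deg p * Lap d := by
    rw [conjTranspose_fromCols_eq_fromRows_conjTranspose, fromCols_mul_fromRows, conjTranspose_mul,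
      conjTranspose_mul, conjTranspose_conjTranspose, pj_star, ← pj_pj deg p, mul_assoc _ _ (Lap d),
      (hd.pj_lap p).eq, pj_pj, Lap]
    noncomm_ring
  obtain ⟨c, hc, rc⟩ := exists_rc M
  choose lam l0 l1 l2 l3 using fun k => spec (rep (M.map (mq (π k))))
  have l4 : ∀ k, 0 ≤ ∑ x, Real.log (lam k x) := fun k => by
    rw [l2]
    have := one_le_cov (L := mp (rep (M.map (mq (π k)))).vecMulLinear (Lam _)) (by
      rintro _ ⟨x, hx, rfl⟩
      exact lam_vecMul hx fun i j => (zM.map _).int _ _ _)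
    exact add_nonneg (Real.log_nonneg (by exact_mod_cast this)) (ht_nonneg _)
  have l5 : ∀ w : Polynomial ℝ, ∀ᶠ k in atTop, ∑ x, w.eval (lam k x) = Fintype.card (Q k) *
      (mu (mom deg (Lap d) p) w + w.eval 0 * (Fintype.card K - mom deg (Lap d) p 0)) := fun w => by
    induction w using Polynomial.induction_on' with
    | add a b ha hb => exact (ha.and hb).mono fun k hk => by simp [sum_add_distrib, hk.1, hk.2]; ring
    | monomial n a =>
      refine (ev_trace sep ((M * Mᴴ) ^ n)).mono fun k hk => ?_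
      have := l1 k n
      rw [← rep_star, ← map_star', ← rep_mul, ← Matrix.map_mul, ← repA_apply, ← map_pow,
        ← AlgHom.mapMatrix_apply, ← map_pow, repA_apply, AlgHom.mapMatrix_apply, hk, eM] at this
      simp only [Polynomial.eval_monomial, ← mul_sum, ← this, mu_monomial]
      cases n with
      | zero => simp [tau_apply]; ring
      | succ n =>
        rw [(hd.pj_lap p).mul_pow, IsIdempotentElem.pow_succ_eq (a := pj (QG G) deg p) _ (pj_pj deg p)]
        simp [mom]; ring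
  have lε : Real.log ε ≤ 0 := Real.log_nonpos hε.le h1
  have m0 : 0 ≤ mom deg (Lap d) p 0 ∧ mom deg (Lap d) p 0 ≤ Fintype.card K := by
    simp only [mom, tau_pj]
    simp [card_le_univ]
  refine le_of_forall_pos_le_add fun δ hδ => ?_
  obtain ⟨η, hη, h2⟩ : ∃ η : ℚ, 0 < η ∧ Fintype.card K * (3 - Real.log ε) * η ≤ δ := by
    have p : 0 ≤ Fintype.card K * (3 - Real.log ε) := mul_nonneg (by positivity) (by linarith)
    obtain ⟨η, a, b⟩ := exists_rat_btwn (show 0 < δ / (Fintype.card K * (3 - Real.log ε) + 1) by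
      positivity)
    rw [lt_div_iff₀ (by positivity)] at b
    exact ⟨η, by exact_mod_cast a, by nlinarith⟩
  have hη' : (0 : ℝ) < η := by exact_mod_cast hη
  obtain ⟨g, g0, hg⟩ := h η hη
  obtain ⟨q, hq⟩ := exists_polynomial_near_of_continuousOn 0 _ _
    (cont_log hε (max ‖Phi G K (Lap d)‖ (c ^ 2 : ℚ))) η hη'
  have a1 := (abs_le.1 (FF_approx deg d p (le_max_left _ _) hε hη'.le hq)).2
  obtain ⟨k, hk⟩ := (l5 (q - Real.log ε • (g * g).map (Rat.castHom ℝ))).exists
  have g1 : ((g * g).map (Rat.castHom ℝ)).eval 0 = 1 := by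
    rw [Polynomial.eval_zero_map]; simp [g0]
  have a2 : ∀ x, Real.log (lam k x) - η ≤
      (q - Real.log ε • (g * g).map (Rat.castHom ℝ)).eval (lam k x) := fun x => by
    have b1 := (abs_lt.1 (hq (lam k x) ⟨l0 k x, le_max_of_le_right
      (l3 k _ ((rc _ (π k)).norm (by linarith)) x)⟩)).1
    rw [Polynomial.eval_sub, Polynomial.eval_smul, smul_eq_mul]
    by_cases e : lam k x = 0
    · rw [e] at b1 ⊢
      rw [g1]; simp at b1 ⊢; linarith
    · have := Real.log_le_log (lt_of_le_of_ne (l0 k x) (Ne.symm e)) (le_add_of_nonneg_right hε.le)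
      rw [Polynomial.map_mul, Polynomial.eval_mul]
      nlinarith [mul_self_nonneg ((g.map (Rat.castHom ℝ)).eval (lam k x))]
  have a3 := sum_le_sum fun x (_ : x ∈ univ) => a2 x
  have a4 : mu (mom deg (Lap d) p) ((g * g).map (Rat.castHom ℝ)) ≤ Fintype.card K * η := by
    rw [mu_mom, tau_pj]
    have := (sum_le_card_nsmul (univ.filter fun i => deg i = p) _ η fun i _ => hg i).trans
      (nsmul_le_nsmul_left hη.le (card_le_univ _))
    rw [nsmul_eq_mul] at this
    exact_mod_cast this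
  have a5 := (abs_lt.1 (hq 0 ⟨le_rfl, le_max_of_le_left (norm_nonneg _)⟩)).2
  have q0 : (0 : ℝ) < Fintype.card (Q k) := by exact_mod_cast Fintype.card_pos
  rw [hk, sum_sub_distrib, map_sub, map_smul, Polynomial.eval_sub, Polynomial.eval_smul, g1] at a3
  simp only [sum_const, card_univ, Fintype.card_prod, nsmul_eq_mul, Nat.cast_mul, smul_eq_mul,
    mul_one, zero_add] at a3 a5
  have a6 := le_of_mul_le_mul_left (a := (Fintype.card (Q k) : ℝ)) (b := -(Fintype.card K * η : ℝ))
    (le_trans (by linarith [l4 k]) a3) q0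
  nlinarith [mul_le_mul_of_nonneg_left a4 (neg_nonneg.2 lε),
    mul_le_mul_of_nonneg_right a5.le (sub_nonneg.2 m0.2), mul_nonneg hη'.le m0.1]

theorem exists_logdet {deg : K → ℕ} {d : Matrix K K (QG G)} (hd : IsCx deg d) (hz : InZ d)
    (h : Dec (Lap d)) (p : ℕ) : ∃ r, Tendsto (FF deg (Lap d) p) (𝓝[>] 0) (𝓝 r) :=
  ⟨_, MonotoneOn.tendsto_nhdsWithin_Ioo_right (y := 1) (by simp) (fun _ ha _ _ hab =>
    sum_le_sum fun _ _ => logAdd_mono (by rw [Phi_lap]; exact lap_pos _) ha.1 hab _)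
    ⟨0, by rintro _ ⟨ε, hε, rfl⟩; exact FF_nonneg sep hd hz h p hε.1 hε.2.le⟩⟩

end

end Pool.Agent.Lib.MP_b65ff2_gt
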