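import Pool.Agent.Lib.MP_b65ff2_gt.Det

namespace Pool.Agent.Lib.MP_b65ff2_gt

open Matrix MonoidAlgebra Finset Filter Topology
open Polynomial (aeval)

set_option linter.unusedSectionVars false

noncomputable section

variable {G G1 G2 H I J K : Type} [Group G] [Group G1] [Group G2] [Group H] [Fintype I]
  [DecidableEq I] [Fintype J] [DecidableEq J] [Fintype K] [DecidableEq K]

def cq (G : Type) [Group G] : MonoidAlgebra ℤ G →+* QG G := mapRingHom G (Int.castRingHom ℚ)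

lemma coeff_cq (x : MonoidAlgebra ℤ G) (g : G) : (cq G x).coeff g = x.coeff g :=
  coeff_mapRingHom _ _ _

lemma cq_inj : Function.Injective (cq G) := fun x y h => by
  ext g
  exact_mod_cast (coeff_cq x g).symm.trans (h ▸ coeff_cq y g)

lemma inZ_cq (d : Matrix K K (MonoidAlgebra ℤ G)) : InZ (d.map (cq G)) := fun _ _ _ =>
  ⟨_, (coeff_cq _ _).symm⟩

lemma push_cq (f : G →* H) (d : Matrix K K (MonoidAlgebra ℤ G)) :
    (push f d).map (cq H) = (d.map (cq G)).map (mq f) :=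
  Matrix.ext fun _ _ => DFunLike.congr_fun (mapRingHom_comp_mapDomainRingHom (Int.castRingHom ℚ) f) _

lemma tens_map {R S F : Type} [Ring R] [Ring S] [FunLike F R S] [RingHomClass F R S] (f : F)
    (deg : I → ℕ) (a : Matrix I I R) (b : Matrix J J R) :
    (tens deg a b).map f = tens deg (a.map f) (b.map f) := by
  ext x y
  simp [tens, one_apply, diagonal_apply, apply_ite f]

lemma pd_map (f1 : G1 →* G) (f2 : G2 →* G) (f : G →* H) (deg : I → ℕ) (a : Matrix I I (QG G1))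
    (b : Matrix J J (QG G2)) :
    (pd f1 f2 deg a b).map (mq f) = pd (f.comp f1) (f.comp f2) deg a b := by
  rw [pd_eq, pd_eq, tens_map]
  congr 1 <;> exact Matrix.ext fun _ _ => mq_mq _ _ _

lemma i1_map (f1 : G1 →* G) (f : G →* H) (a : Matrix I I (QG G1)) :
    (i1 J f1 a).map (mq f) = i1 J (f.comp f1) a := by
  ext1 x y
  simp [i1_apply, apply_ite (mq f), mq_mq]

lemma isOp_iff {d : Matrix K K (MonoidAlgebra ℤ G)} {D : L2 (G × K) →L[ℂ] L2 (G × K)} :
    IsOp d D ↔ Phi G K (d.map (cq G))ᴴ = D := by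
  constructor
  · exact fun h => opx_eq fun y z => by rw [h, rep_star]; simp [rep_apply, coeff_cq]
  · rintro rfl x y
    rw [Phi_delta, rep_star]; simp [rep_apply, coeff_cq]

lemma lap_eq {d : Matrix K K (MonoidAlgebra ℤ G)} {D : L2 (G × K) →L[ℂ] L2 (G × K)}
    (h : IsOp d D) : lap D = Phi G K (Lap (d.map (cq G))) := by
  rw [← isOp_iff.1 h, ← Phi_lap, Lap, Lap, conjTranspose_conjTranspose, add_comm]

lemma kr_add {Ω : Type} [Fintype Ω] (A B : Matrix Ω Ω ℚ) :
    kr ((Aᵀ * A + A * Aᵀ) + (Bᵀ * B + B * Bᵀ)) = kr (Aᵀ * A + A * Aᵀ) ⊓ kr (Bᵀ * B + B * Bᵀ) := by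
  have p : ∀ (A : Matrix Ω Ω ℚ) x, (x ᵥ* (Aᵀ * A + A * Aᵀ)) ⬝ᵥ x =
      (x ᵥ* Aᵀ) ⬝ᵥ (x ᵥ* Aᵀ) + (x ᵥ* A) ⬝ᵥ (x ᵥ* A) := fun A x => by
    rw [vecMul_add, add_dotProduct, dot_self_vecMul, ← dot_self_vecMul x Aᵀ, transpose_transpose]
  refine le_antisymm (fun x hx => ?_) fun x hx => by
    rw [mem_kr, vecMul_add, mem_kr.1 hx.1, mem_kr.1 hx.2, add_zero]
  have := congrArg (· ⬝ᵥ x) (mem_kr.1 hx)
  simp only [vecMul_add _ _ x, add_dotProduct, zero_dotProduct] at this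
  simp only [← add_dotProduct, ← vecMul_add] at this
  rw [vecMul_add, add_dotProduct, p, p] at this
  have n1 := dotProduct_self_nonneg (x ᵥ* A)
  have n2 := dotProduct_self_nonneg (x ᵥ* Aᵀ)
  have n3 := dotProduct_self_nonneg (x ᵥ* B)
  have n4 := dotProduct_self_nonneg (x ᵥ* Bᵀ)
  have z : ∀ {A : Matrix Ω Ω ℚ}, (x ᵥ* A) ⬝ᵥ (x ᵥ* A) = 0 → (x ᵥ* Aᵀ) ⬝ᵥ (x ᵥ* Aᵀ) = 0 →
      x ∈ kr (Aᵀ * A + A * Aᵀ) := fun h h' => by
    rw [mem_kr, vecMul_add, ← vecMul_vecMul, ← vecMul_vecMul, dotProduct_self_eq_zero.1 h,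
      dotProduct_self_eq_zero.1 h']
    simp
  exact ⟨z (by linarith) (by linarith), z (by linarith) (by linarith)⟩

section
variable {Q : Type} [Group Q] [Fintype Q] [DecidableEq Q]

def jz (Q K : Type) : (K → MonoidAlgebra ℤ Q) →ₗ[ℤ] (Q × K → ℚ) where
  toFun x y := (x y.2).coeff y.1
  map_add' _ _ := by ext; simp
  map_smul' _ _ := by ext; simp

lemma jz_vecMul (x : K → MonoidAlgebra ℤ Q) (d : Matrix K K (MonoidAlgebra ℤ Q)) :
    jz Q K (x ᵥ* d) = jz Q K x ᵥ* rep (d.map (cq Q)) := by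
  have : ∀ x, jz Q K x = cv Q K (cq Q ∘ x) := fun x => funext fun y => (coeff_cq _ _).symm
  rw [this, this, ← cv_vecMul]
  congr 1
  funext k
  exact (cq Q).map_vecMul d x k

lemma tors_eq {deg : K → ℕ} {d : Matrix K K (MonoidAlgebra ℤ Q)} (h : IsCx deg d) (n : ℕ) :
    2 * Real.log (tors deg d n) = Real.log (cov (mp (pj ℚ (fun x : Q × K => deg x.2) (n + 1) *
      rep (d.map (cq Q))).vecMulLinear (Lam _))) -
      ht (rg (pj ℚ (fun x : Q × K => deg x.2) (n + 1) * rep (d.map (cq Q)))) := by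
  have hr : LinearMap.range (jz Q K) = Lam _ := by
    ext v
    constructor
    · rintro ⟨x, rfl⟩
      exact mem_Lam.2 fun w => ⟨_, rfl⟩
    · rintro ⟨z, rfl⟩
      exact ⟨fun k => .ofCoeff (Finsupp.equivFunOnFinite.symm fun q => z (q, k)), rfl⟩
  have e : ((chains _ deg (n + 1)).map (bdry d)).map (jz Q K) =
      mp (pj ℚ (fun x : Q × K => deg x.2) (n + 1) * rep (d.map (cq Q))).vecMulLinear (Lam _) := by
    have e : ∀ x, jz Q K x ᵥ* pj ℚ (fun x : Q × K => deg x.2) (n + 1) =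
        jz Q K fun k => if deg k = n + 1 then x k else 0 := fun x => by
      ext y
      rw [pj, vecMul_diagonal]
      by_cases e : deg y.2 = n + 1 <;> simp [jz, e]
    ext v
    constructor
    · rintro ⟨_, ⟨x, hx, rfl⟩, rfl⟩
      refine ⟨jz Q K x, hr ▸ ⟨x, rfl⟩, ?_⟩
      change jz Q K x ᵥ* _ = jz Q K (x ᵥ* d)
      rw [← vecMul_vecMul, e, jz_vecMul]
      congr 2
      funext k
      split_ifs with e
      exacts [rfl, (hx k e).symm]
    · rintro ⟨v, hv, rfl⟩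
      obtain ⟨x, rfl⟩ := (hr ▸ hv : v ∈ LinearMap.range (jz Q K))
      refine ⟨_, ⟨fun k => if deg k = n + 1 then x k else 0, fun k hk => if_neg hk, rfl⟩, ?_⟩
      change jz Q K (_ ᵥ* d) = jz Q K x ᵥ* _
      rw [← vecMul_vecMul, e, jz_vecMul]
  have := log_tors (jz Q K) (fun x y e => by
      ext k q
      exact Int.cast_injective (α := ℚ) (congrFun e (q, k))) hr
    (cycles deg d n) ((chains _ deg (n + 1)).map (bdry d)) (by
      rintro _ ⟨x, hx, rfl⟩
      refine ⟨fun k hk => sum_eq_zero fun i _ => ?_, ?_⟩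
      · by_cases e : d i k = 0
        · simp [e]
        · rw [show x i = 0 from hx i fun e' => hk (by have := h.1 i k e; omega), zero_mul]
      · change (x ᵥ* d) ᵥ* d = 0
        rw [vecMul_vecMul, h.2, vecMul_zero]) fun m x hm hx =>
    ⟨fun k hk => (smul_eq_zero.1 (show m • x k = 0 from hx.1 k hk)).resolve_left hm,
      (smul_eq_zero.1 ((map_smul _ _ _).symm.trans hx.2)).resolve_left hm⟩
  rw [e, sp_mp, sp_Lam, Submodule.map_top] at this
  rw [tors, torsQuot, torsCard, ← Submodule.torsion_int]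
  exact this

lemma tors_bound {deg : K → ℕ} {d : Matrix K K (MonoidAlgebra ℤ Q)} (h : IsCx deg d) {m : ℕ}
    (hm : ∀ i, deg i ≤ m) (hs : ∀ k, tau (sg _ deg * nm _ deg * Lap (d.map (cq Q)) ^ k) = 0) :
    2 * |∑ n ∈ range (m + 1), (-1 : ℝ) ^ n * Real.log (tors deg d n)| ≤
      (m + 1) * ht (kr (rep (Lap (d.map (cq Q))))) := by
  have h' := h.map (cq Q)
  have := alt_bound (deg := fun x : Q × K => deg x.2) (D := rep (d.map (cq Q)))
    ⟨fun x y e => h'.1 _ _ fun e' => e (by rw [rep_apply, e']; rfl),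
      by rw [← rep_mul, h'.2]; rfl⟩ (fun x => hm x.2) fun k => by
    have e : sg ℚ (fun x : Q × K => deg x.2) = rep (sg _ deg) := by
      ext x y
      have : ∀ n, (-1 : QG Q) ^ n = MonoidAlgebra.single 1 ((-1) ^ n) := fun n => by
        rw [← one_pow n (M := Q), ← single_pow, MonoidAlgebra.single_neg, one_def]
      by_cases e : x.2 = y.2 <;>
        simp [sg, rep_apply, diagonal_apply, Prod.ext_iff, this, Finsupp.single_apply,
          eq_inv_mul_iff_mul_eq, e]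
    rw [e, ← rep_star, ← rep_mul, ← repA_apply (_ * _), ← map_pow, repA_apply, ← rep_mul, trace_rep,
      h'.tau_nm, hs, mul_zero]
  simp only [← tors_eq h, mul_left_comm _ (2 : ℝ), ← mul_sum, abs_mul, abs_two] at this
  rwa [← rep_star, ← rep_mul, ← rep_mul] at this

lemma exists_ctx {f1 : G1 →* Q} {f2 : G2 →* Q} (hc : ∀ x y, Commute (f1 x) (f2 y))
    (gen : ∀ q, ∃ x y, q = f1 x * f2 y) : ∃ (Γ : Type) (_ : CommGroup Γ) (_ : Fintype Γ)
      (c : Γ →* Q) (t : Q ⧸ f2.range → Q), Ctx f1 f2 c t := by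
  have : ∀ s : Q ⧸ f2.range, ∃ q ∈ f1.range, (q : Q ⧸ f2.range) = s := fun s => by
    obtain ⟨q, rfl⟩ := QuotientGroup.mk_surjective s
    obtain ⟨x, y, rfl⟩ := gen q
    exact ⟨_, ⟨x, rfl⟩, (QuotientGroup.mk_mul_of_mem _ (s := f2.range) ⟨y, rfl⟩).symm⟩
  choose t t1 t2 using this
  have cm : ∀ a b : (f1.range ⊓ f2.range : Subgroup Q), a * b = b * a := fun a b => by
    obtain ⟨x, hx⟩ := a.2.1
    obtain ⟨y, hy⟩ := b.2.2
    exact Subtype.ext (by simpa [hx, hy] using (hc x y).eq)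
  let _ : CommGroup (f1.range ⊓ f2.range : Subgroup Q) := ⟨cm⟩
  exact ⟨(f1.range ⊓ f2.range : Subgroup Q), inferInstance, Fintype.ofFinite _,
    Subgroup.subtype _, t, hc, gen, Subtype.val_injective,
    fun q => ⟨fun ⟨a, ha⟩ => ha ▸ a.2, fun h => ⟨⟨q, h⟩, rfl⟩⟩, t2, t1⟩

end

theorem small {Q : ℕ → Type} [∀ k, Group (Q k)] [∀ k, Fintype (Q k)] [∀ k, DecidableEq (Q k)]
    {π : ∀ k, G1 × G2 →* Q k} (sur : ∀ k, Function.Surjective (π k))
    (sep : ∀ g ≠ 1, ∀ᶠ k in atTop, π k g ≠ 1) (z : Subgroup.center G1 = ⊥) {d1 : I → ℕ}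
    {a : Matrix I I (QG G1)} {b : Matrix J J (QG G2)} (ha : IsCx d1 a) (za : InZ a) (zb : InZ b)
    (da : Dec (Lap a)) (db : Dec (Lap b)) {η : ℝ} (hη : 0 < η) : ∀ᶠ k in atTop,
      ht (kr (rep (Lap (pd ((π k).comp (.inl _ _)) ((π k).comp (.inr _ _)) d1 a b)))) ≤
        η * Fintype.card (Q k) := by
  cases isEmpty_or_nonempty I with
  | inl _ => exact .of_forall fun k => by rw [Subsingleton.elim (kr _) ⊤, ht_top]; positivity
  | inr _ =>
  have hc : ∀ k x y, Commute ((π k).comp (.inl _ _) x) ((π k).comp (.inr _ _) y) := fun k x y =>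
    (MonoidHom.commute_inl_inr x y).map (π k)
  have s1 : ∀ g ≠ 1, ∀ᶠ k in atTop, (π k).comp (.inl _ _) g ∉ ((π k).comp (.inr _ _)).range := by
    intro g hg
    obtain ⟨h, hh⟩ : ∃ h, h * g ≠ g * h := by
      by_contra! h
      exact hg (Subgroup.mem_bot.1 (z ▸ Subgroup.mem_center_iff.2 h))
    refine (sep (MonoidHom.inl G1 G2 (h * g * (g * h)⁻¹)) fun e =>
      hh (mul_inv_eq_one.1 (congrArg Prod.fst e))).mono fun k hk ⟨y, hy⟩ => hk ?_
    change (π k).comp (.inl _ _) _ = 1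
    rw [map_mul, map_inv, map_mul, map_mul, ← hy, (hc k h y).eq, mul_inv_cancel]
  have s2 : ∀ g ≠ 1, ∀ᶠ k in atTop, (π k).comp (.inr G1 G2) g ≠ 1 := fun g hg =>
    sep (1, g) (by simpa)
  obtain ⟨c1, hc1, r1⟩ := exists_rc (i1 J (.inl G1 G2) (Lap a))
  obtain ⟨c2, hc2, r2⟩ := exists_rc (Lap b)
  obtain ⟨δ, hδ, h2⟩ : ∃ δ : ℚ, 0 < δ ∧
      2 * Fintype.card I * Fintype.card J * Real.log (c1 ^ 2 + c2 ^ 2 : ℚ) * δ ≤ η := by
    have p : 0 ≤ 2 * Fintype.card I * Fintype.card J * Real.log (c1 ^ 2 + c2 ^ 2 : ℚ) :=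
      mul_nonneg (by positivity) (Real.log_nonneg (by exact_mod_cast (by nlinarith)))
    obtain ⟨δ, a, b⟩ := exists_rat_btwn (show 0 < η / (2 * Fintype.card I * Fintype.card J *
      Real.log (c1 ^ 2 + c2 ^ 2 : ℚ) + 1) by positivity)
    rw [lt_div_iff₀ (by positivity)] at b
    exact ⟨δ, by exact_mod_cast a, by nlinarith⟩
  obtain ⟨g, g0, hg⟩ := da δ hδ
  obtain ⟨g', g0', hg'⟩ := db δ hδ
  have e1 : ∀ᶠ k in atTop, ∀ i, ∀ x ∈ (aeval (Lap a) (g * g) i i).coeff.support,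
      (π k).comp (.inl _ _) x ∈ ((π k).comp (.inr _ _)).range → x = 1 :=
    eventually_all.2 fun i => (eventually_all_finset _).2 fun x _ => by
      by_cases e : x = 1
      · simp [e]
      · exact (s1 x e).mono fun k hk h => absurd h hk
  have e2 := eventually_all.2 fun j => ev_coeff s2 (aeval (Lap b) (g' * g') j j)
  refine (e1.and e2).mono fun k ⟨k1, k2⟩ => ?_
  classical
  obtain ⟨Γ, _, _, c, t, X⟩ := exists_ctx (hc k) fun q => by
    obtain ⟨⟨x, y⟩, rfl⟩ := sur k q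
    exact ⟨x, y, by simp [← map_mul]⟩
  generalize hf1 : (π k).comp (.inl G1 G2) = f1 at *
  generalize hf2 : (π k).comp (.inr G1 G2) = f2 at *
  have eG : (aeval (Lap a) g).map (mq f1) * ((aeval (Lap a) g).map (mq f1))ᴴ =
      (aeval (Lap a) (g * g)).map (mq f1) := by
    rw [← map_star', aeval_star (Lap_star a), ← Matrix.map_mul, map_mul]
  have := X.core (Lap_star a) (Lap_star b)
    (fun x y => by
      rw [i1_apply]
      split_ifs
      exacts [(za.lap.map f1).int _ _, fun _ => ⟨0, rfl⟩])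
    (fun i j => (zb.lap.map f2).int i j) (k := c1 ^ 2 + c2 ^ 2) (by nlinarith)
    (fun x => by
      have := (r1 _ (π k)).norm (by linarith) x
      rw [i1_map, hf1] at this
      nlinarith [mul_nonneg (sq_nonneg c2) (dotProduct_self_nonneg x)])
    (fun x => by
      nlinarith [mul_nonneg (sq_nonneg c1) (dotProduct_self_nonneg x),
        (r2 _ f2).norm (by linarith) x])
    (G := (aeval (Lap a) g).map (mq f1))
    (fun x hx => by
      rw [(aeval_eq _ g0).1, Matrix.map_add _ (map_add _), Matrix.map_mul, vecMul_add,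
        ← vecMul_vecMul, hx]
      simp)
    (fun i γ hγ => by
      by_contra h
      rw [eG] at h
      obtain ⟨x, hx, e⟩ := coeff_mq_ne h
      rw [k1 i x (Finsupp.mem_support_iff.2 hx) (e ▸ ((X.rng _).1 ⟨γ, rfl⟩).2), map_one] at e
      exact hγ (X.inj (by rw [← e, map_one]))) hδ.le
    fun i => by
      rw [eG, map_apply, coeff_mq_one fun x hx e =>
        k1 i x (Finsupp.mem_support_iff.2 hx) (e ▸ one_mem _)]
      exact hg i
  have e3 : (Module.finrank ℚ (kr (rep (i2 I f2 (Lap b)))) : ℚ) ≤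
      Fintype.card (Q k) * Fintype.card I * Fintype.card J * δ := by
    refine (finrank_le_trace (H := rep (i2 I f2 (aeval (Lap b) g'))) fun x hx => ?_).trans ?_
    · rw [(aeval_eq _ g0').1, ← repA_apply, map_add, map_add, map_mul, map_mul, map_one, map_one,
        vecMul_add, ← vecMul_vecMul, repA_apply, mem_kr.1 hx]
      simp
    · rw [← rep_star, ← i2_star, aeval_star (Lap_star b), ← rep_mul, ← map_mul, ← map_mul,
        trace_rep, tau_apply, mul_assoc, mul_assoc]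
      refine mul_le_mul_of_nonneg_left ((sum_le_card_nsmul _ _ δ fun x _ => ?_).trans
        (by simp [mul_assoc])) (by positivity)
      rw [i2_apply, if_pos rfl, k2]
      exact hg' _
  have e4 : rep (Lap (pd f1 f2 d1 a b)) = rep (i1 J f1 (Lap a)) + rep (i2 I f2 (Lap b)) := by
    rw [lap_pd X.comm ha]; rfl
  have e5 : ∀ d : Matrix (I × J) (I × J) (QG (Q k)),
      rep (Lap d) = (rep d)ᵀ * rep d + rep d * (rep d)ᵀ := fun d => by
    rw [← rep_star, ← rep_mul, ← rep_mul]; rfl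
  have e6 : i1 J f1 (Lap a) = Lap (i1 J f1 a) := by simp [Lap, i1_star]
  rw [e4, ← lap_d2 X.comm (d1 := d1), e6, e5, e5, kr_add, ← e5, ← e5, ← e6, lap_d2 X.comm]
  refine this.trans ?_
  have e7 : (Module.finrank ℚ (kr (rep (i2 I f2 (Lap b)))) : ℝ) ≤
      Fintype.card (Q k) * Fintype.card I * Fintype.card J * δ := by exact_mod_cast e3
  have l0 : 0 ≤ Real.log (c1 ^ 2 + c2 ^ 2 : ℚ) := Real.log_nonneg (by exact_mod_cast (by nlinarith))
  nlinarith [mul_le_mul_of_nonneg_right e7 l0,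
    mul_le_mul_of_nonneg_right h2 (Nat.cast_nonneg (α := ℝ) (Fintype.card (Q k)))]

theorem main {deg1 : I → ℕ} {a : Matrix I I (MonoidAlgebra ℤ G1)} {deg2 : J → ℕ}
    {b : Matrix J J (MonoidAlgebra ℤ G2)} (ha : IsCx deg1 a) (hb : IsCx deg2 b)
    {A : L2 (G1 × I) →L[ℂ] L2 (G1 × I)} (hA : IsOp a A) (iA : Function.Injective (lap A))
    {B : L2 (G2 × J) →L[ℂ] L2 (G2 × J)} (hB : IsOp b B) (iB : Function.Injective (lap B))
    (z : Subgroup.center G1 = ⊥) {m : ℕ} (hm : ∀ i j, deg1 i + deg2 j ≤ m)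
    {Q : ℕ → Type} [∀ k, Group (Q k)] [∀ k, Fintype (Q k)] [∀ k, DecidableEq (Q k)]
    {π : ∀ k, G1 × G2 →* Q k} (sur : ∀ k, Function.Surjective (π k))
    (sep : ∀ g ≠ 1, ∀ᶠ k in atTop, π k g ≠ 1) :
    ∃ D, IsOp (tens deg1 (push (.inl G1 G2) a) (push (.inr G1 G2) b)) D ∧
      Function.Injective (lap D) ∧ ∃ r : ℕ → ℝ, (∀ p, LogDet (dsum deg1 deg2) D p (r p)) ∧
      ∑ p ∈ range (m + 1), (-1 : ℝ) ^ p * p * r p = 0 ∧
      Tendsto (fun k => ∑ n ∈ range (m + 1), (-1 : ℝ) ^ n * (Real.log (tors (dsum deg1 deg2)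
        (push (π k) (tens deg1 (push (.inl G1 G2) a) (push (.inr G1 G2) b))) n) /
          Fintype.card (Q k))) atTop (𝓝 0) := by
  have ha' := ha.map (cq G1)
  have hb' := hb.map (cq G2)
  have da := dec_of_inj (lap_eq hA ▸ iA)
  have db := dec_of_inj (lap_eq hB ▸ iB)
  have e : (tens deg1 (push (.inl G1 G2) a) (push (.inr G1 G2) b)).map (cq _) =
      pd (.inl G1 G2) (.inr G1 G2) deg1 (a.map (cq G1)) (b.map (cq G2)) := by
    rw [tens_map, push_cq, push_cq, pd_eq]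
  have hD := (isOp_iff (d := tens deg1 (push (.inl G1 G2) a) (push (.inr G1 G2) b))).2 rfl
  have c0 := MonoidHom.commute_inl_inr (M := G1) (N := G2)
  have inj := inj_pd c0 (fun x y h => congrArg Prod.fst h) (b.map (cq G2)) ha' da
  choose r hr using exists_logdet sep (isCx_pd c0 ha' hb') (e ▸ inZ_cq _) (dec_of_inj inj)
  refine ⟨_, hD, by rwa [lap_eq hD, e], r, fun p => ?_, ?_, ?_⟩
  · rw [LogDet, lap_eq hD, e]
    exact hr p
  · refine tendsto_nhds_unique (tendsto_finsetSum _ fun p _ => (hr p).const_mul _)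
      (tendsto_const_nhds.congr' (eventually_mem_nhdsWithin.mono fun ε hε => ?_))
    exact (FF_alt (deg := dsum deg1 deg2) (fun x => hm x.1 x.2)
      (tau_pd c0 ha' hb' (da.euler ha') (db.euler hb')) hε).symm
  · refine Metric.tendsto_nhds.2 fun η hη => (small sur sep z ha' (inZ_cq a) (inZ_cq b) da db
      (η := η / (m + 1)) (by positivity)).mono fun k hk => ?_
    have e' : (push (π k) (tens deg1 (push (.inl G1 G2) a) (push (.inr G1 G2) b))).map (cq _) =
        pd ((π k).comp (.inl _ _)) ((π k).comp (.inr _ _)) deg1 (a.map (cq G1))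
          (b.map (cq G2)) := by rw [push_cq, e, pd_map]
    have c1 : ∀ x y, Commute ((π k).comp (.inl _ _) x) ((π k).comp (.inr _ _) y) := fun x y =>
      (c0 x y).map (π k)
    have := tors_bound (deg := dsum deg1 deg2)
      (d := push (π k) (tens deg1 (push (.inl G1 G2) a) (push (.inr G1 G2) b)))
      (IsCx.of_map cq_inj (by rw [e']; exact isCx_pd c1 ha' hb')) (fun x => hm x.1 x.2)
      (by rw [e']; exact tau_pd c1 ha' hb' (da.euler ha') (db.euler hb'))
    rw [e'] at this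
    have q0 : (0 : ℝ) < Fintype.card (Q k) := by exact_mod_cast Fintype.card_pos
    have h2 := this.trans (mul_le_mul_of_nonneg_left hk (by positivity))
    rw [← mul_assoc, mul_div_cancel₀ _ (by positivity)] at h2
    simp only [← mul_div_assoc, ← sum_div]
    rw [Real.dist_eq, sub_zero, abs_div, abs_of_pos q0, div_lt_iff₀ q0]
    nlinarith [mul_pos hη q0]

end

end Pool.Agent.Lib.MP_b65ff2_gt
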