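import Mathlib

namespace Pool.Agent.Lib.MP_b65ff2_gt

open Matrix

set_option linter.unusedSectionVars false

noncomputable section

variable {Ω Ω' ι ι' : Type} [Fintype Ω] [Fintype Ω'] [Fintype ι] [Fintype ι']

def zc (z : ι → ℤ) : ι → ℚ := fun i => z i

def Ind (T : Matrix ι Ω ℚ) : Prop := ∀ c : ι → ℚ, c ᵥ* T = 0 → c = 0

def IsB (L : Submodule ℤ (Ω → ℚ)) (T : Matrix ι Ω ℚ) : Prop :=
  Ind T ∧ ∀ x, x ∈ L ↔ ∃ z : ι → ℤ, x = zc z ᵥ* T

def gram [DecidableEq ι] (T : Matrix ι Ω ℚ) : ℚ := (T * Tᵀ).det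

def sp (L : Submodule ℤ (Ω → ℚ)) : Submodule ℚ (Ω → ℚ) := Submodule.span ℚ (L : Set (Ω → ℚ))

lemma dot_self_vecMul (c : ι → ℚ) (T : Matrix ι Ω ℚ) :
    (c ᵥ* (T * Tᵀ)) ⬝ᵥ c = (c ᵥ* T) ⬝ᵥ (c ᵥ* T) := by
  rw [← vecMul_vecMul, ← dotProduct_mulVec, mulVec_transpose]

lemma gram_ne [DecidableEq ι] {T : Matrix ι Ω ℚ} (h : Ind T) : gram T ≠ 0 := by
  intro h0
  obtain ⟨c, hc, h1⟩ := exists_vecMul_eq_zero_iff.2 h0
  apply hc
  apply h
  have := dot_self_vecMul c T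
  rw [h1, zero_dotProduct] at this
  exact dotProduct_self_eq_zero.1 this.symm

lemma gram_cast [DecidableEq ι] (T : Matrix ι Ω ℚ) :
    (gram T : ℝ) = ((T.map (Rat.castHom ℝ)) * (T.map (Rat.castHom ℝ))ᵀ).det := by
  rw [gram, ← transpose_map, ← Matrix.map_mul]
  exact (Rat.castHom ℝ).map_det _

lemma psd_real (T : Matrix ι Ω ℝ) : (T * Tᵀ).PosSemidef := by
  simpa using posSemidef_self_mul_conjTranspose T

lemma gram_pos [DecidableEq ι] {T : Matrix ι Ω ℚ} (h : Ind T) : 0 < gram T := by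
  refine lt_of_le_of_ne ?_ (gram_ne h).symm
  have := (psd_real (T.map (Rat.castHom ℝ))).det_nonneg
  rw [← gram_cast] at this
  exact_mod_cast this

lemma gram_mul [DecidableEq ι] (C : Matrix ι ι ℚ) (T : Matrix ι Ω ℚ) :
    gram (C * T) = C.det ^ 2 * gram T := by
  rw [gram, transpose_mul, Matrix.mul_assoc, ← Matrix.mul_assoc T, det_mul, det_mul, det_transpose,
    gram]
  ring

lemma gram_reindex [DecidableEq ι] [DecidableEq ι'] (e : ι' ≃ ι) (T : Matrix ι Ω ℚ) :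
    gram (T.submatrix e id) = gram T := by
  rw [gram, gram, ← det_submatrix_equiv_self e (T * Tᵀ)]
  congr 1

lemma Ind.li {T : Matrix ι Ω ℚ} (h : Ind T) : LinearIndependent ℚ T.row := by
  rw [Fintype.linearIndependent_iff]
  intro g hg
  have := h g (by rw [vecMul_eq_sum]; exact hg)
  exact fun i => congrFun this i

lemma zc_vecMul (z : ι → ℤ) (T : Matrix ι Ω ℚ) : zc z ᵥ* T = ∑ i, z i • T.row i := by
  rw [vecMul_eq_sum]
  refine Finset.sum_congr rfl fun i _ => ?_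
  simp [zc, Int.cast_smul_eq_zsmul]
  rfl

lemma IsB.row_mem {L : Submodule ℤ (Ω → ℚ)} {T : Matrix ι Ω ℚ} (h : IsB L T) (i : ι) :
    T.row i ∈ L := by
  classical
  refine (h.2 _).2 ⟨Pi.single i 1, ?_⟩
  rw [zc_vecMul, Finset.sum_eq_single i] <;> simp +contextual

lemma IsB.eq_span {L : Submodule ℤ (Ω → ℚ)} {T : Matrix ι Ω ℚ} (h : IsB L T) :
    L = Submodule.span ℤ (Set.range T.row) := by
  ext x
  rw [h.2, Submodule.mem_span_range_iff_exists_fun]
  simp only [zc_vecMul, eq_comm]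

lemma IsB.sp_eq {L : Submodule ℤ (Ω → ℚ)} {T : Matrix ι Ω ℚ} (h : IsB L T) :
    sp L = Submodule.span ℚ (Set.range T.row) := by
  rw [sp, h.eq_span, Submodule.span_span_of_tower]

lemma IsB.mem_sp {L : Submodule ℤ (Ω → ℚ)} {T : Matrix ι Ω ℚ} (h : IsB L T) (x : Ω → ℚ) :
    x ∈ sp L ↔ ∃ c : ι → ℚ, x = c ᵥ* T := by
  rw [h.sp_eq, Submodule.mem_span_range_iff_exists_fun]
  simp only [vecMul_eq_sum, eq_comm]
  rfl

lemma IsB.finrank {L : Submodule ℤ (Ω → ℚ)} {T : Matrix ι Ω ℚ} (h : IsB L T) :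
    Module.finrank ℚ (sp L) = Fintype.card ι := by
  rw [h.sp_eq, finrank_span_eq_card h.1.li]

lemma exists_isB {L : Submodule ℤ (Ω → ℚ)} (h : L.FG) :
    ∃ (r : ℕ) (T : Matrix (Fin r) Ω ℚ), IsB L T := by
  have : Module.Finite ℤ L := Module.Finite.iff_fg.2 h
  let b := Module.finBasis ℤ L
  refine ⟨_, Matrix.of fun i => (b i : Ω → ℚ), ?_, fun x => ⟨fun hx => ?_, ?_⟩⟩
  · have h1 : LinearIndependent ℤ fun i => (b i : Ω → ℚ) :=
      b.linearIndependent.map' L.subtype (Submodule.ker_subtype L)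
    rw [LinearIndependent.iff_fractionRing ℤ ℚ, Fintype.linearIndependent_iff] at h1
    intro c hc
    rw [vecMul_eq_sum] at hc
    exact funext (h1 c hc)
  · refine ⟨b.repr ⟨x, hx⟩, ?_⟩
    rw [zc_vecMul]
    have := congrArg L.subtype (b.sum_repr ⟨x, hx⟩)
    rw [map_sum] at this
    exact this.symm
  · rintro ⟨z, rfl⟩
    rw [zc_vecMul]
    exact L.sum_mem fun i _ => L.smul_mem _ (b i).2

lemma IsB.reindex {L : Submodule ℤ (Ω → ℚ)} {T : Matrix ι Ω ℚ} (h : IsB L T) (e : ι' ≃ ι) :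
    IsB L (T.submatrix e id) := by
  have k : ∀ c : ι' → ℚ, c ᵥ* T.submatrix e id = (c ∘ e.symm) ᵥ* T := fun c => by
    rw [submatrix_vecMul_equiv]; rfl
  refine ⟨fun c hc => ?_, fun x => ?_⟩
  · rw [k] at hc
    have := h.1 _ hc
    funext i
    simpa using congrFun this (e i)
  · rw [h.2]
    constructor
    · rintro ⟨z, rfl⟩
      refine ⟨z ∘ e, ?_⟩
      rw [k]
      congr 1
      funext i
      simp [zc]
    · rintro ⟨z, rfl⟩
      exact ⟨z ∘ e.symm, by rw [k]; rfl⟩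

def IsB.basis {L : Submodule ℤ (Ω → ℚ)} {T : Matrix ι Ω ℚ} (h : IsB L T) :
    Module.Basis ι ℤ L :=
  Module.Basis.mk (v := fun i => ⟨T.row i, h.row_mem i⟩)
    (LinearIndependent.of_comp L.subtype
      ((LinearIndependent.iff_fractionRing ℤ ℚ).2 h.1.li)) (by
    rintro ⟨x, hx⟩ -
    obtain ⟨z, rfl⟩ := (h.2 x).1 hx
    rw [Submodule.mem_span_range_iff_exists_fun]
    exact ⟨z, Subtype.ext (by simp [zc_vecMul])⟩)

lemma IsB.basis_apply {L : Submodule ℤ (Ω → ℚ)} {T : Matrix ι Ω ℚ} (h : IsB L T) (i : ι) :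
    (h.basis i : Ω → ℚ) = T.row i := by simp [IsB.basis]

lemma gram_index [DecidableEq ι] {L L' : Submodule ℤ (Ω → ℚ)} {T T' : Matrix ι Ω ℚ}
    (h : IsB L T) (h' : IsB L' T') (hle : L ≤ L') :
    gram T = (L.toAddSubgroup.relIndex L'.toAddSubgroup : ℚ) ^ 2 * gram T' := by
  have : L.toAddSubgroup.relIndex L'.toAddSubgroup = (h'.basis.toMatrix fun i =>
      (⟨h.basis i, hle (SetLike.coe_mem _)⟩ : L')).det.natAbs :=
    AddSubgroup.relIndex_eq_natAbs_det L.toAddSubgroup L'.toAddSubgroup hle h.basis h'.basis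
  rw [this]
  set C := h'.basis.toMatrix fun i => (⟨h.basis i, hle (SetLike.coe_mem _)⟩ : L')
  have hC : T = (Cᵀ.map (Int.castRingHom ℚ)) * T' := by
    ext i w
    have e := congrArg (fun v : L' => (v : Ω → ℚ) w)
      (h'.basis.sum_toMatrix_smul_self (fun i => (⟨h.basis i, hle (SetLike.coe_mem _)⟩ : L')) i)
    simp only [Submodule.coe_sum, Submodule.coe_smul, Finset.sum_apply, Pi.smul_apply] at e
    rw [Matrix.mul_apply, h.basis_apply] at *
    refine e.symm.trans (Finset.sum_congr rfl fun j _ => ?_)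
    rw [h'.basis_apply, zsmul_eq_mul]
    rfl
  rw [hC, gram_mul, ← RingHom.mapMatrix_apply, ← RingHom.map_det, det_transpose]
  congr 1
  simp [Nat.cast_natAbs]

open Classical in
def cov (L : Submodule ℤ (Ω → ℚ)) : ℚ :=
  if h : L.FG then gram (exists_isB h).choose_spec.choose else 1

lemma IsB.fg {L : Submodule ℤ (Ω → ℚ)} {T : Matrix ι Ω ℚ} (h : IsB L T) : L.FG := by
  rw [h.eq_span]
  exact Submodule.fg_span (Set.finite_range _)

lemma gram_index' [DecidableEq ι] [DecidableEq ι'] {L L' : Submodule ℤ (Ω → ℚ)}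
    {T : Matrix ι Ω ℚ} {T' : Matrix ι' Ω ℚ}
    (h : IsB L T) (h' : IsB L' T') (hle : L ≤ L') (hs : sp L = sp L') :
    gram T = (L.toAddSubgroup.relIndex L'.toAddSubgroup : ℚ) ^ 2 * gram T' := by
  have : Fintype.card ι = Fintype.card ι' := by rw [← h.finrank, ← h'.finrank, hs]
  let e := Fintype.equivOfCardEq this
  rw [gram_index h (h'.reindex e) hle, gram_reindex]

lemma IsB.cov_eq [DecidableEq ι] {L : Submodule ℤ (Ω → ℚ)} {T : Matrix ι Ω ℚ} (h : IsB L T) :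
    cov L = gram T := by
  rw [cov, dif_pos h.fg, gram_index' (exists_isB h.fg).choose_spec.choose_spec h le_rfl rfl]
  simp

lemma cov_pos (L : Submodule ℤ (Ω → ℚ)) : 0 < cov L := by
  by_cases h : L.FG
  · obtain ⟨r, T, hT⟩ := exists_isB h
    rw [hT.cov_eq]
    exact gram_pos hT.1
  · simp [cov, h]

lemma cov_index {L L' : Submodule ℤ (Ω → ℚ)} (h : L'.FG) (hle : L ≤ L') (hs : sp L = sp L') :
    cov L = (L.toAddSubgroup.relIndex L'.toAddSubgroup : ℚ) ^ 2 * cov L' := by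
  obtain ⟨r, T, hT⟩ := exists_isB (h.of_le hle)
  obtain ⟨r', T', hT'⟩ := exists_isB h
  rw [hT.cov_eq, hT'.cov_eq, gram_index' hT hT' hle hs]

lemma cov_anti {L L' : Submodule ℤ (Ω → ℚ)} (h : L'.FG) (hle : L ≤ L') (hs : sp L = sp L') :
    cov L' ≤ cov L := by
  have e := cov_index h hle hs
  have p := cov_pos L
  have p' := cov_pos L'
  have : L.toAddSubgroup.relIndex L'.toAddSubgroup ≠ 0 := fun h0 => by
    rw [h0] at e; simp at e; linarith
  have : (1 : ℚ) ≤ L.toAddSubgroup.relIndex L'.toAddSubgroup := by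
    exact_mod_cast Nat.one_le_iff_ne_zero.2 this
  rw [e]
  nlinarith [mul_le_mul this this zero_le_one (by linarith)]

theorem det_le_of_le [DecidableEq ι] {A B : Matrix ι ι ℝ} (hA : A.PosSemidef) (hB : B.PosSemidef)
    (hd : B.det ≠ 0) (h : (B - A).PosSemidef) : A.det ≤ B.det := by
  open scoped MatrixOrder in
  obtain ⟨S, hS⟩ := CStarAlgebra.nonneg_iff_eq_star_mul_self.1 (nonneg_iff_posSemidef.2 hB)
  rw [star_eq_conjTranspose] at hS
  have dS : S.det ≠ 0 := fun h0 => hd (by rw [hS, det_mul, h0, mul_zero])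
  have uS : IsUnit S.det := dS.isUnit
  have h1 := hA.conjTranspose_mul_mul_same S⁻¹
  have h2 := h.conjTranspose_mul_mul_same S⁻¹
  have e : S⁻¹ᴴ * (B - A) * S⁻¹ = 1 - S⁻¹ᴴ * A * S⁻¹ := by
    rw [Matrix.mul_sub, Matrix.sub_mul, hS, ← Matrix.mul_assoc, ← conjTranspose_mul,
      Matrix.mul_assoc, mul_nonsing_inv _ uS]
    simp
  rw [e] at h2
  have h3 : (S⁻¹ᴴ * A * S⁻¹).det ≤ 1 := by
    rw [h1.1.det_eq_prod_eigenvalues]
    refine Finset.prod_le_one (fun i _ => h1.eigenvalues_nonneg i) fun i _ => ?_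
    have := h2.dotProduct_mulVec_nonneg (h1.1.eigenvectorBasis i)
    rw [sub_mulVec, one_mulVec, h1.1.mulVec_eigenvectorBasis, dotProduct_sub, dotProduct_smul] at this
    have n : star (h1.1.eigenvectorBasis i).ofLp ⬝ᵥ (h1.1.eigenvectorBasis i).ofLp = 1 := by
      rw [dotProduct_comm, ← EuclideanSpace.inner_eq_star_dotProduct, real_inner_self_eq_norm_sq,
        h1.1.eigenvectorBasis.orthonormal.1]
      simp
    rw [n] at this
    simpa using this
  rw [det_mul, det_mul, det_conjTranspose, det_nonsing_inv, Ring.inverse_eq_inv'] at h3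
  rw [hS, det_mul, det_conjTranspose]
  simp only [star_trivial] at h3 ⊢
  have p : 0 < S.det * S.det := mul_self_pos.2 dS
  have := mul_le_mul_of_nonneg_left h3 p.le
  rwa [mul_one, show S.det * S.det * (S.det⁻¹ * A.det * S.det⁻¹) = A.det by field_simp] at this

end

end Pool.Agent.Lib.MP_b65ff2_gt
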