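import Pool.Agent.Lib.MP_b65ff2_gt.Key

namespace Pool.Agent.Lib.MP_b65ff2_gt

open Matrix

set_option linter.unusedSectionVars false

noncomputable section

variable {Ω Ω' ι ι' : Type} [Fintype Ω] [Fintype Ω'] [Fintype ι] [Fintype ι']

def Lam (Ω : Type) : Submodule ℤ (Ω → ℚ) where
  carrier := {x | ∃ z : Ω → ℤ, x = zc z}
  add_mem' := by
    rintro _ _ ⟨a, rfl⟩ ⟨b, rfl⟩
    exact ⟨a + b, funext fun i => by simp [zc]⟩
  zero_mem' := ⟨0, funext fun i => by simp [zc]⟩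
  smul_mem' := by
    rintro c _ ⟨a, rfl⟩
    exact ⟨c • a, funext fun i => by simp [zc]⟩

lemma mem_Lam {x : Ω → ℚ} : x ∈ Lam Ω ↔ ∀ w, ∃ z : ℤ, x w = z :=
  ⟨fun ⟨z, hz⟩ w => ⟨z w, congrFun hz w⟩, fun h => by
    choose z hz using h
    exact ⟨z, funext hz⟩⟩

lemma isB_one [DecidableEq Ω] : IsB (Lam Ω) (1 : Matrix Ω Ω ℚ) :=
  ⟨fun c hc => by simpa using hc, fun x => by simp only [vecMul_one]; rfl⟩

lemma fg_Lam : (Lam Ω).FG := by classical exact isB_one.fg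

lemma cov_Lam : cov (Lam Ω) = 1 := by
  classical
  rw [isB_one.cov_eq]; simp [gram]

lemma sp_Lam : sp (Lam Ω) = ⊤ := by
  classical
  exact eq_top_iff.2 fun x _ => (isB_one.mem_sp x).2 ⟨x, by simp⟩

lemma exists_den (x : Ω → ℚ) : ∃ d : ℕ, d ≠ 0 ∧ (d : ℚ) • x ∈ Lam Ω := by
  refine ⟨∏ w, (x w).den, Finset.prod_ne_zero_iff.2 fun w _ => (x w).den_nz, mem_Lam.2 fun w => ?_⟩
  obtain ⟨m, hm⟩ := Finset.dvd_prod_of_mem (fun w => (x w).den) (Finset.mem_univ w)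
  refine ⟨m * (x w).num, ?_⟩
  rw [hm, Pi.smul_apply, smul_eq_mul]
  push_cast
  rw [← Rat.den_mul_eq_num]
  ring

def lat (W : Submodule ℚ (Ω → ℚ)) : Submodule ℤ (Ω → ℚ) := cut (Lam Ω) W

lemma fg_lat (W : Submodule ℚ (Ω → ℚ)) : (lat W).FG := fg_Lam.of_le inf_le_left

lemma sp_lat (W : Submodule ℚ (Ω → ℚ)) : sp (lat W) = W := by
  refine le_antisymm (Submodule.span_le.2 fun x hx => hx.2) fun x hx => ?_
  obtain ⟨d, hd, h⟩ := exists_den x
  have : x = (d : ℚ)⁻¹ • (d : ℚ) • x := by rw [smul_smul, inv_mul_cancel₀ (by simpa), one_smul]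
  rw [this]
  exact Submodule.smul_mem _ _ (Submodule.subset_span ⟨h, W.smul_mem _ hx⟩)

lemma one_le_cov {L : Submodule ℤ (Ω → ℚ)} (h : L ≤ Lam Ω) : 1 ≤ cov L := by
  obtain ⟨r, T, hT⟩ := exists_isB (fg_Lam.of_le h)
  choose z hz using fun i => h (hT.row_mem i)
  have e : gram T = ((Matrix.of z * (Matrix.of z)ᵀ).det : ℤ) := by
    have : T = (Matrix.of z).map (Int.castRingHom ℚ) := by
      ext i w; exact congrFun (hz i) w
    rw [gram, this, ← transpose_map, ← Matrix.map_mul, ← RingHom.mapMatrix_apply, ← RingHom.map_det]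
    rfl
  have p := gram_pos hT.1
  rw [hT.cov_eq]
  rw [e] at p ⊢
  exact_mod_cast p

def ht (W : Submodule ℚ (Ω → ℚ)) : ℝ := Real.log (cov (lat W))

lemma cov_pos' (L : Submodule ℤ (Ω → ℚ)) : (0 : ℝ) < cov L := by exact_mod_cast cov_pos L

lemma ht_nonneg (W : Submodule ℚ (Ω → ℚ)) : 0 ≤ ht W :=
  Real.log_nonneg (by exact_mod_cast one_le_cov inf_le_left)

lemma ht_top : ht (⊤ : Submodule ℚ (Ω → ℚ)) = 0 := by
  have : lat (⊤ : Submodule ℚ (Ω → ℚ)) = Lam Ω := by simp [lat, cut]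
  simp [ht, this, cov_Lam]

lemma cut_lat (Y W : Submodule ℚ (Ω → ℚ)) : cut (lat Y) W = lat (Y ⊓ W) := by
  ext x; simp [lat, mem_cut, and_assoc]

lemma log_le_of {a b c d : ℚ} (ha : 0 < a) (hb : 0 < b) (hc : 0 < c) (hd : 0 < d)
    (h : a * b ≤ c * d) : Real.log a + Real.log b ≤ Real.log c + Real.log d := by
  rw [← Real.log_mul (by positivity) (by positivity), ← Real.log_mul (by positivity) (by positivity)]
  exact Real.log_le_log (by positivity) (by exact_mod_cast h)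

theorem ht_map (f : (Ω → ℚ) →ₗ[ℚ] (Ω' → ℚ)) (hi : ∀ x ∈ Lam Ω, f x ∈ Lam Ω') {k : ℚ}
    (hk : 1 ≤ k) (h : ∀ x, f x ⬝ᵥ f x ≤ k * (x ⬝ᵥ x)) (Y : Submodule ℚ (Ω → ℚ)) :
    ht (Y.map f) + ht (Y ⊓ LinearMap.ker f) ≤ ht Y + Module.finrank ℚ Y * Real.log k := by
  have h1 := cov_map_le (fg_lat Y) f hk h
  have h2 : cov (lat (Y.map f)) ≤ cov (mp f (lat Y)) :=
    cov_anti (fg_lat _) (by
      rintro _ ⟨x, hx, rfl⟩
      exact ⟨hi x hx.1, x, hx.2, rfl⟩) (by rw [sp_mp, sp_lat, sp_lat])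
  rw [cut_lat, sp_lat, mul_comm (k ^ _)] at h1
  have := log_le_of (cov_pos _) (cov_pos _) (cov_pos _) (by positivity)
    ((mul_le_mul_of_nonneg_right h2 (cov_pos _).le).trans h1)
  rwa [Rat.cast_pow, Real.log_pow] at this

def perp (W : Submodule ℚ (Ω → ℚ)) : Submodule ℚ (Ω → ℚ) where
  carrier := {x | ∀ w ∈ W, x ⬝ᵥ w = 0}
  add_mem' := fun ha hb w hw => by rw [add_dotProduct, ha w hw, hb w hw, add_zero]
  zero_mem' := fun w _ => zero_dotProduct w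
  smul_mem' := fun c x hx w hw => by rw [smul_dotProduct, hx w hw, smul_zero]

lemma mem_perp {W : Submodule ℚ (Ω → ℚ)} {x : Ω → ℚ} : x ∈ perp W ↔ ∀ w ∈ W, x ⬝ᵥ w = 0 :=
  Iff.rfl

structure IsP (W : Submodule ℚ (Ω → ℚ)) (P : Matrix Ω Ω ℚ) : Prop where
  symm : Pᵀ = P
  mem : ∀ x, x ᵥ* P ∈ W
  fix : ∀ x ∈ W, x ᵥ* P = x
  tr : P.trace = Module.finrank ℚ W

lemma IsB.isP [DecidableEq ι] {L : Submodule ℤ (Ω → ℚ)} {T : Matrix ι Ω ℚ} (h : IsB L T) :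
    IsP (sp L) (pr T) where
  symm := pr_symm T
  mem x := (h.mem_sp _).2 ⟨_, by rw [pr, ← vecMul_vecMul, ← vecMul_vecMul]⟩
  fix x hx := by
    obtain ⟨c, rfl⟩ := (h.mem_sp _).1 hx
    rw [vecMul_vecMul, mul_pr h.1]
  tr := by rw [trace_pr h.1, h.finrank]

lemma exists_isP (W : Submodule ℚ (Ω → ℚ)) : ∃ P, IsP W P := by
  obtain ⟨r, T, hT⟩ := exists_isB (fg_lat W)
  exact ⟨_, sp_lat W ▸ hT.isP⟩

lemma vecMul_ext {A B : Matrix Ω Ω' ℚ} (h : ∀ x, x ᵥ* A = x ᵥ* B) : A = B := by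
  classical
  ext i j
  simpa using congrFun (h (Pi.single i 1)) j

lemma dot_vecMul (x : Ω → ℚ) (y : Ω' → ℚ) (A : Matrix Ω Ω' ℚ) :
    (x ᵥ* A) ⬝ᵥ y = x ⬝ᵥ (y ᵥ* Aᵀ) := by rw [vecMul_transpose, dotProduct_mulVec]

section
variable {W : Submodule ℚ (Ω → ℚ)} {P : Matrix Ω Ω ℚ}

lemma IsP.idem (h : IsP W P) : P * P = P :=
  vecMul_ext fun x => by rw [← vecMul_vecMul, h.fix _ (h.mem x)]

lemma IsP.zero_iff (h : IsP W P) (x : Ω → ℚ) : x ᵥ* P = 0 ↔ x ∈ perp W := by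
  constructor
  · intro hx w hw
    rw [← h.fix w hw, ← h.symm, ← dot_vecMul, hx, zero_dotProduct]
  · intro hx
    have := hx _ (h.mem (x ᵥ* P))
    rw [← h.symm, ← dot_vecMul, h.symm] at this
    exact dotProduct_self_eq_zero.1 this

lemma IsP.sub_mem (h : IsP W P) (x : Ω → ℚ) : x - x ᵥ* P ∈ perp W := by
  rw [← h.zero_iff, sub_vecMul, h.fix _ (h.mem x), sub_self]

end

lemma exists_decomp (W : Submodule ℚ (Ω → ℚ)) (x : Ω → ℚ) :
    ∃ w ∈ W, ∃ v ∈ perp W, x = w + v := by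
  obtain ⟨P, h⟩ := exists_isP W
  exact ⟨_, h.mem x, _, h.sub_mem x, by abel⟩

lemma perp_perp (W : Submodule ℚ (Ω → ℚ)) : perp (perp W) = W := by
  refine le_antisymm (fun x hx => ?_) fun x hx w hw => by rw [dotProduct_comm, hw x hx]
  obtain ⟨w, hw, v, hv, rfl⟩ := exists_decomp W x
  have := hx v hv
  rw [add_dotProduct, dotProduct_comm, hv w hw, zero_add, dotProduct_self_eq_zero] at this
  rwa [this, add_zero]

lemma isB_span {T : Matrix ι Ω ℚ} (h : Ind T) : IsB (Submodule.span ℤ (Set.range T.row)) T :=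
  ⟨h, fun x => by
    rw [Submodule.mem_span_range_iff_exists_fun]
    simp only [zc_vecMul, eq_comm]⟩

lemma lam_vecMul {x : Ω → ℚ} (hx : x ∈ Lam Ω) {M : Matrix Ω Ω' ℚ} (hM : ∀ i j, ∃ z : ℤ, M i j = z) :
    x ᵥ* M ∈ Lam Ω' := by
  obtain ⟨z, rfl⟩ := hx
  exact IsB.zmem (fun i => mem_Lam.2 (hM i)) z

lemma ht_perp_le (W : Submodule ℚ (Ω → ℚ)) : ht (perp W) ≤ ht W := by
  obtain ⟨r, T, hT⟩ := exists_isB (fg_lat W)
  have hP := hT.isP
  rw [sp_lat] at hP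
  have h1 := cov_map_le fg_Lam (pr T).vecMulLinear le_rfl fun x => by
    simpa using proj_norm hP.symm hP.idem x
  have hk : LinearMap.ker (pr T).vecMulLinear = perp W := by
    ext x; simpa using hP.zero_iff x
  have u : IsUnit (T * Tᵀ).det := (gram_ne hT.1).isUnit
  have iS : Ind ((T * Tᵀ)⁻¹ * T) := fun c hc => by
    rw [← vecMul_vecMul] at hc
    have := congrArg (· ᵥ* (T * Tᵀ)) (hT.1 _ hc)
    simpa [nonsing_inv_mul _ u] using this
  have hS := isB_span iS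
  have h2 := cov_anti (L := mp (pr T).vecMulLinear (Lam Ω)) hS.fg (by
      rintro _ ⟨x, hx, rfl⟩
      obtain ⟨z, hz⟩ := lam_vecMul hx (M := Tᵀ) fun i j => mem_Lam.1 (hT.row_mem j).1 i
      exact (hS.2 _).2 ⟨z, by rw [← hz, vecMul_vecMul]; rfl⟩) (by
      ext x
      rw [sp_mp, sp_Lam, hS.mem_sp]
      constructor
      · rintro ⟨y, -, rfl⟩
        exact ⟨y ᵥ* Tᵀ, by rw [vecMul_vecMul]; rfl⟩
      · rintro ⟨c, rfl⟩
        exact ⟨(c ᵥ* (T * Tᵀ)⁻¹) ᵥ* T, trivial, by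
          rw [vecMulLinear_apply, vecMul_vecMul, mul_pr hT.1, vecMul_vecMul]⟩)
  rw [hS.cov_eq, gram_mul, det_nonsing_inv, Ring.inverse_eq_inv', ← gram, ← hT.cov_eq] at h2
  rw [hk, cov_Lam, one_pow, one_mul] at h1
  have p := cov_pos (lat W)
  have h3 := (mul_le_mul_of_nonneg_right h2 (cov_pos _).le).trans h1
  refine Real.log_le_log (cov_pos' _) (Rat.cast_le.2 ?_)
  rwa [show (cov (lat W))⁻¹ ^ 2 * cov (lat W) = (cov (lat W))⁻¹ by field_simp,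
    inv_mul_le_iff₀ p, mul_one] at h3

theorem ht_perp (W : Submodule ℚ (Ω → ℚ)) : ht (perp W) = ht W :=
  le_antisymm (ht_perp_le W) (by simpa [perp_perp] using ht_perp_le (perp W))

theorem ht_submod (V W : Submodule ℚ (Ω → ℚ)) : ht (V ⊔ W) + ht (V ⊓ W) ≤ ht V + ht W := by
  obtain ⟨P, hP⟩ := exists_isP (perp V)
  have hk : LinearMap.ker P.vecMulLinear = V := by
    ext x; simpa [perp_perp] using hP.zero_iff x
  have h1 := cov_map_le (fg_lat W) P.vecMulLinear le_rfl fun x => by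
    simpa using proj_norm hP.symm hP.idem x
  obtain ⟨r, T, R, hR, f1, f2, f3⟩ := key (fg_lat (V ⊔ W)) P.vecMulLinear
  rw [hk, cut_lat, inf_eq_right.2 le_sup_left] at f2 f3
  rw [sp_lat] at f2
  have : T = R := vecMul_ext fun c => by rw [← f1]; exact (hP.fix _ (f2 c)).symm
  rw [this, ← hR.cov_eq] at f3
  have h2 := cov_anti (L := mp P.vecMulLinear (lat W)) hR.fg
    (Submodule.map_mono (inf_le_inf_left _ fun x hx => (le_sup_right : W ≤ V ⊔ W) hx)) (by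
      rw [sp_mp, sp_mp, sp_lat, sp_lat, Submodule.map_sup, ← hk]
      simp [Submodule.map_le_iff_le_comap])
  rw [hk, cut_lat, one_pow, one_mul, inf_comm] at h1
  refine log_le_of (cov_pos _) (cov_pos _) (cov_pos _) (cov_pos _) ?_
  rw [f3, mul_assoc]
  exact mul_le_mul_of_nonneg_left
    ((mul_le_mul_of_nonneg_right h2 (cov_pos _).le).trans h1) (cov_pos _).le

lemma ht_sup (V W : Submodule ℚ (Ω → ℚ)) : ht (V ⊔ W) ≤ ht V + ht W := by
  linarith [ht_submod V W, ht_nonneg (V ⊓ W)]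

lemma finrank_le_trace {W : Submodule ℚ (Ω → ℚ)} {H : Matrix Ω Ω ℚ} (h : ∀ x ∈ W, x ᵥ* H = x) :
    (Module.finrank ℚ W : ℚ) ≤ (H * Hᵀ).trace := by
  obtain ⟨P, hP⟩ := exists_isP W
  have e : P * H = P := vecMul_ext fun x => by rw [← vecMul_vecMul, h _ (hP.mem x)]
  have : 0 ≤ ((H - P) * (H - P)ᵀ).trace :=
    Finset.sum_nonneg fun i _ => dotProduct_self_nonneg ((H - P) i)
  rw [transpose_sub, Matrix.sub_mul, Matrix.mul_sub, Matrix.mul_sub, trace_sub, trace_sub,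
    trace_sub, hP.symm, hP.idem, trace_mul_comm H P, e, ← trace_transpose (P * Hᵀ), transpose_mul,
    transpose_transpose, hP.symm, trace_mul_comm H P, e, hP.tr] at this
  linarith

end

end Pool.Agent.Lib.MP_b65ff2_gt
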