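import Pool.Agent.Lib.MP_b65ff2_gt.Defs

namespace Pool.Agent.Lib.MP_b65ff2_gt

open Filter Topology Polynomial

set_option linter.unusedSectionVars false

noncomputable section

def mu (m : ℕ → ℝ) : ℝ[X] →ₗ[ℝ] ℝ := Polynomial.lsum fun k => LinearMap.mulRight ℝ (m k)

lemma mu_monomial (m : ℕ → ℝ) (k : ℕ) (a : ℝ) : mu m (monomial k a) = a * m k := by
  simp [mu, sum_monomial_index]

variable {H : Type} [NormedAddCommGroup H] [InnerProductSpace ℂ H] [CompleteSpace H]

lemma lap_def (D : H →L[ℂ] H) : lap D = D.adjoint ∘L D + D ∘L D.adjoint := rfl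

lemma lap_pos (D : H →L[ℂ] H) : (lap D).IsPositive :=
  (ContinuousLinearMap.isPositive_adjoint_comp_self D).add
    (ContinuousLinearMap.isPositive_self_comp_adjoint D)

lemma lap_zero {D D' : H →L[ℂ] H} {v : H} (h : (lap D + lap D') v = 0) : lap D v = 0 := by
  have e : (inner ℂ v (lap D v)).re = ‖D v‖ ^ 2 + ‖D.adjoint v‖ ^ 2 := by
    simp [lap_def, ContinuousLinearMap.adjoint_inner_right,
      ← ContinuousLinearMap.adjoint_inner_left D, ← Complex.ofReal_pow]
  have h1 := congrArg (fun w => (inner ℂ v w).re) h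
  have h2 : 0 ≤ (inner ℂ v (lap D' v)).re := (lap_pos D').re_inner_nonneg_right v
  simp only [add_apply, inner_add_right, Complex.add_re, e, inner_zero_right,
    Complex.zero_re] at h1
  have a : D v = 0 := norm_eq_zero.1 (by nlinarith [norm_nonneg (D v), sq_nonneg ‖D.adjoint v‖])
  have b : D.adjoint v = 0 := norm_eq_zero.1 (by nlinarith [norm_nonneg (D.adjoint v), sq_nonneg ‖D v‖])
  simp [lap_def, a, b]

lemma spec_sub {T : H →L[ℂ] H} (hT : T.IsPositive) {c : ℝ} (hc : ‖T‖ ≤ c) :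
    spectrum ℝ T ⊆ Set.Icc 0 c := fun x hx =>
  ⟨spectrum_nonneg_of_nonneg ((ContinuousLinearMap.nonneg_iff_isPositive T).2 hT) hx,
    (le_abs_self x).trans ((spectrum.norm_le_norm_mul_of_mem hx).trans
      ((mul_le_of_le_one_right (norm_nonneg _) ContinuousLinearMap.norm_id_le).trans hc))⟩

lemma cont_log {ε : ℝ} (hε : 0 < ε) (c : ℝ) :
    ContinuousOn (fun t : ℝ => Real.log (t + ε)) (Set.Icc 0 c) :=
  (continuousOn_id.add continuousOn_const).log fun _ hx => (add_pos_of_nonneg_of_pos hx.1 hε).ne'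

lemma logAdd_approx {T : H →L[ℂ] H} (hT : T.IsPositive) {c : ℝ} (hc : ‖T‖ ≤ c) {ε η : ℝ}
    (hε : 0 < ε) (hη : 0 ≤ η) {q : ℝ[X]} (hq : ∀ x ∈ Set.Icc 0 c, |q.eval x - Real.log (x + ε)| < η)
    {v : H} (hv : ‖v‖ = 1) :
    |mu (fun k => (inner ℂ v ((T ^ k) v)).re) q - (inner ℂ v (logAdd T ε v)).re| ≤ η := by
  have e : mu (fun k => (inner ℂ v ((T ^ k) v)).re) q = (inner ℂ v (aeval T q v)).re := by
    clear hq
    induction q using Polynomial.induction_on' with
    | add p q hp hq => rw [map_add, map_add, hp, hq, add_apply, inner_add_right, Complex.add_re]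
    | monomial n a =>
      rw [mu_monomial, aeval_monomial, ← Algebra.smul_def, smul_apply,
        ← Complex.coe_smul, inner_smul_right]
      simp
  have h1 : ‖aeval T q - logAdd T ε‖ ≤ η := by
    rw [← cfc_polynomial q T hT.isSelfAdjoint, logAdd,
      ← cfc_sub _ _ _ q.continuous.continuousOn ((cont_log hε c).mono (spec_sub hT hc))]
    exact norm_cfc_le hη fun x hx => (hq x (spec_sub hT hc hx)).le
  rw [e, ← Complex.sub_re, ← inner_sub_right, ← sub_apply]
  refine (Complex.abs_re_le_norm _).trans ((norm_inner_le_norm _ _).trans ?_)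
  simpa [hv] using ((aeval T q - logAdd T ε).le_opNorm v).trans (by rwa [hv, mul_one])

lemma logAdd_mono {T : H →L[ℂ] H} (hT : T.IsPositive) {ε ε' : ℝ} (hε : 0 < ε) (h : ε ≤ ε') (v : H) :
    (inner ℂ v (logAdd T ε v)).re ≤ (inner ℂ v (logAdd T ε' v)).re := by
  have s := spec_sub hT le_rfl
  have : logAdd T ε ≤ logAdd T ε' := cfc_mono (fun x hx =>
    Real.log_le_log (add_pos_of_nonneg_of_pos (s hx).1 hε) (by linarith))
    ((cont_log hε _).mono s) ((cont_log (hε.trans_le h) _).mono s)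
  have := ((ContinuousLinearMap.le_def _ _).1 this).re_inner_nonneg_right v
  simpa [inner_sub_right] using this

lemma ergodic {T : H →L[ℂ] H} (hT : T.IsPositive) (hi : Function.Injective T) {c : ℝ} (hc : ‖T‖ ≤ c)
    (c0 : 0 < c) (v : H) : Tendsto (fun n : ℕ => (n : ℂ)⁻¹ • ∑ k ∈ Finset.range n,
      ((1 - (c : ℂ)⁻¹ • T) ^ k) v) atTop (𝓝 0) := by
  have p : (0 : H →L[ℂ] H) ≤ (c : ℂ)⁻¹ • T := (ContinuousLinearMap.nonneg_iff_isPositive _).2
    (hT.smul_of_nonneg (by rw [← Complex.ofReal_inv]; exact Complex.zero_le_real.2 (by positivity)))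
  have p1 : (c : ℂ)⁻¹ • T ≤ 1 := (CStarAlgebra.norm_le_one_iff_of_nonneg _ p).1 (by
    rw [norm_smul, norm_inv, Complex.norm_real, Real.norm_of_nonneg c0.le]
    exact inv_mul_le_one_of_le₀ hc c0.le)
  have := ContinuousLinearMap.tendsto_birkhoffAverage_orthogonalProjection (1 - (c : ℂ)⁻¹ • T)
    ((CStarAlgebra.norm_le_one_iff_of_nonneg _ (sub_nonneg.2 p1)).2 (sub_le_self _ p)) v
  have e : ∀ w : (1 - (c : ℂ)⁻¹ • T).eqLocus (1 : H →L[ℂ] H), (w : H) = 0 := fun w => by
    have h : (1 - (c : ℂ)⁻¹ • T) w = (1 : H →L[ℂ] H) w := w.2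
    refine hi ?_
    simpa [c0.ne'] using h
  rw [e] at this
  simpa [birkhoffAverage, birkhoffSum] using this

open Classical in
lemma inner_delta {X : Type} (x : X) (f : L2 X) : inner ℂ (delta x) f = f x := by
  simp [delta, lp.inner_single_left]

lemma norm_delta {X : Type} (x : X) : ‖delta x‖ = 1 := by
  simp [delta, lp.norm_single]

open Classical in
lemma delta_apply {X : Type} (x y : X) : delta x y = if y = x then 1 else 0 := by
  simp [delta, lp.single_apply, Pi.single_apply]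

open Classical in
lemma ext_delta {X E : Type} [NormedAddCommGroup E] [NormedSpace ℂ E] {f g : L2 X →L[ℂ] E}
    (h : ∀ x, f (delta x) = g (delta x)) : f = g :=
  lp.ext_continuousLinearMap (by simp) fun i => ContinuousLinearMap.ext_ring (h i)

theorem schur {Y : Type} (κ : Y → Y → ℂ) (c : ℝ) (hc : 0 ≤ c)
    (hr : ∀ y (s : Finset Y), ∑ z ∈ s, ‖κ y z‖ ≤ c)
    (hl : ∀ z (s : Finset Y), ∑ y ∈ s, ‖κ y z‖ ≤ c) :
    ∃ E : L2 Y →L[ℂ] L2 Y, ∀ y z, E (delta z) y = κ y z := by
  have h2 : (2 : ENNReal).toReal = 2 := by simp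
  have hb : ∀ (f : L2 Y) z, ‖f z‖ ≤ ‖f‖ := fun f z => lp.norm_apply_le_norm (by simp) f z
  have s0 : ∀ y, Summable fun z => ‖κ y z‖ := fun y =>
    summable_of_sum_le (fun _ => norm_nonneg _) (hr y)
  have s1 : ∀ (f : L2 Y) y, Summable fun z => ‖κ y z * f z‖ := fun f y =>
    .of_nonneg_of_le (fun _ => norm_nonneg _) (fun z => by
      rw [norm_mul]; exact mul_le_mul_of_nonneg_left (hb f z) (norm_nonneg _))
      ((s0 y).mul_right ‖f‖)
  have s2 : ∀ (f : L2 Y) y, Summable fun z => ‖κ y z‖ * ‖f z‖ ^ 2 := fun f y =>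
    .of_nonneg_of_le (fun _ => by positivity) (fun z => by gcongr; exact hb f z)
      ((s0 y).mul_right (‖f‖ ^ 2))
  have s3 : ∀ f : L2 Y, HasSum (fun z => ‖f z‖ ^ 2) (‖f‖ ^ 2) := fun f => by
    simpa [h2] using lp.hasSum_norm (by simp) f
  have k1 : ∀ (f : L2 Y) y, ‖∑' z, κ y z * f z‖ ^ 2 ≤ c * ∑' z, ‖κ y z‖ * ‖f z‖ ^ 2 := by
    intro f y
    have t0 : 0 ≤ ∑' z, ‖κ y z‖ * ‖f z‖ ^ 2 := tsum_nonneg fun _ => by positivity
    rw [← Real.le_sqrt (norm_nonneg _) (mul_nonneg hc t0)]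
    refine (norm_tsum_le_tsum_norm (s1 f y)).trans ((s1 f y).tsum_le_of_sum_le fun s => ?_)
    apply Real.le_sqrt_of_sq_le
    refine (Finset.sum_sq_le_sum_mul_sum_of_sq_le_mul s (f := fun z => ‖κ y z‖)
      (g := fun z => ‖κ y z‖ * ‖f z‖ ^ 2) (fun _ _ => norm_nonneg _) (fun _ _ => by positivity)
      fun z _ => by rw [norm_mul]; exact le_of_eq (by ring)).trans ?_
    exact mul_le_mul (hr y s) ((s2 f y).sum_le_tsum s fun _ _ => by positivity)
      (Finset.sum_nonneg fun _ _ => by positivity) hc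
  have k2 : ∀ (f : L2 Y) (s : Finset Y),
      ∑ y ∈ s, ‖∑' z, κ y z * f z‖ ^ (2 : ENNReal).toReal ≤ (c * ‖f‖) ^ (2 : ENNReal).toReal := by
    intro f s
    simp only [h2, Real.rpow_two]
    refine (Finset.sum_le_sum fun y _ => k1 f y).trans ?_
    rw [← Finset.mul_sum, ← Summable.tsum_finsetSum fun y _ => s2 f y, mul_pow, sq c, mul_assoc]
    refine mul_le_mul_of_nonneg_left ?_ hc
    rw [← ((s3 f).mul_left c).tsum_eq]
    refine Summable.tsum_le_tsum (fun z => ?_) (summable_sum fun y _ => s2 f y)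
      ((s3 f).mul_left c).summable
    rw [← Finset.sum_mul]
    exact mul_le_mul_of_nonneg_right (hl z s) (by positivity)
  let E : L2 Y →ₗ[ℂ] L2 Y :=
    { toFun := fun f => ⟨fun y => ∑' z, κ y z * f z, memℓp_gen' (k2 f)⟩
      map_add' := fun f g => lp.ext (funext fun y => by
        simp only [lp.coeFn_add, Pi.add_apply, mul_add]
        exact (s1 f y).of_norm.tsum_add (s1 g y).of_norm)
      map_smul' := fun a f => lp.ext (funext fun y => by
        simp only [lp.coeFn_smul, Pi.smul_apply, smul_eq_mul, RingHom.id_apply, mul_left_comm _ a]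
        exact tsum_mul_left) }
  have hE : ∀ f, ‖E f‖ ≤ c * ‖f‖ := fun f =>
    lp.norm_le_of_forall_sum_le (by simp) (by positivity) (k2 f)
  refine ⟨E.mkContinuous c hE, fun y z => ?_⟩
  change ∑' w, κ y w * delta z w = _
  rw [tsum_eq_single z fun w hw => by simp [delta_apply, hw]]
  simp [delta_apply]

end

end Pool.Agent.Lib.MP_b65ff2_gt
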