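import Pool.Agent.Lib.MP_b65ff2_gt.Spec
import Pool.Agent.Lib.MP_b65ff2_gt.Defs

namespace Pool.Agent.Lib.MP_b65ff2_gt

open Matrix Polynomial

set_option linter.unusedSectionVars false

noncomputable section

variable {Ω Ω' : Type} [Fintype Ω] [Fintype Ω']

def rg (M : Matrix Ω Ω' ℚ) : Submodule ℚ (Ω' → ℚ) := LinearMap.range M.vecMulLinear

def kr (M : Matrix Ω Ω' ℚ) : Submodule ℚ (Ω → ℚ) := LinearMap.ker M.vecMulLinear

lemma mem_rg {M : Matrix Ω Ω' ℚ} {x : Ω' → ℚ} : x ∈ rg M ↔ ∃ y, y ᵥ* M = x := Iff.rfl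

lemma mem_kr {M : Matrix Ω Ω' ℚ} {x : Ω → ℚ} : x ∈ kr M ↔ x ᵥ* M = 0 := Iff.rfl

lemma perp_rg (M : Matrix Ω Ω' ℚ) : perp (rg M) = kr Mᵀ := by
  ext x
  constructor
  · intro h
    have := h _ (mem_rg.2 ⟨x ᵥ* Mᵀ, rfl⟩)
    rwa [dotProduct_comm, dot_vecMul, dotProduct_self_eq_zero] at this
  · rintro h _ ⟨y, rfl⟩
    rw [vecMulLinear_apply, dotProduct_comm, dot_vecMul, mem_kr.1 h, dotProduct_zero]

lemma ht_kr (M : Matrix Ω Ω' ℚ) : ht (kr M) = ht (rg Mᵀ) := by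
  rw [← ht_perp (rg Mᵀ), perp_rg, transpose_transpose]

lemma harm {d : Matrix Ω Ω ℚ} {u : Ω → ℚ} (h : u ᵥ* (dᵀ * d + d * dᵀ) = 0) :
    u ᵥ* d = 0 ∧ u ᵥ* dᵀ = 0 := by
  have e := congrArg (· ⬝ᵥ u) h
  have e1 := dot_self_vecMul u dᵀ
  rw [transpose_transpose] at e1
  simp only [vecMul_add, add_dotProduct, dot_self_vecMul, e1, zero_dotProduct] at e
  have p1 := dotProduct_self_nonneg (u ᵥ* d)
  have p2 := dotProduct_self_nonneg (u ᵥ* dᵀ)
  exact ⟨dotProduct_self_eq_zero.1 (by linarith), dotProduct_self_eq_zero.1 (by linarith)⟩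

variable [DecidableEq Ω]

lemma hodge {d E E' : Matrix Ω Ω ℚ} (dd : d * d = 0) (s : Eᵀ = E) (ee : E * E = E)
    (c : d * E = E' * d) :
    perp (rg (d * E)) = rg (dᵀ * E) ⊔ kr (dᵀ * d + d * dᵀ) ⊔ rg (1 - E) := by
  have dt : dᵀ * dᵀ = 0 := by rw [← transpose_mul, dd, transpose_zero]
  have ct : E * dᵀ = dᵀ * E'ᵀ := by rw [← transpose_mul, ← c, transpose_mul, s]
  rw [perp_rg, transpose_mul, s]
  refine le_antisymm (fun x hx => ?_) (sup_le (sup_le ?_ ?_) ?_)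
  · obtain ⟨_, ⟨y, rfl⟩, u, hu, e⟩ := exists_decomp (rg (dᵀ * d + d * dᵀ)) (x ᵥ* E)
    rw [perp_rg, transpose_add, transpose_mul, transpose_mul, transpose_transpose] at hu
    rw [vecMulLinear_apply] at e
    have e1 := congrArg (· ᵥ* dᵀ) e
    simp only [vecMul_vecMul, mem_kr.1 hx, add_vecMul, (harm hu).2, add_zero, Matrix.add_mul,
      Matrix.mul_assoc, dt, Matrix.mul_zero] at e1
    have e2 : y ᵥ* (dᵀ * d) = 0 := by
      have := dot_vecMul (y ᵥ* (dᵀ * d)) (y ᵥ* dᵀ) dᵀ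
      rw [vecMul_vecMul, Matrix.mul_assoc, ← e1, zero_dotProduct, transpose_transpose,
        vecMul_vecMul] at this
      exact dotProduct_self_eq_zero.1 this.symm
    rw [vecMul_add, e2, zero_add] at e
    have e3 := congrArg (· ᵥ* E) e
    simp only [vecMul_vecMul, ee, add_vecMul] at e3
    have e4 : x = (y ᵥ* d) ᵥ* (dᵀ * E) + u + (x - u) ᵥ* (1 - E) := by
      rw [vecMul_sub, vecMul_one, sub_vecMul, e3, vecMul_vecMul, Matrix.mul_assoc]
      abel
    rw [e4]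
    exact Submodule.add_mem_sup (Submodule.add_mem_sup ⟨_, rfl⟩ hu) ⟨_, rfl⟩
  · rintro _ ⟨y, rfl⟩
    rw [mem_kr, vecMulLinear_apply, vecMul_vecMul, Matrix.mul_assoc, ← Matrix.mul_assoc E, ee, ct,
      ← Matrix.mul_assoc, dt, Matrix.zero_mul, vecMul_zero]
  · intro u hu
    rw [mem_kr, ct, ← vecMul_vecMul, (harm hu).2, zero_vecMul]
  · rintro _ ⟨y, rfl⟩
    rw [mem_kr, vecMulLinear_apply, vecMul_vecMul, ← Matrix.mul_assoc, Matrix.sub_mul, ee,
      Matrix.one_mul, sub_self, Matrix.zero_mul, vecMul_zero]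

lemma ht_rg_proj {P : Matrix Ω Ω ℚ} (s : Pᵀ = P) (pp : P * P = P)
    (hi : ∀ i j, ∃ z : ℤ, P i j = z) : ht (rg P) = 0 := by
  have := ht_map P.vecMulLinear (fun x hx => lam_vecMul hx hi) le_rfl
    (fun x => by simpa using proj_norm s pp x) ⊤
  rw [ht_top, Submodule.map_top] at this
  have h1 := ht_nonneg (⊤ ⊓ LinearMap.ker P.vecMulLinear)
  refine le_antisymm ?_ (ht_nonneg _)
  simp only [Rat.cast_one, Real.log_one, mul_zero, add_zero] at this
  exact le_trans (le_add_of_nonneg_right h1) this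

lemma hodge_le {d E E' : Matrix Ω Ω ℚ} (dd : d * d = 0) (s : Eᵀ = E) (ee : E * E = E)
    (c : d * E = E' * d) (hi : ∀ i j, ∃ z : ℤ, E i j = z) :
    ht (rg (d * E)) ≤ ht (rg (dᵀ * E)) + ht (kr (dᵀ * d + d * dᵀ)) := by
  rw [← ht_perp, hodge dd s ee c]
  refine (ht_sup _ _).trans ?_
  rw [ht_rg_proj (by simp [s]) (by simp [Matrix.mul_sub, Matrix.sub_mul, ee]) fun i j => by
    obtain ⟨z, hz⟩ := hi i j
    exact ⟨(if i = j then 1 else 0) - z, by simp [one_apply, hz]⟩, add_zero]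
  exact ht_sup _ _

lemma sum_eq_zero_of_moments {X : Type} (s : Finset X) (c lam : X → ℝ)
    (h : ∀ k : ℕ, ∑ x ∈ s, c x * lam x ^ (k + 1) = 0) (f : ℝ → ℝ) (h0 : f 0 = 0) :
    ∑ x ∈ s, c x * f (lam x) = 0 := by
  classical
  let p := Lagrange.interpolate (insert 0 (s.image lam)) id f
  have hp : ∀ t ∈ insert 0 (s.image lam), p.eval t = f t := fun t ht =>
    Lagrange.eval_interpolate_at_node f (Set.injOn_id _) ht
  have p0 : p.coeff 0 = 0 := by rw [coeff_zero_eq_eval_zero, hp 0 (by simp), h0]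
  calc _ = ∑ x ∈ s, c x * p.eval (lam x) :=
        Finset.sum_congr rfl fun x hx => by
          rw [hp _ (Finset.mem_insert_of_mem (Finset.mem_image_of_mem _ hx))]
    _ = ∑ k ∈ Finset.range (p.natDegree + 1), p.coeff k * ∑ x ∈ s, c x * lam x ^ k := by
        simp only [eval_eq_sum_range, Finset.mul_sum]
        rw [Finset.sum_comm]
        simp only [mul_left_comm]
    _ = 0 := by simp [Finset.sum_range_succ', h, p0]

section
variable {I R : Type} [Fintype I] [DecidableEq I] [Ring R]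

def pj (R : Type) [Ring R] (deg : I → ℕ) (n : ℕ) : Matrix I I R :=
  diagonal fun i => if deg i = n then 1 else 0

def sg (R : Type) [Ring R] (deg : I → ℕ) : Matrix I I R := diagonal fun i => (-1) ^ deg i

lemma pj_pj (deg : I → ℕ) (n : ℕ) : pj R deg n * pj R deg n = pj R deg n := by
  rw [pj, diagonal_mul_diagonal]
  congr 1
  funext i
  split_ifs <;> simp

lemma IsCx.mul_pj {deg : I → ℕ} {d : Matrix I I R} (h : IsCx deg d) (n : ℕ) :
    d * pj R deg n = pj R deg (n + 1) * d := by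
  ext i j
  rw [pj, pj, mul_diagonal, diagonal_mul]
  by_cases e : d i j = 0
  · simp [e]
  · simp [h.1 i j e]

lemma IsCx.pj_zero {deg : I → ℕ} {d : Matrix I I R} (h : IsCx deg d) : pj R deg 0 * d = 0 := by
  ext i j
  rw [pj, diagonal_mul]
  by_cases e : d i j = 0
  · simp [e]
  · simp [h.1 i j e]

lemma pj_top {deg : I → ℕ} {m : ℕ} (h : ∀ i, deg i ≤ m) : pj R deg (m + 1) = 0 := by
  ext i j
  have := h i
  simp [pj, diagonal_apply, show deg i ≠ m + 1 by omega]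

end

lemma pj_symm (deg : Ω → ℕ) (n : ℕ) : (pj ℚ deg n)ᵀ = pj ℚ deg n := diagonal_transpose _

lemma pj_int (deg : Ω → ℕ) (n : ℕ) (i j : Ω) : ∃ z : ℤ, pj ℚ deg n i j = z :=
  ⟨if i = j ∧ deg i = n then 1 else 0, by simp [pj, diagonal_apply, ite_and]⟩

lemma ht_rg_zero : ht (rg (0 : Matrix Ω Ω ℚ)) = 0 := ht_rg_proj (by simp) (by simp) fun _ _ => ⟨0, by simp⟩

theorem alt_bound {deg : Ω → ℕ} {D : Matrix Ω Ω ℚ} (h : IsCx deg D) {m : ℕ} (hm : ∀ i, deg i ≤ m)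
    (hs : ∀ k : ℕ, (sg ℚ deg * (D * Dᵀ) ^ (k + 1)).trace = 0) :
    |∑ n ∈ Finset.range (m + 1), (-1 : ℝ) ^ n *
      (Real.log (cov (mp (pj ℚ deg (n + 1) * D).vecMulLinear (Lam Ω))) -
        ht (rg (pj ℚ deg (n + 1) * D)))| ≤ (m + 1) * ht (kr (Dᵀ * D + D * Dᵀ)) := by
  choose lam _ l1 l2 _ using fun n => spec (pj ℚ deg (n + 1) * D)
  have t : ∀ n, Dᵀ * pj ℚ deg (n + 1) = pj ℚ deg n * Dᵀ := fun n => by
    rw [← pj_symm, ← transpose_mul, ← h.mul_pj, transpose_mul, pj_symm]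
  have t0 : Dᵀ * pj ℚ deg 0 = 0 := by rw [← pj_symm, ← transpose_mul, h.pj_zero, transpose_zero]
  have e1 : ∀ n k, ((pj ℚ deg (n + 1) * D) * (pj ℚ deg (n + 1) * D)ᵀ) ^ (k + 1) =
      pj ℚ deg (n + 1) * (D * Dᵀ) ^ (k + 1) := fun n k => by
    have c : Commute (pj ℚ deg (n + 1)) (D * Dᵀ) := by
      rw [Commute, SemiconjBy, ← Matrix.mul_assoc, ← h.mul_pj, Matrix.mul_assoc, ← t,
        Matrix.mul_assoc]
    rw [transpose_mul, pj_symm, Matrix.mul_assoc, ← Matrix.mul_assoc D, ← c.eq,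
      ← Matrix.mul_assoc, pj_pj, c.mul_pow, IsIdempotentElem.pow_succ_eq (a := pj ℚ deg (n + 1)) _ (pj_pj deg _)]
  have e2 : ∑ n ∈ Finset.range (m + 1), (-1 : ℚ) ^ n • pj ℚ deg (n + 1) =
      pj ℚ deg 0 - sg ℚ deg := by
    ext i j
    by_cases e : i = j
    · subst e
      have := hm i
      simp only [pj, sg, Matrix.sum_apply, Matrix.smul_apply, diagonal_apply_eq, Matrix.sub_apply,
        smul_eq_mul, mul_ite, mul_one, mul_zero]
      generalize deg i = a at this ⊢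
      cases a with
      | zero => simp
      | succ a => simp [show a < m + 1 by omega, pow_succ]
    · simp [pj, sg, Matrix.sum_apply, e]
  have e3 := sum_eq_zero_of_moments (Finset.range (m + 1) ×ˢ Finset.univ)
    (fun x => (-1) ^ x.1) (fun x => lam x.1 x.2) (fun k => by
      have := congrArg (fun M => ((trace (M * (D * Dᵀ) ^ (k + 1)) : ℚ) : ℝ)) e2
      simp only [Matrix.sum_mul, Matrix.sub_mul, trace_sum, trace_sub, hs, Matrix.smul_mul,
        trace_smul, ← e1, smul_eq_mul] at this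
      rw [pow_succ' (D * Dᵀ), ← Matrix.mul_assoc, ← Matrix.mul_assoc, h.pj_zero] at this
      push_cast at this
      simp only [l1] at this
      simpa [Finset.sum_product, Finset.mul_sum] using this) Real.log Real.log_zero
  simp only [Finset.sum_product, ← Finset.mul_sum, l2] at e3
  have e4 : ∑ n ∈ Finset.range (m + 1), (-1 : ℝ) ^ n * ht (rg (Dᵀ * pj ℚ deg (n + 1))) =
      -∑ n ∈ Finset.range (m + 1), (-1 : ℝ) ^ n * ht (rg (Dᵀ * pj ℚ deg n)) := by
    rw [Finset.sum_range_succ, Finset.sum_range_succ', pj_top hm, t0, Matrix.mul_zero, ht_rg_zero]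
    simp [pow_succ]
  have e5 : ∑ n ∈ Finset.range (m + 1), (-1 : ℝ) ^ n *
      (Real.log (cov (mp (pj ℚ deg (n + 1) * D).vecMulLinear (Lam Ω))) -
        ht (rg (pj ℚ deg (n + 1) * D))) = ∑ n ∈ Finset.range (m + 1), (-1 : ℝ) ^ n *
      (ht (rg (Dᵀ * pj ℚ deg n)) - ht (rg (D * pj ℚ deg n))) := by
    have : ∀ n, ht (LinearMap.ker (pj ℚ deg (n + 1) * D).vecMulLinear) =
      ht (rg (Dᵀ * pj ℚ deg (n + 1))) := fun n => by
        rw [← kr, ht_kr, transpose_mul, pj_symm]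
    simp only [this, mul_add, Finset.sum_add_distrib, e4] at e3
    simp only [mul_sub, Finset.sum_sub_distrib, h.mul_pj]
    linarith
  rw [e5]
  refine (Finset.abs_sum_le_sum_abs _ _).trans
    ((Finset.sum_le_card_nsmul _ _ (ht (kr (Dᵀ * D + D * Dᵀ))) fun n _ => ?_).trans (by simp))
  rw [abs_mul, abs_pow, abs_neg, abs_one, one_pow, one_mul, abs_sub_le_iff]
  have a1 := hodge_le h.2 (pj_symm deg n) (pj_pj deg n) (h.mul_pj n) (pj_int deg n)
  have a2 : ∃ E', Dᵀ * pj ℚ deg n = E' * Dᵀ := by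
    cases n with
    | zero => exact ⟨0, by rw [t0, Matrix.zero_mul]⟩
    | succ n => exact ⟨_, t n⟩
  obtain ⟨E', a2⟩ := a2
  have a3 := hodge_le (by rw [← transpose_mul, h.2, transpose_zero]) (pj_symm deg n) (pj_pj deg n)
    a2 (pj_int deg n)
  rw [transpose_transpose, add_comm (D * Dᵀ)] at a3
  constructor <;> linarith

end

end Pool.Agent.Lib.MP_b65ff2_gt
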