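import Pool.Agent.Lib.MP_b65ff2_gt.Gram

namespace Pool.Agent.Lib.MP_b65ff2_gt

open Matrix

set_option linter.unusedSectionVars false

noncomputable section

variable {Ω Ω' ι ι' : Type} [Fintype Ω] [Fintype Ω'] [Fintype ι] [Fintype ι']

lemma dotProduct_self_nonneg (x : Ω → ℚ) : 0 ≤ x ⬝ᵥ x :=
  Finset.sum_nonneg fun _ _ => mul_self_nonneg _

lemma psd_cast {M : Matrix ι ι ℚ} (hs : Mᵀ = M) (h : ∀ c, 0 ≤ (c ᵥ* M) ⬝ᵥ c) :
    (M.map (Rat.castHom ℝ)).PosSemidef := by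
  refine PosSemidef.of_dotProduct_mulVec_nonneg ?_ fun x => ?_
  · rw [IsHermitian, conjTranspose_eq_transpose_of_trivial, ← transpose_map, hs]
  · have d : DenseRange (Pi.map fun (_ : ι) (q : ℚ) => (q : ℝ)) :=
      DenseRange.piMap fun _ => Rat.denseRange_cast
    refine d.induction_on x (isClosed_le continuous_const (by fun_prop)) fun c => ?_
    have := h c
    rw [← dotProduct_mulVec] at this
    have e : ((c ⬝ᵥ M *ᵥ c : ℚ) : ℝ) = star (Pi.map (fun (_ : ι) (q : ℚ) => (q : ℝ)) c) ⬝ᵥ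
        M.map (Rat.castHom ℝ) *ᵥ Pi.map (fun (_ : ι) (q : ℚ) => (q : ℝ)) c := by
      simp [dotProduct, mulVec]
    rw [← e]
    exact_mod_cast this

lemma gram_le [DecidableEq ι] {T : Matrix ι Ω ℚ} {R : Matrix ι Ω' ℚ} (hT : Ind T) {k : ℚ}
    (hk : 0 < k) (h : ∀ c, (c ᵥ* R) ⬝ᵥ (c ᵥ* R) ≤ k * ((c ᵥ* T) ⬝ᵥ (c ᵥ* T))) :
    gram R ≤ k ^ Fintype.card ι * gram T := by
  have e : ((k • (T * Tᵀ)).map (Rat.castHom ℝ)).det = (k ^ Fintype.card ι * gram T : ℚ) := by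
    rw [← RingHom.mapMatrix_apply, ← RingHom.map_det, det_smul]; rfl
  have e' : ((R * Rᵀ).map (Rat.castHom ℝ)).det = (gram R : ℚ) := by
    rw [← RingHom.mapMatrix_apply, ← RingHom.map_det]; rfl
  have := det_le_of_le (A := (R * Rᵀ).map (Rat.castHom ℝ)) (B := (k • (T * Tᵀ)).map (Rat.castHom ℝ))
    (psd_cast (by simp) fun c => by rw [dot_self_vecMul]; exact dotProduct_self_nonneg _)
    (psd_cast (by simp) fun c => by
      rw [vecMul_smul, smul_dotProduct, dot_self_vecMul]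
      exact mul_nonneg hk.le (dotProduct_self_nonneg _))
    (by rw [e]; exact_mod_cast (mul_pos (pow_pos hk _) (gram_pos hT)).ne') (by
      rw [← Matrix.map_sub _ (map_sub _)]
      refine psd_cast (by simp) fun c => ?_
      rw [vecMul_sub, sub_dotProduct, vecMul_smul, smul_dotProduct, dot_self_vecMul,
        dot_self_vecMul]
      exact sub_nonneg.2 (h c))
  rw [e, e'] at this
  exact_mod_cast this

def pr [DecidableEq ι] (T : Matrix ι Ω ℚ) : Matrix Ω Ω ℚ := Tᵀ * ((T * Tᵀ)⁻¹ * T)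

section
variable [DecidableEq ι] {T : Matrix ι Ω ℚ}

lemma pr_symm (T : Matrix ι Ω ℚ) : (pr T)ᵀ = pr T := by
  simp [pr, transpose_nonsing_inv, Matrix.mul_assoc]

lemma mul_pr (h : Ind T) : T * pr T = T := by
  rw [pr, ← Matrix.mul_assoc, ← Matrix.mul_assoc, mul_nonsing_inv _ (gram_ne h).isUnit,
    Matrix.one_mul]

lemma pr_mul (h : Ind T) : pr T * Tᵀ = Tᵀ := by
  rw [← pr_symm, ← transpose_mul, mul_pr h]

lemma pr_pr (h : Ind T) : pr T * pr T = pr T := by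
  conv_lhs => rw [pr, Matrix.mul_assoc, Matrix.mul_assoc, ← pr, mul_pr h]
  rfl

lemma trace_pr (h : Ind T) : (pr T).trace = Fintype.card ι := by
  rw [pr, trace_mul_comm, Matrix.mul_assoc, nonsing_inv_mul _ (gram_ne h).isUnit, trace_one]

end

lemma proj_norm {P : Matrix Ω Ω ℚ} (hs : Pᵀ = P) (hp : P * P = P) (x : Ω → ℚ) :
    (x ᵥ* P) ⬝ᵥ (x ᵥ* P) ≤ x ⬝ᵥ x := by
  have e : (x ᵥ* P) ⬝ᵥ (x ᵥ* P) = (x ᵥ* P) ⬝ᵥ x := by
    rw [← dot_self_vecMul, hs, hp]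
  have := dotProduct_self_nonneg (x - x ᵥ* P)
  rw [sub_dotProduct, dotProduct_sub, dotProduct_sub, e, dotProduct_comm x (x ᵥ* P)] at this
  linarith

def mp (f : (Ω → ℚ) →ₗ[ℚ] (Ω' → ℚ)) (L : Submodule ℤ (Ω → ℚ)) : Submodule ℤ (Ω' → ℚ) :=
  L.map (f.restrictScalars ℤ)

def cut (L : Submodule ℤ (Ω → ℚ)) (W : Submodule ℚ (Ω → ℚ)) : Submodule ℤ (Ω → ℚ) :=
  L ⊓ W.restrictScalars ℤ

lemma mem_mp {f : (Ω → ℚ) →ₗ[ℚ] (Ω' → ℚ)} {L : Submodule ℤ (Ω → ℚ)} {y : Ω' → ℚ} :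
    y ∈ mp f L ↔ ∃ x ∈ L, f x = y := Iff.rfl

lemma mem_cut {L : Submodule ℤ (Ω → ℚ)} {W : Submodule ℚ (Ω → ℚ)} {x : Ω → ℚ} :
    x ∈ cut L W ↔ x ∈ L ∧ x ∈ W := Iff.rfl

lemma sp_mp (f : (Ω → ℚ) →ₗ[ℚ] (Ω' → ℚ)) (L : Submodule ℤ (Ω → ℚ)) :
    sp (mp f L) = (sp L).map f := by
  rw [sp, sp, Submodule.map_span]; rfl

lemma map_vecMul (f : (Ω → ℚ) →ₗ[ℚ] (Ω' → ℚ)) {T : Matrix ι Ω ℚ} {R : Matrix ι Ω' ℚ}
    (h : ∀ i, f (T.row i) = R.row i) (c : ι → ℚ) : f (c ᵥ* T) = c ᵥ* R := by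
  rw [vecMul_eq_sum, vecMul_eq_sum, map_sum]
  exact Finset.sum_congr rfl fun i _ => by rw [map_smul]; exact congrArg _ (h i)

lemma IsB.zmem {L : Submodule ℤ (Ω → ℚ)} {T : Matrix ι Ω ℚ} (h : ∀ i, T.row i ∈ L) (z : ι → ℤ) :
    zc z ᵥ* T ∈ L := by
  rw [zc_vecMul]
  exact L.sum_mem fun i _ => L.smul_mem _ (h i)

theorem key {L : Submodule ℤ (Ω → ℚ)} (hL : L.FG) (f : (Ω → ℚ) →ₗ[ℚ] (Ω' → ℚ)) :
    ∃ (r : ℕ) (T : Matrix (Fin r) Ω ℚ) (R : Matrix (Fin r) Ω' ℚ), IsB (mp f L) R ∧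
      (∀ c, f (c ᵥ* T) = c ᵥ* R) ∧ (∀ c, ∀ x ∈ sp (cut L (LinearMap.ker f)), (c ᵥ* T) ⬝ᵥ x = 0) ∧
      cov L = cov (cut L (LinearMap.ker f)) * gram T := by
  obtain ⟨r, R, hR⟩ := exists_isB (L := mp f L) (hL.map _)
  obtain ⟨r0, T0, h0⟩ := exists_isB (L := cut L (LinearMap.ker f)) (hL.of_le inf_le_left)
  choose t ht ht' using fun i => mem_mp.1 (hR.row_mem i)
  let T1 : Matrix (Fin r) Ω ℚ := Matrix.of t
  have f1 : ∀ c, f (c ᵥ* T1) = c ᵥ* R := map_vecMul f ht'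
  have f0 : ∀ c, f (c ᵥ* T0) = 0 := fun c => by
    rw [map_vecMul f (R := 0) fun i => (h0.row_mem i).2, vecMul_zero]
  let X := T1 * T0ᵀ * (T0 * T0ᵀ)⁻¹
  have o : (T1 - X * T0) * T0ᵀ = 0 := by
    have : X * T0 = T1 * pr T0 := by simp [X, pr, Matrix.mul_assoc]
    rw [this, Matrix.sub_mul, Matrix.mul_assoc, pr_mul h0.1, sub_self]
  refine ⟨r, T1 - X * T0, R, hR, fun c => ?_, fun c x hx => ?_, ?_⟩
  · rw [vecMul_sub, map_sub, f1, ← vecMul_vecMul, f0, sub_zero]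
  · obtain ⟨a, rfl⟩ := (h0.mem_sp x).1 hx
    rw [← mulVec_transpose T0, dotProduct_mulVec, vecMul_vecMul, o, vecMul_zero, zero_dotProduct]
  · have hB : IsB L (fromRows T0 T1) := by
      refine ⟨fun c hc => ?_, fun x => ⟨fun hx => ?_, ?_⟩⟩
      · rw [vecMul_fromRows] at hc
        have e1 := congrArg f hc
        rw [map_add, f0, f1, zero_add, map_zero] at e1
        have e2 := hR.1 _ e1
        rw [e2, zero_vecMul, add_zero] at hc
        have e3 := h0.1 _ hc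
        funext i
        cases i with
        | inl i => exact congrFun e3 i
        | inr i => exact congrFun e2 i
      · obtain ⟨z, hz⟩ := (hR.2 _).1 (mem_mp.2 ⟨x, hx, rfl⟩)
        obtain ⟨y, hy⟩ := (h0.2 (x - zc z ᵥ* T1)).1 ⟨L.sub_mem hx (IsB.zmem ht z), by
          change f _ = 0
          rw [map_sub, f1, hz, sub_self]⟩
        refine ⟨Sum.elim y z, ?_⟩
        rw [vecMul_fromRows]
        exact sub_eq_iff_eq_add.1 hy
      · rintro ⟨z, rfl⟩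
        refine IsB.zmem (fun i => ?_) z
        cases i with
        | inl i => exact (h0.row_mem i).1
        | inr i => exact ht i
    have e := fromBlocks_mul_fromRows T0 T1 (1 : Matrix (Fin r0) _ _) 0 (-X) 1
    have g := gram_mul (fromBlocks 1 0 (-X) 1) (fromRows T0 T1)
    rw [Matrix.one_mul, Matrix.zero_mul, add_zero, Matrix.one_mul, Matrix.neg_mul,
      neg_add_eq_sub] at e
    rw [e, det_fromBlocks_zero₁₂, det_one, det_one, gram, transpose_fromRows,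
      fromRows_mul_fromCols, o, det_fromBlocks_zero₂₁] at g
    rw [hB.cov_eq, h0.cov_eq]
    simpa [gram] using g.symm

theorem cov_map_le {L : Submodule ℤ (Ω → ℚ)} (hL : L.FG) (f : (Ω → ℚ) →ₗ[ℚ] (Ω' → ℚ)) {k : ℚ}
    (hk : 1 ≤ k) (h : ∀ x, f x ⬝ᵥ f x ≤ k * (x ⬝ᵥ x)) :
    cov (mp f L) * cov (cut L (LinearMap.ker f)) ≤ k ^ Module.finrank ℚ (sp L) * cov L := by
  obtain ⟨r, T, R, hR, h1, -, h3⟩ := key hL f
  have iT : Ind T := fun c hc => hR.1 c (by rw [← h1, hc, map_zero])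
  have := gram_le (R := R) iT (by linarith : 0 < k) fun c => by rw [← h1]; exact h _
  have r1 : Fintype.card (Fin r) ≤ Module.finrank ℚ (sp L) := by
    rw [← hR.finrank, sp_mp]
    exact Submodule.finrank_map_le _ _
  rw [hR.cov_eq, h3]
  have p := cov_pos (cut L (LinearMap.ker f))
  have := this.trans (mul_le_mul_of_nonneg_right (pow_le_pow_right₀ hk r1) (gram_pos iT).le)
  nlinarith

end

end Pool.Agent.Lib.MP_b65ff2_gt
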