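import Pool.Agent.Lib.MP_b65ff2_gt.NR

namespace Pool.Agent.Lib.MP_b65ff2_gt

open Matrix Filter Topology

set_option linter.unusedSectionVars false

noncomputable section

namespace NAct

variable {S : Type} [Fintype S] [DecidableEq S] {Γ : SimpleGraph S}

/-- Flip of a coordinate. -/
def fl (a : ZMod 2) (y : ℝ) : ℝ := if a = 0 then y else 1 - y

lemma z2 (a : ZMod 2) : a = 0 ∨ a = 1 := by revert a; decide

lemma fl_zero (y : ℝ) : fl 0 y = y := by simp [fl]

lemma fl_one (y : ℝ) : fl 1 y = 1 - y := by simp [fl]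

lemma fl_add (a b : ZMod 2) (y : ℝ) : fl (a + b) y = fl a (fl b y) := by
  have e : (1 + 1 : ZMod 2) = 0 := rfl
  rcases z2 a with rfl | rfl <;> rcases z2 b with rfl | rfl <;>
    simp [e, fl_zero, fl_one]

lemma fl_cont (a : ZMod 2) : Continuous (fl a) := by
  rcases z2 a with rfl | rfl
  · exact continuous_id.congr fun y => (fl_zero y).symm
  · exact (continuous_const.sub continuous_id).congr fun y => (fl_one y).symm

/-- The wall at the vertex `u` of type `s`. -/
def wl (u : RA Γ) (s : S) : RA Γ := u * gn Γ s * u⁻¹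

lemma wl_one (s : S) : wl (1 : RA Γ) s = gn Γ s := by simp [wl]

lemma wl_inj (u : RA Γ) {s t : S} (h : wl u s = wl u t) : s = t := by
  apply gn_inj (Γ := Γ)
  simpa [wl] using h

lemma wl_mul (g u r : RA Γ) (s : S) : r = wl (g * u) s ↔ g⁻¹ * r * g = wl u s := by
  unfold wl
  constructor
  · rintro rfl; group
  · intro h
    have : r = g * (u * gn Γ s * u⁻¹) * g⁻¹ := by rw [← h]; group
    rw [this]; group

lemma wl_self (u : RA Γ) (s : S) : wl (u * gn Γ s) s = wl u s := by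
  unfold wl
  rw [_root_.mul_inv_rev, gn_inv, mul_assoc u, gn_sq, mul_one, mul_assoc]

lemma wl_adj (u : RA Γ) {s t : S} (h : Γ.Adj s t) : wl (u * gn Γ s) t = wl u t := by
  unfold wl
  rw [_root_.mul_inv_rev, gn_inv, mul_assoc u, gn_cm Γ h, ← mul_assoc, ← mul_assoc,
    mul_assoc (u * gn Γ t), gn_sq, mul_one]

open Classical in
/-- The position in the cube, read at a wall. -/
def sm (u : RA Γ) (t : S → ℝ) (r : RA Γ) : ℝ := ∑ s, if r = wl u s then t s else 0

lemma sm_wl (u : RA Γ) (t : S → ℝ) (s : S) : sm u t (wl u s) = t s := by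
  unfold sm
  rw [Finset.sum_eq_single s]
  · simp
  · intro b _ hb
    rw [if_neg fun h => hb (wl_inj u h).symm]
  · simp

lemma sm_cases (u : RA Γ) (t : S → ℝ) (r : RA Γ) :
    sm u t r = 0 ∨ ∃ s, r = wl u s ∧ sm u t r = t s := by
  by_cases h : ∃ s, r = wl u s
  · obtain ⟨s, rfl⟩ := h
    exact .inr ⟨s, rfl, sm_wl u t s⟩
  · left
    unfold sm
    exact Finset.sum_eq_zero fun s _ => if_neg fun e => h ⟨s, e⟩

lemma sm_mem (u : RA Γ) {t : S → ℝ} (ht : ∀ s, t s ∈ Set.Icc (0 : ℝ) 1) (r : RA Γ) :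
    sm u t r ∈ Set.Icc (0 : ℝ) 1 := by
  rcases sm_cases u t r with h | ⟨s, -, h⟩ <;> rw [h]
  · simp
  · exact ht s

lemma sm_mul (g u : RA Γ) (t : S → ℝ) (r : RA Γ) : sm (g * u) t r = sm u t (g⁻¹ * r * g) := by
  unfold sm
  exact Finset.sum_congr rfl fun s _ => by rw [propext (wl_mul g u r s)]

lemma pt_eq (u : RA Γ) {t : S → ℝ} (ht : ∀ s, t s ∈ Set.Icc (0 : ℝ) 1) (r : RA Γ) :
    pt Γ u t r = fl (nn Γ u r) (sm u t r) := by
  have h := sm_mem u ht r
  have e : pt Γ u t r = |(if nn Γ u r = 0 then 0 else 1) - sm u t r| := by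
    unfold pt sm wl
    congr
  rw [e]
  unfold fl
  split_ifs
  · rw [zero_sub, abs_neg, abs_of_nonneg h.1]
  · rw [abs_of_nonneg (sub_nonneg.2 h.2)]

lemma pt_one {t : S → ℝ} (ht : ∀ s, t s ∈ Set.Icc (0 : ℝ) 1) (s : S) :
    pt Γ 1 t (gn Γ s) = t s := by
  rw [pt_eq 1 ht, nn_one, Finsupp.zero_apply, fl_zero, ← wl_one, sm_wl]

lemma pt_cont (u : RA Γ) : Continuous (pt Γ u) := by
  refine continuous_pi fun r => ?_
  unfold pt
  refine (continuous_const.sub (continuous_finsetSum _ fun s _ => ?_)).abs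
  split_ifs
  · exact continuous_apply s
  · exact continuous_const

/-- The action on functions. -/
def act (g : RA Γ) (x : RA Γ → ℝ) : RA Γ → ℝ := fun r => fl (nn Γ g r) (x (g⁻¹ * r * g))

lemma act_pt (g u : RA Γ) {t : S → ℝ} (ht : ∀ s, t s ∈ Set.Icc (0 : ℝ) 1) :
    act g (pt Γ u t) = pt Γ (g * u) t := by
  funext r
  rw [act, pt_eq u ht, pt_eq _ ht, nn_mul, fl_add, sm_mul]

instance mulAct : MulAction (RA Γ) (Dav Γ) where
  smul g x := ⟨act g x.1, by
    obtain ⟨u, t, h1, h2, h3⟩ := x.2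
    exact ⟨g * u, t, h1, h2, by rw [h3, act_pt g u h1]⟩⟩
  one_smul x := Subtype.ext <| funext fun r => by
    change fl (nn Γ 1 r) (x.1 (1⁻¹ * r * 1)) = _
    simp [nn_one, fl_zero]
  mul_smul g h x := Subtype.ext <| funext fun r => by
    change fl (nn Γ (g * h) r) (x.1 ((g * h)⁻¹ * r * (g * h))) =
      fl (nn Γ g r) (fl (nn Γ h (g⁻¹ * r * g)) (x.1 (h⁻¹ * (g⁻¹ * r * g) * h)))
    rw [nn_mul, fl_add, _root_.mul_inv_rev]
    simp only [mul_assoc]

lemma smul_val (g : RA Γ) (x : Dav Γ) : (g • x).1 = act g x.1 := rfl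

instance contAct : ContinuousConstSMul (RA Γ) (Dav Γ) where
  continuous_const_smul g := by
    refine Continuous.subtype_mk (continuous_pi fun r => ?_) _
    exact (fl_cont _).comp ((continuous_apply _).comp continuous_subtype_val)

/-- Admissible positions. -/
def Ok (Γ : SimpleGraph S) (t : S → ℝ) : Prop :=
  (∀ s, t s ∈ Set.Icc (0 : ℝ) 1) ∧ Γ.IsClique {s | t s ≠ 0}

lemma Ok.upd {t : S → ℝ} (h : Ok Γ t) {s : S} (hs : t s ≠ 0) :
    Ok Γ (Function.update t s (1 - t s)) := by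
  refine ⟨fun a => ?_, h.2.subset fun a ha => ?_⟩
  · rcases eq_or_ne a s with rfl | e
    · rw [Function.update_self]
      exact ⟨sub_nonneg.2 (h.1 a).2, sub_le_self _ (h.1 a).1⟩
    · rw [Function.update_of_ne e]; exact h.1 a
  · rcases eq_or_ne a s with rfl | e
    · exact hs
    · simpa [Function.update_of_ne e] using ha

lemma flip (u : RA Γ) {t : S → ℝ} (h : Ok Γ t) {s : S} (hs : t s ≠ 0) :
    pt Γ u t = pt Γ (u * gn Γ s) (Function.update t s (1 - t s)) := by
  funext r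
  have e : sm (u * gn Γ s) (Function.update t s (1 - t s)) r =
      sm u (Function.update t s (1 - t s)) r := by
    unfold sm
    refine Finset.sum_congr rfl fun a _ => ?_
    rcases eq_or_ne a s with rfl | e
    · rw [wl_self]
    · by_cases ha : t a = 0
      · simp [Function.update_of_ne e, ha]
      · rw [wl_adj u (h.2 hs ha e.symm)]
  rw [pt_eq u h.1, pt_eq _ (h.upd hs).1, e, nn_mul_gn, Finsupp.add_apply, fl_add]
  congr 1
  change _ = fl (Finsupp.single (wl u s) 1 r) _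
  rcases eq_or_ne r (wl u s) with rfl | hr
  · rw [Finsupp.single_eq_same, fl_one, sm_wl, sm_wl, Function.update_self]; ring
  · rw [Finsupp.single_eq_of_ne hr, fl_zero]
    unfold sm
    refine Finset.sum_congr rfl fun a _ => ?_
    rcases eq_or_ne a s with rfl | e
    · simp [hr]
    · rw [Function.update_of_ne e]

lemma bottom (n : ℕ) : ∀ (u : RA Γ) (t : S → ℝ), len Γ u = n → Ok Γ t →
    ∃ v t', Ok Γ t' ∧ pt Γ u t = pt Γ v t' ∧ ∀ s, t' s ≠ 0 → ¬Dn Γ v s := by
  induction n using Nat.strong_induction_on with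
  | _ n ih =>
    intro u t hn h
    by_cases hd : ∃ s, t s ≠ 0 ∧ Dn Γ u s
    · obtain ⟨s, hs, hD⟩ := hd
      have := len_down hD
      obtain ⟨v, t', h1, h2, h3⟩ := ih _ (by omega) (u * gn Γ s) _ rfl (h.upd hs)
      exact ⟨v, t', h1, (flip u h hs).trans h2, h3⟩
    · exact ⟨u, t, h, rfl, fun s hs hD => hd ⟨s, hs, hD⟩⟩

lemma lower (n : ℕ) : ∀ (u : RA Γ) (t : S → ℝ), (Finset.univ.filter fun s => t s = 1).card = n →
    Ok Γ t → ∃ v t', Ok Γ t' ∧ pt Γ u t = pt Γ v t' ∧ ∀ s, t' s < 1 := by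
  induction n using Nat.strong_induction_on with
  | _ n ih =>
    intro u t hn h
    by_cases hd : ∃ s, t s = 1
    · obtain ⟨s, hs⟩ := hd
      have hs0 : t s ≠ 0 := by rw [hs]; exact one_ne_zero
      have hlt : (Finset.univ.filter fun a => Function.update t s (1 - t s) a = 1).card < n := by
        rw [← hn]
        refine Finset.card_lt_card ⟨fun a ha => ?_, fun hh => ?_⟩
        · rw [Finset.mem_filter] at ha ⊢
          rcases eq_or_ne a s with rfl | e
          · exact ⟨ha.1, hs⟩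
          · exact ⟨ha.1, by simpa [Function.update_of_ne e] using ha.2⟩
        · have := hh (Finset.mem_filter.2 ⟨Finset.mem_univ s, hs⟩)
          simp [hs] at this
      obtain ⟨v, t', h1, h2, h3⟩ := ih _ hlt (u * gn Γ s) _ rfl (h.upd hs0)
      exact ⟨v, t', h1, (flip u h hs0).trans h2, h3⟩
    · exact ⟨u, t, h, rfl, fun s => lt_of_le_of_ne (h.1 s).2 fun e => hd ⟨s, e⟩⟩

/-- The open star of the vertex `1`. -/
def St (Γ : SimpleGraph S) : Set (Dav Γ) := {x | ∀ s, x.1 (gn Γ s) < 1}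

lemma St_open : IsOpen (St Γ) := by
  have : St Γ = ⋂ s, {x : Dav Γ | x.1 (gn Γ s) < 1} := by ext x; simp [St]
  rw [this]
  refine isOpen_iInter_of_finite fun s => ?_
  have h : Continuous fun x : Dav Γ => x.1 (gn Γ s) :=
    (continuous_apply _).comp continuous_subtype_val
  exact isOpen_lt h continuous_const

lemma star {x : Dav Γ} (hx : x ∈ St Γ) : ∃ t, Ok Γ t ∧ (∀ s, t s < 1) ∧ x.1 = pt Γ 1 t := by
  obtain ⟨u, t, h1, h2, h3⟩ := x.2
  obtain ⟨v, t', g1, g2, g3⟩ := bottom _ u t rfl ⟨h1, h2⟩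
  have hv : v⁻¹ = 1 := eq_one_of_not_Dn fun s hs => by
    have e := (nn_left v s).2 hs
    have h0 : sm v t' (gn Γ s) = 0 := by
      rcases sm_cases v t' (gn Γ s) with h | ⟨a, ha, h⟩
      · exact h
      · rw [h]
        by_contra hne
        exact g3 a hne ((nn_wall v a).1 (by rw [ha] at e; exact e))
    have := hx s
    rw [h3, g2, pt_eq v g1.1, e, fl_one, h0] at this
    simp at this
  rw [inv_eq_one] at hv
  subst hv
  refine ⟨t', g1, fun s => ?_, h3.trans g2⟩
  have := hx s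
  rwa [h3, g2, pt_one g1.1] at this

lemma cover (x : Dav Γ) : ∃ u : RA Γ, u⁻¹ • x ∈ St Γ := by
  obtain ⟨u, t, h1, h2, h3⟩ := x.2
  obtain ⟨v, t', g1, g2, g3⟩ := lower _ u t rfl ⟨h1, h2⟩
  refine ⟨v, fun s => ?_⟩
  rw [smul_val, h3, g2, act_pt _ _ g1.1, inv_mul_cancel, pt_one g1.1]
  exact g3 s

lemma supp_of {y : RA Γ} {x : Dav Γ} (hx : x ∈ St Γ) (hy : y • x ∈ St Γ) (r : RA Γ)
    (hr : nn Γ y r ≠ 0) : ∃ s, r = gn Γ s := by
  obtain ⟨t, h1, h2, h3⟩ := star hx
  obtain ⟨t', g1, -, g3⟩ := star hy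
  rw [smul_val, h3, act_pt _ _ h1.1, mul_one] at g3
  have e := congrFun g3 r
  rw [pt_eq _ h1.1, pt_eq _ g1.1, (z2 _).resolve_left hr, nn_one, Finsupp.zero_apply, fl_zero,
    fl_one] at e
  have hlt : sm y t r < 1 := by
    rcases sm_cases y t r with h | ⟨a, -, h⟩ <;> rw [h]
    · exact one_pos
    · exact h2 a
  rcases sm_cases 1 t' r with h | ⟨a, ha, -⟩
  · rw [h] at e; linarith
  · exact ⟨a, ha.trans (wl_one a)⟩

lemma fin_supp : Set.Finite {y : RA Γ | ∀ r, nn Γ y r ≠ 0 → ∃ s, r = gn Γ s} := by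
  refine Set.Finite.of_finite_image (f := fun y s => nn Γ y (gn Γ s)) (Set.toFinite _) ?_
  intro y hy z hz h
  apply nn_inj
  ext r
  by_cases hr : ∃ s, r = gn Γ s
  · obtain ⟨s, rfl⟩ := hr
    exact congrFun h s
  · rw [not_not.1 fun e => hr (hy r e), not_not.1 fun e => hr (hz r e)]

lemma par_conj (g u : RA Γ) (hg : par Γ g = 0) : par Γ (u⁻¹ * g * u) = 0 := by
  have h1 : par Γ 1 = 0 := by simp [par]
  rw [par_mul, par_mul, hg, add_zero, ← par_mul, inv_mul_cancel, h1]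

lemma eq_one_of {y : RA Γ} (h : ∀ r, nn Γ y r ≠ 0 → ∃ s, r = gn Γ s) (hp : par Γ y = 0) :
    y = 1 := by
  apply nn_inj
  rw [nn_one]
  ext r
  by_contra hr
  obtain ⟨s, rfl⟩ := h r hr
  have e := congrFun (par_eq_sum y) s
  rw [hp, Finsupp.sum, Finset.sum_apply, Finset.sum_eq_single (gn Γ s)] at e
  · rw [par_gn] at e
    simp only [Pi.zero_apply, Pi.smul_apply, Pi.single_eq_same, smul_eq_mul, mul_one] at e
    exact hr e.symm
  · intro b hb hne
    obtain ⟨a, rfl⟩ := h b (Finsupp.mem_support_iff.1 hb)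
    have : s ≠ a := fun e => hne (by rw [e])
    simp [par_gn, Pi.single_eq_of_ne this]
  · intro hb
    exact absurd (Finsupp.mem_support_iff.2 hr) hb

lemma free (g : RA Γ) (hg : par Γ g = 0) (x : Dav Γ) (h : g • x = x) : g = 1 := by
  obtain ⟨u, hu⟩ := cover x
  have e : (u⁻¹ * g * u) • u⁻¹ • x = u⁻¹ • x := by
    rw [mul_smul, smul_inv_smul, mul_smul, h]
  have := eq_one_of (supp_of hu (e.symm ▸ hu)) (par_conj g u hg)
  have e2 : g = u * (u⁻¹ * g * u) * u⁻¹ := by group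
  rw [e2, this]; simp

lemma fin_cover {K : Set (Dav Γ)} (hK : IsCompact K) :
    ∃ F : Finset (RA Γ), ∀ x ∈ K, ∃ u ∈ F, u⁻¹ • x ∈ St Γ := by
  obtain ⟨F, hF⟩ := hK.elim_finite_subcover (fun u : RA Γ => (u⁻¹ • ·) ⁻¹' St Γ)
    (fun u => St_open.preimage (continuous_const_smul _)) fun x _ => Set.mem_iUnion.2 (cover x)
  exact ⟨F, fun x hx => by simpa using hF hx⟩

lemma proper {K L : Set (Dav Γ)} (hK : IsCompact K) (hL : IsCompact L) :
    Set.Finite {g : RA Γ | ((g • ·) '' K ∩ L).Nonempty} := by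
  obtain ⟨F, hF⟩ := fin_cover hK
  obtain ⟨G, hG⟩ := fin_cover hL
  refine ((F ×ˢ G).finite_toSet.biUnion fun p _ =>
    (fin_supp (Γ := Γ)).image fun y => p.2 * y * p.1⁻¹).subset ?_
  rintro g ⟨_, ⟨x, hx, rfl⟩, hx'⟩
  obtain ⟨u, hu, h1⟩ := hF x hx
  obtain ⟨v, hv, h2⟩ := hG _ hx'
  refine Set.mem_biUnion (x := (u, v)) (Finset.mem_coe.2 (Finset.mk_mem_product hu hv))
    ⟨v⁻¹ * g * u, supp_of h1 ?_, by group⟩
  rwa [mul_smul, smul_inv_smul, mul_smul]

lemma Ok_compact : IsCompact {t : S → ℝ | Ok Γ t} := by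
  have h1 : IsCompact (Set.pi Set.univ fun _ : S => Set.Icc (0 : ℝ) 1) :=
    isCompact_univ_pi fun _ => isCompact_Icc
  have h2 : IsClosed {t : S → ℝ | ∀ a b, a ≠ b → ¬Γ.Adj a b → t a * t b = 0} := by
    simp only [Set.ofPred_forall]
    exact isClosed_iInter fun a => isClosed_iInter fun b => isClosed_iInter fun _ =>
      isClosed_iInter fun _ =>
        isClosed_eq ((continuous_apply a).mul (continuous_apply b)) continuous_const
  convert h1.inter_right h2 using 1
  ext t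
  refine ⟨fun h => ⟨fun s _ => h.1 s, fun a b hab hn => ?_⟩,
    fun h => ⟨fun s => h.1 s trivial, fun a ha b hb hab => ?_⟩⟩
  · by_contra hne
    exact hn (h.2 (left_ne_zero_of_mul hne) (right_ne_zero_of_mul hne) hab)
  · by_contra hn
    exact mul_ne_zero ha hb (h.2 a b hab hn)

lemma cocompact : CompactSpace (MulAction.orbitRel.Quotient (GG Γ) (Dav Γ)) := by
  have : CompactSpace {t : S → ℝ // Ok Γ t} := isCompact_iff_compactSpace.1 Ok_compact
  let f : (S → ZMod 2) → {t : S → ℝ // Ok Γ t} → MulAction.orbitRel.Quotient (GG Γ) (Dav Γ) :=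
    fun p t => Quotient.mk _ ⟨pt Γ (sec Γ p) t.1, _, _, t.2.1, t.2.2, rfl⟩
  have hf : ∀ p, Continuous (f p) := fun p =>
    continuous_quotient_mk'.comp (((pt_cont _).comp continuous_subtype_val).subtype_mk _)
  refine ⟨?_⟩
  convert isCompact_iUnion fun p => isCompact_range (hf p)
  symm
  rw [Set.eq_univ_iff_forall]
  rintro ⟨x⟩
  obtain ⟨u, t, h1, h2, h3⟩ := x.2
  refine Set.mem_iUnion.2 ⟨par Γ u, ⟨t, h1, h2⟩, Quotient.sound ?_⟩
  have hg : sec Γ (par Γ u) * u⁻¹ ∈ GG Γ := by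
    have h1 : par Γ 1 = 0 := by simp [par]
    rw [mem_GG, par_mul, par_sec, ← par_mul, mul_inv_cancel, h1]
  refine ⟨⟨_, hg⟩, Subtype.ext ?_⟩
  change act (sec Γ (par Γ u) * u⁻¹) x.1 = pt Γ (sec Γ (par Γ u)) t
  rw [h3, act_pt _ _ h1, inv_mul_cancel_right]

lemma shr_ok (τ : Cone Γ) : Ok Γ fun s => τ.1 s / (1 + τ.1 s) := by
  refine ⟨fun s => ?_, τ.2.2.subset fun s hs => (div_ne_zero_iff.1 hs).1⟩
  have := τ.2.1 s
  exact ⟨by positivity, (div_le_one (by positivity)).2 (by linarith)⟩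

/-- The star is the cone over the flag complex. -/
def homeo (Γ : SimpleGraph S) : St Γ ≃ₜ Cone Γ where
  toFun x := ⟨fun s => x.1.1 (gn Γ s) / (1 - x.1.1 (gn Γ s)), by
    obtain ⟨t, h1, h2, h3⟩ := star x.2
    simp only [h3, pt_one h1.1]
    exact ⟨fun s => div_nonneg (h1.1 s).1 (sub_pos.2 (h2 s)).le,
      h1.2.subset fun s hs => (div_ne_zero_iff.1 hs).1⟩⟩
  invFun τ := ⟨⟨pt Γ 1 fun s => τ.1 s / (1 + τ.1 s), _, _, (shr_ok τ).1, (shr_ok τ).2, rfl⟩,
    fun s => by
      have := τ.2.1 s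
      change pt Γ 1 _ _ < 1
      rw [pt_one (shr_ok τ).1]
      exact (div_lt_one (by positivity)).2 (by linarith)⟩
  left_inv x := by
    obtain ⟨t, h1, h2, h3⟩ := star x.2
    refine Subtype.ext (Subtype.ext ?_)
    simp only [h3, pt_one h1.1]
    congr 1
    funext s
    have := (sub_pos.2 (h2 s)).ne'
    field_simp
    ring
  right_inv τ := by
    refine Subtype.ext (funext fun s => ?_)
    have := τ.2.1 s
    change pt Γ 1 _ _ / (1 - pt Γ 1 _ _) = _
    rw [pt_one (shr_ok τ).1]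
    field_simp
    ring
  continuous_toFun := by
    refine Continuous.subtype_mk (continuous_pi fun s => ?_) _
    have h : Continuous fun x : St Γ => x.1.1 (gn Γ s) :=
      (continuous_apply _).comp (continuous_subtype_val.comp continuous_subtype_val)
    exact h.div (continuous_const.sub h) fun x => (sub_pos.2 (x.2 s)).ne'
  continuous_invFun := by
    refine Continuous.subtype_mk (Continuous.subtype_mk
      ((pt_cont 1).comp (continuous_pi fun s => ?_)) _) _
    have h : Continuous fun τ : Cone Γ => τ.1 s :=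
      (continuous_apply _).comp continuous_subtype_val
    exact h.div (continuous_const.add h) fun τ => by have := τ.2.1 s; positivity

lemma charts {E : Type} [TopologicalSpace E] (h : Cone Γ ≃ₜ E) :
    Nonempty (ChartedSpace E (Dav Γ)) := by
  have : Nonempty E := ⟨h ⟨0, fun _ => le_rfl, by simp⟩⟩
  let j : RA Γ → E → Dav Γ := fun u e => u • ((homeo Γ).symm (h.symm e)).1
  have hj : ∀ u, IsOpenEmbedding (j u) := fun u =>
    (Homeomorph.smul u).isOpenEmbedding.comp (St_open.isOpenEmbedding_subtypeVal.comp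
      ((homeo Γ).symm.isOpenEmbedding.comp h.symm.isOpenEmbedding))
  choose c hc using cover (Γ := Γ)
  refine ⟨⟨Set.range fun u => ((hj u).toOpenPartialHomeomorph (j u)).symm,
    fun x => ((hj (c x)).toOpenPartialHomeomorph (j (c x))).symm, fun x => ?_,
    fun x => ⟨c x, rfl⟩⟩⟩
  rw [OpenPartialHomeomorph.symm_source, IsOpenEmbedding.toOpenPartialHomeomorph_target]
  exact ⟨h (homeo Γ ⟨_, hc x⟩), by simp [j]⟩

end NAct

theorem dav_action {S E : Type} [Fintype S] [DecidableEq S] (Γ : SimpleGraph S)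
    [TopologicalSpace E] (h : Nonempty (Cone Γ ≃ₜ E)) :
    ∃ (_ : ChartedSpace E (Dav Γ)) (_ : MulAction (GG Γ) (Dav Γ))
      (_ : ContinuousConstSMul (GG Γ) (Dav Γ)) (_ : ProperlyDiscontinuousSMul (GG Γ) (Dav Γ)),
      (∀ (g : GG Γ) (x : Dav Γ), g • x = x → g = 1) ∧
        CompactSpace (MulAction.orbitRel.Quotient (GG Γ) (Dav Γ)) := by
  obtain ⟨h⟩ := h
  obtain ⟨c⟩ := NAct.charts h
  refine ⟨c, inferInstance, ⟨fun g => continuous_const_smul g.1⟩, ⟨fun hK hL => ?_⟩,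
    fun g x hx => Subtype.ext (NAct.free g.1 g.2 x hx), NAct.cocompact⟩
  exact (NAct.proper hK hL).preimage (f := Subtype.val) Subtype.val_injective.injOn

end

end Pool.Agent.Lib.MP_b65ff2_gt
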