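import Pool.Agent.Lib.MP_b65ff2_gt.NBase
import Pool.Agent.Lib.MP_b65ff2_gt.Final

namespace Pool.Agent.Lib.MP_b65ff2_gt

open Matrix Filter Topology

set_option linter.unusedSectionVars false

noncomputable section

lemma napx_logdet {m : Type} [Fintype m] [DecidableEq m] {A : Matrix m m ℝ} (hA : A.PosSemidef)
    {ε : ℝ} (hε : 0 < ε) : lam ε A = ∑ i, Real.log (hA.1.eigenvalues i + ε) := by
  have h := congrArg (Polynomial.eval (-ε)) hA.1.charpoly_eq
  rw [eval_charpoly, Polynomial.eval_prod] at h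
  have e : Matrix.scalar m (-ε) - A = -(A + ε • (1 : Matrix m m ℝ)) := by
    ext i j
    by_cases e : i = j
    · subst e; simp; ring
    · simp [e]
  have e2 : ∏ j, Polynomial.eval (-ε) (Polynomial.X - Polynomial.C
      (RCLike.ofReal (hA.1.eigenvalues j) : ℝ)) =
      (-1) ^ Fintype.card m * ∏ j, (hA.1.eigenvalues j + ε) := by
    rw [← Finset.card_univ, ← Finset.prod_const, ← Finset.prod_mul_distrib]
    exact Finset.prod_congr rfl fun j _ => by simp; ring
  rw [e, det_neg, e2] at h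
  rw [lam_eq, mul_left_cancel₀ (pow_ne_zero _ (by norm_num)) h, Real.log_prod]
  exact fun i _ => (add_pos_of_nonneg_of_pos (hA.eigenvalues_nonneg i) hε).ne'

lemma napx_eig {m : Type} [Fintype m] [DecidableEq m] {A : Matrix m m ℝ} (hA : A.IsHermitian)
    {c : ℝ} (h : ∀ i, ∑ j, |A i j| ≤ c) (i : m) : hA.eigenvalues i ≤ c := by
  have h1 := hA.eigenvalues_mem_spectrum_real i
  rw [← Matrix.spectrum_toLin', ← Module.End.hasEigenvalue_iff_mem_spectrum] at h1
  obtain ⟨k, hk⟩ := eigenvalue_mem_ball h1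
  rw [Metric.mem_closedBall, Real.dist_eq] at hk
  have h2 := h k
  rw [← Finset.add_sum_erase _ _ (Finset.mem_univ k)] at h2
  simp only [Real.norm_eq_abs] at hk
  linarith [(abs_le.1 hk).2, le_abs_self (A k k)]

lemma napx_pow {m : Type} [Fintype m] [DecidableEq m] (A : Matrix m m ℝ) (P : m → Prop)
    [DecidablePred P] (h : ∀ x y, P x → ¬P y → A x y = 0) (n : ℕ) :
    sub A P P ^ n = sub (A ^ n) P P := by
  induction n with
  | zero => ext x y; simp [sub, one_apply, Subtype.ext_iff]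
  | succ n ih =>
    rw [pow_succ', pow_succ', ih]
    ext x y
    simp only [sub, submatrix_apply, mul_apply]
    rw [← Fintype.sum_subtype_add_sum_subtype P fun z => A x z * (A ^ n) z y,
      Finset.sum_eq_zero (s := Finset.univ) (f := fun z : {z // ¬P z} => A x z * (A ^ n) z y)
        fun z _ => by rw [h _ _ x.2 z.2, zero_mul], add_zero]

lemma napx_ev {H : Type} [NormedAddCommGroup H] [InnerProductSpace ℂ H] [CompleteSpace H]
    {T : H →L[ℂ] H} (hT : T.IsPositive) {c : ℝ} (hc : ‖T‖ ≤ c) {f g : ℝ → ℝ}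
    (hf : ContinuousOn f (Set.Icc 0 c)) (hg : ContinuousOn g (Set.Icc 0 c)) (a b : ℝ)
    (h : ∀ t ∈ Set.Icc 0 c, f t ≤ a * g t + b) {v : H} (hv : ‖v‖ = 1) :
    (inner ℂ v (cfc f T v)).re ≤ a * (inner ℂ v (cfc g T v)).re + b := by
  have s := spec_sub hT hc
  have h1 : cfc f T ≤ cfc (fun t => a * g t + b) T := cfc_mono (fun x hx => h x (s hx))
    (hf.mono s) (((continuousOn_const.mul hg).add continuousOn_const).mono s)
  rw [cfc_add_const b (fun t => a * g t) T ((continuousOn_const.mul hg).mono s) hT.isSelfAdjoint,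
    cfc_const_mul a g T (hg.mono s)] at h1
  have h2 := ((ContinuousLinearMap.le_def _ _).1 h1).re_inner_nonneg_right v
  have h3 : inner ℂ v v = 1 := by rw [inner_self_eq_norm_sq_to_K, hv]; simp
  rw [Algebra.algebraMap_eq_smul_one] at h2
  simp only [_root_.sub_apply, _root_.add_apply,
    _root_.smul_apply, one_apply_eq_self, inner_sub_right,
    inner_add_right, ← Complex.coe_smul, inner_smul_right, h3] at h2
  simpa using h2

lemma napx_cfc {H : Type} [NormedAddCommGroup H] [InnerProductSpace ℂ H] [CompleteSpace H]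
    {T : H →L[ℂ] H} (hT : T.IsPositive) (a : ℝ) (n : ℕ) :
    cfc (fun t : ℝ => (1 - a * t) ^ n) T = (1 - (a : ℂ) • T) ^ n := by
  have sa := hT.isSelfAdjoint
  rw [cfc_pow _ _ _ (by fun_prop) sa, cfc_sub _ _ _ (by fun_prop) (by fun_prop),
    cfc_const_one ℝ _ sa, cfc_const_mul_id _ _ sa, Complex.coe_smul]

variable {G I : Type} [Group G] [Fintype I] [DecidableEq I] {deg : I → ℕ}

/-- The finite model of a matrix over the group ring. -/
def napxPsi {Q Ω : Type} [Group Q] [Fintype Q] [DecidableEq Q] [Fintype Ω] [DecidableEq Ω]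
    (π : G →* Q) (e : Q × I ≃ Ω) : Matrix I I (QG G) →+* Matrix Ω Ω ℝ :=
  (reindexAlgEquiv ℝ ℝ e).toRingEquiv.toRingHom.comp ((Rat.castHom ℝ).mapMatrix.comp
    ((repA Q I).toRingHom.comp (mq π).mapMatrix.toRingHom))

lemma napxPsi_apply {Q Ω : Type} [Group Q] [Fintype Q] [DecidableEq Q] [Fintype Ω] [DecidableEq Ω]
    (π : G →* Q) (e : Q × I ≃ Ω) (M : Matrix I I (QG G)) (x y : Q × I) :
    napxPsi π e M (e x) (e y) = (rep (M.map (mq π)) x y : ℚ) := by
  change ((rep (M.map (mq π)) (e.symm (e x)) (e.symm (e y)) : ℚ) : ℝ) = _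
  rw [e.symm_apply_apply, e.symm_apply_apply]

theorem apx {d : Matrix I I (MonoidAlgebra ℤ G)} (hd : IsCx deg d) {Q0 Ω : ℕ → Type}
    [∀ k, Group (Q0 k)] [∀ k, Finite (Q0 k)] [∀ k, Finite (Ω k)] (π : ∀ k, G →* Q0 k)
    (sep : ∀ g ≠ 1, ∀ᶠ k in atTop, π k g ≠ 1) (dg : ∀ k, Ω k → ℕ)
    (B : ∀ k, Matrix (Ω k) (Ω k) ℤ) (e : ∀ k, Q0 k × I ≃ Ω k)
    (h1 : ∀ k x, dg k (e k x) = deg x.2)
    (h2 : ∀ k x y, (push (π k) d x.2 y.2).coeff (x.1⁻¹ * y.1) = B k (e k x) (e k y)) (p : ℕ)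
    {ε : ℝ} (hε : 0 < ε) : Tendsto (fun k => lp (dg k) (B k) p ε / Nat.card (Q0 k)) atTop
      (𝓝 (FF deg (Lap (d.map (cq G))) p ε)) := by
  classical
  let _ := fun k => Fintype.ofFinite (Q0 k)
  let _ := fun k => Fintype.ofFinite (Ω k)
  have hd' := hd.map (cq G)
  generalize hD : d.map (cq G) = D at hd' ⊢
  have eB : ∀ k, napxPsi (π k) (e k) D = (B k).map (Int.cast : ℤ → ℝ) := fun k => by
    ext x y
    obtain ⟨x, rfl⟩ := (e k).surjective x
    obtain ⟨y, rfl⟩ := (e k).surjective y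
    rw [napxPsi_apply, ← hD, ← push_cq, rep_apply, map_apply, map_apply, coeff_cq, h2]
    simp
  have eS : ∀ k, napxPsi (π k) (e k) Dᴴ = ((B k).map (Int.cast : ℤ → ℝ))ᵀ := fun k => by
    rw [← eB]
    ext x y
    obtain ⟨x, rfl⟩ := (e k).surjective x
    obtain ⟨y, rfl⟩ := (e k).surjective y
    rw [transpose_apply, napxPsi_apply, napxPsi_apply, map_star', rep_star, transpose_apply]
  have eL : ∀ k, ((B k)ᵀ * B k + B k * (B k)ᵀ).map (Int.cast : ℤ → ℝ) =
      napxPsi (π k) (e k) (Lap D) := fun k => by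
    rw [Lap, map_add, map_mul, map_mul, eB, eS]
    ext x y
    simp [mul_apply]
  have psd : ∀ k, (sub (napxPsi (π k) (e k) (Lap D)) (dg k · = p) (dg k · = p)).PosSemidef :=
    fun k => by
    refine PosSemidef.submatrix ?_ _
    rw [Lap, map_add, map_mul, map_mul, eB, eS]
    exact (psd_real ((B k).map (Int.cast : ℤ → ℝ))ᵀ).add (psd_real _)
  have z : ∀ i j, deg i = p → deg j ≠ p → Lap D i j = 0 := fun i j hi hj => by
    have := congrFun (congrFun (hd'.pj_lap p).eq i) j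
    simpa [pj, diagonal_mul, mul_diagonal, hi, hj] using this
  obtain ⟨c, hc, rc⟩ := exists_rc (Lap D)
  have l1 : ∀ k x, (psd k).1.eigenvalues x ≤ c := fun k => napx_eig _ fun x => by
    obtain ⟨x, hx⟩ := x
    obtain ⟨x, rfl⟩ := (e k).surjective x
    have := (rc _ (π k)).1 x Finset.univ
    refine le_trans ?_ (show ((∑ y, |rep ((Lap D).map (mq (π k))) x y| : ℚ) : ℝ) ≤ c by
      exact_mod_cast this)
    push_cast
    simp only [← napxPsi_apply (π k) (e k)]
    rw [(e k).sum_comp fun y => |napxPsi (π k) (e k) (Lap D) (e k x) y|,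
      ← Fintype.sum_subtype_add_sum_subtype (dg k · = p)
        fun y => |napxPsi (π k) (e k) (Lap D) (e k x) y|]
    exact le_add_of_nonneg_right (Finset.sum_nonneg fun _ _ => abs_nonneg _)
  have l5 : ∀ w : Polynomial ℝ, ∀ᶠ k in atTop, ∑ x, w.eval ((psd k).1.eigenvalues x) =
      Fintype.card (Q0 k) * mu (mom deg (Lap D) p) w := fun w => by
    induction w using Polynomial.induction_on' with
    | add a b ha hb =>
      exact (ha.and hb).mono fun k hk => by simp [Finset.sum_add_distrib, hk.1, hk.2]; ring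
    | monomial n a =>
      refine (eventually_all.2 fun i => ev_coeff sep ((Lap D ^ n) i i)).mono fun k hk => ?_
      simp only [Polynomial.eval_monomial, ← Finset.mul_sum, mu_monomial]
      rw [← trace_pow_eq, napx_pow, ← map_pow, mul_left_comm]
      · congr 1
        have : ∀ x : Ω k, napxPsi (π k) (e k) (Lap D ^ n) x x =
            (((Lap D ^ n) ((e k).symm x).2 ((e k).symm x).2).coeff 1 : ℚ) := fun x => by
          obtain ⟨x, rfl⟩ := (e k).surjective x
          rw [napxPsi_apply, rep_apply, map_apply, inv_mul_cancel, hk, Equiv.symm_apply_apply]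
        simp only [trace, diag_apply, sub, submatrix_apply, this, mom, tau_pj]
        rw [← Finset.sum_subtype (Finset.univ.filter fun x => dg k x = p) (by simp) fun x =>
          ((((Lap D ^ n) ((e k).symm x).2 ((e k).symm x).2).coeff 1 : ℚ) : ℝ), Finset.sum_filter,
          ← (e k).sum_comp]
        simp [h1, Fintype.sum_prod_type, Finset.sum_filter, apply_ite (Rat.cast : ℚ → ℝ)]
      · intro x y hx hy
        obtain ⟨x, rfl⟩ := (e k).surjective x
        obtain ⟨y, rfl⟩ := (e k).surjective y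
        rw [napxPsi_apply, rep_apply, map_apply, z _ _ (h1 k x ▸ hx) (h1 k y ▸ hy)]
        simp
  refine Metric.tendsto_nhds.2 fun δ hδ => ?_
  obtain ⟨η, hη, h3⟩ : ∃ η > 0, 2 * (Fintype.card I * η) < δ :=
    ⟨δ / (2 * Fintype.card I + 1), by positivity, by
      rw [← mul_assoc, ← mul_div_assoc, div_lt_iff₀ (by positivity)]; nlinarith⟩
  obtain ⟨q, hq⟩ := exists_polynomial_near_of_continuousOn 0 _ _
    (cont_log hε (max ‖Phi G I (Lap D)‖ c)) η hη
  have a1 := FF_approx deg D p (le_max_left _ _) hε hη.le hq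
  refine (l5 q).mono fun k hk => ?_
  have q0 : (0 : ℝ) < Fintype.card (Q0 k) := by exact_mod_cast Fintype.card_pos
  have e1 : lp (dg k) (B k) p ε = ∑ x, Real.log ((psd k).1.eigenvalues x + ε) := by
    rw [← napx_logdet (psd k) hε, ← eL]
    rfl
  have a2 : |∑ x, q.eval ((psd k).1.eigenvalues x) - ∑ x, Real.log ((psd k).1.eigenvalues x + ε)| ≤
      Fintype.card (Q0 k) * (Fintype.card I * η) := by
    rw [← Finset.sum_sub_distrib]
    refine (Finset.abs_sum_le_sum_abs _ _).trans ((Finset.sum_le_card_nsmul _ _ η fun x _ =>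
      (hq _ ⟨(psd k).eigenvalues_nonneg x, le_max_of_le_right (l1 k x)⟩).le).trans ?_)
    rw [nsmul_eq_mul, ← mul_assoc]
    refine mul_le_mul_of_nonneg_right ?_ hη.le
    have := (Fintype.card_subtype_le (dg k · = p)).trans (Fintype.card_congr (e k)).ge
    rw [Fintype.card_prod] at this
    exact_mod_cast this
  rw [hk, ← e1] at a2
  rw [Real.dist_eq, Nat.card_eq_fintype_card]
  have a3 : |mu (mom deg (Lap D) p) q - lp (dg k) (B k) p ε / Fintype.card (Q0 k)| ≤
      Fintype.card I * η := by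
    refine le_of_mul_le_mul_left ?_ q0
    rw [← abs_of_pos q0, ← abs_mul, abs_of_pos q0, mul_sub, mul_div_cancel₀ _ q0.ne']
    exact a2
  rw [abs_le] at a1 a3
  rw [abs_lt]
  constructor <;> linarith [a1.1, a1.2, a3.1, a3.2]

theorem ff_alt {d : Matrix I I (QG G)} (hd : IsCx deg d) {m : ℕ} (hm : ∀ i, deg i ≤ m)
    (h : ∑ i, (-1 : ℚ) ^ deg i = 0) {ε : ℝ} (hε : 0 < ε) :
    ∑ p ∈ Finset.range (m + 1), (-1 : ℝ) ^ p * FF deg (Lap d) p ε = 0 := by
  have e : ∑ p ∈ Finset.range (m + 1), ((-1 : ℚ) ^ p) • pj (QG G) deg p = sg _ deg := by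
    ext1 i j
    by_cases e : i = j
    · subst e
      simp only [pj, sg, Matrix.sum_apply, Matrix.smul_apply, diagonal_apply_eq]
      simp only [smul_ite, smul_zero, Finset.sum_ite_eq, Finset.mem_range, Nat.lt_succ_iff, hm i,
        if_true]
      rw [← Algebra.algebraMap_eq_smul_one, map_pow, map_neg, map_one]
    · simp [pj, sg, Matrix.sum_apply, e]
  have e1 : (fun k => ∑ p ∈ Finset.range (m + 1), (-1 : ℝ) ^ p * mom deg (Lap d) p k) = 0 := by
    funext k
    have := hd.tau_aeval (Polynomial.X ^ k)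
    rw [h, mul_zero, map_pow, Polynomial.aeval_X, ← e, Finset.sum_mul, map_sum] at this
    simp only [smul_mul_assoc, map_smul, smul_eq_mul] at this
    simp only [mom, Pi.zero_apply]
    exact_mod_cast this
  refine abs_nonpos_iff.1 (le_of_forall_pos_le_add fun δ hδ => ?_)
  obtain ⟨η, hη, h1⟩ : ∃ η > 0, (m + 1) * (Fintype.card I * η) ≤ δ :=
    ⟨δ / ((m + 1) * Fintype.card I + 1), by positivity, by
      rw [← mul_assoc, ← mul_div_assoc, div_le_iff₀ (by positivity)]; nlinarith⟩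
  obtain ⟨q, hq⟩ := exists_polynomial_near_of_continuousOn 0 _ _
    (cont_log hε ‖Phi G I (Lap d)‖) η hη
  have e2 := mu_sum (Finset.range (m + 1)) (fun p => (-1 : ℝ) ^ p) (mom deg (Lap d)) q
  rw [e1, show mu 0 q = 0 by simp [mu, Polynomial.sum]] at e2
  rw [← abs_neg, ← zero_sub, e2, ← Finset.sum_sub_distrib, ← e2, zero_add]
  refine (Finset.abs_sum_le_sum_abs _ _).trans ((Finset.sum_le_card_nsmul _ _ (Fintype.card I * η)
    fun p _ => ?_).trans (by simpa using h1))
  rw [← mul_sub, abs_mul, abs_pow, abs_neg, abs_one, one_pow, one_mul]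
  exact FF_approx deg d p le_rfl hε hη.le hq

theorem ff_le (deg : I → ℕ) (d : Matrix I I (QG G)) :
    ∃ C : ℝ, ∀ p, ∀ ε ∈ Set.Ioo (0 : ℝ) 1, FF deg (Lap d) p ε ≤ C :=
  ⟨∑ i, |(inner ℂ (delta ((1 : G), i)) (logAdd (Phi G I (Lap d)) 1 (delta (1, i)))).re|,
    fun _ _ hε => (Finset.sum_le_sum fun _ _ => (logAdd_mono (by rw [Phi_lap]; exact lap_pos _)
      hε.1 hε.2.le _).trans (le_abs_self _)).trans
      (Finset.sum_le_sum_of_subset_of_nonneg (Finset.subset_univ _) fun _ _ _ => abs_nonneg _)⟩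

theorem dec_of_bdd {d : Matrix I I (QG G)} {C : ℝ}
    (h : ∀ p, ∀ ε ∈ Set.Ioo (0 : ℝ) 1, -C ≤ FF deg (Lap d) p ε) : Dec (Lap d) := by
  intro δ hδ
  have hδ' : (0 : ℝ) < δ := by exact_mod_cast hδ
  have hT : (Phi G I (Lap d)).IsPositive := by rw [Phi_lap]; exact lap_pos _
  obtain ⟨c, hc⟩ := exists_nat_gt (max ‖Phi G I (Lap d)‖ 1)
  have c1 : (1 : ℝ) < c := (le_max_right _ _).trans_lt hc
  have c2 : ‖Phi G I (Lap d)‖ ≤ c := ((le_max_left _ _).trans_lt hc).le
  have l0 : 0 < Real.log (c + 1) := Real.log_pos (by linarith)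
  obtain ⟨K, K0, hK⟩ : ∃ K : ℝ, 0 < K ∧ Fintype.card I * Real.log (c + 1) + C ≤ K * (δ / 2) :=
    ⟨(Fintype.card I * Real.log (c + 1) + |C| + 1) / (δ / 2), by positivity, by
      rw [div_mul_cancel₀ _ (by positivity)]; linarith [le_abs_self C]⟩
  obtain ⟨ε, e0, e1, e2⟩ : ∃ ε : ℝ, 0 < ε ∧ ε < 1 ∧ Real.log (2 * ε) = -K :=
    ⟨Real.exp (-K) / 2, by positivity, by
      have := Real.exp_le_one_iff.2 (neg_lt_zero.2 K0).le
      linarith, by rw [mul_div_cancel₀ _ two_ne_zero, Real.log_exp]⟩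
  have r0 : 0 ≤ 1 - ε / c := by rw [sub_nonneg, div_le_one (by linarith)]; linarith
  obtain ⟨n, hn⟩ := exists_pow_lt_of_lt_one (half_pos hδ')
    (show 1 - ε / c < 1 from sub_lt_self _ (by positivity))
  refine ⟨(1 - (c : ℚ)⁻¹ • Polynomial.X) ^ n, by simp, fun i => ?_⟩
  have b : ∀ j : I, (inner ℂ (delta ((1 : G), j))
      (logAdd (Phi G I (Lap d)) ε (delta (1, j)))).re ≤ Real.log (c + 1) := fun j => by
    have := napx_ev hT c2 (cont_log e0 c) (cont_log e0 c) 0 (Real.log (c + 1)) (fun t ht => by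
      rw [zero_mul, zero_add]
      exact Real.log_le_log (by linarith [ht.1]) (by linarith [ht.2])) (norm_delta ((1 : G), j))
    rwa [zero_mul, zero_add] at this
  have b1 : Real.log (c + 1) - (inner ℂ (delta ((1 : G), i))
      (logAdd (Phi G I (Lap d)) ε (delta (1, i)))).re ≤ K * (δ / 2) := by
    have h1 := h (deg i) ε ⟨e0, e1⟩
    have h2 := Finset.single_le_sum (s := Finset.univ.filter fun j => deg j = deg i)
      (fun j _ => sub_nonneg.2 (b j)) (show i ∈ _ by simp)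
    rw [Finset.sum_sub_distrib, Finset.sum_const, nsmul_eq_mul] at h2
    have h3 : ((Finset.univ.filter fun j => deg j = deg i).card : ℝ) ≤ Fintype.card I := by
      exact_mod_cast Finset.card_le_univ _
    rw [FF] at h1
    nlinarith [mul_le_mul_of_nonneg_right h3 l0.le]
  have b2 := napx_ev hT c2 (f := fun t => (1 - (c : ℝ)⁻¹ * t) ^ (n + n)) (by fun_prop)
    (cont_log e0 c) (-K⁻¹) (K⁻¹ * Real.log (c + 1) + δ / 2) (fun t ht => by
      have t0 : 0 ≤ 1 - (c : ℝ)⁻¹ * t := by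
        rw [sub_nonneg, inv_mul_le_iff₀ (by linarith)]; linarith [ht.2]
      have t1 : 1 - (c : ℝ)⁻¹ * t ≤ 1 := sub_le_self _ (mul_nonneg (by positivity) ht.1)
      have t2 : -K⁻¹ * Real.log (t + ε) + (K⁻¹ * Real.log (c + 1) + δ / 2) =
          K⁻¹ * (Real.log (c + 1) - Real.log (t + ε)) + δ / 2 := by ring
      rw [t2]
      rcases le_total t ε with e | e
      · have u : Real.log (t + ε) ≤ -K := e2 ▸ Real.log_le_log (by linarith [ht.1]) (by linarith)
        have : 1 ≤ K⁻¹ * (Real.log (c + 1) - Real.log (t + ε)) := by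
          rw [le_inv_mul_iff₀ K0]; linarith
        linarith [pow_le_one₀ (n := n + n) t0 t1]
      · have u : Real.log (t + ε) ≤ Real.log (c + 1) :=
          Real.log_le_log (by linarith [ht.1]) (by linarith [ht.2])
        have u1 : 1 - (c : ℝ)⁻¹ * t ≤ 1 - ε / c := by
          rw [div_eq_inv_mul]
          exact sub_le_sub_left (mul_le_mul_of_nonneg_left e (by positivity)) _
        have u2 : (1 - (c : ℝ)⁻¹ * t) ^ (n + n) ≤ (1 - ε / c) ^ n :=
          (pow_le_pow_of_le_one t0 t1 (Nat.le_add_right n n)).trans (pow_le_pow_left₀ t0 u1 n)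
        linarith [mul_nonneg (inv_pos.2 K0).le (sub_nonneg.2 u)]) (norm_delta ((1 : G), i))
  have b3 : (1 - (((c : ℝ)⁻¹ : ℝ) : ℂ) • Phi G I (Lap d)) ^ (n + n) = Phi G I
      (Polynomial.aeval (Lap d) ((1 - (c : ℚ)⁻¹ • Polynomial.X) ^ n *
        (1 - (c : ℚ)⁻¹ • Polynomial.X) ^ n : Polynomial ℚ)) := by
    rw [← pow_add]
    simp only [map_pow, map_sub, map_one, map_smul, Polynomial.aeval_X, Phi_smul]
    simp
  rw [napx_cfc hT, b3, inner_delta, Phi_delta, rep_apply, inv_mul_cancel] at b2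
  have b4 : K⁻¹ * (Real.log (c + 1) - (inner ℂ (delta ((1 : G), i))
      (logAdd (Phi G I (Lap d)) ε (delta (1, i)))).re) ≤ δ / 2 := by
    rw [inv_mul_le_iff₀ K0]; exact b1
  rw [← Rat.cast_le (K := ℝ)]
  rw [Complex.ratCast_re] at b2
  rw [logAdd] at b4
  linarith

end

end Pool.Agent.Lib.MP_b65ff2_gt
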