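import Pool.Agent.Lib.MP_b65ff2_gt.NDet1

namespace Pool.Agent.Lib.MP_b65ff2_gt

open Matrix Filter Topology

set_option linter.unusedSectionVars false

noncomputable section

lemma narc_ser {r : ℝ} (h0 : 0 < r) (h1 : r < 1) (n : ℕ) (t : ℝ) :
    |Real.log (1 + r ^ 2 - 2 * r * Real.cos t) +
      ∑ j ∈ Finset.range (n + 1), r ^ j / j * (2 * Real.cos (j * t))| ≤
        2 * (r ^ (n + 1) * (1 - r)⁻¹) := by
  set z : ℂ := -(r * Complex.exp (t * Complex.I)) with hz
  have nz : ‖z‖ = r := by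
    rw [hz, norm_neg, norm_mul, Complex.norm_exp_ofReal_mul_I, Complex.norm_real,
      Real.norm_of_nonneg h0.le, mul_one]
  have h := Complex.norm_log_sub_logTaylor_le n (z := z) (by rw [nz]; exact h1)
  have h2 := (Complex.abs_re_le_norm _).trans h
  rw [nz, Complex.sub_re, Complex.log_re] at h2
  have e1 : Real.log (1 + r ^ 2 - 2 * r * Real.cos t) = 2 * Real.log ‖1 + z‖ := by
    have : 1 + r ^ 2 - 2 * r * Real.cos t = ‖1 + z‖ ^ 2 := by
      rw [Complex.sq_norm, Complex.normSq_apply, hz]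
      simp only [Complex.add_re, Complex.add_im, Complex.one_re, Complex.one_im, Complex.neg_re,
        Complex.neg_im, Complex.re_ofReal_mul, Complex.im_ofReal_mul,
        Complex.exp_ofReal_mul_I_re, Complex.exp_ofReal_mul_I_im]
      linear_combination (-r ^ 2) * Real.cos_sq_add_sin_sq t
    rw [this, Real.log_pow]; norm_num
  have e2 : ∑ j ∈ Finset.range (n + 1), r ^ j / j * (2 * Real.cos (j * t)) =
      -2 * (Complex.logTaylor (n + 1) z).re := by
    rw [Complex.logTaylor, Complex.re_sum, Finset.mul_sum]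
    refine Finset.sum_congr rfl fun j _ => ?_
    have : (-1 : ℂ) ^ (j + 1) * z ^ j / j =
        ((-(r ^ j / j) : ℝ) : ℂ) * Complex.exp ((j * t : ℝ) * Complex.I) := by
      rw [hz, neg_pow (r * Complex.exp (t * Complex.I)), mul_pow, ← Complex.exp_nat_mul, pow_succ]
      have : (-1 : ℂ) ^ j * (-1) ^ j = 1 := by rw [← mul_pow]; simp
      push_cast
      rw [← mul_assoc (j : ℂ)]
      linear_combination (-(r : ℂ) ^ j * Complex.exp (j * t * Complex.I) / j) * this
    rw [this, Complex.re_ofReal_mul, Complex.exp_ofReal_mul_I_re]; ring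
  rw [e1, e2]
  have p : 0 ≤ r ^ (n + 1) * (1 - r)⁻¹ := by
    have : 0 < 1 - r := by linarith
    positivity
  have q : r ^ (n + 1) * (1 - r)⁻¹ / (n + 1) ≤ r ^ (n + 1) * (1 - r)⁻¹ :=
    div_le_self p (by linarith [Nat.cast_nonneg (α := ℝ) n])
  rw [abs_le] at h2 ⊢
  constructor <;> linarith [h2.1, h2.2]

lemma narc_r {η : ℝ} (hη : 0 < η) :
    ∃ r : ℝ, 0 < r ∧ r < 1 ∧ 1 + r ^ 2 = r * (2 + η) ∧ -Real.log r ≤ √η := by
  have hs := Real.sqrt_pos.2 hη
  set u := Real.arsinh (√η / 2) with hu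
  have u0 : 0 < u := Real.arsinh_pos_iff.2 (by positivity)
  have e : Real.sinh u = √η / 2 := Real.sinh_arsinh _
  have le : u ≤ Real.sinh u := Real.self_le_sinh_iff.2 u0.le
  refine ⟨Real.exp (-(2 * u)), Real.exp_pos _, Real.exp_lt_one_iff.2 (by linarith), ?_, ?_⟩
  · have c : 2 + η = 2 * Real.cosh (2 * u) := by
      rw [Real.cosh_two_mul, Real.cosh_sq, e]
      linear_combination (-1) * Real.sq_sqrt hη.le
    have k : Real.exp (-(2 * u)) * Real.exp (2 * u) = 1 := by rw [← Real.exp_add]; simp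
    rw [c, Real.cosh_eq]
    linear_combination (-1) * k
  · rw [Real.log_exp]; linarith

lemma narc_diag {m : Type} [Fintype m] [DecidableEq m] (U : Matrix m m ℝ) (hU : U * Uᵀ = 1) :
    ∃ t : m → ℝ, (∀ k : ℕ, 2 * (U ^ k).trace = ∑ i, 2 * Real.cos (k * t i)) ∧
      ∀ η : ℝ, ((2 : ℝ) • 1 - U - Uᵀ + η • (1 : Matrix m m ℝ)).det =
        ∏ i, (2 + η - 2 * Real.cos (t i)) := by
  have hH : (U + Uᵀ).IsHermitian := by
    rw [IsHermitian, conjTranspose_eq_transpose_of_trivial, transpose_add, transpose_transpose,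
      add_comm]
  obtain ⟨V, l, h1, h2, h3⟩ : ∃ (V : Matrix m m ℝ) (l : m → ℝ), V * Vᵀ = 1 ∧ Vᵀ * V = 1 ∧
      U + Uᵀ = V * diagonal l * Vᵀ := by
    refine ⟨hH.eigenvectorUnitary, hH.eigenvalues, ?_, ?_, ?_⟩
    · simpa [star_eq_conjTranspose] using Unitary.coe_mul_star_self hH.eigenvectorUnitary
    · simpa [star_eq_conjTranspose] using Unitary.coe_star_mul_self hH.eigenvectorUnitary
    · have := hH.spectral_theorem
      rw [Unitary.conjStarAlgAut_apply] at this
      simpa [star_eq_conjTranspose] using this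
  set W := Vᵀ * U * V with hW
  have hWt : Wᵀ = Vᵀ * Uᵀ * V := by
    rw [hW, transpose_mul, transpose_mul, transpose_transpose, Matrix.mul_assoc]
  have w1 : W * Wᵀ = 1 := by
    rw [hWt, hW]
    calc Vᵀ * U * V * (Vᵀ * Uᵀ * V) = Vᵀ * (U * (V * Vᵀ) * Uᵀ) * V := by
          simp only [Matrix.mul_assoc]
      _ = 1 := by rw [h1, Matrix.mul_one, hU, Matrix.mul_one, h2]
  have w2 : Wᵀ * W = 1 := mul_eq_one_comm.1 w1
  have w3 : W + Wᵀ = diagonal l := by
    rw [hWt, hW, ← Matrix.add_mul, ← Matrix.mul_add, h3]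
    calc Vᵀ * (V * diagonal l * Vᵀ) * V = (Vᵀ * V) * diagonal l * (Vᵀ * V) := by
          simp only [Matrix.mul_assoc]
      _ = _ := by rw [h2, Matrix.one_mul, Matrix.mul_one]
  have w4 : ∀ k : ℕ, W ^ k = Vᵀ * U ^ k * V := fun k => by
    induction k with
    | zero => simp [h2]
    | succ k ih =>
      rw [pow_succ, ih, hW]
      calc Vᵀ * U ^ k * V * (Vᵀ * U * V) = Vᵀ * (U ^ k * (V * Vᵀ) * U) * V := by
            simp only [Matrix.mul_assoc]
        _ = _ := by rw [h1, Matrix.mul_one, pow_succ]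
  have hl : ∀ i, l i = 2 * Real.cos (Real.arccos (l i / 2)) := fun i => by
    have a : l i = 2 * W i i := by
      have := congrFun (congrFun w3 i) i
      simp only [Matrix.add_apply, transpose_apply, diagonal_apply_eq] at this
      linarith
    have b : W i i * W i i ≤ 1 := by
      have := congrFun (congrFun w1 i) i
      rw [mul_apply, one_apply_eq] at this
      rw [← this]
      exact Finset.single_le_sum (f := fun j => W i j * Wᵀ j i)
        (fun j _ => mul_self_nonneg (W i j)) (Finset.mem_univ i)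
    rw [Real.cos_arccos (by nlinarith) (by nlinarith)]; ring
  set t : m → ℝ := fun i => Real.arccos (l i / 2) with ht
  have hl' : l = fun i => 2 * Real.cos (t i) := funext hl
  have w5 : ∀ k : ℕ, W ^ k + Wᵀ ^ k = diagonal fun i => 2 * Real.cos (k * t i) := fun k => by
    induction k using Nat.twoStepInduction with
    | zero =>
      ext i j
      by_cases h : i = j
      · subst h; simp; norm_num
      · simp [h]
    | one => simpa [← hl'] using w3
    | more k i0 i1 =>
      have : W ^ (k + 2) + Wᵀ ^ (k + 2) =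
          (W + Wᵀ) * (W ^ (k + 1) + Wᵀ ^ (k + 1)) - (W ^ k + Wᵀ ^ k) := by
        rw [add_mul, mul_add, mul_add, pow_succ' Wᵀ k, ← mul_assoc W, w1, pow_succ' W k,
          ← mul_assoc Wᵀ W, w2, ← pow_succ' W k, ← pow_succ' Wᵀ k, ← pow_succ', ← pow_succ']
        simp only [one_mul]; abel
      rw [this, w3, i0, i1, diagonal_mul_diagonal, diagonal_sub, hl']
      congr 1
      funext i
      have e1 : ((k + 2 : ℕ) : ℝ) * t i = ((k + 1 : ℕ) : ℝ) * t i + t i := by push_cast; ring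
      have e2 : (k : ℝ) * t i = ((k + 1 : ℕ) : ℝ) * t i - t i := by push_cast; ring
      rw [e1, e2, Real.cos_add, Real.cos_sub]; ring
  refine ⟨t, fun k => ?_, fun η => ?_⟩
  · have := congrArg trace (w5 k)
    rw [trace_add, ← transpose_pow, trace_transpose, trace_diagonal, w4, trace_mul_cycle, h1,
      Matrix.one_mul] at this
    linarith
  · have : (2 : ℝ) • 1 - U - Uᵀ + η • (1 : Matrix m m ℝ) =
        V * diagonal (fun i => 2 + η - 2 * Real.cos (t i)) * Vᵀ := by
      have d : diagonal (fun i => 2 + η - 2 * Real.cos (t i)) =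
          (2 + η) • (1 : Matrix m m ℝ) - diagonal l := by
        rw [hl', smul_one_eq_diagonal, diagonal_sub]
      rw [d, Matrix.mul_sub, Matrix.sub_mul, ← h3, Matrix.mul_smul, Matrix.smul_mul,
        Matrix.mul_one, h1, add_smul]
      abel
    rw [this, det_mul_right_comm, h1, Matrix.one_mul, det_diagonal]

theorem arc {γ η : ℝ} (hγ : 0 < γ) (hη : 0 < η) : ∃ k0 : ℕ, ∃ θ > (0 : ℝ),
    ∀ (m : Type) [Fintype m] [DecidableEq m] (U : Matrix m m ℝ), U * Uᵀ = 1 →
      (∀ k, 1 ≤ k → k ≤ k0 → |(U ^ k).trace| ≤ θ * Nat.card m) →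
      -(γ * Nat.card m) ≤ lam η ((2 : ℝ) • 1 - U - Uᵀ) ∧
        lam η ((2 : ℝ) • 1 - U - Uᵀ) ≤ (√η + γ) * Nat.card m := by
  obtain ⟨r, h0, h1, hr, hl⟩ := narc_r hη
  have h2 : 0 < 1 - r := by linarith
  obtain ⟨n, hn⟩ := exists_pow_lt_of_lt_one (x := γ / 4 * (1 - r)) (by positivity) h1
  have hn' : 2 * (r ^ (n + 1) * (1 - r)⁻¹) ≤ γ / 2 := by
    have : r ^ (n + 1) ≤ γ / 4 * (1 - r) := by
      rw [pow_succ]; nlinarith [pow_pos h0 n]
    rw [← div_eq_mul_inv]
    have := (div_le_iff₀ h2).2 this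
    linarith
  refine ⟨n, γ / (4 * (n + 1)), by positivity, fun m _ _ U hU htr => ?_⟩
  obtain ⟨t, t1, t2⟩ := narc_diag U hU
  have l0 : 0 ≤ -Real.log r := by have := Real.log_neg h0 h1; linarith
  have pos : ∀ i, 0 < 1 + r ^ 2 - 2 * r * Real.cos (t i) := fun i => by
    nlinarith [Real.cos_le_one (t i), mul_pos h2 h2]
  have fac : ∀ i, 2 + η - 2 * Real.cos (t i) = (1 + r ^ 2 - 2 * r * Real.cos (t i)) / r :=
    fun i => by rw [hr]; field_simp
  have e : lam η ((2 : ℝ) • 1 - U - Uᵀ) =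
      ∑ i, Real.log (1 + r ^ 2 - 2 * r * Real.cos (t i)) + Nat.card m * -Real.log r := by
    rw [lam_eq, t2, Real.log_prod fun i _ => by rw [fac]; exact (div_pos (pos i) h0).ne',
      Finset.sum_congr rfl fun i _ => by rw [fac, Real.log_div (pos i).ne' h0.ne'],
      Finset.sum_sub_distrib]
    simp [sub_eq_add_neg]
  have N0 : (0 : ℝ) ≤ Nat.card m := Nat.cast_nonneg _
  have b1 : |∑ i, Real.log (1 + r ^ 2 - 2 * r * Real.cos (t i)) +
      ∑ j ∈ Finset.range (n + 1), r ^ j / j * (2 * (U ^ j).trace)| ≤ γ / 2 * Nat.card m := by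
    simp only [t1, Finset.mul_sum]
    rw [Finset.sum_comm, ← Finset.sum_add_distrib]
    refine (Finset.abs_sum_le_sum_abs _ _).trans
      ((Finset.sum_le_sum fun i _ => (narc_ser h0 h1 n (t i)).trans hn').trans ?_)
    simp [mul_comm]
  have b2 : |∑ j ∈ Finset.range (n + 1), r ^ j / j * (2 * (U ^ j).trace)| ≤
      γ / 2 * Nat.card m := by
    refine (Finset.abs_sum_le_sum_abs _ _).trans ((Finset.sum_le_sum
      (g := fun _ => 2 * (γ / (4 * (n + 1)) * Nat.card m)) fun j hj => ?_).trans ?_)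
    · rcases Nat.eq_zero_or_pos j with rfl | hj0
      · simp; positivity
      · have a := htr j hj0 (Nat.lt_succ_iff.1 (Finset.mem_range.1 hj))
        have j1 : (1 : ℝ) ≤ j := by exact_mod_cast hj0
        have c : r ^ j / j ≤ 1 := by
          rw [div_le_one (by linarith)]; exact (pow_le_one₀ h0.le h1.le).trans j1
        have c0 : 0 ≤ r ^ j / j := by positivity
        rw [abs_mul, abs_mul, abs_of_nonneg c0, abs_two]
        nlinarith [abs_nonneg (U ^ j).trace]
    · rw [Finset.sum_const, Finset.card_range, nsmul_eq_mul]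
      push_cast
      apply le_of_eq; field_simp; ring
  rw [abs_le] at b1 b2
  rw [e]
  constructor <;> nlinarith [b1.1, b1.2, b2.1, b2.2, mul_nonneg N0 l0,
    mul_le_mul_of_nonneg_left hl N0]

open Classical in
theorem cyc {γ η : ℝ} (hγ : 0 < γ) (hη : 0 < η) : ∃ k0 : ℕ,
    ∀ (Ω ρ : Type) [Finite Ω] [Finite ρ] (σ : Fin 2 → Ω → Ω) (π : Fin 2 → Ω → ZMod 2)
      (C : Matrix ρ Ω ℝ) (e : ρ ≃ {x : Fin 2 × Ω // π x.1 x.2 = 0}) (a : ρ → ℝ),
      (∀ i ω, σ i (σ i ω) = ω) → (∀ i j ω, π j (σ i ω) = π j ω + if i = j then 1 else 0) →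
      (∀ r, a r ^ 2 = 1) →
      (∀ r ω, C r ω = a r * ((if σ (e r).1.1 (e r).1.2 = ω then 1 else 0) -
        if (e r).1.2 = ω then 1 else 0)) →
      (∀ k ω, 1 ≤ k → k ≤ k0 → (σ 0 ∘ σ 1)^[k] ω ≠ ω) →
      Nat.card ρ = Nat.card Ω ∧ -(γ * Nat.card Ω) ≤ ld η C ∧
        ld η C ≤ (√η + γ) * Nat.card Ω := by
  obtain ⟨k0, θ, hθ, H⟩ := arc hγ hη
  refine ⟨k0, fun Ω ρ _ _ σ π C e a hσ hπ ha hC hk => ?_⟩
  cases nonempty_fintype Ω
  obtain ⟨ι, hι⟩ : ∃ ι : Ω → Fin 2, ∀ i ω, ι (σ i ω) = ι ω + 1 := by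
    refine ⟨fun ω => if π 0 ω = π 1 ω then 0 else 1, fun i ω => ?_⟩
    simp only [hπ]
    generalize π 0 ω = x
    generalize π 1 ω = y
    revert i x y
    decide
  have f1 : ∀ i j : Fin 2, i ≠ j → i + 1 = j := by decide
  have f2 : ∀ i : Fin 2, i + 1 ≠ i := by decide
  have f3 : ∀ i : Fin 2, i + 1 + 1 = i := by decide
  have z1 : ∀ x : ZMod 2, x ≠ 0 → x + 1 = 0 := by decide
  have z2 : ∀ i ω, π i ω = 0 → π i (σ i ω) ≠ 0 := fun i ω h => by
    rw [hπ, h, if_pos rfl]; decide
  set f : {x : Fin 2 × Ω // π x.1 x.2 = 0} → Ω :=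
    fun x => if ι x.1.2 = x.1.1 then x.1.2 else σ x.1.1 x.1.2 with hf
  have fι : ∀ x, ι (f x) = x.1.1 := fun x => by
    simp only [hf]
    split_ifs with h
    · exact h
    · rw [hι]; exact f1 _ _ h
  have fb : Function.Bijective f := by
    constructor
    · rintro ⟨⟨i, x⟩, hx⟩ ⟨⟨j, y⟩, hy⟩ h
      have ij : i = j := by
        have := fι ⟨⟨i, x⟩, hx⟩
        rw [h, fι] at this
        exact this.symm
      subst ij
      simp only [hf] at h hx hy
      have : x = y := by
        split_ifs at h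
        · exact h
        · exact absurd (h ▸ hx) (z2 i y hy)
        · exact absurd (h ▸ hy) (z2 i x hx)
        · rw [← hσ i x, h, hσ]
      subst this; rfl
    · intro ω
      by_cases h : π (ι ω) ω = 0
      · exact ⟨⟨(ι ω, ω), h⟩, by simp [hf]⟩
      · refine ⟨⟨(ι ω, σ (ι ω) ω), by rw [hπ, if_pos rfl]; exact z1 _ h⟩, ?_⟩
        simp only [hf, hι, if_neg (f2 _), hσ]
  set E := e.trans (Equiv.ofBijective f fb) with hE
  set B : Ω → Ω := fun ω => σ (ι ω) ω with hB
  have Bι : ∀ ω, ι (B ω) = ι ω + 1 := fun ω => hι _ _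
  have Binj : Function.Injective B := fun x y h => by
    have : ι x = ι y := by rw [← f3 (ι x), ← Bι, h, Bι, f3]
    simp only [hB] at h
    rw [← hσ (ι x) x, h, this, hσ]
  have B2 : ∀ j ω, ι ω = 1 → B^[2 * j] ω = (σ 0 ∘ σ 1)^[j] ω := fun j => by
    induction j with
    | zero => simp
    | succ j ih =>
      intro ω h
      have e1 : B (B ω) = σ 0 (σ 1 ω) := by
        have : ι (B ω) = 0 := by rw [Bι, h]; rfl
        show σ (ι (B ω)) (σ (ι ω) ω) = _
        rw [this, h]
      rw [show 2 * (j + 1) = 2 * j + 1 + 1 by ring, Function.iterate_succ_apply,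
        Function.iterate_succ_apply, Function.iterate_succ_apply,
        ih _ (by rw [Bι, Bι, f3, h]), e1]
      rfl
  have B3 : ∀ j ω, ι (B^[2 * j] ω) = ι ω := fun j => by
    induction j with
    | zero => simp
    | succ j ih =>
      intro ω
      rw [show 2 * (j + 1) = 2 * j + 1 + 1 by ring, Function.iterate_succ_apply,
        Function.iterate_succ_apply, ih, Bι, Bι, f3]
  have B4 : ∀ k ω, 1 ≤ k → k ≤ k0 → B^[k] ω ≠ ω := fun k ω k1 k2 h => by
    obtain ⟨j, rfl | rfl⟩ := Nat.even_or_odd' k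
    · by_cases h1 : ι ω = 1
      · exact hk j ω (by omega) (by omega) (by rw [← B2 j ω h1, h])
      · refine hk j (B ω) (by omega) (by omega) ?_
        rw [← B2 j _ (by rw [Bι]; exact f1 _ _ h1), ← Function.iterate_succ_apply,
          Function.iterate_succ_apply', h]
    · have := B3 j (B ω)
      rw [← Function.iterate_succ_apply, h, Bι] at this
      exact f2 _ this.symm
  set P : Matrix Ω Ω ℝ := .of fun x y => if B x = y then 1 else 0 with hP
  have Pk : ∀ k : ℕ, P ^ k = .of fun x y => if B^[k] x = y then 1 else 0 := fun k => by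
    induction k with
    | zero => ext x y; by_cases h : x = y <;> simp [h]
    | succ k ih =>
      ext x y
      rw [pow_succ', ih, mul_apply, Finset.sum_eq_single (B x) (fun b _ h => by simp [hP, h.symm])
        (by simp)]
      by_cases h : B^[k] (B x) = y <;> simp [hP, h]
  have PP : P * Pᵀ = 1 := by
    ext x y
    rw [mul_apply]
    simp [hP, one_apply, Binj.eq_iff, eq_comm]
  have key : ld η C = ld η (P - 1) := by
    refine ld_sign (P - 1) C E (Equiv.refl _)
      (fun r => a r * if ι (e r).1.2 = (e r).1.1 then 1 else -1) (fun _ => 1) (fun r => ?_)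
      (fun _ => by norm_num) fun r ω => ?_
    · rw [mul_pow, ha]; split_ifs <;> norm_num
    · have : E r = f (e r) := rfl
      rw [hC, this]
      simp only [hf, hP, hB, Matrix.sub_apply, of_apply, one_apply, Equiv.refl_apply]
      by_cases h : ι (e r).1.2 = (e r).1.1
      · simp only [h, if_true]; ring
      · simp only [h, if_false, hι, f1 _ _ h, hσ]; ring
  have e2 : (P - 1) * (P - 1)ᵀ = (2 : ℝ) • 1 - P - Pᵀ := by
    rw [transpose_sub, transpose_one, sub_mul, mul_sub, mul_sub, PP, two_smul]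
    simp only [mul_one, one_mul]; abel
  refine ⟨Nat.card_congr E, ?_⟩
  rw [key, ld_eq_lam, e2]
  refine H Ω P PP fun k k1 k2 => ?_
  have : (P ^ k).trace = 0 := by
    rw [Pk]; exact Finset.sum_eq_zero fun x _ => by simp [B4 k x k1 k2]
  rw [this, abs_zero]; positivity

end

end Pool.Agent.Lib.MP_b65ff2_gt
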