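import Pool.Agent.Lib.MP_b65ff2_gt.NDef

namespace Pool.Agent.Lib.MP_b65ff2_gt

open Matrix

set_option linter.unusedSectionVars false

noncomputable section

/-! Right-angled Coxeter groups -/
section RA
variable {S H : Type} [Group H] (Γ : SimpleGraph S)

def rels : Set (FreeGroup S) :=
  {r | (∃ s, r = .of s * .of s) ∨ ∃ s t, Γ.Adj s t ∧ r = .of s * .of t * (.of t * .of s)⁻¹}

abbrev RA : Type := PresentedGroup (rels Γ)

def gn (s : S) : RA Γ := PresentedGroup.of s

lemma gn_sq (s : S) : gn Γ s * gn Γ s = 1 :=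
  PresentedGroup.one_of_mem (rels := rels Γ) (x := .of s * .of s) (.inl ⟨s, rfl⟩)

lemma gn_inv (s : S) : (gn Γ s)⁻¹ = gn Γ s := inv_eq_of_mul_eq_one_right (gn_sq Γ s)

lemma gn_cm {s t : S} (h : Γ.Adj s t) : gn Γ s * gn Γ t = gn Γ t * gn Γ s :=
  PresentedGroup.mk_eq_mk_of_mul_inv_mem (rels := rels Γ) (x := FreeGroup.of s * FreeGroup.of t)
    (y := FreeGroup.of t * FreeGroup.of s) (.inr ⟨s, t, h, rfl⟩)

lemma gn_closure : Subgroup.closure (Set.range (gn Γ)) = ⊤ := PresentedGroup.closure_range_of _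

/-- Induction on right multiplication by involutive generators. -/
lemma ind_right {X : Type} {a : X → H} (sq : ∀ s, a s * a s = 1) {P : H → Prop} (h1 : P 1)
    (hs : ∀ w s, P w → P (w * a s)) {w : H} (hw : w ∈ Subgroup.closure (Set.range a)) : P w := by
  induction hw using Subgroup.closure_induction_right with
  | one => exact h1
  | mul_right x _ y hy ih => obtain ⟨s, rfl⟩ := hy; exact hs _ _ ih
  | mul_inv_cancel x _ y hy ih =>
    obtain ⟨s, rfl⟩ := hy
    rw [inv_eq_of_mul_eq_one_right (sq s)]; exact hs _ _ ih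

lemma RA.ind {P : RA Γ → Prop} (h1 : P 1) (hs : ∀ w s, P w → P (w * gn Γ s)) (w : RA Γ) : P w :=
  ind_right (gn_sq Γ) h1 hs (gn_closure Γ ▸ Subgroup.mem_top w)

def RA.lift (f : S → H) (h1 : ∀ s, f s * f s = 1) (h2 : ∀ s t, Γ.Adj s t → f s * f t = f t * f s) :
    RA Γ →* H :=
  PresentedGroup.toGroup (f := f) (by
    rintro _ (⟨s, rfl⟩ | ⟨s, t, h, rfl⟩)
    · simp [h1]
    · simp [h2 s t h])

@[simp] lemma RA.lift_gn (f : S → H) (h1 h2) (s : S) : RA.lift Γ f h1 h2 (gn Γ s) = f s :=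
  PresentedGroup.toGroup.of _

/-- The element of a word. -/
def wd (l : List S) : RA Γ := (l.map (gn Γ)).prod

/-- Word length. -/
def len (w : RA Γ) : ℕ := sInf {n | ∃ l : List S, l.length = n ∧ wd Γ l = w}

/-- A word is reduced: two equal letters are separated by a different, non adjacent letter. -/
def Red (l : List S) : Prop :=
  ∀ a s b c, l = a ++ s :: (b ++ s :: c) → ∃ t ∈ b, t ≠ s ∧ ¬Γ.Adj s t

open Classical in
/-- The numbers game. -/
def mv {R : Type} [CommRing R] (s : S) (f : S → R) : S → R :=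
  fun t => if t = s then -f s else if Γ.Adj s t then f t else f t + 2 * f s

lemma mv_mv {R : Type} [CommRing R] (s : S) (f : S → R) : mv Γ s (mv Γ s f) = f := by
  funext t
  simp only [mv, if_true]
  split_ifs with h1 h2
  · simp [h1]
  · rfl
  · ring

lemma mv_cm {R : Type} [CommRing R] {s t : S} (h : Γ.Adj s t) (f : S → R) :
    mv Γ s (mv Γ t f) = mv Γ t (mv Γ s f) := by
  funext u
  by_cases h1 : u = s
  · subst h1; simp [mv, h.ne, h.symm]
  by_cases h2 : u = t
  · subst h2; simp [mv, h, h.ne']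
  simp only [mv, h.ne, h.ne', h, h.symm, h1, h2, if_true, if_false]
  split_ifs <;> ring

def mvP (R : Type) [CommRing R] (s : S) : Equiv.Perm (S → R) :=
  Function.Involutive.toPerm (mv Γ s) (mv_mv Γ s)

def tits (R : Type) [CommRing R] : RA Γ →* Equiv.Perm (S → R) :=
  RA.lift Γ (mvP Γ R) (fun s => Equiv.ext (mv_mv Γ s)) fun _ _ h => Equiv.ext (mv_cm Γ h)

/-- `s` is a right descent of `w`. -/
def Dn (w : RA Γ) (s : S) : Prop := tits Γ ℤ w⁻¹ 1 s < 0

def wallP (s : S) : Equiv.Perm (RA Γ →₀ ZMod 2) :=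
  Function.Involutive.toPerm
    (fun φ => Finsupp.single (gn Γ s) 1 + φ.mapDomain fun r => gn Γ s * r * gn Γ s) fun φ => by
    have e : ((fun r => gn Γ s * r * gn Γ s) ∘ fun r => gn Γ s * r * gn Γ s) = id := by
      funext r
      simp only [Function.comp, id, ← mul_assoc, gn_sq, one_mul]
      rw [mul_assoc, gn_sq, mul_one]
    simp only [Finsupp.mapDomain_add, Finsupp.mapDomain_single, gn_sq, one_mul,
      ← Finsupp.mapDomain_comp, e, Finsupp.mapDomain_id, ← add_assoc, ← Finsupp.single_add]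
    rw [show (1 + 1 : ZMod 2) = 0 from rfl]; simp

def wallH : RA Γ →* Equiv.Perm (RA Γ →₀ ZMod 2) :=
  RA.lift Γ (wallP Γ) (fun s => Equiv.ext (wallP Γ s).left_inv) fun s t h => Equiv.ext fun φ => by
    have e : gn Γ s * gn Γ t * gn Γ s = gn Γ t := by rw [gn_cm Γ h, mul_assoc, gn_sq, mul_one]
    have e' : gn Γ t * gn Γ s * gn Γ t = gn Γ s := by rw [← gn_cm Γ h, mul_assoc, gn_sq, mul_one]
    simp only [Equiv.Perm.mul_apply, wallP, Function.Involutive.coe_toPerm, Finsupp.mapDomain_add,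
      Finsupp.mapDomain_single, e, e', ← Finsupp.mapDomain_comp]
    rw [add_left_comm]
    congr 3
    funext r
    simp only [Function.comp, ← mul_assoc, gn_cm Γ h]
    rw [mul_assoc, ← gn_cm Γ h, mul_assoc _ (gn Γ s)]

/-- The set of walls (reflections) that separate `w` from `1`. -/
def nn (w : RA Γ) : RA Γ →₀ ZMod 2 := wallH Γ w 0

variable [DecidableEq S]

def parH : RA Γ →* Multiplicative (S → ZMod 2) :=
  RA.lift Γ (fun s => .ofAdd (Pi.single s 1)) (fun s => by
    rw [← ofAdd_add, ← Pi.single_add, show (1 + 1 : ZMod 2) = 0 from rfl]; simp)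
    fun _ _ _ => mul_comm _ _

/-- The parity vector. -/
def par (w : RA Γ) : S → ZMod 2 := (parH Γ w).toAdd

lemma par_mul (a b : RA Γ) : par Γ (a * b) = par Γ a + par Γ b := by simp [par]

lemma par_gn (s : S) : par Γ (gn Γ s) = Pi.single s 1 := by simp [par, parH]

lemma par_surj [Fintype S] : Function.Surjective (par Γ) := fun p => by
  induction p using Pi.single_induction with
  | zero => exact ⟨1, by simp [par]⟩
  | add f g hf hg =>
    obtain ⟨a, rfl⟩ := hf
    obtain ⟨b, rfl⟩ := hg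
    exact ⟨_, par_mul Γ a b⟩
  | single s c =>
    fin_cases c
    · exact ⟨1, (Pi.single_zero s).symm⟩
    · exact ⟨_, par_gn Γ s⟩

/-- The torsion free subgroup of finite index. -/
def GG : Subgroup (RA Γ) := (parH Γ).ker

lemma mem_GG {w : RA Γ} : w ∈ GG Γ ↔ par Γ w = 0 := Iff.rfl

/-- A quotient of the Coxeter group through which the parity vector factors. -/
structure PM (Q : Type) [Group Q] where
  g : S → Q
  p : Q → S → ZMod 2
  sq : ∀ s, g s * g s = 1
  cm : ∀ s t, Γ.Adj s t → g s * g t = g t * g s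
  p_mul : ∀ a b, p (a * b) = p a + p b
  p_g : ∀ s, p (g s) = Pi.single s 1
  gen : Subgroup.closure (Set.range g) = ⊤

def pmW : PM Γ (RA Γ) :=
  ⟨gn Γ, par Γ, gn_sq Γ, fun _ _ => gn_cm Γ, par_mul Γ, par_gn Γ, gn_closure Γ⟩

variable {Γ} {Q : Type} [Group Q] (M : PM Γ Q)

def PM.f : RA Γ →* Q := RA.lift Γ M.g M.sq M.cm

@[simp] lemma PM.f_gn (s : S) : M.f (gn Γ s) = M.g s := RA.lift_gn ..

lemma PM.ind {P : Q → Prop} (h1 : P 1) (hs : ∀ q s, P q → P (q * M.g s)) (q : Q) : P q :=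
  ind_right M.sq h1 hs (M.gen ▸ Subgroup.mem_top q)

lemma PM.p_one : M.p 1 = 0 := by simpa using M.p_mul 1 1

lemma PM.p_mul_g (q : Q) (s t : S) :
    M.p (q * M.g s) t = M.p q t + if t = s then 1 else 0 := by
  rw [M.p_mul, M.p_g, Pi.add_apply, Pi.single_apply]

lemma PM.p_f (w : RA Γ) : M.p (M.f w) = par Γ w := by
  induction w using RA.ind with
  | h1 => simp [M.p_one, par]
  | hs w s ih => rw [map_mul, M.p_mul, par_mul, ih, M.f_gn, M.p_g, par_gn]

lemma PM.f_surj : Function.Surjective M.f := fun q => by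
  induction q using M.ind with
  | h1 => exact ⟨1, map_one _⟩
  | hs q s ih => obtain ⟨w, rfl⟩ := ih; exact ⟨w * gn Γ s, by simp⟩

/-- Cubes: base vertex and clique. -/
def PM.Cell : Type :=
  {x : Q × Finset S // Γ.IsClique (x.2 : Set S) ∧ ∀ s ∈ x.2, M.p x.1 s = 0}

instance [Finite Q] [Finite S] : Finite M.Cell := by unfold PM.Cell; infer_instance

abbrev PM.C (n : ℕ) : Type := {x : M.Cell // x.1.2.card = n}

def sgn [LinearOrder S] (s : S) (T : Finset S) : ℤ := (-1) ^ (T.filter (· < s)).card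

open Classical in
/-- The cubical boundary matrix. -/
def PM.bd [LinearOrder S] : Matrix M.Cell M.Cell ℤ := .of fun x y => ∑ s ∈ x.1.2, sgn s x.1.2 *
  ((if y.1 = (x.1.1 * M.g s, x.1.2.erase s) then 1 else 0) -
    if y.1 = (x.1.1, x.1.2.erase s) then 1 else 0)

def PM.dZ [LinearOrder S] (n : ℕ) : Matrix (M.C (n + 1)) (M.C n) ℤ :=
  M.bd.submatrix Subtype.val Subtype.val

def PM.dR [LinearOrder S] (n : ℕ) : Matrix (M.C (n + 1)) (M.C n) ℝ := (M.dZ n).map Int.cast

variable (Γ) [Fintype S]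

/-- Orbits of cubes under `GG`. -/
def Iota : Type :=
  {x : (S → ZMod 2) × Finset S // Γ.IsClique (x.2 : Set S) ∧ ∀ s ∈ x.2, x.1 s = 0}

instance : Fintype (Iota Γ) := by classical unfold Iota; infer_instance

instance : DecidableEq (Iota Γ) := Classical.decEq _

def degI (x : Iota Γ) : ℕ := x.1.2.card

def sec (p : S → ZMod 2) : RA Γ := Function.surjInv (par_surj Γ) p

lemma par_sec (p : S → ZMod 2) : par Γ (sec Γ p) = p := Function.surjInv_eq _ p

def gam (p : S → ZMod 2) (s : S) : GG Γ :=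
  ⟨sec Γ p * gn Γ s * (sec Γ (p + Pi.single s 1))⁻¹, by
    have := par_sec Γ p
    have := par_sec Γ (p + Pi.single s 1)
    have := par_gn Γ s
    simp_all [mem_GG, par]⟩

/-- The cellular chain complex of the Davis complex over the group ring of `GG`. -/
def dG [LinearOrder S] : Matrix (Iota Γ) (Iota Γ) (MonoidAlgebra ℤ (GG Γ)) :=
  .of fun x y => ∑ s ∈ x.1.2, sgn s x.1.2 •
    ((if y.1 = (x.1.1 + Pi.single s 1, x.1.2.erase s) then .single (gam Γ x.1.1 s) 1 else 0) -
      if y.1 = (x.1.1, x.1.2.erase s) then 1 else 0)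

/-- The cone over the flag complex. -/
def Cone : Type := {t : S → ℝ // (∀ s, 0 ≤ t s) ∧ Γ.IsClique {s | t s ≠ 0}}

instance : TopologicalSpace (Cone Γ) := by unfold Cone; infer_instance

open Classical in
/-- The point of the Davis complex at position `t` in a cube at the vertex `u`. -/
def pt (u : RA Γ) (t : S → ℝ) : RA Γ → ℝ := fun r =>
  |(if nn Γ u r = 0 then 0 else 1) - ∑ s, if r = u * gn Γ s * u⁻¹ then t s else 0|

/-- The Davis complex. -/
def Dav : Type := {x : RA Γ → ℝ //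
  ∃ u t, (∀ s, t s ∈ Set.Icc (0 : ℝ) 1) ∧ Γ.IsClique {s | t s ≠ 0} ∧ x = pt Γ u t}

instance : TopologicalSpace (Dav Γ) := by unfold Dav; infer_instance

instance : T2Space (Dav Γ) := by unfold Dav; infer_instance

end RA

/-! Determinants and torsion of matrices -/

open Classical in
def lam {m : Type} [Finite m] (ε : ℝ) (A : Matrix m m ℝ) : ℝ :=
  letI := Fintype.ofFinite m
  Real.log (A + ε • (1 : Matrix m m ℝ)).det

def ld {m n : Type} [Finite m] [Finite n] (ε : ℝ) (A : Matrix m n ℝ) : ℝ :=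
  letI := Fintype.ofFinite n
  lam ε (A * Aᵀ)

lemma lam_eq {m : Type} [i1 : Fintype m] [i2 : DecidableEq m] (ε : ℝ) (A : Matrix m m ℝ) :
    lam ε A = Real.log (A + ε • (1 : Matrix m m ℝ)).det := by
  obtain rfl : i2 = fun a b => Classical.propDecidable (a = b) := Subsingleton.elim _ _
  unfold lam
  rw [Subsingleton.elim (Fintype.ofFinite m) i1]

lemma ld_eq_lam {m n : Type} [Finite m] [i1 : Fintype n] (ε : ℝ) (A : Matrix m n ℝ) :
    ld ε A = lam ε (A * Aᵀ) := by
  unfold ld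
  rw [Subsingleton.elim (Fintype.ofFinite n) i1]

lemma ld_eq {m n : Type} [Fintype m] [DecidableEq m] [Fintype n] (ε : ℝ) (A : Matrix m n ℝ) :
    ld ε A = Real.log (A * Aᵀ + ε • (1 : Matrix m m ℝ)).det := by
  rw [ld_eq_lam, lam_eq]

/-- Row and column sums of absolute values are at most `c`. -/
def RB {m n : Type} (A : Matrix m n ℝ) (c : ℝ) : Prop :=
  (∀ i (s : Finset n), ∑ j ∈ s, |A i j| ≤ c) ∧ ∀ j (s : Finset m), ∑ i ∈ s, |A i j| ≤ c

/-- Restriction to the rows with `P` and the columns with `R`. -/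
def sub {m n α : Type} (A : Matrix m n α) (P : m → Prop) (R : n → Prop) :
    Matrix {i // P i} {j // R j} α := A.submatrix Subtype.val Subtype.val

open Classical in
/-- The rows of the identity matrix with `P`. -/
def sel {n : Type} (P : n → Prop) : Matrix {i // P i} n ℝ :=
  .of fun i j => if i.1 = j then 1 else 0

/-- The cokernel: the quotient by the span of the rows. -/
abbrev Cok {m n : Type} (A : Matrix m n ℤ) : Type :=
  (n → ℤ) ⧸ Submodule.span ℤ (Set.range A.row)

def tc {m n : Type} (A : Matrix m n ℤ) : ℕ := torsCard (Cok A)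

/-- The log determinant of the shifted Laplacian in degree `p`. -/
def lp {Ω : Type} [Finite Ω] (dg : Ω → ℕ) (B : Matrix Ω Ω ℤ) (p : ℕ) (ε : ℝ) : ℝ :=
  letI := Fintype.ofFinite Ω
  lam ε (sub ((Bᵀ * B + B * Bᵀ).map (Int.cast : ℤ → ℝ)) (dg · = p) (dg · = p))

/-- `g` is a word of length at most `L` in `A` and inverses. -/
def WL {H : Type} [Group H] (A : Set H) (L : ℕ) (g : H) : Prop :=
  ∃ l : List H, l.length ≤ L ∧ (∀ x ∈ l, x ∈ A ∨ x⁻¹ ∈ A) ∧ l.prod = g

/-- The kernel of `ρ` has `D` generators, with word lengths controlled by `B`. -/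
def SG {H Q X : Type} [Group H] [Group Q] (a : X → H) (ρ : H →* Q) (D B : ℕ) : Prop :=
  ∃ (n : Fin D → H) (τ : Q → H), (∀ i, ρ (n i) = 1) ∧ (∀ h, ρ (τ (ρ h)) = ρ h) ∧
    (∀ i, WL (Set.range a) B (n i)) ∧
    ∀ h s, WL (Set.range n) B (τ (ρ h) * a s * (τ (ρ (h * a s)))⁻¹)

/-- `x` is a combination of the `z i` with coefficients of total size at most `m`. -/
def Sm {A : Type} [AddCommGroup A] {D : ℕ} (z : Fin D → A) (m : ℕ) (x : A) : Prop :=
  ∃ c : Fin D → ℤ, ∑ i, |c i| ≤ m ∧ x = ∑ i, c i • z i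

/-- Virtually onto a rank two lattice with finitely generated kernel. -/
def Fib (H : Type) [Group H] : Prop :=
  ∃ P : Subgroup H, P.FiniteIndex ∧ ∃ φ : P →* Multiplicative (ℤ × ℤ), φ.ker.FG ∧
    ∃ a b : P, (φ a).toAdd.1 * (φ b).toAdd.2 ≠ (φ a).toAdd.2 * (φ b).toAdd.1

end

end Pool.Agent.Lib.MP_b65ff2_gt
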