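import Pool.Agent.Lib.MP_b65ff2_gt.NL11

namespace Pool.Agent.Lib.MP_b65ff2_gt

open Matrix Filter Topology

set_option linter.unusedSectionVars false

noncomputable section

lemma ncell_sum_sub {α R : Type} [Fintype α] [AddCommMonoid R] (P : α → Prop)
    [Fintype {a // P a}] (f : α → R) (h : ∀ a, ¬P a → f a = 0) :
    ∑ a, f a = ∑ a : {a // P a}, f a.1 := by
  classical
  rw [← Finset.sum_subtype (Finset.univ.filter P) (by simp) f]
  refine (Finset.sum_subset (Finset.filter_subset _ _) fun a _ ha => h a ?_).symm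
  simpa using ha

lemma ncell_or {α : Type} [Finite α] (A B : α → Prop) (h : ∀ a, A a → B a → False) :
    Nat.card {a // A a ∨ B a} = Nat.card {a // A a} + Nat.card {a // B a} := by
  classical
  have hd : Disjoint A B := by
    rw [Pi.disjoint_iff]
    intro a
    rw [Prop.disjoint_iff]
    exact fun hab => h a hab.1 hab.2
  rw [Nat.card_congr (subtypeOrEquiv A B hd), Nat.card_sum]

lemma ncell_ind_le {α : Type} (s : Finset α) (P : α → Prop) [DecidablePred P]
    (h : ∀ a b, P a → P b → a = b) : ∑ a ∈ s, (if P a then 1 else 0 : ℝ) ≤ 1 := by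
  rw [Finset.sum_boole]
  have : (s.filter P).card ≤ 1 := Finset.card_le_one.2 fun a ha b hb =>
    h a b (Finset.mem_filter.1 ha).2 (Finset.mem_filter.1 hb).2
  exact_mod_cast this

lemma ncell_z2 (a : ZMod 2) : a = 0 ∨ a = 1 := by revert a; decide

section
variable {S : Type} [Fintype S] [DecidableEq S] [LinearOrder S] {Γ : SimpleGraph S} {Q : Type}
  [Group Q] (M : PM Γ Q)

lemma ncell_sgn_lt {s t : S} {T : Finset S} (hs : s ∈ T) (h : s < t) :
    sgn t T = -sgn t (T.erase s) ∧ sgn s (T.erase t) = sgn s T := by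
  constructor
  · have e : T.filter (· < t) = insert s ((T.erase s).filter (· < t)) := by
      ext u
      by_cases hu : u = s
      · simp [hu, hs, h]
      · simp [hu]
    unfold sgn
    rw [e, Finset.card_insert_of_notMem (by simp), pow_succ]
    ring
  · unfold sgn
    congr 2
    ext u
    simp only [Finset.mem_filter, Finset.mem_erase]
    exact ⟨fun hu => ⟨hu.1.2, hu.2⟩, fun hu => ⟨⟨(hu.2.trans h).ne, hu.1⟩, hu.2⟩⟩

lemma ncell_sgn_anti {s t : S} {T : Finset S} (hs : s ∈ T) (ht : t ∈ T) (h : s ≠ t) :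
    sgn s T * sgn t (T.erase s) = -(sgn t T * sgn s (T.erase t)) := by
  rcases lt_or_gt_of_ne h with h | h
  · obtain ⟨h1, h2⟩ := ncell_sgn_lt hs h
    rw [h1, h2]; ring
  · obtain ⟨h1, h2⟩ := ncell_sgn_lt ht h
    rw [h1, h2]; ring

lemma ncell_abs_sgn (s : S) (T : Finset S) : |sgn s T| = 1 := by simp [sgn]

open Classical in
/-- The boundary formula on pairs. -/
def PM.ncellF (x y : Q × Finset S) : ℤ := ∑ s ∈ x.2, sgn s x.2 *
  ((if y = (x.1 * M.g s, x.2.erase s) then 1 else 0) - if y = (x.1, x.2.erase s) then 1 else 0)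

lemma PM.ncell_bd (x y : M.Cell) : M.bd x y = M.ncellF x.1 y.1 := rfl

/-- The two faces of a cell. -/
def PM.ncellUp (x : M.Cell) (s : S) : M.Cell :=
  ⟨(x.1.1 * M.g s, x.1.2.erase s), x.2.1.subset (by simp), fun t ht => by
    rw [Finset.mem_erase] at ht
    simp [M.p_mul_g, ht.1, x.2.2 t ht.2]⟩

def PM.ncellDn (x : M.Cell) (s : S) : M.Cell :=
  ⟨(x.1.1, x.1.2.erase s), x.2.1.subset (by simp), fun t ht => x.2.2 t (Finset.mem_of_mem_erase ht)⟩

lemma PM.ncell_pick (n : ℕ) [Fintype (M.C n)] (a : M.C n) (F : Q × Finset S → ℤ)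
    (b : Q × Finset S) (hb : a.1.1 = b) [∀ y : M.C n, Decidable (y.1.1 = b)] :
    ∑ y : M.C n, (if y.1.1 = b then 1 else 0) * F y.1.1 = F b := by
  subst hb
  rw [Finset.sum_eq_single a]
  · simp
  · intro b _ hb
    rw [if_neg fun h => hb (Subtype.ext (Subtype.ext h)), zero_mul]
  · simp

lemma PM.ncell_sum_bd (n : ℕ) [Fintype (M.C n)] (x : M.C (n + 1)) (F : Q × Finset S → ℤ) :
    ∑ y : M.C n, M.bd x.1 y.1 * F y.1.1 = ∑ s ∈ x.1.1.2, sgn s x.1.1.2 *
      (F (x.1.1.1 * M.g s, x.1.1.2.erase s) - F (x.1.1.1, x.1.1.2.erase s)) := by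
  classical
  simp only [M.ncell_bd, PM.ncellF, Finset.sum_mul]
  rw [Finset.sum_comm]
  refine Finset.sum_congr rfl fun s hs => ?_
  have hc : (x.1.1.2.erase s).card = n := by rw [Finset.card_erase_of_mem hs, x.2]; rfl
  simp only [mul_assoc, ← Finset.mul_sum, sub_mul, Finset.sum_sub_distrib]
  congr 2
  · exact M.ncell_pick n ⟨M.ncellUp x.1 s, hc⟩ F _ rfl
  · exact M.ncell_pick n ⟨M.ncellDn x.1 s, hc⟩ F _ rfl

theorem PM.dZ_mul (n : ℕ) [Fintype (M.C (n + 1))] : M.dZ (n + 1) * M.dZ n = 0 := by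
  classical
  ext x z
  have h := M.ncell_sum_bd (n + 1) x fun y => M.ncellF y z.1.1
  rw [Matrix.mul_apply, Matrix.zero_apply]
  refine Eq.trans ?_ (h.trans ?_)
  · rfl
  set q := x.1.1.1
  set T := x.1.1.2 with hT
  let G : S → S → ℤ := fun s t =>
    ((if z.1.1 = (q * M.g s * M.g t, (T.erase s).erase t) then 1 else 0) -
      if z.1.1 = (q * M.g s, (T.erase s).erase t) then 1 else 0) -
    ((if z.1.1 = (q * M.g t, (T.erase s).erase t) then 1 else 0) -
      if z.1.1 = (q, (T.erase s).erase t) then 1 else 0)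
  let f : S → S → ℤ := fun s t => if t = s then 0 else sgn s T * sgn t (T.erase s) * G s t
  have e1 : ∑ s ∈ T, sgn s T * (M.ncellF (q * M.g s, T.erase s) z.1.1 -
      M.ncellF (q, T.erase s) z.1.1) = ∑ s ∈ T, ∑ t ∈ T, f s t := by
    refine Finset.sum_congr rfl fun s hs => ?_
    rw [← Finset.sum_erase T (f := f s) (a := s) (by simp [f])]
    simp only [PM.ncellF, ← Finset.sum_sub_distrib, Finset.mul_sum]
    refine Finset.sum_congr rfl fun t ht => ?_
    simp only [f, G, if_neg (Finset.ne_of_mem_erase ht)]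
    ring
  have e2 : ∀ s ∈ T, ∀ t ∈ T, f s t = -f t s := by
    intro s hs t ht
    by_cases hst : t = s
    · simp [f, hst]
    have hG : G s t = G t s := by
      have hc : q * M.g s * M.g t = q * M.g t * M.g s := by
        rw [mul_assoc, mul_assoc, M.cm t s (x.1.2.1 ht hs hst)]
      simp only [G, hc, Finset.erase_right_comm (a := s) (b := t)]
      ring
    simp only [f, if_neg hst, if_neg (Ne.symm hst), hG, ncell_sgn_anti hs ht (Ne.symm hst)]
    ring
  rw [e1]
  have e3 : ∑ s ∈ T, ∑ t ∈ T, f s t = -∑ s ∈ T, ∑ t ∈ T, f s t := by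
    conv_rhs => rw [Finset.sum_comm]
    simp only [← Finset.sum_neg_distrib]
    exact Finset.sum_congr rfl fun s hs => Finset.sum_congr rfl fun t ht => e2 s hs t ht
  omega

theorem PM.dR_mul (n : ℕ) [Fintype (M.C (n + 1))] : M.dR (n + 1) * M.dR n = 0 := by
  have h := Matrix.map_mul (L := M.dZ (n + 1)) (M := M.dZ n) (f := Int.castRingHom ℝ)
  rw [M.dZ_mul] at h
  refine Eq.trans h.symm ?_
  ext; simp

open Classical in
lemma PM.ncell_abs (x y : M.Cell) : |(M.bd x y : ℝ)| ≤ ∑ t : S,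
    ((if t ∈ x.1.2 ∧ y.1 = (x.1.1 * M.g t, x.1.2.erase t) then 1 else 0) +
      if t ∈ x.1.2 ∧ y.1 = (x.1.1, x.1.2.erase t) then 1 else 0 : ℝ) := by
  rw [M.ncell_bd, PM.ncellF, Int.cast_sum]
  refine (Finset.abs_sum_le_sum_abs _ _).trans ?_
  refine le_trans (Finset.sum_le_sum fun t ht => ?_)
    (Finset.sum_le_sum_of_subset_of_nonneg (Finset.subset_univ x.1.2) fun t _ _ => by positivity)
  rw [Int.cast_mul, abs_mul, ← Int.cast_abs, ncell_abs_sgn]
  simp only [ht, true_and]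
  split_ifs <;> norm_num

theorem PM.rb_dR (n : ℕ) : RB (M.dR n) (2 * Fintype.card S) := by
  classical
  have key : ∑ _t : S, (1 + 1 : ℝ) = 2 * Fintype.card S := by simp; ring
  constructor
  · intro i s
    refine (Finset.sum_le_sum fun j _ => M.ncell_abs i.1 j.1).trans ?_
    rw [Finset.sum_comm, ← key]
    refine Finset.sum_le_sum fun t _ => ?_
    rw [Finset.sum_add_distrib]
    refine add_le_add ?_ ?_ <;>
      exact ncell_ind_le s _ fun a b ha hb => Subtype.ext (Subtype.ext (ha.2.trans hb.2.symm))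
  · intro j s
    refine (Finset.sum_le_sum fun i _ => M.ncell_abs i.1 j.1).trans ?_
    rw [Finset.sum_comm, ← key]
    refine Finset.sum_le_sum fun t _ => ?_
    rw [Finset.sum_add_distrib]
    refine add_le_add ?_ ?_
    · refine ncell_ind_le s _ fun a b ha hb => Subtype.ext (Subtype.ext ?_)
      have h := ha.2.symm.trans hb.2
      rw [Prod.mk.injEq] at h
      refine Prod.ext (mul_right_cancel h.1) ?_
      rw [← Finset.insert_erase ha.1, h.2, Finset.insert_erase hb.1]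
    · refine ncell_ind_le s _ fun a b ha hb => Subtype.ext (Subtype.ext ?_)
      have h := ha.2.symm.trans hb.2
      rw [Prod.mk.injEq] at h
      refine Prod.ext h.1 ?_
      rw [← Finset.insert_erase ha.1, h.2, Finset.insert_erase hb.1]

lemma PM.ncell_flip (P : Q → Prop) (s : S) (h : ∀ q, P q → P (q * M.g s)) :
    Nat.card {q // P q ∧ M.p q s = 1} = Nat.card {q // P q ∧ M.p q s = 0} := by
  have hh : ∀ q, q * M.g s * M.g s = q := fun q => by rw [mul_assoc, M.sq, mul_one]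
  refine Nat.card_congr ⟨fun q => ⟨q.1 * M.g s, h _ q.2.1, ?_⟩,
    fun q => ⟨q.1 * M.g s, h _ q.2.1, ?_⟩, fun q => Subtype.ext (hh _), fun q => Subtype.ext (hh _)⟩
  · rw [M.p_mul_g, q.2.2, if_pos rfl]; rfl
  · rw [M.p_mul_g, q.2.2, if_pos rfl]; rfl

theorem PM.half [Finite Q] (P : Q → Prop) (s : S) (h : ∀ q, P q → P (q * M.g s)) :
    2 * Nat.card {q // P q ∧ M.p q s = 0} = Nat.card {q // P q} := by
  rw [two_mul]
  nth_rw 1 [← M.ncell_flip P s h]
  rw [← ncell_or _ _ fun a h1 h2 => by rw [h1.2] at h2; exact absurd h2.2 (by decide)]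
  refine Nat.card_congr (Equiv.subtypeEquivRight fun q => ?_)
  have := ncell_z2 (M.p q s)
  tauto

lemma PM.ncell_pow [Finite Q] (P : Q → Prop) (U : Finset S)
    (h : ∀ q, ∀ s ∈ U, P q → P (q * M.g s)) :
    2 ^ U.card * Nat.card {q // P q ∧ ∀ s ∈ U, M.p q s = 0} = Nat.card {q // P q} := by
  induction U using Finset.induction_on with
  | empty => simp
  | insert s U hs ih =>
    rw [← ih fun q t ht => h q t (Finset.mem_insert_of_mem ht), Finset.card_insert_of_notMem hs,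
      pow_succ, mul_assoc,
      ← M.half (fun q => P q ∧ ∀ s ∈ U, M.p q s = 0) s fun q hq =>
        ⟨h q s (Finset.mem_insert_self _ _) hq.1, fun t ht => by
          rw [M.p_mul_g, hq.2 t ht, if_neg (by rintro rfl; exact hs ht), add_zero]⟩]
    congr 2
    refine Nat.card_congr (Equiv.subtypeEquivRight fun q => ?_)
    simp only [Finset.forall_mem_insert]
    tauto

theorem PM.card_type [Finite Q] {T : Finset S} (hT : Γ.IsClique (T : Set S)) (P : Q → Prop)
    (h : ∀ q, ∀ s ∈ T, P q → P (q * M.g s)) :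
    2 ^ T.card * Nat.card {x : M.Cell // x.1.2 = T ∧ P x.1.1} = Nat.card {q // P q} := by
  rw [← M.ncell_pow P T h]
  congr 1
  refine Nat.card_congr ⟨fun x => ⟨x.1.1.1, x.2.2, fun s hs => x.1.2.2 s (by rw [x.2.1]; exact hs)⟩,
    fun q => ⟨⟨(q.1, T), hT, q.2.2⟩, rfl, q.2.1⟩, fun x => ?_, fun q => rfl⟩
  exact Subtype.ext (Subtype.ext (Prod.ext rfl x.2.1.symm))

lemma PM.ncell_cnt [Finite Q] (n : ℕ) (𝒯 : List (Finset S)) (h0 : 𝒯.Nodup) (P : Q → Prop)
    (h1 : ∀ T ∈ 𝒯, Γ.IsClique (T : Set S) ∧ T.card = n)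
    (h : ∀ T ∈ 𝒯, ∀ q, ∀ s ∈ T, P q → P (q * M.g s)) :
    2 ^ n * Nat.card {x : M.Cell // x.1.2 ∈ 𝒯 ∧ P x.1.1} = 𝒯.length * Nat.card {q // P q} := by
  induction 𝒯 with
  | nil => simp
  | cons T 𝒯 ih =>
    have a1 := h1 T List.mem_cons_self
    rw [List.nodup_cons] at h0
    rw [List.length_cons, add_mul, one_mul,
      ← ih h0.2 (fun U hU => h1 U (List.mem_cons_of_mem _ hU))
        fun U hU => h U (List.mem_cons_of_mem _ hU),
      ← M.card_type a1.1 P (h T List.mem_cons_self), a1.2, ← mul_add,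
      add_comm, ← ncell_or (fun x : M.Cell => x.1.2 = T ∧ P x.1.1) (fun x => x.1.2 ∈ 𝒯 ∧ P x.1.1)
        fun a h1 h2 => h0.1 (by rw [← h1.1]; exact h2.1)]
    congr 1
    refine Nat.card_congr (Equiv.subtypeEquivRight fun q => ?_)
    simp only [List.mem_cons]
    tauto

lemma PM.ncell_bd_zero {x y : M.Cell} (h : x.1.2.card ≠ y.1.2.card + 1) : M.bd x y = 0 := by
  rw [M.ncell_bd, PM.ncellF]
  refine Finset.sum_eq_zero fun s hs => ?_
  have hc := Finset.card_erase_add_one hs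
  rw [if_neg, if_neg, sub_zero, mul_zero] <;> intro e <;> rw [e] at h <;> exact h hc.symm

lemma PM.ncell_up [Fintype M.Cell] (n : ℕ) [Fintype (M.C (n + 1))] (x y : M.C n) :
    ((M.bdᵀ * M.bd) x.1 y.1 : ℝ) = ((M.dR n)ᵀ * M.dR n) x y := by
  rw [Matrix.mul_apply, Matrix.mul_apply,
    ncell_sum_sub (fun z : M.Cell => z.1.2.card = n + 1) _ fun z hz => by
      rw [Matrix.transpose_apply, M.ncell_bd_zero (by rw [x.2]; exact hz), zero_mul]]
  push_cast
  rfl

lemma PM.ncell_dn [Fintype M.Cell] (n : ℕ) [Fintype (M.C n)] (x y : M.C (n + 1)) :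
    ((M.bd * M.bdᵀ) x.1 y.1 : ℝ) = (M.dR n * (M.dR n)ᵀ) x y := by
  rw [Matrix.mul_apply, Matrix.mul_apply,
    ncell_sum_sub (fun z : M.Cell => z.1.2.card = n) _ fun z hz => by
      rw [M.ncell_bd_zero (by rw [x.2]; omega), zero_mul]]
  push_cast
  rfl

theorem PM.lp_zero [Finite Q] (ε : ℝ) : lp (fun x : M.Cell => x.1.2.card) M.bd 0 ε =
    ld ε (M.dR 0)ᵀ := by
  let _ : Fintype M.Cell := Fintype.ofFinite _
  let _ : Fintype (M.C (0 + 1)) := Fintype.ofFinite _
  rw [ld_eq_lam, Matrix.transpose_transpose]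
  unfold lp
  congr 1
  ext x y
  have h0 : (M.bd * M.bdᵀ) x.1 y.1 = 0 := by
    rw [Matrix.mul_apply]
    exact Finset.sum_eq_zero fun z _ => by
      rw [M.ncell_bd_zero (by rw [show x.1.1.2.card = 0 from x.2]; omega), zero_mul]
  rw [← M.ncell_up]
  simp [sub, h0]

theorem PM.lp_succ [Finite Q] (n : ℕ) (ε : ℝ) : lp (fun x : M.Cell => x.1.2.card) M.bd (n + 1) ε =
    ld ε (fromCols (M.dR n) (M.dR (n + 1))ᵀ) := by
  let _ : Fintype M.Cell := Fintype.ofFinite _
  let _ : Fintype (M.C n) := Fintype.ofFinite _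
  let _ : Fintype (M.C (n + 1 + 1)) := Fintype.ofFinite _
  rw [ld_eq_lam, Matrix.transpose_fromCols, Matrix.fromCols_mul_fromRows,
    Matrix.transpose_transpose]
  unfold lp
  congr 1
  ext x y
  rw [Matrix.add_apply, ← M.ncell_up, ← M.ncell_dn]
  simp [sub, add_comm]

end

def triL : List (V × V × V) :=
  [(0, 2, 5), (0, 2, 8), (0, 3, 5), (0, 3, 6), (0, 6, 8), (1, 2, 5), (1, 2, 8), (1, 4, 5), (1, 4, 7),
    (1, 7, 8), (3, 5, 9), (3, 6, 9), (4, 5, 9), (4, 7, 9), (6, 8, 10), (6, 9, 10), (7, 8, 10),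
    (7, 9, 10)]

theorem clique_two {T : Finset V} (h : L11.IsClique (T : Set V)) (hc : T.card = 2) :
    ∃ e ∈ edgeL, T = {e.1, e.2} := by
  obtain ⟨a, b, hab, rfl⟩ := Finset.card_eq_two.1 hc
  rcases h (show a ∈ (({a, b} : Finset V) : Set V) by simp)
    (show b ∈ (({a, b} : Finset V) : Set V) by simp) hab with h | h
  · exact ⟨_, h, rfl⟩
  · exact ⟨_, h, Finset.pair_comm _ _⟩

def ncellAdj (a b : V) : Bool :=
  Nat.testBit (edgeL.foldr (fun e n => n ||| 2 ^ (11 * e.1.val + e.2.val) |||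
    2 ^ (11 * e.2.val + e.1.val)) 0) (11 * a.val + b.val)

lemma ncell_adj : ∀ a b : V, L11.Adj a b ↔ ncellAdj a b = true := by decide +kernel

lemma ncell_tri0 : ∀ a b : V, a < b → ncellAdj a b = true → ∀ c : V, b < c → ncellAdj a c = true →
    ncellAdj b c = true → (a, b, c) ∈ triL := by decide +kernel

lemma ncell_four0 : ∀ a b : V, ncellAdj a b = true → ∀ c : V, ncellAdj a c = true →
    ncellAdj b c = true → ∀ d : V, ncellAdj a d = true → ncellAdj b d = true →
    ncellAdj c d = false := by decide +kernel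

theorem clique_three {T : Finset V} (h : L11.IsClique (T : Set V)) (hc : T.card = 3) :
    ∃ e ∈ triL, T = {e.1, e.2.1, e.2.2} := by
  let f := T.orderEmbOfFin hc
  have hm : ∀ i, f i ∈ T := fun i => T.orderEmbOfFin_mem hc i
  have h01 : f 0 < f 1 := f.strictMono (by decide)
  have h12 : f 1 < f 2 := f.strictMono (by decide)
  refine ⟨(f 0, f 1, f 2), ncell_tri0 _ _ h01 ((ncell_adj _ _).1 (h (hm 0) (hm 1) h01.ne)) _ h12
    ((ncell_adj _ _).1 (h (hm 0) (hm 2) (h01.trans h12).ne))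
    ((ncell_adj _ _).1 (h (hm 1) (hm 2) h12.ne)), ?_⟩
  refine (Finset.eq_of_subset_of_card_le (fun a ha => ?_) ?_).symm
  · simp only [Finset.mem_insert, Finset.mem_singleton] at ha
    rcases ha with rfl | rfl | rfl <;> exact hm _
  · rw [hc, Finset.card_eq_three.2 ⟨_, _, _, h01.ne, (h01.trans h12).ne, h12.ne, rfl⟩]

theorem clique_le {T : Finset V} (h : L11.IsClique (T : Set V)) : T.card ≤ 3 := by
  by_contra hc
  obtain ⟨a, b, c, d, ha, hb, hc, hd, h1, h2, h3, h4, h5, h6⟩ :=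
    Finset.three_lt_card_iff.1 (not_le.1 hc)
  have := ncell_four0 a b ((ncell_adj _ _).1 (h ha hb h1)) c ((ncell_adj _ _).1 (h ha hc h2))
    ((ncell_adj _ _).1 (h hb hc h4)) d ((ncell_adj _ _).1 (h ha hd h3))
    ((ncell_adj _ _).1 (h hb hd h5))
  rw [(ncell_adj _ _).1 (h hc hd h6)] at this
  exact absurd this (by decide)

def ncellCode (T : Finset V) : ℕ := ∑ s ∈ T, 2 ^ s.val

/-- A list of different cliques of size `n`. -/
def ncellGood (n : ℕ) (𝒯 : List (Finset V)) : Prop :=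
  𝒯.Nodup ∧ ∀ T ∈ 𝒯, L11.IsClique (T : Set V) ∧ T.card = n

def ncellT1 : List (Finset V) := (List.finRange 11).map fun a => {a}

def ncellPr (l : List (V × V)) : List (Finset V) := l.map fun e => {e.1, e.2}

def ncellT3 : List (Finset V) := triL.map fun e => {e.1, e.2.1, e.2.2}

lemma ncell_sing (l : List V) (h : l.Nodup) : ncellGood 1 (l.map fun a => {a}) :=
  ⟨h.map Finset.singleton_injective, fun T hT => by
    obtain ⟨a, -, rfl⟩ := List.mem_map.1 hT
    simp⟩

lemma ncell_pair (l : List (V × V)) (h : ((ncellPr l).map ncellCode).Nodup)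
    (h2 : ∀ e ∈ l, ncellAdj e.1 e.2 = true) : ncellGood 2 (ncellPr l) :=
  ⟨h.of_map _, fun T hT => by
    obtain ⟨e, he, rfl⟩ := List.mem_map.1 hT
    have := (ncell_adj _ _).2 (h2 e he)
    exact ⟨by simpa using fun _ => this, Finset.card_pair this.ne⟩⟩

lemma ncellT2_ok : ncellGood 2 (ncellPr edgeL) :=
  ncell_pair _ (by decide +kernel) (by decide +kernel)

lemma ncell_triL : ∀ e ∈ triL, ncellAdj e.1 e.2.1 = true ∧ ncellAdj e.1 e.2.2 = true ∧
    ncellAdj e.2.1 e.2.2 = true := by decide +kernel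

lemma ncellT3_ok : ncellGood 3 ncellT3 :=
  ⟨List.Nodup.of_map ncellCode (by decide +kernel), fun T hT => by
    obtain ⟨e, he, rfl⟩ := List.mem_map.1 hT
    obtain ⟨h1, h2, h3⟩ := ncell_triL e he
    rw [← ncell_adj] at h1 h2 h3
    have := SimpleGraph.is3Clique_triple_iff.2 ⟨h1, h2, h3⟩
    exact ⟨this.1, this.2⟩⟩

section
variable {Q : Type} [Group Q] [Finite Q] (M : PM L11 Q)

lemma PM.ncell_all (n : ℕ) (𝒯 : List (Finset V)) (h1 : ncellGood n 𝒯)
    (h2 : ∀ T : Finset V, L11.IsClique (T : Set V) → T.card = n → T ∈ 𝒯) :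
    2 ^ n * Nat.card (M.C n) = 𝒯.length * Nat.card Q := by
  have h := M.ncell_cnt n 𝒯 h1.1 (fun _ => True) h1.2 fun _ _ _ _ _ _ => trivial
  rw [Nat.card_congr (Equiv.subtypeUnivEquiv fun _ : Q => trivial)] at h
  rw [← h]
  congr 1
  exact Nat.card_congr (Equiv.subtypeEquivRight fun x =>
    ⟨fun hx => ⟨h2 _ x.2.1 hx, trivial⟩, fun hx => (h1.2 _ hx.1).2⟩)

theorem PM.card_C0 : Nat.card (M.C 0) = Nat.card Q := by
  simpa using M.ncell_all 0 [∅] ⟨by simp, by simp⟩ fun T _ h => by simpa using h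

theorem PM.card_C1 : 2 * Nat.card (M.C 1) = 11 * Nat.card Q :=
  M.ncell_all 1 ncellT1 (ncell_sing _ (List.nodup_finRange _)) fun T _ h => by
    obtain ⟨a, rfl⟩ := Finset.card_eq_one.1 h
    exact List.mem_map.2 ⟨a, List.mem_finRange a, rfl⟩

theorem PM.card_C2 : 4 * Nat.card (M.C 2) = 27 * Nat.card Q :=
  M.ncell_all 2 _ ncellT2_ok fun T hT h => by
    obtain ⟨e, he, rfl⟩ := clique_two hT h
    exact List.mem_map.2 ⟨e, he, rfl⟩

theorem PM.card_C3 : 4 * Nat.card (M.C 3) = 9 * Nat.card Q := by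
  have : 8 * Nat.card (M.C 3) = 18 * Nat.card Q := M.ncell_all 3 ncellT3 ncellT3_ok fun T hT h => by
    obtain ⟨e, he, rfl⟩ := clique_three hT h
    exact List.mem_map.2 ⟨e, he, rfl⟩
  omega

lemma PM.ncell_sub (n : ℕ) (𝒯 : List (Finset V)) (P : Q → Prop)
    (h1 : ncellGood n 𝒯) (h : ∀ T ∈ 𝒯, ∀ q, ∀ s ∈ T, P q → P (q * M.g s)) :
    2 ^ n * Nat.card {x : M.C n // x.1.1.2 ∈ 𝒯 ∧ P x.1.1.1} = 𝒯.length * Nat.card {q // P q} := by
  rw [← M.ncell_cnt n 𝒯 h1.1 P h1.2 h]
  congr 1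
  exact Nat.card_congr ⟨fun x => ⟨x.1.1, x.2⟩, fun x => ⟨⟨x.1, (h1.2 _ x.2.1).2⟩, x.2⟩,
    fun _ => rfl, fun _ => rfl⟩

lemma PM.ncell_one (s : V) : 2 * Nat.card {q // M.p q s = 1} = Nat.card Q := by
  have h1 := M.half (fun _ => True) s fun _ _ => trivial
  rw [← M.ncell_flip (fun _ => True) s fun _ _ => trivial,
    Nat.card_congr (Equiv.subtypeUnivEquiv fun _ : Q => trivial)] at h1
  simpa using h1

theorem PM.card_pa : Nat.card {x : M.C 1 // M.pa x} = Nat.card Q := by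
  have h := M.ncell_sub 1 [{vx0}, {vx1}] (fun _ => True) (ncell_sing [vx0, vx1] (by decide))
    fun _ _ _ _ _ _ => trivial
  rw [Nat.card_congr (Equiv.subtypeUnivEquiv fun _ : Q => trivial)] at h
  have e : Nat.card {x : M.C 1 // M.pa x} = Nat.card {x : M.C 1 //
      x.1.1.2 ∈ ([{vx0}, {vx1}] : List (Finset V)) ∧ True} :=
    Nat.card_congr (Equiv.subtypeEquivRight fun x => by simp [PM.pa])
  simp only [List.length_cons, List.length_nil] at h
  omega

lemma PM.ncell_inv (v : V) (l : List (V × V)) (h : ∀ e ∈ l, v ≠ e.1 ∧ v ≠ e.2) :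
    ∀ T ∈ ncellPr l, ∀ q, ∀ s ∈ T, M.p q v = 1 → M.p (q * M.g s) v = 1 := by
  intro T hT q s hs hq
  obtain ⟨e, he, rfl⟩ := List.mem_map.1 hT
  rw [M.p_mul_g, hq, if_neg (by rintro rfl; simp [(h e he).1, (h e he).2] at hs), add_zero]

def ncellA : List (Finset V) :=
  ncellPr [(vcB, vw), (vcB, vy0), (vcL, vw), (vcL, vx0), (vcR, vw), (vcR, vx1)]

def ncellB : List (Finset V) := ncellPr [(va0, vx0), (va1, vx1)]

def ncellC : List (Finset V) := ncellPr [(vx0, vy0), (vx0, vyh), (vx1, vy0), (vx1, vyh)]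

lemma ncell_dis : (∀ a ∈ ncellA, ∀ b ∈ ncellB, ncellCode a ≠ ncellCode b) ∧
    (∀ a ∈ ncellA, ∀ b ∈ ncellC, ncellCode a ≠ ncellCode b) ∧
    ∀ a ∈ ncellB, ∀ b ∈ ncellC, ncellCode a ≠ ncellCode b := by
  refine ⟨?_, ?_, ?_⟩ <;> decide +kernel

theorem PM.card_pb : 4 * Nat.card {x : M.C 2 // M.pb x} = 9 * Nat.card Q := by
  have h1 := M.ncell_sub 2 ncellA (fun _ => True)
    (ncell_pair _ (by decide +kernel) (by decide +kernel)) fun _ _ _ _ _ _ => trivial
  have h2 := M.ncell_sub 2 ncellB (fun q => M.p q vy0 = 1)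
    (ncell_pair _ (by decide +kernel) (by decide +kernel)) (M.ncell_inv _ _ (by decide +kernel))
  have h3 := M.ncell_sub 2 ncellC (fun q => M.p q vz = 1)
    (ncell_pair _ (by decide +kernel) (by decide +kernel)) (M.ncell_inv _ _ (by decide +kernel))
  rw [Nat.card_congr (Equiv.subtypeUnivEquiv fun _ : Q => trivial),
    show ncellA.length = 6 from rfl] at h1
  rw [show ncellB.length = 2 from rfl] at h2
  rw [show ncellC.length = 4 from rfl] at h3
  have h4 := M.ncell_one vy0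
  have h5 := M.ncell_one vz
  have e : Nat.card {x : M.C 2 // M.pb x} = Nat.card {x : M.C 2 // (x.1.1.2 ∈ ncellA ∧ True) ∨
      (x.1.1.2 ∈ ncellB ∧ M.p x.1.1.1 vy0 = 1) ∨ (x.1.1.2 ∈ ncellC ∧ M.p x.1.1.1 vz = 1)} :=
    Nat.card_congr (Equiv.subtypeEquivRight fun x => by
      simp only [PM.pb, ncellA, ncellB, ncellC, ncellPr, List.map, Finset.mem_insert,
        Finset.mem_singleton, List.mem_cons, List.not_mem_nil, or_false, and_true])
  rw [e, ncell_or _ _ fun a ha hb => hb.elim (fun hb => ncell_dis.1 _ ha.1 _ hb.1 rfl)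
      fun hb => ncell_dis.2.1 _ ha.1 _ hb.1 rfl,
    ncell_or _ _ fun a ha hb => ncell_dis.2.2 _ ha.1 _ hb.1 rfl]
  omega

theorem PM.lp_three (ε : ℝ) : lp (fun x : M.Cell => x.1.2.card) M.bd 3 ε = ld ε (M.dR 2) := by
  let _ : Fintype (M.C 2) := Fintype.ofFinite _
  let _ : Fintype (M.C (2 + 1 + 1)) := Fintype.ofFinite _
  have : IsEmpty (M.C (2 + 1 + 1)) := ⟨fun x => by
    have := clique_le x.1.2.1
    rw [x.2] at this
    omega⟩
  rw [M.lp_succ 2, ld_eq_lam, ld_eq_lam, Matrix.transpose_fromCols, Matrix.fromCols_mul_fromRows]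
  congr 1
  ext x y
  simp [Matrix.mul_apply]

lemma PM.ncell_chi [Fintype M.Cell] : ∑ x : M.Cell, (-1 : ℚ) ^ x.1.2.card = 0 := by
  classical
  rw [← Finset.sum_fiberwise_of_maps_to (t := Finset.range 4) (g := fun x : M.Cell => x.1.2.card)
    fun x _ => Finset.mem_range.2 (Nat.lt_succ_of_le (clique_le x.2.1))]
  have e : ∀ n, ∑ x ∈ Finset.univ.filter (fun x : M.Cell => x.1.2.card = n),
      (-1 : ℚ) ^ x.1.2.card = Nat.card (M.C n) * (-1) ^ n := by
    intro n
    rw [Finset.sum_congr rfl (g := fun _ => (-1 : ℚ) ^ n) fun x hx => by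
      rw [(Finset.mem_filter.1 hx).2], Finset.sum_const, nsmul_eq_mul, Nat.card_eq_fintype_card,
      Fintype.card_subtype]
  simp only [e, Finset.sum_range_succ, Finset.sum_range_zero]
  have h0 : (Nat.card (M.C 0) : ℚ) = Nat.card Q := by exact_mod_cast M.card_C0
  have h1 : (2 * Nat.card (M.C 1) : ℚ) = 11 * Nat.card Q := by exact_mod_cast M.card_C1
  have h2 : (4 * Nat.card (M.C 2) : ℚ) = 27 * Nat.card Q := by exact_mod_cast M.card_C2
  have h3 : (4 * Nat.card (M.C 3) : ℚ) = 9 * Nat.card Q := by exact_mod_cast M.card_C3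
  linarith

end

/-- The parity group as a quotient. -/
def ncellP : PM L11 (Multiplicative (V → ZMod 2)) where
  g s := parH L11 (gn L11 s)
  p q := q.toAdd
  sq s := by rw [← map_mul, gn_sq, map_one]
  cm _ _ _ := mul_comm _ _
  p_mul _ _ := rfl
  p_g s := par_gn L11 s
  gen := by
    have h : Function.Surjective (parH L11) := par_surj L11
    rw [show (fun s => parH L11 (gn L11 s)) = parH L11 ∘ gn L11 from rfl, Set.range_comp,
      ← MonoidHom.map_closure, gn_closure, ← MonoidHom.range_eq_map, MonoidHom.range_eq_top.2 h]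

theorem chi_zero : ∑ i, (-1 : ℚ) ^ degI L11 i = 0 :=
  @PM.ncell_chi _ _ _ ncellP (inferInstanceAs (Fintype (Iota L11)))

end

end Pool.Agent.Lib.MP_b65ff2_gt
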