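import Pool.Agent.Lib.MP_b65ff2_gt.NGameA

namespace Pool.Agent.Lib.MP_b65ff2_gt

open Matrix Filter Topology

set_option linter.unusedSectionVars false

noncomputable section

namespace NGame

def tA (x : Z4) : Prop := x = (1, 1) ∨ x = (3, 3)

instance : DecidablePred tA := fun x => inferInstanceAs (Decidable (x = (1, 1) ∨ x = (3, 3)))

def sw (x : Z4) : ZMod 2 := if tA x then 1 else 0

def own {n : ℕ} (P : Tor n) : Tor n :=
  if tA (c4 n P) then P + prj n (1, 1) else P + prj n (-1, 1)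

def tw {n : ℕ} (P : Tor n) : ℕ :=
  2 * idx (prj n (2, 2)) (own P) + if tA (c4 n P) then 0 else 1

variable {n : ℕ}

lemma c4_add (P : Tor n) (a b : ℤ) :
    c4 n (P + prj n (a, b)) = c4 n P + ((a : ZMod 4), (b : ZMod 4)) := by
  rw [map_add, c4_prj]

lemma prj_comb (P : Tor n) (a b c d : ℤ) :
    P + prj n (a, b) + prj n (c, d) = P + prj n (a + c, b + d) := by
  rw [add_assoc, ← prj_add]; rfl

lemma prj_zero (P : Tor n) : P + prj n (0, 0) = P := by simp [prj]

lemma sub_g (P : Tor n) : P - prj n (2, 2) = P + prj n (-2, -2) := by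
  rw [sub_eq_add_neg]; simp [prj]

lemma tw_A {o : Tor n} (ho : o ∈ HO n) : tw (o + prj n (-1, -1)) = 2 * idx (prj n (2, 2)) o := by
  have h : tA (c4 n (o + prj n (-1, -1))) := by
    rw [c4_add]; rcases ho with ho | ho <;> rw [ho] <;> decide
  rw [tw, own, if_pos h, if_pos h, prj_comb]
  norm_num [prj_zero]

lemma tw_B {o : Tor n} (ho : o ∈ HO n) : tw (o + prj n (1, -1)) = 2 * idx (prj n (2, 2)) o + 1 := by
  have h : ¬tA (c4 n (o + prj n (1, -1))) := by
    rw [c4_add]; rcases ho with ho | ho <;> rw [ho] <;> decide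
  rw [tw, own, if_neg h, if_neg h, prj_comb]
  norm_num [prj_zero]

lemma own_mem {P : Tor n} (h : col4 (c4 n P) = 1) : own P ∈ HO n := by
  rw [mem_HO, own]
  split_ifs with h1 <;> rw [c4_add] <;> revert h h1 <;> generalize c4 n P = x <;> revert x <;> decide

lemma tw_inj {P Q : Tor n} (hP : col4 (c4 n P) = 1) (hQ : col4 (c4 n Q) = 1) (h : tw P = tw Q) :
    P = Q := by
  have e : idx (prj n (2, 2)) (own P) = idx (prj n (2, 2)) (own Q) ∧
      (tA (c4 n P) ↔ tA (c4 n Q)) := by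
    unfold tw at h
    split_ifs at h with h1 h2 h2
    · exact ⟨by omega, iff_of_true h1 h2⟩
    · omega
    · omega
    · exact ⟨by omega, iff_of_false h1 h2⟩
  have e2 : own P = own Q := by
    rw [← idx_spec (gen_g n _ (own_mem hP)), ← idx_spec (gen_g n _ (own_mem hQ)), e.1]
  unfold own at e2
  by_cases h1 : tA (c4 n P)
  · rw [if_pos h1, if_pos (e.2.1 h1)] at e2; exact add_right_cancel e2
  · rw [if_neg h1, if_neg fun h => h1 (e.2.2 h)] at e2; exact add_right_cancel e2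

lemma z2 (a : ZMod 2) : a = 0 ∨ a = 1 := by revert a; decide

lemma phase (E : Tor n → Tor n → Prop) (hE : Equivalence E) (D : Set (Tor n)) (k : ℕ)
    (a b : ZMod 2) (adj : ∀ P Q, P ∈ D → Q ∈ D → (torG n).Adj P Q → E P Q)
    (hB : ∀ P, col4 (c4 n P) = 0 → (P ∈ D ↔ sw (c4 n P + (1, 1)) = a))
    (hW : ∀ P, col4 (c4 n P) = 1 → (P ∈ D ↔ sw (c4 n P) + (if tw P < k then 1 else 0) = b)) :
    ∃ z ∈ D, ∀ P ∈ D, E P z := by
  have via : ∀ (o : Tor n) (x y p q r s : ℤ), o + prj n (x, y) ∈ D →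
      col4 (c4 n (o + prj n (x, y))) ≠ 2 → o + prj n (p, q) ∈ D → o + prj n (r, s) ∈ D →
      |p - x| = 1 → |q - y| = 1 → |r - x| = 1 → |s - y| = 1 →
      (((p - x : ℤ) : ZMod 4), ((q - y : ℤ) : ZMod 4)) ≠ 0 →
      (((r - x : ℤ) : ZMod 4), ((s - y : ℤ) : ZMod 4)) ≠ 0 →
      E (o + prj n (p, q)) (o + prj n (r, s)) := by
    intro o x y p q r s h1 h2 h3 h4 e1 e2 e3 e4 n1 n2
    have a1 := adj_of n (o + prj n (x, y)) (p - x) (q - y) (Or.inr ⟨e1, e2, h2⟩) n1
    have a2 := adj_of n (o + prj n (x, y)) (r - x) (s - y) (Or.inr ⟨e3, e4, h2⟩) n2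
    rw [prj_comb, add_sub_cancel, add_sub_cancel] at a1 a2
    exact hE.trans (hE.symm (adj _ _ h1 h3 a1)) (adj _ _ h1 h4 a2)
  have cA : ∀ o ∈ HO n, col4 (c4 n (o + prj n (-1, -1))) = 1 ∧
      sw (c4 n (o + prj n (-1, -1))) = 1 := by
    intro o ho
    rw [c4_add]; rcases ho with ho | ho <;> rw [ho] <;> decide
  have cB : ∀ o ∈ HO n, col4 (c4 n (o + prj n (1, -1))) = 1 ∧
      sw (c4 n (o + prj n (1, -1))) = 0 := by
    intro o ho
    rw [c4_add]; rcases ho with ho | ho <;> rw [ho] <;> decide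
  have mA : ∀ o ∈ HO n, (o + prj n (-1, -1) ∈ D ↔
      (1 : ZMod 2) + (if 2 * idx (prj n (2, 2)) o < k then 1 else 0) = b) := by
    intro o ho
    rw [hW _ (cA o ho).1, (cA o ho).2, tw_A ho]
  have mB : ∀ o ∈ HO n, (o + prj n (1, -1) ∈ D ↔
      (0 : ZMod 2) + (if 2 * idx (prj n (2, 2)) o + 1 < k then 1 else 0) = b) := by
    intro o ho
    rw [hW _ (cB o ho).1, (cB o ho).2, tw_B ho]
  have gO : prj n (2, 2) ∈ HO n := by rw [mem_HO, c4_prj]; decide
  have hO : prj n (-2, 2) ∈ HO n := by rw [mem_HO, c4_prj]; decide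
  have hO' : prj n (2, -2) ∈ HO n := by rw [mem_HO, c4_prj]; decide
  have cls : ∃ z, ∀ P, col4 (c4 n P) = 0 → sw (c4 n P + (1, 1)) = a → E P z := by
    rcases z2 a with rfl | rfl
    · have hR : Equivalence fun o o' : Tor n => E (o + prj n (0, -2)) (o' + prj n (0, -2)) :=
        ⟨fun _ => hE.refl _, hE.symm, hE.trans⟩
      have sA : ∀ o ∈ HO n, o + prj n (-1, -1) ∈ D →
          E (o + prj n (0, -2)) (o + prj n (-2, 2) + prj n (0, -2)) := by
        intro o ho h
        rw [prj_comb]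
        refine via o (-1) (-1) _ _ _ _ h (by rw [(cA o ho).1]; decide) ((hB _ ?_).2 ?_)
          ((hB _ ?_).2 ?_) (by decide) (by decide) (by decide) (by decide) (by decide) (by decide)
        all_goals rw [c4_add]; rcases ho with ho | ho <;> rw [ho] <;> decide
      have sB : ∀ o ∈ HO n, o + prj n (1, -1) ∈ D →
          E (o + prj n (0, -2)) (o + prj n (2, 2) + prj n (0, -2)) := by
        intro o ho h
        rw [prj_comb]
        refine via o 1 (-1) _ _ _ _ h (by rw [(cB o ho).1]; decide) ((hB _ ?_).2 ?_)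
          ((hB _ ?_).2 ?_) (by decide) (by decide) (by decide) (by decide) (by decide) (by decide)
        all_goals rw [c4_add]; rcases ho with ho | ho <;> rw [ho] <;> decide
      have fin : ∀ o ∈ HO n, E (o + prj n (0, -2)) (0 + prj n (0, -2)) := by
        rcases z2 b with rfl | rfl
        · refine map2 (i := k / 2) hR gO (gen_g n) hO (gen_h n) (fun o ho h => sA o ho ?_)
            (fun o ho h => sB o ho ?_)
          · rw [mA o ho, if_pos (by omega)]; decide
          · rw [mB o ho, if_neg (by omega)]; decide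
        · refine map1 (i := k / 2) hR gO (gen_g n) hO (gen_h n) (fun o ho h => sB o ho ?_)
            (fun o ho h => sA o ho ?_)
          · rw [mB o ho, if_pos (by omega)]; decide
          · rw [mA o ho, if_neg (by omega)]; decide
      refine ⟨0 + prj n (0, -2), fun P h1 h2 => ?_⟩
      have := fin (P + prj n (0, 2)) (by
        rw [mem_HO, c4_add]; revert h1 h2; generalize c4 n P = x; revert x; decide)
      rwa [prj_comb, show (0 : ℤ) + 0 = 0 from rfl, show (2 : ℤ) + -2 = 0 from rfl,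
        prj_zero] at this
    · have sA : ∀ o ∈ HO n, o + prj n (-1, -1) ∈ D → E o (o - prj n (2, 2)) := by
        intro o ho h
        rw [sub_g]
        have := via o (-1) (-1) 0 0 (-2) (-2) h (by rw [(cA o ho).1]; decide) ((hB _ ?_).2 ?_)
          ((hB _ ?_).2 ?_) (by decide) (by decide) (by decide) (by decide) (by decide) (by decide)
        · rwa [prj_zero] at this
        all_goals rw [c4_add]; rcases ho with ho | ho <;> rw [ho] <;> decide
      have sB : ∀ o ∈ HO n, o + prj n (1, -1) ∈ D → E o (o + prj n (2, -2)) := by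
        intro o ho h
        have := via o 1 (-1) 0 0 2 (-2) h (by rw [(cB o ho).1]; decide) ((hB _ ?_).2 ?_)
          ((hB _ ?_).2 ?_) (by decide) (by decide) (by decide) (by decide) (by decide) (by decide)
        · rwa [prj_zero] at this
        all_goals rw [c4_add]; rcases ho with ho | ho <;> rw [ho] <;> decide
      have fin : ∃ z, ∀ o ∈ HO n, E o z := by
        rcases z2 b with rfl | rfl
        · refine ⟨_, map4 (i := k / 2) hE gO (gen_g n) hO' (gen_h' n) (fun o ho h => sA o ho ?_)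
            (fun o ho h => sB o ho ?_)⟩
          · rw [mA o ho, if_pos (by omega)]; decide
          · rw [mB o ho, if_neg (by omega)]; decide
        · refine ⟨_, map3 (i := k / 2) hE gO (gen_g n) hO' (gen_h' n) (fun o ho h => sB o ho ?_)
            (fun o ho h => sA o ho ?_)⟩
          · rw [mB o ho, if_pos (by omega)]; decide
          · rw [mA o ho, if_neg (by omega)]; decide
      obtain ⟨z, hz⟩ := fin
      refine ⟨z, fun P h1 h2 => hz P ?_⟩
      rw [mem_HO]; revert h1 h2; generalize c4 n P = x; revert x; decide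
  obtain ⟨z, hz⟩ := cls
  have ex : ∃ P, col4 (c4 n P) = 0 ∧ sw (c4 n P + (1, 1)) = a := by
    rcases z2 a with rfl | rfl
    · exact ⟨prj n (0, 2), by rw [c4_prj]; decide⟩
    · exact ⟨prj n (0, 0), by rw [c4_prj]; decide⟩
  obtain ⟨z0, z1, z2⟩ := ex
  refine ⟨z0, (hB _ z1).2 z2, fun P hP => hE.trans ?_ (hE.symm (hz z0 z1 z2))⟩
  have step : ∀ p q : ℤ, (|p| + |q| = 1 ∨ (|p| = 1 ∧ |q| = 1 ∧ col4 (c4 n P) ≠ 2)) →
      ((p : ZMod 4), (q : ZMod 4)) ≠ 0 → col4 (c4 n P + ((p : ZMod 4), (q : ZMod 4))) = 0 →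
      sw (c4 n P + ((p : ZMod 4), (q : ZMod 4)) + (1, 1)) = a → E P z := by
    intro p q h1 h2 h3 h4
    rw [← c4_add] at h3 h4
    exact hE.trans (adj _ _ hP ((hB _ h3).2 h4) (adj_of n P p q h1 h2)) (hz _ h3 h4)
  have key : ∀ (x : Z4) (a : ZMod 2), col4 x = 0 ∨ ∃ v ∈ ([(1, 0), (-1, 0), (0, 1), (0, -1), (1, 1),
      (1, -1)] : List (ℤ × ℤ)), (|v.1| + |v.2| = 1 ∨ (|v.1| = 1 ∧ |v.2| = 1 ∧ col4 x ≠ 2)) ∧
      ((v.1 : ZMod 4), (v.2 : ZMod 4)) ≠ 0 ∧ col4 (x + ((v.1 : ZMod 4), (v.2 : ZMod 4))) = 0 ∧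
      sw (x + ((v.1 : ZMod 4), (v.2 : ZMod 4)) + (1, 1)) = a := by decide
  rcases key (c4 n P) a with h | ⟨v, _, h1, h2, h3, h4⟩
  · exact hz P h ((hB P h).1 hP)
  · exact step _ _ h1 h2 h3 h4

lemma conn_of {T : Type} (Γ : SimpleGraph T) (D : Set T)
    (h : ∀ E : T → T → Prop, Equivalence E → (∀ P Q, P ∈ D → Q ∈ D → Γ.Adj P Q → E P Q) →
      ∃ z ∈ D, ∀ P ∈ D, E P z) : (Γ.induce D).Connected := by
  obtain ⟨z, hz, h1⟩ := h (fun P Q => (P ∈ D ↔ Q ∈ D) ∧
      ∀ hP hQ, (Γ.induce D).Reachable ⟨P, hP⟩ ⟨Q, hQ⟩)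
    ⟨fun _ => ⟨Iff.rfl, fun _ _ => .refl _⟩, fun h => ⟨h.1.symm, fun a b => (h.2 b a).symm⟩,
      fun h1 h2 => ⟨h1.1.trans h2.1, fun a b => (h1.2 a (h1.1.1 a)).trans (h2.2 _ b)⟩⟩
    (fun P Q hP hQ h => ⟨iff_of_true hP hQ, fun _ _ => SimpleGraph.Adj.reachable h⟩)
  have : Nonempty D := ⟨⟨z, hz⟩⟩
  exact ⟨fun P Q => ((h1 P.1 P.2).2 P.2 hz).trans ((h1 Q.1 Q.2).2 Q.2 hz).symm⟩

lemma adj_shift {P Q : Tor n} (h : (torG n).Adj P Q) :
    (torG n).Adj (P + prj n (-1, -1)) (Q + prj n (-1, -1)) := by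
  obtain ⟨h0, A, B, h1, rfl, rfl⟩ := h
  refine ⟨fun e => h0 (add_right_cancel e), A + (-1, -1), B + (-1, -1), ?_, prj_add _ _ _,
    prj_add _ _ _⟩
  simp only [plane, Prod.fst_add, Prod.snd_add, add_sub_add_right_eq_sub] at h1 ⊢
  exact h1.imp_right fun h => ⟨h.1, h.2.1, by omega⟩

def Mw (n : ℕ) : ℕ := (Finset.univ.sup fun P : Tor n => tw P) + 1

lemma tw_lt (P : Tor n) : tw P < Mw n :=
  Nat.lt_succ_of_le (Finset.le_sup (f := fun P : Tor n => tw P) (Finset.mem_univ P))

def tau (enc : Tor n → ℕ) (P : Tor n) : ℕ :=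
  if col4 (c4 n P) = 1 then tw P
  else if col4 (c4 n P) = 0 then Mw n + tw (P + prj n (1, 1)) else 2 * Mw n + enc P

def sgT (P : Tor n) : ZMod 2 :=
  if col4 (c4 n P) = 1 then sw (c4 n P) else sw (c4 n P + (1, 1))

lemma tau_inj {enc : Tor n → ℕ} (he : Function.Injective enc) : Function.Injective (tau enc) := by
  intro P Q h
  have b1 := tw_lt P
  have b2 := tw_lt Q
  have b3 := tw_lt (P + prj n (1, 1))
  have b4 := tw_lt (Q + prj n (1, 1))
  have sh : ∀ P : Tor n, col4 (c4 n P) = 0 → col4 (c4 n (P + prj n (1, 1))) = 1 := by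
    intro P; rw [c4_add]; generalize c4 n P = x; revert x; decide
  unfold tau at h
  split_ifs at h with h1 h2 h3 h4 h5 h6 h7 h8
  · exact tw_inj h1 h2 h
  · omega
  · omega
  · omega
  · exact add_right_cancel (tw_inj (sh _ h4) (sh _ h6) (by omega))
  · omega
  · omega
  · omega
  · exact he (by omega)

lemma z2_iff (e s t : ZMod 2) : e + s + t = 0 ↔ s + t = e := by revert e s t; decide

end NGame

open NGame in
theorem game (n : ℕ) : ∃ τ sg, Game (torG n) (colT n) τ sg := by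
  obtain ⟨enc, he⟩ := exists_injective_nat (Tor n)
  refine ⟨tau enc, sgT, tau_inj he, col_ne n, ⟨prj n (1, 1), prj n (3, 3), prj n (1, 3), ?_⟩,
    fun k ε => conn_of _ _ fun E hE adj => ?_⟩
  · refine ⟨?_, ?_, fun e => ?_, ?_, ?_⟩
    · rw [colT_prj, colT_prj]; decide
    · rw [colT_prj, colT_prj]; decide
    · have := congrArg (c4 n) e
      rw [c4_prj, c4_prj] at this
      revert this; decide
    · unfold sgT; rw [c4_prj, c4_prj]; decide
    · unfold sgT; rw [c4_prj, c4_prj]; decide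
  rcases le_total k (Mw n) with hk | hk
  · refine phase E hE _ k (ε 0) (ε 1) adj (fun P h => ?_) (fun P h => ?_)
    · have h1 : col4 (c4 n P) ≠ 1 := by rw [h]; decide
      rw [Set.mem_ofPred_eq, colT_eq, sgT, tau, if_neg h1, if_neg h1, if_pos h, h,
        if_neg (by omega), z2_iff, add_zero]
    · rw [Set.mem_ofPred_eq, colT_eq, sgT, tau, if_pos h, if_pos h, h, z2_iff]
  · refine (phase (fun P Q => E (P + prj n (-1, -1)) (Q + prj n (-1, -1)))
      ⟨fun _ => hE.refl _, hE.symm, hE.trans⟩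
      {Q | Q + prj n (-1, -1) ∈ {P | ε (colT n P) + sgT P +
        (if tau enc P < k then 1 else 0) = 0}} (k - Mw n) (ε 1 + 1) (ε 0)
      (fun P Q hP hQ h => adj (P + prj n (-1, -1)) (Q + prj n (-1, -1))
        (Set.mem_ofPred_eq ▸ hP) (Set.mem_ofPred_eq ▸ hQ) (adj_shift h))
      (fun P h => ?_) (fun P h => ?_)).elim fun z hz => ?_
    · have h1 : col4 (c4 n (P + prj n (-1, -1))) = 1 := by
        rw [c4_add]; revert h; generalize c4 n P = x; revert x; decide
      have := tw_lt (P + prj n (-1, -1))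
      rw [Set.mem_ofPred_eq, Set.mem_ofPred_eq, colT_eq, sgT, tau, if_pos h1, if_pos h1, h1,
        if_pos (by omega), c4_add]
      generalize c4 n P = x; generalize ε 1 = e; revert x e; decide
    · have h0 : col4 (c4 n (P + prj n (-1, -1))) = 0 := by
        rw [c4_add]; revert h; generalize c4 n P = x; revert x; decide
      have h1 : col4 (c4 n (P + prj n (-1, -1))) ≠ 1 := by rw [h0]; decide
      have e : P + prj n (-1, -1) + prj n (1, 1) = P := by
        rw [prj_comb]; exact prj_zero P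
      have e2 : c4 n (P + prj n (-1, -1)) + (1, 1) = c4 n P := by
        rw [c4_add]; generalize c4 n P = x; revert x; decide
      rw [Set.mem_ofPred_eq, Set.mem_ofPred_eq, colT_eq, sgT, tau, if_neg h1, if_neg h1, if_pos h0,
        h0, e, e2, z2_iff]
      have : Mw n + tw P < k ↔ tw P < k - Mw n := by omega
      simp only [this]
    · obtain ⟨hz, h⟩ := hz
      refine ⟨z + prj n (-1, -1), Set.mem_ofPred_eq ▸ hz, fun P hP => ?_⟩
      have e : P + prj n (1, 1) + prj n (-1, -1) = P := by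
        rw [prj_comb]; exact prj_zero P
      have := h (P + prj n (1, 1)) (by rw [Set.mem_ofPred_eq, e]; exact hP)
      rwa [e] at this

end

end Pool.Agent.Lib.MP_b65ff2_gt
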