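import Pool.Agent.Lib.MP_b65ff2_gt.NL11

namespace Pool.Agent.Lib.MP_b65ff2_gt

open Matrix Filter Topology

set_option linter.unusedSectionVars false

noncomputable section

/-- Abstract Morse lemma: a property that spreads along edges in the bottom levels holds on all of
the bottom levels, when descending links are connected. -/
lemma njnw_morse {T H : Type} [Group H] (r : T → H) (sq : ∀ P, r P * r P = 1) (F : H → ℤ)
    (F0 : ∀ x, 0 ≤ F x) (R0 : ℤ) (B : H → Prop) (ne : ∀ x P, F (x * r P) ≠ F x)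
    (low : ∀ x P, F x ≤ R0 → F (x * r P) ≤ R0 → B x → B (x * r P))
    (conn : ∀ x, R0 < F x → ∀ P R, F (x * r P) < F x → F (x * r R) < F x →
      Relation.ReflTransGen (fun P R => F (x * r P) < F x ∧ F (x * r R) < F x ∧
        r P * r R = r R * r P ∧ F (x * r P * r R) < F x) P R)
    (h1 : F 1 ≤ R0) (b1 : B 1) {x : H} (hx : x ∈ Subgroup.closure (Set.range r))
    (hF : F x ≤ R0) : B x := by
  let St : H → H → Prop := fun a b => R0 < F a ∧ F b < F a ∧ ∃ P, b = a * r P
  let G : H → Prop := fun x => ∃ y, Relation.ReflTransGen St x y ∧ F y ≤ R0 ∧ B y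
  have base : ∀ x, F x ≤ R0 → G x → B x := by
    rintro x hx ⟨y, hy, h2, h3⟩
    rcases hy.cases_head with rfl | ⟨c, hc, -⟩
    · exact h3
    · exact absurd hc.1 (not_lt.2 hx)
  have cancel : ∀ x P, x * r P * r P = x := fun x P => by rw [mul_assoc, sq, mul_one]
  have key : ∀ n : ℕ, ∀ x P, F x < n → F (x * r P) < n → G x → G (x * r P) := by
    intro n
    induction n with
    | zero => intro x P h; exact absurd (F0 x) (by simpa using h)
    | succ n ih =>
      intro x P hx hP hG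
      push_cast at hx hP
      by_cases ha : F x ≤ R0 ∧ F (x * r P) ≤ R0
      · exact ⟨_, .refl, ha.2, low x P ha.1 ha.2 (base x ha.1 hG)⟩
      rcases lt_or_gt_of_ne (ne x P) with hlt | hlt
      · have hR : R0 < F x := by
          by_contra hc
          exact ha ⟨not_lt.1 hc, by omega⟩
        obtain ⟨y, hy, h2, h3⟩ := hG
        rcases hy.cases_head with rfl | ⟨c, ⟨-, hc, R, rfl⟩, hcy⟩
        · omega
        have hG' : G (x * r R) := ⟨y, hcy, h2, h3⟩
        have hw := conn x hR R P hc hlt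
        clear hlt hP ha
        induction hw with
        | refl => exact hG'
        | @tail b c _ hbc ih2 =>
          obtain ⟨e1, e2, e3, e4⟩ := hbc
          have g1 : G (x * r b * r c) := ih _ _ (by omega) (by omega) ih2
          have e5 : x * r b * r c = x * r c * r b := by rw [mul_assoc, e3, mul_assoc]
          rw [e5] at g1 e4
          have g2 := ih _ b (by omega) (by rw [cancel]; omega) g1
          rwa [cancel] at g2
      · have hR : R0 < F (x * r P) := by
          by_contra hc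
          exact ha ⟨by omega, not_lt.1 hc⟩
        obtain ⟨y, hy, h2, h3⟩ := hG
        exact ⟨y, .head ⟨hR, hlt, P, (cancel x P).symm⟩ hy, h2, h3⟩
  refine base x hF (ind_right sq (P := G) ⟨1, .refl, h1, b1⟩ (fun w s hw => ?_) hx)
  refine key ((F w).toNat + (F (w * r s)).toNat + 1) w s ?_ ?_ hw
  · have := F0 w
    have := F0 (w * r s)
    push_cast
    omega
  · have := F0 w
    have := F0 (w * r s)
    push_cast
    omega

lemma njnw_cut {T : Type} [Finite T] {τ : T → ℕ} (hτ : Function.Injective τ) (S : T → Prop)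
    (h : ∀ P R, S P → τ R < τ P → S R) : ∃ k, ∀ P, S P ↔ τ P < k := by
  by_cases hS : ∃ P, S P
  · obtain ⟨P0, h0, hm⟩ := Set.exists_max_image {P | S P} τ (Set.toFinite _) hS
    refine ⟨τ P0 + 1, fun P => ⟨fun hP => Nat.lt_succ_of_le (hm P hP), fun hP => ?_⟩⟩
    rcases (Nat.lt_succ_iff.1 hP).eq_or_lt with e | e
    · rw [hτ e]; exact h0
    · exact h _ _ h0 e
  · exact ⟨0, fun P => ⟨fun hP => absurd ⟨P, hP⟩ hS, fun hP => absurd hP (Nat.not_lt_zero _)⟩⟩

/-- Far from the origin two different values of a linear form are not both small. -/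
lemma njnw_small {A B C M t u : ℤ} (hC : 0 ≤ C) (t0 : 0 ≤ t) (tM : t ≤ M)
    (hne : t ≠ u) (h1 : |A + 2 * t * B| ≤ C) (h2 : |A + 2 * u * B| ≤ C) :
    A ^ 2 + B ^ 2 ≤ (C + 2 * M * C) ^ 2 + C ^ 2 := by
  have hB : |B| ≤ C := by
    have e : 2 * (|t - u| * |B|) = |(A + 2 * t * B) - (A + 2 * u * B)| := by
      rw [show (A + 2 * t * B) - (A + 2 * u * B) = 2 * ((t - u) * B) by ring, abs_mul, abs_mul]
      simp
    have e2 := abs_sub (A + 2 * t * B) (A + 2 * u * B)
    have e3 : 1 ≤ |t - u| := Int.one_le_abs (sub_ne_zero.2 hne)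
    nlinarith [abs_nonneg B]
  have hA : |A| ≤ C + 2 * M * C := by
    have e := abs_sub (A + 2 * t * B) (2 * t * B)
    rw [add_sub_cancel_right, abs_mul, abs_of_nonneg (by omega : 0 ≤ 2 * t)] at e
    have : t * |B| ≤ M * C := mul_le_mul tM hB (abs_nonneg _) (by omega)
    nlinarith
  have e1 : A ^ 2 ≤ (C + 2 * M * C) ^ 2 := by
    rw [← sq_abs A]; exact pow_le_pow_left₀ (abs_nonneg _) hA 2
  have e2 : B ^ 2 ≤ C ^ 2 := by
    rw [← sq_abs B]; exact pow_le_pow_left₀ (abs_nonneg _) hB 2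
  omega

lemma njnw_fg {H : Type} [Group H] {P K : Subgroup H} (h : K ≤ P) (hK : K.FG) :
    (K.subgroupOf P).FG := by
  rw [← Group.fg_iff_subgroup_fg] at hK ⊢
  exact Group.fg_of_surjective (f := (Subgroup.subgroupOfEquivOfLe h).symm.toMonoidHom)
    (Subgroup.subgroupOfEquivOfLe h).symm.surjective

theorem jnw {T H : Type} [Finite T] [Group H] {Γ : SimpleGraph T} {col : T → Fin 3} {τ : T → ℕ}
    {sg : T → ZMod 2} (hg : Game Γ col τ sg) (r : T → H)
    (gen : Subgroup.closure (Set.range r) = ⊤) (sq : ∀ P, r P * r P = 1)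
    (cm : ∀ P R, Γ.Adj P R → r P * r R = r R * r P) (π : H → Fin 3 → ZMod 2) (π1 : π 1 = 0)
    (hπ : ∀ g P, π (g * r P) = π g + Pi.single (col P) 1) (Φ : H → ℤ × ℤ) (Φ1 : Φ 1 = 0)
    (hΦ : ∀ g P, Φ (g * r P) =
      Φ g + (if π g (col P) + sg P = 0 then (1 : ℤ) else -1) • ((1 : ℤ), 2 * (τ P : ℤ))) :
    Fib H := by
  classical
  obtain ⟨hτ, hcol, ⟨P0, R0, U0, c1, c2, n1, s1, s2⟩, hcon⟩ := hg
  have top : ∀ w : H, w ∈ Subgroup.closure (Set.range r) := fun w => gen ▸ Subgroup.mem_top w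
  have πm : ∀ g h, π (g * h) = π g + π h := fun g h =>
    ind_right sq (P := fun h => π (g * h) = π g + π h) (by simp [π1])
      (fun w s hw => by rw [← mul_assoc, hπ, hw, hπ, add_assoc]) (top h)
  have Φm : ∀ g h, π g = 0 → Φ (g * h) = Φ g + Φ h := fun g h hg =>
    ind_right sq (P := fun h => Φ (g * h) = Φ g + Φ h) (by simp [Φ1])
      (fun w s hw => by rw [← mul_assoc, hΦ, hw, hΦ, πm, hg, zero_add, add_assoc]) (top h)
  let πH : H →* Multiplicative (Fin 3 → ZMod 2) :=
    { toFun := fun g => .ofAdd (π g), map_one' := by simp [π1]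
      map_mul' := fun a b => by rw [πm, ofAdd_add] }
  have memP : ∀ g, g ∈ πH.ker ↔ π g = 0 := fun g => Iff.rfl
  let φ : πH.ker →* Multiplicative (ℤ × ℤ) :=
    { toFun := fun g => .ofAdd (Φ g.1), map_one' := by simp [Φ1]
      map_mul' := fun a b => by
        rw [Subgroup.coe_mul, Φm _ _ ((memP _).1 a.2), ofAdd_add] }
  have two : (1 + 1 : ZMod 2) = 0 := rfl
  have z2 : ∀ a : ZMod 2, a = 0 ∨ a = 1 := by decide
  refine ⟨πH.ker, inferInstance, φ, ?_, ?_⟩
  swap
  · have hm : ∀ R, col P0 = col R → r P0 * r R ∈ πH.ker := fun R hR => by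
      rw [memP, hπ, ← one_mul (r P0), hπ, π1, zero_add, hR, ← Pi.single_add, two, Pi.single_zero]
    have hv : ∀ R, col P0 = col R → Φ (r P0 * r R) =
        (if sg P0 = 0 then (1 : ℤ) else -1) • ((1 : ℤ), 2 * (τ P0 : ℤ)) +
          (if 1 + sg R = 0 then (1 : ℤ) else -1) • ((1 : ℤ), 2 * (τ R : ℤ)) := fun R hR => by
      rw [hΦ, ← one_mul (r P0), hΦ, hπ, π1, Φ1, ← hR]
      simp
    refine ⟨⟨_, hm R0 c1⟩, ⟨_, hm U0 c2⟩, ?_⟩
    have n2 : (τ P0 : ℤ) ≠ τ R0 := fun h => n1 (hτ (by exact_mod_cast h))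
    change (Φ (r P0 * r R0)).1 * (Φ (r P0 * r U0)).2 ≠ (Φ (r P0 * r R0)).2 * (Φ (r P0 * r U0)).1
    rw [hv R0 c1, hv U0 c2, ← s1]
    rcases z2 (sg P0) with h | h <;> rcases z2 (sg U0) with h' | h'
    · exact absurd (h.trans h'.symm) s2
    · simp [h, h', two]; omega
    · simp [h, h', two]; omega
    · exact absurd (h.trans h'.symm) s2
  -- the kernel is finitely generated
  obtain ⟨M0, hM0⟩ := (Set.toFinite (Set.range τ)).bddAbove
  obtain ⟨M, M0', hM⟩ : ∃ M : ℤ, 0 ≤ M ∧ ∀ P, (τ P : ℤ) ≤ M :=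
    ⟨(M0 : ℕ), Int.natCast_nonneg _, fun P => by exact_mod_cast hM0 ⟨P, rfl⟩⟩
  obtain ⟨C, hC⟩ : ∃ C : ℤ, C = 2 * (1 + 4 * M ^ 2) := ⟨_, rfl⟩
  have C0 : 0 ≤ C := by rw [hC]; positivity
  obtain ⟨Rz, hRz⟩ : ∃ Rz : ℤ, Rz = (C + 2 * M * C) ^ 2 + C ^ 2 := ⟨_, rfl⟩
  let F : H → ℤ := fun g => (Φ g).1 ^ 2 + (Φ g).2 ^ 2
  let e : H → T → ℤ := fun g P => if π g (col P) + sg P = 0 then 1 else -1
  let l : H → T → ℤ := fun g P => (Φ g).1 + 2 * τ P * (Φ g).2
  have e1 : ∀ g P, e g P = 1 ∨ e g P = -1 := fun g P => by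
    simp only [e]; split_ifs <;> simp
  have hF : ∀ g P, F (g * r P) = F g + 2 * (e g P * l g P) + 1 + 4 * (τ P : ℤ) ^ 2 := fun g P => by
    simp only [F, l, hΦ]
    change ((Φ g).1 + e g P * 1) ^ 2 + ((Φ g).2 + e g P * (2 * τ P)) ^ 2 = _
    rcases e1 g P with h | h <;> rw [h] <;> ring
  have tb : ∀ P R, (τ P : ℤ) * τ R ≤ M ^ 2 := fun P R => by
    rw [pow_two]; exact mul_le_mul (hM P) (hM R) (Int.natCast_nonneg _) M0'
  have tb2 : ∀ P, (τ P : ℤ) ^ 2 ≤ M ^ 2 := fun P => by rw [pow_two]; exact tb P P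
  have small : ∀ g, Rz < F g → ∀ P R, P ≠ R → C < |l g P| ∨ C < |l g R| := fun g hg P R hPR => by
    by_contra hc
    push Not at hc
    exact absurd (njnw_small C0 (Int.natCast_nonneg _) (hM P)
      (fun h => hPR (hτ (by exact_mod_cast h))) hc.1 hc.2) (not_le.2 (hRz ▸ hg))
  have corner : ∀ g, Rz < F g → ∀ P R, Γ.Adj P R → F (g * r P) < F g → F (g * r R) < F g →
      F (g * r P * r R) < F g := fun g hg P R hPR h1 h2 => by
    have ee : e (g * r P) R = e g R := by
      simp only [e, hπ, Pi.add_apply, Pi.single_eq_of_ne (hcol P R hPR).symm, add_zero]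
    have ll : l (g * r P) R = l g R + e g P * (1 + 4 * (τ P * τ R)) := by
      simp only [l, hΦ]
      change (Φ g).1 + e g P * 1 + 2 * τ R * ((Φ g).2 + e g P * (2 * τ P)) = _
      ring
    rw [hF] at h1 h2
    rw [hF, hF, ee, ll]
    have := tb P R
    have := tb2 P
    have := tb2 R
    have : 0 ≤ (τ P : ℤ) * τ R := by positivity
    have : 0 ≤ (τ P : ℤ) ^ 2 := by positivity
    have : 0 ≤ (τ R : ℤ) ^ 2 := by positivity
    rcases e1 g P with h | h <;> rcases e1 g R with h' | h' <;> rw [h] at h1 <;> rw [h'] at h2 <;>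
      rw [h, h'] <;> rcases small g hg P R hPR.ne with hs | hs <;> rcases lt_abs.1 hs with hs | hs <;>
      linarith
  have dset : ∀ g, Rz < F g → ∃ (k : ℕ) (ε : Fin 3 → ZMod 2), ∀ P, F (g * r P) < F g ↔
      ε (col P) + sg P + (if τ P < k then 1 else 0) = 0 := fun g hg => by
    let S : T → Prop := fun P => F (g * r P) < F g ↔ e g P = 1
    have neg : ∀ P, l g P < -C → S P := fun P hP => by
      have := tb2 P
      have : 0 ≤ (τ P : ℤ) ^ 2 := by positivity
      simp only [S, hF]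
      rcases e1 g P with h | h <;> rw [h]
      · exact ⟨fun _ => rfl, fun _ => by linarith⟩
      · exact ⟨fun _ => by linarith, fun h => by omega⟩
    have pos : ∀ P, C < l g P → ¬S P := fun P hP => by
      have := tb2 P
      have : 0 ≤ (τ P : ℤ) ^ 2 := by positivity
      simp only [S, hF]
      rcases e1 g P with h | h <;> rw [h]
      · exact fun h => by linarith [h.2 rfl]
      · exact fun h => by linarith [h.1 (by linarith)]
    have tr : ∀ P R, P ≠ R → l g R ≤ l g P → S P → S R := fun P R hPR hl hP => by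
      have h1 : l g P ≤ C := not_lt.1 fun h => pos P h hP
      rcases small g hg P R hPR with hs | hs <;> rcases lt_abs.1 hs with hs | hs
      · linarith
      · exact neg R (by linarith)
      · linarith
      · exact neg R (by linarith)
    have mono : ∀ P R, τ R < τ P → l g P - l g R = 2 * ((τ P - τ R) * (Φ g).2) ∧
        (0 : ℤ) ≤ τ P - τ R ∧ P ≠ R := fun P R h =>
      ⟨by simp only [l]; ring, by omega, fun h' => by rw [h'] at h; omega⟩
    rcases le_total 0 (Φ g).2 with hB | hB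
    · obtain ⟨k, hk⟩ := njnw_cut hτ S fun P R hP h => by
        obtain ⟨a1, a2, a3⟩ := mono P R h
        exact tr P R a3 (by linarith [mul_nonneg a2 hB]) hP
      refine ⟨k, π g + 1, fun P => ?_⟩
      have := hk P
      simp only [S, e] at this
      simp only [Pi.add_apply, Pi.one_apply]
      rw [add_right_comm (π g (col P))]
      rcases z2 (π g (col P) + sg P) with h | h <;> rw [h] at this ⊢ <;>
        by_cases h2 : τ P < k <;> simp [h2, two] at this ⊢ <;> exact this
    · obtain ⟨k, hk⟩ := njnw_cut hτ (fun P => ¬S P) fun P R hP h => by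
        obtain ⟨a1, a2, a3⟩ := mono P R h
        exact fun hR => hP (tr R P a3.symm (by linarith [mul_nonneg a2 (neg_nonneg.2 hB)]) hR)
      refine ⟨k, π g, fun P => ?_⟩
      have := hk P
      simp only [S, e] at this
      rcases z2 (π g (col P) + sg P) with h | h <;> rw [h] at this ⊢ <;>
        by_cases h2 : τ P < k <;> simp [h2, two] at this ⊢ <;> exact this
  let c : H → (Fin 3 → ZMod 2) × (ℤ × ℤ) := fun g => (π g, Φ g)
  let σ : (Fin 3 → ZMod 2) × (ℤ × ℤ) → H := Function.invFun c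
  have hσ : ∀ g, c (σ (c g)) = c g := fun g => Function.invFun_eq ⟨g, rfl⟩
  have cr : ∀ g g' P, c g = c g' → c (g * r P) = c (g' * r P) := fun g g' P h => by
    obtain ⟨h1, h2⟩ := Prod.mk.inj h
    simp only [c, hπ, hΦ, h1, h2]
  let K : Subgroup H := φ.ker.map πH.ker.subtype
  have memK : ∀ g, g ∈ K ↔ π g = 0 ∧ Φ g = 0 := fun g =>
    ⟨by rintro ⟨a, ha, rfl⟩; exact ⟨a.2, ha⟩, fun h => ⟨⟨g, h.1⟩, h.2, rfl⟩⟩
  have cK : ∀ a b, c a = c b → a * b⁻¹ ∈ K := fun a b h => by
    obtain ⟨h1, h2⟩ := Prod.mk.inj h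
    have p1 : π (a * b⁻¹) = 0 := by
      have := πm (a * b⁻¹) b
      rw [inv_mul_cancel_right, h1] at this
      simpa using this
    have := Φm (a * b⁻¹) b p1
    rw [inv_mul_cancel_right, h2] at this
    exact (memK _).2 ⟨p1, by simpa using this⟩
  let D : Set ((Fin 3 → ZMod 2) × (ℤ × ℤ)) := {x | x ∈ Set.range c ∧ x.2.1 ^ 2 + x.2.2 ^ 2 ≤ Rz}
  have Dfin : D.Finite := by
    refine ((Set.toFinite (Set.univ : Set (Fin 3 → ZMod 2))).prod
      ((Set.finite_Icc (-Rz) Rz).prod (Set.finite_Icc (-Rz) Rz))).subset ?_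
    rintro ⟨p, a, b⟩ ⟨-, h⟩
    simp only at h
    refine ⟨trivial, ⟨?_, ?_⟩, ?_, ?_⟩ <;> simp only <;>
      nlinarith [sq_nonneg a, sq_nonneg b, Int.le_self_sq a, Int.le_self_sq b, Int.le_self_sq (-a),
        Int.le_self_sq (-b)]
  let A : Set H := insert (σ (c 1))⁻¹
    ((fun x : ((Fin 3 → ZMod 2) × (ℤ × ℤ)) × T => σ x.1 * r x.2 * (σ (c (σ x.1 * r x.2)))⁻¹) ''
      (D ×ˢ Set.univ))
  have Afin : A.Finite := ((Dfin.prod (Set.toFinite _)).image _).insert _
  have hK : K.FG := by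
    refine (Subgroup.fg_iff K).2 ⟨A, le_antisymm ?_ fun g hg => ?_, Afin⟩
    · rw [Subgroup.closure_le]
      rintro _ (rfl | ⟨x, -, rfl⟩)
      · simpa using cK 1 _ (hσ 1).symm
      · exact cK _ _ (hσ _).symm
    · obtain ⟨g1, g2⟩ := (memK g).1 hg
      have R0' : 0 ≤ Rz := by rw [hRz]; positivity
      have a1 : (σ (c 1))⁻¹ ∈ Subgroup.closure A := Subgroup.subset_closure (.inl rfl)
      have := njnw_morse r sq F (fun x => by positivity) Rz
        (fun x => x * (σ (c x))⁻¹ ∈ Subgroup.closure A) (fun x P => by rw [hF]; omega)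
        (fun x P h1 _ h3 => by
          have h4 : σ (c x) * r P * (σ (c (σ (c x) * r P)))⁻¹ ∈ Subgroup.closure A :=
            Subgroup.subset_closure (.inr ⟨(c x, P), ⟨⟨⟨x, rfl⟩, h1⟩, trivial⟩, rfl⟩)
          rw [cr _ _ P (hσ x)] at h4
          simpa [mul_assoc] using Subgroup.mul_mem _ h3 h4)
        (fun x hx P R h1 h2 => by
          obtain ⟨k, ε, hk⟩ := dset x hx
          have hw := (SimpleGraph.reachable_iff_reflTransGen _ _).1
            ((hcon k ε).preconnected ⟨P, (hk P).1 h1⟩ ⟨R, (hk R).1 h2⟩)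
          refine Relation.ReflTransGen.lift Subtype.val (fun a b hab => ?_) _ _ hw
          have ha := (hk a.1).2 a.2
          have hb := (hk b.1).2 b.2
          exact ⟨ha, hb, cm _ _ hab, corner x hx _ _ hab ha hb⟩)
        (by simpa [F, Φ1] using R0') (by simpa using a1) (top g) (by simpa [F, g2] using R0')
      have e2 : c g = c 1 := by simp only [c, g1, g2, π1, Φ1]
      rw [e2] at this
      simpa using Subgroup.mul_mem _ this (Subgroup.inv_mem _ a1)
  have := njnw_fg (Subgroup.map_subtype_le φ.ker) hK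
  rwa [Subgroup.subgroupOf, Subgroup.comap_map_eq_self_of_injective πH.ker.subtype_injective] at this

theorem Fib.of_subgroup {H : Type} [Group H] (R : Subgroup H) [R.FiniteIndex] (h : Fib R) :
    Fib H := by
  obtain ⟨P, hP, φ, hφ, a, b, hab⟩ := h
  let e := P.equivMapOfInjective R.subtype R.subtype_injective
  refine ⟨P.map R.subtype, ⟨?_⟩, φ.comp e.symm.toMonoidHom, ?_, e a, e b, by simpa using hab⟩
  · rw [Subgroup.index_map_subtype]
    exact mul_ne_zero hP.index_ne_zero Subgroup.FiniteIndex.index_ne_zero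
  · rw [← Group.fg_iff_subgroup_fg] at hφ ⊢
    let f : φ.ker →* (φ.comp e.symm.toMonoidHom).ker :=
      (e.toMonoidHom.comp φ.ker.subtype).codRestrict _ fun x => by
        change φ (e.symm (e x.1)) = 1
        rw [e.symm_apply_apply]
        exact x.2
    exact Group.fg_of_surjective (f := f) fun y =>
      ⟨⟨e.symm y.1, y.2⟩, Subtype.ext (e.apply_symm_apply y.1)⟩

end

end Pool.Agent.Lib.MP_b65ff2_gt
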