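import Pool.Agent.Lib.MP_b65ff2_gt.NFil
import Pool.Agent.Lib.MP_b65ff2_gt.NGame
import Pool.Agent.Lib.MP_b65ff2_gt.NJnw

namespace Pool.Agent.Lib.MP_b65ff2_gt

open Matrix Filter Topology

set_option linter.unusedSectionVars false

noncomputable section

def nfib_r (n : ℕ) (P : Tor n) : Fil n := psi n (rr (P.1.val, P.2.val))

lemma nfib_prj (n : ℕ) (P : Tor n) : prj n (P.1.val, P.2.val) = P := by
  simp [prj]

lemma nfib_r_prj (n : ℕ) (A : ℤ × ℤ) : nfib_r n (prj n A) = psi n (rr A) :=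
  psi_rr (nfib_prj n _)

lemma nfib_col (A : ℤ × ℤ) : colZ (base (typ A)) = colZ A := by
  unfold typ
  split_ifs <;> simp +decide only [colZ, if_true, if_false] <;> split_ifs <;>
    first | rfl | omega

lemma nfib_pos (A : ℤ × ℤ) : pos (A.1 / 2) A.2 (typ A) = A := by
  unfold typ
  split_ifs <;> simp +decide only [base, pos, if_true, if_false] <;> ext <;> dsimp only <;>
    split_ifs <;> omega

lemma nfib_cases : ∀ s : V, s ≠ vz → s ∈ Six ∨ s ∈ XY := by decide

lemma nfib_xy : ∀ s ∈ XY, s ∉ Six ∧ s ≠ vz := by decide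

lemma nfib_six : ∀ s ∈ Six, s ≠ vz := by decide

lemma nfib_adj1 : ∀ s ∈ Six, ∀ t ∈ Six, L11.Adj s t → colZ (base t) ≠ colZ (base s) := by decide

lemma nfib_adj2 : ∀ s ∈ XY, ∀ t ∈ Six, L11.Adj s t → mir s (base t) = base t := by decide

lemma nfib_pi (n : ℕ) : ∃ π : Fil n → Fin 3 → ZMod 2, π 1 = 0 ∧ (∀ a b, π (a * b) = π a + π b) ∧
    ∀ s, s ≠ vz → π (psi n (gW s)) = if s ∈ Six then Pi.single (colZ (base s)) 1 else 0 := by
  obtain ⟨ρ, h⟩ := fil_lift n (H := Multiplicative (Fin 3 → ZMod 2))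
    (fun s => .ofAdd (if s ∈ Six then Pi.single (colZ (base s)) 1 else 0))
    (fun s _ => by
      rw [← ofAdd_add]
      split_ifs
      · rw [← Pi.single_add, show (1 + 1 : ZMod 2) = 0 from rfl]; simp
      · simp)
    (fun _ _ _ _ _ => mul_comm _ _) (by simp +decide) (by simp +decide)
  exact ⟨fun g => (ρ g).toAdd, by simp, fun a b => by simp, fun s hs => by simp [h s hs]⟩

lemma nfib_index (n : ℕ) : (Subgroup.closure (Set.range (nfib_r n))).FiniteIndex := by
  set R := Subgroup.closure (Set.range (nfib_r n))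
  have key : ∀ h : Fil n, ∃ r ∈ R, ∃ u v, h = r * psi n (dd u v) := fun h => by
    refine ind_right (gP_sq n) (P := fun h => ∃ r ∈ R, ∃ u v, h = r * psi n (dd u v)) ?_ ?_
      (gP_gen n ▸ Subgroup.mem_top h)
    · obtain ⟨u, v, e⟩ := mem_dd.1 (Subgroup.one_mem _)
      exact ⟨1, R.one_mem, u, v, by rw [← e]; simp⟩
    · rintro _ s ⟨r, hr, u, v, rfl⟩
      rcases nfib_cases s.1 s.2 with h | h
      · refine ⟨r * nfib_r n (prj n (pos u v s.1)),
          R.mul_mem hr (Subgroup.subset_closure ⟨_, rfl⟩), u, v, ?_⟩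
        rw [nfib_r_prj, ← dd_conj u v h]
        simp [gP, mul_assoc]
      · obtain ⟨u', v', e⟩ := dd_mul h u v
        exact ⟨r, hr, u', v', by rw [← e]; simp [gP, mul_assoc]⟩
  have : Finite (Fil n ⧸ R) := by
    refine Finite.of_surjective (fun x : ZMod (2 * 2 ^ (n + 1)) × ZMod (4 * 3 ^ n) =>
      (QuotientGroup.mk (psi n (dd x.1.val x.2.val))⁻¹ : Fil n ⧸ R)) fun q => ?_
    obtain ⟨h, rfl⟩ := QuotientGroup.mk_surjective q
    obtain ⟨r, hr, u, v, e⟩ := key h⁻¹
    refine ⟨(u, v), QuotientGroup.eq.2 ?_⟩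
    have hu := (ZMod.intCast_eq_intCast_iff ((u : ZMod (2 * 2 ^ (n + 1))).val) u
      (2 * 2 ^ (n + 1))).1 (by simp)
    have hv := (ZMod.intCast_eq_intCast_iff ((v : ZMod (4 * 3 ^ n)).val) v (4 * 3 ^ n)).1 (by simp)
    rw [inv_inv, psi_dd (u' := u) (v' := v) (by exact_mod_cast hu) (by exact_mod_cast hv),
      inv_eq_iff_eq_inv.1 e]
    simpa using hr
  exact Subgroup.finiteIndex_of_finite_quotient

theorem fib (n : ℕ) : Fib (Fil n) := by
  obtain ⟨τ, sg, hg⟩ := game n
  obtain ⟨δ, d1, d2, d3⟩ := exists_delta n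
  obtain ⟨π, p1, pm, pg⟩ := nfib_pi n
  let c : Fil n → V → ℤ × ℤ := fun q s => if s ∈ Six then
    (if π q (colZ (base s)) + sg (δ q (prj n (base s))) = 0 then (1 : ℤ) else -1) •
      ((1 : ℤ), 2 * (τ (δ q (prj n (base s))) : ℤ)) else 0
  have hc : ∀ q s t, s ≠ vz → L11.Adj s t → c (q * psi n (gW s)) t = c q t := by
    intro q s t hs a
    by_cases ht : t ∈ Six
    · rcases nfib_cases s hs with h | h
      · simp only [c, map_mul, d1 s h, mul_one, pm, pg s hs, if_pos h, Pi.add_apply,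
          Pi.single_eq_of_ne (nfib_adj1 s h t ht a), add_zero]
      · simp only [c, map_mul, pm, pg s hs, if_neg (nfib_xy s h).1, add_zero,
          Equiv.Perm.mul_apply, d2 s h, nfib_adj2 s h t ht a]
    · simp only [c, if_neg ht]
  obtain ⟨κ, k1, kg⟩ := kap n (MonoidHom.id _) c
    (fun q s hs => by
      by_cases h : s ∈ Six
      · simp only [c, MonoidHom.id_apply, map_mul, d1 s h, mul_one, pm, pg s hs, if_pos h,
          Pi.add_apply, Pi.single_eq_same]
        rw [← add_smul, add_right_comm]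
        generalize π q (colZ (base s)) + sg (δ q (prj n (base s))) = x
        rw [show ((if x = 0 then (1 : ℤ) else -1) + if x + 1 = 0 then 1 else -1) = 0 by
          revert x; decide, zero_smul]
      · simp only [c, if_neg h, add_zero])
    (fun q s t hs ht a => by
      rw [MonoidHom.id_apply, MonoidHom.id_apply, hc q s t hs a, hc q t s ht a.symm, add_comm])
    0 fun q t ht => by simp only [c, if_neg (nfib_xy t ht).1, Pi.zero_apply, sub_self]
  have kd : ∀ d ∈ Subgroup.closure (gW '' (XY : Set V)),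
      π (psi n d) = 0 ∧ ∀ h, κ (h * psi n d) = κ h := by
    intro d hd
    induction hd using Subgroup.closure_induction with
    | mem x hx =>
      obtain ⟨t, ht, rfl⟩ := hx
      have := nfib_xy t ht
      exact ⟨by rw [pg t this.2, if_neg this.1], fun h => by
        simpa only [c, gP, if_neg this.1, add_zero] using kg h ⟨t, this.2⟩⟩
    | one => simp [p1]
    | mul x y _ _ hx hy =>
      exact ⟨by rw [map_mul, pm, hx.1, hy.1, add_zero],
        fun h => by rw [map_mul, ← mul_assoc, hy.2, hx.2]⟩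
    | inv x _ hx =>
      refine ⟨?_, fun h => ?_⟩
      · have := pm (psi n x⁻¹) (psi n x)
        rwa [← map_mul, inv_mul_cancel, map_one, p1, hx.1, add_zero, eq_comm] at this
      · rw [← hx.2 (h * psi n x⁻¹), mul_assoc, ← map_mul, inv_mul_cancel, map_one, mul_one]
  have md : ∀ u v, dd u v ∈ Subgroup.closure (gW '' (XY : Set V)) := fun u v => mem_dd.2 ⟨u, v, rfl⟩
  have dR : ∀ g ∈ Subgroup.closure (Set.range (nfib_r n)), δ g = 1 := fun g h =>
    (Subgroup.closure_le δ.ker).2 (by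
      rintro _ ⟨P, rfl⟩
      simp [nfib_r, rr, d1 _ (typ_mem _)]) h
  have := nfib_index n
  refine Fib.of_subgroup _ (jnw hg (H := Subgroup.closure (Set.range (nfib_r n)))
    (fun P => ⟨nfib_r n P, Subgroup.subset_closure ⟨P, rfl⟩⟩) ?_ (fun P => Subtype.ext ?_)
    (fun P R a => Subtype.ext ?_) (fun g => π g) p1 (fun g P => ?_) (fun g => κ g) k1
    fun g P => ?_)
  · rw [← Subgroup.closure_closure_coe_preimage]
    congr 1
    ext x
    exact ⟨fun ⟨P, e⟩ => ⟨P, congrArg Subtype.val e⟩, fun ⟨P, e⟩ => ⟨P, Subtype.ext e⟩⟩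
  · change nfib_r n P * nfib_r n P = 1
    rw [nfib_r, ← map_mul, rr_sq, map_one]
  · obtain ⟨-, A, B, a, rfl, rfl⟩ := a
    change nfib_r n _ * nfib_r n _ = nfib_r n _ * nfib_r n _
    rw [nfib_r_prj, nfib_r_prj, ← map_mul, rr_cm a, map_mul]
  · change π (g * nfib_r n P) = _
    rw [pm, nfib_r, rr, map_mul, map_mul, pm, pm, (kd _ (md _ _)).1, (kd _ (inv_mem (md _ _))).1,
      pg _ (nfib_six _ (typ_mem _)), if_pos (typ_mem _), nfib_col, zero_add, add_zero, colT]
  · change κ (g * nfib_r n P) = _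
    rw [nfib_r, rr, map_mul, map_mul, ← mul_assoc, (kd _ (inv_mem (md _ _))).2, ← mul_assoc]
    refine (kg _ ⟨_, nfib_six _ (typ_mem _)⟩).trans ?_
    simp only [c, MonoidHom.id_apply, if_pos (typ_mem _), (kd _ (md _ _)).2, map_mul, dR g g.2,
      one_mul, d3 _ _ _ (typ_mem _), pm, (kd _ (md _ _)).1, add_zero, nfib_col, colT]
    rw [nfib_pos (P.1.val, P.2.val), nfib_prj]
    rfl

end

end Pool.Agent.Lib.MP_b65ff2_gt
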