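import Pool.Agent.Lib.MP_b65ff2_gt.NGrpB

namespace Pool.Agent.Lib.MP_b65ff2_gt

open Matrix Filter Topology

set_option linter.unusedSectionVars false

noncomputable section

namespace NGrp

variable {H : Type} [Group H]

/-- The subgroup generated by the `k`-th powers and the commutators. -/
def deep (M : Subgroup H) (k : ℕ) : Subgroup H :=
  Subgroup.closure ({z | ∃ x ∈ M, z = x ^ k} ∪ {z | ∃ x ∈ M, ∃ y ∈ M, z = x * y * x⁻¹ * y⁻¹})

lemma deep_le (M : Subgroup H) (k : ℕ) : deep M k ≤ M := by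
  refine (Subgroup.closure_le _).2 ?_
  rintro _ (⟨x, hx, rfl⟩ | ⟨x, hx, y, hy, rfl⟩)
  · exact M.pow_mem hx _
  · exact M.mul_mem (M.mul_mem (M.mul_mem hx hy) (M.inv_mem hx)) (M.inv_mem hy)

lemma deep_normal (M : Subgroup H) [hM : M.Normal] (k : ℕ) : (deep M k).Normal := by
  refine ⟨fun n hn g => ?_⟩
  induction hn using Subgroup.closure_induction with
  | mem x hx =>
    refine Subgroup.subset_closure ?_
    rcases hx with ⟨x, hx, rfl⟩ | ⟨x, hx, y, hy, rfl⟩
    · exact .inl ⟨_, hM.conj_mem x hx g, by simp⟩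
    · exact .inr ⟨_, hM.conj_mem x hx g, _, hM.conj_mem y hy g, by group⟩
  | one => simp
  | mul x y _ _ h h' => simpa [mul_assoc] using Subgroup.mul_mem _ h h'
  | inv x _ h => simpa [mul_assoc] using Subgroup.inv_mem _ h

lemma deep_pow {M : Subgroup H} (k : ℕ) {x : H} (hx : x ∈ M) : x ^ k ∈ deep M k :=
  Subgroup.subset_closure (.inl ⟨x, hx, rfl⟩)

lemma deep_dvd {M : Subgroup H} (s : St M) {k : ℕ} {x : H} (hx : x ∈ deep M k) :
    ∃ v : ℤ × ℤ, s.Φ x = (k : ℤ) • v := by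
  induction hx using Subgroup.closure_induction with
  | mem x hx =>
    rcases hx with ⟨x, hx, rfl⟩ | ⟨x, hx, y, hy, rfl⟩
    · exact ⟨_, by rw [← zpow_natCast, s.Φ_zpow hx]⟩
    · exact ⟨0, by rw [s.Φ_cl (s.cm_mem hx hy), smul_zero]⟩
  | one => exact ⟨0, by simp [s.Φ_one]⟩
  | mul x y hx hy h h' =>
    obtain ⟨v, h⟩ := h
    obtain ⟨w, h'⟩ := h'
    exact ⟨v + w, by rw [s.add x (deep_le M k hx) y (deep_le M k hy), h, h', smul_add]⟩
  | inv x hx h =>
    obtain ⟨v, h⟩ := h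
    exact ⟨-v, by rw [s.Φ_inv (deep_le M k hx), h, smul_neg]⟩

/-- A finite index normal subgroup is undistorted, and cosets have short representatives. -/
lemma undist {A B : Set H} (hA : A.Finite) (gen : Subgroup.closure A = ⊤) (M : Subgroup H)
    [M.Normal] [M.FiniteIndex] (hB : ∀ x ∈ M, x ∈ Subgroup.closure B) :
    ∃ c, 1 ≤ c ∧ (∀ L, ∀ x ∈ M, WL A L x → WL B (c * L) x) ∧
      ∀ x, ∃ y, WL A c y ∧ y⁻¹ * x ∈ M := by
  classical
  let ρ := QuotientGroup.mk' M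
  let σ : H ⧸ M → H := fun q => if q = 1 then 1 else q.out
  have hσ : ∀ q, ρ (σ q) = q := fun q => by
    by_cases h : q = 1
    · simp [σ, h]
    · simp [σ, h, ρ]
  have hk : ∀ x, ρ x = 1 ↔ x ∈ M := fun x => QuotientGroup.eq_one_iff x
  obtain ⟨c, hc, h1⟩ := unif (A := B)
    ((Set.finite_univ (α := H ⧸ M)).image2 (fun q y => (σ (ρ y * q))⁻¹ * y * σ q) hA) (by
      rintro _ ⟨q, -, y, -, rfl⟩
      exact hB _ ((hk _).1 (by simp [hσ])))
  obtain ⟨c', -, h2⟩ := unif (A := A) (Set.finite_range σ) (by simp [gen])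
  refine ⟨c + c', by omega, fun L x hx h => ?_, fun x => ⟨σ (ρ x),
    mono (h2 _ ⟨_, rfl⟩) (by omega), (hk _).1 (by simp [hσ])⟩⟩
  have := schreier ρ σ (B := B) (c := c) (fun g _ y hy => h1 _ ⟨ρ g, trivial, y, hy, by
    rw [map_mul]⟩) h
  rw [(hk x).2 hx] at this
  exact mono (by simpa [σ] using this) (Nat.mul_le_mul_right _ (by omega))

lemma lin_le (a k : ℕ) : a * k ≤ (2 ^ a) ^ k := by
  rw [← pow_mul]; exact Nat.lt_two_pow_self.le

end NGrp

open NGrp in
theorem grp {H X : Type} [Group H] [Finite X] (a : X → H)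
    (gen : Subgroup.closure (Set.range a) = ⊤) (hF : Fib H) (N0 : Subgroup H) [N0.Normal]
    [N0.FiniteIndex] : ∃ C : ℕ, ∀ k : ℕ, 1 ≤ k → ∃ (N : Subgroup H) (_ : N.Normal), N ≤ N0 ∧
      N.FiniteIndex ∧ ∃ D : ℕ, D * k ^ 2 ≤ C * N.index ∧
        SG a (QuotientGroup.mk' N) D (C ^ k) := by
  classical
  obtain ⟨M, hMn, hMf, hM0, ⟨s⟩⟩ := setup hF N0
  obtain ⟨c1, hc1, hu1, hu2⟩ := undist (Set.finite_range a) gen M fun x hx => s.G_gen hx
  obtain ⟨c2, hc2, hG⟩ := unif (A := Set.range a) s.G_fin (by simp [gen])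
  obtain ⟨c3, hc3, hd⟩ := s.dist
  set r := s.S.ncard with hr
  set c4 := c1 + c2 * s.G.ncard with hc4
  set c5 := c1 * (2 * c4 + 1) with hc5
  set c6 := c2 * (2 * r + 1) with hc6
  refine ⟨(2 * c3) ^ c5 + 2 ^ c6 + (r + 2), fun k hk => ?_⟩
  set C := (2 * c3) ^ c5 + 2 ^ c6 + (r + 2) with hC
  have hC1 : (2 * c3) ^ c5 ≤ C := (Nat.le_add_right _ _).trans (Nat.le_add_right _ _)
  have hC2 : 2 ^ c6 ≤ C := (Nat.le_add_left _ _).trans (Nat.le_add_right _ _)
  have hC3 : r + 2 ≤ C := Nat.le_add_left _ _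
  have hN := deep_normal M k
  let ρ := QuotientGroup.mk' (deep M k)
  have hker : ∀ x, ρ x = 1 ↔ x ∈ deep M k := fun x => QuotientGroup.eq_one_iff x
  have hcm : ∀ x ∈ M, ∀ y ∈ M, Commute (ρ x) (ρ y) := fun x hx y hy => by
    have := (hker _).2 (Subgroup.subset_closure (.inr ⟨x, hx, y, hy, rfl⟩))
    rw [map_mul, map_mul, map_mul, map_inv, map_inv, mul_inv_eq_one, mul_inv_eq_iff_eq_mul] at this
    exact this
  have hpw : ∀ x ∈ M, ρ x ^ k = 1 := fun x hx => by
    rw [← map_pow]; exact (hker _).2 (deep_pow k hx)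
  have hτ : ∀ q : H ⧸ deep M k, ∃ y, WL (Set.range a) (c4 * k) y ∧ ρ y = q := fun q => by
    obtain ⟨x, rfl⟩ := QuotientGroup.mk'_surjective _ q
    obtain ⟨y, hy, hm⟩ := hu2 x
    obtain ⟨z, hz, hz'⟩ := short ρ M hk hcm hpw s.G_fin s.GM _ (s.G_gen hm)
    refine ⟨y * z, mono (mul hy (subst hG hz)) (by rw [hc4]; nlinarith), ?_⟩
    rw [map_mul, hz', ← map_mul, mul_inv_cancel_left]
  choose τ hτ1 hτ2 using hτ
  have hfin : Finite (H ⧸ deep M k) := by
    have := (fin (Set.finite_range a) (c4 * k)).to_subtype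
    exact Finite.of_injective (fun q => (⟨τ q, hτ1 q⟩ : {g | WL (Set.range a) (c4 * k) g}))
      fun q q' h => by rw [← hτ2 q, ← hτ2 q']; exact congrArg ρ (congrArg Subtype.val h)
  let R := (Subgroup.closure s.S).map ρ
  have hσ : ∀ q : H ⧸ deep M k, ∃ y, WL s.S (r * k) y ∧ (q ∈ R → ρ y = q) ∧ (q = 1 → y = 1) := by
    intro q
    by_cases h1 : q = 1
    · exact ⟨1, one _ _, fun _ => by simp [h1], fun _ => rfl⟩
    by_cases h2 : q ∈ R
    · obtain ⟨x, hx, rfl⟩ := h2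
      obtain ⟨y, hy, hy'⟩ := short ρ M hk hcm hpw s.fin s.SM x hx
      exact ⟨y, hy, fun _ => hy', fun h => absurd h h1⟩
    · exact ⟨1, one _ _, fun h => absurd h h2, fun _ => rfl⟩
  choose σ hσ1 hσ2 hσ3 using hσ
  have hSf := s.fin.to_subtype
  let n' : (R × s.S) ⊕ Bool → H := Sum.elim (fun p => (σ (ρ p.2 * p.1))⁻¹ * p.2 * σ p.1)
    fun b => (if b then s.t else s.u) ^ k
  let e := (Finite.equivFin ((R × s.S) ⊕ Bool)).symm
  have hrg : Set.range (n' ∘ e) = Set.range n' := e.surjective.range_comp _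
  have hSG : s.S ⊆ s.G := fun _ h => .inr (.inr h)
  refine ⟨deep M k, hN, (deep_le M k).trans hM0, Subgroup.finiteIndex_of_finite_quotient, _, ?_,
    n' ∘ e, τ, fun i => ?_, fun h => hτ2 _, fun i => ?_, fun h x => ?_⟩
  · have hcard : Nat.card (R × Fin k × Fin k) ≤ Nat.card (H ⧸ deep M k) := by
      refine Nat.card_le_card_of_injective
        (fun p => p.1.1 * ρ (s.T (p.2.1.1, p.2.2.1))) ?_
      rintro ⟨⟨_, x, hx, rfl⟩, i, j⟩ ⟨⟨_, x', hx', rfl⟩, i', j'⟩ h
      have hle : Subgroup.closure s.S ≤ M := (Subgroup.closure_le _).2 s.SM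
      have h1 := M.mul_mem (hle hx) (s.T_mem (i.1, j.1))
      have h2 := M.mul_mem (hle hx') (s.T_mem (i'.1, j'.1))
      obtain ⟨v, hv⟩ := deep_dvd s ((hker ((x * s.T (i.1, j.1))⁻¹ * (x' * s.T (i'.1, j'.1)))).1 (by
        rw [map_mul, map_inv, map_mul, map_mul, inv_mul_eq_one]; exact h))
      rw [s.add _ (M.inv_mem h1) _ h2, s.Φ_inv h1, s.add _ (hle hx) _ (s.T_mem _),
        s.add _ (hle hx') _ (s.T_mem _), s.Φ_cl hx, s.Φ_cl hx', s.Φ_T, s.Φ_T] at hv
      have key : ∀ (i i' : Fin k) (w : ℤ), -(i.1 : ℤ) + i'.1 = k * w → i = i' := by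
        intro i i' w hw
        have := i.2
        have := i'.2
        have : w = 0 := by
          by_contra h0
          rcases lt_or_gt_of_ne h0 with h0 | h0 <;> nlinarith
        subst this
        exact Fin.ext (by omega)
      obtain rfl := key i i' v.1 (by simpa using congrArg Prod.fst hv)
      obtain rfl := key j j' v.2 (by simpa using congrArg Prod.snd hv)
      exact Prod.ext (Subtype.ext (mul_right_cancel h)) rfl
    have hR : 0 < Nat.card R := Nat.card_pos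
    have hr' : Nat.card s.S = r := Nat.card_coe_set_eq _
    simp only [Nat.card_prod, Nat.card_sum, Nat.card_eq_fintype_card (α := Bool), Fintype.card_bool,
      Nat.card_fin, hr'] at hcard ⊢
    calc (Nat.card R * r + 2) * k ^ 2 ≤ (r + 2) * (Nat.card R * (k * k)) := by
          rw [← mul_assoc, ← sq]
          exact Nat.mul_le_mul_right _ (by nlinarith)
      _ ≤ C * (deep M k).index := Nat.mul_le_mul hC3 hcard
  · rw [Function.comp_apply]
    rcases e i with ⟨q, y⟩ | b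
    · have hy : ρ y ∈ R := ⟨y, Subgroup.subset_closure y.2, rfl⟩
      change ρ ((σ (ρ y * q))⁻¹ * y * σ q) = 1
      rw [map_mul, map_mul, map_inv, hσ2 _ (R.mul_mem hy q.2), hσ2 _ q.2]
      group
    · refine (hker _).2 (deep_pow k ?_)
      split_ifs
      exacts [s.ht, s.hu]
  · have hb : c6 * k ≤ C ^ k := (lin_le _ _).trans (Nat.pow_le_pow_left hC2 _)
    rw [Function.comp_apply]
    refine mono (subst (L := (2 * r + 1) * k) hG ?_) (by rwa [← mul_assoc])
    rcases e i with ⟨q, y⟩ | b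
    · exact mono (NGrp.sub hSG (mul (mul (NGrp.inv (hσ1 _)) (letter (.inl y.2))) (hσ1 _)))
        (by nlinarith)
    · refine mono (pow (letter (.inl ?_)) k) (by nlinarith)
      split_ifs
      exacts [.inl rfl, .inr (.inl rfl)]
  · rw [hrg]
    set w := τ (ρ h) * a x * (τ (ρ (h * a x)))⁻¹ with hw
    have hw1 : ρ w = 1 := by simp only [hw, map_mul, map_inv, hτ2]; group
    have hwN := (hker w).1 hw1
    have hw2 : WL (Set.range a) ((2 * c4 + 1) * k) w :=
      mono (mul (mul (hτ1 _) (letter (.inl ⟨x, rfl⟩))) (inv (hτ1 _))) (by nlinarith)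
    obtain ⟨h1, h2⟩ := hd _ _ (hu1 _ w (deep_le M k hwN) hw2)
    rw [← mul_assoc, ← hc5] at h1 h2
    obtain ⟨v, hv⟩ := deep_dvd s hwN
    have hT : s.T (s.Φ w) = (s.t ^ k) ^ v.1 * (s.u ^ k) ^ v.2 := by
      rw [hv, St.T, Prod.smul_fst, Prod.smul_snd, smul_eq_mul, smul_eq_mul, _root_.zpow_mul,
        _root_.zpow_mul, _root_.zpow_natCast, _root_.zpow_natCast]
    have hT1 : ρ (s.T (s.Φ w)) = 1 := by
      rw [hT, map_mul, map_zpow, map_zpow, map_pow, map_pow, hpw _ s.ht, hpw _ s.hu]; simp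
    have h3 := schreier ρ σ (B := Set.range n') (c := 1) (fun g hg y hy =>
      letter (.inl ⟨.inl (⟨ρ g, g, hg, rfl⟩, ⟨y, hy⟩), by rw [map_mul]; rfl⟩)) h1
    rw [map_mul, map_inv, hw1, hT1, inv_one, mul_one, hσ3 1 rfl, inv_one, one_mul, mul_one,
      one_mul] at h3
    have h4 : WL (Set.range n') (1 * v.1.natAbs + 1 * v.2.natAbs) (s.T (s.Φ w)) := by
      rw [hT]
      exact mul (zpow (letter (.inl (Set.mem_range_self (Sum.inr true)))) _)
        (zpow (letter (.inl (Set.mem_range_self (Sum.inr false)))) _)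
    have h5 := mul h3 h4
    rw [inv_mul_cancel_right] at h5
    refine mono h5 ?_
    rw [hv, Prod.smul_fst, Prod.smul_snd, smul_eq_mul, smul_eq_mul, Int.natAbs_mul, Int.natAbs_mul,
      Int.natAbs_natCast] at h2
    have h6 : 1 ≤ c3 ^ (c5 * k) := Nat.one_le_pow _ _ hc3
    have h7 : c5 * k < 2 ^ (c5 * k) := Nat.lt_two_pow_self
    have h8 : v.1.natAbs + v.2.natAbs + 1 ≤ 2 ^ (c5 * k) := by
      have := Nat.le_mul_of_pos_left (v.1.natAbs + v.2.natAbs) hk
      rw [mul_add] at this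
      omega
    calc _ ≤ (v.1.natAbs + v.2.natAbs + 1) * c3 ^ (c5 * k) := by
          have := Nat.le_mul_of_pos_right (v.1.natAbs + v.2.natAbs) h6
          rw [add_mul _ 1]
          omega
      _ ≤ 2 ^ (c5 * k) * c3 ^ (c5 * k) := Nat.mul_le_mul_right _ h8
      _ = ((2 * c3) ^ c5) ^ k := by rw [← mul_pow, pow_mul]
      _ ≤ C ^ k := Nat.pow_le_pow_left hC1 _

end

end Pool.Agent.Lib.MP_b65ff2_gt
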