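import Pool.Agent.Lib.MP_b65ff2_gt.NPolyB

namespace Pool.Agent.Lib.MP_b65ff2_gt

open Matrix

set_option linter.unusedSectionVars false

noncomputable section

variable {Q : Type} [Group Q] (M : PM L11 Q)

abbrev npE : Type := {x : M.C 2 // M.in0 x.1}

abbrev npR : Type := {x : M.C 1 // M.in0 x.1}

def npSg (x : ZMod 2) : ℤ := if x = 0 then 1 else -1

def npO (s t : V) : ℤ := if s < t then 1 else if t < s then -1 else 0

def npBs (q : Q) (s t : V) : Q :=
  q * (if M.p q s = 0 then 1 else M.g s) * if M.p q t = 0 then 1 else M.g t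

def npTot (q : Q) : ZMod 2 := ∑ u, M.p q u

def npK (x : npE M) : Q × Finset V := x.1.1.1

open Classical in
/-- The dual edge at `q` that crosses the edge from `s` to `t` of the link. -/
def npVec (q : Q) (s t : V) : npE M → ℤ := fun x =>
  if npK M x = (npBs M q s t, {s, t}) then npO s t * npSg (M.p q s + M.p q t + npTot M q) else 0

lemma np_z2 : ∀ x : ZMod 2, x = 0 ∨ x = 1 := by decide

lemma np_sg_sq : ∀ x, npSg x * npSg x = 1 := by decide

lemma np_sg_pm : ∀ x, npSg x = 1 ∨ npSg x = -1 := by decide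

lemma np_sg_add : ∀ x y, npSg (x + y) = npSg x * npSg y := by decide

lemma np_o_anti : ∀ s t, npO t s = -npO s t := by decide +kernel

lemma np_o_self : ∀ s, npO s s = 0 := by decide +kernel

lemma np_o_pm : ∀ s t, s ≠ t → npO s t = 1 ∨ npO s t = -1 := by decide +kernel

lemma np_o_abs : ∀ s t, |npO s t| ≤ 1 := by decide +kernel

lemma np_sgn : ∀ v t : V, t ≠ v → sgn t {v, t} = -npO v t := by decide +kernel

lemma np_tot_mul (q : Q) (s : V) : npTot M (q * M.g s) = npTot M q + 1 := by
  simp only [npTot, M.p_mul_g, Finset.sum_add_distrib, Finset.sum_ite_eq', Finset.mem_univ,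
    if_true]

lemma np_bs_symm (q : Q) {s t : V} (h : L11.Adj s t) : npBs M q t s = npBs M q s t := by
  unfold npBs
  split_ifs <;> simp [mul_assoc, M.cm s t h]

lemma np_bs_mul (q : Q) {s t : V} (h : L11.Adj s t) : npBs M (q * M.g s) s t = npBs M q s t := by
  unfold npBs
  rw [M.p_mul_g, M.p_mul_g, if_pos rfl, if_neg h.ne', add_zero]
  congr 1
  rcases np_z2 (M.p q s) with h1 | h1
  · rw [h1, if_neg (by decide), if_pos rfl, mul_assoc, M.sq]
  · rw [h1, if_pos (by decide), if_neg (by decide), mul_one]

lemma np_vec_anti (q : Q) {s t : V} (h : L11.Adj s t) : npVec M q s t + npVec M q t s = 0 := by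
  funext x
  rw [Pi.add_apply, Pi.zero_apply]
  unfold npVec
  rw [np_bs_symm M q h, Finset.pair_comm t s, np_o_anti s t, add_comm (M.p q t) (M.p q s)]
  split_ifs <;> ring

lemma np_vec_inv (q : Q) {s t : V} (h : L11.Adj s t) :
    npVec M (q * M.g s) s t = npVec M q s t := by
  funext x
  have e : ∀ a b c : ZMod 2, a + 1 + (b + 0) + (c + 1) = a + b + c := by decide
  unfold npVec
  rw [np_bs_mul M q h, M.p_mul_g, M.p_mul_g, np_tot_mul, if_pos rfl, if_neg h.ne', e]

lemma np_vec_inv' (q : Q) {s t : V} (h : L11.Adj s t) :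
    npVec M (q * M.g t) s t = npVec M q s t := by
  have h1 := np_vec_anti M (q * M.g t) h
  have h2 := np_vec_anti M q h
  rw [np_vec_inv M q h.symm] at h1
  exact add_right_cancel (h1.trans h2.symm)

lemma np_E_ext {x y : npE M} (h : npK M x = npK M y) : x = y :=
  Subtype.ext (Subtype.ext (Subtype.ext h))

lemma np_vec_norm [Fintype (npE M)] (q : Q) (s t : V) : ∑ x, |npVec M q s t x| ≤ 1 := by
  by_cases h : ∃ x : npE M, npK M x = (npBs M q s t, {s, t})
  · obtain ⟨x, hx⟩ := h
    rw [Finset.sum_eq_single x]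
    · simp only [npVec, if_pos hx, abs_mul]
      have := np_o_abs s t
      rcases np_sg_pm (M.p q s + M.p q t + npTot M q) with h | h <;> rw [h] <;> simpa
    · intro y _ hy
      simp only [npVec]
      rw [if_neg fun h => hy (np_E_ext M (h.trans hx.symm)), abs_zero]
    · simp
  · rw [Finset.sum_eq_zero]
    · exact zero_le_one
    · intro y _
      simp only [npVec]
      rw [if_neg fun h' => h ⟨y, h'⟩, abs_zero]

lemma np_vec_base [DecidableEq (npE M)] (x : npE M) {q : Q} {s t : V}
    (hx : npK M x = (q, {s, t})) :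
    npVec M q s t = (npO s t * npSg (npTot M q)) • Pi.single x 1 := by
  have hp : ∀ s ∈ (npK M x).2, M.p (npK M x).1 s = 0 := x.1.1.2.2
  rw [hx] at hp
  have h1 : M.p q s = 0 := hp s (by simp)
  have h2 : M.p q t = 0 := hp t (by simp)
  funext y
  have hb : npBs M q s t = q := by simp [npBs, h1, h2]
  unfold npVec
  rw [hb, h1, h2, zero_add, zero_add, Pi.smul_apply, smul_eq_mul, ← hx]
  by_cases h : y = x
  · subst h; simp
  · rw [if_neg fun h' => h (np_E_ext M h'), Pi.single_eq_of_ne h, mul_zero]

lemma np_vec_zero {q : Q} (hq : M.p q vz ≠ 0) {s t : V} (h : npAd s t) : npVec M q s t = 0 := by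
  funext x
  simp only [npVec, Pi.zero_apply]
  refine if_neg fun hx => hq ?_
  have h0 : M.p (npK M x).1 vz = 0 := x.2.1
  rw [hx] at h0
  unfold npBs at h0
  split_ifs at h0 <;> simpa [M.p_mul_g, h.2.1.symm, h.2.2.symm] using h0

lemma np_row (r : npR M) {q : Q} {v : V} (hr : r.1.1.1 = (q, {v})) :
    (M.d20ᵀ).row r = npSg (npTot M q) • ((npNb v).map (npVec M q v)).sum := by
  classical
  have hqv : M.p q v = 0 := by
    have := r.1.1.2.2
    rw [hr] at this
    exact this v (by simp)
  have hvz : v ≠ vz := by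
    have := r.2.2
    rw [hr] at this
    exact fun h => this (by simp [h])
  funext x
  rw [← List.sum_toFinset _ (np_nb_nodup v), Pi.smul_apply, Finset.sum_apply]
  change M.bd x.1.1 r.1.1 = _
  obtain ⟨⟨⟨⟨q', T⟩, hcl, hp⟩, hcard⟩, hz1, hz2⟩ := x
  simp only [PM.bd, of_apply, hr, npVec, npK] at hcl hp hcard hz1 hz2 ⊢
  by_cases hv : v ∈ T
  · obtain ⟨t, htv, rfl⟩ : ∃ t, t ≠ v ∧ T = {v, t} := by
      obtain ⟨a, b, hab, rfl⟩ := Finset.card_eq_two.1 hcard
      rcases Finset.mem_insert.1 hv with rfl | h
      · exact ⟨b, hab.symm, rfl⟩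
      · rw [Finset.mem_singleton.1 h]
        exact ⟨a, hab, Finset.pair_comm _ _⟩
    have had : npAd v t :=
      ⟨hcl (by simp) (by simp) htv.symm, hvz, fun h => hz2 (by simp [h])⟩
    have e1 : ({v, t} : Finset V).erase v = {t} := by
      ext u; simp only [Finset.mem_erase, Finset.mem_insert, Finset.mem_singleton]
      constructor
      · rintro ⟨h, h' | h'⟩
        · exact (h h').elim
        · exact h'
      · rintro rfl; exact ⟨htv, .inr rfl⟩
    have e2 : ({v, t} : Finset V).erase t = {v} := by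
      ext u; simp only [Finset.mem_erase, Finset.mem_insert, Finset.mem_singleton]
      constructor
      · rintro ⟨h, h' | h'⟩
        · exact h'
        · exact (h h').elim
      · rintro rfl; exact ⟨htv.symm, .inl rfl⟩
    have hqt : M.p q' t = 0 := hp t (by simp)
    rw [Finset.sum_pair htv.symm, e1, e2, Finset.sum_eq_single t, np_sgn v t htv]
    · simp only [Prod.mk.injEq, Finset.singleton_inj, htv.symm, and_false, if_false, and_true,
        npBs, hqv, if_true, mul_one, zero_add, np_sg_add, smul_eq_mul, sub_self, mul_zero]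
      have hs := np_sg_sq (npTot M q)
      rcases np_z2 (M.p q t) with h1 | h1
      · have n1 : q ≠ q' * M.g t := fun h => by
          rw [h, M.p_mul_g, hqt, if_pos rfl] at h1
          exact absurd h1 (by decide)
        rw [h1, if_neg n1, if_pos rfl, mul_one, show npSg 0 = 1 from rfl]
        by_cases h : q = q'
        · rw [if_pos h, if_pos h.symm]
          linear_combination (-npO v t) * hs
        · rw [if_neg h, if_neg (Ne.symm h)]
          ring
      · have n1 : q ≠ q' := fun h => by
          rw [h, hqt] at h1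
          exact absurd h1 (by decide)
        rw [h1, if_neg n1, if_neg (by decide : ¬(1 : ZMod 2) = 0), show npSg 1 = -1 from rfl]
        by_cases h : q = q' * M.g t
        · rw [if_pos h, if_pos (by rw [h, mul_assoc, M.sq, mul_one])]
          linear_combination (npO v t) * hs
        · rw [if_neg h, if_neg (fun h' => h (by rw [h', mul_assoc, M.sq, mul_one]))]
          ring
    · intro u _ hu
      refine if_neg fun h => hu ?_
      have e3 : ({v, t} : Finset V) = {v, u} := (Prod.ext_iff.1 h).2
      have : t ∈ ({v, u} : Finset V) := by rw [← e3]; simp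
      simp only [Finset.mem_insert, Finset.mem_singleton, htv, false_or] at this
      exact this.symm
    · intro h
      exact (h (List.mem_toFinset.2 ((np_nb v t).2 had))).elim
  · rw [Finset.sum_eq_zero, Finset.sum_eq_zero, smul_zero]
    · intro u _
      refine if_neg fun h => hv ?_
      have : T = {v, u} := (Prod.ext_iff.1 h).2
      rw [this]; simp
    · intro s _
      have : ({v} : Finset V) ≠ T.erase s := fun h =>
        hv (Finset.mem_of_mem_erase (h ▸ Finset.mem_singleton_self v))
      simp [this]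

lemma np_red (P : Q → Prop) {s t : V} (hst : s ≠ t) (hs : ∀ q, P (q * M.g s) → P q)
    (ht : ∀ q, P (q * M.g t) → P q) (h0 : ∀ q, M.p q s = 0 → M.p q t = 0 → P q) (q : Q) : P q := by
  have h1 : ∀ q, M.p q s = 0 → P q := fun q hq => by
    rcases np_z2 (M.p q t) with h | h
    · exact h0 q hq h
    · refine ht q (h0 _ ?_ ?_)
      · rw [M.p_mul_g, hq, if_neg hst, add_zero]
      · rw [M.p_mul_g, h, if_pos rfl]; rfl
  rcases np_z2 (M.p q s) with h | h
  · exact h1 q h
  · refine hs q (h1 _ ?_)
    rw [M.p_mul_g, h, if_pos rfl]; rfl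

/-- The boundary of a dual edge. -/
def npBeta (x : npE M) : npF M :=
  npSg (npTot M (npK M x).1) • ∑ s ∈ (npK M x).2, ∑ t ∈ (npK M x).2,
    npO s t • npPt M (npK M x).1 (npRt s t)

lemma np_b0 [Fintype (npE M)] {s t : V} (h : npAd s t) (q : Q) : M.p q vz = 0 →
    Fintype.linearCombination ℤ (npBeta M) (npVec M q s t) =
      npPt M q (npRt s t) - npPt M q (npRt t s) := by
  classical
  obtain ⟨m1, m2⟩ := np_mem s t h
  obtain ⟨m3, m4⟩ := np_mem t s (np_ad_symm h)
  refine np_red M (fun q => M.p q vz = 0 →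
    Fintype.linearCombination ℤ (npBeta M) (npVec M q s t) =
      npPt M q (npRt s t) - npPt M q (npRt t s)) h.1.ne (fun q ih hq => ?_) (fun q ih hq => ?_)
    (fun q h1 h2 hq => ?_) q
  · rw [np_vec_inv M q h.1, npPt_mul M q m1, npPt_mul M q m4] at ih
    exact ih (by rw [M.p_mul_g, hq, if_neg h.2.1.symm, add_zero])
  · rw [np_vec_inv' M q h.1, npPt_mul M q m2, npPt_mul M q m3] at ih
    exact ih (by rw [M.p_mul_g, hq, if_neg h.2.2.symm, add_zero])
  · let x : npE M := ⟨⟨⟨(q, {s, t}), by
        simpa using SimpleGraph.isClique_pair.2 fun _ => h.1, by simp [h1, h2]⟩,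
      Finset.card_pair h.1.ne⟩, hq, by simp [h.2.1.symm, h.2.2.symm]⟩
    rw [np_vec_base M x (q := q) (s := s) (t := t) rfl, map_smul,
      Fintype.linearCombination_apply_single, one_smul]
    change _ • npSg (npTot M q) • ∑ a ∈ ({s, t} : Finset V), ∑ b ∈ ({s, t} : Finset V),
      npO a b • npPt M q (npRt a b) = _
    rw [smul_smul, mul_assoc, np_sg_sq, mul_one, Finset.sum_pair h.1.ne, Finset.sum_pair h.1.ne,
      Finset.sum_pair h.1.ne, np_o_self, np_o_self, np_o_anti s t]
    rcases np_o_pm s t h.1.ne with e | e <;> rw [e] <;> simp [sub_eq_add_neg, add_comm]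

end

end Pool.Agent.Lib.MP_b65ff2_gt
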