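import Pool.Agent.Lib.MP_b65ff2_gt.NBase
import Pool.Agent.Lib.MP_b65ff2_gt.Homol

namespace Pool.Agent.Lib.MP_b65ff2_gt

open Matrix Filter Topology

set_option linter.unusedSectionVars false

noncomputable section

lemma ntl_fin (A : Type) [AddCommGroup A] [Module.Finite ℤ A] :
    Finite (AddCommGroup.torsion A) := by
  rw [← Submodule.torsion_int]
  exact Module.finite_of_fg_torsion (Submodule.torsion ℤ A) Submodule.torsion_isTorsion

lemma ntl_pos (A : Type) [AddCommGroup A] [Module.Finite ℤ A] : 0 < torsCard A := by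
  have := ntl_fin A
  exact Nat.card_pos

lemma ntl_congr {A B : Type} [AddCommGroup A] [AddCommGroup B] (e : A ≃+ B) :
    torsCard A = torsCard B :=
  Nat.card_congr (e.toEquiv.subtypeEquiv fun _ =>
    (Function.Injective.isOfFinAddOrder_iff (f := e.toAddMonoidHom) e.injective).symm)

lemma ntl_le {A B : Type} [AddCommGroup A] [AddCommGroup B] [Module.Finite ℤ B] (f : A →+ B)
    (g : B →+ A) (h : ∀ a, IsOfFinAddOrder a → g (f a) = a) : torsCard A ≤ torsCard B := by
  have := ntl_fin B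
  refine Nat.card_le_card_of_injective
    (fun a => (⟨f a, f.isOfFinAddOrder a.2⟩ : AddCommGroup.torsion B)) fun a b e => ?_
  have := congrArg (fun x : AddCommGroup.torsion B => g x) e
  exact Subtype.ext (by simpa [h _ a.2, h _ b.2] using this)

def ntlJ (n : Type) : (n → ℤ) →ₗ[ℤ] (n → ℚ) where
  toFun := zc
  map_add' _ _ := by ext; simp [zc]
  map_smul' _ _ := by ext; simp [zc]

lemma ntl_log {n : Type} [Fintype n] (B : Submodule ℤ (n → ℤ)) :
    2 * Real.log (torsCard ((n → ℤ) ⧸ B)) =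
      Real.log (cov (B.map (ntlJ n))) - ht (sp (B.map (ntlJ n))) := by
  have := log_tors (ntlJ n) (fun x y e => by
      ext k
      exact Int.cast_injective (α := ℚ) (congrFun e k))
    (by ext v; exact ⟨fun ⟨z, h⟩ => ⟨z, h.symm⟩, fun ⟨z, h⟩ => ⟨z, h.symm⟩⟩) ⊤ B le_top
    fun _ _ _ _ => trivial
  rw [← this, ← ntl_congr (Submodule.Quotient.equiv (B.submoduleOf ⊤) B Submodule.topEquiv (by
    ext x
    exact ⟨fun ⟨y, hy, e⟩ => e ▸ hy, fun h => ⟨⟨x, trivial⟩, h, rfl⟩⟩)).toAddEquiv,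
    torsCard, ← Submodule.torsion_int]
  rfl

lemma ntl_gram {ι Ω : Type} [Fintype ι] [DecidableEq ι] [Fintype Ω] (T : Matrix ι Ω ℚ) {k : ℚ}
    (hk : 0 < k) (h : ∀ i, T i ⬝ᵥ T i ≤ k) : gram T ≤ k ^ Fintype.card ι := by
  have hS : ((T * Tᵀ).map (Rat.castHom ℝ)).PosSemidef :=
    psd_cast (by simp) fun c => by rw [dot_self_vecMul]; exact dotProduct_self_nonneg _
  have e' : ((T * Tᵀ).map (Rat.castHom ℝ)).det = (gram T : ℚ) := by
    rw [← RingHom.mapMatrix_apply, ← RingHom.map_det]; rfl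
  have hk' : (0 : ℝ) < k := by exact_mod_cast hk
  have t : ∑ i, hS.1.eigenvalues i ≤ Fintype.card ι * (k : ℝ) := by
    have := hS.1.trace_eq_sum_eigenvalues
    simp only [RCLike.ofReal_real_eq_id, id] at this
    rw [← this, trace, ← nsmul_eq_mul]
    refine Finset.sum_le_card_nsmul _ _ _ fun i _ => ?_
    change ((T i ⬝ᵥ T i : ℚ) : ℝ) ≤ k
    exact_mod_cast h i
  rw [← Rat.cast_le (K := ℝ), ← e', hS.1.det_eq_prod_eigenvalues]
  simp only [RCLike.ofReal_real_eq_id, id]
  calc _ ≤ ∏ i, (k * Real.exp (hS.1.eigenvalues i / k - 1)) :=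
        Finset.prod_le_prod (fun i _ => hS.eigenvalues_nonneg i) fun i _ => by
          have := Real.add_one_le_exp (hS.1.eigenvalues i / k - 1)
          rwa [sub_add_cancel, div_le_iff₀' hk'] at this
    _ ≤ _ := by
        rw [Finset.prod_mul_distrib, ← Real.exp_sum, Finset.prod_const, Finset.card_univ]
        push_cast
        refine mul_le_of_le_one_right (by positivity) (Real.exp_le_one_iff.2 ?_)
        rw [Finset.sum_sub_distrib, ← Finset.sum_div, sub_nonpos, div_le_iff₀ hk']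
        simpa using t

lemma ntl_bound {R : Type} {D β : ℕ} (v : R → Fin D → ℤ) (hβ : 1 ≤ β)
    (h : ∀ r, ∑ i, |v r i| ≤ β) :
    torsCard ((Fin D → ℤ) ⧸ Submodule.span ℤ (Set.range v)) ≤ β ^ D := by
  classical
  obtain ⟨κ, a, -, h1, h2⟩ := exists_linearIndependent' ℚ fun r => zc (v r)
  have := h2.finite
  cases nonempty_fintype κ
  have hc : Fintype.card κ ≤ D := by simpa using h2.fintype_card_le_finrank
  let T : Matrix κ (Fin D) ℚ := .of fun i => zc (v (a i))
  have iT : Ind T := fun c hc => by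
    rw [vecMul_eq_sum] at hc
    exact funext (Fintype.linearIndependent_iff.1 h2 c hc)
  have e : (Submodule.span ℤ (Set.range v)).map (ntlJ _) =
      Submodule.span ℤ (Set.range fun r => zc (v r)) := by
    rw [Submodule.map_span, ← Set.range_comp]; rfl
  have b1 : (1 : ℚ) ≤ β := by exact_mod_cast hβ
  have c1 : cov ((Submodule.span ℤ (Set.range v)).map (ntlJ _)) ≤ ((β : ℚ) ^ D) ^ 2 := by
    refine (cov_anti (L := Submodule.span ℤ (Set.range T.row))
      (fg_Lam.of_le (by rintro _ ⟨y, -, rfl⟩; exact ⟨y, rfl⟩)) ?_ ?_).trans ?_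
    · rw [e]
      exact Submodule.span_mono (by rintro _ ⟨i, rfl⟩; exact ⟨a i, rfl⟩)
    · rw [e, sp, sp, Submodule.span_span_of_tower, Submodule.span_span_of_tower]
      exact h1
    · rw [(isB_span iT).cov_eq, ← pow_mul, mul_comm, pow_mul]
      refine (ntl_gram T (k := β ^ 2) (by positivity) fun i => ?_).trans
        (pow_le_pow_right₀ (one_le_pow₀ b1) hc)
      have h3 : ∑ j, v (a i) j * v (a i) j ≤ (β : ℤ) ^ 2 := by
        refine le_trans ?_ (pow_le_pow_left₀ (by positivity) (h (a i)) 2)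
        refine le_trans (le_of_eq ?_) (Finset.sum_sq_le_sq_sum_of_nonneg fun j _ => abs_nonneg _)
        simp [sq]
      change ∑ j, (v (a i) j : ℚ) * v (a i) j ≤ _
      exact_mod_cast h3
  have l := ntl_log (Submodule.span ℤ (Set.range v))
  have p := ntl_pos ((Fin D → ℤ) ⧸ Submodule.span ℤ (Set.range v))
  have n := ht_nonneg (sp ((Submodule.span ℤ (Set.range v)).map (ntlJ _)))
  have c2 := Real.log_le_log (cov_pos' _) ((Rat.cast_le (K := ℝ)).2 c1)
  rw [Rat.cast_pow, Real.log_pow] at c2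
  rw [← Nat.cast_le (α := ℝ), ← Real.log_le_log_iff (by exact_mod_cast p) (by positivity)]
  push_cast at c2 ⊢
  linarith

theorem tl0 {E R A F : Type} [Fintype E] [DecidableEq E] [AddCommGroup A] [AddCommGroup F]
    [IsAddTorsionFree F] (π : (E → ℤ) →ₗ[ℤ] A) (sur : Function.Surjective π) (rel : R → E → ℤ)
    (hk : LinearMap.ker π = Submodule.span ℤ (Set.range rel)) {L B m D : ℕ}
    (hL : ∀ r, ∑ e, |rel r e| ≤ L) (b : A →+ F) (l : F →+ A) (z : Fin D → E → ℤ)
    (hz : ∀ i, b (π (z i)) = 0) (hB : ∀ i, ∑ e, |z i e| ≤ B)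
    (hm : ∀ e, Sm (fun i => π (z i)) m (π (Pi.single e 1) - l (b (π (Pi.single e 1))))) :
    torsCard A ≤ (L * m + 1 + B * m) ^ D := by
  have _ := hz
  have _ := hB
  choose c hc hc' using hm
  let C : (E → ℤ) →ₗ[ℤ] (Fin D → ℤ) := (Matrix.of c).vecMulLinear
  let φ : (Fin D → ℤ) →ₗ[ℤ] A := Fintype.linearCombination ℤ fun i => π (z i)
  have key : ∀ x, φ (C x) = π x - l (b (π x)) := fun x => by
    have : φ ∘ₗ C = π - (l.comp b).toIntLinearMap ∘ₗ π := by
      refine (Pi.basisFun ℤ E).ext fun e => ?_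
      have := hc' e
      simp only [C, φ, Pi.basisFun_apply, LinearMap.comp_apply, vecMulLinear_apply,
        single_one_vecMul, Fintype.linearCombination_apply]
      exact this.symm
    exact LinearMap.congr_fun this x
  have hr : ∀ r, π (rel r) = 0 := fun r => by
    rw [← LinearMap.mem_ker, hk]; exact Submodule.subset_span ⟨r, rfl⟩
  let S := Submodule.span ℤ (Set.range fun r => C (rel r))
  let ψ : A →ₗ[ℤ] (Fin D → ℤ) ⧸ S :=
    (LinearMap.ker π).liftQ (S.mkQ ∘ₗ C) (by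
      rw [hk, Submodule.span_le]
      rintro _ ⟨r, rfl⟩
      exact (Submodule.Quotient.mk_eq_zero _).2 (Submodule.subset_span ⟨r, rfl⟩)) ∘ₗ
      (π.quotKerEquivOfSurjective sur).symm.toLinearMap
  let χ : ((Fin D → ℤ) ⧸ S) →ₗ[ℤ] A := S.liftQ φ (by
    rw [Submodule.span_le]
    rintro _ ⟨r, rfl⟩
    change φ _ = 0
    rw [key, hr]; simp)
  refine (ntl_le ψ.toAddMonoidHom χ.toAddMonoidHom fun a ha => ?_).trans
    (ntl_bound _ (by omega) fun r => ?_)
  · obtain ⟨x, rfl⟩ := sur a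
    have h0 : b (π x) = 0 := (isOfFinAddOrder_iff_eq_zero _).1 (b.isOfFinAddOrder ha)
    have : (π.quotKerEquivOfSurjective sur).symm (π x) = Submodule.Quotient.mk x :=
      (LinearEquiv.symm_apply_eq _).2 rfl
    have e : ψ (π x) = S.mkQ (C x) := by
      simp only [ψ, LinearMap.comp_apply, LinearEquiv.coe_coe, this]; rfl
    change χ (ψ _) = _
    rw [e]
    change φ (C x) = _
    rw [key, h0, map_zero, sub_zero]
  · calc ∑ i, |C (rel r) i| ≤ ∑ i, ∑ e, |rel r e| * |c e i| :=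
          Finset.sum_le_sum fun i _ => by
            simp only [← abs_mul]
            exact Finset.abs_sum_le_sum_abs (fun e => rel r e * c e i) _
      _ ≤ ∑ e, |rel r e| * m := by
          rw [Finset.sum_comm]
          exact Finset.sum_le_sum fun e _ => by
            rw [← Finset.mul_sum]; exact mul_le_mul_of_nonneg_left (hc e) (abs_nonneg _)
      _ ≤ L * m := by
          rw [← Finset.sum_mul]; exact mul_le_mul_of_nonneg_right (hL r) (by positivity)
      _ ≤ _ := by push_cast; linarith [show (0 : ℤ) ≤ B * m by positivity]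

lemma ntl_tc {m n : Type} [Fintype m] [Fintype n] (A : Matrix m n ℤ) :
    2 * Real.log (tc A) = Real.log (cov (mp (A.map (Int.castRingHom ℚ)).vecMulLinear (Lam m))) -
      ht (rg (A.map (Int.castRingHom ℚ))) := by
  have e : (Submodule.span ℤ (Set.range A.row)).map (ntlJ n) =
      mp (A.map (Int.castRingHom ℚ)).vecMulLinear (Lam m) := by
    have k : ∀ z : m → ℤ, zc z ᵥ* A.map (Int.castRingHom ℚ) = ntlJ n (∑ i, z i • A.row i) :=
      fun z => by rw [zc_vecMul, map_sum]; simp only [map_smul]; rfl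
    ext v
    constructor
    · rintro ⟨y, hy, rfl⟩
      obtain ⟨z, rfl⟩ := (Submodule.mem_span_range_iff_exists_fun ℤ).1 hy
      exact ⟨zc z, ⟨z, rfl⟩, k z⟩
    · rintro ⟨_, ⟨z, rfl⟩, rfl⟩
      exact ⟨_, (Submodule.mem_span_range_iff_exists_fun ℤ).2 ⟨z, rfl⟩, (k z).symm⟩
  rw [tc, ntl_log, e, sp_mp, sp_Lam, Submodule.map_top]
  rfl

theorem tc_tr {m n : Type} [Finite m] [Finite n] (A : Matrix m n ℤ) : tc Aᵀ = tc A := by
  classical
  cases nonempty_fintype m
  cases nonempty_fintype n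
  have h1 := ntl_tc A
  have h2 := ntl_tc Aᵀ
  rw [transpose_map] at h2
  generalize A.map (Int.castRingHom ℚ) = M at h1 h2
  obtain ⟨a, -, a1, a2, -⟩ := spec M
  obtain ⟨b, -, b1, b2, -⟩ := spec Mᵀ
  have e := sum_eq_zero_of_moments (Finset.univ : Finset (m ⊕ n)) (Sum.elim 1 (-1)) (Sum.elim a b)
    (fun k => by
      have : ((M * Mᵀ) ^ (k + 1)).trace = ((Mᵀ * Mᵀᵀ) ^ (k + 1)).trace := by
        have : ∀ k, (M * Mᵀ) ^ k * M = M * (Mᵀ * M) ^ k := fun k => by
          induction k with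
          | zero => simp
          | succ k ih => rw [pow_succ', pow_succ', Matrix.mul_assoc, ih]; simp [Matrix.mul_assoc]
        rw [transpose_transpose, pow_succ, ← Matrix.mul_assoc, this, trace_mul_comm, pow_succ',
          Matrix.mul_assoc]
      have := congrArg (Rat.cast : ℚ → ℝ) this
      rw [a1, b1] at this
      simp [Fintype.sum_sum_type, this]) Real.log Real.log_zero
  simp only [Fintype.sum_sum_type, Sum.elim_inl, Sum.elim_inr, Pi.one_apply, Pi.neg_apply, one_mul,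
    neg_mul, Finset.sum_neg_distrib, a2, b2] at e
  have k1 := ht_kr M
  have k2 := ht_kr Mᵀ
  rw [transpose_transpose] at k2
  unfold kr at k1 k2
  have p1 : (0 : ℝ) < tc A := by exact_mod_cast ntl_pos (Cok A)
  have p2 : (0 : ℝ) < tc Aᵀ := by exact_mod_cast ntl_pos (Cok Aᵀ)
  exact_mod_cast Real.log_injOn_pos p2 p1 (by linarith)

theorem tors_split {A B : Type} [AddCommGroup A] [AddCommGroup B] [Module.Finite ℤ B]
    (i : A →+ B) (r : B →+ A) (h : ∀ a, r (i a) = a) :
    torsCard B ≤ torsCard A * torsCard (B ⧸ i.range) := by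
  have : Module.Finite ℤ A := Module.Finite.of_surjective r.toIntLinearMap fun a => ⟨i a, h a⟩
  have : Module.Finite ℤ (B ⧸ i.range) :=
    Module.Finite.of_surjective (QuotientAddGroup.mk' i.range).toIntLinearMap
      (QuotientAddGroup.mk'_surjective _)
  have := ntl_fin A
  have := ntl_fin (B ⧸ i.range)
  rw [torsCard, torsCard, torsCard, ← Nat.card_prod]
  refine Nat.card_le_card_of_injective (fun x => (⟨r x, r.isOfFinAddOrder x.2⟩,
    ⟨QuotientAddGroup.mk' i.range x, (QuotientAddGroup.mk' i.range).isOfFinAddOrder x.2⟩))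
    fun x y e => ?_
  have e1 : r x = r y := congrArg (fun p => p.1.1) e
  have e2 : QuotientAddGroup.mk' i.range x = QuotientAddGroup.mk' i.range y :=
    congrArg (fun p => p.2.1) e
  obtain ⟨_, ⟨a, rfl⟩, e3⟩ := (QuotientAddGroup.mk'_eq_mk' _).1 e2
  rw [← e3, map_add, h, left_eq_add] at e1
  rw [e1, map_zero, add_zero] at e3
  exact Subtype.ext e3

theorem tc_inc {m n : Type} [Finite n] [DecidableEq n] (A : Matrix m n ℤ) (o : n → ℤ)
    (ho : ∀ j, o j ^ 2 = 1) (h : ∀ i, ∃ (a b : n) (c : ℤ), c ^ 2 = 1 ∧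
      ∀ j, A i j * o j = c * ((if a = j then 1 else 0) - if b = j then 1 else 0)) : tc A = 1 := by
  cases nonempty_fintype n
  let S := Submodule.span ℤ (Set.range A.row)
  let f : n → n → ℤ := fun j => Pi.single j (o j)
  let s : Setoid n := ⟨fun a b => f a - f b ∈ S, fun a => by simp,
    fun h => by simpa using S.neg_mem h, fun h h' => by simpa using S.add_mem h h'⟩
  let L : (n → n → ℤ) → (n → ℤ) →ₗ[ℤ] (n → ℤ) := fun g =>
    (Matrix.of fun j => o j • g j).vecMulLinear
  have L0 : ∀ g x, L g x = ∑ j, (x j * o j) • g j := fun g x => by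
    simp only [L, vecMulLinear_apply, vecMul_eq_sum, mul_smul]; rfl
  have L1 : ∀ x, L f x = x := fun x => by
    ext k
    rw [L0, Finset.sum_apply, Finset.sum_eq_single k (by simp +contextual [f, eq_comm]) (by simp)]
    simp [f, mul_assoc, ← sq, ho]
  have L2 : ∀ i, ∃ (a b : n) (c : ℤ), c ^ 2 = 1 ∧ ∀ g, L g (A.row i) = c • (g a - g b) := fun i => by
    obtain ⟨a, b, c, hc, e⟩ := h i
    refine ⟨a, b, c, hc, fun g => ?_⟩
    have e' : ∀ j, A.row i j * o j = _ := e
    simp only [L0, e']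
    simp only [mul_smul, ← Finset.smul_sum, sub_smul, ite_smul, Finset.sum_sub_distrib]
    simp
  let g : n → n → ℤ := fun j => f (Quotient.mk s j).out
  have k1 : S ≤ LinearMap.ker (L g) := Submodule.span_le.2 (by
    rintro _ ⟨i, rfl⟩
    obtain ⟨a, b, c, hc, e⟩ := L2 i
    have : Quotient.mk s a = Quotient.mk s b := Quotient.sound (show f a - f b ∈ S by
      have := S.smul_mem c (Submodule.subset_span ⟨i, rfl⟩)
      rwa [← L1 (A.row i), e, smul_smul, ← sq, hc, one_smul] at this)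
    change L g _ = 0
    rw [e]
    simp [g, this])
  have k2 : ∀ x, L g x - x ∈ S := fun x => by
    conv => enter [2, 2]; rw [← L1 x]
    rw [L0, L0, ← Finset.sum_sub_distrib]
    refine S.sum_mem fun j _ => ?_
    rw [← smul_sub]
    exact S.smul_mem _ (Quotient.mk_out (s := s) j)
  rw [tc, torsCard, AddSubgroup.card_eq_one, eq_bot_iff]
  intro y hy
  obtain ⟨x, rfl⟩ := Submodule.Quotient.mk_surjective _ y
  obtain ⟨k, hk, e⟩ := isOfFinAddOrder_iff_zsmul_eq_zero.1 hy
  have e1 : L g (k • x) = 0 := k1 ((Submodule.Quotient.mk_eq_zero _).1 e)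
  rw [map_smul, smul_eq_zero, or_iff_right hk] at e1
  have := S.neg_mem (k2 x)
  rw [e1, zero_sub, neg_neg] at this
  exact (Submodule.Quotient.mk_eq_zero _).2 this

theorem Sm.zero {A : Type} [AddCommGroup A] {D : ℕ} (z : Fin D → A) : Sm z 0 0 :=
  ⟨0, by simp, by simp⟩

theorem Sm.add {A : Type} [AddCommGroup A] {D a b : ℕ} {z : Fin D → A} {x y : A} (hx : Sm z a x)
    (hy : Sm z b y) : Sm z (a + b) (x + y) := by
  obtain ⟨c, h1, rfl⟩ := hx
  obtain ⟨d, h2, rfl⟩ := hy
  refine ⟨c + d, ?_, by simp [add_smul, Finset.sum_add_distrib]⟩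
  refine (Finset.sum_le_sum fun i _ => abs_add_le (c i) (d i)).trans ?_
  rw [Finset.sum_add_distrib]
  push_cast
  linarith

theorem Sm.neg {A : Type} [AddCommGroup A] {D a : ℕ} {z : Fin D → A} {x : A} (hx : Sm z a x) :
    Sm z a (-x) := by
  obtain ⟨c, h1, rfl⟩ := hx
  exact ⟨-c, by simpa using h1, by simp⟩

theorem Sm.mono {A : Type} [AddCommGroup A] {D a b : ℕ} {z : Fin D → A} {x : A} (hx : Sm z a x)
    (h : a ≤ b) : Sm z b x := by
  obtain ⟨c, h1, rfl⟩ := hx
  exact ⟨c, h1.trans (by exact_mod_cast h), rfl⟩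

lemma ntl_one {A : Type} [AddCommGroup A] {D : ℕ} (z : Fin D → A) (i : Fin D) : Sm z 1 (z i) :=
  ⟨Pi.single i 1, by simp [Pi.single_apply, apply_ite abs], by simp [Pi.single_apply, ite_smul]⟩

theorem sg_kap {H Q X A : Type} [Group H] [Group Q] [AddCommGroup A] {a : X → H} {ρ : H →* Q}
    (sq : ∀ s, a s * a s = 1) (gen : Subgroup.closure (Set.range a) = ⊤) {D B : ℕ}
    (h : SG a ρ D B) (κ : H → A) (c : Q → X → A) (κ1 : κ 1 = 0)
    (hκ : ∀ h s, κ (h * a s) = κ h + c (ρ h) s) :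
    ∃ (n : Fin D → H) (τ : Q → H), (∀ i, ρ (n i) = 1) ∧ (∀ h, ρ (τ (ρ h)) = ρ h) ∧
      (∀ i, ∃ l : List (H × X), l.length ≤ B ∧ κ (n i) = (l.map fun x => c (ρ x.1) x.2).sum) ∧
      ∀ h s, Sm (fun i => κ (n i)) B (κ (τ (ρ h)) + c (ρ h) s - κ (τ (ρ (h * a s)))) := by
  obtain ⟨n, τ, h1, h2, h3, h4⟩ := h
  have km : ∀ g, ρ g = 1 → ∀ h, κ (g * h) = κ g + κ h := fun g hg h =>
    ind_right (P := fun h => κ (g * h) = κ g + κ h) sq (by simp [κ1]) (fun w s ih => by
      rw [← mul_assoc, hκ, ih, hκ, map_mul, hg, one_mul, add_assoc]) (gen ▸ Subgroup.mem_top h)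
  refine ⟨n, τ, h1, h2, fun i => ?_, fun h s => ?_⟩
  · obtain ⟨l, l1, l2, l3⟩ := h3 i
    suffices ∃ l' : List (H × X), l'.length = l.length ∧
        κ l.prod = (l'.map fun x => c (ρ x.1) x.2).sum by
      obtain ⟨l', e1, e2⟩ := this
      exact ⟨l', e1 ▸ l1, l3 ▸ e2⟩
    clear l1 l3
    induction l using List.reverseRecOn with
    | nil => exact ⟨[], rfl, by simpa using κ1⟩
    | append_singleton l x ih =>
      obtain ⟨l', e1, e2⟩ := ih fun y hy => l2 y (by simp [hy])
      obtain ⟨s, rfl⟩ : ∃ s, a s = x := by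
        obtain ⟨s, e⟩ | ⟨s, e⟩ := l2 x (by simp)
        · exact ⟨s, e⟩
        · exact ⟨s, by rw [← inv_inv x, ← e, inv_eq_of_mul_eq_one_right (sq s)]⟩
      exact ⟨l' ++ [(l.prod, s)], by simp [e1], by simp [hκ, e2]⟩
  · obtain ⟨l, l1, l2, l3⟩ := h4 h s
    have k : ρ l.prod = 1 ∧ Sm (fun i => κ (n i)) l.length (κ l.prod) := by
      clear l1 l3
      induction l with
      | nil => exact ⟨by simp, by simpa [κ1] using Sm.zero _⟩
      | cons x l ih =>
        obtain ⟨e1, e2⟩ := ih fun y hy => l2 y (by simp [hy])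
        have : ρ x = 1 ∧ Sm (fun i => κ (n i)) 1 (κ x) := by
          obtain ⟨i, e⟩ | ⟨i, e⟩ := l2 x (by simp)
          · exact e ▸ ⟨h1 i, ntl_one _ i⟩
          · have e3 : ρ x = 1 := by rw [← inv_eq_one, ← map_inv, ← e, h1]
            have := km x e3 x⁻¹
            rw [mul_inv_cancel, κ1, ← e, eq_comm, add_eq_zero_iff_eq_neg] at this
            exact ⟨e3, this ▸ (ntl_one (fun i => κ (n i)) i).neg⟩
        rw [List.prod_cons, map_mul, this.1, e1, km x this.1, List.length_cons, add_comm l.length]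
        exact ⟨one_mul _, this.2.add e2⟩
    have := km _ k.1 (τ (ρ (h * a s)))
    rw [l3, inv_mul_cancel_right, hκ, h2, ← l3] at this
    rw [this, add_sub_cancel_right]
    exact k.2.mono l1

theorem SG.of_ker {H Q Q' X : Type} [Group H] [Group Q] [Group Q'] {a : X → H} {ρ : H →* Q}
    {ρ' : H →* Q'} (hk : ∀ h, ρ h = 1 ↔ ρ' h = 1) {D B : ℕ} (h : SG a ρ D B) : SG a ρ' D B := by
  obtain ⟨n, τ, h1, h2, h3, h4⟩ := h
  have k : ∀ x y, ρ x = ρ y ↔ ρ' x = ρ' y := fun x y => by
    rw [← mul_inv_eq_one, ← map_inv, ← map_mul, hk, map_mul, map_inv, mul_inv_eq_one]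
  have : Nonempty H := ⟨1⟩
  have e : ∀ x, ρ (Function.invFun ρ' (ρ' x)) = ρ x := fun x =>
    (k _ _).2 (Function.invFun_eq ⟨x, rfl⟩)
  refine ⟨n, fun q => τ (ρ (Function.invFun ρ' q)), fun i => (hk _).1 (h1 i), fun x => ?_, h3,
    fun x s => ?_⟩
  · simp only [e]
    exact (k _ _).1 (h2 x)
  · simp only [e]
    exact h4 x s

end

end Pool.Agent.Lib.MP_b65ff2_gt
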