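import Pool.Agent.Lib.MP_b65ff2_gt.NFil
import Pool.Agent.Lib.MP_b65ff2_gt.NTl
import Pool.Agent.Lib.MP_b65ff2_gt.NCell
import Pool.Agent.Lib.MP_b65ff2_gt.NPolyC

namespace Pool.Agent.Lib.MP_b65ff2_gt

open Matrix Filter Topology

set_option linter.unusedSectionVars false

noncomputable section

section
variable {Q : Type} [Group Q] (M : PM L11 Q)

lemma np_row_ex (r : npR M) : ∃ q v, r.1.1.1 = (q, {v}) ∧ M.p q vz = 0 ∧ v ≠ vz := by
  obtain ⟨⟨⟨⟨q, T⟩, hc⟩, hcard⟩, hz1, hz2⟩ := r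
  obtain ⟨v, rfl⟩ := Finset.card_eq_one.1 hcard
  exact ⟨q, v, rfl, hz1, fun h => hz2 (by simp [h])⟩

lemma np_sq_ex (x : npE M) : ∃ q s t, npK M x = (q, {s, t}) ∧ M.p q vz = 0 ∧ npAd s t := by
  obtain ⟨⟨⟨⟨q, T⟩, hcl, hp⟩, hcard⟩, hz1, hz2⟩ := x
  obtain ⟨s, t, hst, rfl⟩ := Finset.card_eq_two.1 hcard
  exact ⟨q, s, t, rfl, hz1, hcl (by simp) (by simp) hst, fun h => hz2 (by simp [h]),
    fun h => hz2 (by simp [h])⟩

lemma np_rel (q : Q) {v : V} (hv : v ≠ vz) :
    ((npNb v).map (npVec M q v)).sum ∈ Submodule.span ℤ (Set.range (M.d20ᵀ).row) := by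
  have h0 : ∀ q, M.p q vz = 0 → M.p q v = 0 →
      ((npNb v).map (npVec M q v)).sum ∈ Submodule.span ℤ (Set.range (M.d20ᵀ).row) := by
    intro q hq h
    let r : npR M := ⟨⟨⟨(q, {v}), by simp, by simp [h]⟩, Finset.card_singleton v⟩, hq,
      by simpa using hv.symm⟩
    have h1 := np_row M r (q := q) (v := v) rfl
    have h2 : ((npNb v).map (npVec M q v)).sum = npSg (npTot M q) • (M.d20ᵀ).row r := by
      rw [h1, smul_smul, np_sg_sq, one_smul]
    rw [h2]
    exact Submodule.smul_mem _ _ (Submodule.subset_span ⟨r, rfl⟩)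
  by_cases hq : M.p q vz = 0
  · rcases np_z2 (M.p q v) with h | h
    · exact h0 q hq h
    · have e : (npNb v).map (npVec M q v) = (npNb v).map (npVec M (q * M.g v) v) :=
        List.map_congr_left fun t ht => (np_vec_inv M q ((np_nb v t).1 ht).1).symm
      rw [e]
      refine h0 _ ?_ ?_
      · rw [M.p_mul_g, hq, if_neg hv.symm, add_zero]
      · rw [M.p_mul_g, h, if_pos rfl]; rfl
  · rw [List.sum_eq_zero]
    · exact Submodule.zero_mem _
    · intro x hx
      obtain ⟨t, ht, rfl⟩ := List.mem_map.1 hx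
      exact np_vec_zero M hq ((np_nb v t).1 ht)

lemma np_row_norm [Fintype (npE M)] (r : npR M) : ∑ e, |(M.d20ᵀ).row r e| ≤ (6 : ℕ) := by
  obtain ⟨q, v, hr, -, -⟩ := np_row_ex M r
  obtain ⟨w, h1, h2⟩ := (npNB.list (π := LinearMap.id) (K := 1) (npVec M q v)
    (fun t => ⟨_, by exact_mod_cast np_vec_norm M q v t, rfl⟩) (npNb v)).mono
    (K' := 6) (by simpa using np_nb_len v)
  rw [np_row M r hr, ← h2]
  rcases np_sg_pm (npTot M q) with h | h <;> simpa [h] using h1

lemma np_b_row [Fintype (npE M)] (r : npR M) :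
    Fintype.linearCombination ℤ (npBeta M) ((M.d20ᵀ).row r) = 0 := by
  obtain ⟨q, v, hr, hq, -⟩ := np_row_ex M r
  rw [np_row M r hr, map_smul, map_list_sum, List.map_map,
    List.map_congr_left (f := Fintype.linearCombination ℤ (npBeta M) ∘ npVec M q v)
      (g := fun t => npPt M q (npRt v t) - npPt M q (npRt t v))
      fun t ht => np_b0 M ((np_nb v t).1 ht) q hq, np_star_sum (npPt M q) v, smul_zero]

end

theorem poly_bound (n : ℕ) : ∃ C : ℕ, ∀ (Q : Type) [Group Q] [Finite Q] (M : TD n Q) (D B : ℕ),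
    1 ≤ B → SG (gP n) M.ρ D B → tc M.toPM.d20 ≤ (C * B ^ 2) ^ D := by
  obtain ⟨L, hL⟩ := np_core n
  refine ⟨24 * L + 1, fun Q _ _ M D B hB hSG => ?_⟩
  classical
  cases nonempty_fintype (npE M.toPM)
  rw [← tc_tr]
  set N := Submodule.span ℤ (Set.range (M.toPM.d20ᵀ).row) with hN
  have hk : N ≤ LinearMap.ker (Fintype.linearCombination ℤ (npBeta M.toPM)) := by
    rw [hN, Submodule.span_le]
    rintro _ ⟨r, rfl⟩
    exact np_b_row M.toPM r
  obtain ⟨l, y, h1, h2, h3⟩ := hL Q M D B hSG N.mkQ (fun q s t => N.mkQ (npVec M.toPM q s t))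
    (fun q s t => ⟨_, by exact_mod_cast np_vec_norm M.toPM q s t, rfl⟩)
    (fun q s t h => by rw [← map_add, np_vec_anti M.toPM q h.1, map_zero])
    (fun q s t h => by rw [np_vec_inv M.toPM q h.1])
    (fun q v hv => by
      have := (Submodule.Quotient.mk_eq_zero N).2 (np_rel M.toPM q hv)
      rwa [← Submodule.mkQ_apply, map_list_sum, List.map_map] at this)
    (N.liftQ _ hk).toAddMonoidHom (fun q s t hq h => np_b0 M.toPM h q hq)
  choose z hz1 hz2 using h2
  have hy : (fun i => N.mkQ (z i)) = y := funext hz2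
  refine (tl0 N.mkQ N.mkQ_surjective (M.toPM.d20ᵀ).row (N.ker_mkQ.trans hN)
    (np_row_norm M.toPM) (N.liftQ _ hk).toAddMonoidHom l z (fun i => hz2 i ▸ h1 i) hz1
    (m := L * B + L * B) fun e => ?_).trans (Nat.pow_le_pow_left ?_ _)
  · obtain ⟨q, s, t, he, hq, h⟩ := np_sq_ex M.toPM e
    have h4 := h3 q s t hq h
    rw [np_vec_base M.toPM e he] at h4
    rw [hy]
    have h5 : npO s t * npSg (npTot M.toPM q) = 1 ∨ npO s t * npSg (npTot M.toPM q) = -1 := by
      rcases np_o_pm s t h.1.ne with e1 | e1 <;> rcases np_sg_pm (npTot M.toPM q) with e2 | e2 <;>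
        simp [e1, e2]
    rcases h5 with h5 | h5
    · rwa [h5, one_smul] at h4
    · have h6 := h4.neg
      rw [h5, neg_one_smul, map_neg, map_neg, map_neg] at h6
      convert h6 using 1
      abel
  · have : B ≤ B ^ 2 := by nlinarith
    have : L * B ≤ L * B ^ 2 := Nat.mul_le_mul_left _ this
    nlinarith

end

end Pool.Agent.Lib.MP_b65ff2_gt
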