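import Pool.Agent.Lib.MP_b65ff2_gt.NRel
import Pool.Agent.Lib.MP_b65ff2_gt.NPoly
import Pool.Agent.Lib.MP_b65ff2_gt.NFib
import Pool.Agent.Lib.MP_b65ff2_gt.NGrp

namespace Pool.Agent.Lib.MP_b65ff2_gt

open Matrix Filter Topology

set_option linter.unusedSectionVars false

noncomputable section

/-- The model given by a normal subgroup inside the kernel of the parity vector. -/
def ntors_pm (N : Subgroup W) [N.Normal] (h : ∀ g ∈ N, par L11 g = 0) : PM L11 (W ⧸ N) where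
  g s := QuotientGroup.mk' N (gW s)
  p q := (QuotientGroup.lift N (parH L11) h q).toAdd
  sq s := by rw [← map_mul, gn_sq, map_one]
  cm s t a := by rw [← map_mul, gn_cm L11 a, map_mul]
  p_mul a b := by rw [map_mul, toAdd_mul]
  p_g s := par_gn L11 s
  gen := by
    have := MonoidHom.map_closure (QuotientGroup.mk' N) (Set.range (gn L11))
    rw [gn_closure, ← Set.range_comp, Subgroup.map_top_of_surjective _
      (QuotientGroup.mk'_surjective N)] at this
    exact this.symm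

lemma ntors_f (N : Subgroup W) [N.Normal] (h : ∀ g ∈ N, par L11 g = 0) (w : W) :
    (ntors_pm N h).f w = QuotientGroup.mk' N w := by
  induction w using RA.ind with
  | h1 => simp
  | hs w s ih => rw [map_mul, map_mul, ih, PM.f_gn]; rfl

lemma ntors_ker (N : Subgroup W) [N.Normal] (h : ∀ g ∈ N, par L11 g = 0) :
    (ntors_pm N h).f.ker = N := by
  ext w
  rw [MonoidHom.mem_ker, ntors_f, QuotientGroup.mk'_apply, QuotientGroup.eq_one_iff]

/-- The parity of the letter `vz`. -/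
def ntors_pz : W →* Multiplicative (ZMod 2) :=
  (Pi.evalMonoidHom (fun _ : V => Multiplicative (ZMod 2)) vz).comp
    ((MulEquiv.funMultiplicative V (ZMod 2)).toMonoidHom.comp (parH L11))

lemma ntors_pz_ker {w : W} : w ∈ ntors_pz.ker ↔ par L11 w vz = 0 := Iff.rfl

lemma ntors_par_inv (w : W) : par L11 w⁻¹ = par L11 w := by
  have : par L11 w⁻¹ = -par L11 w := by simp [par]
  rw [this]; funext s; exact ZMod.neg_eq_self_mod_two _

lemma ntors_par_pow (w : W) (k : ℕ) : par L11 (w ^ k) = k • par L11 w := by simp [par]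

lemma ntors_rel {n : ℕ} {w : W} (h : w ∈ relP n) : psi n w = 1 :=
  (QuotientGroup.eq_one_iff _).2 (Subgroup.subset_normalClosure h)

lemma ntors_surj (n : ℕ) : Function.Surjective (psi n) := QuotientGroup.mk'_surjective _

lemma ntors_td {n : ℕ} (N : Subgroup W) [N.Normal] (h : Typ n N) :
    ∃ M : TD n (W ⧸ N), M.toPM = ntors_pm N h.2.2.1 ∧
      ∀ x, ∃ w, psi n w = x ∧ par L11 w vz = 0 ∧ M.ρ x = QuotientGroup.mk' N w := by
  have one : ∀ w, psi n w = 1 → par L11 w vz = 0 → QuotientGroup.mk' N w = 1 := fun w a b =>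
    (QuotientGroup.eq_one_iff _).2 (h.2.2.2 w a b)
  obtain ⟨ρ, hρ⟩ := fil_lift n (ntors_pm N h.2.2.1).g (fun s _ => PM.sq _ s)
    (fun s t _ _ => PM.cm _ s t)
    (by
      show (QuotientGroup.mk' N _ * QuotientGroup.mk' N _) ^ _ = 1
      rw [← map_mul, ← map_pow]
      exact one _ (ntors_rel (by simp [relP]))
        (by simp +decide [ntors_par_pow, par_mul, par_gn]))
    (by
      show (QuotientGroup.mk' N _ * QuotientGroup.mk' N _) ^ _ = 1
      rw [← map_mul, ← map_pow]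
      exact one _ (ntors_rel (by simp [relP]))
        (by simp +decide [ntors_par_pow, par_mul, par_gn]))
  refine ⟨⟨ntors_pm N h.2.2.1, ρ, hρ, fun s => ?_⟩, rfl, fun x => ?_⟩
  · have e : ρ (psi n (gW vz)) = QuotientGroup.mk' N ((gW vy0 * gW vyh) ^ 3 ^ n) := by
      rw [psi_z, map_pow, map_pow, map_mul, map_mul, hρ _ (by decide), hρ _ (by decide), map_pow,
        map_mul]
      rfl
    rw [e]
    show Commute (QuotientGroup.mk' N _ * _) (QuotientGroup.mk' N _)
    rw [← map_mul]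
    generalize hc : gW vz * (gW vy0 * gW vyh) ^ 3 ^ n = c
    have c1 : psi n c = 1 := by rw [← hc, map_mul, ← psi_z, ← map_mul, gn_sq, map_one]
    have := one (c * gW s * c⁻¹ * (gW s)⁻¹) (by simp [c1]) (by
      simp only [par_mul, ntors_par_inv, Pi.add_apply]
      generalize par L11 c vz = a
      generalize par L11 (gW s) vz = b
      revert a b
      decide)
    rw [map_mul, map_mul, map_mul, map_inv, map_inv] at this
    exact commutatorElement_eq_one_iff_commute.1 this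
  · refine ind_right (gP_sq n)
      (P := fun x => ∃ w, psi n w = x ∧ par L11 w vz = 0 ∧ ρ x = QuotientGroup.mk' N w)
      ⟨1, map_one _, by simp [par], by simp⟩ ?_ (gP_gen n ▸ Subgroup.mem_top x)
    rintro _ s ⟨w, rfl, a, b⟩
    refine ⟨w * gW s.1, map_mul .., ?_, ?_⟩
    · rw [par_mul, par_gn, Pi.add_apply, a, Pi.single_eq_of_ne' s.2, add_zero]
    · rw [map_mul, map_mul, b, gP, hρ _ s.2]; rfl

lemma ntors_mono {H Q X : Type} [Group H] [Group Q] {a : X → H} {ρ : H →* Q} {D B B' : ℕ}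
    (h : SG a ρ D B) (hB : B ≤ B') : SG a ρ D B' := by
  obtain ⟨n, τ, h1, h2, h3, h4⟩ := h
  refine ⟨n, τ, h1, h2, fun i => ?_, fun x s => ?_⟩
  · obtain ⟨l, a, b⟩ := h3 i
    exact ⟨l, a.trans hB, b⟩
  · obtain ⟨l, a, b⟩ := h4 x s
    exact ⟨l, a.trans hB, b⟩

lemma ntors_num {t C C1 C2 D k I : ℕ} {γ : ℝ} (hγ : 0 < γ) (k1 : 1 ≤ k)
    (hk : C * (C1 + C2 + 4 * C) / γ ≤ k) (hD : D * k ^ 2 ≤ C * I)
    (ht : t ≤ (C2 * ((C + 1) ^ k) ^ 2) ^ D * (C1 * ((C + 1) ^ k) ^ 2) ^ D) :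
    Real.log t ≤ γ * I := by
  rcases Nat.eq_zero_or_pos t with rfl | t0
  · simp; positivity
  have ex : ∀ c : ℕ, (c : ℝ) + 1 ≤ Real.exp c := fun c => Real.add_one_le_exp _
  have b : ∀ c : ℕ, (c : ℝ) * (((C : ℝ) + 1) ^ k) ^ 2 ≤ Real.exp (c + 2 * k * C) := fun c => by
    rw [Real.exp_add, mul_assoc, show (2 : ℝ) * (k * C) = (2 : ℕ) * (k * C) by norm_num,
      Real.exp_nat_mul, Real.exp_nat_mul]
    have := ex c
    have := ex C
    gcongr
    linarith
  have k0 : (1 : ℝ) ≤ k := by exact_mod_cast k1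
  have e : (t : ℝ) ≤ Real.exp (D * (C2 + 2 * k * C) + D * (C1 + 2 * k * C)) := by
    rw [Real.exp_add, Real.exp_nat_mul, Real.exp_nat_mul]
    refine (Nat.cast_le.2 ht).trans ?_
    push_cast
    have := b C1
    have := b C2
    gcongr
  refine ((Real.log_le_iff_le_exp (by exact_mod_cast t0)).2 e).trans ?_
  have hD' : (D : ℝ) * k ^ 2 ≤ C * I := by exact_mod_cast hD
  rw [div_le_iff₀ hγ] at hk
  have A0 : (0 : ℝ) ≤ C1 + C2 + 4 * C := by positivity
  have s1 : (D : ℝ) * (C2 + 2 * k * C) + D * (C1 + 2 * k * C) ≤ D * k * (C1 + C2 + 4 * C) := by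
    have : (0 : ℝ) ≤ D * (k - 1) * (C1 + C2) :=
      mul_nonneg (mul_nonneg (Nat.cast_nonneg _) (by linarith)) (by positivity)
    nlinarith
  refine s1.trans (le_of_mul_le_mul_right ?_ (by linarith : (0 : ℝ) < k))
  calc (D : ℝ) * k * (C1 + C2 + 4 * C) * k = D * k ^ 2 * (C1 + C2 + 4 * C) := by ring
    _ ≤ C * I * (C1 + C2 + 4 * C) := by gcongr
    _ = C * (C1 + C2 + 4 * C) * I := by ring
    _ ≤ k * γ * I := by gcongr
    _ = _ := by ring

theorem tors_small (n : ℕ) (N0 : Subgroup W) (h : Typ n N0) {γ : ℝ} (hγ : 0 < γ) :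
    ∃ (Q : Type) (_ : Group Q) (_ : Finite Q) (M : PM L11 Q), M.f.ker ≤ N0 ∧ Typ n M.f.ker ∧
      Real.log (tc (M.dZ 1)) ≤ γ * Nat.card Q := by
  obtain ⟨h1, h2, h3, h4⟩ := h
  have := h1.map (psi n) (ntors_surj n)
  have : (N0.map (psi n)).FiniteIndex :=
    ⟨ne_zero_of_dvd_ne_zero h2.index_ne_zero (N0.index_map_dvd (ntors_surj n))⟩
  obtain ⟨C, hC⟩ := grp (gP n) (gP_gen n) (fib n) (N0.map (psi n))
  obtain ⟨C1, r1⟩ := rel_bound n
  obtain ⟨C2, r2⟩ := poly_bound n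
  obtain ⟨k, hk⟩ := exists_nat_ge ((C : ℝ) * (C1 + C2 + 4 * C) / γ)
  obtain ⟨N, _, n1, n2, D, n3, n4⟩ := hC (k + 1) (by omega)
  set N' := N.comap (psi n) ⊓ ntors_pz.ker with hN'
  have i1 : (N.comap (psi n)).index = N.index := N.index_comap_of_surjective (ntors_surj n)
  have : (N.comap (psi n)).FiniteIndex := ⟨i1 ▸ n2.index_ne_zero⟩
  have le : N' ≤ N0 := fun g hg => by
    obtain ⟨g0, a, b⟩ := n1 hg.1
    have := h4 (g * g0⁻¹) (by simp [b]) (by
      rw [par_mul, ntors_par_inv, h3 g0 a, add_zero]; exact hg.2)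
    simpa using N0.mul_mem this a
  have ty : Typ n N' := ⟨inferInstance, inferInstance, fun g hg => h3 g (le hg),
    fun g a b => ⟨by simp [a], b⟩⟩
  obtain ⟨M, m1, m2⟩ := ntors_td N' ty
  have sg : SG (gP n) M.ρ D ((C + 1) ^ (k + 1)) := by
    refine ntors_mono (n4.of_ker fun x => ?_) (Nat.pow_le_pow_left (by omega) _)
    obtain ⟨w, rfl, a, b⟩ := m2 x
    rw [b, QuotientGroup.mk'_apply, QuotientGroup.mk'_apply, QuotientGroup.eq_one_iff,
      QuotientGroup.eq_one_iff]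
    exact ⟨fun c => ⟨c, a⟩, fun c => c.1⟩
  have B1 : 1 ≤ (C + 1) ^ (k + 1) := Nat.one_le_pow _ _ (by omega)
  refine ⟨W ⧸ N', inferInstance, inferInstance, M.toPM, ?_, ?_, ?_⟩
  · rw [m1, ntors_ker]; exact le
  · rw [m1, ntors_ker]; exact ty
  · refine ntors_num (C := C) (C1 := C1) (C2 := C2) (D := D) (k := k + 1) hγ (by omega)
      (by push_cast; linarith) (n3.trans (Nat.mul_le_mul_left _ ?_))
      ((r1 _ M D _ B1 sg).trans (Nat.mul_le_mul_right _ (r2 _ M D _ B1 sg)))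
    rw [← i1]
    exact Subgroup.index_antitone (inf_le_left : N' ≤ _)

end

end Pool.Agent.Lib.MP_b65ff2_gt
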