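import Pool.Agent.Lib.MP_b65ff2_gt.NRes
import Pool.Agent.Lib.MP_b65ff2_gt.NTors

namespace Pool.Agent.Lib.MP_b65ff2_gt

open Matrix Filter Topology

set_option linter.unusedSectionVars false

noncomputable section

lemma nchain_zero : Typ 0 (GG L11) :=
  ⟨MonoidHom.normal_ker _, Subgroup.finiteIndex_ker _, fun _ h => h, fun _ a b => psi_par a b⟩

lemma nchain_sep {n : ℕ} {N : Subgroup W} (h : Typ n N) (g : W) :
    ∃ n' N', Typ n' N' ∧ N' ≤ N ∧ (g ≠ 1 → g ∉ N') := by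
  by_cases hg : g = 1
  · exact ⟨n, N, h, le_rfl, fun a => (a hg).elim⟩
  obtain ⟨m, a | ⟨N', a1, a2, a3⟩, b⟩ := ((res1 hg).and (eventually_ge_atTop n)).exists
  · exact ⟨n, N, h, le_rfl, fun _ c => a (by rw [h.2.2.1 g c]; rfl)⟩
  · obtain ⟨h1, h2, h3, h4⟩ := h
    have : (N'.comap (psi m)).FiniteIndex :=
      ⟨by rw [N'.index_comap_of_surjective (ntors_surj m)]; exact a2.index_ne_zero⟩
    exact ⟨m, N ⊓ N'.comap (psi m), ⟨inferInstance, inferInstance, fun x hx => h3 x hx.1,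
      fun x c d => ⟨h4 x (psi_nested b c) d, by simp [c]⟩⟩, inf_le_left, fun _ c => a3 c.2⟩

lemma nchain_enum : ∃ e : ℕ → W, Function.Surjective e := by
  have : Countable W := by
    refine Function.Surjective.countable (f := wd L11) fun w => ?_
    induction w using RA.ind with
    | h1 => exact ⟨[], rfl⟩
    | hs w s ih =>
      obtain ⟨l, rfl⟩ := ih
      exact ⟨l ++ [s], by simp [wd]⟩
  exact exists_surjective_nat W

theorem chain : ∃ (Q : ℕ → Type) (_ : ∀ k, Group (Q k)) (_ : ∀ k, Finite (Q k))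
    (M : ∀ k, PM L11 (Q k)), (Antitone fun k => (M k).f.ker) ∧
      (∀ g ≠ 1, ∃ k, (M k).f g ≠ 1) ∧
      ∀ k, Real.log (tc ((M k).dZ 1)) ≤ Nat.card (Q k) / (k + 1) := by
  obtain ⟨e, he⟩ := nchain_enum
  have step : ∀ (k : ℕ) (x : {x : ℕ × Subgroup W // Typ x.1 x.2}),
      ∃ y : {x : ℕ × Subgroup W // Typ x.1 x.2}, y.1.2 ≤ x.1.2 ∧ (e k ≠ 1 → e k ∉ y.1.2) ∧
        ∃ (Q : Type) (_ : Group Q) (_ : Finite Q) (M : PM L11 Q), M.f.ker = y.1.2 ∧
          Real.log (tc (M.dZ 1)) ≤ Nat.card Q / (k + 1) := fun k x => by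
    obtain ⟨n, N, a, b, c⟩ := nchain_sep x.2 (e k)
    obtain ⟨Q, _, _, M, m1, m2, m3⟩ := tors_small n N a (γ := 1 / (k + 1)) (by positivity)
    exact ⟨⟨(n, M.f.ker), m2⟩, m1.trans b, fun u v => c u (m1 v), Q, _, inferInstance, M, rfl,
      m3.trans_eq (by ring)⟩
  choose F f1 f2 Q iG iF M f3 f4 using step
  let x : ℕ → {x : ℕ × Subgroup W // Typ x.1 x.2} :=
    fun k => Nat.rec ⟨(0, GG L11), nchain_zero⟩ F k
  refine ⟨fun k => Q k (x k), fun k => iG k (x k), fun k => iF k (x k), fun k => M k (x k),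
    antitone_nat_of_succ_le fun k => ?_, fun g hg => ?_, fun k => f4 k (x k)⟩
  · simp only [f3]
    exact f1 (k + 1) (x (k + 1))
  · obtain ⟨k, rfl⟩ := he g
    refine ⟨k, fun h => f2 k (x k) hg ?_⟩
    rw [← f3]; exact h

end

end Pool.Agent.Lib.MP_b65ff2_gt
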