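import Pool.Agent.Lib.MP_b65ff2_gt.NAct

namespace Pool.Agent.Lib.MP_b65ff2_gt

open Matrix Filter Topology

set_option linter.unusedSectionVars false

noncomputable section

namespace NCon

open NAct

variable {S : Type} [Fintype S] [DecidableEq S] {Γ : SimpleGraph S}

/-- Depth of a wall. -/
def dp (r : RA Γ) : ℕ := sInf {n | ∃ u, nn Γ u r = 1 ∧ len Γ u = n}

lemma nn_gn_ne (u : RA Γ) (s : S) {r : RA Γ} (h : r ≠ wl u s) :
    nn Γ (u * gn Γ s) r = nn Γ u r := by
  rw [nn_mul_gn, Finsupp.add_apply]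
  change _ + Finsupp.single (wl u s) 1 r = _
  rw [Finsupp.single_eq_of_ne h, add_zero]

lemma nn_wl_zero {u : RA Γ} {s : S} (h : ¬Dn Γ u s) : nn Γ u (wl u s) = 0 :=
  (z2 _).resolve_right fun e => h ((nn_wall u s).1 e)

lemma mono {v : RA Γ} {s t : S} (hs : Dn Γ v s) (hne : s ≠ t) (hn : ¬Γ.Adj s t) :
    dp (wl v s) < dp (wl v t) := by
  have ht : ¬Dn Γ v t := fun h => hn (Dn_clique hs h hne)
  have h0 : {n | ∃ u, nn Γ u (wl v t) = 1 ∧ len Γ u = n}.Nonempty :=
    ⟨_, v * gn Γ t, by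
      rw [← wl_self]; exact (nn_wall _ t).2 ((Dn_mul_self v t).2 ht), rfl⟩
  obtain ⟨u, hu, hl⟩ := Nat.sInf_mem h0
  have key : ∀ a, nn Γ u (wl v a) = nn Γ v (wl v a) + nn Γ (v⁻¹ * u) (gn Γ a) := fun a => by
    have := nn_mul v (v⁻¹ * u) (wl v a)
    rw [mul_inv_cancel_left] at this
    rw [this]
    congr 2
    unfold wl
    group
  have h1 : nn Γ (v⁻¹ * u) (gn Γ t) = 1 := by
    have := key t
    rwa [hu, nn_wl_zero ht, zero_add, eq_comm] at this
  have h2 : nn Γ (v⁻¹ * u) (gn Γ s) = 0 := (z2 _).resolve_right fun e =>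
    hn (Dn_clique ((nn_left _ s).1 e) ((nn_left _ t).1 h1) hne)
  have h3 : nn Γ u (wl v s) = 1 := by
    rw [key, h2, add_zero]; exact (nn_wall v s).2 hs
  have hu1 : u ≠ 1 := by
    rintro rfl
    rw [nn_one, Finsupp.zero_apply] at hu
    exact zero_ne_one hu
  obtain ⟨a, ha⟩ : ∃ a, Dn Γ u a := by
    by_contra h
    exact hu1 (eq_one_of_not_Dn fun a ha => h ⟨a, ha⟩)
  have hd := len_down ha
  have h4 : wl v t = wl u a := by
    by_contra h
    have : dp (wl v t) ≤ len Γ (u * gn Γ a) := Nat.sInf_le ⟨_, by rw [nn_gn_ne u a h, hu], rfl⟩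
    unfold dp at this
    omega
  have h5 : wl v s ≠ wl u a := fun e => hne (wl_inj v (e.trans h4.symm))
  have : dp (wl v s) ≤ len Γ (u * gn Γ a) := Nat.sInf_le ⟨_, by rw [nn_gn_ne u a h5, h3], rfl⟩
  unfold dp at this ⊢
  omega

lemma top (n : ℕ) : ∀ v : RA Γ, len Γ v = n → ∀ r, nn Γ v r = 1 →
    ∃ s, Dn Γ v s ∧ (r = wl v s ∨ dp r < dp (wl v s)) := by
  induction n using Nat.strong_induction_on with
  | _ n ih =>
    intro v hn r hr
    obtain ⟨s, hs⟩ : ∃ a, Dn Γ v a := by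
      by_contra h
      rw [eq_one_of_not_Dn fun a ha => h ⟨a, ha⟩, nn_one, Finsupp.zero_apply] at hr
      exact zero_ne_one hr
    by_cases e : r = wl v s
    · exact ⟨s, hs, .inl e⟩
    have hd := len_down hs
    obtain ⟨a, ha, h⟩ := ih _ (by omega) (v * gn Γ s) rfl r (by rw [nn_gn_ne v s e, hr])
    have hne : a ≠ s := by
      rintro rfl
      exact (Dn_mul_self v a).1 ha hs
    by_cases hadj : Γ.Adj s a
    · rw [wl_adj v hadj] at h
      exact ⟨a, (Dn_mul_adj v hadj).1 ha, h⟩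
    · have := mono ha hne fun h => hadj h.symm
      rw [wl_self] at this
      refine ⟨s, hs, .inr ?_⟩
      rcases h with h | h
      · rwa [h]
      · exact h.trans this

open Classical in
lemma upper (n : ℕ) : ∀ (u : RA Γ) (t : S → ℝ),
    (Finset.univ.filter fun s => t s ≠ 0 ∧ ¬Dn Γ u s).card = n →
    Ok Γ t → ∃ v t', Ok Γ t' ∧ pt Γ u t = pt Γ v t' ∧ ∀ s, t' s ≠ 0 → Dn Γ v s := by
  induction n using Nat.strong_induction_on with
  | _ n ih =>
    intro u t hn h
    by_cases hd : ∃ s, t s ≠ 0 ∧ ¬Dn Γ u s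
    · obtain ⟨s, hs0, hs⟩ := hd
      have hlt : (Finset.univ.filter fun a =>
          Function.update t s (1 - t s) a ≠ 0 ∧ ¬Dn Γ (u * gn Γ s) a).card < n := by
        rw [← hn]
        refine Finset.card_lt_card ⟨fun a ha => ?_, fun hh => ?_⟩
        · rw [Finset.mem_filter] at ha ⊢
          rcases eq_or_ne a s with rfl | e
          · exact ⟨ha.1, hs0, hs⟩
          · have h1 : t a ≠ 0 := by simpa [Function.update_of_ne e] using ha.2.1
            exact ⟨ha.1, h1, fun hD => ha.2.2 ((Dn_mul_adj u (h.2 hs0 h1 e.symm)).2 hD)⟩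
        · have := Finset.mem_filter.1 (hh (Finset.mem_filter.2 ⟨Finset.mem_univ s, hs0, hs⟩))
          exact this.2.2 ((Dn_mul_self u s).2 hs)
      obtain ⟨v, t', h1, h2, h3⟩ := ih _ hlt (u * gn Γ s) _ rfl (h.upd hs0)
      exact ⟨v, t', h1, (flip u h hs0).trans h2, h3⟩
    · exact ⟨u, t, h, rfl, fun s hs => not_not.1 fun hD => hd ⟨s, hs, hD⟩⟩

lemma pt_mem (u : RA Γ) {t : S → ℝ} (ht : ∀ s, t s ∈ Set.Icc (0 : ℝ) 1) (r : RA Γ) :
    pt Γ u t r ∈ Set.Icc (0 : ℝ) 1 := by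
  have h := sm_mem u ht r
  rw [pt_eq u ht]
  rcases z2 (nn Γ u r) with e | e <;> rw [e]
  · rwa [fl_zero]
  · rw [fl_one]; exact ⟨sub_nonneg.2 h.2, sub_le_self _ h.1⟩

lemma sm_zero {v : RA Γ} {t : S → ℝ} (h : ∀ s, t s ≠ 0 → Dn Γ v s) {r : RA Γ}
    (hr : nn Γ v r = 0) : sm v t r = 0 := by
  rcases sm_cases v t r with e | ⟨a, ha, e⟩
  · exact e
  · rw [e]
    by_contra hne
    have := (nn_wall v a).2 (h a hne)
    change nn Γ v (wl v a) = 1 at this
    rw [← ha, hr] at this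
    exact zero_ne_one this

lemma trunc {c : ℕ → ℝ} (hc : ∀ d, c d ∈ Set.Icc (0 : ℝ) 1)
    (hm : ∀ d d', d < d' → c d' ≠ 0 → c d = 1) (n : ℕ) :
    ∀ (v : RA Γ) (t : S → ℝ), len Γ v = n → Ok Γ t → (∀ s, t s ≠ 0 → Dn Γ v s) →
      ∃ u t', Ok Γ t' ∧ (fun r => min (pt Γ v t r) (c (dp r))) = pt Γ u t' := by
  classical
  induction n using Nat.strong_induction_on with
  | _ n ih =>
    intro v t hn h hD
    by_cases hA : ∃ s, Dn Γ v s ∧ c (dp (wl v s)) = 0
    · obtain ⟨s, hs, h0⟩ := hA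
      have hd := len_down hs
      have hsub : ∀ a, Function.update t s 0 a ≠ 0 → a ≠ s ∧ t a ≠ 0 := fun a ha => by
        rcases eq_or_ne a s with rfl | e
        · simp at ha
        · exact ⟨e, by rwa [Function.update_of_ne e] at ha⟩
      have hok : Ok Γ (Function.update t s 0) := by
        refine ⟨fun a => ?_, h.2.subset fun a ha => (hsub a ha).2⟩
        rcases eq_or_ne a s with rfl | e
        · simp
        · rw [Function.update_of_ne e]; exact h.1 a
      obtain ⟨u, t', h1, h2⟩ := ih _ (by omega) (v * gn Γ s) _ rfl hok fun a ha =>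
        (Dn_mul_adj v (Dn_clique hs (hD a (hsub a ha).2) (hsub a ha).1.symm)).2
          (hD a (hsub a ha).2)
      refine ⟨u, t', h1, Eq.trans (funext fun r => ?_) h2⟩
      rcases eq_or_ne r (wl v s) with rfl | hr
      · rw [h0, min_eq_right (pt_mem v h.1 _).1, min_eq_right (pt_mem _ hok.1 _).1]
      · rw [pt_eq v h.1, pt_eq _ hok.1, nn_gn_ne v s hr]
        congr 2
        unfold sm
        refine Finset.sum_congr rfl fun a _ => ?_
        rcases eq_or_ne a s with rfl | e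
        · simp [hr]
        · rw [Function.update_of_ne e]
          by_cases ha : t a = 0
          · simp [ha]
          · rw [wl_adj v (Dn_clique hs (hD a ha) e.symm)]
    · let t' : S → ℝ := fun s => if Dn Γ v s then max (t s) (1 - c (dp (wl v s))) else 0
      have hD' : ∀ s, t' s ≠ 0 → Dn Γ v s := fun s hs => by
        by_contra hh
        exact hs (if_neg hh)
      have hok : Ok Γ t' := by
        refine ⟨fun a => ?_, fun a ha b hb hab => Dn_clique (hD' a ha) (hD' b hb) hab⟩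
        simp only [t']
        split_ifs
        · exact ⟨le_max_of_le_left (h.1 a).1, max_le (h.1 a).2 (sub_le_self _ (hc _).1)⟩
        · simp
      refine ⟨v, t', hok, funext fun r => ?_⟩
      rw [pt_eq v h.1, pt_eq v hok.1]
      rcases z2 (nn Γ v r) with e | e
      · rw [e, fl_zero, fl_zero, sm_zero hD e, sm_zero hD' e, min_eq_left (hc _).1]
      · rw [e, fl_one, fl_one]
        by_cases hr : ∃ s, r = wl v s
        · obtain ⟨s, rfl⟩ := hr
          have hs : Dn Γ v s := (nn_wall v s).1 e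
          rw [sm_wl, sm_wl]
          simp only [t', if_pos hs]
          rw [← min_sub_sub_left, sub_sub_cancel]
        · have z : ∀ f : S → ℝ, sm v f r = 0 := fun f =>
            (sm_cases v f r).resolve_right fun ⟨s, hs, _⟩ => hr ⟨s, hs⟩
          obtain ⟨s, hs, hh⟩ := top _ v rfl r e
          rw [z, z, hm _ _ (hh.resolve_left fun e => hr ⟨s, e⟩) fun e => hA ⟨s, hs, e⟩]
          simp

/-- The cut-off function. -/
def cf (e : ℝ) (d : ℕ) : ℝ := max 0 (min 1 (2 - e * 2 ^ (d + 1)))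

lemma cf_mem (e : ℝ) (d : ℕ) : cf e d ∈ Set.Icc (0 : ℝ) 1 :=
  ⟨le_max_left _ _, max_le zero_le_one (min_le_left _ _)⟩

lemma cf_mono {e : ℝ} (he : 0 ≤ e) (d d' : ℕ) (h : d < d') (h0 : cf e d' ≠ 0) : cf e d = 1 := by
  have h1 : 0 < 2 - e * 2 ^ (d' + 1) := by
    by_contra hh
    exact h0 (max_eq_left ((min_le_right _ _).trans (not_lt.1 hh)))
  have h2 : (2 : ℝ) ^ (d + 1) ≤ 2 ^ d' := pow_le_pow_right₀ one_le_two h
  have h3 := mul_le_mul_of_nonneg_left h2 he
  rw [pow_succ] at h1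
  unfold cf
  rw [min_eq_left (by linarith), max_eq_right zero_le_one]

lemma cf_zero (d : ℕ) : cf 0 d = 1 := by simp [cf]

lemma cf_one (d : ℕ) : cf 1 d = 0 := by
  have : (2 : ℝ) ^ 1 ≤ 2 ^ (d + 1) := pow_le_pow_right₀ one_le_two (by omega)
  exact max_eq_left ((min_le_right _ _).trans (by linarith))

lemma val_mem (x : Dav Γ) (r : RA Γ) : x.1 r ∈ Set.Icc (0 : ℝ) 1 := by
  obtain ⟨u, t, h1, -, h3⟩ := x.2
  rw [h3]; exact pt_mem u h1 r

/-- The contraction. -/
def hty (p : unitInterval × Dav Γ) : Dav Γ :=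
  ⟨fun r => min (p.2.1 r) (cf p.1 (dp r)), by
    obtain ⟨u, t, h1, h2, h3⟩ := p.2.2
    obtain ⟨v, t', g1, g2, g3⟩ := upper _ u t rfl ⟨h1, h2⟩
    obtain ⟨w, t'', k1, k2⟩ := trunc (cf_mem p.1) (cf_mono p.1.2.1) _ v t' rfl g1 g3
    exact ⟨w, t'', k1.1, k1.2, by rw [h3, g2]; exact k2⟩⟩

lemma hty_cont : Continuous (hty (Γ := Γ)) := by
  refine Continuous.subtype_mk (continuous_pi fun r => ?_) _
  have h : Continuous fun x : Dav Γ => x.1 r := (continuous_apply _).comp continuous_subtype_val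
  refine (h.comp continuous_snd).min ?_
  unfold cf
  fun_prop

end NCon

theorem dav_contr {S : Type} [Fintype S] [DecidableEq S] (Γ : SimpleGraph S) :
    ContractibleSpace (Dav Γ) := by
  let x0 : Dav Γ := ⟨pt Γ 1 0, 1, 0, by simp, by simp, rfl⟩
  refine (contractible_iff_id_nullhomotopic _).2
    ⟨NCon.hty (1, x0), ⟨⟨⟨NCon.hty, NCon.hty_cont⟩, fun x => ?_, fun x => ?_⟩⟩⟩
  · refine Subtype.ext (funext fun r => ?_)
    change min (x.1 r) (NCon.cf 0 _) = x.1 r
    rw [NCon.cf_zero, min_eq_left (NCon.val_mem x r).2]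
  · refine Subtype.ext (funext fun r => ?_)
    change min (x.1 r) (NCon.cf 1 _) = min (x0.1 r) (NCon.cf 1 _)
    rw [NCon.cf_one, min_eq_right (NCon.val_mem x r).1, min_eq_right (NCon.val_mem x0 r).1]

end

end Pool.Agent.Lib.MP_b65ff2_gt
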