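import Pool.Agent.Lib.MP_b65ff2_gt.NL11

namespace Pool.Agent.Lib.MP_b65ff2_gt

open Matrix Filter Topology

set_option linter.unusedSectionVars false

noncomputable section

/-- The 28 non-edges of the flag sphere, in seven groups. -/
def ncone_NE (t : V → ℝ) : Prop :=
  (t 10 = 0 ∨ t 0 = 0 ∧ t 1 = 0 ∧ t 2 = 0 ∧ t 3 = 0 ∧ t 4 = 0 ∧ t 5 = 0) ∧
  (t 9 = 0 ∨ t 0 = 0 ∧ t 1 = 0 ∧ t 2 = 0 ∧ t 8 = 0) ∧
  (t 0 = 0 ∧ t 3 = 0 ∧ t 6 = 0 ∨ t 1 = 0 ∧ t 4 = 0 ∧ t 7 = 0) ∧
  (t 8 = 0 ∨ t 3 = 0 ∧ t 4 = 0 ∧ t 5 = 0) ∧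
  (t 6 = 0 ∨ t 2 = 0 ∧ t 5 = 0) ∧ (t 7 = 0 ∨ t 2 = 0 ∧ t 5 = 0) ∧
  (t 2 = 0 ∨ t 3 = 0 ∧ t 4 = 0)

def ncone_non : List (V × V) :=
  [(10, 0), (10, 1), (10, 2), (10, 3), (10, 4), (10, 5), (9, 0), (9, 1), (9, 2), (9, 8),
    (0, 1), (0, 4), (0, 7), (3, 1), (3, 4), (3, 7), (6, 1), (6, 4), (6, 7), (8, 3), (8, 4), (8, 5),
    (6, 2), (6, 5), (7, 2), (7, 5), (2, 3), (2, 4)]

lemma ncone_non_a : ∀ s u : V, s ≠ u → L11.Adj s u ∨ (s, u) ∈ ncone_non ∨ (u, s) ∈ ncone_non := by
  decide +kernel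

lemma ncone_non_b : ∀ e ∈ ncone_non, e.1 ≠ e.2 ∧ ¬L11.Adj e.1 e.2 := by
  decide +kernel

lemma ncone_or {a b : Prop} {c : Prop} (h1 : a ∨ b) (h2 : a ∨ c) : a ∨ b ∧ c := by tauto

lemma ncone_clique (t : V → ℝ) : L11.IsClique {s | t s ≠ 0} ↔ ncone_NE t := by
  have key : L11.IsClique {s | t s ≠ 0} ↔ ∀ e ∈ ncone_non, t e.1 = 0 ∨ t e.2 = 0 := by
    constructor
    · intro h e he
      by_contra hc
      rw [not_or] at hc
      exact (ncone_non_b e he).2 (h hc.1 hc.2 (ncone_non_b e he).1)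
    · intro h s hs u hu hne
      rcases ncone_non_a s u hne with h1 | h1 | h1
      · exact h1
      · exact ((h _ h1).elim hs hu).elim
      · exact ((h _ h1).elim hu hs).elim
  rw [key]
  simp only [ncone_non, List.forall_mem_cons, List.not_mem_nil, false_imp_iff, implies_true,
    and_true, ncone_NE]
  constructor
  · rintro ⟨a0, a1, a2, a3, a4, a5, b0, b1, b2, b8, c01, c04, c07, c31, c34, c37, c61, c64, c67,
      d3, d4, d5, e2, e5, f2, f5, g3, g4⟩
    refine ⟨ncone_or a0 (ncone_or a1 (ncone_or a2 (ncone_or a3 (ncone_or a4 a5)))),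
      ncone_or b0 (ncone_or b1 (ncone_or b2 b8)), ?_, ncone_or d3 (ncone_or d4 d5),
      ncone_or e2 e5, ncone_or f2 f5, ncone_or g3 g4⟩
    have h0 := ncone_or c01 (ncone_or c04 c07)
    have h3 := ncone_or c31 (ncone_or c34 c37)
    have h6 := ncone_or c61 (ncone_or c64 c67)
    exact (h0.symm.elim Or.inr fun x0 => h3.symm.elim Or.inr fun x3 =>
      h6.symm.elim Or.inr fun x6 => Or.inl ⟨x0, x3, x6⟩)
  · rintro ⟨a, b, c, d, e, f, g⟩
    exact ⟨a.imp_right (·.1), a.imp_right (·.2.1), a.imp_right (·.2.2.1), a.imp_right (·.2.2.2.1),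
      a.imp_right (·.2.2.2.2.1), a.imp_right (·.2.2.2.2.2), b.imp_right (·.1), b.imp_right (·.2.1),
      b.imp_right (·.2.2.1), b.imp_right (·.2.2.2), c.imp (·.1) (·.1), c.imp (·.1) (·.2.1),
      c.imp (·.1) (·.2.2), c.imp (·.2.1) (·.1), c.imp (·.2.1) (·.2.1), c.imp (·.2.1) (·.2.2),
      c.imp (·.2.2) (·.1), c.imp (·.2.2) (·.2.1), c.imp (·.2.2) (·.2.2), d.imp_right (·.1),
      d.imp_right (·.2.1), d.imp_right (·.2.2), e.imp_right (·.1), e.imp_right (·.2),
      f.imp_right (·.1), f.imp_right (·.2), g.imp_right (·.1), g.imp_right (·.2)⟩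

/-- The linear map of the fan. -/
def ncone_F (t : V → ℝ) : Fin 3 → ℝ :=
  ![t 1 + t 4 + t 7 - (t 0 + t 3 + t 6), t 9 - (t 0 + t 1 + t 2 + t 8),
    t 0 + t 1 + t 2 + t 3 + t 4 + t 5 - t 10]

/-- The inverse map in terms of the positive and negative parts of the coordinates. -/
def ncone_g (m p b y c z : ℝ) : V → ℝ :=
  ![min m (min b c), min p (min b c), min b c - min m (min b c) - min p (min b c),
    min m c - min m (min b c), min p c - min p (min b c),
    c - min b c - min m c - min p c + min m (min b c) + min p (min b c),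
    m - min m c, p - min p c, b - min b c, y, z]

def ncone_G (x : Fin 3 → ℝ) : V → ℝ :=
  ncone_g (max (-x 0) 0) (max (x 0) 0) (max (-x 1) 0) (max (x 1) 0) (max (x 2) 0) (max (-x 2) 0)

lemma ncone_half {m b c : ℝ} (hm : 0 ≤ m) (hb : 0 ≤ b) (hc : 0 ≤ c) :
    0 ≤ min m (min b c) ∧ 0 ≤ min b c - min m (min b c) ∧ 0 ≤ min m c - min m (min b c) ∧
      0 ≤ c - min b c - min m c + min m (min b c) ∧
      (m - min m c = 0 ∨ min b c - min m (min b c) = 0 ∧
        c - min b c - min m c + min m (min b c) = 0) ∧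
      (min b c - min m (min b c) = 0 ∨ min m c - min m (min b c) = 0) := by
  have h1 : min b c ≤ c := min_le_right _ _
  have h2 : min m c ≤ c := min_le_right _ _
  have h3 : min m c ≤ m := min_le_left _ _
  refine ⟨le_min hm (le_min hb hc), sub_nonneg.2 (min_le_right _ _),
    sub_nonneg.2 (min_le_min le_rfl h1), ?_, ?_, ?_⟩
  · rcases le_total m (min b c) with h | h
    · rw [min_eq_left h]; linarith
    · rw [min_eq_right h]; linarith
  · rcases le_total m c with h | h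
    · left; rw [min_eq_left h, sub_self]
    · right; rw [min_eq_right h, min_eq_right (h1.trans h)]; constructor <;> ring
  · rcases le_total m (min b c) with h | h
    · right; rw [min_eq_left h, min_eq_left (h.trans h1), sub_self]
    · left; rw [min_eq_right h, sub_self]

lemma ncone_g_mem {m p b y c z : ℝ} (hm : 0 ≤ m) (hp : 0 ≤ p) (hb : 0 ≤ b) (hy : 0 ≤ y)
    (hc : 0 ≤ c) (hz : 0 ≤ z) (h1 : m = 0 ∨ p = 0) (h2 : y = 0 ∨ b = 0) (h3 : z = 0 ∨ c = 0) :
    (∀ s, 0 ≤ ncone_g m p b y c z s) ∧ ncone_NE (ncone_g m p b y c z) := by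
  have hbc : 0 ≤ min b c := le_min hb hc
  have hM := ncone_half hm hb hc
  have hP := ncone_half hp hb hc
  have e0 : ncone_g m p b y c z 0 = min m (min b c) := rfl
  have e1 : ncone_g m p b y c z 1 = min p (min b c) := rfl
  have e2 : ncone_g m p b y c z 2 = min b c - min m (min b c) - min p (min b c) := rfl
  have e3 : ncone_g m p b y c z 3 = min m c - min m (min b c) := rfl
  have e4 : ncone_g m p b y c z 4 = min p c - min p (min b c) := rfl
  have e5 : ncone_g m p b y c z 5 =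
      c - min b c - min m c - min p c + min m (min b c) + min p (min b c) := rfl
  have e6 : ncone_g m p b y c z 6 = m - min m c := rfl
  have e7 : ncone_g m p b y c z 7 = p - min p c := rfl
  have e8 : ncone_g m p b y c z 8 = b - min b c := rfl
  have e9 : ncone_g m p b y c z 9 = y := rfl
  have e10 : ncone_g m p b y c z 10 = z := rfl
  have n6 : 0 ≤ m - min m c := sub_nonneg.2 (min_le_left _ _)
  have n7 : 0 ≤ p - min p c := sub_nonneg.2 (min_le_left _ _)
  have n8 : 0 ≤ b - min b c := sub_nonneg.2 (min_le_left _ _)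
  have main : (0 ≤ ncone_g m p b y c z 2 ∧ 0 ≤ ncone_g m p b y c z 5) ∧
      (ncone_g m p b y c z 0 = 0 ∧ ncone_g m p b y c z 3 = 0 ∧ ncone_g m p b y c z 6 = 0 ∨
        ncone_g m p b y c z 1 = 0 ∧ ncone_g m p b y c z 4 = 0 ∧ ncone_g m p b y c z 7 = 0) ∧
      (ncone_g m p b y c z 6 = 0 ∨ ncone_g m p b y c z 2 = 0 ∧ ncone_g m p b y c z 5 = 0) ∧
      (ncone_g m p b y c z 7 = 0 ∨ ncone_g m p b y c z 2 = 0 ∧ ncone_g m p b y c z 5 = 0) ∧
      (ncone_g m p b y c z 2 = 0 ∨ ncone_g m p b y c z 3 = 0 ∧ ncone_g m p b y c z 4 = 0) := by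
    rw [e0, e1, e2, e3, e4, e5, e6, e7]
    rcases h1 with rfl | rfl
    · rw [min_eq_left hbc, min_eq_left hc]
      simp only [sub_zero, add_zero, and_self, true_or, true_and]
      exact ⟨⟨hP.2.1, hP.2.2.2.1⟩, hP.2.2.2.2.1, hP.2.2.2.2.2⟩
    · rw [min_eq_left hbc, min_eq_left hc]
      simp only [sub_zero, add_zero, and_self, true_or, or_true, true_and, and_true]
      exact ⟨⟨hM.2.1, hM.2.2.2.1⟩, hM.2.2.2.2.1, hM.2.2.2.2.2⟩
  refine ⟨fun s => ?_, ?_, ?_, main.2.1, ?_, main.2.2⟩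
  · fin_cases s
    · exact hM.1
    · exact hP.1
    · exact main.1.1
    · exact hM.2.2.1
    · exact hP.2.2.1
    · exact main.1.2
    · exact n6
    · exact n7
    · exact n8
    · exact hy
    · exact hz
  · rw [e0, e1, e2, e3, e4, e5, e10]
    refine h3.imp_right ?_
    rintro rfl
    simp [min_eq_right hb, min_eq_right hm, min_eq_right hp]
  · rw [e0, e1, e2, e8, e9]
    refine h2.imp_right ?_
    rintro rfl
    simp [min_eq_left hc, min_eq_right hm, min_eq_right hp]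
  · rw [e3, e4, e5, e8]
    rcases le_total b c with h | h
    · left; rw [min_eq_left h, sub_self]
    · right; rw [min_eq_right h]; refine ⟨?_, ?_, ?_⟩ <;> ring

lemma ncone_pm (a : ℝ) : max (-a) 0 = 0 ∨ max a 0 = 0 := by
  rcases le_total a 0 with h | h
  · exact Or.inr (max_eq_right h)
  · exact Or.inl (max_eq_right (neg_nonpos.2 h))

lemma ncone_G_mem (x : Fin 3 → ℝ) :
    (∀ s, 0 ≤ ncone_G x s) ∧ L11.IsClique {s | ncone_G x s ≠ 0} := by
  rw [ncone_clique]
  exact ncone_g_mem (le_max_right _ _) (le_max_right _ _) (le_max_right _ _) (le_max_right _ _)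
    (le_max_right _ _) (le_max_right _ _) (ncone_pm _) (ncone_pm _).symm (ncone_pm _)

lemma ncone_sub (a : ℝ) : max a 0 - max (-a) 0 = a := by
  rcases le_total a 0 with h | h
  · rw [max_eq_right h, max_eq_left (neg_nonneg.2 h)]; ring
  · rw [max_eq_left h, max_eq_right (neg_nonpos.2 h)]; ring

lemma ncone_Fg (m p b y c z : ℝ) : ncone_F (ncone_g m p b y c z) = ![p - m, y - b, c - z] := by
  funext i
  fin_cases i <;> simp [ncone_F, ncone_g] <;> ring

lemma ncone_FG (x : Fin 3 → ℝ) : ncone_F (ncone_G x) = x := by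
  rw [ncone_G, ncone_Fg, ncone_sub, ncone_sub, ncone_sub]
  funext i
  fin_cases i <;> rfl

lemma ncone_max {a b : ℝ} (ha : 0 ≤ a) (hb : 0 ≤ b) (h : a = 0 ∨ b = 0) :
    max (a - b) 0 = a ∧ max (-(a - b)) 0 = b := by
  rcases h with rfl | rfl
  · exact ⟨max_eq_right (by linarith), by rw [zero_sub, neg_neg]; exact max_eq_left hb⟩
  · exact ⟨by rw [sub_zero]; exact max_eq_left ha, max_eq_right (by linarith)⟩

lemma ncone_min {u v w : ℝ} (hu : w ≤ u) (hv : w ≤ v) (h : u = w ∨ v = w) : min u v = w := by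
  rcases h with rfl | rfl
  · exact min_eq_left hv
  · exact min_eq_right hu

lemma ncone_GF (t : V → ℝ) (h0 : ∀ s, 0 ≤ t s) (h : ncone_NE t) : ncone_G (ncone_F t) = t := by
  obtain ⟨a, b, c, d, e, f, g⟩ := h
  have p0 := h0 0
  have p1 := h0 1
  have p2 := h0 2
  have p3 := h0 3
  have p4 := h0 4
  have p5 := h0 5
  have p6 := h0 6
  have p7 := h0 7
  have p8 := h0 8
  have hx := ncone_max (a := t 1 + t 4 + t 7) (b := t 0 + t 3 + t 6) (by linarith) (by linarith)
    (c.symm.imp (fun h => by linarith [h.1, h.2.1, h.2.2]) fun h => by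
      linarith [h.1, h.2.1, h.2.2])
  have hy := ncone_max (a := t 9) (b := t 0 + t 1 + t 2 + t 8) (h0 9) (by linarith)
    (b.imp_right fun h => by linarith [h.1, h.2.1, h.2.2.1, h.2.2.2])
  have hz := ncone_max (a := t 0 + t 1 + t 2 + t 3 + t 4 + t 5) (b := t 10) (by linarith) (h0 10)
    (a.symm.imp_left fun h => by
      linarith [h.1, h.2.1, h.2.2.1, h.2.2.2.1, h.2.2.2.2.1, h.2.2.2.2.2])
  have m1 : min (t 0 + t 1 + t 2 + t 8) (t 0 + t 1 + t 2 + t 3 + t 4 + t 5) = t 0 + t 1 + t 2 :=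
    ncone_min (by linarith) (by linarith)
      (d.imp (fun h => by linarith) fun h => by linarith [h.1, h.2.1, h.2.2])
  have m2 : min (t 0 + t 3 + t 6) (t 0 + t 1 + t 2 + t 3 + t 4 + t 5) = t 0 + t 3 := by
    refine ncone_min (by linarith) (by linarith) ?_
    rcases c with c | c
    · left; linarith [c.2.2]
    · exact e.imp (fun h => by linarith) fun h => by linarith [h.1, h.2, c.1, c.2.1]
  have m3 : min (t 1 + t 4 + t 7) (t 0 + t 1 + t 2 + t 3 + t 4 + t 5) = t 1 + t 4 := by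
    refine ncone_min (by linarith) (by linarith) ?_
    rcases c with c | c
    · exact f.imp (fun h => by linarith) fun h => by linarith [h.1, h.2, c.1, c.2.1]
    · left; linarith [c.2.2]
  have m4 : min (t 0 + t 3 + t 6) (t 0 + t 1 + t 2) = t 0 := by
    refine ncone_min (by linarith) (by linarith) ?_
    rcases c with c | c
    · left; linarith [c.2.1, c.2.2]
    · rcases g with g | g
      · right; linarith [c.1]
      · exact e.imp (fun h => by linarith [g.1]) fun h => by linarith [h.1, c.1]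
  have m5 : min (t 1 + t 4 + t 7) (t 0 + t 1 + t 2) = t 1 := by
    refine ncone_min (by linarith) (by linarith) ?_
    rcases c with c | c
    · rcases g with g | g
      · right; linarith [c.1]
      · exact f.imp (fun h => by linarith [g.2]) fun h => by linarith [h.1, c.1]
    · left; linarith [c.2.1, c.2.2]
  have hG : ncone_G (ncone_F t) = ncone_g (t 0 + t 3 + t 6) (t 1 + t 4 + t 7)
      (t 0 + t 1 + t 2 + t 8) (t 9) (t 0 + t 1 + t 2 + t 3 + t 4 + t 5) (t 10) := by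
    change ncone_g (max (-(t 1 + t 4 + t 7 - (t 0 + t 3 + t 6))) 0)
      (max (t 1 + t 4 + t 7 - (t 0 + t 3 + t 6)) 0) (max (-(t 9 - (t 0 + t 1 + t 2 + t 8))) 0)
      (max (t 9 - (t 0 + t 1 + t 2 + t 8)) 0) (max (t 0 + t 1 + t 2 + t 3 + t 4 + t 5 - t 10) 0)
      (max (-(t 0 + t 1 + t 2 + t 3 + t 4 + t 5 - t 10)) 0) = _
    rw [hx.1, hx.2, hy.1, hy.2, hz.1, hz.2]
  rw [hG, ncone_g, m1, m2, m3, m4, m5]
  funext i
  fin_cases i <;> simp <;> ring

theorem cone_homeo : Nonempty (Cone L11 ≃ₜ EuclideanSpace ℝ (Fin 3)) := by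
  let e : Cone L11 ≃ₜ (Fin 3 → ℝ) :=
    { toFun := fun t => ncone_F t.1
      invFun := fun x => ⟨ncone_G x, ncone_G_mem x⟩
      left_inv := fun t => Subtype.ext (ncone_GF t.1 t.2.1 ((ncone_clique _).1 t.2.2))
      right_inv := ncone_FG
      continuous_toFun := by
        have h : Continuous ncone_F := by
          unfold ncone_F
          fun_prop
        exact h.comp continuous_subtype_val
      continuous_invFun := by
        refine Continuous.subtype_mk ?_ _
        unfold ncone_G ncone_g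
        fun_prop }
  exact ⟨e.trans (EuclideanSpace.equiv (Fin 3) ℝ).symm.toHomeomorph⟩

end

end Pool.Agent.Lib.MP_b65ff2_gt
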