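import Pool.Agent.Lib.MP_b65ff2_gt.NDef2
import Pool.Agent.Lib.MP_b65ff2_gt.NAct

namespace Pool.Agent.Lib.MP_b65ff2_gt

open Matrix Filter Topology NAct

set_option linter.unusedSectionVars false

noncomputable section

variable {S : Type} [Fintype S] [DecidableEq S] [LinearOrder S] {Γ : SimpleGraph S}

/-- The position of `s` in `T`. -/
def ix (T : Finset S) (s : S) : ℕ := (T.filter (· < s)).card

lemma ix_lt_ix {T : Finset S} {s u : S} (hs : s ∈ T) (h : s < u) : ix T s < ix T u :=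
  Finset.card_lt_card ⟨fun a ha => by
    rw [Finset.mem_filter] at ha ⊢; exact ⟨ha.1, ha.2.trans h⟩,
    fun hh => by simpa using hh (Finset.mem_filter.2 ⟨hs, h⟩)⟩

lemma ix_lt {T : Finset S} {s : S} (hs : s ∈ T) : ix T s < T.card :=
  Finset.card_lt_card ⟨Finset.filter_subset _ _, fun hh => by simpa using hh hs⟩

lemma ix_inj {T : Finset S} {s u : S} (hs : s ∈ T) (hu : u ∈ T) (h : ix T s = ix T u) : s = u := by
  rcases lt_trichotomy s u with e | e | e
  exacts [absurd h (ix_lt_ix hs e).ne, e, absurd h (ix_lt_ix hu e).ne']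

lemma ix_surj {T : Finset S} {k : ℕ} (hk : k < T.card) : ∃ s ∈ T, ix T s = k := by
  have : T.image (ix T) = Finset.range T.card := Finset.eq_of_subset_of_card_le
    (fun a ha => by
      obtain ⟨s, hs, rfl⟩ := Finset.mem_image.1 ha
      exact Finset.mem_range.2 (ix_lt hs))
    (by rw [Finset.card_range, Finset.card_image_of_injOn fun a ha b hb => ix_inj ha hb])
  exact Finset.mem_image.1 (this ▸ Finset.mem_range.2 hk)

lemma ix_erase {T : Finset S} {s : S} (hs : s ∈ T) (u : S) :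
    ix T u = ix (T.erase s) u + if s < u then 1 else 0 := by
  rw [ix, ix, Finset.filter_erase]
  split_ifs with h
  · rw [Finset.card_erase_add_one (Finset.mem_filter.2 ⟨hs, h⟩)]
  · rw [Finset.erase_eq_of_notMem (by simp [h]), add_zero]

/-- Coordinates of a cube. -/
def cub (T : Finset S) (t : ℕ → unitInterval) : S → ℝ := fun s => if s ∈ T then t (ix T s) else 0

lemma cub_ok {T : Finset S} (h : Γ.IsClique (T : Set S)) (t : ℕ → unitInterval) : Ok Γ (cub T t) :=
  ⟨fun s => by
    unfold cub; split_ifs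
    exacts [(t _).2, by simp], h.subset fun s hs => by
    by_contra e
    exact hs (if_neg e)⟩

lemma cub_ins {T : Finset S} {s : S} (hs : s ∈ T) (b : Bool) (t : ℕ → unitInterval) :
    cub T (ins (ix T s) b t) = Function.update (cub (T.erase s) t) s (if b then 1 else 0) := by
  funext u
  rcases eq_or_ne u s with rfl | e
  · cases b <;> simp [cub, ins, hs]
  rw [Function.update_of_ne e]
  by_cases hu : u ∈ T
  · have h1 := ix_erase hs u
    rcases lt_or_gt_of_ne e with h | h
    · simp [cub, ins, hu, e, ix_lt_ix hu h, h.not_gt] at h1 ⊢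
      rw [h1]
    · have := ix_lt_ix hs h
      simp [cub, ins, hu, e, this.not_gt, this.ne', h] at h1 ⊢
      simp [h1]
  · simp [cub, hu]

def chi (i : Iota Γ) : C(ℕ → unitInterval, Dav Γ) where
  toFun t := ⟨pt Γ (sec Γ i.1.1) (cub i.1.2 t), _, _, (cub_ok i.2.1 t).1, (cub_ok i.2.1 t).2, rfl⟩
  continuous_toFun := ((pt_cont _).comp (continuous_pi fun s => by
    unfold cub; split_ifs <;> fun_prop)).subtype_mk _

def fac (i : Iota Γ) (s : S) (b : Bool) : GG Γ × Iota Γ :=
  (if b then gam Γ i.1.1 s else 1, ⟨(if b then i.1.1 + Pi.single s 1 else i.1.1, i.1.2.erase s),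
    i.2.1.subset (by simp), fun u hu => by
      have := Finset.mem_erase.1 hu
      cases b <;> simp [i.2.2 u this.2, this.1]⟩)

lemma cub_norm (n : ℕ) : ∀ (u : RA Γ) (t : S → ℝ), Ok Γ t → (∀ s, t s < 1) →
    (Finset.univ.filter fun s => t s ≠ 0 ∧ par Γ u s ≠ 0).card = n →
    ∃ v t', Ok Γ t' ∧ (∀ s, t' s < 1) ∧ pt Γ u t = pt Γ v t' ∧ ∀ s, t' s ≠ 0 → par Γ v s = 0 := by
  induction n using Nat.strong_induction_on with
  | _ n ih =>
    intro u t h h1 hn
    by_cases hd : ∃ s, t s ≠ 0 ∧ par Γ u s ≠ 0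
    · obtain ⟨s, hs, hp⟩ := hd
      refine (ih _ ?_ (u * gn Γ s) _ (h.upd hs) (fun a => by
        rcases eq_or_ne a s with rfl | e
        · simpa using lt_of_le_of_ne (h.1 a).1 hs.symm
        · simpa [e] using h1 a) rfl).imp fun v => Exists.imp fun t' ⟨g1, g2, g3, g4⟩ =>
          ⟨g1, g2, (flip u h hs).trans g3, g4⟩
      rw [← hn]
      have e1 : par Γ (u * gn Γ s) s = 0 := by
        rw [par_mul, par_gn, Pi.add_apply, Pi.single_eq_same, (z2 _).resolve_left hp]; rfl
      refine Finset.card_lt_card ⟨fun a ha => ?_, fun hh => ?_⟩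
      · rcases eq_or_ne a s with rfl | e
        · simp [hs, hp]
        · simpa [e, par_mul, par_gn] using ha
      · simpa [e1] using hh (Finset.mem_filter.2 ⟨Finset.mem_univ s, hs, hp⟩)
    · exact ⟨u, t, h, h1, rfl, fun s hs => not_not.1 fun e => hd ⟨s, hs, e⟩⟩

lemma cub_uniq {y : RA Γ} {t t' : S → ℝ} (h : Ok Γ t) (h' : Ok Γ t') (l : ∀ s, t s < 1)
    (e : pt Γ y t = pt Γ 1 t') :
    (∀ s, t s ≠ 0 → t' s ≠ 0) ∧ ((∀ s, t' s ≠ 0 → par Γ y s = 0) → y = 1) := by
  have k : ∀ r, pt Γ y t r ≠ 0 → ∃ s, r = gn Γ s ∧ t' s ≠ 0 := fun r hr => by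
    rw [e, pt_eq _ h'.1, nn_one, Finsupp.zero_apply, fl_zero] at hr
    rcases sm_cases 1 t' r with h | ⟨a, ha, h⟩
    exacts [absurd h hr, ⟨a, ha.trans (wl_one a), h ▸ hr⟩]
  have k1 : ∀ r, nn Γ y r ≠ 0 → ∃ s, r = gn Γ s ∧ t' s ≠ 0 := fun r hr => k r (by
    rw [pt_eq _ h.1, (z2 _).resolve_left hr, fl_one]
    rcases sm_cases y t r with h | ⟨a, -, h⟩ <;> rw [h]
    exacts [by simp, (sub_pos.2 (l a)).ne'])
  refine ⟨fun s hs => ?_, fun hp => eq_one_of (fun r hr => (k1 r hr).imp fun _ h => h.1) ?_⟩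
  · obtain ⟨a, ha, h2⟩ := k (wl y s) (by
      rw [pt_eq _ h.1, sm_wl, fl]
      split_ifs
      exacts [hs, (sub_pos.2 (l s)).ne'])
    have : par Γ (gn Γ a) = par Γ (gn Γ s) := by rw [← ha]; simp [par, wl]
    have := congrFun this s
    rw [par_gn, par_gn, Pi.single_eq_same, Pi.single_apply] at this
    by_cases e : s = a
    · rwa [e]
    · simp [e] at this
  · funext s
    by_cases hs : t' s = 0
    · rw [par_eq_sum, Finsupp.sum, Finset.sum_apply]
      refine Finset.sum_eq_zero fun r hr => ?_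
      obtain ⟨a, rfl, ha⟩ := k1 r (Finsupp.mem_support_iff.1 hr)
      have : s ≠ a := fun e => ha (e ▸ hs)
      simp [par_gn, this]
    · exact hp s hs

lemma cub_open {T : Finset S} {t : ℕ → unitInterval}
    (h : ∀ k, if k < T.card then t k ∈ Set.Ioo 0 1 else t k = 0) (s : S) :
    cub T t s < 1 ∧ (cub T t s ≠ 0 ↔ s ∈ T) := by
  by_cases hs : s ∈ T
  · have := h (ix T s)
    rw [if_pos (ix_lt hs)] at this
    simp only [cub, hs, if_true, iff_true]
    exact ⟨this.2, ne_of_gt this.1⟩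
  · simp [cub, hs]

theorem isCub (Γ : SimpleGraph S) : IsCub (Dav Γ) (degI Γ) (dG Γ) := by
  classical
  have hs : ∀ (i : Iota Γ) (k : ℕ), ∃ g : Bool → GG Γ × Iota Γ,
      ∀ s ∈ i.1.2, ix i.1.2 s = k → g = fac i s := fun i k => by
    by_cases h : ∃ s ∈ i.1.2, ix i.1.2 s = k
    · obtain ⟨s, h1, h2⟩ := h
      exact ⟨fac i s, fun u hu e => by rw [ix_inj hu h1 (e.trans h2.symm)]⟩
    · exact ⟨fun _ => (1, i), fun u hu e => absurd ⟨u, hu, e⟩ h⟩
  choose f hf using hs
  have sm1 : ∀ (g : GG Γ) (i : Iota Γ) t,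
      (g • chi i t).1 = pt Γ (g.1 * sec Γ i.1.1) (cub i.1.2 t) := fun g i t =>
    act_pt _ _ (cub_ok i.2.1 t).1
  refine ⟨chi, f, fun i t t' h => Subtype.ext ?_, fun x => ?_, fun i k hk b => ?_, fun i j => ?_⟩
  · change pt Γ _ _ = pt Γ _ _
    congr 1
    funext s
    by_cases hs : s ∈ i.1.2
    · simp [cub, hs, h _ (ix_lt hs)]
    · simp [cub, hs]
  · refine existsUnique_of_exists_of_unique ?_ ?_
    · obtain ⟨u, t, h1, h2, h3⟩ := x.2
      obtain ⟨u', t', g1, g2, g3⟩ := lower _ u t rfl ⟨h1, h2⟩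
      obtain ⟨v, t, k1, k2, k3, k4⟩ := cub_norm _ u' t' g1 g3 rfl
      let T := Finset.univ.filter fun s => t s ≠ 0
      have : ∀ k, ∃ a : unitInterval, (∀ s ∈ T, ix T s = k → (a : ℝ) = t s) ∧
          (¬k < T.card → a = 0) := fun k => by
        by_cases h : k < T.card
        · obtain ⟨s, h1, h2⟩ := ix_surj h
          exact ⟨⟨t s, k1.1 s⟩, fun u hu e => by rw [ix_inj hu h1 (e.trans h2.symm)],
            fun h' => absurd h h'⟩
        · exact ⟨0, fun s hs e => absurd (e ▸ ix_lt hs) h, fun _ => rfl⟩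
      choose τ τ1 τ2 using this
      refine ⟨(⟨v * (sec Γ (par Γ v))⁻¹, ?_⟩, ⟨(par Γ v, T), by simpa [T] using k1.2,
        fun s hs => k4 s (Finset.mem_filter.1 hs).2⟩, τ), fun k => ?_, Subtype.ext ?_⟩
      · have := par_sec Γ (par Γ v)
        simp_all [mem_GG, par]
      · split_ifs with h
        · obtain ⟨s, h1, h2⟩ := ix_surj h
          have := τ1 k s h1 h2
          exact ⟨show (0 : ℝ) < τ k from this ▸
            lt_of_le_of_ne (k1.1 s).1 (Finset.mem_filter.1 h1).2.symm,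
            show (τ k : ℝ) < 1 from this ▸ k2 s⟩
        · exact τ2 k h
      · rw [sm1, h3, g2, k3, inv_mul_cancel_right]
        congr 1
        funext s
        by_cases hs : s ∈ T
        · simp only [cub, hs, if_true, τ1 _ s hs rfl]
        · simp only [cub, hs, if_false]
          simpa [T, eq_comm] using hs
    · rintro ⟨g, i, t⟩ ⟨g', i', t'⟩ ⟨h1, h2⟩ ⟨h1', rfl⟩
      have e := congrArg Subtype.val h2
      rw [sm1, sm1] at e
      have o := cub_ok i.2.1 t
      have o' := cub_ok i'.2.1 t'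
      have c := cub_open h1
      have c' := cub_open h1'
      have e1 := congrArg (act (g'.1 * sec Γ i'.1.1)⁻¹) e
      have e2 := congrArg (act (g.1 * sec Γ i.1.1)⁻¹) e
      rw [act_pt _ _ o.1, act_pt _ _ o'.1, inv_mul_cancel] at e1 e2
      have u1 := cub_uniq o o' (fun s => (c s).1) e1
      have u2 := cub_uniq o' o (fun s => (c' s).1) e2.symm
      have eT : i.1.2 = i'.1.2 := Finset.ext fun s =>
        ⟨fun h => (c' s).2.1 (u1.1 s ((c s).2.2 h)), fun h => (c s).2.1 (u2.1 s ((c' s).2.2 h))⟩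
      have pg : ∀ (g : GG Γ) p, par Γ (g.1 * sec Γ p) = p := fun g p => by
        rw [par_mul, par_sec, (mem_GG Γ).1 g.2, zero_add]
      have e3 := inv_mul_eq_one.1 (u1.2 fun s hs => by
        have h := (c' s).2.1 hs
        have := congrFun (par_mul Γ (g'.1 * sec Γ i'.1.1)
          ((g'.1 * sec Γ i'.1.1)⁻¹ * (g.1 * sec Γ i.1.1))) s
        rw [mul_inv_cancel_left, pg, Pi.add_apply, pg, i'.2.2 s h, i.2.2 s (eT ▸ h),
          zero_add] at this
        exact this.symm)
      have ep : i.1.1 = i'.1.1 := by rw [← pg g i.1.1, ← e3, pg]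
      obtain rfl : i = i' := Subtype.ext (Prod.ext ep eT)
      obtain rfl : g = g' := Subtype.ext (mul_right_cancel e3).symm
      rw [inv_mul_cancel] at e1
      refine Prod.ext rfl (Prod.ext rfl (funext fun k => ?_))
      by_cases hk : k < i.1.2.card
      · obtain ⟨s, h3, rfl⟩ := ix_surj hk
        have := congrFun e1 (gn Γ s)
        rw [pt_one o.1, pt_one o'.1] at this
        simpa [cub, h3, Subtype.ext_iff] using this
      · have a := h1 k
        have b := h1' k
        simp only [degI, hk, if_false] at a b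
        exact a.trans b.symm
  · obtain ⟨s, hs, rfl⟩ := ix_surj hk
    rw [hf i _ s hs rfl]
    refine ⟨Finset.card_erase_add_one hs, fun t => Subtype.ext ?_⟩
    rw [sm1]
    change pt Γ _ (cub _ _) = _
    have z : Function.update (cub (i.1.2.erase s) t) s 0 = cub (i.1.2.erase s) t :=
      Function.update_eq_self_iff.2 (by simp [cub])
    cases b
    · simp [cub_ins hs, fac, z]
    · rw [flip _ (cub_ok i.2.1 _) (s := s) (by simp [cub_ins hs]), cub_ins hs]
      simp [fac, gam, z]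
  · rw [dG, of_apply]
    refine Finset.sum_bij (fun s _ => ix i.1.2 s) (fun s hs => Finset.mem_range.2 (ix_lt hs))
      (fun a ha b hb => ix_inj ha hb) (fun k hk => by
        obtain ⟨s, h1, h2⟩ := ix_surj (Finset.mem_range.1 hk)
        exact ⟨s, h1, h2⟩) fun s hs => ?_
    rw [hf i _ s hs rfl]
    have e : ∀ a : Iota Γ, a = j ↔ j.1 = a.1 := fun a =>
      ⟨fun h => h ▸ rfl, fun h => Subtype.ext h.symm⟩
    simp only [e]
    rfl

end

end Pool.Agent.Lib.MP_b65ff2_gt
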