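import Pool.Agent.Lib.MP_b65ff2_gt.NCell
import Pool.Agent.Lib.MP_b65ff2_gt.NArc

namespace Pool.Agent.Lib.MP_b65ff2_gt

open Matrix Filter Topology

set_option linter.unusedSectionVars false

noncomputable section

open Classical in
lemma ncyc_bd {Q : Type} [Group Q] (M : PM L11 Q) (x y : M.Cell) {T : Finset V} {u : V}
    (hu : u ∉ T) (hx : x.1.2 = insert u T) (hy : y.1.2 = T) :
    M.bd x y = sgn u (insert u T) *
      ((if x.1.1 * M.g u = y.1.1 then 1 else 0) - if x.1.1 = y.1.1 then 1 else 0) := by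
  unfold PM.bd
  rw [of_apply, hx, Finset.sum_insert hu, Finset.erase_insert hu, Finset.sum_eq_zero, add_zero]
  · congr 2
    · refine if_congr ?_ rfl rfl
      rw [Prod.ext_iff, hy]
      simp [eq_comm]
    · refine if_congr ?_ rfl rfl
      rw [Prod.ext_iff, hy]
      simp [eq_comm]
  · intro r hr
    have h : y.1.2 ≠ (insert u T).erase r := fun e =>
      Finset.notMem_erase r (insert u T) (e ▸ hy ▸ hr)
    rw [if_neg fun e => h (congrArg Prod.snd e), if_neg fun e => h (congrArg Prod.snd e)]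
    simp

theorem PM.cyc {γ η : ℝ} (hγ : 0 < γ) (hη : 0 < η) : ∃ k0 : ℕ,
    ∀ (Q : Type) [Group Q] [Finite Q] (M : PM L11 Q) (n : ℕ) (T : Finset V) (s t : V)
      (P : Q → Prop) (R : M.C (n + 1) → Prop) (C : M.C n → Prop), s ≠ t → s ∉ T → t ∉ T →
      L11.IsClique (insert s T : Finset V) → L11.IsClique (insert t T : Finset V) → T.card = n →
      (∀ q, P q → P (q * M.g s)) → (∀ q, P q → P (q * M.g t)) →
      (∀ k, 1 ≤ k → k ≤ k0 → (M.g s * M.g t) ^ k ≠ 1) →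
      (∀ x, R x ↔ (x.1.1.2 = insert s T ∨ x.1.1.2 = insert t T) ∧ P x.1.1.1) →
      (∀ y, C y ↔ y.1.1.2 = T ∧ P y.1.1.1) →
      Nat.card {x // R x} = Nat.card {y // C y} ∧
        -(γ * Nat.card Q) ≤ ld η (sub (M.dR n) R C) ∧
        ld η (sub (M.dR n) R C) ≤ (√η + γ) * Nat.card Q := by
  classical
  obtain ⟨k0, hk⟩ := Pool.Agent.Lib.MP_b65ff2_gt.cyc hγ hη
  refine ⟨k0, fun Q _ _ M n T s t P R C hst hs ht cs ct hT Ps Pt ho hR hC => ?_⟩
  let u : Fin 2 → V := ![s, t]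
  have uT : ∀ i, u i ∉ T := Fin.forall_fin_two.2 ⟨hs, ht⟩
  have uc : ∀ i, L11.IsClique (insert (u i) T : Finset V) := Fin.forall_fin_two.2 ⟨cs, ct⟩
  have uP : ∀ i q, P q → P (q * M.g (u i)) := Fin.forall_fin_two.2 ⟨Ps, Pt⟩
  have ui : ∀ i j, u j = u i ↔ i = j := by
    simp only [Fin.forall_fin_two, u]
    simp [hst, hst.symm]
  have yT : ∀ y : {y // C y}, y.1.1.1.2 = T := fun y => ((hC _).1 y.2).1
  have yP : ∀ y : {y // C y}, P y.1.1.1.1 := fun y => ((hC _).1 y.2).2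
  have ext : ∀ y z : {y // C y}, y = z ↔ y.1.1.1.1 = z.1.1.1.1 := fun y z =>
    ⟨fun e => e ▸ rfl, fun e =>
      Subtype.ext (Subtype.ext (Subtype.ext (Prod.ext e ((yT y).trans (yT z).symm))))⟩
  let σ : Fin 2 → {y // C y} → {y // C y} := fun i y =>
    ⟨⟨⟨(y.1.1.1.1 * M.g (u i), y.1.1.1.2), y.1.1.2.1, fun r hr => by
      have h1 : r ≠ u i := fun e => uT i (e ▸ yT y ▸ hr)
      rw [M.p_mul_g, y.1.1.2.2 r hr, if_neg h1, add_zero]⟩, y.1.2⟩,
      (hC _).2 ⟨yT y, uP i _ (yP y)⟩⟩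
  have hσ : ∀ i y, (σ i y).1.1.1.1 = y.1.1.1.1 * M.g (u i) := fun _ _ => rfl
  let π : Fin 2 → {y // C y} → ZMod 2 := fun j y => M.p y.1.1.1.1 (u j)
  let F : {x : Fin 2 × {y // C y} // π x.1 x.2 = 0} → {x // R x} := fun z =>
    ⟨⟨⟨(z.1.2.1.1.1.1, insert (u z.1.1) T), uc _, fun r hr => by
      rcases Finset.mem_insert.1 hr with rfl | hr
      · exact z.2
      · exact z.1.2.1.1.2.2 r ((yT z.1.2).symm ▸ hr)⟩,
      (Finset.card_insert_of_notMem (uT _)).trans (by rw [hT])⟩,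
      (hR _).2 ⟨by
        have : ∀ i, insert (u i) T = insert s T ∨ insert (u i) T = insert t T :=
          Fin.forall_fin_two.2 ⟨.inl rfl, .inr rfl⟩
        exact this _, yP z.1.2⟩⟩
  have Fb : Function.Bijective F := by
    constructor
    · intro z w e
      have e1 : z.1.2.1.1.1.1 = w.1.2.1.1.1.1 := congrArg (fun x : {x // R x} => x.1.1.1.1) e
      have e2 : insert (u z.1.1) T = insert (u w.1.1) T :=
        congrArg (fun x : {x // R x} => x.1.1.1.2) e
      have e3 : u z.1.1 ∈ insert (u w.1.1) T := e2 ▸ Finset.mem_insert_self _ _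
      exact Subtype.ext (Prod.ext
        ((ui _ _).1 ((Finset.mem_insert.1 e3).resolve_right (uT _))).symm ((ext _ _).2 e1))
    · intro x
      obtain ⟨h1, h2⟩ := (hR _).1 x.2
      obtain ⟨i, hi⟩ : ∃ i, x.1.1.1.2 = insert (u i) T := h1.elim (⟨0, ·⟩) (⟨1, ·⟩)
      have hp := x.1.1.2.2
      rw [hi] at hp
      refine ⟨⟨(i, ⟨⟨⟨(x.1.1.1.1, T), (uc i).subset (by simp),
        fun r hr => hp r (Finset.mem_insert_of_mem hr)⟩, hT⟩, (hC _).2 ⟨rfl, h2⟩⟩),
        hp _ (Finset.mem_insert_self _ _)⟩, ?_⟩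
      exact Subtype.ext (Subtype.ext (Subtype.ext (Prod.ext rfl hi.symm)))
  let e := (Equiv.ofBijective F Fb).symm
  have key := hk {y // C y} {x // R x} σ π (sub (M.dR n) R C) e
    (fun r => (sgn (u (e r).1.1) (insert (u (e r).1.1) T) : ℝ))
    (fun i ω => (ext _ _).2 (by rw [hσ, hσ, mul_assoc, M.sq, mul_one]))
    (fun i j ω => by
      simp only [π, hσ, M.p_mul_g, ui])
    (fun r => by
      simp only [sgn]
      push_cast
      rw [← pow_mul, mul_comm, pow_mul]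
      simp)
    (fun r ω => by
      obtain ⟨z, rfl⟩ := Fb.2 r
      have ez : e (F z) = z := (Equiv.ofBijective F Fb).symm_apply_apply z
      rw [ez]
      have := ncyc_bd M (F z).1.1 ω.1.1 (uT z.1.1) rfl (yT ω)
      simp only [sub, PM.dR, PM.dZ, submatrix_apply, map_apply, this, ext, hσ]
      push_cast
      rfl)
    (fun k ω h1 h2 e => by
      have it : ∀ k, ((σ 0 ∘ σ 1)^[k] ω).1.1.1.1 = ω.1.1.1.1 * (M.g t * M.g s) ^ k := fun k => by
        induction k with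
        | zero => simp
        | succ k ih =>
          rw [Function.iterate_succ_apply', Function.comp_apply, hσ, hσ, ih, pow_succ]
          simp [u, mul_assoc]
      have h3 := it k
      rw [e, left_eq_mul] at h3
      refine ho k h1 h2 ?_
      rw [← inv_eq_one, ← inv_pow, _root_.mul_inv_rev, inv_eq_of_mul_eq_one_right (M.sq s),
        inv_eq_of_mul_eq_one_right (M.sq t), h3])
  have hc : (Nat.card {y // C y} : ℝ) ≤ Nat.card Q := by
    exact_mod_cast Nat.card_le_card_of_injective (fun y : {y // C y} => y.1.1.1.1)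
      fun y z e => (ext y z).2 e
  refine ⟨key.1, le_trans ?_ key.2.1, key.2.2.trans ?_⟩
  · exact neg_le_neg (mul_le_mul_of_nonneg_left hc hγ.le)
  · exact mul_le_mul_of_nonneg_left hc (by positivity)

open DihedralGroup in
lemma ncyc_ord {Q : Type} [Group Q] {m j k : ℕ} (φ : Q →* DihedralGroup m) (hm : j < m) {x : Q}
    (c : ℤ) (hc : c ≠ 0) (hc2 : |c| ≤ 2) (h : φ x = r (c : ZMod m)) (h1 : 1 ≤ k)
    (h2 : 2 * k ≤ j) : x ^ k ≠ 1 := fun e => by
  have h3 : r ((c : ZMod m) * (k : ZMod m)) = (r 0 : DihedralGroup m) := by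
    rw [← r_pow, ← h, ← map_pow, e, map_one, one_def]
  have h4 : ((c * k : ℤ) : ZMod m) = 0 := by
    push_cast
    exact r.inj h3
  rw [ZMod.intCast_zmod_eq_zero_iff_dvd] at h4
  have h5 : c * k ≠ 0 := mul_ne_zero hc (by omega)
  have h6 := Int.le_of_dvd (abs_pos.2 h5) ((dvd_abs _ _).2 h4)
  rw [abs_mul, Nat.abs_cast] at h6
  have h7 : |c| * (k : ℤ) ≤ 2 * k := mul_le_mul_of_nonneg_right hc2 (by positivity)
  omega

theorem FM.ord {j : ℕ} {Q : Type} [Group Q] (M : FM j Q) {s t : V}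
    (h : (s, t) ∈ [(vx0, vx1), (va0, va1), (va0, vyh), (va1, vyh)]) {k : ℕ} (h1 : 1 ≤ k)
    (h2 : 2 * k ≤ j) : (M.g s * M.g t) ^ k ≠ 1 := by
  simp only [List.mem_cons, Prod.mk.injEq, List.not_mem_nil, or_false] at h
  rcases h with ⟨rfl, rfl⟩ | ⟨rfl, rfl⟩ | ⟨rfl, rfl⟩ | ⟨rfl, rfl⟩
  · exact ncyc_ord M.ξ M.le1 1 (by decide) (by decide) (by simp +decide [M.ξ_g]) h1 h2
  · exact ncyc_ord M.η M.le3 2 (by decide) (by decide)
      (by simp +decide [M.η_g, one_add_one_eq_two]) h1 h2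
  · exact ncyc_ord M.η M.le3 1 (by decide) (by decide) (by simp +decide [M.η_g]) h1 h2
  · exact ncyc_ord M.η M.le3 (-1) (by decide) (by decide) (by simp +decide [M.η_g]) h1 h2

end

end Pool.Agent.Lib.MP_b65ff2_gt
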