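import Pool.Agent.Lib.MP_b65ff2_gt.Defs

namespace Pool.Agent.Lib.MP_b65ff2_gt

/-- A finite based free resolution of the trivial module `ℤ`: the complex is exact in positive
degrees, and a chain of degree zero bounds exactly when the sum of its coefficients is zero. -/
def IsRes {I G : Type} [Fintype I] [Group G] (deg : I → ℕ) (d : Matrix I I (MonoidAlgebra ℤ G)) :
    Prop :=
  IsCx deg d ∧ (∃ i, deg i = 0) ∧
    (∀ n, cycles deg d (n + 1) ≤ (chains _ deg (n + 2)).map (bdry d)) ∧
    ∀ x ∈ chains (MonoidAlgebra ℤ G) deg 0,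
      x ∈ (chains _ deg 1).map (bdry d) ↔ ∑ i, ((x i).coeff.sum fun _ a => a) = 0

end Pool.Agent.Lib.MP_b65ff2_gt
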