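import Pool.Agent.Lib.MP_b65ff2_gt.Defs

namespace Pool.Agent.Lib.MP_b65ff2_gt

/-- Insert `1` or `0` as the coordinate number `k`. -/
def ins (k : ℕ) (b : Bool) (t : ℕ → unitInterval) : ℕ → unitInterval :=
  fun l => if l < k then t l else if l = k then (if b then 1 else 0) else t (l - 1)

/-- `d` is the cellular boundary of a `G`-equivariant cubulation of `X` with one orbit of cubes for
each `i`. The characteristic map `χ i` depends on `deg i` coordinates, `X` is the disjoint union of
the translates of the open cubes, the face `t k = b` of `χ i` is the translate `f i k b` of a cube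
of dimension one less, and `d` is the alternating sum of the differences of opposite faces. -/
def IsCub {G I : Type} (X : Type) [Group G] [TopologicalSpace X] [MulAction G X] [DecidableEq I]
    (deg : I → ℕ) (d : Matrix I I (MonoidAlgebra ℤ G)) : Prop :=
  ∃ (χ : I → C(ℕ → unitInterval, X)) (f : I → ℕ → Bool → G × I),
    (∀ i t t', (∀ k < deg i, t k = t' k) → χ i t = χ i t') ∧
    (∀ x, ∃! y : G × I × (ℕ → unitInterval),
      (∀ k, if k < deg y.2.1 then y.2.2 k ∈ Set.Ioo 0 1 else y.2.2 k = 0) ∧
        y.1 • χ y.2.1 y.2.2 = x) ∧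
    (∀ i, ∀ k < deg i, ∀ b, deg (f i k b).2 + 1 = deg i ∧
      ∀ t, χ i (ins k b t) = (f i k b).1 • χ (f i k b).2 t) ∧
    ∀ i j, d i j = ∑ k ∈ Finset.range (deg i), (-1 : ℤ) ^ k •
      ((if (f i k true).2 = j then MonoidAlgebra.single (f i k true).1 1 else 0) -
        if (f i k false).2 = j then MonoidAlgebra.single (f i k false).1 1 else 0)

end Pool.Agent.Lib.MP_b65ff2_gt
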