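import Pool.Agent.Lib.MP_b65ff2_gt.NBase
import Pool.Agent.Lib.MP_b65ff2_gt.Gram

namespace Pool.Agent.Lib.MP_b65ff2_gt

open Matrix Filter Topology

set_option linter.unusedSectionVars false

noncomputable section

section aux
variable {m n k : Type} [Fintype m] [Fintype n] [Fintype k] [DecidableEq m] [DecidableEq n]
  {ε η : ℝ}

lemma ndet1_one (hε : 0 ≤ ε) : (ε • (1 : Matrix m m ℝ)).PosSemidef := PosSemidef.one.smul hε

lemma ndet1_pd {A : Matrix m m ℝ} (hA : A.PosSemidef) (hε : 0 < ε) :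
    (A + ε • (1 : Matrix m m ℝ)).PosDef := PosDef.posSemidef_add hA (PosDef.one.smul hε)

lemma ndet1_log {A B : Matrix m m ℝ} (hA : A.PosDef) (h : (B - A).PosSemidef) :
    Real.log A.det ≤ Real.log B.det := by
  have hB : B.PosDef := by simpa using hA.add_posSemidef h
  exact Real.log_le_log hA.det_pos (det_le_of_le hA.posSemidef hB.posSemidef hB.det_pos.ne' h)

lemma ndet1_conj {A : Matrix n n ℝ} (hA : A.PosSemidef) (B : Matrix m n ℝ) :
    (B * A * Bᵀ).PosSemidef := by simpa using hA.mul_mul_conjTranspose_same B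

lemma ndet1_sym {A : Matrix n n ℝ} (hA : A.PosSemidef) : Aᵀ = A := by
  simpa [IsHermitian] using hA.1

lemma ndet1_swap (X : Matrix m n ℝ) (Y : Matrix n m ℝ) (h : Fintype.card m = Fintype.card n)
    (hε : ε ≠ 0) : (X * Y + ε • (1 : Matrix m m ℝ)).det = (Y * X + ε • (1 : Matrix n n ℝ)).det := by
  have e1 : X * Y + ε • (1 : Matrix m m ℝ) = ε • ((ε⁻¹ • X) * Y + 1) := by
    rw [smul_add, Matrix.smul_mul, smul_smul, mul_inv_cancel₀ hε, one_smul]
  have e2 : Y * X + ε • (1 : Matrix n n ℝ) = ε • (Y * (ε⁻¹ • X) + 1) := by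
    rw [smul_add, Matrix.mul_smul, smul_smul, mul_inv_cancel₀ hε, one_smul]
  rw [e1, e2, det_smul, det_smul, h, det_mul_add_one_comm]

lemma ndet1_key (X : Matrix m n ℝ) {B : Matrix n n ℝ} (hB : B.PosDef)
    (h : Fintype.card m = Fintype.card n) (hε : 0 < ε) :
    Real.log (X * B * Xᵀ + ε • (1 : Matrix m m ℝ)).det =
      Real.log B.det + Real.log (Xᵀ * X + ε • B⁻¹).det := by
  have u : IsUnit B.det := hB.det_pos.ne'.isUnit
  have p : (Xᵀ * X + ε • B⁻¹).PosDef :=
    PosDef.posSemidef_add (by simpa using psd_real Xᵀ) (hB.inv.smul hε)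
  rw [Matrix.mul_assoc, ndet1_swap X _ h hε.ne', ← Real.log_mul hB.det_pos.ne' p.det_pos.ne',
    ← det_mul, Matrix.mul_add, Matrix.mul_smul, mul_nonsing_inv _ u, Matrix.mul_assoc]

lemma ndet1_inv_le {G : Matrix n n ℝ} (hG : G.PosSemidef) (hη : 0 < η) :
    (1 - η • (G + η • (1 : Matrix n n ℝ))⁻¹).PosSemidef := by
  have hB := ndet1_pd hG hη
  set B := G + η • (1 : Matrix n n ℝ) with hBd
  have u : IsUnit B.det := hB.det_pos.ne'.isUnit
  have h1 : (G * Gᵀ + η • G).PosSemidef := (psd_real G).add (hG.smul hη.le)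
  have h2 := ndet1_conj h1 B⁻¹
  have e1 : G * Gᵀ + η • G = B * (B - η • 1) := by
    rw [ndet1_sym hG, hBd, add_sub_cancel_right, Matrix.add_mul, Matrix.smul_mul, Matrix.one_mul]
  rwa [e1, ← Matrix.mul_assoc, nonsing_inv_mul _ u, Matrix.one_mul, ndet1_sym hB.inv.posSemidef,
    Matrix.sub_mul, mul_nonsing_inv _ u, Matrix.smul_mul, Matrix.one_mul] at h2

lemma ndet1_inv_ge {B : Matrix n n ℝ} (hB : B.PosDef) {c : ℝ} (hc : 0 < c)
    (hG : (c • (1 : Matrix n n ℝ) - B).PosSemidef) : (c • B⁻¹ - 1).PosSemidef := by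
  have u : IsUnit B.det := hB.det_pos.ne'.isUnit
  set G := c • (1 : Matrix n n ℝ) - B with hGd
  have h1 : (B * G * Bᵀ + G * B * Gᵀ).PosSemidef :=
    (ndet1_conj hG B).add (ndet1_conj hB.posSemidef G)
  have e1 : B * G * Bᵀ + G * B * Gᵀ = c • (B * G) := by
    rw [ndet1_sym hG, ndet1_sym hB.posSemidef, hGd]
    simp only [Matrix.mul_sub, Matrix.sub_mul, Matrix.smul_mul, Matrix.mul_smul, Matrix.one_mul,
      Matrix.mul_one, smul_sub]
    abel
  rw [e1] at h1
  have h2 := ndet1_conj (h1.smul (inv_nonneg.2 hc.le)) B⁻¹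
  rwa [smul_smul, inv_mul_cancel₀ hc.ne', one_smul, ← Matrix.mul_assoc, nonsing_inv_mul _ u,
    Matrix.one_mul, ndet1_sym hB.inv.posSemidef, hGd, Matrix.sub_mul, mul_nonsing_inv _ u,
    Matrix.smul_mul, Matrix.one_mul] at h2

lemma ndet1_bd (A : Matrix m k ℝ) {c : ℝ} (h : ∀ v, (v ᵥ* A) ⬝ᵥ (v ᵥ* A) ≤ c * (v ⬝ᵥ v)) :
    (c • (1 : Matrix m m ℝ) - A * Aᵀ).PosSemidef := by
  refine PosSemidef.of_dotProduct_mulVec_nonneg ?_ fun v => ?_
  · simp [IsHermitian, transpose_sub, transpose_mul]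
  · have := h v
    rw [star_trivial, sub_mulVec, dotProduct_sub, smul_mulVec, one_mulVec, dotProduct_smul,
      ← mulVec_mulVec, dotProduct_mulVec, mulVec_transpose, smul_eq_mul]
    linarith

lemma ndet1_schur (A : Matrix m k ℝ) (B : Matrix n k ℝ) (hε : 0 < ε) :
    (A * Aᵀ - A * Bᵀ * (B * Bᵀ + ε • (1 : Matrix n n ℝ))⁻¹ * (B * Aᵀ)).PosSemidef := by
  have hD := ndet1_pd (psd_real B) hε
  let _ := hD.isUnit.invertible
  have e : (A * Bᵀ)ᴴ = B * Aᵀ := by simp
  rw [← e]
  refine (PosDef.fromBlocks₂₂ _ _ hD).1 ?_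
  have h1 := psd_real (fromRows A B)
  rw [transpose_fromRows, fromRows_mul_fromCols] at h1
  have h2 : (fromBlocks (0 : Matrix m m ℝ) 0 0 (ε • (1 : Matrix n n ℝ))).PosSemidef := by
    have := (psd_real (fromRows (0 : Matrix m n ℝ) (1 : Matrix n n ℝ))).smul hε.le
    rw [transpose_fromRows, fromRows_mul_fromCols, fromBlocks_smul] at this
    simpa using this
  have := h1.add h2
  rw [fromBlocks_add] at this
  simpa [e] using this

lemma ndet1_rows (A : Matrix m k ℝ) (B : Matrix n k ℝ) (hε : 0 < ε) :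
    ld ε (fromRows A B) = ld ε B +
      lam ε (A * Aᵀ - A * Bᵀ * (B * Bᵀ + ε • (1 : Matrix n n ℝ))⁻¹ * (B * Aᵀ)) := by
  have hD := ndet1_pd (psd_real B) hε
  let _ := hD.isUnit.invertible
  have hS := ndet1_pd (ndet1_schur A B hε) hε
  rw [ld_eq, ld_eq, lam_eq, ← Real.log_mul hD.det_pos.ne' hS.det_pos.ne', transpose_fromRows,
    fromRows_mul_fromCols, ← fromBlocks_one, fromBlocks_smul, fromBlocks_add, det_fromBlocks₂₂,
    invOf_eq_nonsing_inv]
  congr 3
  simp only [smul_zero, add_zero]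
  abel

end aux

variable {m n k : Type} [Finite m] [Finite n] [Finite k] {ε η : ℝ}

theorem lam_mono {A B : Matrix m m ℝ} (hA : A.PosSemidef) (h : (B - A).PosSemidef) (hε : 0 < ε)
    (hη : ε ≤ η) : lam ε A ≤ lam η B := by
  classical
  cases nonempty_fintype m
  rw [lam_eq, lam_eq]
  refine ndet1_log (ndet1_pd hA hε) ?_
  have := h.add (ndet1_one (m := m) (sub_nonneg.2 hη))
  rw [sub_smul] at this
  convert this using 1
  abel

theorem ld_mono (A : Matrix m n ℝ) (hε : 0 < ε) (hη : ε ≤ η) : ld ε A ≤ ld η A := by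
  cases nonempty_fintype m
  cases nonempty_fintype n
  rw [ld_eq_lam, ld_eq_lam]
  exact lam_mono (psd_real A) (by simpa using PosSemidef.zero) hε hη

theorem ld_sign {m' n' : Type} [Finite m'] [Finite n'] (A : Matrix m n ℝ) (B : Matrix m' n' ℝ)
    (e : m' ≃ m) (f : n' ≃ n) (a : m' → ℝ) (b : n' → ℝ) (ha : ∀ i, a i ^ 2 = 1)
    (hb : ∀ j, b j ^ 2 = 1) (h : ∀ i j, B i j = a i * b j * A (e i) (f j)) : ld ε B = ld ε A := by
  classical
  cases nonempty_fintype m
  cases nonempty_fintype n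
  cases nonempty_fintype m'
  cases nonempty_fintype n'
  have e1 : B * Bᵀ + ε • (1 : Matrix m' m' ℝ) =
      diagonal a * (A * Aᵀ + ε • (1 : Matrix m m ℝ)).submatrix e e * diagonal a := by
    ext i j
    rw [mul_diagonal, diagonal_mul]
    simp only [Matrix.add_apply, submatrix_apply, Matrix.mul_apply, transpose_apply,
      Matrix.smul_apply, Matrix.one_apply,
      smul_eq_mul, h, EmbeddingLike.apply_eq_iff_eq]
    rw [← f.sum_comp, mul_add, add_mul, Finset.mul_sum, Finset.sum_mul]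
    congr 1
    · refine Finset.sum_congr rfl fun x _ => ?_
      linear_combination (a i * a j * A (e i) (f x) * A (e j) (f x)) * hb x
    · split_ifs with hij
      · subst hij; linear_combination (-ε) * ha i
      · simp
  have e2 : (∏ i, a i) * ∏ i, a i = 1 := by
    rw [← Finset.prod_mul_distrib]
    exact Finset.prod_eq_one fun i _ => by rw [← sq, ha]
  rw [ld_eq, ld_eq, e1, det_mul, det_mul, det_diagonal, det_submatrix_equiv_self, mul_right_comm,
    e2, one_mul]

theorem ld_tr (A : Matrix m n ℝ) (hε : 0 < ε) (h : Nat.card m = Nat.card n) :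
    ld ε Aᵀ = ld ε A := by
  classical
  cases nonempty_fintype m
  cases nonempty_fintype n
  rw [ld_eq, ld_eq, transpose_transpose, ndet1_swap A Aᵀ (by simpa using h) hε.ne']

lemma ndet1_cols {m n k : Type} [Fintype m] [Fintype n] [Fintype k] [DecidableEq n]
    (A : Matrix m n ℝ) {f : k → n} (hf : Function.Injective f) :
    A * Aᵀ - A.submatrix id f * (A.submatrix id f)ᵀ =
      (Matrix.of fun i j => if j ∈ Finset.univ.image f then 0 else A i j) *
        (Matrix.of fun i j => if j ∈ Finset.univ.image f then 0 else A i j)ᵀ := by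
  ext i i'
  simp only [Matrix.sub_apply, Matrix.mul_apply, transpose_apply, submatrix_apply, id, of_apply]
  rw [← Finset.sum_image (s := Finset.univ) (g := f) (f := fun j => A i j * A i' j)
    fun x _ y _ h => hf h, ← Finset.sum_ite_mem_eq (Finset.univ.image f),
    ← Finset.sum_sub_distrib]
  refine Finset.sum_congr rfl fun j _ => ?_
  split_ifs <;> simp

theorem ld_cols (A : Matrix m n ℝ) (hε : 0 < ε) {f : k → n} (hf : Function.Injective f) :
    ld ε (A.submatrix id f) ≤ ld ε A := by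
  classical
  cases nonempty_fintype m
  cases nonempty_fintype n
  cases nonempty_fintype k
  rw [ld_eq_lam, ld_eq_lam]
  refine lam_mono (psd_real _) ?_ hε le_rfl
  rw [ndet1_cols A hf]
  exact psd_real _

theorem ld_cols_eq (A : Matrix m n ℝ) {f : k → n} (hf : Function.Injective f)
    (h : ∀ i j, A i j ≠ 0 → j ∈ Set.range f) : ld ε (A.submatrix id f) = ld ε A := by
  classical
  cases nonempty_fintype m
  cases nonempty_fintype n
  cases nonempty_fintype k
  have e := ndet1_cols A hf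
  have z : (Matrix.of fun i j => if j ∈ Finset.univ.image f then 0 else A i j) = 0 := by
    ext i j
    simp only [of_apply, Matrix.zero_apply]
    split_ifs with hj
    · rfl
    · by_contra h0
      obtain ⟨x, rfl⟩ := h i j h0
      exact hj (Finset.mem_image_of_mem f (Finset.mem_univ x))
  rw [z, Matrix.zero_mul, sub_eq_zero] at e
  rw [ld_eq_lam, ld_eq_lam, e]

lemma ndet1_lam_smul (c : ℝ) :
    lam ε (c • (open Classical in (1 : Matrix m m ℝ))) = Nat.card m * Real.log (c + ε) := by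
  classical
  cases nonempty_fintype m
  rw [lam_eq, ← add_smul, det_smul, det_one, mul_one, Real.log_pow, Nat.card_eq_fintype_card]

theorem ld_ge (A : Matrix m n ℝ) (hε : 0 < ε) : Nat.card m * Real.log ε ≤ ld ε A := by
  classical
  cases nonempty_fintype m
  cases nonempty_fintype n
  have := ndet1_lam_smul (m := m) (ε := ε) 0
  rw [zero_add, zero_smul] at this
  rw [← this, ld_eq_lam]
  exact lam_mono PosSemidef.zero (by simpa using psd_real A) hε le_rfl

theorem RB.norm {m n : Type} [Fintype m] [Fintype n] {A : Matrix m n ℝ} {c : ℝ} (h : RB A c)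
    (v : m → ℝ) : (v ᵥ* A) ⬝ᵥ (v ᵥ* A) ≤ c ^ 2 * (v ⬝ᵥ v) := by
  have h1 : ∀ j, (v ᵥ* A) j * (v ᵥ* A) j ≤ c * ∑ i, |A i j| * v i ^ 2 := fun j => by
    have := Finset.sum_sq_le_sum_mul_sum_of_sq_le_mul Finset.univ (r := fun i => v i * A i j)
      (f := fun i => |A i j|) (g := fun i => |A i j| * v i ^ 2) (fun _ _ => abs_nonneg _)
      (fun _ _ => by positivity) (fun i _ => by
        rw [← mul_assoc, abs_mul_abs_self]; exact le_of_eq (by ring))
    rw [← sq]
    exact this.trans (mul_le_mul_of_nonneg_right (h.2 j _)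
      (Finset.sum_nonneg fun _ _ => by positivity))
  refine (Finset.sum_le_sum fun j _ => h1 j).trans ?_
  simp only [Finset.mul_sum, dotProduct]
  rw [Finset.sum_comm]
  refine Finset.sum_le_sum fun i _ => ?_
  have hc : 0 ≤ c := by simpa using h.1 i ∅
  rw [← Finset.mul_sum, ← Finset.sum_mul]
  have := mul_le_mul_of_nonneg_left
    (mul_le_mul_of_nonneg_right (h.1 i Finset.univ) (sq_nonneg (v i))) hc
  exact this.trans (le_of_eq (by ring))

theorem RB.submatrix {m n m' n' : Type} {A : Matrix m n ℝ} {c : ℝ} (h : RB A c) {f : m' → m}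
    {g : n' → n} (hf : Function.Injective f) (hg : Function.Injective g) :
    RB (A.submatrix f g) c :=
  ⟨fun i s => by simpa using h.1 (f i) (s.map ⟨g, hg⟩),
    fun j s => by simpa using h.2 (g j) (s.map ⟨f, hf⟩)⟩

theorem RB.tr {m n : Type} {A : Matrix m n ℝ} {c : ℝ} (h : RB A c) : RB Aᵀ c := ⟨h.2, h.1⟩

theorem ld_le (A : Matrix m n ℝ) (hε : 0 < ε) {c : ℝ} (h : RB A c) :
    ld ε A ≤ Nat.card m * Real.log (c ^ 2 + ε) := by
  classical
  cases nonempty_fintype m
  cases nonempty_fintype n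
  rw [← ndet1_lam_smul, ld_eq_lam]
  exact lam_mono (psd_real A) (by convert ndet1_bd A h.norm) hε le_rfl

theorem ld_mul_le {n : Type} [Fintype n] (X : Matrix m n ℝ) (Y : Matrix n k ℝ)
    (h : Nat.card m = Nat.card n) (hε : 0 < ε) (hη : 0 < η) :
    ld (ε * η) (X * Y) ≤ ld ε X + ld η Y := by
  classical
  cases nonempty_fintype m
  cases nonempty_fintype k
  have hB := ndet1_pd (psd_real Y) hη
  have hc : Fintype.card m = Fintype.card n := by simpa using h
  have h1 : ld (ε * η) (X * Y) ≤ lam (ε * η) (X * (Y * Yᵀ + η • 1) * Xᵀ) := by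
    rw [ld_eq_lam]
    refine lam_mono (psd_real _) ?_ (mul_pos hε hη) le_rfl
    convert (psd_real X).smul hη.le using 1
    simp only [Matrix.mul_add, Matrix.add_mul, transpose_mul, Matrix.mul_assoc, Matrix.mul_smul,
      Matrix.smul_mul, Matrix.mul_one]
    abel
  rw [lam_eq, ndet1_key X hB hc (mul_pos hε hη)] at h1
  rw [← ld_tr X hε h, ld_eq ε, ld_eq η, transpose_transpose, add_comm]
  refine h1.trans (add_le_add le_rfl (ndet1_log ?_ ?_))
  · exact PosDef.posSemidef_add (by simpa using psd_real Xᵀ) (hB.inv.smul (mul_pos hε hη))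
  · convert (ndet1_inv_le (psd_real Y) hη).smul hε.le using 1
    rw [smul_sub, smul_smul]
    abel

theorem ld_mul_ge {c : ℝ} (hc : 0 < c) (hε : 0 < ε) : ∃ η > 0, ∀ (m n k : Type) [Fintype m]
    [Fintype n] [Fintype k] (X : Matrix m n ℝ) (Y : Matrix n k ℝ), Nat.card m = Nat.card n →
      (∀ v, (v ᵥ* X) ⬝ᵥ (v ᵥ* X) ≤ c * (v ⬝ᵥ v)) → (∀ v, (v ᵥ* Y) ⬝ᵥ (v ᵥ* Y) ≤ c * (v ⬝ᵥ v)) →
      ld η X + ld η Y ≤ ld ε (X * Y) := by
  classical
  obtain ⟨η, hη, h1, h2⟩ : ∃ η : ℝ, 0 < η ∧ η ≤ 1 ∧ η * (c + 1) ≤ ε / 2 :=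
    ⟨min 1 (ε / 2 / (c + 1)), by positivity, min_le_left _ _,
      (le_div_iff₀ (by positivity)).1 (min_le_right _ _)⟩
  refine ⟨η, hη, fun m n k _ _ _ X Y h hX hY => ?_⟩
  have hB := ndet1_pd (psd_real Y) hη
  have hcd : Fintype.card m = Fintype.card n := by simpa using h
  have h3 : Real.log (X * (Y * Yᵀ + η • 1) * Xᵀ + (ε / 2) • (1 : Matrix m m ℝ)).det ≤
      ld ε (X * Y) := by
    rw [ld_eq]
    refine ndet1_log (ndet1_pd (ndet1_conj hB.posSemidef X) (half_pos hε)) ?_
    have hp : 0 ≤ ε / 2 - η * c := by nlinarith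
    convert ((ndet1_bd X hX).smul hη.le).add (ndet1_one (m := m) hp) using 1
    simp only [Matrix.mul_add, Matrix.add_mul, transpose_mul, Matrix.mul_assoc, Matrix.mul_smul,
      Matrix.smul_mul, Matrix.mul_one]
    module
  rw [ndet1_key X hB hcd (half_pos hε)] at h3
  rw [← ld_tr X hη h, ld_eq η, ld_eq η, transpose_transpose, add_comm]
  refine le_trans (add_le_add le_rfl (ndet1_log ?_ ?_)) h3
  · exact ndet1_pd (by simpa using psd_real Xᵀ) hη
  · have h4 := ndet1_inv_ge hB (add_pos hc hη) (by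
      convert ndet1_bd Y hY using 1
      module)
    have hp : 0 ≤ ε / 2 - η * (c + η) := by nlinarith
    convert (h4.smul hη.le).add (hB.inv.posSemidef.smul hp) using 1
    module

theorem ld_tri (A : Matrix m n ℝ) (hε : 0 < ε) (P : m → Prop) (R : n → Prop)
    (h : ∀ i j, ¬P i → R j → A i j = 0) :
    ld ε (sub A P R) + ld ε (sub A (¬P ·) (¬R ·)) ≤ ld ε A := by
  classical
  cases nonempty_fintype m
  cases nonempty_fintype n
  have e : ld ε (fromRows (fromCols (sub A P R) (sub A P (¬R ·)))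
      (fromCols 0 (sub A (¬P ·) (¬R ·)))) = ld ε A :=
    ld_sign A _ (Equiv.sumCompl P) (Equiv.sumCompl R) 1 1 (by simp) (by simp) (by
      rintro (i | i) (j | j) <;> simp [sub]
      exact (h _ _ i.2 j.2).symm)
  rw [← e, ndet1_rows _ _ hε, add_comm]
  simp only [transpose_fromCols, fromCols_mul_fromRows, transpose_zero, Matrix.zero_mul,
    Matrix.mul_zero, zero_add, ld_eq_lam]
  refine add_le_add le_rfl (lam_mono (psd_real _) ?_ hε le_rfl)
  convert ndet1_schur (sub A P (¬R ·)) (sub A (¬P ·) (¬R ·)) hε using 1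
  abel

theorem ld_hf (A : Matrix m n ℝ) (hε : 0 < ε) (P : m → Prop) :
    ld ε A ≤ ld ε (A.submatrix (Subtype.val : {i // P i} → m) id) +
      ld ε (A.submatrix (Subtype.val : {i // ¬P i} → m) id) := by
  classical
  cases nonempty_fintype m
  cases nonempty_fintype n
  have e : ld ε (fromRows (A.submatrix (Subtype.val : {i // P i} → m) id)
      (A.submatrix (Subtype.val : {i // ¬P i} → m) id)) = ld ε A :=
    ld_sign A _ (Equiv.sumCompl P) (Equiv.refl n) 1 1 (by simp) (by simp) (by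
      rintro (i | i) j <;> simp)
  rw [← e, ndet1_rows _ _ hε, add_comm, ld_eq_lam ε (A.submatrix (Subtype.val : {i // P i} → m) id)]
  refine add_le_add (lam_mono (ndet1_schur _ _ hε) ?_ hε le_rfl) le_rfl
  rw [sub_sub_cancel]
  have := ndet1_conj (ndet1_pd (psd_real (A.submatrix (Subtype.val : {i // ¬P i} → m) id))
    hε).inv.posSemidef (A.submatrix (Subtype.val : {i // P i} → m) id *
      (A.submatrix (Subtype.val : {i // ¬P i} → m) id)ᵀ)
  rwa [transpose_mul, transpose_transpose] at this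

end

end Pool.Agent.Lib.MP_b65ff2_gt
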