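import Pool.Agent.Lib.MP_b65ff2_gt.NDet1

namespace Pool.Agent.Lib.MP_b65ff2_gt

open Matrix Filter Topology

set_option linter.unusedSectionVars false

noncomputable section

variable {m n : Type} [Finite m] [Finite n] {ε : ℝ}

lemma ndet2_congr {m' n' : Type} [Finite m'] [Finite n'] (A : Matrix m n ℝ) (B : Matrix m' n' ℝ)
    {e : m' → m} (he : Function.Bijective e) {f : n' → n} (hf : Function.Bijective f)
    (h : ∀ i j, B i j = A (e i) (f j)) : ld ε B = ld ε A :=
  ld_sign A B (Equiv.ofBijective e he) (Equiv.ofBijective f hf) 1 1 (by simp) (by simp)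
    (by simpa using h)

lemma ndet2_le {m' n' : Type} [Finite m'] [Finite n'] (A : Matrix m n ℝ) (B : Matrix m' n' ℝ)
    (hε : 0 < ε) {e : m' → m} (he : Function.Bijective e) {f : n' → n}
    (hf : Function.Injective f) (h : ∀ i j, B i j = A (e i) (f j)) : ld ε B ≤ ld ε A := by
  rw [ndet2_congr (A.submatrix id f) B he Function.bijective_id (by simpa using h)]
  exact ld_cols A hε hf

lemma ndet2_empty [IsEmpty m] (A : Matrix m n ℝ) : ld ε A = 0 := by
  classical
  cases nonempty_fintype m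
  cases nonempty_fintype n
  rw [ld_eq, det_isEmpty, Real.log_one]

lemma ndet2_bij {P Q U : m → Prop} (h : ∀ i, Q i → P i) (hU : ∀ i, Q i ↔ P i ∧ U i) :
    Function.Bijective (fun i : {i // Q i} =>
      (⟨⟨i.1, h i.1 i.2⟩, ((hU i.1).1 i.2).2⟩ : {i : {i // P i} // U i.1})) :=
  ⟨fun _ _ e => Subtype.ext (congrArg (·.1.1) e),
    fun i => ⟨⟨i.1.1, (hU _).2 ⟨i.1.2, i.2⟩⟩, rfl⟩⟩

theorem ld_lev {α : Type} [LinearOrder α] (A : Matrix m n ℝ) (hε : 0 < ε) (a : m → α) (b : n → α)
    (h : ∀ i j, A i j ≠ 0 → a i ≤ b j) (s : Finset α) (hs : ∀ i, a i ∈ s) :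
    ∑ x ∈ s, ld ε (sub A (a · = x) (b · = x)) ≤ ld ε A := by
  have key : ∀ s : Finset α,
      ∑ x ∈ s, ld ε (sub A (a · = x) (b · = x)) ≤ ld ε (sub A (a · ∈ s) (b · ∈ s)) := by
    intro s
    induction s using Finset.induction_on_max with
    | empty =>
      have : IsEmpty {i // a i ∈ (∅ : Finset α)} := ⟨fun i => by simpa using i.2⟩
      rw [Finset.sum_empty, ndet2_empty]
    | insert x s hx ih =>
      have hxs : x ∉ s := fun h => lt_irrefl _ (hx x h)
      rw [Finset.sum_insert hxs, add_comm]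
      refine le_trans (add_le_add (ih.trans ?_) ?_)
        (ld_tri (sub A (a · ∈ insert x s) (b · ∈ insert x s)) hε (a ·.1 ∈ s) (b ·.1 ∈ s) ?_)
      · refine ndet2_le _ _ hε (ndet2_bij (U := (a · ∈ s)) (fun i => Finset.mem_insert_of_mem)
          fun i => ⟨fun h => ⟨Finset.mem_insert_of_mem h, h⟩, And.right⟩)
          (ndet2_bij (U := (b · ∈ s)) (fun i => Finset.mem_insert_of_mem)
          fun i => ⟨fun h => ⟨Finset.mem_insert_of_mem h, h⟩, And.right⟩).1 fun _ _ => rfl
      · have e : ∀ y, y = x ↔ y ∈ insert x s ∧ y ∉ s := fun y => by grind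
        exact ndet2_le _ _ hε (ndet2_bij (U := (a · ∉ s)) (fun i h => ((e _).1 h).1) fun i => e _)
          (ndet2_bij (U := (b · ∉ s)) (fun i h => ((e _).1 h).1) fun i => e _).1 fun _ _ => rfl
      · intro i j hi hj
        by_contra h0
        have h1 : a i.1 = x := (Finset.mem_insert.1 i.2).resolve_right hi
        exact absurd (h i.1 j.1 h0) (not_le.2 ((hx _ hj).trans_eq h1.symm))
  exact (key s).trans (ndet2_le A _ hε ⟨Subtype.val_injective, fun i => ⟨⟨i, hs i⟩, rfl⟩⟩
    Subtype.val_injective fun _ _ => rfl)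

theorem ld_hf_lev {α : Type} (A : Matrix m n ℝ) (hε : 0 < ε) (a : m → α) (s : Finset α)
    (hs : ∀ i, a i ∈ s) :
    ld ε A ≤ ∑ x ∈ s, ld ε (A.submatrix (Subtype.val : {i // a i = x} → m) id) := by
  classical
  have key : ∀ s : Finset α, ld ε (A.submatrix (Subtype.val : {i // a i ∈ s} → m) id) ≤
      ∑ x ∈ s, ld ε (A.submatrix (Subtype.val : {i // a i = x} → m) id) := by
    intro s
    induction s using Finset.induction_on with
    | empty =>
      have : IsEmpty {i // a i ∈ (∅ : Finset α)} := ⟨fun i => by simpa using i.2⟩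
      rw [Finset.sum_empty, ndet2_empty]
    | insert x s hxs ih =>
      rw [Finset.sum_insert hxs, add_comm]
      refine (ld_hf _ hε (a ·.1 ∈ s)).trans (add_le_add (le_trans (le_of_eq ?_) ih) (le_of_eq ?_))
      · exact (ndet2_congr _ _ (ndet2_bij (U := (a · ∈ s)) (fun i => Finset.mem_insert_of_mem)
          fun i => ⟨fun h => ⟨Finset.mem_insert_of_mem h, h⟩, And.right⟩)
          Function.bijective_id fun _ _ => rfl).symm
      · have e : ∀ y, y = x ↔ y ∈ insert x s ∧ y ∉ s := fun y => by grind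
        exact (ndet2_congr _ _ (ndet2_bij (U := (a · ∉ s)) (fun i h => ((e _).1 h).1)
          fun i => e _) Function.bijective_id fun _ _ => rfl).symm
  refine le_trans (le_of_eq ?_) (key s)
  exact (ndet2_congr A _ ⟨Subtype.val_injective, fun i => ⟨⟨i, hs i⟩, rfl⟩⟩
    Function.bijective_id fun _ _ => rfl).symm

theorem ld_pert (A A0 : Matrix m n ℝ) (hε : 0 < ε) (a : m → ℤ) (b : n → ℤ) (bad : m → Prop)
    (h1 : ∀ i j, ¬bad i → A i j ≠ 0 → a i ≤ b j)
    (h2 : ∀ i j, ¬bad i → A0 i j = if a i = b j then A i j else 0) {c : ℝ} (hc : RB A0 c) :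
    ld ε A0 - Nat.card {i // bad i} * (Real.log (c ^ 2 + ε) - Real.log ε) ≤ ld ε A := by
  classical
  cases nonempty_fintype m
  have t1 := ld_tri A hε bad (fun _ => False) (fun _ _ _ h => h.elim)
  have t2 := ld_ge (sub A bad fun _ => False) hε
  have t3 := ld_lev (sub A (¬bad ·) fun _ => ¬False) hε (a ·.1) (b ·.1)
    (fun i j => h1 i.1 j.1 i.2) (Finset.univ.image a) (by simp)
  have t4 := ld_hf A0 hε bad
  have t5 := ld_le (A0.submatrix (Subtype.val : {i // bad i} → m) id) hε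
    (hc.submatrix Subtype.val_injective Function.injective_id)
  have t6 := ld_hf_lev (A0.submatrix (Subtype.val : {i // ¬bad i} → m) id) hε (a ·.1)
    (Finset.univ.image a) (by simp)
  have t7 : ∀ x, ld ε ((A0.submatrix (Subtype.val : {i // ¬bad i} → m) id).submatrix
      (Subtype.val : {i : {i // ¬bad i} // a i.1 = x} → _) id) =
      ld ε (sub (sub A (¬bad ·) fun _ => ¬False) (a ·.1 = x) (b ·.1 = x)) := by
    intro x
    rw [← ld_cols_eq _ (f := fun j : {j : {_j : n // ¬False} // b j.1 = x} => j.1.1)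
      (Subtype.val_injective.comp Subtype.val_injective)]
    · congr 1
      ext i j
      exact (h2 _ _ i.1.2).trans (if_pos (i.2.trans j.2.symm))
    · intro i j h
      refine ⟨⟨⟨j, id⟩, ?_⟩, rfl⟩
      by_contra h0
      exact h ((h2 _ _ i.1.2).trans (if_neg fun e => h0 (e.symm.trans i.2)))
  simp only [t7] at t6
  linarith

lemma ndet2_one [DecidableEq m] (hε : 0 < ε) : 0 ≤ ld ε (1 : Matrix m m ℝ) := by
  cases nonempty_fintype m
  rw [ld_eq, transpose_one, mul_one, ← one_smul ℝ (1 : Matrix m m ℝ), smul_smul, mul_one,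
    ← add_smul, det_smul, det_one, mul_one]
  exact Real.log_nonneg (one_le_pow₀ (by linarith))

theorem ld_utl (A : Matrix m n ℝ) (hε : 0 < ε) {piv : m → n} (hp : Function.Injective piv)
    (l : m → ℕ) (h1 : ∀ i, A i (piv i) ^ 2 = 1)
    (h2 : ∀ i j, A i (piv j) ≠ 0 → i = j ∨ l i < l j) : 0 ≤ ld ε A := by
  classical
  cases nonempty_fintype m
  refine le_trans ?_ (ld_cols A hε hp)
  refine le_trans (Finset.sum_nonneg fun x _ => ?_) (ld_lev _ hε l l
    (fun i j h => (h2 i j h).elim (fun e => e ▸ le_rfl) le_of_lt) (Finset.univ.image l) (by simp))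
  rw [ld_sign (1 : Matrix {i // l i = x} {i // l i = x} ℝ) _ (Equiv.refl _) (Equiv.refl _)
    (fun i => A i.1 (piv i.1)) 1 (fun i => h1 _) (by simp)]
  · exact ndet2_one hε
  · intro i j
    change A i.1 (piv j.1) = _
    by_cases e : i = j
    · subst e; simp
    · have : A i.1 (piv j.1) = 0 := by
        by_contra h0
        rcases h2 _ _ h0 with h | h
        · exact e (Subtype.ext h)
        · rw [i.2, j.2] at h; exact lt_irrefl _ h
      rw [this, Equiv.refl_apply, Equiv.refl_apply, one_apply_ne e, mul_zero]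

lemma ndet2_rb {m : Type} [DecidableEq m] {X Y : Matrix m m ℝ} {c a b : ℝ} (h : RB X c)
    (ha : 0 ≤ a) (hb : 0 ≤ b) (hY : ∀ i j, |Y i j| ≤ a * |X i j| + if i = j then b else 0) :
    RB Y (a * c + b) := by
  refine ⟨fun i s => ?_, fun j s => ?_⟩
  · refine (Finset.sum_le_sum fun j _ => hY i j).trans ?_
    rw [Finset.sum_add_distrib, ← Finset.mul_sum, Finset.sum_ite_eq]
    exact add_le_add (mul_le_mul_of_nonneg_left (h.1 i s) ha) (by split_ifs <;> simp [hb])
  · refine (Finset.sum_le_sum fun i _ => hY i j).trans ?_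
    rw [Finset.sum_add_distrib, ← Finset.mul_sum, Finset.sum_ite_eq']
    exact add_le_add (mul_le_mul_of_nonneg_left (h.2 j s) ha) (by split_ifs <;> simp [hb])

lemma ndet2_ext {m n k : Type} {A : Matrix m k ℝ} {c : ℝ} (h : RB A c) (Y : Matrix m n ℝ)
    (p : n → Prop) {g : {j // p j} → k} (hg : Function.Injective g)
    (h1 : ∀ i j (hj : p j), Y i j = A i (g ⟨j, hj⟩)) (h0 : ∀ i j, ¬p j → Y i j = 0) :
    RB Y |c| := by
  classical
  refine ⟨fun i s => ?_, fun j s => ?_⟩
  · refine le_trans (le_of_eq ?_) (((h.submatrix Function.injective_id hg).1 i (s.subtype p)).trans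
      (le_abs_self c))
    rw [← Finset.sum_filter_of_ne (p := p) fun j _ hj => by
      by_contra hp; exact hj (by rw [h0 i j hp, abs_zero]), ← Finset.sum_subtype_eq_sum_filter]
    exact Finset.sum_congr rfl fun j _ => by rw [h1 i j.1 j.2]; rfl
  · by_cases hj : p j
    · simp only [h1 _ j hj]
      exact (h.2 _ s).trans (le_abs_self c)
    · simp [h0 _ j hj]

/-- A unitriangular matrix with few levels has a small regularised determinant. -/
lemma ndet2_utr {c : ℝ} (hc : 0 ≤ c) (L : ℕ) {γ : ℝ} (hγ : 0 < γ) : ∃ η > 0,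
    ∀ (m : Type) [Finite m] (T : Matrix m m ℝ) (l : m → ℕ), RB T c → (∀ i, l i ≤ L) →
      (∀ i, T i i ^ 2 = 1) → (∀ i j, T i j ≠ 0 → i = j ∨ l j < l i) →
      ld η T ≤ γ * Nat.card m := by
  obtain ⟨t, t0, t1, ht⟩ : ∃ t : ℝ, 0 < t ∧ t ≤ 1 ∧ t * (c + 1) ^ 2 ≤ γ / 2 :=
    ⟨min 1 (γ / 2 / (c + 1) ^ 2), by positivity, min_le_left _ _,
      (le_div_iff₀ (by positivity)).1 (min_le_right _ _)⟩
  have u1 : 1 ≤ t⁻¹ := (one_le_inv₀ t0).2 t1
  have a1 : 1 ≤ t⁻¹ ^ L := one_le_pow₀ u1
  have hK : 0 < (t⁻¹ ^ L * c + t⁻¹ ^ L) ^ 2 := by positivity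
  obtain ⟨η1, hη1, H1⟩ := ld_mul_ge hK (half_pos hγ)
  obtain ⟨η2, hη2, H2⟩ := ld_mul_ge hK hη1
  refine ⟨η2, hη2, fun m _ T l hT hl hd hlt => ?_⟩
  classical
  cases nonempty_fintype m
  have nb : ∀ Y : Matrix m m ℝ, (∀ i j, |Y i j| ≤ t⁻¹ ^ L * |T i j| + if i = j then t⁻¹ ^ L else 0) →
      ∀ v, (v ᵥ* Y) ⬝ᵥ (v ᵥ* Y) ≤ (t⁻¹ ^ L * c + t⁻¹ ^ L) ^ 2 * (v ⬝ᵥ v) := fun Y hY =>
    (ndet2_rb hT (by positivity) (by positivity) hY).norm
  have nd : ∀ d : m → ℝ, (∀ i, |d i| ≤ t⁻¹ ^ L) → ∀ i j,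
      |diagonal d i j| ≤ t⁻¹ ^ L * |T i j| + if i = j then t⁻¹ ^ L else 0 := fun d hd i j => by
    have : 0 ≤ t⁻¹ ^ L * |T i j| := by positivity
    rw [diagonal_apply]
    split_ifs
    · linarith [hd i]
    · simpa using this
  have b1 : ∀ i, |t ^ l i| ≤ t⁻¹ ^ L := fun i => by
    rw [abs_of_pos (by positivity)]; exact (pow_le_one₀ t0.le t1).trans a1
  have b2 : ∀ i, |t⁻¹ ^ l i| ≤ t⁻¹ ^ L := fun i => by
    rw [abs_of_pos (by positivity)]; exact pow_le_pow_right₀ u1 (hl i)
  have pos : ∀ i j : m, (0 : ℝ) ≤ if i = j then t⁻¹ ^ L else 0 := fun i j => by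
    split_ifs <;> positivity
  have e1 := H1 m m m (diagonal fun i => t ^ l i) (T * diagonal fun i => t⁻¹ ^ l i) rfl
    (nb _ (nd _ b1)) (nb _ fun i j => by
      rw [mul_diagonal, abs_mul, mul_comm]
      exact (mul_le_mul_of_nonneg_right (b2 j) (abs_nonneg _)).trans (le_add_of_nonneg_right
        (pos i j)))
  have e2 := H2 m m m T (diagonal fun i => t⁻¹ ^ l i) rfl (nb _ fun i j =>
    (le_mul_of_one_le_left (abs_nonneg _) a1).trans (le_add_of_nonneg_right (pos i j)))
    (nb _ (nd _ b2))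
  have e3 := ld_mul_le (diagonal fun i => t ^ l i) (diagonal fun i => t⁻¹ ^ l i) rfl hη1 hη2
  have e4 : (diagonal fun i => t ^ l i) * (diagonal fun i => t⁻¹ ^ l i) = 1 := by
    rw [diagonal_mul_diagonal, ← diagonal_one]
    congr 1
    funext i
    rw [← mul_pow, mul_inv_cancel₀ t0.ne', one_pow]
  have e5 : 0 ≤ ld (η1 * η2) (1 : Matrix m m ℝ) := ndet2_one (mul_pos hη1 hη2)
  have e6 := ld_le ((diagonal fun i => t ^ l i) * (T * diagonal fun i => t⁻¹ ^ l i)) (half_pos hγ)
    (ndet2_rb hT t0.le zero_le_one fun i j => by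
      rw [diagonal_mul, mul_diagonal, abs_mul, abs_mul, abs_of_pos (pow_pos t0 _),
        abs_of_pos (pow_pos (inv_pos.2 t0) _), mul_left_comm]
      by_cases h0 : T i j = 0
      · simp only [h0, abs_zero, zero_mul, mul_zero, zero_add]
        split_ifs <;> norm_num
      rcases hlt i j h0 with rfl | h
      · rw [← mul_pow, mul_inv_cancel₀ t0.ne', one_pow, mul_one, if_pos rfl]
        have : |T i i| = 1 := by rw [← sq_eq_sq₀ (abs_nonneg _) zero_le_one, sq_abs, hd, one_pow]
        rw [this]; linarith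
      · obtain ⟨k, hk⟩ := Nat.exists_eq_add_of_lt h
        rw [if_neg (by rintro rfl; exact lt_irrefl _ h), add_zero, mul_comm t, hk]
        refine mul_le_mul_of_nonneg_left ?_ (abs_nonneg _)
        have : t ^ (l j + k + 1) * t⁻¹ ^ l j = t ^ k * t := by
          rw [inv_pow]; field_simp; ring
        rw [this]
        exact mul_le_of_le_one_left t0.le (pow_le_one₀ t0.le t1))
  have e7 : Real.log ((t * c + 1) ^ 2 + γ / 2) ≤ γ := by
    refine (Real.log_le_sub_one_of_pos (by positivity)).trans ?_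
    have : t * c * (t * c) ≤ t * c * c := mul_le_mul_of_nonneg_left
      (mul_le_of_le_one_left hc t1) (by positivity)
    nlinarith
  rw [e4] at e3
  have e8 := mul_le_mul_of_nonneg_left e7 (Nat.cast_nonneg (α := ℝ) (Nat.card m))
  linarith

theorem ld_ut (c : ℝ) (L : ℕ) {γ : ℝ} (hγ : 0 < γ) : ∀ᶠ δ in 𝓝[>] (0 : ℝ),
    ∀ (m n : Type) [Finite m] [Finite n] (A : Matrix m n ℝ) (P : m → Prop) (R : n → Prop)
      (piv : {i // ¬P i} ≃ {j // ¬R j}) (l : {i // ¬P i} → ℕ),
      Nat.card {i // P i} = Nat.card {j // R j} → RB A c → (∀ i, l i ≤ L) →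
      (∀ i j, ¬P i → R j → A i j = 0) → (∀ i, A i.1 (piv i).1 ^ 2 = 1) →
      (∀ i j, A i.1 (piv j).1 ≠ 0 → i = j ∨ l j < l i) →
      ld δ A ≤ ld (√δ) (sub A P R) + γ * Nat.card m := by
  obtain ⟨η, hη, H⟩ := ndet2_utr (c := 1 * |c| + 1) (by positivity) (L + 1) (half_pos hγ)
  filter_upwards [Ioo_mem_nhdsGT (show (0 : ℝ) < min η (γ / 2) ^ 2 by positivity)] with δ hδ
  intro m n _ _ A P R piv l _ hA hl h0 h1 h2
  classical
  cases nonempty_fintype m
  have s0 : 0 < √δ := Real.sqrt_pos.2 hδ.1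
  have s1 : √δ ≤ min η (γ / 2) := Real.sqrt_le_iff.2 ⟨by positivity, hδ.2.le⟩
  let T : Matrix m m ℝ := .of fun i j =>
    if h : P j then (if i = j then 1 else 0) else A i (piv ⟨j, h⟩).1
  let Y : Matrix m n ℝ := .of fun j r =>
    if h : P j then (if R r then A j r else 0) else if (piv ⟨j, h⟩).1 = r then 1 else 0
  have hp : Function.Injective fun j => (piv j).1 := Subtype.val_injective.comp piv.injective
  have e : A = T * Y := by
    ext i r
    rw [mul_apply]
    by_cases hr : R r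
    · rw [Finset.sum_eq_single i]
      · by_cases hi : P i
        · simp [T, Y, hi, hr]
        · have : (piv ⟨i, hi⟩).1 ≠ r := fun e => (piv ⟨i, hi⟩).2 (e ▸ hr)
          simp [T, Y, hi, this, h0 i r hi hr]
      · intro j _ hj
        by_cases hi : P j
        · simp [T, hi, hj.symm]
        · have : (piv ⟨j, hi⟩).1 ≠ r := fun e => (piv ⟨j, hi⟩).2 (e ▸ hr)
          simp [Y, hi, this]
      · simp
    · rw [Finset.sum_eq_single (piv.symm ⟨r, hr⟩).1]
      · simp [T, Y, (piv.symm ⟨r, hr⟩).2]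
      · intro j _ hj
        by_cases hi : P j
        · simp [Y, hi, hr]
        · have : (piv ⟨j, hi⟩).1 ≠ r := fun e => hj (by
            rw [show (⟨r, hr⟩ : {j // ¬R j}) = piv ⟨j, hi⟩ from Subtype.ext e.symm]; simp)
          simp [Y, hi, this]
      · simp
  have t1 : ld δ A ≤ ld (√δ) T + ld (√δ) Y := by
    have := ld_mul_le T Y rfl s0 s0
    rwa [Real.mul_self_sqrt hδ.1.le, ← e] at this
  have t2 := ld_mono T s0 (s1.trans (min_le_left _ _))
  have t3 := H m T (fun i => if h : P i then L + 1 else l ⟨i, h⟩)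
    (ndet2_rb (ndet2_ext hA (.of fun i j => if h : P j then 0 else A i (piv ⟨j, h⟩).1) (¬P ·) hp
      (fun i j hj => dif_neg hj) fun i j hj => dif_pos (not_not.1 hj)) zero_le_one zero_le_one
      fun i j => by
        by_cases hj : P j
        · by_cases e : i = j <;> simp [T, hj, e]
        · by_cases e : i = j <;> simp [T, hj, e])
    (fun i => by
      split_ifs with h
      · exact le_rfl
      · exact (hl _).trans (Nat.le_succ _))
    (fun i => by
      by_cases hi : P i
      · simp [T, hi]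
      · simpa [T, hi] using h1 ⟨i, hi⟩)
    (fun i j h => by
      by_cases hj : P j
      · left; simpa [T, hj] using h
      by_cases hi : P i
      · right; simpa [hi, hj] using Nat.lt_succ_of_le (hl ⟨j, hj⟩)
      · simpa [hi, hj] using h2 ⟨i, hi⟩ ⟨j, hj⟩ (by simpa [T, hj] using h))
  have t4 := ld_hf Y s0 P
  have t5 : ld (√δ) (Y.submatrix (Subtype.val : {i // P i} → m) id) = ld (√δ) (sub A P R) := by
    rw [← ld_cols_eq _ (f := (Subtype.val : {j // R j} → n)) Subtype.val_injective]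
    · congr 1
      ext i j
      simp [Y, sub, i.2, j.2]
    · intro i j h
      refine ⟨⟨j, ?_⟩, rfl⟩
      by_contra hj
      simp [Y, i.2, hj] at h
  have t6 : ld (√δ) (Y.submatrix (Subtype.val : {i // ¬P i} → m) id) =
      ld (√δ) (1 : Matrix {i // ¬P i} {i // ¬P i} ℝ) := by
    rw [← ld_cols_eq _ hp]
    · congr 1
      ext i j
      simp [Y, i.2, one_apply, hp.eq_iff, Subtype.ext_iff]
    · intro i j h
      refine ⟨i, ?_⟩
      by_contra hj
      simp [Y, i.2] at h
      exact hj h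
  have t7 := ld_le (1 : Matrix {i // ¬P i} {i // ¬P i} ℝ) s0 (c := 0 * 0 + 1)
    (ndet2_rb (X := 0) ⟨by simp, by simp⟩ le_rfl zero_le_one fun i j => by
      rw [one_apply]; split_ifs <;> simp)
  have t8 : Real.log ((0 * 0 + 1) ^ 2 + √δ) ≤ γ / 2 :=
    (Real.log_le_sub_one_of_pos (by positivity)).trans
      (by linarith [s1.trans (min_le_right _ _)])
  have t9 : (Nat.card {i // ¬P i} : ℝ) ≤ Nat.card m := by
    exact_mod_cast Nat.card_le_card_of_injective _ Subtype.val_injective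
  have := (t7.trans (mul_le_mul_of_nonneg_left t8 (Nat.cast_nonneg _))).trans
    (mul_le_mul_of_nonneg_right t9 (half_pos hγ).le)
  rw [t5, t6] at t4
  linarith

theorem ld_elim (c : ℝ) {γ : ℝ} (hγ : 0 < γ) (hε : 0 < ε) : ∃ η > 0,
    ∀ (m n : Type) [Finite m] [Fintype n] (A : Matrix m n ℝ) (P : m → Prop) (R : n → Prop)
      (T : Matrix n {j // R j} ℝ), Nat.card m = Nat.card n → RB T c →
      (∀ r : {j // R j}, T r.1 r = 1) → (∀ r r' : {j // R j}, r ≠ r' → T r.1 r' = 0) →
      (∀ i r, ¬P i → (A * T) i r = 0) → (∀ θ > 0, 0 ≤ ld θ (sub A (¬P ·) (¬R ·))) →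
      ld η ((A * T).submatrix (Subtype.val : {i // P i} → m) id) - γ * Nat.card m ≤ ld ε A := by
  obtain ⟨η, hη, H⟩ := ndet2_utr (c := 1 * |c| + 1) (by positivity) 1 hγ
  refine ⟨ε * η, mul_pos hε hη, fun m n _ _ A P R T hmn hT h1 h2 h3 h4 => ?_⟩
  classical
  let V : Matrix n n ℝ := .of fun i j => if h : R j then T i ⟨j, h⟩ else if i = j then 1 else 0
  have t1 := ld_mul_le A V hmn hε hη
  have t2 := H n V (fun i => if R i then 0 else 1)
    (ndet2_rb (ndet2_ext hT (.of fun i j => if h : R j then T i ⟨j, h⟩ else 0) R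
      Function.injective_id (fun i j hj => dif_pos hj) fun i j hj => dif_neg hj)
      zero_le_one zero_le_one fun i j => by
        by_cases hj : R j
        · by_cases e : i = j <;> simp [V, hj, e]
        · by_cases e : i = j <;> simp [V, hj, e])
    (fun i => by split_ifs <;> simp)
    (fun i => by
      by_cases hi : R i
      · simp [V, hi, h1 ⟨i, hi⟩]
      · simp [V, hi])
    (fun i j h => by
      by_cases hj : R j
      · by_cases hi : R i
        · left
          by_contra e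
          exact h ((dif_pos hj).trans (h2 ⟨i, hi⟩ ⟨j, hj⟩ fun e' => e (congrArg Subtype.val e')))
        · right; simp [hi, hj]
      · left; simpa [V, hj] using h)
  have e1 : ∀ i (r : {j // R j}), (A * V) i r.1 = (A * T) i r := fun i r => by
    simp [mul_apply, V, r.2]
  have t3 := ld_tri (A * V) (mul_pos hε hη) P R fun i j hi hj =>
    (e1 i ⟨j, hj⟩).trans (h3 i _ hi)
  have e2 : sub (A * V) P R = (A * T).submatrix (Subtype.val : {i // P i} → m) id := by
    ext i j; exact e1 i.1 j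
  have e3 : sub (A * V) (¬P ·) (¬R ·) = sub A (¬P ·) (¬R ·) := by
    ext i j; simp [sub, mul_apply, V, j.2]
  rw [e2, e3] at t3
  rw [← hmn] at t2
  linarith [h4 _ (mul_pos hε hη)]

end

end Pool.Agent.Lib.MP_b65ff2_gt
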