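import Pool.Agent.Lib.MP_b65ff2_gt.NExB

namespace Pool.Agent.Lib.MP_b65ff2_gt

open Matrix Filter Topology

set_option linter.unusedSectionVars false

noncomputable section

namespace NEx

variable {S : Type} [Fintype S] [DecidableEq S] [LinearOrder S] {Γ : SimpleGraph S}

/-- The filtration by the length of the top vertex. -/
def Fl (Γ : SimpleGraph S) (l n : ℕ) : Submodule ℤ (MM Γ) := Submodule.span ℤ
  {x | ∃ v T, Cl Γ T ∧ T.card = n ∧ (∀ t ∈ T, Dn Γ v t) ∧ len Γ v < l ∧ x = cc v T}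

variable {T : Finset S} {v : RA Γ} {s : S} {l n : ℕ}

lemma mem_Fl (hT : Cl Γ T) (hn : T.card = n) (hd : ∀ t ∈ T, Dn Γ v t) (hl : len Γ v < l) :
    cc v T ∈ Fl Γ l n := Submodule.subset_span ⟨v, T, hT, hn, hd, hl, rfl⟩

lemma Fl_le {N : Submodule ℤ (MM Γ)} (h : ∀ v T, Cl Γ T → T.card = n → (∀ t ∈ T, Dn Γ v t) →
    len Γ v < l → cc v T ∈ N) : Fl Γ l n ≤ N :=
  Submodule.span_le.2 (by rintro _ ⟨v, T, h1, h2, h3, h4, rfl⟩; exact h v T h1 h2 h3 h4)

lemma Fl_mono (n : ℕ) : Monotone fun l => Fl Γ l n := fun _ _ h =>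
  Fl_le fun _ _ h1 h2 h3 h4 => mem_Fl h1 h2 h3 (h4.trans_le h)

lemma Fl_Ch : Fl Γ l n ≤ Ch Γ n := Fl_le fun v _ h1 h2 _ _ => h2 ▸ cc_mem h1 v

lemma Ch_Fl {x : MM Γ} (hx : x ∈ Ch Γ n) : ∃ l, x ∈ Fl Γ l n := by
  have : Ch Γ n ≤ ⨆ l, Fl Γ l n := chains_ind fun v T hT hn => by
    rw [anti_nf flip_dn hT (K := fun v => cc v T) (fun v s hs => cc_flip hT v hs) v]
    exact Submodule.smul_mem _ _ (Submodule.mem_iSup_of_mem _ (mem_Fl hT hn
      (fun t ht => not_not.1 (nf_spec flip_dn hT v t ht)) (Nat.lt_succ_self _)))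
  exact (Submodule.mem_iSup_of_directed _ (Fl_mono n).directed_le).1 (this hx)

lemma low_mem (hT : Cl Γ T) (hd : ∀ t ∈ T, Dn Γ v t) (hl : len Γ v < l + 1) (hs : s ∈ T) :
    cc (v * gn Γ s) (T.erase s) ∈ Fl Γ l (T.card - 1) := by
  refine mem_Fl (hT.mono (Finset.erase_subset _ _)) (Finset.card_erase_of_mem hs) (fun t ht => ?_) ?_
  · obtain ⟨e, ht⟩ := Finset.mem_erase.1 ht
    exact (Dn_mul_adj v (hT hs ht (Ne.symm e))).2 (hd t ht)
  · have := len_down (hd s hs); omega

lemma bd_top (hT : Cl Γ T) (hd : ∀ t ∈ T, Dn Γ v t) (hl : len Γ v < l + 1) :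
    bdry (dG Γ) (cc v T) + ∑ s ∈ T, sgn s T • cc v (T.erase s) ∈ Fl Γ l (T.card - 1) := by
  rw [bd_cc hT, ← Finset.sum_add_distrib]
  refine Submodule.sum_mem _ fun s hs => ?_
  rw [← smul_add, sub_add_cancel]
  exact Submodule.smul_mem _ _ (low_mem hT hd hl hs)

lemma bd_Fl {x : MM Γ} (hx : x ∈ Fl Γ l (n + 1)) : bdry (dG Γ) x ∈ Fl Γ l n := by
  refine Fl_le (N := (Fl Γ l n).comap (bdry (dG Γ))) (fun v T hT hn hd hl => ?_) hx
  rw [Submodule.mem_comap, bd_cc hT]
  refine Submodule.sum_mem _ fun s hs => Submodule.smul_mem _ _ (Submodule.sub_mem _ ?_ ?_)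
  · simpa [hn] using low_mem hT hd (hl.trans (Nat.lt_succ_self _)) hs
  · exact mem_Fl (hT.mono (Finset.erase_subset _ _)) (by rw [Finset.card_erase_of_mem hs, hn]; rfl)
      (fun t ht => hd t (Finset.mem_of_mem_erase ht)) hl

open Classical in
def kk (v : RA Γ) (T : Finset S) : MM Γ :=
  if h : ∃ s, Dn Γ v s then
    (if h.choose ∈ T then 0 else -sgn h.choose (insert h.choose T) • cc v (insert h.choose T))
  else 0

lemma exists_h : ∃ h : MM Γ →ₗ[ℤ] MM Γ, ∀ T, Cl Γ T → ∀ v, (∀ t ∈ T, Dn Γ v t) →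
    h (cc v T) = kk v T := by
  obtain ⟨h, hh⟩ := exists_lin (Γ := Γ) (fun v T => sg (fun v s => ¬Dn Γ v s) v T •
    kk (nf (fun v s => ¬Dn Γ v s) v T) T) fun T hT v s hs => by
      rw [(nf_flip flip_dn hT hs v).1, (nf_flip flip_dn hT hs v).2, neg_smul]
  refine ⟨h, fun T hT v hd => ?_⟩
  have := nf_base (φ := fun v s => ¬Dn Γ v s) (v := v) (T := T) fun t ht => not_not.2 (hd t ht)
  rw [hh T hT, this.1, this.2, one_smul]

lemma cl_of_dn (hd : ∀ t ∈ T, Dn Γ v t) : Cl Γ T := fun a ha b hb e =>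
  Dn_clique (hd a ha) (hd b hb) e

lemma dn_insert (hd : ∀ t ∈ T, Dn Γ v t) (hs : Dn Γ v s) : ∀ t ∈ insert s T, Dn Γ v t := by
  intro t ht
  rcases Finset.mem_insert.1 ht with rfl | ht
  exacts [hs, hd t ht]

lemma exact_succ (n : ℕ) : cycles (degI Γ) (dG Γ) (n + 1) ≤ (Ch Γ (n + 2)).map (bdry (dG Γ)) := by
  obtain ⟨h, hh⟩ := exists_h (Γ := Γ)
  have hF : ∀ l n, Fl Γ l n ≤ (Fl Γ l (n + 1)).comap h := fun l n => Fl_le fun v T hT hn hd hl => by
    rw [Submodule.mem_comap, hh T hT v hd, kk]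
    split_ifs with h1 h2
    · exact zero_mem _
    · have := dn_insert hd h1.choose_spec
      exact Submodule.smul_mem _ _ (mem_Fl (cl_of_dn this)
        (by rw [Finset.card_insert_of_notMem h2, hn]) this hl)
    · exact zero_mem _
  have key : ∀ l, ∀ z ∈ Fl Γ l (n + 1), bdry (dG Γ) z = 0 →
      z ∈ (Ch Γ (n + 2)).map (bdry (dG Γ)) := by
    intro l
    induction l with
    | zero =>
      intro z hz _
      have : Fl Γ 0 (n + 1) ≤ ⊥ := Fl_le fun _ _ _ _ _ h => absurd h (Nat.not_lt_zero _)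
      rw [(Submodule.mem_bot ℤ).1 (this hz)]
      exact zero_mem _
    | succ l ih =>
      let N : Submodule ℤ (MM Γ) := (Fl Γ l (n + 1)).comap (LinearMap.id - h ∘ₗ bdry (dG Γ))
      have hN : ∀ y, y ∈ N ↔ y - h (bdry (dG Γ) y) ∈ Fl Γ l (n + 1) := fun y => Iff.rfl
      have N1 : Fl Γ l (n + 1) ≤ N := fun y hy =>
        (hN y).2 (Submodule.sub_mem _ hy (hF _ _ (bd_Fl hy)))
      have N2 : ∀ v T, T.card = n + 1 → (∀ t ∈ T, Dn Γ v t) → len Γ v < l + 1 →
          ∀ h1 : ∃ s, Dn Γ v s, h1.choose ∈ T → cc v T ∈ N := by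
        intro v T hn hd hl h1 h2
        have hT := cl_of_dn hd
        have a1 := hF _ _ (bd_top hT hd hl)
        rw [Submodule.mem_comap, map_add, map_sum, Finset.sum_eq_single_of_mem _ h2, map_smul,
          hh _ (hT.mono (Finset.erase_subset _ _)) v fun t ht => hd t (Finset.mem_of_mem_erase ht),
          kk, dif_pos h1, if_neg (Finset.notMem_erase _ _), Finset.insert_erase h2, smul_smul,
          mul_neg, sgn_sq, hn] at a1
        · rw [hN]
          have a2 := neg_mem a1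
          rwa [neg_smul, one_smul, neg_add, neg_neg, neg_add_eq_sub] at a2
        · intro t ht e
          rw [map_smul, hh _ (hT.mono (Finset.erase_subset _ _)) v
            fun t ht => hd t (Finset.mem_of_mem_erase ht), kk, dif_pos h1,
            if_pos (Finset.mem_erase.2 ⟨Ne.symm e, h2⟩), smul_zero]
      have N3 : Fl Γ (l + 1) (n + 1) ≤ N.comap (LinearMap.id - bdry (dG Γ) ∘ₗ h) :=
        Fl_le fun v T hT hn hd hl => by
          obtain ⟨t0, ht0⟩ : T.Nonempty := Finset.card_pos.1 (by omega)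
          have h1 : ∃ s, Dn Γ v s := ⟨t0, hd t0 ht0⟩
          change cc v T - bdry (dG Γ) (h (cc v T)) ∈ N
          rw [hh T hT v hd, kk, dif_pos h1]
          split_ifs with h2
          · rw [map_zero, sub_zero]; exact N2 v T hn hd hl h1 h2
          · have hd' := dn_insert hd h1.choose_spec
            have hc : (insert h1.choose T).card = n + 2 := by
              rw [Finset.card_insert_of_notMem h2, hn]
            have a1 := bd_top (cl_of_dn hd') hd' hl
            rw [hc, Finset.sum_insert h2, Finset.erase_insert h2] at a1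
            have a2 : ∑ s ∈ T, sgn s (insert h1.choose T) • cc v ((insert h1.choose T).erase s) ∈ N :=
              N.sum_mem fun s hs => N.smul_mem _ (N2 v _
                (by rw [Finset.card_erase_of_mem (Finset.mem_insert_of_mem hs), hc]; rfl)
                (fun t ht => hd' t (Finset.mem_of_mem_erase ht)) hl h1
                (Finset.mem_erase.2 ⟨fun e => h2 (e ▸ hs), Finset.mem_insert_self _ _⟩))
            convert N.smul_mem (sgn h1.choose (insert h1.choose T)) (N.sub_mem (N1 a1) a2) using 1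
            rw [← add_assoc, add_sub_cancel_right, smul_add, smul_smul, sgn_sq, map_smul, one_smul,
              neg_smul, sub_neg_eq_add, add_comm]
      intro z hz h0
      have a1 : z - bdry (dG Γ) (h z) ∈ N := N3 hz
      have a2 : bdry (dG Γ) (z - bdry (dG Γ) (h z)) = 0 := by rw [map_sub, h0, bd_bd', sub_zero]
      rw [hN, a2, map_zero, sub_zero] at a1
      have a3 := Submodule.add_mem _ (ih _ a1 a2)
        (Submodule.mem_map_of_mem (f := bdry (dG Γ)) (Fl_Ch (hF _ _ hz)))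
      rwa [sub_add_cancel] at a3
  intro z hz
  obtain ⟨l, hl⟩ := Ch_Fl hz.1
  exact key l z hl hz.2

def aug (Γ : SimpleGraph S) : MM Γ →ₗ[ℤ] ℤ where
  toFun x := ∑ i, (x i).coeff.sum fun _ a => a
  map_add' x y := by
    rw [← Finset.sum_add_distrib]
    refine Finset.sum_congr rfl fun i _ => ?_
    rw [Pi.add_apply, MonoidAlgebra.coeff_add, Finsupp.sum_add_index'] <;> simp
  map_smul' c x := by
    rw [Finset.smul_sum]
    refine Finset.sum_congr rfl fun i _ => ?_
    rw [Pi.smul_apply, MonoidAlgebra.coeff_smul, Finsupp.sum_smul_index (fun _ => rfl),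
      Finsupp.smul_sum]
    rfl

lemma cl_empty : Cl Γ ∅ := by simp [Cl]

lemma aug_cc (v : RA Γ) : aug Γ (cc v ∅) = 1 := by
  rw [cc_base cl_empty (by simp)]
  change ∑ i, (gen _ _ i).coeff.sum (fun _ a => a) = 1
  rw [Finset.sum_eq_single ⟨(par Γ v, ∅), cl_empty, by simp⟩]
  · simp [gen]
  · intro j _ e
    simp [gen, Pi.single_eq_of_ne e]
  · simp

lemma bd_one (v : RA Γ) (s : S) : bdry (dG Γ) (cc v {s}) = cc (v * gn Γ s) ∅ - cc v ∅ := by
  rw [bd_cc (by simp [Cl])]
  simp [sgn, Finset.filter_singleton]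

lemma exact_zero {x : MM Γ} (hx : x ∈ Ch Γ 0) : x ∈ (Ch Γ 1).map (bdry (dG Γ)) ↔ aug Γ x = 0 := by
  constructor
  · rintro ⟨y, hy, rfl⟩
    refine chains_ind (N := LinearMap.ker (aug Γ ∘ₗ bdry (dG Γ))) (fun v T _ hn => ?_) hy
    obtain ⟨s, rfl⟩ := Finset.card_eq_one.1 hn
    simp [bd_one, aug_cc]
  · intro h
    have := chains_ind (N := ((Ch Γ 1).map (bdry (dG Γ))).comap
      (LinearMap.id - (aug Γ).smulRight (cc 1 ∅))) (fun v T _ hn => by
        obtain rfl := Finset.card_eq_zero.1 hn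
        change cc v ∅ - aug Γ (cc v ∅) • cc 1 ∅ ∈ (Ch Γ 1).map (bdry (dG Γ))
        rw [aug_cc, one_smul]
        induction v using RA.ind with
        | h1 => simp
        | hs v s ih =>
          have := Submodule.add_mem _ (Submodule.mem_map_of_mem (f := bdry (dG Γ))
            (cc_mem (T := {s}) (by simp [Cl]) v)) ih
          rwa [bd_one, sub_add_sub_cancel] at this) hx
    simpa [h] using this

end NEx

theorem dG_res {S : Type} [Fintype S] [DecidableEq S] [LinearOrder S] (Γ : SimpleGraph S) :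
    IsRes (degI Γ) (dG Γ) :=
  ⟨NEx.dG_cx, ⟨⟨(0, ∅), NEx.cl_empty, by simp⟩, rfl⟩, NEx.exact_succ, fun _ hx => NEx.exact_zero hx⟩

end

end Pool.Agent.Lib.MP_b65ff2_gt
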