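import Pool.Agent.Lib.MP_b65ff2_gt.NR

namespace Pool.Agent.Lib.MP_b65ff2_gt

open Matrix

set_option linter.unusedSectionVars false

noncomputable section

namespace NEx

variable {S : Type} [DecidableEq S] {Γ : SimpleGraph S}

/-- A property of the pairs (vertex, generator) that flips across the wall of the generator only. -/
structure Flip (φ : RA Γ → S → Prop) : Prop where
  self : ∀ v s, φ (v * gn Γ s) s ↔ ¬φ v s
  adj : ∀ v s t, Γ.Adj s t → (φ (v * gn Γ s) t ↔ φ v t)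

abbrev Cl (Γ : SimpleGraph S) (T : Finset S) : Prop := Γ.IsClique (T : Set S)

lemma Cl.mono {T U : Finset S} (h : Cl Γ T) (hU : U ⊆ T) : Cl Γ U :=
  SimpleGraph.IsClique.subset (by exact_mod_cast hU) h

lemma Cl.cm {T : Finset S} (h : Cl Γ T) : (T : Set S).Pairwise (Function.onFun Commute (gn Γ)) :=
  fun _ hs _ ht hne => gn_cm Γ (h hs ht hne)

open Classical in
def pr (Γ : SimpleGraph S) (U : Finset S) : RA Γ :=
  if h : Cl Γ U then U.noncommProd (gn Γ) h.cm else 1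

lemma pr_empty : pr Γ ∅ = 1 := by
  unfold pr; split_ifs <;> simp

lemma pr_insert {U : Finset S} {s : S} (h : Cl Γ (insert s U)) (hs : s ∉ U) :
    pr Γ (insert s U) = gn Γ s * pr Γ U := by
  unfold pr
  rw [dif_pos h, dif_pos (h.mono (Finset.subset_insert _ _)),
    Finset.noncommProd_insert_of_notMem _ _ _ _ hs]

open Classical in
def fl (φ : RA Γ → S → Prop) (v : RA Γ) (T : Finset S) : Finset S := T.filter (φ v)

def nf (φ : RA Γ → S → Prop) (v : RA Γ) (T : Finset S) : RA Γ := v * pr Γ (fl φ v T)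

def sg (φ : RA Γ → S → Prop) (v : RA Γ) (T : Finset S) : ℤ := (-1) ^ (fl φ v T).card

variable {φ : RA Γ → S → Prop} {T : Finset S} {v : RA Γ} {s : S}

lemma mem_fl {t : S} : t ∈ fl φ v T ↔ t ∈ T ∧ φ v t := by
  classical
  simp [fl]

lemma fl_flip (hφ : Flip φ) (hT : Cl Γ T) (hs : s ∈ T) (h : φ v s) :
    fl φ v T = insert s (fl φ (v * gn Γ s) T) ∧ s ∉ fl φ (v * gn Γ s) T := by
  refine ⟨?_, fun h' => (hφ.self v s).1 (mem_fl.1 h').2 h⟩
  ext t
  rw [Finset.mem_insert, mem_fl, mem_fl]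
  by_cases e : t = s
  · subst e; simp [hs, h]
  · simp only [e, false_or]
    refine and_congr_right fun ht => (hφ.adj v s t (hT hs ht (Ne.symm e))).symm

lemma mul_gn_gn (v : RA Γ) (s : S) : v * gn Γ s * gn Γ s = v := by
  rw [mul_assoc, gn_sq, mul_one]

lemma nf_flip' (hφ : Flip φ) (hT : Cl Γ T) (hs : s ∈ T) (h : φ v s) :
    nf φ (v * gn Γ s) T = nf φ v T ∧ sg φ (v * gn Γ s) T = -sg φ v T := by
  obtain ⟨e, hn⟩ := fl_flip hφ hT hs h
  have hc : Cl Γ (insert s (fl φ (v * gn Γ s) T)) := by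
    rw [← e]; exact hT.mono fun t ht => (mem_fl.1 ht).1
  constructor
  · unfold nf; rw [e, pr_insert hc hn, mul_assoc]
  · unfold sg; rw [e, Finset.card_insert_of_notMem hn, pow_succ]; ring

lemma nf_flip (hφ : Flip φ) (hT : Cl Γ T) (hs : s ∈ T) (v : RA Γ) :
    nf φ (v * gn Γ s) T = nf φ v T ∧ sg φ (v * gn Γ s) T = -sg φ v T := by
  by_cases h : φ v s
  · exact nf_flip' hφ hT hs h
  · have := nf_flip' hφ hT hs ((hφ.self v s).2 h)
    rw [mul_gn_gn] at this
    exact ⟨this.1.symm, by rw [this.2, neg_neg]⟩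

lemma nf_base (h : ∀ t ∈ T, ¬φ v t) : nf φ v T = v ∧ sg φ v T = 1 := by
  have : fl φ v T = ∅ := Finset.eq_empty_of_forall_notMem fun t ht =>
    h t (mem_fl.1 ht).1 (mem_fl.1 ht).2
  simp [nf, sg, this, pr_empty]

lemma Flip.ind (hφ : Flip φ) (hT : Cl Γ T) {P : RA Γ → Prop} (h0 : ∀ v, (∀ t ∈ T, ¬φ v t) → P v)
    (h1 : ∀ v, ∀ s ∈ T, P (v * gn Γ s) → P v) (v : RA Γ) : P v := by
  induction hn : (fl φ v T).card generalizing v with
  | zero =>
    refine h0 v fun t ht h => ?_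
    have : t ∈ fl φ v T := mem_fl.2 ⟨ht, h⟩
    rw [Finset.card_eq_zero.1 hn] at this
    simp at this
  | succ n ih =>
    obtain ⟨s, hs⟩ : (fl φ v T).Nonempty := Finset.card_pos.1 (by omega)
    obtain ⟨hs, h⟩ := mem_fl.1 hs
    obtain ⟨e, hn'⟩ := fl_flip hφ hT hs h
    refine h1 v s hs (ih _ ?_)
    rw [e, Finset.card_insert_of_notMem hn'] at hn
    omega

lemma nf_spec (hφ : Flip φ) (hT : Cl Γ T) (v : RA Γ) : ∀ t ∈ T, ¬φ (nf φ v T) t := by
  refine hφ.ind hT (P := fun v => ∀ t ∈ T, ¬φ (nf φ v T) t) (fun v h => ?_) (fun v s hs h => ?_) v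
  · rw [(nf_base h).1]; exact h
  · rwa [(nf_flip hφ hT hs v).1] at h

lemma anti_nf {A : Type} [AddCommGroup A] (hφ : Flip φ) (hT : Cl Γ T) {K : RA Γ → A}
    (hK : ∀ v, ∀ s ∈ T, K (v * gn Γ s) = -K v) (v : RA Γ) : K v = sg φ v T • K (nf φ v T) := by
  refine hφ.ind hT (P := fun v => K v = sg φ v T • K (nf φ v T)) (fun v h => ?_)
    (fun v s hs h => ?_) v
  · rw [(nf_base h).1, (nf_base h).2, one_smul]
  · rw [(nf_flip hφ hT hs v).1, (nf_flip hφ hT hs v).2, hK v s hs, neg_smul, neg_inj] at h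
    exact h

lemma flip_par : Flip (Γ := Γ) fun v s => par Γ v s ≠ 0 where
  self v s := by
    rw [par_mul, par_gn, Pi.add_apply, Pi.single_eq_same]
    generalize par Γ v s = a
    revert a; decide
  adj v s t h := by
    rw [par_mul, par_gn, Pi.add_apply, Pi.single_eq_of_ne h.ne', add_zero]

lemma flip_dn : Flip (Γ := Γ) fun v s => ¬Dn Γ v s where
  self v s := by rw [Dn_mul_self]
  adj v s t h := by rw [Dn_mul_adj v h]

variable [LinearOrder S]

lemma sgn_sq (s : S) (T : Finset S) : sgn s T * sgn s T = 1 := by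
  unfold sgn; rw [← mul_pow]; simp

lemma sgn_erase {t : S} (ht : t ∈ T) (s : S) :
    sgn s T = (if t < s then -1 else 1) * sgn s (T.erase t) := by
  unfold sgn
  rw [Finset.filter_erase]
  split_ifs with h
  · rw [← Finset.card_erase_add_one (Finset.mem_filter.2 ⟨ht, h⟩ : t ∈ T.filter (· < s)), pow_succ]
    ring
  · rw [Finset.erase_eq_of_notMem (by simp [h]), one_mul]

lemma sgn_anti {t : S} (hs : s ∈ T) (ht : t ∈ T) (h : s ≠ t) :
    sgn s T * sgn t (T.erase s) = -(sgn t T * sgn s (T.erase t)) := by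
  rw [sgn_erase ht s, sgn_erase hs t]
  rcases lt_or_gt_of_ne h with h | h
  · simp [h, h.not_gt, mul_comm]
  · simp [h, h.not_gt, mul_comm]

end NEx

end

end Pool.Agent.Lib.MP_b65ff2_gt
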