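import Pool.Agent.Lib.MP_b65ff2_gt.NExA

namespace Pool.Agent.Lib.MP_b65ff2_gt

open Matrix

set_option linter.unusedSectionVars false

noncomputable section

namespace NEx

variable {S : Type} [Fintype S] [DecidableEq S] {Γ : SimpleGraph S}

abbrev MM (Γ : SimpleGraph S) : Type := Iota Γ → MonoidAlgebra ℤ (GG Γ)

abbrev Ch (Γ : SimpleGraph S) (n : ℕ) : Submodule ℤ (MM Γ) := chains _ (degI Γ) n

def gen (g : GG Γ) (i : Iota Γ) : MM Γ := Pi.single i (MonoidAlgebra.single g 1)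

lemma gen_apply (g : GG Γ) (i j : Iota Γ) [Decidable (j.1 = i.1)] :
    gen g i j = if j.1 = i.1 then MonoidAlgebra.single g 1 else 0 := by
  unfold gen
  split_ifs with h
  · rw [(Subtype.ext h : j = i), Pi.single_eq_same]
  · have : j ≠ i := fun e => h (e ▸ rfl)
    exact Pi.single_eq_of_ne this _

def bas (Γ : SimpleGraph S) : Module.Basis (Σ _ : Iota Γ, GG Γ) ℤ (MM Γ) :=
  Pi.basis fun _ => MonoidAlgebra.basis (GG Γ) ℤ

lemma bas_apply (x : Σ _ : Iota Γ, GG Γ) : bas Γ x = gen x.2 x.1 := by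
  simp [bas, gen, MonoidAlgebra.basis]

def toG (w : RA Γ) : GG Γ := ⟨w * (sec Γ (par Γ w))⁻¹, by
  have := par_sec Γ (par Γ w)
  simp_all [mem_GG, par]⟩

open Classical in
def ec (w : RA Γ) (T : Finset S) : MM Γ :=
  if h : Cl Γ T ∧ ∀ s ∈ T, par Γ w s = 0 then gen (toG w) ⟨(par Γ w, T), h⟩ else 0

abbrev php (Γ : SimpleGraph S) : RA Γ → S → Prop := fun v s => par Γ v s ≠ 0

/-- The oriented cube of type `T` at the vertex `v`. -/
def cc (v : RA Γ) (T : Finset S) : MM Γ := sg (php Γ) v T • ec (nf (php Γ) v T) T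

variable {T : Finset S} {v : RA Γ} {s : S}

lemma cc_flip (hT : Cl Γ T) (v : RA Γ) (hs : s ∈ T) : cc (v * gn Γ s) T = -cc v T := by
  unfold cc
  rw [(nf_flip flip_par hT hs v).1, (nf_flip flip_par hT hs v).2, neg_smul]

lemma cc_base (hT : Cl Γ T) (h : ∀ s ∈ T, par Γ v s = 0) :
    cc v T = gen (toG v) ⟨(par Γ v, T), hT, h⟩ := by
  have h' : ∀ t ∈ T, ¬php Γ v t := fun t ht => not_not.2 (h t ht)
  unfold cc
  rw [(nf_base h').1, (nf_base h').2, one_smul, ec, dif_pos ⟨hT, h⟩]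

lemma par_G (g : GG Γ) (p : S → ZMod 2) : par Γ (g.1 * sec Γ p) = p := by
  rw [par_mul, (mem_GG Γ).1 g.2, par_sec, zero_add]

lemma gen_eq (g : GG Γ) (i : Iota Γ) : gen g i = cc (g.1 * sec Γ i.1.1) i.1.2 := by
  rw [cc_base i.2.1 fun s hs => by rw [par_G]; exact i.2.2 s hs]
  congr 1
  · apply Subtype.ext
    simp only [toG, par_G]
    simp
  · apply Subtype.ext
    simp only [par_G]

lemma gen_mem (g : GG Γ) (i : Iota Γ) : gen g i ∈ Ch Γ (degI Γ i) := by
  intro j hj
  have : j ≠ i := fun e => hj (e ▸ rfl)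
  simp [gen, Pi.single_eq_of_ne this]

lemma cc_mem (hT : Cl Γ T) (v : RA Γ) : cc v T ∈ Ch Γ T.card := by
  refine flip_par.ind hT (P := fun v => cc v T ∈ Ch Γ T.card) (fun v h => ?_)
    (fun v s hs h => ?_) v
  · rw [cc_base hT fun s hs => not_not.1 (h s hs)]
    exact gen_mem (toG v) ⟨(par Γ v, T), hT, fun s hs => not_not.1 (h s hs)⟩
  · rw [cc_flip hT v hs] at h
    exact neg_mem_iff.1 h

lemma chains_ind {n : ℕ} {N : Submodule ℤ (MM Γ)}
    (h : ∀ v T, Cl Γ T → T.card = n → cc v T ∈ N) : Ch Γ n ≤ N := by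
  intro x hx
  rw [← Finset.univ_sum_single x]
  refine N.sum_mem fun i _ => ?_
  by_cases e : degI Γ i = n
  · generalize x i = a
    induction a using MonoidAlgebra.induction_linear with
    | zero => simp
    | add a b ha hb => rw [Pi.single_add]; exact N.add_mem ha hb
    | single g r =>
      have : (Pi.single i (MonoidAlgebra.single g r) : MM Γ) = r • gen g i := by
        rw [gen, ← Pi.single_smul, MonoidAlgebra.smul_single]; simp
      rw [this, gen_eq]
      exact N.smul_mem _ (h _ _ i.2.1 e)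
  · have : x i = 0 := hx i e
    simp [this]

lemma exists_lin {A : Type} [AddCommGroup A] (K : RA Γ → Finset S → A)
    (hK : ∀ T, Cl Γ T → ∀ v, ∀ s ∈ T, K (v * gn Γ s) T = -K v T) :
    ∃ h : MM Γ →ₗ[ℤ] A, ∀ T, Cl Γ T → ∀ v, h (cc v T) = K v T := by
  refine ⟨(bas Γ).constr ℤ fun x => K (x.2.1 * sec Γ x.1.1.1) x.1.1.2, fun T hT v => ?_⟩
  refine flip_par.ind hT (P := fun v => (bas Γ).constr ℤ
    (fun x => K (x.2.1 * sec Γ x.1.1.1) x.1.1.2) (cc v T) = K v T) (fun v h => ?_)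
    (fun v s hs h => ?_) v
  · rw [cc_base hT fun s hs => not_not.1 (h s hs)]
    have := bas_apply (Γ := Γ) ⟨⟨(par Γ v, T), hT, fun s hs => not_not.1 (h s hs)⟩, toG v⟩
    rw [← this, Module.Basis.constr_basis]
    simp [toG]
  · rw [cc_flip hT v hs, map_neg, hK T hT v s hs, neg_inj] at h
    exact h

variable [LinearOrder S]

lemma bd_gen (g : GG Γ) (i j : Iota Γ) :
    bdry (dG Γ) (gen g i) j = MonoidAlgebra.single g 1 * dG Γ i j := by
  simp [bdry, gen, single_vecMul]

lemma bd_base (hT : Cl Γ T) (h : ∀ s ∈ T, par Γ v s = 0) :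
    bdry (dG Γ) (cc v T) = ∑ s ∈ T, sgn s T • (cc (v * gn Γ s) (T.erase s) - cc v (T.erase s)) := by
  funext j
  rw [cc_base hT h, bd_gen, Finset.sum_apply]
  simp only [dG, of_apply, Finset.mul_sum]
  refine Finset.sum_congr rfl fun s hs => ?_
  have hT' : Cl Γ (T.erase s) := hT.mono (Finset.erase_subset _ _)
  have e : par Γ (v * gn Γ s) = par Γ v + Pi.single s 1 := by rw [par_mul, par_gn]
  rw [cc_base hT' fun t ht => h t (Finset.mem_of_mem_erase ht),
    cc_base (v := v * gn Γ s) hT' fun t ht => by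
      rw [e, Pi.add_apply, h t (Finset.mem_of_mem_erase ht),
        Pi.single_eq_of_ne (Finset.ne_of_mem_erase ht), add_zero]]
  rw [mul_smul_comm, Pi.smul_apply, Pi.sub_apply, mul_sub]
  congr 2
  · simp only [gen_apply, e]
    split_ifs
    · rw [MonoidAlgebra.single_mul_single, one_mul]
      congr 1
      apply Subtype.ext
      simp [toG, gam, e, mul_assoc]
    · simp
  · simp only [gen_apply]
    split_ifs <;> simp

lemma bd_cc (hT : Cl Γ T) (v : RA Γ) :
    bdry (dG Γ) (cc v T) = ∑ s ∈ T, sgn s T • (cc (v * gn Γ s) (T.erase s) - cc v (T.erase s)) := by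
  refine flip_par.ind hT (P := fun v => bdry (dG Γ) (cc v T) =
    ∑ s ∈ T, sgn s T • (cc (v * gn Γ s) (T.erase s) - cc v (T.erase s))) (fun v h => ?_)
    (fun v t ht h => ?_) v
  · exact bd_base hT fun s hs => not_not.1 (h s hs)
  · rw [cc_flip hT v ht, map_neg, neg_eq_iff_eq_neg] at h
    rw [h, ← Finset.sum_neg_distrib]
    refine Finset.sum_congr rfl fun s hs => ?_
    rw [← smul_neg]
    congr 1
    by_cases e : s = t
    · subst e; rw [mul_gn_gn, neg_sub]
    · have hT' : Cl Γ (T.erase s) := hT.mono (Finset.erase_subset _ _)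
      have ht' : t ∈ T.erase s := Finset.mem_erase.2 ⟨Ne.symm e, ht⟩
      rw [mul_assoc, ← gn_cm Γ (hT hs ht e), ← mul_assoc, cc_flip hT' _ ht', cc_flip hT' _ ht']
      abel

lemma bd_bd (hT : Cl Γ T) (v : RA Γ) : bdry (dG Γ) (bdry (dG Γ) (cc v T)) = 0 := by
  let f : S × S → MM Γ := fun x => (sgn x.1 T * sgn x.2 (T.erase x.1)) •
    (cc (v * gn Γ x.1 * gn Γ x.2) ((T.erase x.1).erase x.2) -
      cc (v * gn Γ x.1) ((T.erase x.1).erase x.2) -
      (cc (v * gn Γ x.2) ((T.erase x.1).erase x.2) - cc v ((T.erase x.1).erase x.2)))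
  have h1 : bdry (dG Γ) (bdry (dG Γ) (cc v T)) = ∑ x ∈ T.offDiag, f x := by
    rw [bd_cc hT, map_sum, Finset.sum_finset_product' (r := T.offDiag) T (fun s => T.erase s)
      (f := fun a b => f (a, b)) (fun p => by
        simp only [Finset.mem_offDiag, Finset.mem_erase]; tauto)]
    refine Finset.sum_congr rfl fun s _ => ?_
    have hT' : Cl Γ (T.erase s) := hT.mono (Finset.erase_subset _ _)
    rw [map_smul, map_sub, bd_cc hT', bd_cc hT', ← Finset.sum_sub_distrib, Finset.smul_sum]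
    refine Finset.sum_congr rfl fun t _ => ?_
    rw [← smul_sub, smul_smul]
  rw [h1]
  refine Finset.sum_involution (fun x _ => x.swap) (fun x hx => ?_) (fun x hx _ e => ?_)
    (fun x hx => ?_) fun x _ => rfl
  · obtain ⟨h1, h2, h3⟩ := Finset.mem_offDiag.1 hx
    simp only [f, Prod.fst_swap, Prod.snd_swap]
    rw [sgn_anti h1 h2 h3, Finset.erase_right_comm (a := x.2), mul_assoc v (gn Γ x.2),
      ← gn_cm Γ (hT h1 h2 h3), ← mul_assoc, neg_smul, ← smul_neg, ← smul_add]
    convert smul_zero _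
    abel
  · exact (Finset.mem_offDiag.1 hx).2.2 (congrArg Prod.snd e)
  · obtain ⟨h1, h2, h3⟩ := Finset.mem_offDiag.1 hx
    exact Finset.mem_offDiag.2 ⟨h2, h1, h3.symm⟩

lemma dG_cx : IsCx (degI Γ) (dG Γ) := by
  constructor
  · intro i j h
    obtain ⟨s, hs, h⟩ := Finset.exists_ne_zero_of_sum_ne_zero h
    have : j.1.2 = i.1.2.erase s := by
      by_contra e
      apply h
      rw [if_neg fun e' => e (congrArg Prod.snd e'), if_neg fun e' => e (congrArg Prod.snd e')]
      simp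
    rw [degI, degI, this, Finset.card_erase_add_one hs]
  · ext1 i j
    have := congrFun (bd_bd i.2.1 ((1 : GG Γ).1 * sec Γ i.1.1)) j
    rw [← gen_eq] at this
    simp only [bdry, LinearMap.restrictScalars_apply, vecMulLinear_apply, vecMul_vecMul, gen,
      single_vecMul, ← MonoidAlgebra.one_def, one_smul] at this
    exact this

lemma bd_bd' (x : MM Γ) : bdry (dG Γ) (bdry (dG Γ) x) = 0 := by
  simp [bdry, vecMul_vecMul, (dG_cx (Γ := Γ)).2]

end NEx

end

end Pool.Agent.Lib.MP_b65ff2_gt
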