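import Pool.Agent.Lib.MP_b65ff2_gt.NRr

namespace Pool.Agent.Lib.MP_b65ff2_gt

open Matrix Filter Topology

set_option linter.unusedSectionVars false

noncomputable section

lemma nfil_rel {n : ℕ} {r : W} (h : r ∈ relP n) : psi n r = 1 :=
  (QuotientGroup.eq_one_iff r).2 (Subgroup.subset_normalClosure h)

lemma nfil_x (n : ℕ) : (psi n (gW vx0) * psi n (gW vx1)) ^ 2 ^ (n + 1) = 1 := by
  rw [← map_mul, ← map_pow]; exact nfil_rel (.inl rfl)

lemma nfil_y (n : ℕ) : (psi n (gW vy0) * psi n (gW vyh)) ^ (2 * 3 ^ n) = 1 := by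
  rw [← map_mul, ← map_pow]; exact nfil_rel (.inr (.inl rfl))

lemma nfil_ker {n : ℕ} {H : Type} [Group H] (φ : W →* H) (h : ∀ r ∈ relP n, φ r = 1) :
    Subgroup.normalClosure (relP n) ≤ φ.ker := Subgroup.normalClosure_le_normal h

lemma nfil_dih {H : Type} [Group H] {a b : H} (ha : a * a = 1) (hb : b * b = 1) {k : ℕ}
    (h : (a * b) ^ (2 * k) = 1) :
    (a * b) ^ k * (a * b) ^ k = 1 ∧ Commute ((a * b) ^ k) a ∧ Commute ((a * b) ^ k) b := by
  have ia : a⁻¹ = a := inv_eq_of_mul_eq_one_right ha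
  have ib : b⁻¹ = b := inv_eq_of_mul_eq_one_right hb
  have h1 : (a * b) ^ k * (a * b) ^ k = 1 := by rw [← pow_add, ← two_mul, h]
  have h2 : (b * a) ^ k = (a * b) ^ k := by
    rw [← inv_eq_of_mul_eq_one_right h1, ← inv_pow, _root_.mul_inv_rev, ia, ib]
  have h3 : SemiconjBy a (b * a) (a * b) := (mul_assoc _ _ _).symm
  have h4 : SemiconjBy b (a * b) (b * a) := (mul_assoc _ _ _).symm
  refine ⟨h1, ?_, ?_⟩
  · have := (h3.pow_right k).eq
    rw [h2] at this
    exact this.symm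
  · have := (h4.pow_right k).eq
    rw [h2] at this
    exact this.symm

lemma nfil_adjz : ∀ t, L11.Adj vz t → t = vx0 ∨ t = vx1 ∨ t = vy0 ∨ t = vyh := by decide

theorem fil_lift (n : ℕ) {H : Type} [Group H] (f : V → H) (sq : ∀ s, s ≠ vz → f s * f s = 1)
    (cm : ∀ s t, s ≠ vz → t ≠ vz → L11.Adj s t → f s * f t = f t * f s)
    (hx : (f vx0 * f vx1) ^ 2 ^ (n + 1) = 1) (hy : (f vy0 * f vyh) ^ (2 * 3 ^ n) = 1) :
    ∃ ρ : Fil n →* H, ∀ s, s ≠ vz → ρ (psi n (gW s)) = f s := by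
  obtain ⟨d1, d2, d3⟩ := nfil_dih (sq vy0 (by decide)) (sq vyh (by decide)) hy
  have hz : ∀ t, L11.Adj vz t → Commute ((f vy0 * f vyh) ^ 3 ^ n) (f t) := by
    intro t ht
    rcases nfil_adjz t ht with rfl | rfl | rfl | rfl
    · exact (Commute.mul_left (cm vy0 vx0 (by decide) (by decide) (by decide))
        (cm vyh vx0 (by decide) (by decide) (by decide))).pow_left _
    · exact (Commute.mul_left (cm vy0 vx1 (by decide) (by decide) (by decide))
        (cm vyh vx1 (by decide) (by decide) (by decide))).pow_left _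
    · exact d2
    · exact d3
  let F : V → H := fun s => if s = vz then (f vy0 * f vyh) ^ 3 ^ n else f s
  have F0 : F vz = (f vy0 * f vyh) ^ 3 ^ n := if_pos rfl
  have F1 : ∀ s, s ≠ vz → F s = f s := fun s hs => if_neg hs
  let φ : W →* H := RA.lift L11 F (fun s => by
    by_cases hs : s = vz
    · rw [hs, F0, d1]
    · rw [F1 s hs, sq s hs]) fun s t h => by
    by_cases hs : s = vz
    · subst hs
      rw [F0, F1 t h.ne']
      exact hz t h
    by_cases ht : t = vz
    · subst ht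
      rw [F0, F1 s hs]
      exact (hz s h.symm).symm
    · rw [F1 s hs, F1 t ht, cm s t hs ht h]
  have hφ : ∀ s, φ (gW s) = F s := fun s => RA.lift_gn ..
  refine ⟨QuotientGroup.lift _ φ (nfil_ker φ ?_), fun s hs => (hφ s).trans (F1 s hs)⟩
  rintro r (rfl | rfl | rfl)
  · rw [map_pow, map_mul, hφ, hφ, F1 _ (by decide), F1 _ (by decide), hx]
  · rw [map_pow, map_mul, hφ, hφ, F1 _ (by decide), F1 _ (by decide), hy]
  · rw [map_mul, map_inv, map_pow, map_mul, hφ, hφ, hφ, F0, F1 _ (by decide), F1 _ (by decide),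
      mul_inv_cancel]

theorem psi_z (n : ℕ) : psi n (gW vz) = psi n ((gW vy0 * gW vyh) ^ 3 ^ n) := by
  rw [← mul_inv_eq_one, ← map_inv, ← map_mul]
  exact nfil_rel (.inr (.inr rfl))

lemma nfil_sq (n : ℕ) (s : V) : psi n (gW s) * psi n (gW s) = 1 := by
  rw [← map_mul, gn_sq, map_one]

theorem gP_sq (n : ℕ) (s : {s : V // s ≠ vz}) : gP n s * gP n s = 1 := nfil_sq n s

theorem gP_gen (n : ℕ) : Subgroup.closure (Set.range (gP n)) = ⊤ := by
  rw [eq_top_iff]
  rintro h -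
  obtain ⟨w, rfl⟩ : ∃ w, psi n w = h := QuotientGroup.mk'_surjective _ h
  have hs : ∀ s, s ≠ vz → psi n (gW s) ∈ Subgroup.closure (Set.range (gP n)) := fun s hs =>
    Subgroup.subset_closure ⟨⟨s, hs⟩, rfl⟩
  induction w using RA.ind with
  | h1 => rw [map_one]; exact one_mem _
  | hs w s ih =>
    rw [map_mul]
    refine mul_mem ih ?_
    by_cases h : s = vz
    · subst h
      rw [psi_z, map_pow, map_mul]
      exact pow_mem (mul_mem (hs _ (by decide)) (hs _ (by decide))) _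
    · exact hs s h

/-- The twisted right translation action. -/
def nfil_tr {Q A : Type} [Group Q] [AddCommGroup A] (y : Q → A) : Q →* Equiv.Perm (Q × A) :=
  MonoidHom.mk' (fun g =>
    { toFun := fun p => (p.1 * g⁻¹, p.2 + (y p.1 - y (p.1 * g⁻¹)))
      invFun := fun p => (p.1 * g, p.2 + (y p.1 - y (p.1 * g)))
      left_inv := fun p => by simp [add_assoc]
      right_inv := fun p => by simp [add_assoc] }) fun a b => Equiv.ext fun p => by
    simp [mul_assoc, add_assoc]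

lemma nfil_tr_apply {Q A : Type} [Group Q] [AddCommGroup A] (y : Q → A) (g : Q) (p : Q × A) :
    nfil_tr y g p = (p.1 * g⁻¹, p.2 + (y p.1 - y (p.1 * g⁻¹))) := rfl

theorem kap (n : ℕ) {Q A : Type} [Group Q] [AddCommGroup A] (ρ : Fil n →* Q) (c : Q → V → A)
    (h1 : ∀ q s, s ≠ vz → c q s + c (q * ρ (psi n (gW s))) s = 0)
    (h2 : ∀ q s t, s ≠ vz → t ≠ vz → L11.Adj s t →
      c q s + c (q * ρ (psi n (gW s))) t = c q t + c (q * ρ (psi n (gW t))) s)
    (y : Q → A) (h3 : ∀ q, ∀ t ∈ XY, c q t = y q - y (q * ρ (psi n (gW t)))) :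
    ∃ κ : Fil n → A, κ 1 = 0 ∧ ∀ h (s : {s : V // s ≠ vz}), κ (h * gP n s) = κ h + c (ρ h) s := by
  have sq : ∀ s, ρ (psi n (gW s)) * ρ (psi n (gW s)) = 1 := fun s => by
    rw [← map_mul, nfil_sq, map_one]
  have inv : ∀ s, s ≠ vz → Function.Involutive
      fun p : Q × A => (p.1 * ρ (psi n (gW s)), p.2 + c p.1 s) := fun s hs p => by
    simp only [mul_assoc, sq, mul_one, add_assoc, h1 _ _ hs, add_zero]
  let σ : V → Equiv.Perm (Q × A) := fun s => if hs : s = vz then 1 else (inv s hs).toPerm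
  have hσ : ∀ s, s ≠ vz → ∀ p, σ s p = (p.1 * ρ (psi n (gW s)), p.2 + c p.1 s) :=
    fun s hs p => by simp only [σ, dif_neg hs]; rfl
  have hxy : ∀ t ∈ XY, t ≠ vz → σ t = nfil_tr y (ρ (psi n (gW t))) := fun t ht hz =>
    Equiv.ext fun p => by
      rw [hσ t hz, nfil_tr_apply, inv_eq_of_mul_eq_one_right (sq t), h3 _ t ht]
  obtain ⟨S, hS⟩ := fil_lift n σ
    (fun s hs => Equiv.ext fun p => by
      rw [Equiv.Perm.mul_apply, hσ s hs, hσ s hs]; exact inv s hs p)
    (fun s t hs ht h => Equiv.ext fun p => by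
      simp only [Equiv.Perm.mul_apply, hσ s hs, hσ t ht, mul_assoc, add_assoc, h2 _ s t hs ht h,
        ← map_mul, gn_cm L11 h])
    (by rw [hxy _ (by decide) (by decide), hxy _ (by decide) (by decide), ← map_mul, ← map_mul,
      ← map_pow, ← map_pow, nfil_x, map_one, map_one])
    (by rw [hxy _ (by decide) (by decide), hxy _ (by decide) (by decide), ← map_mul, ← map_mul,
      ← map_pow, ← map_pow, nfil_y, map_one, map_one])
  have step : ∀ h (s : {s : V // s ≠ vz}), S (h * gP n s)⁻¹ (1, 0) = σ s (S h⁻¹ (1, 0)) :=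
    fun h s => by
      rw [_root_.mul_inv_rev, inv_eq_of_mul_eq_one_right (gP_sq n s), map_mul, Equiv.Perm.mul_apply,
        gP, hS _ s.2]
  have fst : ∀ h, (S h⁻¹ (1, 0)).1 = ρ h := fun h =>
    ind_right (P := fun h => (S h⁻¹ (1, 0)).1 = ρ h) (gP_sq n) (by simp)
      (fun w s ih => by rw [step, hσ _ s.2, ih, map_mul, gP]) (gP_gen n ▸ Subgroup.mem_top h)
  exact ⟨fun h => (S h⁻¹ (1, 0)).2, by simp, fun h s => by simp only [step, hσ _ s.2, fst]⟩

theorem psi_nested {n m : ℕ} (h : n ≤ m) {g : W} (hg : psi m g = 1) : psi n g = 1 := by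
  obtain ⟨k, rfl⟩ := Nat.exists_eq_add_of_le h
  refine nfil_ker (n := n + k) (psi n) ?_ ((QuotientGroup.eq_one_iff g).1 hg)
  rintro r (rfl | rfl | rfl)
  · rw [map_pow, map_mul, show 2 ^ (n + k + 1) = 2 ^ (n + 1) * 2 ^ k by ring, pow_mul, nfil_x,
      one_pow]
  · rw [map_pow, map_mul, show 2 * 3 ^ (n + k) = 2 * 3 ^ n * 3 ^ k by ring, pow_mul, nfil_y,
      one_pow]
  · obtain ⟨j, hj⟩ : Odd (3 ^ k) := Odd.pow (by decide)
    rw [map_mul, map_inv, psi_z, map_pow, map_pow, map_mul, mul_inv_eq_one,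
      show 3 ^ (n + k) = 2 * 3 ^ n * j + 3 ^ n by rw [pow_add, hj]; ring, pow_add, pow_mul,
      nfil_y, one_pow, one_mul]

theorem psi_par {n : ℕ} {g : W} (hg : psi n g = 1) (hz : par L11 g vz = 0) : par L11 g = 0 := by
  have two : ∀ a : V → ZMod 2, a + a = 0 := fun a => funext fun s => CharTwo.add_self_eq_zero _
  have ev : ∀ (a : V → ZMod 2) (k : ℕ), Multiplicative.ofAdd a ^ (2 * k) = 1 := fun a k => by
    rw [pow_mul, pow_two, ← ofAdd_add, two, ofAdd_zero, one_pow]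
  obtain ⟨ρ, hρ⟩ := fil_lift n (H := Multiplicative (V → ZMod 2))
    (fun s => .ofAdd (Pi.single s 1)) (fun s _ => by rw [← ofAdd_add, two, ofAdd_zero])
    (fun _ _ _ _ _ => mul_comm _ _) (by rw [← ofAdd_add, pow_succ', ev]) (by rw [← ofAdd_add, ev])
  have key : ∀ w, (ρ (psi n w)).toAdd = par L11 w +
      par L11 w vz • (Pi.single vz 1 + (Pi.single vy0 1 + Pi.single vyh 1)) := fun w => by
    induction w using RA.ind with
    | h1 => simp [par]
    | hs w s ih =>
      rw [map_mul, map_mul, toAdd_mul, ih, par_mul, par_gn, Pi.add_apply, add_smul, add_add_add_comm,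
        add_right_inj]
      by_cases h : s = vz
      · subst h
        obtain ⟨j, hj⟩ : Odd (3 ^ n) := Odd.pow (by decide)
        rw [psi_z, map_pow, map_pow, map_mul, map_mul, hρ _ (by decide), hρ _ (by decide),
          ← ofAdd_add, hj, pow_succ, ev, one_mul, toAdd_ofAdd, Pi.single_eq_same, one_smul,
          ← add_assoc, two, zero_add]
      · rw [hρ s h, toAdd_ofAdd, Pi.single_eq_of_ne' h, zero_smul, add_zero]
  simpa [hg, hz] using (key g).symm

lemma nfil_rev {H : Type} [Group H] {a b : H} (ha : a * a = 1) (hb : b * b = 1) {k : ℕ}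
    (h : (a * b) ^ k = 1) (j : ℤ) : (b * a) ^ ((k : ℤ) * j) = 1 := by
  have : b * a = (a * b)⁻¹ := by
    rw [_root_.mul_inv_rev, inv_eq_of_mul_eq_one_right ha, inv_eq_of_mul_eq_one_right hb]
  rw [this, _root_.zpow_mul, zpow_natCast, inv_pow, h, inv_one, _root_.one_zpow]

theorem psi_dd {n : ℕ} {u v u' v' : ℤ} (hu : u ≡ u' [ZMOD 2 * 2 ^ (n + 1)])
    (hv : v ≡ v' [ZMOD 4 * 3 ^ n]) : psi n (dd u v) = psi n (dd u' v') := by
  obtain ⟨a, ha⟩ := hu.dvd
  obtain ⟨b, hb⟩ := hv.dvd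
  rw [show u' = 2 * ((2 ^ (n + 1) : ℕ) * a) + u by push_cast; linarith,
    show v' = 2 * ((2 * 3 ^ n : ℕ) * b) + v by push_cast; linarith, dd_add, dd_even]
  simp only [map_mul, map_zpow]
  rw [nfil_rev (nfil_sq n _) (nfil_sq n _) (nfil_x n), nfil_rev (nfil_sq n _) (nfil_sq n _) (nfil_y n),
    one_mul, one_mul]

theorem psi_rr {n : ℕ} {P R : ℤ × ℤ} (h : prj n P = prj n R) : psi n (rr P) = psi n (rr R) := by
  obtain ⟨h1, h2⟩ := Prod.mk.inj h
  rw [ZMod.intCast_eq_intCast_iff] at h1 h2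
  obtain ⟨a, ha⟩ := h1.dvd
  obtain ⟨b, hb⟩ := h2.dvd
  push_cast at ha hb h2
  rw [mul_assoc] at ha hb
  have e : typ P = typ R := by
    rw [typ, typ, show P.1 % 4 = R.1 % 4 by omega, show P.2 % 2 = R.2 % 2 by omega]
  have e' : psi n (dd (P.1 / 2) P.2) = psi n (dd (R.1 / 2) R.2) :=
    psi_dd (Int.modEq_iff_dvd.2 ⟨a, by rw [mul_assoc]; omega⟩) h2
  simp only [rr, map_mul, map_inv, e, e']

theorem xy_short (n : ℕ) : ∃ L : ℕ, ∀ d ∈ Subgroup.closure (gW '' (XY : Set V)),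
    ∃ l : List V, l.length ≤ L ∧ (∀ t ∈ l, t ∈ XY) ∧ psi n (wd L11 l) = psi n d := by
  have w : ∀ p : ℤ × ℤ, ∃ l : List V, (∀ t ∈ l, t ∈ XY) ∧ wd L11 l = dd p.1 p.2 := fun p => by
    have : dd p.1 p.2 ∈ Subgroup.closure (Set.range fun t : XY => gW t) := by
      rw [show (Set.range fun t : XY => gW t) = gW '' (XY : Set V) from
        (Set.image_eq_range gW (XY : Set V)).symm]
      exact mem_dd.2 ⟨_, _, rfl⟩
    refine ind_right (P := fun d => ∃ l : List V, (∀ t ∈ l, t ∈ XY) ∧ wd L11 l = d)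
      (fun t => gn_sq L11 _) ⟨[], by simp, rfl⟩ ?_ this
    rintro _ t ⟨l, hl, rfl⟩
    refine ⟨l ++ [t.1], fun s hs => ?_, by simp [wd]⟩
    rcases List.mem_append.1 hs with hs | hs
    · exact hl s hs
    · rw [List.mem_singleton.1 hs]; exact t.2
  choose l hl using w
  refine ⟨(Finset.Ico 0 (2 * 2 ^ (n + 1)) ×ˢ Finset.Ico 0 (4 * 3 ^ n)).sup fun p => (l p).length,
    fun d hd => ?_⟩
  obtain ⟨u, v, rfl⟩ := mem_dd.1 hd
  refine ⟨l (u % (2 * 2 ^ (n + 1)), v % (4 * 3 ^ n)), Finset.le_sup (f := fun p => (l p).length) ?_,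
    (hl _).1, by rw [(hl _).2]; exact psi_dd (Int.mod_modEq _ _) (Int.mod_modEq _ _)⟩
  simp only [Finset.mem_product, Finset.mem_Ico]
  exact ⟨⟨Int.emod_nonneg _ (by positivity), Int.emod_lt_of_pos _ (by positivity)⟩,
    Int.emod_nonneg _ (by positivity), Int.emod_lt_of_pos _ (by positivity)⟩

/-- The mirrors of the torus. -/
def nfil_mir (n : ℕ) (t : V) : Equiv.Perm (Tor n) :=
  Function.Involutive.toPerm (fun P => if t = vx0 then (-P.1, P.2) else if t = vx1 then
    (4 - P.1, P.2) else if t = vy0 then (P.1, -P.2) else if t = vyh then (P.1, 2 - P.2) else P)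
    fun P => by split_ifs <;> simp

lemma nfil_mir_apply (n : ℕ) (t : V) (P : Tor n) : nfil_mir n t P =
    if t = vx0 then (-P.1, P.2) else if t = vx1 then (4 - P.1, P.2) else if t = vy0 then
      (P.1, -P.2) else if t = vyh then (P.1, 2 - P.2) else P := rfl

lemma nfil_mir_prj (n : ℕ) (t : V) (P : ℤ × ℤ) : nfil_mir n t (prj n P) = prj n (mir t P) := by
  rw [nfil_mir_apply, mir]
  split_ifs <;> simp [prj]

theorem exists_delta (n : ℕ) : ∃ δ : Fil n →* Equiv.Perm (Tor n),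
    (∀ s ∈ Six, δ (psi n (gW s)) = 1) ∧
    (∀ t ∈ XY, ∀ P, δ (psi n (gW t)) (prj n P) = prj n (mir t P)) ∧
    ∀ u v, ∀ s ∈ Six, δ (psi n (dd u v)) (prj n (base s)) = prj n (pos u v s) := by
  have one : ∀ s, s ∉ XY → nfil_mir n s = 1 := fun s hs => Equiv.ext fun P => by
    simp only [XY, Finset.mem_insert, Finset.mem_singleton, not_or] at hs
    simp [nfil_mir_apply, hs]
  have adj : ∀ s t, L11.Adj s t → s ∉ XY ∨ t ∉ XY ∨
      ((s = vx0 ∨ s = vx1) ∧ (t = vy0 ∨ t = vyh)) ∨ ((t = vx0 ∨ t = vx1) ∧ (s = vy0 ∨ s = vyh)) := by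
    decide
  have x01 : nfil_mir n vx0 * nfil_mir n vx1 = Equiv.addLeft (-4, 0) := Equiv.ext fun P => by
    simp +decide [nfil_mir_apply, Prod.ext_iff, neg_add_eq_sub]
  have x10 : nfil_mir n vx1 * nfil_mir n vx0 = Equiv.addLeft (4, 0) := Equiv.ext fun P => by
    simp +decide [nfil_mir_apply, Prod.ext_iff]
  have y01 : nfil_mir n vy0 * nfil_mir n vyh = Equiv.addLeft (0, -2) := Equiv.ext fun P => by
    simp +decide [nfil_mir_apply, Prod.ext_iff, neg_add_eq_sub]
  have y10 : nfil_mir n vyh * nfil_mir n vy0 = Equiv.addLeft (0, 2) := Equiv.ext fun P => by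
    simp +decide [nfil_mir_apply, Prod.ext_iff]
  obtain ⟨δ, hδ⟩ := fil_lift n (nfil_mir n) (fun s _ => Equiv.ext (nfil_mir n s).left_inv)
    (fun s t _ _ h => by
      rcases adj s t h with h | h | ⟨rfl | rfl, rfl | rfl⟩ | ⟨rfl | rfl, rfl | rfl⟩
      · rw [one s h, one_mul, mul_one]
      · rw [one t h, one_mul, mul_one]
      all_goals exact Equiv.ext fun P => by simp +decide [nfil_mir_apply])
    (by
      have := ZMod.natCast_self (4 * 2 ^ (n + 1))
      rw [x01, Equiv.nsmul_addLeft, ← Equiv.addLeft_zero]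
      congr 1
      push_cast at this
      simp only [Prod.smul_mk, smul_zero, nsmul_eq_mul, Prod.mk_eq_zero, and_true]
      push_cast
      linear_combination -this)
    (by
      have := ZMod.natCast_self (4 * 3 ^ n)
      rw [y01, Equiv.nsmul_addLeft, ← Equiv.addLeft_zero]
      congr 1
      push_cast at this
      simp only [Prod.smul_mk, smul_zero, nsmul_eq_mul, Prod.mk_eq_zero, true_and]
      push_cast
      linear_combination -this)
  have nz : ∀ s, s ∈ XY ∨ s ∈ Six → s ≠ vz := by decide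
  have ds : ∀ s ∈ Six, s ∉ XY := by decide
  refine ⟨δ, fun s hs => by rw [hδ s (nz s (.inr hs)), one s (ds s hs)],
    fun t ht P => by rw [hδ t (nz t (.inl ht)), nfil_mir_prj], fun u v s _ => ?_⟩
  have hx : ∀ P : ℤ × ℤ, δ (psi n (xw u)) (prj n P) =
      prj n (2 * u + if u % 2 = 0 then P.1 else 2 - P.1, P.2) := fun P => by
    have e : ∀ R : ℤ × ℤ, δ (psi n ((gW vx1 * gW vx0) ^ (u / 2))) (prj n R) =
        prj n (4 * (u / 2) + R.1, R.2) := fun R => by
      rw [map_zpow, map_zpow, map_mul, map_mul, hδ _ (by decide), hδ _ (by decide), x10,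
        Equiv.zsmul_addLeft]
      simp [prj, mul_comm]
    rw [xw, map_mul, map_mul, Equiv.Perm.mul_apply]
    split_ifs with h
    · rw [map_one, map_one, Equiv.Perm.one_apply, e, show 4 * (u / 2) = 2 * u by omega]
    · rw [hδ _ (by decide), nfil_mir_prj, e]
      simp +decide only [mir, if_true, if_false]
      rw [show 4 * (u / 2) + (4 - P.1) = 2 * u + (2 - P.1) by omega]
  have hy : ∀ P : ℤ × ℤ, δ (psi n (yw v)) (prj n P) =
      prj n (P.1, v + if v % 2 = 0 then P.2 else 1 - P.2) := fun P => by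
    have e : ∀ R : ℤ × ℤ, δ (psi n ((gW vyh * gW vy0) ^ (v / 2))) (prj n R) =
        prj n (R.1, 2 * (v / 2) + R.2) := fun R => by
      rw [map_zpow, map_zpow, map_mul, map_mul, hδ _ (by decide), hδ _ (by decide), y10,
        Equiv.zsmul_addLeft]
      simp [prj, mul_comm]
    rw [yw, map_mul, map_mul, Equiv.Perm.mul_apply]
    split_ifs with h
    · rw [map_one, map_one, Equiv.Perm.one_apply, e, show 2 * (v / 2) = v by omega]
    · rw [hδ _ (by decide), nfil_mir_prj, e]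
      simp +decide only [mir, if_true, if_false]
      rw [show 2 * (v / 2) + (2 - P.2) = v + (1 - P.2) by omega]
  rw [dd, map_mul, map_mul, Equiv.Perm.mul_apply, hy, hx, pos]

end

end Pool.Agent.Lib.MP_b65ff2_gt
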