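import Pool.Agent.Lib.MP_b65ff2_gt.NCyc
import Pool.Agent.Lib.MP_b65ff2_gt.NDet2

namespace Pool.Agent.Lib.MP_b65ff2_gt

open Matrix Filter Topology

set_option linter.unusedSectionVars false

noncomputable section

lemma njt_blk {γ η : ℝ} (hγ : 0 < γ) (hη : 0 < η) : ∃ j, ∀ (Q : Type) [Group Q] [Finite Q]
    (M : FM j Q), -(γ * Nat.card Q) ≤
        ld η ((M.toPM.dR 0)ᵀ.submatrix id (Subtype.val : {x // M.toPM.pa x} → _)) ∧
      ld η ((M.toPM.dR 0)ᵀ.submatrix id (Subtype.val : {x // M.toPM.pa x} → _)) ≤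
        (√η + γ) * Nat.card Q := by
  obtain ⟨k0, hk⟩ := PM.cyc hγ hη
  refine ⟨2 * k0, fun Q _ _ M => ?_⟩
  obtain ⟨h1, h2⟩ := hk Q M.toPM 0 ∅ vx0 vx1 (fun _ => True) M.toPM.pa (fun _ => True)
    (by decide) (by simp) (by simp) (by simp) (by simp) rfl (fun _ _ => trivial)
    (fun _ _ => trivial) (fun k h1 h2 => M.ord (by simp) h1 (by omega))
    (fun x => by simp [PM.pa]) (fun y => by simpa using y.2)
  have e : ld η ((M.toPM.dR 0)ᵀ.submatrix id (Subtype.val : {x // M.toPM.pa x} → _)) =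
      ld η (sub (M.toPM.dR 0) M.toPM.pa fun _ => True) := by
    rw [← ld_tr (sub (M.toPM.dR 0) M.toPM.pa fun _ => True) hη h1]
    exact ld_sign _ _ (Equiv.subtypeUnivEquiv fun _ => trivial).symm (Equiv.refl _) 1 1
      (by simp) (by simp) fun i j => by simp [sub]
  rwa [e]

lemma njt_sel {n : Type} (P : n → Prop) : RB (sel P) 1 := by
  classical
  refine ⟨fun i s => ?_, fun j s => ?_⟩
  · refine le_trans (Finset.sum_le_sum (g := fun j => if i.1 = j then (1 : ℝ) else 0)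
      fun j _ => ?_) ?_
    · simp only [sel, of_apply]
      split_ifs <;> simp
    · rw [Finset.sum_ite_eq]
      split_ifs <;> simp
  · by_cases h : P j
    · refine le_trans (Finset.sum_le_sum (g := fun i => if i = ⟨j, h⟩ then (1 : ℝ) else 0)
        fun i _ => ?_) ?_
      · simp only [sel, of_apply, Subtype.ext_iff]
        split_ifs <;> simp
      · rw [Finset.sum_ite_eq']
        split_ifs <;> simp
    · refine le_trans (Finset.sum_eq_zero fun i _ => ?_).le zero_le_one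
      have : i.1 ≠ j := fun e => h (e ▸ i.2)
      simp [sel, this]

lemma njt_rows {m k n : Type} {A : Matrix m n ℝ} {B : Matrix k n ℝ} {a b : ℝ} (ha : 0 ≤ a)
    (hb : 0 ≤ b) (hA : RB A a) (hB : RB B b) : RB (fromRows A B) (a + b) := by
  refine ⟨?_, fun j s => ?_⟩
  · rintro (i | i) s
    · simpa using (hA.1 i s).trans (le_add_of_nonneg_right hb)
    · simpa using (hB.1 i s).trans (le_add_of_nonneg_left ha)
  · rw [← Finset.toLeft_disjSum_toRight (u := s), Finset.sum_disjSum]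
    simpa using add_le_add (hA.2 j _) (hB.2 j _)

theorem jt_le {γ : ℝ} (hγ : 0 < γ) : ∀ᶠ δ in 𝓝[>] (0 : ℝ), ∃ j, ∀ (Q : Type) [Group Q] [Finite Q]
    (M : FM j Q), ld δ M.toPM.JT ≤ γ * Nat.card Q := by
  have hγ' : 0 < γ / 9 := by positivity
  have h0 : ∀ᶠ δ in 𝓝[>] (0 : ℝ), √(√δ) < γ / 9 := by
    have : ContinuousAt (fun δ : ℝ => √(√δ)) 0 := by fun_prop
    exact (this.eventually_lt continuousAt_const (by simpa using hγ')).filter_mono nhdsWithin_le_nhds
  filter_upwards [h0, ld_ut (2 * Fintype.card V + 1) 0 hγ', self_mem_nhdsWithin] with δ h1 h2 h3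
  have hδ : 0 < √δ := Real.sqrt_pos.2 h3
  obtain ⟨j, hj⟩ := njt_blk hγ' hδ
  refine ⟨j, fun Q _ _ M => ?_⟩
  let eL : {i : M.toPM.C 0 ⊕ {x // ¬M.toPM.pa x} // i.isLeft} ≃ M.toPM.C 0 := Equiv.sumIsLeft
  let eR : {i : M.toPM.C 0 ⊕ {x // ¬M.toPM.pa x} // ¬i.isLeft} ≃ {x // ¬M.toPM.pa x} :=
    (Equiv.subtypeEquivRight fun i => by simp).trans Equiv.sumIsRight
  have hR : ∀ i, i.1 = Sum.inr (eR i) := by
    rintro ⟨i | i, hi⟩
    · simp at hi
    · rfl
  have h4 := h2 _ _ M.toPM.JT (·.isLeft) M.toPM.pa eR (fun _ => 0)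
    (by rw [Nat.card_congr eL, M.toPM.card_C0, M.toPM.card_pa])
    (njt_rows (by positivity) zero_le_one (M.toPM.rb_dR 0).tr (njt_sel _)) (fun _ => le_rfl)
    (fun i x hi hx => by
      have : (eR ⟨i, hi⟩).1 ≠ x := fun e => (eR ⟨i, hi⟩).2 (e ▸ hx)
      rw [show i = _ from hR ⟨i, hi⟩]
      simp [PM.JT, sel, this])
    (fun i => by rw [hR i]; simp [PM.JT, sel])
    (fun i k h => .inl (eR.injective (Subtype.ext (by
      rw [hR i] at h
      simpa [PM.JT, sel] using h))))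
  have e : ld (√δ) (sub M.toPM.JT (·.isLeft) M.toPM.pa) =
      ld (√δ) ((M.toPM.dR 0)ᵀ.submatrix id (Subtype.val : {x // M.toPM.pa x} → _)) :=
    ld_sign _ _ eL (Equiv.refl _) 1 1 (by simp) (by simp) (by
      rintro ⟨i | i, hi⟩ x
      · simp [sub, PM.JT, eL]
      · simp at hi)
  have c1 : (Nat.card (M.toPM.C 0 ⊕ {x // ¬M.toPM.pa x}) : ℝ) ≤ 7 * Nat.card Q := by
    have a := M.toPM.card_C1
    have b : Nat.card {x // ¬M.toPM.pa x} ≤ Nat.card (M.toPM.C 1) :=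
      Nat.card_le_card_of_injective _ Subtype.val_injective
    rw [Nat.card_sum, M.toPM.card_C0]
    exact_mod_cast (by omega)
  have c2 := mul_le_mul_of_nonneg_left c1 hγ'.le
  have c3 := mul_le_mul_of_nonneg_right h1.le (Nat.cast_nonneg (α := ℝ) (Nat.card Q))
  have c4 := (hj Q M).2
  rw [e] at h4
  linarith

theorem d1_ge {γ ε : ℝ} (hγ : 0 < γ) (hε : 0 < ε) : ∃ j, ∀ (Q : Type) [Group Q] [Finite Q]
    (M : FM j Q), -(γ * Nat.card Q) ≤ ld ε (M.toPM.dR 0)ᵀ := by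
  obtain ⟨j, hj⟩ := njt_blk hγ hε
  exact ⟨j, fun Q _ _ M => (hj Q M).1.trans (ld_cols _ hε Subtype.val_injective)⟩

end

end Pool.Agent.Lib.MP_b65ff2_gt
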