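import Pool.Agent.Lib.MP_b65ff2_gt.NCyc
import Pool.Agent.Lib.MP_b65ff2_gt.NDet2

namespace Pool.Agent.Lib.MP_b65ff2_gt

open Matrix Filter Topology

set_option linter.unusedSectionVars false

noncomputable section

lemma nkj_blocks {m n α : Type} [Finite m] [Finite n] [Fintype α] [LinearOrder α] {ε : ℝ}
    (A : Matrix m n ℝ) (hε : 0 < ε) (a : m → α) (b : n → α) (h : ∀ i j, A i j ≠ 0 → a i = b j) :
    ld ε A = ∑ x, ld ε (sub A (a · = x) (b · = x)) := by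
  refine le_antisymm ?_ (ld_lev A hε a b (fun i j hij => (h i j hij).le) _ fun _ =>
    Finset.mem_univ _)
  refine (ld_hf_lev A hε a Finset.univ fun _ => Finset.mem_univ _).trans
    (le_of_eq (Finset.sum_congr rfl fun x _ => ?_))
  exact (ld_cols_eq (A.submatrix (Subtype.val : {i // a i = x} → m) id)
    (f := (Subtype.val : {j // b j = x} → n)) Subtype.val_injective
    fun i j hij => ⟨⟨j, (h _ _ hij).symm.trans i.2⟩, rfl⟩).symm

lemma nkj_sub_sub {m n : Type} [Finite m] [Finite n] {ε : ℝ} (A : Matrix m n ℝ)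
    (P P' : m → Prop) (R R' : n → Prop) :
    ld ε (sub (sub A P R) (fun i => P' i.1) fun j => R' j.1) =
      ld ε (sub A (fun i => P i ∧ P' i) fun j => R j ∧ R' j) :=
  ld_sign _ _ (Equiv.subtypeSubtypeEquivSubtypeInter P P')
    (Equiv.subtypeSubtypeEquivSubtypeInter R R') 1 1 (by simp) (by simp) fun i j => by
      simp [sub, Equiv.subtypeSubtypeEquivSubtypeInter]

def nkjP (T : Finset V) : Prop := vcB ∈ T ∨ vcL ∈ T ∨ vcR ∈ T

instance : DecidablePred nkjP := fun T => by unfold nkjP; infer_instance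

abbrev nkjS : Finset (Finset V) :=
  {{vcB, vw}, {vcB, vy0}, {vcL, vw}, {vcL, vx0}, {vcR, vw}, {vcR, vx1}}

abbrev nkjA : Finset (Finset V) := {{va0, vx0}, {va1, vx1}}

abbrev nkjX : Finset (Finset V) := {{vx0, vy0}, {vx0, vyh}, {vx1, vy0}, {vx1, vyh}}

def nkjV (T : Finset V) : V := if vz ∈ T then vz else vy0

def nkjL (T : Finset V) : ℕ := if vz ∈ T then 1 else 2

def nkjK (T : Finset V) : Fin 6 :=
  if vcB ∈ T then (if vw ∈ T then 0 else 1) else if vcL ∈ T then (if vw ∈ T then 2 else 3)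
  else if vw ∈ T then 4 else 5

def nkjT : Fin 6 → Finset V :=
  ![{vcB, vw}, {vcB, vy0}, {vcL, vw}, {vcL, vx0}, {vcR, vw}, {vcR, vx1}]

def nkjs : Fin 6 → V := ![va0, va0, va0, va0, va1, va1]

def nkjt : Fin 6 → V := ![va1, va1, vyh, vyh, vyh, vyh]

def nkjC : List (Finset V) := triL.map fun e => {e.1, e.2.1, e.2.2}

attribute [local instance 2000] List.decidableBAll Finset.decidableDforallFinset

lemma nkj_f1 : ∀ T ∈ nkjC, ¬nkjP T → nkjV T ∈ T ∧ T.erase (nkjV T) ∉ nkjS ∧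
    ((T.erase (nkjV T) ∈ nkjA ∧ nkjV T = vy0) ∨ (T.erase (nkjV T) ∈ nkjX ∧ nkjV T = vz)) := by
  decide +kernel

lemma nkj_f2 : ∀ T ∈ nkjC, ¬nkjP T → ∀ U ∈ nkjC, ¬nkjP U → ∀ s ∈ T,
    U.erase (nkjV U) = T.erase s → (T = U ∧ s = nkjV U) ∨ nkjL U < nkjL T := by
  decide +kernel

lemma nkj_f3 : ∀ T ∈ nkjC, ∀ s ∈ T, T.erase s ∈ nkjS → nkjP T ∧ nkjK T = nkjK (T.erase s) := by
  decide +kernel

lemma nkj_f4 : ∀ k, ∀ T ∈ nkjC, (nkjP T ∧ nkjK T = k) ↔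
    (T = insert (nkjs k) (nkjT k) ∨ T = insert (nkjt k) (nkjT k)) := by
  decide +kernel

lemma nkj_f5 : ∀ k, nkjT k ∈ nkjS ∧ nkjK (nkjT k) = k ∧ (∀ T ∈ nkjS, nkjK T = k → T = nkjT k) ∧
    nkjs k ≠ nkjt k ∧ nkjs k ∉ nkjT k ∧ nkjt k ∉ nkjT k ∧ (nkjT k).card = 2 := by
  decide +kernel

lemma nkj_f7 : ∀ k, (nkjs k, nkjt k) ∈ [(vx0, vx1), (va0, va1), (va0, vyh), (va1, vyh)] ∧
    (∀ a ∈ insert (nkjs k) (nkjT k), ∀ b ∈ insert (nkjs k) (nkjT k), a ≠ b → L11.Adj a b) ∧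
    ∀ a ∈ insert (nkjt k) (nkjT k), ∀ b ∈ insert (nkjt k) (nkjT k), a ≠ b → L11.Adj a b := by
  decide +kernel

lemma nkj_f6 : ∀ s T, (T ∈ nkjA ∧ s = vy0 ∨ T ∈ nkjX ∧ s = vz) → s ∉ T ∧ ¬nkjP (insert s T) ∧
    nkjV (insert s T) = s ∧ ∀ a ∈ insert s T, ∀ b ∈ insert s T, a ≠ b → L11.Adj a b := by
  have h1 : ∀ T ∈ nkjA, vy0 ∉ T ∧ ¬nkjP (insert vy0 T) ∧ nkjV (insert vy0 T) = vy0 ∧
      ∀ a ∈ insert vy0 T, ∀ b ∈ insert vy0 T, a ≠ b → L11.Adj a b := by decide +kernel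
  have h2 : ∀ T ∈ nkjX, vz ∉ T ∧ ¬nkjP (insert vz T) ∧ nkjV (insert vz T) = vz ∧
      ∀ a ∈ insert vz T, ∀ b ∈ insert vz T, a ≠ b → L11.Adj a b := by decide +kernel
  rintro s T (⟨h, rfl⟩ | ⟨h, rfl⟩)
  exacts [h1 T h, h2 T h]

section
variable {Q : Type} [Group Q] (M : PM L11 Q)

lemma nkj_mem (x : M.C 3) : x.1.1.2 ∈ nkjC := by
  obtain ⟨e, he, h⟩ := clique_three x.1.2.1 x.2
  exact List.mem_map.2 ⟨e, he, h.symm⟩

lemma nkj_ne {n : ℕ} {x : M.C (n + 1)} {y : M.C n} (h : M.dR n x y ≠ 0) :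
    ∃ s ∈ x.1.1.2, y.1.1.2 = x.1.1.2.erase s ∧
      (y.1.1.1 = x.1.1.1 * M.g s ∨ y.1.1.1 = x.1.1.1) := by
  have h' : M.bd x.1 y.1 ≠ 0 := fun h0 => h (by simp [PM.dR, PM.dZ, h0])
  obtain ⟨s, hs, h1⟩ := Finset.exists_ne_zero_of_sum_ne_zero h'
  refine ⟨s, hs, ?_⟩
  by_cases e1 : y.1.1 = (x.1.1.1 * M.g s, x.1.1.2.erase s)
  · rw [e1]; exact ⟨rfl, .inl rfl⟩
  by_cases e2 : y.1.1 = (x.1.1.1, x.1.1.2.erase s)
  · rw [e2]; exact ⟨rfl, .inr rfl⟩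
  simp [e1, e2] at h1

lemma nkj_sq {n : ℕ} {x : M.C (n + 1)} {y : M.C n} {s : V} (hs : s ∈ x.1.1.2)
    (h : y.1.1 = (x.1.1.1 * M.g s, x.1.1.2.erase s)) : M.dR n x y ^ 2 = 1 := by
  have e : M.bd x.1 y.1 = sgn s x.1.1.2 := by
    have ne : ∀ t ∈ x.1.1.2, t ≠ s → x.1.1.2.erase s ≠ x.1.1.2.erase t := fun t ht hts e =>
      hts ((Finset.erase_inj _ hs).1 e).symm
    have n2 : x.1.1.1 * M.g s ≠ x.1.1.1 := fun e => by
      have := M.p_mul_g x.1.1.1 s s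
      rw [e] at this
      simp at this
    unfold PM.bd
    rw [of_apply, Finset.sum_eq_single_of_mem s hs]
    · simp [h, n2]
    · intro t ht hts
      simp [h, ne t ht hts]
  have e2 : sgn s x.1.1.2 ^ 2 = 1 := by
    unfold sgn; rw [← pow_mul, mul_comm, pow_mul]; simp
  have : M.dR n x y = (sgn s x.1.1.2 : ℤ) := by simp [PM.dR, PM.dZ, e]
  rw [this]; exact_mod_cast e2

/-- The pivot square of a cube that contains no `c`. -/
def nkjPiv (x : {x : M.C 3 // ¬nkjP x.1.1.2}) : M.C 2 :=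
  ⟨⟨(x.1.1.1.1 * M.g (nkjV x.1.1.1.2), x.1.1.1.2.erase (nkjV x.1.1.1.2)),
    x.1.1.2.1.subset (by simp), fun s hs => by
      rw [M.p_mul_g, if_neg (Finset.ne_of_mem_erase hs), add_zero]
      exact x.1.1.2.2 s (Finset.mem_of_mem_erase hs)⟩, by
    rw [Finset.card_erase_of_mem (nkj_f1 _ (nkj_mem M x.1) x.2).1, x.1.2]⟩

lemma nkj_piv_p (x : {x : M.C 3 // ¬nkjP x.1.1.2}) :
    M.p (nkjPiv M x).1.1.1 (nkjV x.1.1.1.2) = 1 := by
  have := x.1.1.2.2 _ (nkj_f1 _ (nkj_mem M x.1) x.2).1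
  simp [nkjPiv, M.p_mul_g, this]

lemma nkj_piv_nS (x : {x : M.C 3 // ¬nkjP x.1.1.2}) : (nkjPiv M x).1.1.2 ∉ nkjS :=
  (nkj_f1 _ (nkj_mem M x.1) x.2).2.1

lemma nkj_piv_pb (x : {x : M.C 3 // ¬nkjP x.1.1.2}) : M.pb (nkjPiv M x) := by
  have h := nkj_piv_p M x
  rcases (nkj_f1 _ (nkj_mem M x.1) x.2).2.2 with ⟨h1, h2⟩ | ⟨h1, h2⟩
  · exact .inr (.inl ⟨h1, h2 ▸ h⟩)
  · exact .inr (.inr ⟨h1, h2 ▸ h⟩)

lemma nkj_piv_sq (x : {x : M.C 3 // ¬nkjP x.1.1.2}) : M.dR 2 x.1 (nkjPiv M x) ^ 2 = 1 :=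
  nkj_sq M (nkj_f1 _ (nkj_mem M x.1) x.2).1 rfl

lemma nkj_piv_tri (x y : {x : M.C 3 // ¬nkjP x.1.1.2}) (h : M.dR 2 x.1 (nkjPiv M y) ≠ 0) :
    x = y ∨ nkjL y.1.1.1.2 < nkjL x.1.1.1.2 := by
  obtain ⟨s, hs, h1, h2⟩ := nkj_ne M h
  refine (nkj_f2 _ (nkj_mem M x.1) x.2 _ (nkj_mem M y.1) y.2 s hs h1).imp_left ?_
  rintro ⟨e, rfl⟩
  rcases h2 with h2 | h2
  · exact Subtype.ext (Subtype.ext (Subtype.ext (Prod.ext (mul_right_cancel h2).symm e)))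
  · have := nkj_piv_p M y
    rw [h2, x.1.1.2.2 _ hs] at this
    exact absurd this (by decide)

lemma nkj_piv_surj (y : M.C 2) (h : M.pb y) (hS : y.1.1.2 ∉ nkjS) : ∃ x, nkjPiv M x = y := by
  obtain ⟨s, h1, h2⟩ : ∃ s, (y.1.1.2 ∈ nkjA ∧ s = vy0 ∨ y.1.1.2 ∈ nkjX ∧ s = vz) ∧
      M.p y.1.1.1 s = 1 := by
    rcases h with h | h | h
    exacts [absurd h hS, ⟨_, .inl ⟨h.1, rfl⟩, h.2⟩, ⟨_, .inr ⟨h.1, rfl⟩, h.2⟩]
  obtain ⟨f1, f2, f3, f4⟩ := nkj_f6 _ _ h1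
  refine ⟨⟨⟨⟨(y.1.1.1 * M.g s, insert s y.1.1.2), fun a ha b hb => f4 a ha b hb, fun t ht => ?_⟩,
    ?_⟩, f2⟩, ?_⟩
  · rw [M.p_mul_g]
    split_ifs with e
    · rw [e, h2]; rfl
    · rw [add_zero]; exact y.1.2.2 t ((Finset.mem_insert.1 ht).resolve_left e)
  · rw [Finset.card_insert_of_notMem f1, y.2]
  · refine Subtype.ext (Subtype.ext (Prod.ext ?_ ?_))
    · show y.1.1.1 * M.g s * M.g (nkjV (insert s y.1.1.2)) = _
      rw [f3, mul_assoc, M.sq, mul_one]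
    · show (insert s y.1.1.2).erase (nkjV (insert s y.1.1.2)) = _
      rw [f3, Finset.erase_insert f1]

lemma nkj_zero (x : M.C 3) (y : M.C 2) (hx : ¬nkjP x.1.1.2) (hy : y.1.1.2 ∈ nkjS) :
    M.dR 2 x y = 0 := by
  by_contra h
  obtain ⟨s, hs, h1, -⟩ := nkj_ne M h
  exact hx (nkj_f3 _ (nkj_mem M x) s hs (h1 ▸ hy)).1

/-- The block of the six cycle types. -/
def nkjB : Matrix {x : M.C 3 // nkjP x.1.1.2} {y : M.C 2 // y.1.1.2 ∈ nkjS} ℝ := sub (M.dR 2) _ _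

end

lemma nkj_main {γ η : ℝ} (hγ : 0 < γ) (hη : 0 < η) : ∃ j, ∀ (Q : Type) [Group Q] [Finite Q]
    (M : FM j Q), -(6 * γ * Nat.card Q) ≤ ld η (nkjB M.toPM) ∧
      ld η (nkjB M.toPM) ≤ 6 * (√η + γ) * Nat.card Q := by
  obtain ⟨k0, hk⟩ := PM.cyc hγ hη
  refine ⟨2 * k0, fun Q _ _ M => ?_⟩
  have e := nkj_blocks (nkjB M.toPM) hη (fun x => nkjK x.1.1.1.2) (fun y => nkjK y.1.1.1.2)
    fun x y h => by
      obtain ⟨s, hs, h1, -⟩ := nkj_ne M.toPM h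
      have := (nkj_f3 _ (nkj_mem M.toPM x.1) s hs (h1 ▸ y.2)).2
      rw [← h1] at this
      exact this
  have b : ∀ k : Fin 6, -(γ * Nat.card Q) ≤ ld η (sub (nkjB M.toPM)
      (fun x => nkjK x.1.1.1.2 = k) fun y => nkjK y.1.1.1.2 = k) ∧ ld η (sub (nkjB M.toPM)
      (fun x => nkjK x.1.1.1.2 = k) fun y => nkjK y.1.1.1.2 = k) ≤ (√η + γ) * Nat.card Q := by
    intro k
    obtain ⟨f1, f2, f3, f4, f5, f6, f7⟩ := nkj_f5 k
    obtain ⟨f8, f9, f10⟩ := nkj_f7 k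
    rw [nkjB, nkj_sub_sub (M.toPM.dR 2) _ (fun x => nkjK x.1.1.2 = k) _
      fun y => nkjK y.1.1.2 = k]
    exact (hk Q M.toPM 2 (nkjT k) (nkjs k) (nkjt k) (fun _ => True) _ _ f4 f5 f6
      (fun a ha b hb => f9 a ha b hb) (fun a ha b hb => f10 a ha b hb) f7 (fun _ _ => trivial)
      (fun _ _ => trivial) (fun i h1 h2 => M.ord f8 h1 (by omega))
      (fun x => by rw [and_true]; exact nkj_f4 k _ (nkj_mem _ x))
      fun y => by
        rw [and_true]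
        exact ⟨fun h => f3 _ h.1 h.2, fun h => h ▸ ⟨f1, f2⟩⟩).2
  rw [e]
  constructor
  · refine le_trans (le_of_eq ?_) (Finset.sum_le_sum fun k _ => (b k).1)
    simp; ring
  · refine (Finset.sum_le_sum fun k _ => (b k).2).trans (le_of_eq ?_)
    simp; ring

theorem d3_ge {γ ε : ℝ} (hγ : 0 < γ) (hε : 0 < ε) : ∃ j, ∀ (Q : Type) [Group Q] [Finite Q]
    (M : FM j Q), -(γ * Nat.card Q) ≤ ld ε (M.toPM.dR 2) := by
  obtain ⟨j, hj⟩ := nkj_main (γ := γ / 6) (by positivity) hε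
  refine ⟨j, fun Q _ _ M => ?_⟩
  have h1 := (hj Q M).1
  have h2 := ld_tri (M.toPM.dR 2) hε (fun x => nkjP x.1.1.2) (fun y => y.1.1.2 ∈ nkjS)
    (nkj_zero M.toPM)
  have hl : ∀ T, nkjL T ≤ 2 := fun T => by unfold nkjL; split_ifs <;> omega
  have h3 : 0 ≤ ld ε (sub (M.toPM.dR 2) (fun x => ¬nkjP x.1.1.2) fun y => y.1.1.2 ∉ nkjS) := by
    refine ld_utl _ hε (piv := fun x => ⟨nkjPiv M.toPM x, nkj_piv_nS _ x⟩) (fun x y h => ?_)
      (fun x => 2 - nkjL x.1.1.1.2) (nkj_piv_sq _) fun x y h => (nkj_piv_tri _ x y h).imp_right ?_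
    · have h : nkjPiv M.toPM x = nkjPiv M.toPM y := congrArg Subtype.val h
      have n : ∀ z, M.toPM.dR 2 z.1 (nkjPiv M.toPM z) ≠ 0 := fun z h0 => by
        simpa [h0] using nkj_piv_sq M.toPM z
      rcases nkj_piv_tri _ x y (h ▸ n x) with e | e
      · exact e
      · exact ((nkj_piv_tri _ y x (h ▸ n y)).resolve_right (by omega)).symm
    · have := hl x.1.1.1.2
      omega
  have : ld ε (nkjB M.toPM) = ld ε (sub (M.toPM.dR 2) (fun x => nkjP x.1.1.2)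
    fun y => y.1.1.2 ∈ nkjS) := rfl
  linarith

section
variable {Q : Type} [Group Q] (M : PM L11 Q)

def nkjPP : M.C 3 ⊕ {x : M.C 2 // ¬M.pb x} → Prop := Sum.elim (fun x => nkjP x.1.1.2) fun _ => False

def nkjF : {i // ¬nkjPP M i} → {y : M.C 2 // y.1.1.2 ∉ nkjS}
  | ⟨.inl x, h⟩ => ⟨nkjPiv M ⟨x, h⟩, nkj_piv_nS M _⟩
  | ⟨.inr y, _⟩ => ⟨y.1, fun h => y.2 (.inl h)⟩

def nkjLL : {i // ¬nkjPP M i} → ℕ := fun i => i.1.elim (fun x => nkjL x.1.1.2) fun _ => 0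

lemma nkj_F_sq (i : {i // ¬nkjPP M i}) : M.KK i.1 (nkjF M i).1 ^ 2 = 1 := by
  rcases i with ⟨x | y, h⟩
  · exact nkj_piv_sq M ⟨x, h⟩
  · simp [PM.KK, nkjF, sel]

lemma nkj_F_tri (i j : {i // ¬nkjPP M i}) (h : M.KK i.1 (nkjF M j).1 ≠ 0) :
    i = j ∨ nkjLL M j < nkjLL M i := by
  rcases i with ⟨x | x, hx⟩ <;> rcases j with ⟨y | y, hy⟩
  · refine (nkj_piv_tri M ⟨x, hx⟩ ⟨y, hy⟩ h).imp_left fun e => ?_
    obtain rfl : x = y := congrArg Subtype.val e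
    rfl
  · refine .inr ?_
    show 0 < nkjL _
    unfold nkjL; split_ifs <;> omega
  · have e : x.1 = nkjPiv M ⟨y, hy⟩ := by simpa [PM.KK, nkjF, sel] using h
    exact absurd (e ▸ nkj_piv_pb M ⟨y, hy⟩) x.2
  · have e : x = y := by simpa [PM.KK, nkjF, sel, Subtype.val_inj] using h
    subst e
    exact .inl rfl

lemma nkj_F_bij : Function.Bijective (nkjF M) := by
  constructor
  · intro x y h
    have n : ∀ z, M.KK z.1 (nkjF M z).1 ≠ 0 := fun z h0 => by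
      simpa [h0] using nkj_F_sq M z
    rcases nkj_F_tri _ x y (h ▸ n x) with e | e
    · exact e
    · exact ((nkj_F_tri _ y x (h ▸ n y)).resolve_right (by omega)).symm
  · rintro ⟨y, hy⟩
    by_cases h : M.pb y
    · obtain ⟨x, rfl⟩ := nkj_piv_surj M y h hy
      exact ⟨⟨.inl x.1, x.2⟩, rfl⟩
    · exact ⟨⟨.inr ⟨y, h⟩, id⟩, rfl⟩

lemma nkj_rb : RB M.KK 23 := by
  classical
  have h := M.rb_dR 2
  have e : (2 * (Fintype.card V : ℕ) : ℝ) = 22 := by norm_num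
  rw [e] at h
  constructor
  · rintro (x | x) s
    · exact (h.1 x s).trans (by norm_num)
    · refine le_trans ?_ (show (1 : ℝ) ≤ 23 by norm_num)
      simp only [PM.KK, fromRows_apply_inr, sel, of_apply, apply_ite abs, abs_one, abs_zero]
      convert_to ∑ j ∈ s, (if x.1 = j then (1 : ℝ) else 0) ≤ 1
      rw [Finset.sum_ite_eq]
      split_ifs <;> norm_num
  · intro y s
    rw [← s.toLeft_disjSum_toRight, Finset.sum_disjSum]
    refine (add_le_add (h.2 y _) (show _ ≤ 1 from ?_)).trans (by norm_num)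
    simp only [PM.KK, fromRows_apply_inr, sel, of_apply, apply_ite abs, abs_one, abs_zero]
    rw [Finset.sum_boole]
    refine Nat.cast_le_one.2 (Finset.card_le_one.2 fun a ha b hb => ?_)
    exact Subtype.ext ((Finset.mem_filter.1 ha).2.trans (Finset.mem_filter.1 hb).2.symm)

lemma nkj_card [Finite Q] :
    Nat.card (M.C 3 ⊕ {x : M.C 2 // ¬M.pb x}) = Nat.card (M.C 2) := by
  classical
  have h1 := M.card_C3
  have h2 := M.card_pb
  have h3 := Nat.card_congr (Equiv.sumCompl M.pb)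
  rw [Nat.card_sum] at h3 ⊢
  omega

lemma nkj_sub [Finite Q] (η : ℝ) :
    ld η (sub M.KK (nkjPP M) fun y => y.1.1.2 ∈ nkjS) = ld η (nkjB M) :=
  (ld_sign _ _ (Equiv.ofBijective
    (fun x : {x : M.C 3 // nkjP x.1.1.2} => (⟨.inl x.1, x.2⟩ : {i // nkjPP M i}))
      ⟨fun x y h => Subtype.ext (Sum.inl.inj (congrArg Subtype.val h)), by
        rintro ⟨x | x, h⟩
        exacts [⟨⟨x, h⟩, rfl⟩, h.elim]⟩) (Equiv.refl _) 1 1 (by simp) (by simp)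
    fun i j => by simp [sub, nkjB, PM.KK]).symm

end

theorem kk_le {γ : ℝ} (hγ : 0 < γ) : ∀ᶠ δ in 𝓝[>] (0 : ℝ), ∃ j, ∀ (Q : Type) [Group Q] [Finite Q]
    (M : FM j Q), ld δ M.toPM.KK ≤ γ * Nat.card Q := by
  have t : Tendsto (fun δ : ℝ => √√δ) (𝓝[>] 0) (𝓝 0) := by
    have : Continuous fun δ : ℝ => √√δ := by fun_prop
    simpa using (this.tendsto 0).mono_left nhdsWithin_le_nhds
  filter_upwards [ld_ut 23 2 (γ := γ / 20) (by positivity), self_mem_nhdsWithin,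
    t.eventually (gt_mem_nhds (show 0 < γ / 20 by positivity))] with δ h hδ h'
  obtain ⟨j, hj⟩ := nkj_main (γ := γ / 20) (η := √δ) (by positivity) (Real.sqrt_pos.2 hδ)
  refine ⟨j, fun Q _ _ M => ?_⟩
  have h1 := (hj Q M).2
  have c1 := nkj_card M.toPM
  have c2 : (4 * Nat.card (M.toPM.C 2) : ℝ) = 27 * Nat.card Q := by
    exact_mod_cast M.toPM.card_C2
  have h2 := h _ _ M.toPM.KK (nkjPP M.toPM) (fun y => y.1.1.2 ∈ nkjS)
    (Equiv.ofBijective _ (nkj_F_bij M.toPM)) (nkjLL M.toPM) (by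
      classical
      have e1 := Nat.card_congr (Equiv.sumCompl (nkjPP M.toPM))
      have e2 := Nat.card_congr (Equiv.sumCompl fun y : M.toPM.C 2 => y.1.1.2 ∈ nkjS)
      have e3 := Nat.card_congr (Equiv.ofBijective _ (nkj_F_bij M.toPM))
      rw [Nat.card_sum] at e1 e2
      omega) (nkj_rb _) (by
      rintro ⟨x | x, hx⟩
      · show nkjL _ ≤ 2
        unfold nkjL; split_ifs <;> omega
      · exact Nat.zero_le _) (by
      rintro (x | x) y hx hy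
      · exact nkj_zero _ x y hx hy
      · have : x.1 ≠ y := fun e => x.2 (.inl (e ▸ hy))
        simp [PM.KK, sel, this]) (nkj_F_sq _) (nkj_F_tri _)
  rw [nkj_sub, c1] at h2
  have q : (0 : ℝ) ≤ Nat.card Q := Nat.cast_nonneg _
  nlinarith [mul_le_mul_of_nonneg_right h'.le q, mul_nonneg hγ.le q]

end

end Pool.Agent.Lib.MP_b65ff2_gt
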