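import Pool.Agent.Lib.MP_b65ff2_gt.NBase
import Pool.Agent.Lib.MP_b65ff2_gt.Gram

namespace Pool.Agent.Lib.MP_b65ff2_gt

open Matrix Filter Topology

set_option linter.unusedSectionVars false

noncomputable section

variable {m n : Type} [Fintype m] [Fintype n] [DecidableEq m] [DecidableEq n]

/-- The orthogonal projection onto the column space. -/
lemma nhaar_proj (A : Matrix m n ℝ) : ∃ P : Matrix m m ℝ, Pᵀ = P ∧ P * A = A ∧
    (∃ B : Matrix n m ℝ, P = A * B) ∧ P.trace = A.rank := by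
  have h1 : LinearMap.range (Aᵀ * A).mulVecLin = LinearMap.range Aᵀ.mulVecLin := by
    apply Submodule.eq_of_le_of_finrank_eq
    · rw [mulVecLin_mul]; exact LinearMap.range_comp_le_range _ _
    · have e1 := rank_transpose_mul_self A
      have e2 := rank_transpose A
      unfold Matrix.rank at e1 e2
      rw [e1, e2]
  have h2 : ∀ j : m, ∃ b : n → ℝ, (Aᵀ * A) *ᵥ b = Aᵀ *ᵥ Pi.single j 1 := fun j => by
    have : Aᵀ *ᵥ Pi.single j 1 ∈ LinearMap.range (Aᵀ * A).mulVecLin := h1 ▸ ⟨_, rfl⟩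
    exact this
  choose b hb using h2
  let B : Matrix n m ℝ := .of fun i j => b j i
  have h3 : Aᵀ * A * B = Aᵀ := by
    ext i j
    have := congrFun (hb j) i
    simpa [mulVec, dotProduct, mul_apply, B, Pi.single_apply] using this
  have h4 : (A * B)ᵀ * (A * B) = (A * B)ᵀ := by
    rw [transpose_mul, Matrix.mul_assoc, ← Matrix.mul_assoc Aᵀ, h3]
  have h5 : (A * B)ᵀ = A * B := by
    have := congrArg transpose h4
    rw [transpose_mul, transpose_transpose, h4] at this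
    exact this
  have h6 : A * B * A = A := by
    have := congrArg transpose h3
    rw [Matrix.mul_assoc, transpose_mul, transpose_transpose, h5] at this
    exact this
  refine ⟨A * B, h5, h6, ⟨B, rfl⟩, ?_⟩
  have h7 : IsIdempotentElem (Matrix.toLin' (A * B)) := by
    show _ * _ = _
    rw [Module.End.mul_eq_comp, ← toLin'_mul, ← Matrix.mul_assoc, h6]
  have h8 : (A * B).rank = A.rank :=
    le_antisymm (rank_mul_le_left _ _) (by simpa [h6] using rank_mul_le_left (A * B) A)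
  rw [← trace_toLin'_eq, (LinearMap.IsIdempotentElem.isProj_range _ h7).trace, ← h8]
  rfl

lemma nhaar_comm {A : Matrix m n ℝ} {P T : Matrix m m ℝ} (h1 : Pᵀ = P) (h2 : P * A = A)
    (h3 : ∃ B : Matrix n m ℝ, P = A * B) {C C' : Matrix n n ℝ} (h4 : T * A = A * C)
    (h5 : Tᵀ * A = A * C') : T * P = P * T := by
  obtain ⟨B, hB⟩ := h3
  have e : ∀ (X : Matrix m m ℝ) (D : Matrix n n ℝ), X * A = A * D → P * (X * P) = X * P :=
    fun X D h => by
      have : X * P = A * (D * B) := by rw [hB, ← Matrix.mul_assoc, h, Matrix.mul_assoc]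
      rw [this, ← Matrix.mul_assoc, h2]
  have e2 := congrArg transpose (e _ _ h5)
  rw [transpose_mul, transpose_mul, transpose_transpose, h1, Matrix.mul_assoc] at e2
  rw [← e _ _ h4, e2]

lemma nhaar_tr_orth {O : Matrix m m ℝ} (h : O * Oᵀ = 1) : |O.trace| ≤ Fintype.card m := by
  have : ∀ i, |O i i| ≤ 1 := fun i => by
    have e := congrFun (congrFun h i) i
    simp only [mul_apply, transpose_apply, one_apply_eq] at e
    have := Finset.single_le_sum (f := fun j => O i j * O i j) (fun j _ => mul_self_nonneg _)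
      (Finset.mem_univ i)
    rw [e] at this
    exact abs_le_one_iff_mul_self_le_one.2 this
  calc |O.trace| ≤ ∑ i, |O i i| := Finset.abs_sum_le_sum_abs _ _
    _ ≤ ∑ _i : m, (1 : ℝ) := Finset.sum_le_sum fun i _ => this i
    _ = _ := by simp

lemma nhaar_orth_mul {O U : Matrix m m ℝ} (h : O * Oᵀ = 1) (h' : U * Uᵀ = 1) :
    O * U * (O * U)ᵀ = 1 := by
  rw [transpose_mul, Matrix.mul_assoc, ← Matrix.mul_assoc U, h', Matrix.one_mul, h]

lemma nhaar_orth_pow {U : Matrix m m ℝ} (h : U * Uᵀ = 1) (k : ℕ) : U ^ k * (U ^ k)ᵀ = 1 := by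
  induction k with
  | zero => simp
  | succ k ih => rw [pow_succ]; exact nhaar_orth_mul ih h

lemma nhaar_tr_pert {U J : Matrix m m ℝ} (hU : U * Uᵀ = 1) (hJ : J * Jᵀ = 1) (σ : ℝ) (k : ℕ) :
    ∀ O : Matrix m m ℝ, O * Oᵀ = 1 → |(O * (U - σ • J) ^ k).trace - (O * U ^ k).trace| ≤
      ((1 + |σ|) ^ k - 1) * Fintype.card m := by
  induction k with
  | zero => intro O _; simp
  | succ k ih =>
    intro O hO
    have a1 := ih _ (nhaar_orth_mul hO hU)
    have a2 := ih _ (nhaar_orth_mul hO hJ)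
    have a3 := nhaar_tr_orth (nhaar_orth_mul (nhaar_orth_mul hO hJ) (nhaar_orth_pow hU k))
    have e : (O * (U - σ • J) ^ (k + 1)).trace - (O * U ^ (k + 1)).trace =
        ((O * U * (U - σ • J) ^ k).trace - (O * U * U ^ k).trace) -
          σ * (O * J * (U - σ • J) ^ k).trace := by
      rw [pow_succ', pow_succ', ← Matrix.mul_assoc, ← Matrix.mul_assoc, Matrix.mul_sub,
        Matrix.sub_mul, trace_sub, Matrix.mul_smul, Matrix.smul_mul, trace_smul, smul_eq_mul]
      ring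
    have a4 : |(O * J * (U - σ • J) ^ k).trace| ≤ (1 + |σ|) ^ k * Fintype.card m := by
      have := abs_sub_abs_le_abs_sub (O * J * (U - σ • J) ^ k).trace (O * J * U ^ k).trace
      linarith
    rw [e]
    refine (abs_sub _ _).trans ?_
    rw [abs_mul, pow_succ]
    have := mul_le_mul_of_nonneg_left a4 (abs_nonneg σ)
    linarith

lemma nhaar_norm_orth {O : Matrix m m ℝ} (h : O * Oᵀ = 1) (v : m → ℝ) :
    (v ᵥ* O) ⬝ᵥ (v ᵥ* O) = v ⬝ᵥ v := by
  rw [← dotProduct_mulVec, ← mulVec_transpose, mulVec_mulVec, h, one_mulVec]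

lemma nhaar_norm {S J : Matrix m m ℝ} (hS : S * Sᵀ = 1) (hJ : J * Jᵀ = 1) (v : m → ℝ) :
    (v ᵥ* ((1 / 2 : ℝ) • (S + J))) ⬝ᵥ (v ᵥ* ((1 / 2 : ℝ) • (S + J))) ≤ v ⬝ᵥ v := by
  have a := nhaar_norm_orth hS v
  have b := nhaar_norm_orth hJ v
  have c : 0 ≤ (v ᵥ* S - v ᵥ* J) ⬝ᵥ (v ᵥ* S - v ᵥ* J) :=
    Finset.sum_nonneg fun _ _ => mul_self_nonneg _
  rw [vecMul_smul, vecMul_add, smul_dotProduct, dotProduct_smul, add_dotProduct, dotProduct_add,
    dotProduct_add, smul_eq_mul, smul_eq_mul]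
  rw [sub_dotProduct, dotProduct_sub, dotProduct_sub] at c
  linarith

lemma nhaar_ld {S J : Matrix m m ℝ} (hS : S * S = 1) (hJ : J * J = 1) (hS' : Sᵀ = S)
    (hJ' : Jᵀ = J) {η : ℝ} (hη : 0 < η) :
    ld η ((1 / 2 : ℝ) • (S + J)) + Fintype.card m * Real.log 4 =
      lam (4 * η) ((2 : ℝ) • 1 - -(S * J) - (-(S * J))ᵀ) := by
  have hp : 0 < (((1 / 2 : ℝ) • (S + J)) * ((1 / 2 : ℝ) • (S + J))ᵀ +
      η • (1 : Matrix m m ℝ)).det :=
    (PosDef.posSemidef_add (psd_real _) (PosDef.one.smul hη)).det_pos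
  rw [ld_eq, lam_eq, ← Real.log_pow, add_comm, ← Real.log_mul (by positivity) hp.ne', ← det_smul]
  congr 2
  rw [transpose_smul, transpose_add, transpose_neg, transpose_mul, hS', hJ', Matrix.smul_mul,
    Matrix.mul_smul, Matrix.add_mul, Matrix.mul_add, Matrix.mul_add, hS, hJ]
  module

lemma nhaar_half {X : Type} [Finite X] (P R : X → Prop) (τ : X → X) (hτ : ∀ x, τ (τ x) = x)
    (hP : ∀ x, P x → P (τ x)) (hR : ∀ x, R (τ x) ↔ ¬R x) :
    2 * Nat.card {x // P x ∧ R x} = Nat.card {x // P x} := by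
  classical
  have e1 : {x // P x ∧ R x} ≃ {x // P x ∧ ¬R x} :=
    ⟨fun x => ⟨τ x.1, hP _ x.2.1, fun h => (hR _).1 h x.2.2⟩,
      fun x => ⟨τ x.1, hP _ x.2.1, (hR _).2 x.2.2⟩, fun x => Subtype.ext (hτ _),
      fun x => Subtype.ext (hτ _)⟩
  have e2 := (Equiv.sumCompl fun x : {x // P x} => R x.1).symm
  rw [Nat.card_congr e2, Nat.card_sum,
    Nat.card_congr (Equiv.subtypeSubtypeEquivSubtypeInter P R),
    Nat.card_congr (Equiv.subtypeSubtypeEquivSubtypeInter P fun x => ¬R x), ← Nat.card_congr e1,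
    two_mul]

lemma nhaar_lim (k : ℕ) {θ : ℝ} (hθ : 0 < θ) :
    ∃ j0 : ℕ, ∀ j : ℕ, j0 ≤ j → (1 + 2 / (j : ℝ)) ^ k - 1 ≤ θ := by
  have h : Tendsto (fun j : ℕ => (1 + 2 / (j : ℝ)) ^ k - 1) atTop (𝓝 ((1 + 0) ^ k - 1)) :=
    ((tendsto_const_nhds.add (tendsto_const_div_atTop_nhds_zero_nat 2)).pow k).sub_const 1
  simp only [add_zero, one_pow, sub_self] at h
  exact eventually_atTop.1 (h.eventually (eventually_le_nhds hθ))

end

end Pool.Agent.Lib.MP_b65ff2_gt
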