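import Pool.Agent.Lib.MP_b65ff2_gt.NL11
import Pool.Agent.Lib.MP_b65ff2_gt.NHaarA

namespace Pool.Agent.Lib.MP_b65ff2_gt

open Matrix Filter Topology

set_option linter.unusedSectionVars false

noncomputable section

variable {Q : Type} [Group Q] (M : PM L11 Q)

lemma nhaar_z2 (a : ZMod 2) : a + 1 = 0 ↔ ¬a = 0 := by revert a; decide

lemma nhaar_ka_mul (a b : Q) : M.ka (a * b) = M.ka a + M.ka b := by
  simp only [PM.ka, M.p_mul, Pi.add_apply]; ring

lemma nhaar_ka_one : M.ka 1 = 0 := by simp [PM.ka, M.p_one]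

lemma nhaar_ka_inv {a : Q} (h : M.ka a = 0) : M.ka a⁻¹ = 0 := by
  have := nhaar_ka_mul M a a⁻¹
  rwa [mul_inv_cancel, nhaar_ka_one, h, zero_add, eq_comm] at this

lemma nhaar_ka_x0 : M.ka (M.g vx0) = 0 := by simp +decide [PM.ka, M.p_g]
lemma nhaar_ka_x1 : M.ka (M.g vx1) = 0 := by simp +decide [PM.ka, M.p_g]
lemma nhaar_ka_y0 : M.ka (M.g vy0) = 0 := by simp +decide [PM.ka, M.p_g]
lemma nhaar_ka_yh : M.ka (M.g vyh) = 1 := by simp +decide [PM.ka, M.p_g]

lemma nhaar_xk_or (q : Q) : M.xk q = vx0 ∨ M.xk q = vx1 := by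
  unfold PM.xk; split_ifs <;> simp

lemma nhaar_xk_congr {q q' : Q} (h : M.ka q = M.ka q') : M.xk q = M.xk q' := by
  unfold PM.xk; rw [h]

lemma nhaar_ka_xk (q : Q) : M.ka (M.g (M.xk q)) = 0 := by
  rcases nhaar_xk_or M q with h | h <;> rw [h]
  exacts [nhaar_ka_x0 M, nhaar_ka_x1 M]

lemma nhaar_xk_ne (q : Q) : M.xk q ≠ vy0 := by
  rcases nhaar_xk_or M q with h | h <;> rw [h] <;> decide

lemma nhaar_xk_cm (q : Q) : M.g (M.xk q) * M.g vy0 = M.g vy0 * M.g (M.xk q) := by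
  rcases nhaar_xk_or M q with h | h <;> rw [h] <;> exact M.cm _ _ (by decide)

lemma nhaar_xk_x (q : Q) : M.xk (q * M.g (M.xk q)) = M.xk q :=
  nhaar_xk_congr M (by rw [nhaar_ka_mul, nhaar_ka_xk, add_zero])

lemma nhaar_xk_y (q : Q) : M.xk (q * M.g vy0) = M.xk q :=
  nhaar_xk_congr M (by rw [nhaar_ka_mul, nhaar_ka_y0, add_zero])

lemma nhaar_be_x (q : Q) : M.be (q * M.g (M.xk q)) = M.be q := by
  unfold PM.be
  rw [nhaar_xk_x, M.p_mul_g, M.p_mul_g, if_pos rfl, if_neg (nhaar_xk_ne M q).symm, add_zero]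
  congr 1
  by_cases h : M.p q (M.xk q) = 0
  · rw [if_neg (fun e => (nhaar_z2 _).1 e h), if_pos h, mul_assoc, M.sq]
  · rw [if_pos ((nhaar_z2 _).2 h), if_neg h, mul_one]

lemma nhaar_be_y (q : Q) : M.be (q * M.g vy0) = M.be q := by
  unfold PM.be
  rw [nhaar_xk_y, M.p_mul_g, M.p_mul_g, if_pos rfl, if_neg (nhaar_xk_ne M q), add_zero]
  have e : ∀ a : Q, a * M.g vy0 = M.g vy0 * a → q * M.g vy0 * a *
      (if M.p q vy0 + 1 = 0 then 1 else M.g vy0) = q * a * if M.p q vy0 = 0 then 1 else M.g vy0 := by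
    intro a ha
    rw [mul_assoc q, ← ha, ← mul_assoc]
    by_cases h : M.p q vy0 = 0
    · rw [if_neg (fun e => (nhaar_z2 _).1 e h), if_pos h, mul_assoc, M.sq]
    · rw [if_pos ((nhaar_z2 _).2 h), if_neg h, mul_one]
  apply e
  split_ifs
  · simp
  · exact nhaar_xk_cm M q

lemma nhaar_be_cases (q : Q) : M.be q = q ∨ M.be q = q * M.g (M.xk q) ∨ M.be q = q * M.g vy0 ∨
    M.be q = q * M.g (M.xk q) * M.g vy0 := by
  unfold PM.be; split_ifs <;> simp

lemma nhaar_ka_be (q : Q) : M.ka (M.be q) = M.ka q := by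
  rcases nhaar_be_cases M q with h | h | h | h <;> rw [h] <;>
    simp only [nhaar_ka_mul, nhaar_ka_xk, nhaar_ka_y0, add_zero]

lemma nhaar_be_left {h : Q} (hh : M.ka h = 0) (q : Q) : M.be (h * M.be q) = M.be (h * q) := by
  have e : M.xk q = M.xk (h * q) := nhaar_xk_congr M (by rw [nhaar_ka_mul, hh, zero_add])
  rcases nhaar_be_cases M q with a | a | a | a <;> rw [a]
  · rw [← mul_assoc, e, nhaar_be_x]
  · rw [← mul_assoc, nhaar_be_y]
  · rw [← mul_assoc, ← mul_assoc, nhaar_be_y, e, nhaar_be_x]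

lemma nhaar_be_col (c : M.Cols) : M.be c.1 = c.1 := by
  unfold PM.be; rw [if_pos c.2.1, if_pos c.2.2, mul_one, mul_one]

lemma nhaar_be_mem (q : Q) : M.p (M.be q) (M.xk (M.be q)) = 0 ∧ M.p (M.be q) vy0 = 0 := by
  rw [nhaar_xk_congr M (nhaar_ka_be M q)]
  have h1 := nhaar_xk_ne M q
  have h2 := h1.symm
  unfold PM.be
  split_ifs with a b b
  · simp [a, b]
  · simp [a, M.p_mul_g, h1, (nhaar_z2 _).2 b]
  · simp [b, M.p_mul_g, h2, (nhaar_z2 _).2 a]
  · simp [M.p_mul_g, h1, h2, (nhaar_z2 _).2 a, (nhaar_z2 _).2 b]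

/-- The class of a chamber, as a column. -/
def nhaarB (q : Q) : M.Cols := ⟨M.be q, nhaar_be_mem M q⟩

lemma nhaar_be_iff {h : Q} (hh : M.ka h = 0) (q : Q) (c : M.Cols) :
    M.be (h * q) = c.1 ↔ M.be q = M.be (h⁻¹ * c.1) := by
  constructor
  · intro e
    rw [← e, nhaar_be_left M (nhaar_ka_inv M hh), inv_mul_cancel_left]
  · intro e
    rw [← nhaar_be_left M hh, e, nhaar_be_left M hh, mul_inv_cancel_left, nhaar_be_col]

lemma nhaar_dl_left {h : Q} (hh : M.ka h = 0) (q : Q) (c : M.Cols) :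
    M.dl (h * q) c = M.dl q (nhaarB M (h⁻¹ * c.1)) := by
  unfold PM.dl
  rw [mul_assoc, nhaar_be_iff M hh, nhaar_be_iff M hh]
  rfl

lemma nhaar_supp {q : Q} (hq : M.ka q = 0) {c : M.Cols} (h : M.dl q c ≠ 0) :
    q⁻¹ * (if M.ka c.1 = 0 then c.1 else c.1 * M.g vyh) ∈ M.D0 := by
  have m0 : M.g vx0 ∈ M.D0 := Subgroup.subset_closure (by simp)
  have m1 : M.g vx1 ∈ M.D0 := Subgroup.subset_closure (by simp)
  have m2 : M.g vy0 ∈ M.D0 := Subgroup.subset_closure (by simp)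
  have m3 : M.g vyh * M.g vy0 * M.g vyh ∈ M.D0 := Subgroup.subset_closure (by simp)
  have k1 : ¬M.ka (q * M.g vyh) = 0 := by rw [nhaar_ka_mul, hq, nhaar_ka_yh]; decide
  by_cases a : M.be q = c.1
  · rw [← a, nhaar_ka_be, if_pos hq]
    have e : M.xk q = vx0 := if_pos hq
    rcases nhaar_be_cases M q with b | b | b | b <;> rw [b]
    · simp
    · simpa [e] using m0
    · simpa using m2
    · simpa [e, mul_assoc] using mul_mem m0 m2
  by_cases b : M.be (q * M.g vyh) = c.1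
  · rw [← b, nhaar_ka_be, if_neg k1]
    have e : M.xk (q * M.g vyh) = vx1 := if_neg k1
    have cm : M.g vyh * M.g vx1 = M.g vx1 * M.g vyh := M.cm _ _ (by decide)
    rcases nhaar_be_cases M (q * M.g vyh) with b | b | b | b <;> rw [b]
    · simp [mul_assoc, M.sq]
    · rw [e, mul_assoc q, cm, mul_assoc q, mul_assoc (M.g vx1), M.sq]; simpa using m1
    · simpa [mul_assoc] using m3
    · rw [e, mul_assoc q, cm]; simpa [mul_assoc] using mul_mem m1 m3
  · exact absurd (by simp [PM.dl, a, b]) h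

lemma nhaar_mulVec [Fintype M.Cols] (φ : M.Cols → ℝ) (q : M.Vv) :
    (M.dlt *ᵥ φ) q = φ (nhaarB M q.1) - φ (nhaarB M (q.1 * M.g vyh)) := by
  classical
  have e : ∀ (u : Q) (c : M.Cols), M.be u = c.1 ↔ nhaarB M u = c := fun u c =>
    ⟨fun h => Subtype.ext h, fun h => congrArg Subtype.val h⟩
  simp only [mulVec, dotProduct, PM.dlt, of_apply, PM.dl, e, sub_mul, Finset.sum_sub_distrib,
    ite_mul, one_mul, zero_mul, Finset.sum_ite_eq, Finset.mem_univ, if_true]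

lemma nhaar_card_V [Finite Q] : 2 * Nat.card M.Vv = Nat.card Q := by
  have := nhaar_half (fun _ : Q => True) (fun q => M.ka q = 0) (· * M.g vyh)
    (fun q => by rw [mul_assoc, M.sq, mul_one]) (fun _ _ => trivial)
    (fun q => by rw [nhaar_ka_mul, nhaar_ka_yh, nhaar_z2])
  simpa using this

lemma nhaar_card_C [Finite Q] : 4 * Nat.card M.Cols = Nat.card Q := by
  have a := nhaar_half (fun _ : Q => True) (fun q => M.p q (M.xk q) = 0)
    (fun q => q * M.g (M.xk q)) (fun q => by rw [nhaar_xk_x, mul_assoc, M.sq, mul_one])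
    (fun _ _ => trivial) (fun q => by rw [nhaar_xk_x, M.p_mul_g, if_pos rfl, nhaar_z2])
  have b := nhaar_half (fun q : Q => M.p q (M.xk q) = 0) (fun q => M.p q vy0 = 0) (· * M.g vy0)
    (fun q => by rw [mul_assoc, M.sq, mul_one])
    (fun q h => by rw [nhaar_xk_y, M.p_mul_g, if_neg (nhaar_xk_ne M q), add_zero, h])
    (fun q => by rw [M.p_mul_g, if_pos rfl, nhaar_z2])
  simp only [true_and, Nat.card_subtype_true] at a
  change 2 * Nat.card M.Cols = _ at b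
  omega

open DihedralGroup in
lemma nhaar_dih {j : ℕ} (M : FM j Q) (z : DihedralGroup M.m1) : ∃ n : ℕ,
    M.ξ ((M.g vx0 * M.g vx1) ^ n) = z ∨ M.ξ (M.g vx0 * (M.g vx0 * M.g vx1) ^ n) = z := by
  have : NeZero M.m1 := ⟨by have := M.le1; omega⟩
  have e0 : M.ξ (M.g vx0) = sr 0 := by rw [M.ξ_g, if_pos rfl]
  have e1 : M.ξ (M.g vx1) = sr 1 := by rw [M.ξ_g, if_neg (by decide), if_pos rfl]
  have e : ∀ i : ZMod M.m1, M.ξ ((M.g vx0 * M.g vx1) ^ i.val) = r i := fun i => by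
    rw [map_pow, map_mul, e0, e1, sr_mul_sr, sub_zero, r_one_pow, ZMod.natCast_zmod_val]
  rcases z with i | i
  · exact ⟨i.val, .inl (e i)⟩
  · exact ⟨i.val, .inr (by rw [map_mul, e, e0, sr_mul_r, zero_add])⟩

lemma nhaar_card_ker [Finite Q] {j : ℕ} (M : FM j Q) :
    Nat.card M.ξ.ker * (2 * M.m1) = Nat.card Q := by
  have s : M.ξ.range = ⊤ := MonoidHom.range_eq_top.2 fun z => by
    obtain ⟨n, h | h⟩ := nhaar_dih M z <;> exact ⟨_, h⟩
  rw [← M.ξ.ker.card_mul_index, Subgroup.index_ker, s, Subgroup.card_top, DihedralGroup.nat_card]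

lemma nhaar_ker0 (N : PM L11 Q) {D : Type} [Group D] (ξ : Q →* D)
    (hξ : ∀ z, ∃ n : ℕ, ξ ((N.g vx0 * N.g vx1) ^ n) = z ∨ ξ (N.g vx0 * (N.g vx0 * N.g vx1) ^ n) = z)
    (φ : N.Cols → ℝ) (hy : ∀ q, N.ka q = 0 → φ (nhaarB N (q * N.g vyh)) = φ (nhaarB N q))
    (hk : ∀ k, ξ k = 1 → φ (nhaarB N k) = 0) (c : N.Cols) : φ c = 0 := by
  have hx0 : ∀ q, N.ka q = 0 → φ (nhaarB N (q * N.g vx0)) = φ (nhaarB N q) := fun q hq => by
    have e : N.xk q = vx0 := if_pos hq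
    congr 1
    exact Subtype.ext (by rw [← e]; exact nhaar_be_x N q)
  have hx1 : ∀ q, N.ka q = 0 → φ (nhaarB N (q * N.g vx1)) = φ (nhaarB N q) := fun q hq => by
    have k1 : ¬N.ka (q * N.g vyh) = 0 := by rw [nhaar_ka_mul, hq, nhaar_ka_yh]; decide
    have e : N.xk (q * N.g vyh) = vx1 := if_neg k1
    have cm : N.g vx1 * N.g vyh = N.g vyh * N.g vx1 := N.cm _ _ (by decide)
    rw [← hy q hq, ← hy _ (by rw [nhaar_ka_mul, hq, nhaar_ka_x1, add_zero]), mul_assoc, cm,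
      ← mul_assoc]
    congr 1
    exact Subtype.ext (by rw [← e]; exact nhaar_be_x N _)
  have hn : ∀ (n : ℕ) q, N.ka q = 0 →
      φ (nhaarB N (q * (N.g vx0 * N.g vx1) ^ n)) = φ (nhaarB N q) := by
    intro n
    induction n with
    | zero => intro q _; rw [pow_zero, mul_one]
    | succ n ih =>
      intro q hq
      have k0 : N.ka (q * N.g vx0) = 0 := by rw [nhaar_ka_mul, hq, nhaar_ka_x0, add_zero]
      rw [pow_succ', ← mul_assoc, ← mul_assoc,
        ih _ (by rw [nhaar_ka_mul, k0, nhaar_ka_x1, add_zero]), hx1 _ k0, hx0 _ hq]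
  have hV : ∀ q, N.ka q = 0 → φ (nhaarB N q) = 0 := fun q hq => by
    obtain ⟨n, h | h⟩ := hξ (ξ q)⁻¹
    · rw [← hn n q hq]
      exact hk _ (by rw [map_mul, h, mul_inv_cancel])
    · rw [← hx0 q hq, ← hn n _ (by rw [nhaar_ka_mul, hq, nhaar_ka_x0, add_zero])]
      exact hk _ (by rw [mul_assoc, map_mul, h, mul_inv_cancel])
  have e : c = nhaarB N c.1 := Subtype.ext (nhaar_be_col N c).symm
  rw [e]
  by_cases hc : N.ka c.1 = 0
  · exact hV _ hc
  · have k : N.ka (c.1 * N.g vyh) = 0 := by rw [nhaar_ka_mul, nhaar_ka_yh, nhaar_z2]; exact hc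
    have := hy _ k
    rw [mul_assoc, N.sq, mul_one] at this
    rw [this, hV _ k]

lemma nhaar_ker [Finite Q] {j : ℕ} (M : FM j Q) [Fintype M.toPM.Cols] :
    Module.finrank ℝ (LinearMap.ker M.toPM.dlt.mulVecLin) ≤ Nat.card M.ξ.ker := by
  classical
  cases nonempty_fintype M.ξ.ker
  rw [Nat.card_eq_fintype_card, ← Module.finrank_fintype_fun_eq_card ℝ]
  refine LinearMap.finrank_le_finrank_of_injective
    (f := (LinearMap.funLeft ℝ ℝ fun k : M.ξ.ker => nhaarB M.toPM k.1) ∘ₗ Submodule.subtype _) ?_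
  rw [injective_iff_map_eq_zero]
  rintro ⟨φ, hφ⟩ h0
  refine Subtype.ext (funext (nhaar_ker0 M.toPM M.ξ (nhaar_dih M) φ (fun q hq => ?_)
    fun k hk => congrFun h0 ⟨k, hk⟩))
  have := congrFun (LinearMap.mem_ker.1 hφ) ⟨q, hq⟩
  rw [mulVecLin_apply, nhaar_mulVec] at this
  exact (sub_eq_zero.1 this).symm

end

end Pool.Agent.Lib.MP_b65ff2_gt
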