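import Pool.Agent.Lib.MP_b65ff2_gt.NCell
import Pool.Agent.Lib.MP_b65ff2_gt.NArc
import Pool.Agent.Lib.MP_b65ff2_gt.NHaarB

namespace Pool.Agent.Lib.MP_b65ff2_gt

open Matrix Filter Topology

set_option linter.unusedSectionVars false

noncomputable section

/-- The matrix of a map. -/
def nhaarPm {m : Type} [DecidableEq m] (f : m → m) : Matrix m m ℝ :=
  .of fun i k => if f i = k then 1 else 0

lemma nhaar_pm_mul {m n : Type} [Fintype m] [DecidableEq m] (f : m → m) (A : Matrix m n ℝ) (i : m)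
    (c : n) : (nhaarPm f * A) i c = A (f i) c := by
  simp [nhaarPm, mul_apply]

lemma nhaar_mul_pm {m n : Type} [Fintype m] [DecidableEq m] (f : m → m) (A : Matrix n m ℝ) (c : n)
    (i : m) : (A * (nhaarPm f)ᵀ) c i = A c (f i) := by
  simp [nhaarPm, mul_apply]

lemma nhaar_pm_tr {m : Type} [DecidableEq m] {f g : m → m} (h1 : ∀ i, f (g i) = i)
    (h2 : ∀ i, g (f i) = i) : (nhaarPm f)ᵀ = nhaarPm g := by
  ext i k
  simp only [nhaarPm, transpose_apply, of_apply]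
  exact if_congr ⟨fun h => by rw [← h, h2], fun h => by rw [← h, h1]⟩ rfl rfl

section
variable {Q : Type} [Group Q] (M : PM L11 Q) [Fintype M.Vv] [Fintype M.Cols] [DecidableEq M.Vv]
  {P : Matrix M.Vv M.Vv ℝ}

lemma nhaar_jw (q : M.Vv) : M.jw (M.jw q) = q :=
  Subtype.ext (by simp only [PM.jw]; rw [mul_assoc, M.sq, mul_one])

/-- Left multiplication. -/
def nhaarL (h q : M.Vv) : M.Vv := ⟨h.1 * q.1, by rw [nhaar_ka_mul, h.2, q.2, add_zero]⟩

lemma nhaar_diag (h1 : Pᵀ = P) (h2 : P * M.dlt = M.dlt) (h3 : ∃ B, P = M.dlt * B) (q : M.Vv) :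
    P q q = P ⟨1, nhaar_ka_one M⟩ ⟨1, nhaar_ka_one M⟩ := by
  classical
  have e : ∀ h : M.Vv, nhaarPm (nhaarL M h) * M.dlt =
      M.dlt * (nhaarPm fun c => nhaarB M (h.1⁻¹ * c.1))ᵀ := fun h => by
    ext u c
    rw [nhaar_pm_mul, nhaar_mul_pm]
    exact nhaar_dl_left M h.2 _ _
  let q' : M.Vv := ⟨q.1⁻¹, nhaar_ka_inv M q.2⟩
  have a : ∀ u, nhaarL M q (nhaarL M q' u) = u := fun u => Subtype.ext (mul_inv_cancel_left _ _)
  have b : ∀ u, nhaarL M q' (nhaarL M q u) = u := fun u => Subtype.ext (inv_mul_cancel_left _ _)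
  have c := nhaar_comm h1 h2 h3 (e q) (by rw [nhaar_pm_tr a b]; exact e q')
  have d := congrFun (congrFun c ⟨1, nhaar_ka_one M⟩) q
  rw [nhaar_pm_mul, ← nhaar_pm_tr b a, nhaar_mul_pm] at d
  have i1 : nhaarL M q ⟨1, nhaar_ka_one M⟩ = q := Subtype.ext (mul_one _)
  have i2 : nhaarL M q' q = ⟨1, nhaar_ka_one M⟩ := Subtype.ext (inv_mul_cancel _)
  rwa [i1, i2] at d

lemma nhaar_block (h1 : Pᵀ = P) (h2 : P * M.dlt = M.dlt) (h3 : ∃ B, P = M.dlt * B) {q u : M.Vv}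
    (h : P q u ≠ 0) : q.1⁻¹ * u.1 ∈ M.D0 := by
  classical
  have e : diagonal (fun v : M.Vv => if q.1⁻¹ * v.1 ∈ M.D0 then (1 : ℝ) else 0) * M.dlt =
      M.dlt * diagonal fun c : M.Cols =>
        if q.1⁻¹ * (if M.ka c.1 = 0 then c.1 else c.1 * M.g vyh) ∈ M.D0 then (1 : ℝ) else 0 := by
    ext v c
    rw [diagonal_mul, mul_diagonal, mul_comm]
    by_cases a : M.dlt v c = 0
    · rw [a, zero_mul, zero_mul]
    · have := nhaar_supp M v.2 a
      congr 1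
      refine if_congr ?_ rfl rfl
      rw [← M.D0.mul_mem_cancel_right this, mul_assoc, mul_inv_cancel_left]
  have c := nhaar_comm h1 h2 h3 e (by rw [diagonal_transpose]; exact e)
  have d := congrFun (congrFun c q) u
  rw [diagonal_mul, mul_diagonal, inv_mul_cancel, if_pos (one_mem _), one_mul] at d
  by_contra hn
  rw [if_neg hn, mul_zero] at d
  exact h d

lemma nhaar_path {X : Matrix M.Vv M.Vv ℝ}
    (hX : ∀ q u, X q u ≠ 0 → ∃ d, (d ∈ M.D0 ∧ d ≠ 1) ∧ q.1 * (d * M.g vw) = u.1) (k : ℕ) :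
    ∀ q u, (X ^ k) q u ≠ 0 → ∃ l : List Q, l.length = k ∧ (∀ d ∈ l, d ∈ M.D0 ∧ d ≠ 1) ∧
      q.1 * (l.map (· * M.g vw)).prod = u.1 := by
  induction k with
  | zero =>
    intro q u h
    refine ⟨[], rfl, by simp, ?_⟩
    by_contra hn
    exact h (by rw [pow_zero, one_apply_ne fun e => hn (by simp [e])])
  | succ k ih =>
    intro q u h
    rw [pow_succ', mul_apply] at h
    obtain ⟨v, -, hv⟩ := Finset.exists_ne_zero_of_sum_ne_zero h
    obtain ⟨d, hd, e⟩ := hX _ _ (left_ne_zero_of_mul hv)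
    obtain ⟨l, a, b, c⟩ := ih _ _ (right_ne_zero_of_mul hv)
    refine ⟨d :: l, by simp [a], List.forall_mem_cons.2 ⟨hd, b⟩, ?_⟩
    rw [List.map_cons, List.prod_cons, ← mul_assoc, e, c]

end

theorem haar {γ η : ℝ} (hγ : 0 < γ) (hη : 0 < η) : ∃ j, ∀ (Q : Type) [Group Q] [Finite Q]
    (M : FM j Q) [Fintype M.toPM.Vv], ∃ Y : Matrix M.toPM.Vv M.toPM.Vv ℝ,
      (∀ v, (v ᵥ* Y) ⬝ᵥ (v ᵥ* Y) ≤ v ⬝ᵥ v) ∧
      -((Real.log 2 + γ) * Nat.card Q) ≤ ld η Y ∧
      (∀ q c, (Y * M.toPM.dlt) q c = (M.toPM.dlt (M.toPM.jw q) c - M.toPM.dlt q c) / 2) ∧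
      ∀ f : M.toPM.Vv → ℝ, f ᵥ* M.toPM.dlt = 0 →
        ∀ q, (Y *ᵥ f) q = (f q + f (M.toPM.jw q)) / 2 := by
  obtain ⟨k0, θ, hθ, harc⟩ := arc hγ (show 0 < 4 * η by positivity)
  obtain ⟨j0, hj0⟩ := nhaar_lim k0 hθ
  refine ⟨max k0 j0, fun Q _ _ M _ => ?_⟩
  classical
  cases nonempty_fintype M.toPM.Cols
  obtain ⟨P, h1, h2, h3, h4⟩ := nhaar_proj M.toPM.dlt
  have hPP : P * P = P := by
    obtain ⟨B, hB⟩ := h3
    calc P * P = P * (M.toPM.dlt * B) := by rw [← hB]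
      _ = P := by rw [← Matrix.mul_assoc, h2, ← hB]
  obtain ⟨S, hS⟩ : ∃ S : Matrix M.toPM.Vv M.toPM.Vv ℝ, S = 1 - (2 : ℝ) • P := ⟨_, rfl⟩
  obtain ⟨J, hJ⟩ : ∃ J, J = nhaarPm M.toPM.jw := ⟨_, rfl⟩
  have hS1 : Sᵀ = S := by rw [hS, transpose_sub, transpose_smul, transpose_one, h1]
  have hS2 : S * S = 1 := by
    rw [hS, Matrix.sub_mul, Matrix.mul_sub, Matrix.mul_sub, Matrix.smul_mul, Matrix.smul_mul,
      Matrix.mul_smul, Matrix.mul_smul, hPP, Matrix.one_mul, Matrix.one_mul, Matrix.mul_one]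
    module
  have hJ1 : Jᵀ = J := by rw [hJ]; exact nhaar_pm_tr (nhaar_jw _) (nhaar_jw _)
  have hJ2 : J * J = 1 := by
    ext q u
    rw [hJ, nhaar_pm_mul, nhaarPm, of_apply, nhaar_jw, one_apply]
  have hS3 : S * Sᵀ = 1 := by rw [hS1, hS2]
  have hJ3 : J * Jᵀ = 1 := by rw [hJ1, hJ2]
  have hU := nhaar_orth_mul hS3 hJ3
  have cV := nhaar_card_V M.toPM
  have cC := nhaar_card_C M.toPM
  have cK := nhaar_card_ker M
  have cR := LinearMap.finrank_range_add_finrank_ker M.toPM.dlt.mulVecLin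
  have cL := nhaar_ker M
  rw [Module.finrank_fintype_fun_eq_card] at cR
  change M.toPM.dlt.rank + _ = _ at cR
  rw [Nat.card_eq_fintype_card] at cV cC
  obtain ⟨σ, hσ⟩ : ∃ σ : ℝ, σ = 1 - 2 * P ⟨1, nhaar_ka_one _⟩ ⟨1, nhaar_ka_one _⟩ := ⟨_, rfl⟩
  have hm : (0 : ℝ) < M.m1 := by have := M.le1; exact_mod_cast (by omega : 0 < M.m1)
  have hN : (0 : ℝ) < Fintype.card M.toPM.Vv := by
    have := Nat.card_pos (α := Q)
    exact_mod_cast (by omega : 0 < Fintype.card M.toPM.Vv)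
  have hσ1 : σ * Fintype.card M.toPM.Vv =
      2 * Module.finrank ℝ (LinearMap.ker M.toPM.dlt.mulVecLin) := by
    have t : P.trace = Fintype.card M.toPM.Vv * P ⟨1, nhaar_ka_one _⟩ ⟨1, nhaar_ka_one _⟩ := by
      simp only [trace, diag_apply, nhaar_diag M.toPM h1 h2 h3]
      simp
    have u : Fintype.card M.toPM.Vv = 2 * M.toPM.dlt.rank +
        2 * Module.finrank ℝ (LinearMap.ker M.toPM.dlt.mulVecLin) := by omega
    have u' := congrArg (Nat.cast : ℕ → ℝ) u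
    push_cast at u'
    rw [hσ]; linarith
  have hσ0 : 0 ≤ σ := nonneg_of_mul_nonneg_left (by rw [hσ1]; positivity) hN
  have hσ2 : σ ≤ 2 / M.m1 := by
    have u : Nat.card M.ξ.ker * M.m1 = Fintype.card M.toPM.Vv := by nlinarith
    have u' := congrArg (Nat.cast : ℕ → ℝ) u
    have v : (Module.finrank ℝ (LinearMap.ker M.toPM.dlt.mulVecLin) : ℝ) ≤ Nat.card M.ξ.ker := by
      exact_mod_cast cL
    push_cast at u'
    rw [le_div_iff₀ hm]
    refine le_of_mul_le_mul_right ?_ hN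
    rw [mul_right_comm, hσ1, ← u', mul_assoc]
    gcongr
  have hX : ∀ q u, (S * J - σ • J) q u ≠ 0 →
      ∃ d, (d ∈ M.toPM.D0 ∧ d ≠ 1) ∧ q.1 * (d * M.g vw) = u.1 := by
    intro q u h
    have e : S * J - σ • J = (S - σ • 1) * Jᵀ := by
      rw [hJ1, Matrix.sub_mul, Matrix.smul_mul, Matrix.one_mul]
    rw [e, hJ, nhaar_mul_pm, hS] at h
    have hne : q ≠ M.toPM.jw u := by
      intro a
      rw [← a] at h
      apply h
      simp only [Matrix.sub_apply, Matrix.smul_apply, one_apply_eq, smul_eq_mul, hσ]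
      rw [nhaar_diag M.toPM h1 h2 h3 q]
      ring
    have hP : P q (M.toPM.jw u) ≠ 0 := by
      intro a
      apply h
      simp only [Matrix.sub_apply, Matrix.smul_apply, one_apply_ne hne, smul_eq_mul, a]
      ring
    refine ⟨_, ⟨nhaar_block M.toPM h1 h2 h3 hP, fun a => hne (Subtype.ext (inv_mul_eq_one.1 a))⟩, ?_⟩
    simp only [PM.jw]
    rw [← mul_assoc, mul_inv_cancel_left, mul_assoc, M.sq, mul_one]
  have htr : ∀ k, 1 ≤ k → k ≤ k0 → |((-(S * J)) ^ k).trace| ≤ θ * Nat.card M.toPM.Vv := by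
    intro k k1 k2
    have z : ((S * J - σ • J) ^ k).trace = 0 := Finset.sum_eq_zero fun q _ => by
      by_contra hn
      obtain ⟨l, a, b, c⟩ := nhaar_path M.toPM hX k q q hn
      exact M.free l (by rintro rfl; simp at a; omega) (a ▸ k2.trans (le_max_left _ _)) b
        (mul_eq_left.1 c)
    have t := nhaar_tr_pert hU hJ3 σ k 1 (by simp)
    rw [Matrix.one_mul, Matrix.one_mul, z, zero_sub, abs_neg, abs_of_nonneg hσ0] at t
    have t2 : |((-(S * J)) ^ k).trace| = |((S * J) ^ k).trace| := by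
      rcases Nat.even_or_odd k with h | h
      · rw [h.neg_pow]
      · rw [h.neg_pow, trace_neg, abs_neg]
    rw [t2, Nat.card_eq_fintype_card]
    refine t.trans (mul_le_mul_of_nonneg_right ?_ hN.le)
    refine le_trans ?_ (hj0 M.m1 ((le_max_right _ _).trans M.le1.le))
    have : (1 + σ) ^ k ≤ (1 + 2 / (M.m1 : ℝ)) ^ k0 :=
      (pow_le_pow_right₀ (by linarith) k2).trans (by gcongr)
    linarith
  refine ⟨(1 / 2 : ℝ) • (S + J), nhaar_norm hS3 hJ3, ?_, fun q c => ?_, fun f hf q => ?_⟩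
  · have a := (harc _ (-(S * J)) (by rw [transpose_neg, Matrix.neg_mul, Matrix.mul_neg, neg_neg, hU])
      htr).1
    rw [← nhaar_ld hS2 hJ2 hS1 hJ1 hη, Nat.card_eq_fintype_card,
      show (4 : ℝ) = 2 ^ 2 by norm_num, Real.log_pow] at a
    have u' := congrArg (Nat.cast : ℕ → ℝ) cV
    push_cast at u' a
    rw [← u']
    have := mul_pos hγ hN
    linarith
  · rw [Matrix.smul_mul, Matrix.add_mul, hS, hJ, Matrix.sub_mul, Matrix.smul_mul, h2,
      Matrix.one_mul, Matrix.smul_apply, Matrix.add_apply, nhaar_pm_mul, Matrix.sub_apply,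
      Matrix.smul_apply]
    simp only [smul_eq_mul]; ring
  · have a : P *ᵥ f = 0 := by
      obtain ⟨B, hB⟩ := h3
      rw [← h1, mulVec_transpose, hB, ← vecMul_vecMul, hf, zero_vecMul]
    have b : (J *ᵥ f) q = f (M.toPM.jw q) := by simp [hJ, nhaarPm, mulVec, dotProduct]
    rw [smul_mulVec, add_mulVec, hS, sub_mulVec, smul_mulVec, a, one_mulVec, Pi.smul_apply,
      Pi.add_apply, b]
    simp only [smul_zero, sub_zero, smul_eq_mul]; ring

end

end Pool.Agent.Lib.MP_b65ff2_gt
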