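import Pool.Agent.Lib.MP_b65ff2_gt.NLap
import Pool.Agent.Lib.MP_b65ff2_gt.NHaar

namespace Pool.Agent.Lib.MP_b65ff2_gt

open Matrix Filter Topology

set_option linter.unusedSectionVars false

noncomputable section

lemma nlat_orth {m n k : Type} [Fintype m] [Fintype n] [Fintype k] {ε : ℝ} (A : Matrix m k ℝ)
    (B : Matrix n k ℝ) (hε : 0 < ε) (h : A * Bᵀ = 0) :
    ld ε (fromRows A B) = ld ε A + ld ε B := by
  classical
  rw [ndet1_rows A B hε, h, Matrix.zero_mul, Matrix.zero_mul, sub_zero, add_comm, ← ld_eq_lam]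

lemma nlat_abs {ε : ℝ} (hε : 0 < ε) : ∃ η > 0, ∀ (U R C : Type) [Fintype U] [Fintype R]
    [Fintype C] [DecidableEq R] (D D' : Matrix U C ℝ) (Y : Matrix U U ℝ) (G : Matrix (R ⊕ R) U ℝ)
    (A A' : Matrix R C ℝ), Nat.card (R ⊕ R) = Nat.card U → Nat.card U = Nat.card (C ⊕ C) →
    G * Gᵀ = (2 : ℝ) • 1 → RB D 12 → RB D' 12 → (∀ v, (v ᵥ* Y) ⬝ᵥ (v ᵥ* Y) ≤ v ⬝ᵥ v) →
    Dᵀ * D' = 0 → G * (Y * fromCols D D') = fromRows (fromCols A 0) (fromCols 0 A') →
    Nat.card U * Real.log 2 + ld η Y + ld η Dᵀ + ld η D'ᵀ ≤ ld ε A + ld ε A' := by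
  classical
  obtain ⟨η1, h1, H1⟩ := ld_mul_ge (c := 288) (by norm_num) hε
  obtain ⟨η, h2, H2⟩ := ld_mul_ge (c := 288) (by norm_num) h1
  refine ⟨η, h2, fun U R C _ _ _ _ D D' Y G A A' c1 c2 hG hD hD' hY ho he => ?_⟩
  have nn : ∀ {T : Type} [Fintype T] (v : T → ℝ), 0 ≤ v ⬝ᵥ v := fun v =>
    Finset.sum_nonneg fun i _ => mul_self_nonneg _
  have nE : ∀ v, (v ᵥ* fromCols D D') ⬝ᵥ (v ᵥ* fromCols D D') ≤ 288 * (v ⬝ᵥ v) := fun v => by
    rw [vecMul_fromCols, sumElim_dotProduct_sumElim]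
    linarith [hD.norm v, hD'.norm v]
  have a1 := H1 _ _ _ G (Y * fromCols D D') c1 (fun v => by
    rw [← dotProduct_mulVec, ← mulVec_transpose, mulVec_mulVec, hG, smul_mulVec, one_mulVec,
      dotProduct_smul, smul_eq_mul]
    linarith [nn v]) (fun v => by
    rw [← vecMul_vecMul]
    linarith [nE (v ᵥ* Y), hY v])
  have a2 := H2 _ _ _ Y (fromCols D D') rfl (fun v => by linarith [hY v, nn v]) nE
  have a3 : ld η (fromCols D D') = ld η Dᵀ + ld η D'ᵀ := by
    rw [← ld_tr _ h2 c2, transpose_fromCols, nlat_orth _ _ h2 (by simpa using ho)]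
  have a4 : Nat.card U * Real.log 2 ≤ ld η1 G := by
    rw [ld_eq_lam, hG, ← c1]
    have := ndet1_lam_smul (m := R ⊕ R) (ε := η1) 2
    refine (mul_le_mul_of_nonneg_left (Real.log_le_log two_pos (le_add_of_nonneg_right h1.le))
      (Nat.cast_nonneg _)).trans_eq ?_
    refine this.symm.trans (congrArg _ (congrArg _ (Matrix.ext fun i j => ?_)))
    by_cases h : i = j <;> simp [one_apply, h]
  have a5 : ld ε (fromRows (fromCols A (0 : Matrix R C ℝ)) (fromCols (0 : Matrix R C ℝ) A')) =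
      ld ε A + ld ε A' := by
    rw [nlat_orth _ _ hε (by simp [transpose_fromCols, fromCols_mul_fromRows]), ld_eq_lam, ld_eq_lam,
      ld_eq_lam, ld_eq_lam]
    simp [transpose_fromCols, fromCols_mul_fromRows]
  rw [he, a5] at a1
  linarith

lemma nlat_half {α : Type} [Finite α] (P R : α → Prop) (σ : α → α) (hσ : ∀ q, σ (σ q) = q)
    (h : ∀ q, P q → P (σ q)) (h' : ∀ q, R (σ q) ↔ ¬R q) :
    Nat.card {q // P q} = 2 * Nat.card {q // P q ∧ R q} := by
  classical
  have e : {q // P q ∧ R q} ⊕ {q // P q ∧ R q} ≃ {q // P q} :=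
    { toFun := Sum.elim (fun q => ⟨q.1, q.2.1⟩) fun q => ⟨σ q.1, h _ q.2.1⟩
      invFun := fun q => if hq : R q.1 then .inl ⟨q.1, q.2, hq⟩
        else .inr ⟨σ q.1, h _ q.2, (h' _).2 hq⟩
      left_inv := by
        rintro (q | q)
        · simp [q.2.2]
        · have : ¬R (σ q.1) := fun x => (h' _).1 x q.2.2
          simp [this, hσ]
      right_inv := fun q => by
        by_cases hq : R q.1 <;> simp [hq, hσ] }
  rw [← Nat.card_congr e, Nat.card_sum, two_mul]

lemma nlat_z (x : ZMod 2) : x + 1 = 0 ↔ ¬x = 0 := by revert x; decide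

section
variable {Q : Type} [Group Q] (M : PM L11 Q)

lemma nlat_gg (q : Q) (s : V) : q * M.g s * M.g s = q := by rw [mul_assoc, M.sq, mul_one]

lemma nlat_cm (q : Q) {s t : V} (h : L11.Adj s t) :
    q * M.g s * M.g t = q * M.g t * M.g s := by rw [mul_assoc, M.cm s t h, mul_assoc]

lemma nlat_ka (q : Q) (s : V) :
    M.ka (q * M.g s) = M.ka q + if s = va0 ∨ s = va1 ∨ s = vyh ∨ s = vz then 1 else 0 := by
  simp only [PM.ka, M.p_mul_g]
  generalize M.p q va0 = a, M.p q va1 = b, M.p q vyh = c, M.p q vz = d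
  revert s a b c d
  decide +kernel

lemma nlat_ka0 (q : Q) : M.ka (M.g va0 * q) = M.ka q + 1 := by
  simp only [PM.ka, M.p_mul, M.p_g, Pi.add_apply, Pi.single_apply]
  generalize M.p q va0 = a, M.p q va1 = b, M.p q vyh = c, M.p q vz = d
  revert a b c d
  decide +kernel

lemma nlat_xk (q : Q) : M.xk q = vx0 ∨ M.xk q = vx1 := by
  unfold PM.xk; split_ifs <;> simp

lemma nlat_xk_mul (q : Q) {s : V} (h : ¬(s = va0 ∨ s = va1 ∨ s = vyh ∨ s = vz)) :
    M.xk (q * M.g s) = M.xk q := by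
  unfold PM.xk; rw [nlat_ka, if_neg h, add_zero]

lemma nlat_be_x (q : Q) {t : V} (ht : M.xk q = t) : M.be (q * M.g t) = M.be q := by
  have h := nlat_xk M q
  rw [ht] at h
  have h1 : M.xk (q * M.g t) = t := by
    rw [nlat_xk_mul M q (by rcases h with rfl | rfl <;> decide), ht]
  have h2 : vy0 ≠ t := by rcases h with rfl | rfl <;> decide
  simp only [PM.be, h1, ht, M.p_mul_g, if_true, if_neg h2, add_zero, nlat_z]
  by_cases h3 : M.p q t = 0 <;> simp [h3, nlat_gg]

lemma nlat_be_y (q : Q) : M.be (q * M.g vy0) = M.be q := by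
  have h1 : M.xk (q * M.g vy0) = M.xk q := nlat_xk_mul M q (by decide)
  have h2 : M.xk q ≠ vy0 := by rcases nlat_xk M q with h | h <;> rw [h] <;> decide
  have h4 : L11.Adj vy0 (M.xk q) := by rcases nlat_xk M q with h | h <;> rw [h] <;> decide
  simp only [PM.be, h1, M.p_mul_g, if_true, if_neg h2, add_zero, nlat_z]
  by_cases h3 : M.p q vy0 = 0 <;> by_cases h5 : M.p q (M.xk q) = 0 <;>
    simp [h3, h5, nlat_gg, nlat_cm M q h4]

open Classical in
lemma nlat_fib (c : Q) (s : Finset Q) : ∑ q ∈ s, (if M.be q = c then (1 : ℝ) else 0) ≤ 6 := by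
  rw [Finset.sum_boole]
  have : (s.filter fun q => M.be q = c) ⊆
      (({1, M.g vx0, M.g vx1} : Finset Q) ×ˢ ({1, M.g vy0} : Finset Q)).image
        fun p => c * p.2⁻¹ * p.1⁻¹ := fun q hq => by
    rw [← (Finset.mem_filter.1 hq).2]
    refine Finset.mem_image.2 ⟨(if M.p q (M.xk q) = 0 then 1 else M.g (M.xk q),
      if M.p q vy0 = 0 then 1 else M.g vy0), Finset.mem_product.2 ⟨?_, ?_⟩,
      by simp only [PM.be, mul_inv_cancel_right]⟩
    · rcases nlat_xk M q with h | h <;> rw [h] <;> dsimp only <;> split_ifs <;> simp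
    · dsimp only; split_ifs <;> simp
  have h2 := (Finset.card_le_card this).trans Finset.card_image_le
  rw [Finset.card_product] at h2
  have h3 : ({1, M.g vx0, M.g vx1} : Finset Q).card ≤ 3 := Finset.card_le_three
  have h4 : ({1, M.g vy0} : Finset Q).card ≤ 2 := Finset.card_le_two
  exact_mod_cast h2.trans (Nat.mul_le_mul h3 h4)

lemma nlat_rb : RB M.dlt 12 := by
  classical
  have ab : ∀ q c, |M.dlt q c| ≤ (if M.be q.1 = c.1 then 1 else 0) +
      if M.be (q.1 * M.g vyh) = c.1 then 1 else 0 := fun q c => by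
    simp only [PM.dlt, of_apply, PM.dl]
    split_ifs <;> norm_num
  have r : ∀ (u : Q) (s : Finset M.Cols), ∑ c ∈ s, (if u = c.1 then (1 : ℝ) else 0) ≤ 1 :=
    fun u s => by
      have := Finset.sum_map s (Function.Embedding.subtype _) fun c => if u = c then (1 : ℝ) else 0
      rw [Finset.sum_ite_eq] at this
      refine this.symm.trans_le ?_
      split_ifs <;> norm_num
  refine ⟨fun q s => (Finset.sum_le_sum fun c _ => ab q c).trans ?_,
    fun c s => (Finset.sum_le_sum fun q _ => ab q c).trans ?_⟩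
  · rw [Finset.sum_add_distrib]
    linarith [r (M.be q.1) s, r (M.be (q.1 * M.g vyh)) s]
  · rw [Finset.sum_add_distrib]
    have a := nlat_fib M c.1 (s.map (Function.Embedding.subtype _))
    have b := nlat_fib M c.1 (s.map ((Function.Embedding.subtype _).trans
      (Equiv.mulRight (M.g vyh)).toEmbedding))
    rw [Finset.sum_map] at a b
    exact (add_le_add a b).trans (by norm_num)

def nlatS (q : Q) : ℝ := if M.p q vx0 + M.p q vx1 + M.p q vy0 + M.p q vw = 0 then 1 else -1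

lemma nlat_s2 (q : Q) : nlatS M q ^ 2 = 1 := by unfold nlatS; split_ifs <;> norm_num

lemma nlat_s (q : Q) (t : V) : nlatS M (q * M.g t) =
    if t = vx0 ∨ t = vx1 ∨ t = vy0 ∨ t = vw then -nlatS M q else nlatS M q := by
  have : M.p (q * M.g t) vx0 + M.p (q * M.g t) vx1 + M.p (q * M.g t) vy0 + M.p (q * M.g t) vw =
      M.p q vx0 + M.p q vx1 + M.p q vy0 + M.p q vw +
        if t = vx0 ∨ t = vx1 ∨ t = vy0 ∨ t = vw then 1 else 0 := by
    simp only [M.p_mul_g]
    generalize M.p q vx0 = a, M.p q vx1 = b, M.p q vy0 = c, M.p q vw = d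
    revert t a b c d
    decide +kernel
  unfold nlatS
  rw [this]
  split_ifs <;> simp_all [nlat_z]

def nlatT : M.Vv ≃ M.Vv where
  toFun q := ⟨M.g va0 * q.1 * M.g vyh, by
    rw [nlat_ka, nlat_ka0, q.2]; decide⟩
  invFun q := ⟨M.g va0 * q.1 * M.g vyh, by
    rw [nlat_ka, nlat_ka0, q.2]; decide⟩
  left_inv q := Subtype.ext (by simp only [← mul_assoc, M.sq, one_mul, nlat_gg])
  right_inv q := Subtype.ext (by simp only [← mul_assoc, M.sq, one_mul, nlat_gg])

lemma nlat_sum [Fintype M.Vv] (F : Q → ℝ) (u : Q) (h0 : u * u = 1)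
    (h1 : ∀ q, M.ka (q * u) = M.ka q) (h2 : ∀ q, nlatS M (q * u) = -nlatS M q)
    (h3 : ∀ q, M.ka q = 0 → F (q * u) = F q) : ∑ q : M.Vv, nlatS M q.1 * F q.1 = 0 := by
  have i : Function.Involutive fun q : M.Vv => (⟨q.1 * u, (h1 _).trans q.2⟩ : M.Vv) := fun q =>
    Subtype.ext (by simp only [mul_assoc, h0, mul_one])
  have := Equiv.sum_comp i.toPerm fun q : M.Vv => nlatS M q.1 * F q.1
  simp only [Function.Involutive.coe_toPerm, h2] at this
  rw [Finset.sum_congr rfl fun q _ => by rw [h3 _ q.2, neg_mul], Finset.sum_neg_distrib] at this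
  linarith

def nlatD : Matrix M.Vv M.Cols ℝ := .of fun q c => nlatS M q.1 * M.dlt (nlatT M q) c

lemma nlat_perp [Fintype M.Vv] (c c' : M.Cols) : ∑ q, nlatD M q c' * M.dlt q c = 0 := by
  classical
  have x0 : ∀ q, M.ka q = 0 → M.xk q = vx0 := fun q h => if_pos h
  have x1 : ∀ q, M.ka q = 1 → M.xk q = vx1 := fun q h => if_neg (by rw [h]; decide)
  have k1 : ∀ q, M.ka q = 0 → M.ka (q * M.g vyh) = 1 := fun q h => by rw [nlat_ka, h]; decide
  have k2 : ∀ q, M.ka q = 0 → M.ka (M.g va0 * q) = 1 := fun q h => by rw [nlat_ka0, h]; decide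
  have k3 : ∀ q, M.ka q = 0 → M.ka (M.g va0 * q * M.g vyh) = 0 := fun q h => by
    rw [nlat_ka, k2 q h]; decide
  have t1 := nlat_sum M (fun q => (if M.be (M.g va0 * q * M.g vyh) = c'.1 then 1 else 0) *
    if M.be q = c.1 then 1 else 0) (M.g vx0) (M.sq _) (fun q => by simp +decide [nlat_ka])
    (fun q => by simp [nlat_s]) fun q h => by
      rw [nlat_be_x M q (x0 q h), ← mul_assoc, nlat_cm M _ (by decide : L11.Adj vx0 vyh),
        nlat_be_x M _ (x0 _ (k3 q h))]
  have t2 := nlat_sum M (fun q => (if M.be (M.g va0 * q) = c'.1 then 1 else 0) *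
    if M.be q = c.1 then 1 else 0) (M.g vy0) (M.sq _) (fun q => by simp +decide [nlat_ka])
    (fun q => by simp [nlat_s]) fun q h => by
      rw [nlat_be_y, ← mul_assoc, nlat_be_y]
  have t3 := nlat_sum M (fun q => (if M.be (M.g va0 * q * M.g vyh) = c'.1 then 1 else 0) *
    if M.be (q * M.g vyh) = c.1 then 1 else 0) (M.g vyh * M.g vy0 * M.g vyh)
    (by simp only [← mul_assoc, nlat_gg, M.sq])
    (fun q => by
      simp +decide only [← mul_assoc, nlat_ka, if_true, if_false, add_zero]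
      rw [add_assoc, show (1 + 1 : ZMod 2) = 0 from rfl, add_zero])
    (fun q => by simp +decide [← mul_assoc, nlat_s]) fun q h => by
      simp only [← mul_assoc, nlat_gg, nlat_be_y]
  have t4 := nlat_sum M (fun q => (if M.be (M.g va0 * q) = c'.1 then 1 else 0) *
    if M.be (q * M.g vyh) = c.1 then 1 else 0) (M.g vx1) (M.sq _)
    (fun q => by simp +decide [nlat_ka]) (fun q => by simp [nlat_s]) fun q h => by
      rw [← mul_assoc, nlat_be_x M _ (x1 _ (k2 q h)), nlat_cm M _ (by decide : L11.Adj vx1 vyh),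
        nlat_be_x M _ (x1 _ (k1 q h))]
  have t5 := congrArg₂ (· - ·) (congrArg₂ (· - ·) t1 t2) (congrArg₂ (· - ·) t3 t4)
  simp only [← Finset.sum_sub_distrib, sub_self] at t5
  refine (Finset.sum_congr rfl fun q _ => ?_).trans t5
  have : nlatD M q c' = nlatS M q.1 * M.dl (M.g va0 * q.1 * M.g vyh) c' := rfl
  rw [this]
  simp only [PM.dlt, of_apply, PM.dl, nlat_gg]
  ring

def nlatI (r : M.Rows) : M.Vv := ⟨r.1, r.2.2⟩

lemma nlat_jj (q : M.Vv) : M.jw (M.jw q) = q := Subtype.ext (nlat_gg M _ _)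

open Classical in
def nlatG : Matrix (M.Rows ⊕ M.Rows) M.Vv ℝ := fromRows
  (.of fun r q => (if nlatI M r = q then 1 else 0) - if M.jw (nlatI M r) = q then 1 else 0)
  (.of fun r q => (if nlatI M r = q then 1 else 0) + if M.jw (nlatI M r) = q then 1 else 0)

lemma nlat_G {k : Type} [Fintype M.Vv] (Z : Matrix M.Vv k ℝ) (r : M.Rows) (c : k) :
    (nlatG M * Z) (.inl r) c = Z (nlatI M r) c - Z (M.jw (nlatI M r)) c ∧
    (nlatG M * Z) (.inr r) c = Z (nlatI M r) c + Z (M.jw (nlatI M r)) c := by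
  simp [nlatG, mul_apply, sub_mul, add_mul, Finset.sum_sub_distrib, Finset.sum_add_distrib]

lemma nlat_GG [Fintype M.Vv] [DecidableEq M.Rows] : nlatG M * (nlatG M)ᵀ = (2 : ℝ) • 1 := by
  have a : ∀ r r', nlatI M r = nlatI M r' ↔ r = r' := fun r r' => by
    simp [nlatI, Subtype.ext_iff]
  have b : ∀ r r', M.jw (nlatI M r) ≠ nlatI M r' := fun r r' h => by
    have := congrArg (fun q : M.Vv => M.p q.1 vw) h
    simp [nlatI, PM.jw, M.p_mul_g, r.2.1, r'.2.1] at this
  have c : ∀ r r', M.jw (nlatI M r) = M.jw (nlatI M r') ↔ r = r' := fun r r' => by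
    rw [(Function.Involutive.injective (nlat_jj M)).eq_iff, a]
  ext (r | r) (r' | r') <;> simp only [nlat_G] <;> by_cases h : r' = r <;>
    simp [nlatG, a, b, (b _ _).symm, c, h, one_apply, eq_comm (a := r)] <;> norm_num

def nlatR : M.Rows ≃ M.Rows where
  toFun q := ⟨M.g va0 * q.1 * M.g vyh, by
    simp +decide [M.p_mul, M.p_g, q.2.1], (nlatT M (nlatI M q)).2⟩
  invFun q := ⟨M.g va0 * q.1 * M.g vyh, by
    simp +decide [M.p_mul, M.p_g, q.2.1], (nlatT M (nlatI M q)).2⟩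
  left_inv q := Subtype.ext (by simp only [← mul_assoc, M.sq, one_mul, nlat_gg])
  right_inv q := Subtype.ext (by simp only [← mul_assoc, M.sq, one_mul, nlat_gg])

variable [Finite Q]

lemma nlat_cV : Nat.card Q = 2 * Nat.card M.Vv := by
  have := nlat_half (fun _ : Q => True) (M.ka · = 0) (· * M.g va0) (nlat_gg M · _) (fun _ => id)
    fun q => by simp [nlat_ka, nlat_z]
  simpa using this

lemma nlat_cR : Nat.card (M.Rows ⊕ M.Rows) = Nat.card M.Vv := by
  have := nlat_half (M.ka · = 0) (M.p · vw = 0) (· * M.g vw) (nlat_gg M · _)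
    (fun q h => (M.jw ⟨q, h⟩).2) fun q => by simp [M.p_mul_g, nlat_z]
  rw [Nat.card_sum, this, two_mul,
    Nat.card_congr (Equiv.subtypeEquivRight fun q => (and_comm : M.ka q = 0 ∧ M.p q vw = 0 ↔ _))]

lemma nlat_cC : Nat.card M.Vv = Nat.card (M.Cols ⊕ M.Cols) := by
  have a := nlat_half (fun _ : Q => True) (M.p · vy0 = 0) (· * M.g vy0) (nlat_gg M · _)
    (fun _ => id) fun q => by simp [M.p_mul_g, nlat_z]
  have x : ∀ q, M.xk (q * M.g (M.xk q)) = M.xk q := fun q =>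
    nlat_xk_mul M q (by rcases nlat_xk M q with h | h <;> rw [h] <;> decide)
  have b := nlat_half (M.p · vy0 = 0) (fun q => M.p q (M.xk q) = 0) (fun q => q * M.g (M.xk q))
    (fun q => by rw [x, nlat_gg])
    (fun q h => by
      rw [M.p_mul_g, h, if_neg (by rcases nlat_xk M q with h | h <;> rw [h] <;> decide), add_zero])
    fun q => by simp [x, M.p_mul_g, nlat_z]
  have c := nlat_cV M
  simp only [true_and, Nat.card_congr (Equiv.subtypeUnivEquiv fun _ : Q => trivial)] at a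
  rw [Nat.card_congr (Equiv.subtypeEquivRight fun q =>
    (and_comm : M.p q vy0 = 0 ∧ M.p q (M.xk q) = 0 ↔ _))] at b
  rw [Nat.card_sum]
  change _ = 2 * Nat.card M.Cols at b
  omega

def nlatA : Matrix M.Rows M.Cols ℝ := .of fun r c => nlatS M r.1 * M.Alat (nlatR M r) c

lemma nlat_mul [Fintype M.Vv] (Y : Matrix M.Vv M.Vv ℝ)
    (y3 : ∀ q c, (Y * M.dlt) q c = (M.dlt (M.jw q) c - M.dlt q c) / 2)
    (y4 : ∀ f : M.Vv → ℝ, f ᵥ* M.dlt = 0 → ∀ q, (Y *ᵥ f) q = (f q + f (M.jw q)) / 2) :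
    nlatG M * (Y * fromCols M.dlt (nlatD M)) =
      fromRows (fromCols (-M.Alat) 0) (fromCols 0 (nlatA M)) := by
  have y5 : ∀ q c, (Y * nlatD M) q c = (nlatD M q c + nlatD M (M.jw q) c) / 2 := fun q c =>
    y4 (fun q => nlatD M q c) (funext fun c' => nlat_perp M c' c) q
  rw [mul_fromCols]
  ext (r | r) (c | c) <;>
    simp only [nlat_G, fromCols_apply_inl, fromCols_apply_inr, fromRows_apply_inl,
      fromRows_apply_inr, y3, y5, nlat_jj, Matrix.zero_apply, Matrix.neg_apply]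
  · have : M.Alat r c = M.dlt (nlatI M r) c - M.dlt (M.jw (nlatI M r)) c := rfl
    rw [this]; ring
  · ring
  · ring
  · have e1 : nlatD M (nlatI M r) c = nlatS M r.1 * M.dl (M.g va0 * r.1 * M.g vyh) c := rfl
    have e2 : nlatD M (M.jw (nlatI M r)) c =
      nlatS M (r.1 * M.g vw) * M.dl (M.g va0 * (r.1 * M.g vw) * M.g vyh) c := rfl
    have e3 : nlatA M r c = nlatS M r.1 * (M.dl (M.g va0 * r.1 * M.g vyh) c -
      M.dl (M.g va0 * r.1 * M.g vyh * M.g vw) c) := rfl
    rw [e1, e2, e3, ← mul_assoc, nlat_cm M _ (by decide : L11.Adj vw vyh), nlat_s, if_pos (by simp)]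
    ring

end

theorem lat_ge {γ ε : ℝ} (hγ : 0 < γ) (hε : 0 < ε) : ∃ j, ∀ (Q : Type) [Group Q] [Finite Q]
    (M : FM j Q), (Real.log (5 / 4) / 8 - γ) * Nat.card Q ≤ ld ε M.toPM.Alat := by
  classical
  obtain ⟨η, hη, H⟩ := nlat_abs hε
  obtain ⟨j1, h1⟩ := lap_ge (half_pos hγ) hη
  obtain ⟨j2, h2⟩ := haar hγ hη
  refine ⟨max j1 j2, fun Q _ _ M => ?_⟩
  have a1 : _ ≤ ld η M.toPM.dltᵀ := h1 Q (M.mono (le_max_left _ _))
  cases nonempty_fintype M.toPM.Vv
  cases nonempty_fintype M.toPM.Rows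
  cases nonempty_fintype M.toPM.Cols
  obtain ⟨Y, y1, y2, y3, y4⟩ := @h2 Q _ _ (M.mono (le_max_right _ _)) ‹_›
  have rb : RB (nlatD M.toPM) 12 := by
    have := (nlat_rb M.toPM).submatrix (nlatT M.toPM).injective Function.injective_id
    have e : ∀ q c, |nlatD M.toPM q c| = |M.toPM.dlt.submatrix (nlatT M.toPM) id q c| :=
      fun q c => by
        rw [← sq_eq_sq_iff_abs_eq_abs]
        exact (mul_pow _ _ _).trans (by rw [nlat_s2, one_mul]; rfl)
    simpa only [RB, e] using this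
  have a2 := H _ _ _ M.toPM.dlt (nlatD M.toPM) Y (nlatG M.toPM) _ _ (nlat_cR _) (nlat_cC _)
    (nlat_GG _) (nlat_rb _) rb y1
    (by ext c c'; exact (Finset.sum_congr rfl fun q _ => mul_comm _ _).trans (nlat_perp _ c c'))
    (nlat_mul M.toPM Y y3 y4)
  have a3 : ld η (nlatD M.toPM)ᵀ = ld η M.toPM.dltᵀ :=
    ld_sign _ _ (Equiv.refl _) (nlatT _) 1 (fun q => nlatS M.toPM q.1) (by simp)
      (fun q => nlat_s2 _ _) fun c q => by simp [nlatD]
  have a4 : ld ε (nlatA M.toPM) = ld ε M.toPM.Alat :=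
    ld_sign _ _ (nlatR _) (Equiv.refl _) (fun q => nlatS M.toPM q.1) 1 (fun q => nlat_s2 _ _)
      (by simp) fun c q => by simp [nlatA]
  have a5 : ld ε (-M.toPM.Alat) = ld ε M.toPM.Alat :=
    ld_sign _ _ (Equiv.refl _) (Equiv.refl _) (-1) 1 (by simp) (by simp) fun c q => by simp
  have a6 : (Nat.card Q : ℝ) = 2 * Nat.card M.toPM.Vv := by exact_mod_cast nlat_cV M.toPM
  have a7 : Real.log (5 / 4) = Real.log 5 - 2 * Real.log 2 := by
    rw [Real.log_div (by norm_num) (by norm_num), show (4 : ℝ) = 2 ^ 2 by norm_num, Real.log_pow]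
    norm_num
  rw [a3, a4, a5] at a2
  rw [a6] at a1 y2 ⊢
  rw [a7]
  have a8 := le_trans (add_le_add (add_le_add (add_le_add le_rfl y2) le_rfl) le_rfl) a2
  linarith

end

end Pool.Agent.Lib.MP_b65ff2_gt
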