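import Pool.Agent.Lib.MP_b65ff2_gt.NCyc
import Pool.Agent.Lib.MP_b65ff2_gt.NDet2

namespace Pool.Agent.Lib.MP_b65ff2_gt

open Matrix Filter Topology

set_option linter.unusedSectionVars false

noncomputable section

/-- The pivot squares, by type and parities. -/
def nu1_pb (T : Finset V) (py pz : ZMod 2) : Prop :=
  T ∈ ({{vcB, vw}, {vcB, vy0}, {vcL, vw}, {vcL, vx0}, {vcR, vw}, {vcR, vx1}} :
      Finset (Finset V)) ∨
    (T ∈ ({{va0, vx0}, {va1, vx1}} : Finset (Finset V)) ∧ py = 1) ∨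
    (T ∈ ({{vx0, vy0}, {vx0, vyh}, {vx1, vy0}, {vx1, vyh}} : Finset (Finset V)) ∧ pz = 1)

instance (T : Finset V) (py pz : ZMod 2) : Decidable (nu1_pb T py pz) := by
  unfold nu1_pb; infer_instance

/-- Levels of the squares. -/
def nu1_lr (T : Finset V) : ℕ :=
  if vcB ∈ T then 0 else if vcL ∈ T then 1 else if vcR ∈ T then 2
  else if va0 ∈ T ∨ va1 ∈ T ∨ vw ∈ T then 3
  else if vz ∈ T then (if vx0 ∈ T ∨ vx1 ∈ T then 7 else 4) else if vy0 ∈ T then 5 else 6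

/-- Levels of the edges. -/
def nu1_lc (T : Finset V) (pz : ZMod 2) : ℕ :=
  if vcB ∈ T then 0 else if vcL ∈ T then 1 else if vcR ∈ T then 2
  else if va0 ∈ T ∨ va1 ∈ T ∨ vw ∈ T then 3
  else if vz ∈ T then 7 else if pz = 1 then 4 else if vy0 ∈ T then 5 else 6

def nu1_L : List (ℕ × V × V × V) :=
  [(0, vcB, va0, va1), (1, vcL, va0, vyh), (2, vcR, va1, vyh), (5, vy0, vx0, vx1),
    (6, vyh, vx0, vx1), (7, vz, vx0, vx1)]

lemma nu1_lt (T : Finset V) : nu1_lr T ∈ Finset.range 8 := by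
  unfold nu1_lr; split_ifs <;> decide

lemma nu1_d0 : ∀ e ∈ edgeL, ∀ s ∈ ({e.1, e.2} : Finset V), ∀ py pz : ZMod 2,
    ¬nu1_pb {e.1, e.2} py pz →
    ¬(({e.1, e.2} : Finset V).erase s = {vx0} ∨ ({e.1, e.2} : Finset V).erase s = {vx1}) →
    nu1_lr {e.1, e.2} ≤ nu1_lc (({e.1, e.2} : Finset V).erase s) pz ∧
      nu1_lr {e.1, e.2} ≤
        nu1_lc (({e.1, e.2} : Finset V).erase s) (pz + if vz = s then 1 else 0) := by
  decide +kernel

lemma nu1_d1 : ∀ d ∈ nu1_L, ∀ e ∈ edgeL, ∀ py pz : ZMod 2,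
    (¬nu1_pb {e.1, e.2} py pz ∧ nu1_lr {e.1, e.2} = d.1) ↔
      ((({e.1, e.2} : Finset V) = insert d.2.2.1 {d.2.1} ∨
        ({e.1, e.2} : Finset V) = insert d.2.2.2 {d.2.1}) ∧ (d.1 = 5 ∨ d.1 = 6 → pz = 0)) := by
  decide +kernel

lemma nu1_d2 : ∀ d ∈ nu1_L, ∀ s : V, ∀ pz : ZMod 2,
    (¬(({s} : Finset V) = {vx0} ∨ ({s} : Finset V) = {vx1}) ∧ nu1_lc {s} pz = d.1) ↔
      (({s} : Finset V) = {d.2.1} ∧ (d.1 = 5 ∨ d.1 = 6 → pz = 0)) := by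
  decide +kernel

lemma nu1_d3 : ∀ d ∈ nu1_L, d.2.2.1 ≠ d.2.2.2 ∧ L11.Adj d.2.2.1 d.2.1 ∧ L11.Adj d.2.2.2 d.2.1 ∧
    vz ≠ d.2.2.1 ∧ vz ≠ d.2.2.2 ∧
    (d.2.2.1, d.2.2.2) ∈ [(vx0, vx1), (va0, va1), (va0, vyh), (va1, vyh)] := by
  decide +kernel

lemma nu1_d4 : ∀ e ∈ edgeL, nu1_lr {e.1, e.2} = 4 →
    ({e.1, e.2} : Finset V) = {vy0, vz} ∨ ({e.1, e.2} : Finset V) = {vyh, vz} := by
  decide +kernel

lemma nu1_d5 : ∀ e ∈ edgeL, ∀ py pz : ZMod 2, ¬nu1_pb {e.1, e.2} py pz → nu1_lr {e.1, e.2} = 3 →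
    (∃ c : ZMod 2, e = (if c = 0 then va0 else va1, vy0) ∨
      (e = (if c = 0 then va0 else va1, if c = 0 then vx0 else vx1) ∧ py = 0) ∨
      e = (if c = 0 then va0 else va1, vw)) ∨ e = (vw, vyh) := by
  decide +kernel

lemma nu1_d6 : ∀ c py pz : ZMod 2, ∀ t : V,
    (t = vy0 ∨ (t = (if c = 0 then vx0 else vx1) ∧ py = 0) ∨ t = vw) →
    ¬nu1_pb {if c = 0 then va0 else va1, t} py pz ∧
      nu1_lr {if c = 0 then va0 else va1, t} = 3 := by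
  decide +kernel

lemma nu1_d7 : ∀ py pz : ZMod 2, ¬nu1_pb {vw, vyh} py pz ∧ nu1_lr {vw, vyh} = 3 := by
  decide +kernel

lemma nu1_d8 : ∀ (pz : ZMod 2) (s : V),
    (¬(({s} : Finset V) = {vx0} ∨ ({s} : Finset V) = {vx1}) ∧ nu1_lc {s} pz = 3) ↔
      (∃ c : ZMod 2, s = if c = 0 then va0 else va1) ∨ s = vw := by
  decide +kernel

lemma nu1_clq {s t : V} (h : L11.Adj s t) : L11.IsClique (({s, t} : Finset V) : Set V) := by
  simpa using fun _ => h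

variable {Q : Type} [Group Q] (M : PM L11 Q)

/-- Rows and columns of level `x`. -/
def PM.nu1_R (x : ℕ) (i : M.C 2) : Prop := ¬M.pb i ∧ nu1_lr i.1.1.2 = x

def PM.nu1_C (x : ℕ) (j : M.C 1) : Prop := ¬M.pa j ∧ nu1_lc j.1.1.2 (M.p j.1.1.1 vz) = x

lemma PM.nu1_nz {x : M.C 2} {y : M.C 1} (h : M.dR 1 x y ≠ 0) : ∃ s ∈ x.1.1.2,
    y.1.1 = (x.1.1.1 * M.g s, x.1.1.2.erase s) ∨ y.1.1 = (x.1.1.1, x.1.1.2.erase s) := by
  by_contra hc
  push Not at hc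
  refine h ?_
  simp only [PM.dR, PM.dZ, PM.bd, map_apply, submatrix_apply, of_apply, Int.cast_eq_zero]
  exact Finset.sum_eq_zero fun s hs => by simp [(hc s hs).1, (hc s hs).2]

open Classical in
lemma PM.nu1_bd {x : M.C 2} (y : M.C 1) {b : Q} {s t : V} (hst : s < t)
    (hx : x.1.1 = (b, {s, t})) : M.dR 1 x y =
      ((if y.1.1 = (b * M.g s, {t}) then 1 else 0) - if y.1.1 = (b, {t}) then 1 else 0) -
      ((if y.1.1 = (b * M.g t, {s}) then 1 else 0) - if y.1.1 = (b, {s}) then 1 else 0) := by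
  have e1 : ({s, t} : Finset V).erase s = {t} := by
    rw [Finset.erase_insert]; simpa using hst.ne
  have e2 : ({s, t} : Finset V).erase t = {s} := by
    rw [Finset.pair_comm, Finset.erase_insert]; simpa using hst.ne'
  have s1 : sgn s {s, t} = 1 := by
    simp [sgn, Finset.filter_insert, Finset.filter_singleton, hst.not_gt]
  have s2 : sgn t {s, t} = -1 := by
    simp [sgn, Finset.filter_insert, Finset.filter_singleton, hst]
  simp only [PM.dR, PM.dZ, PM.bd, map_apply, submatrix_apply, of_apply, hx]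
  rw [Finset.sum_pair hst.ne, e1, e2, s1, s2]
  push_cast
  ring

lemma PM.nu1_lev [Finite Q] {ε : ℝ} (hε : 0 < ε) :
    ∑ x ∈ Finset.range 8, ld ε (sub (M.dR 1) (M.nu1_R x) (M.nu1_C x)) ≤ ld ε M.UU := by
  refine le_trans (le_of_eq (Finset.sum_congr rfl fun x _ => ?_))
    (ld_lev M.UU hε (fun i => nu1_lr i.1.1.1.2) (fun j => nu1_lc j.1.1.1.2 (M.p j.1.1.1.1 vz))
      ?_ (Finset.range 8) fun i => nu1_lt _)
  · refine (ld_sign _ _
      (Equiv.subtypeSubtypeEquivSubtypeInter (fun i : M.C 2 => ¬M.pb i)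
        fun i => nu1_lr i.1.1.2 = x)
      (Equiv.subtypeSubtypeEquivSubtypeInter (fun j : M.C 1 => ¬M.pa j)
        fun j => nu1_lc j.1.1.2 (M.p j.1.1.1 vz) = x) 1 1 (by simp) (by simp) fun i j => ?_).symm
    simp only [Pi.one_apply, one_mul]
    rfl
  · rintro ⟨i, hi⟩ ⟨j, hj⟩ h
    obtain ⟨s, hs, h⟩ := M.nu1_nz h
    obtain ⟨e, he, hT⟩ := clique_two i.1.2.1 i.2
    have := nu1_d0 e he s (hT ▸ hs) (M.p i.1.1.1 vy0) (M.p i.1.1.1 vz) (hT ▸ hi)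
    rw [← hT] at this
    change j.1.1 = (i.1.1.1 * _, i.1.1.2.erase s) ∨ j.1.1 = (i.1.1.1, i.1.1.2.erase s) at h
    change nu1_lr i.1.1.2 ≤ nu1_lc j.1.1.2 (M.p j.1.1.1 vz)
    unfold PM.pa at hj
    rcases h with h | h
    · rw [h] at hj ⊢
      rw [M.p_mul_g]
      exact (this hj).2
    · rw [h] at hj ⊢
      exact (this hj).1

lemma nu1_cyc {γ ε : ℝ} (hγ : 0 < γ) (hε : 0 < ε) : ∃ j, ∀ (Q : Type) [Group Q] [Finite Q]
    (M : FM j Q), ∀ d ∈ nu1_L, -(γ * Nat.card Q) ≤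
      ld ε (sub (M.toPM.dR 1) (M.toPM.nu1_R d.1) (M.toPM.nu1_C d.1)) := by
  obtain ⟨k0, hk⟩ := PM.cyc hγ hε
  refine ⟨2 * k0, fun Q _ _ M d hd => ?_⟩
  obtain ⟨h1, h2, h3, h4, h5, h6⟩ := nu1_d3 d hd
  refine (hk Q M.toPM 1 {d.2.1} d.2.2.1 d.2.2.2 (fun q => d.1 = 5 ∨ d.1 = 6 → M.p q vz = 0) _ _ h1
    (by simpa using h2.ne) (by simpa using h3.ne) (nu1_clq h2) (nu1_clq h3) (by simp)
    (fun q hq h => by simp [M.toPM.p_mul_g, h4, hq h])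
    (fun q hq h => by simp [M.toPM.p_mul_g, h5, hq h])
    (fun k k1 k2 => M.ord h6 k1 (by omega)) (fun x => ?_) fun y => ?_).2.1
  · obtain ⟨e, he, hT⟩ := clique_two x.1.2.1 x.2
    have := nu1_d1 d hd e he (M.p x.1.1.1 vy0) (M.p x.1.1.1 vz)
    rw [← hT] at this
    exact this
  · obtain ⟨s, hT⟩ := Finset.card_eq_one.1 y.2
    have := nu1_d2 d hd s (M.p y.1.1.1 vz)
    rw [← hT] at this
    exact this

def PM.nu1_m1 (b : Q) (s : V) (h : M.p b s = 0) : M.C 1 :=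
  ⟨⟨(b, {s}), by simp, by simpa using h⟩, rfl⟩

def PM.nu1_m2 (b : Q) (s t : V) (h : L11.Adj s t) (hs : M.p b s = 0) (ht : M.p b t = 0) : M.C 2 :=
  ⟨⟨(b, {s, t}), nu1_clq h, by simp [hs, ht]⟩, Finset.card_pair h.ne⟩

lemma PM.nu1_ne (q : Q) (s : V) : q * M.g s ≠ q := fun h => by
  have := M.p_mul_g q s s
  rw [h] at this
  simp at this

lemma PM.nu1_four [Finite Q] {ε : ℝ} (hε : 0 < ε) :
    0 ≤ ld ε (sub (M.dR 1) (M.nu1_R 4) (M.nu1_C 4)) := by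
  classical
  have h : ∀ i : {i // M.nu1_R 4 i}, ∃ j : {j // M.nu1_C 4 j}, ∃ y, y < vz ∧
      i.1.1.1 = (i.1.1.1.1, {y, vz}) ∧ j.1.1.1 = (i.1.1.1.1 * M.g vz, {y}) := by
    rintro ⟨i, hi⟩
    obtain ⟨e, he, hT⟩ := clique_two i.1.2.1 i.2
    have h4 := nu1_d4 e he (hT ▸ hi.2)
    rw [← hT] at h4
    have hz : M.p i.1.1.1 vz = 0 := i.1.2.2 _ (by rcases h4 with h | h <;> simp [h])
    obtain ⟨y, hy, h⟩ : ∃ y, (y = vy0 ∨ y = vyh) ∧ i.1.1.2 = {y, vz} :=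
      h4.elim (fun h => ⟨_, .inl rfl, h⟩) fun h => ⟨_, .inr rfl, h⟩
    have hy0 : M.p i.1.1.1 y = 0 := i.1.2.2 _ (by simp [h])
    have hl : y < vz := by rcases hy with rfl | rfl <;> decide
    refine ⟨⟨M.nu1_m1 (i.1.1.1 * M.g vz) y (by simp [M.p_mul_g, hy0, hl.ne]), ?_⟩, y, hl,
      Prod.ext rfl h, rfl⟩
    simp only [PM.nu1_C, PM.pa, PM.nu1_m1, M.p_mul_g, hz]
    rcases hy with rfl | rfl <;> decide
  choose piv y hl h1 h2 using h
  have hz : ∀ i : {i // M.nu1_R 4 i}, M.p i.1.1.1.1 vz = 0 := fun i =>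
    i.1.1.2.2 _ (by rw [h1 i]; simp)
  have key : ∀ i j : {i // M.nu1_R 4 i}, (piv j).1.1.1 = (piv i).1.1.1 → i = j := fun i j h => by
    rw [h2, h2, Prod.mk.injEq, mul_left_inj, Finset.singleton_inj] at h
    refine Subtype.ext (Subtype.ext (Subtype.ext ?_))
    rw [h1 i, h1 j, h.1, h.2]
  have ent : ∀ i j, sub (M.dR 1) (M.nu1_R 4) (M.nu1_C 4) i (piv j) =
      if (piv j).1.1.1 = (piv i).1.1.1 then -1 else 0 := fun i j => by
    have : j.1.1.1.1 * M.g vz ≠ i.1.1.1.1 := fun h => by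
      have := hz i
      rw [← h, M.p_mul_g, hz j] at this
      simp at this
    rw [sub, submatrix_apply, M.nu1_bd _ (hl i) (h1 i), ← h2 i]
    simp only [h2 j, Prod.mk.injEq, Finset.singleton_inj, (hl j).ne, this, and_false, false_and,
      if_false]
    split_ifs <;> simp
  refine ld_utl _ hε (piv := piv) (fun i j h => key _ _ (by rw [h])) 0 (fun i => by simp [ent])
    fun i j h => .inl (key _ _ ?_)
  by_contra hc
  exact h (by rw [ent, if_neg hc])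

/-- The base vertex of the edge of type `s` at `q`, and the orientation sign. -/
def PM.nu1_bs (q : Q) (s : V) : Q := if M.p q s = 0 then q else q * M.g s

def PM.nu1_sg (q : Q) (s : V) : ℝ := if M.p q s = 0 then 1 else -1

lemma nu1_z2 : ∀ a : ZMod 2, (a ≠ 0 → a + 1 = 0) ∧ a + 1 ≠ a ∧ ∀ c, a = c ∨ a + 1 = c := by
  decide

lemma PM.nu1_sg_sq (q : Q) (s : V) : M.nu1_sg q s ^ 2 = 1 := by
  unfold PM.nu1_sg; split_ifs <;> simp

lemma PM.nu1_bs_self (q : Q) (s : V) : M.p (M.nu1_bs q s) s = 0 := by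
  unfold PM.nu1_bs
  split_ifs with h
  · exact h
  · rw [M.p_mul_g, if_pos rfl]; exact (nu1_z2 _).1 h

lemma PM.nu1_bs_ne (q : Q) {s t : V} (h : t ≠ s) : M.p (M.nu1_bs q s) t = M.p q t := by
  unfold PM.nu1_bs
  split_ifs <;> simp [M.p_mul_g, h]

lemma PM.nu1_bs_mul (q : Q) {s t : V} (h : L11.Adj s t) :
    M.nu1_bs (q * M.g t) s = M.nu1_bs q s * M.g t := by
  unfold PM.nu1_bs
  rw [M.p_mul_g, if_neg h.ne, add_zero]
  split_ifs
  · rfl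
  · rw [mul_assoc, mul_assoc, M.cm _ _ h]

lemma PM.nu1_flip (q : Q) {s : V} (h : s = va0 ∨ s = va1 ∨ s = vyh) :
    M.ka (q * M.g s) = M.ka q + 1 := by
  rcases h with rfl | rfl | rfl <;> simp +decide [PM.ka, M.p_mul_g] <;> ring

lemma PM.nu1_fix (q : Q) {s : V} (h : s = vy0 ∨ s = vx0 ∨ s = vx1 ∨ s = vw) :
    M.ka (q * M.g s) = M.ka q := by
  rcases h with rfl | rfl | rfl | rfl <;> simp +decide [PM.ka, M.p_mul_g]

lemma PM.nu1_inj {q u : Q} {s : V} (hs : s = va0 ∨ s = va1 ∨ s = vyh) (hk : M.ka q = M.ka u)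
    (h : M.nu1_bs q s = M.nu1_bs u s) : q = u := by
  unfold PM.nu1_bs at h
  split_ifs at h
  · exact h
  · rw [h, M.nu1_flip _ hs] at hk; exact absurd hk (nu1_z2 _).2.1
  · rw [← h, M.nu1_flip _ hs] at hk; exact absurd hk.symm (nu1_z2 _).2.1
  · exact mul_right_cancel h

lemma PM.nu1_surj {b : Q} {s : V} (hs : s = va0 ∨ s = va1 ∨ s = vyh) (hb : M.p b s = 0)
    (c : ZMod 2) : ∃ q, M.ka q = c ∧ M.nu1_bs q s = b ∧ ∀ t, t ≠ s → M.p q t = M.p b t := by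
  rcases (nu1_z2 (M.ka b)).2.2 c with h | h
  · exact ⟨b, h, if_pos hb, fun _ _ => rfl⟩
  · refine ⟨b * M.g s, by rw [M.nu1_flip _ hs, h], ?_, fun t ht => by simp [M.p_mul_g, ht]⟩
    rw [PM.nu1_bs, if_neg (by simp [M.p_mul_g, hb]), mul_assoc, M.sq, mul_one]

lemma PM.nu1_ak (q : Q) : M.ak q = va0 ∨ M.ak q = va1 ∨ M.ak q = vyh := by
  unfold PM.ak; split_ifs <;> simp

lemma PM.nu1_akw (q : Q) : M.ak q ≠ vw ∧ M.ak q ≠ vyh := by
  unfold PM.ak; split_ifs <;> decide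

lemma PM.nu1_ea {q u : Q} :
    (M.nu1_bs u (M.ak u), ({M.ak u} : Finset V)) = (M.nu1_bs q (M.ak q), {M.ak q}) ↔ q = u := by
  refine ⟨fun h => ?_, by rintro rfl; rfl⟩
  rw [Prod.mk.injEq, Finset.singleton_inj] at h
  refine M.nu1_inj (M.nu1_ak q) ?_ (by rw [← h.1, h.2])
  have := h.2
  unfold PM.ak at this
  revert this
  generalize M.ka q = a
  generalize M.ka u = c
  revert a c
  decide

/-- The second letters of the squares at the edges of types `a0`, `a1`. -/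
def PM.nu1_T (q : Q) (t : V) : Prop := t = vy0 ∨ t = M.xk q ∨ t = vw

lemma PM.nu1_T.h {M : PM L11 Q} {q : Q} {t : V} (h : M.nu1_T q t) : M.ak q < t ∧
    L11.Adj (M.ak q) t ∧ (t = vy0 ∨ t = vx0 ∨ t = vx1 ∨ t = vw) ∧ ∀ u, M.ak u ≠ t := by
  unfold PM.nu1_T PM.xk at h
  unfold PM.ak
  refine ⟨?_, ?_, ?_, fun u => ?_⟩ <;> split_ifs at h ⊢ <;> rcases h with rfl | rfl | rfl <;> decide

open Classical in
lemma PM.nu1_e1 {x : M.C 2} {y : M.C 1} {q u : Q} {t : V} (ht : M.nu1_T q t)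
    (hx : x.1.1 = (M.nu1_bs q (M.ak q), {M.ak q, t}))
    (hy : y.1.1 = (M.nu1_bs u (M.ak u), {M.ak u})) :
    ((if q = u then 1 else 0) - if q * M.g t = u then 1 else 0) =
      M.nu1_sg q (M.ak q) * M.nu1_sg u (M.ak u) * M.dR 1 x y := by
  obtain ⟨h1, h2, h3, h4⟩ := ht.h
  have ha : M.ak (q * M.g t) = M.ak q := by simp only [PM.ak, M.nu1_fix q h3]
  have hs : M.nu1_sg (q * M.g t) (M.ak (q * M.g t)) = M.nu1_sg q (M.ak q) := by
    simp [PM.nu1_sg, ha, M.p_mul_g, h1.ne]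
  have e := M.nu1_ea (q := q * M.g t) (u := u)
  rw [ha, M.nu1_bs_mul _ h2] at e
  have sq := M.nu1_sg_sq q (M.ak q)
  rw [M.nu1_bd y h1 hx, hy]
  simp only [e, M.nu1_ea]
  simp only [Prod.mk.injEq, Finset.singleton_inj, h4 u, and_false, if_false]
  by_cases a : q = u <;> by_cases b : q * M.g t = u
  · exact absurd (b.trans a.symm) (M.nu1_ne q t)
  · subst a; simp only [if_neg b, if_true]; linear_combination -sq
  · subst b; simp only [if_neg a, if_true, hs]; linear_combination sq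
  · simp [a, b]

open Classical in
lemma PM.nu1_e2 {x : M.C 2} {y : M.C 1} {q o : Q} {t : V} (ht : M.nu1_T q t)
    (hx : x.1.1 = (M.nu1_bs q (M.ak q), {M.ak q, t})) (hy : y.1.1 = (o, {vw})) :
    (if t = vw then (if q * M.g (M.ak q) = o then 1 else 0) - if q = o then 1 else 0 else 0) =
      M.nu1_sg q (M.ak q) * 1 * M.dR 1 x y := by
  rw [M.nu1_bd y ht.h.1 hx, hy]
  simp only [Prod.mk.injEq, Finset.singleton_inj, (M.nu1_akw q).1.symm, and_false, if_false,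
    eq_comm (a := o), eq_comm (a := vw), PM.nu1_bs, PM.nu1_sg]
  by_cases h : t = vw <;> by_cases h' : M.p q (M.ak q) = 0 <;> simp [h, h', mul_assoc, M.sq]

open Classical in
lemma PM.nu1_e3 {x : M.C 2} {y : M.C 1} {q o : Q}
    (hx : x.1.1 = (M.nu1_bs q vyh, {vw, vyh})) (hy : y.1.1 = (o, {vw})) :
    ((if q = o then 1 else 0) - if q * M.g vyh = o then 1 else 0) =
      M.nu1_sg q vyh * 1 * M.dR 1 x y := by
  rw [M.nu1_bd y (by decide) hx, hy]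
  simp only [Prod.mk.injEq, Finset.singleton_inj, show vw ≠ vyh by decide, and_false, if_false,
    eq_comm (a := o), PM.nu1_bs, PM.nu1_sg]
  by_cases h' : M.p q vyh = 0 <;> simp [h', mul_assoc, M.sq]

lemma PM.nu1_e4 {x : M.C 2} {y : M.C 1} {b c u : Q}
    (hx : x.1.1 = (b, {vw, vyh})) (hy : y.1.1 = (c, {M.ak u})) : M.dR 1 x y = 0 := by
  rw [M.nu1_bd y (by decide) hx, hy]
  simp [(M.nu1_akw u).1, (M.nu1_akw u).2]

def PM.nu1_row : {q : Q // M.p q vy0 = 0} ⊕ M.Cols ⊕ {q : Q // M.p q vw = 0} ⊕ M.Rows →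
    Q × Finset V
  | .inl q => (M.nu1_bs q.1 (M.ak q.1), {M.ak q.1, vy0})
  | .inr (.inl q) => (M.nu1_bs q.1 (M.ak q.1), {M.ak q.1, M.xk q.1})
  | .inr (.inr (.inl q)) => (M.nu1_bs q.1 (M.ak q.1), {M.ak q.1, vw})
  | .inr (.inr (.inr q)) => (M.nu1_bs q.1 vyh, {vw, vyh})

def PM.nu1_col : Q ⊕ {q : Q // M.p q vw = 0} → Q × Finset V
  | .inl u => (M.nu1_bs u (M.ak u), {M.ak u})
  | .inr o => (o.1, {vw})

lemma PM.nu1_xk (q : Q) : M.xk q ≠ vy0 ∧ M.xk q ≠ vw := by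
  unfold PM.xk; split_ifs <;> decide

lemma PM.nu1_pair {q u : Q} {t t' : V} (ht : M.nu1_T q t) (ht' : M.nu1_T u t')
    (h : (M.nu1_bs q (M.ak q), ({M.ak q, t} : Finset V)) = (M.nu1_bs u (M.ak u), {M.ak u, t'})) :
    q = u ∧ t = t' := by
  rw [Prod.mk.injEq] at h
  have h1 : M.ak q ∈ ({M.ak u, t'} : Finset V) := h.2 ▸ by simp
  have h2 : t ∈ ({M.ak u, t'} : Finset V) := h.2 ▸ by simp
  simp only [Finset.mem_insert, Finset.mem_singleton, ht'.h.2.2.2 q, (ht.h.2.2.2 u).symm,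
    or_false, false_or] at h1 h2
  exact ⟨M.nu1_ea.1 (by rw [← h.1, h1]), h2⟩

lemma PM.nu1_pair' {q : Q} {t : V} (_ht : M.nu1_T q t) :
    ({M.ak q, t} : Finset V) ≠ {vw, vyh} := fun h => by
  have h1 : M.ak q ∈ ({vw, vyh} : Finset V) := h ▸ by simp
  simp [(M.nu1_akw q).1, (M.nu1_akw q).2] at h1

lemma PM.nu1_row_inj : Function.Injective M.nu1_row := by
  have t1 : ∀ q, M.nu1_T q vy0 := fun q => .inl rfl
  have t2 : ∀ q, M.nu1_T q (M.xk q) := fun q => .inr (.inl rfl)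
  have t3 : ∀ q, M.nu1_T q vw := fun q => .inr (.inr rfl)
  rintro (q | q | q | q) (u | u | u | u) h
  · rw [Subtype.ext (M.nu1_pair (t1 _) (t1 _) h).1]
  · exact absurd (M.nu1_pair (t1 _) (t2 _) h).2.symm (M.nu1_xk _).1
  · exact absurd (M.nu1_pair (t1 _) (t3 _) h).2 (by decide)
  · exact absurd (congrArg Prod.snd h) (M.nu1_pair' (t1 _))
  · exact absurd (M.nu1_pair (t2 _) (t1 _) h).2 (M.nu1_xk _).1
  · rw [Subtype.ext (M.nu1_pair (t2 _) (t2 _) h).1]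
  · exact absurd (M.nu1_pair (t2 _) (t3 _) h).2 (M.nu1_xk _).2
  · exact absurd (congrArg Prod.snd h) (M.nu1_pair' (t2 _))
  · exact absurd (M.nu1_pair (t3 _) (t1 _) h).2 (by decide)
  · exact absurd (M.nu1_pair (t3 _) (t2 _) h).2.symm (M.nu1_xk _).2
  · rw [Subtype.ext (M.nu1_pair (t3 _) (t3 _) h).1]
  · exact absurd (congrArg Prod.snd h) (M.nu1_pair' (t3 _))
  · exact absurd (congrArg Prod.snd h).symm (M.nu1_pair' (t1 _))
  · exact absurd (congrArg Prod.snd h).symm (M.nu1_pair' (t2 _))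
  · exact absurd (congrArg Prod.snd h).symm (M.nu1_pair' (t3 _))
  · rw [Subtype.ext (M.nu1_inj (.inr (.inr rfl)) (q.2.2.trans u.2.2.symm) (congrArg Prod.fst h))]

lemma PM.nu1_col_inj : Function.Injective M.nu1_col := by
  rintro (q | q) (u | u) h
  · rw [M.nu1_ea.1 h]
  · exact absurd (Finset.singleton_inj.1 (congrArg Prod.snd h)) (M.nu1_akw _).1
  · exact absurd (Finset.singleton_inj.1 (congrArg Prod.snd h)).symm (M.nu1_akw _).1
  · rw [Subtype.ext (congrArg Prod.fst h : q.1 = u.1)]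

lemma PM.nu1_mk {q : Q} {t : V} (h : t = vy0 ∨ (t = M.xk q ∧ M.p q vy0 = 0) ∨ t = vw)
    (h0 : M.p q t = 0) :
    ∃ i : {i // M.nu1_R 3 i}, i.1.1.1 = (M.nu1_bs q (M.ak q), {M.ak q, t}) := by
  have ht : M.nu1_T q t := h.imp_right (Or.imp_left And.left)
  refine ⟨⟨M.nu1_m2 _ _ _ ht.h.2.1 (M.nu1_bs_self _ _) ?_, ?_⟩, rfl⟩
  · rw [M.nu1_bs_ne _ ht.h.1.ne', h0]
  · refine nu1_d6 (M.ka q) _ _ t ?_
    change t = vy0 ∨ (t = M.xk q ∧ M.p (M.nu1_bs q (M.ak q)) vy0 = 0) ∨ t = vw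
    rwa [M.nu1_bs_ne _ (PM.nu1_T.h (t := vy0) (q := q) (.inl rfl)).1.ne']

lemma PM.nu1_row_eq : ∃ e : _ ≃ {i // M.nu1_R 3 i}, ∀ r, (e r).1.1.1 = M.nu1_row r := by
  have h : ∀ r, ∃ i : {i // M.nu1_R 3 i}, i.1.1.1 = M.nu1_row r := by
    rintro (q | q | q | q)
    · exact M.nu1_mk (.inl rfl) q.2
    · exact M.nu1_mk (.inr (.inl ⟨rfl, q.2.2⟩)) q.2.1
    · exact M.nu1_mk (.inr (.inr rfl)) q.2
    · exact ⟨⟨M.nu1_m2 _ vw vyh (by decide) (by rw [M.nu1_bs_ne _ (by decide), q.2.1])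
        (M.nu1_bs_self _ _), nu1_d7 _ _⟩, rfl⟩
  choose e he using h
  refine ⟨Equiv.ofBijective e ⟨fun a b h => M.nu1_row_inj (by rw [← he, ← he, h]), fun i => ?_⟩,
    he⟩
  suffices ∃ r, M.nu1_row r = i.1.1.1 by
    obtain ⟨r, hr⟩ := this
    exact ⟨r, Subtype.ext (Subtype.ext (Subtype.ext (by rw [he, hr])))⟩
  obtain ⟨i, hi⟩ := i
  obtain ⟨d, hd, hT⟩ := clique_two i.1.2.1 i.2
  have h1 : M.p i.1.1.1 d.1 = 0 := i.1.2.2 _ (by simp [hT])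
  have h2 : M.p i.1.1.1 d.2 = 0 := i.1.2.2 _ (by simp [hT])
  rcases nu1_d5 d hd (M.p i.1.1.1 vy0) (M.p i.1.1.1 vz) (hT ▸ hi.1) (hT ▸ hi.2) with ⟨c, h⟩ | h
  · have ha : d.1 = if c = 0 then va0 else va1 := by rcases h with h | h | h <;> simp [h]
    obtain ⟨q, q1, q2, q3⟩ := M.nu1_surj (s := d.1) (by rw [ha]; split_ifs <;> simp) h1 c
    have hq : M.ak q = d.1 := by rw [ha, PM.ak, q1]
    have hy := q3 vy0 (hq ▸ (PM.nu1_T.h (t := vy0) (q := q) (.inl rfl)).1.ne')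
    have hw := q3 vw (hq ▸ (M.nu1_akw q).1.symm)
    have hx := q3 (M.xk q) (hq ▸ (PM.nu1_T.h (q := q) (.inr (.inl rfl))).1.ne')
    have hr : ∀ t, d.2 = t → (M.nu1_bs q (M.ak q), ({M.ak q, t} : Finset V)) = i.1.1 := by
      rintro _ rfl
      rw [hq, q2, ← hT]
    rcases h with h | h | h
    · have : d.2 = vy0 := by rw [h]
      exact ⟨.inl ⟨q, by rw [hy, ← this, h2]⟩, hr _ this⟩
    · have : d.2 = M.xk q := by rw [h.1, PM.xk, q1]
      exact ⟨.inr (.inl ⟨q, by rw [hx, ← this, h2], by rw [hy, h.2]⟩), hr _ this⟩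
    · have : d.2 = vw := by rw [h]
      exact ⟨.inr (.inr (.inl ⟨q, by rw [hw, ← this, h2]⟩)), hr _ this⟩
  · subst h
    obtain ⟨q, q1, q2, q3⟩ := M.nu1_surj (.inr (.inr rfl)) h2 0
    exact ⟨.inr (.inr (.inr ⟨q, (q3 vw (by decide)).trans h1, q1⟩)), Prod.ext q2 hT.symm⟩

lemma PM.nu1_col_eq : ∃ f : _ ≃ {j // M.nu1_C 3 j}, ∀ c, (f c).1.1.1 = M.nu1_col c := by
  have h : ∀ c, ∃ j : {j // M.nu1_C 3 j}, j.1.1.1 = M.nu1_col c := by
    rintro (u | o)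
    · exact ⟨⟨M.nu1_m1 _ _ (M.nu1_bs_self u (M.ak u)), (nu1_d8 _ _).2 (.inl ⟨M.ka u, rfl⟩)⟩, rfl⟩
    · exact ⟨⟨M.nu1_m1 _ _ o.2, (nu1_d8 _ _).2 (.inr rfl)⟩, rfl⟩
  choose e he using h
  refine ⟨Equiv.ofBijective e ⟨fun a b h => M.nu1_col_inj (by rw [← he, ← he, h]), fun i => ?_⟩,
    he⟩
  suffices ∃ r, M.nu1_col r = i.1.1.1 by
    obtain ⟨r, hr⟩ := this
    exact ⟨r, Subtype.ext (Subtype.ext (Subtype.ext (by rw [he, hr])))⟩
  obtain ⟨i, hi⟩ := i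
  obtain ⟨s, hT⟩ := Finset.card_eq_one.1 i.2
  have h1 : M.p i.1.1.1 s = 0 := i.1.2.2 _ (by simp [hT])
  rcases (nu1_d8 (M.p i.1.1.1 vz) s).1 (hT ▸ hi) with ⟨c, h⟩ | rfl
  · obtain ⟨q, q1, q2, -⟩ := M.nu1_surj (s := s) (by rw [h]; split_ifs <;> simp) h1 c
    have hq : M.ak q = s := by rw [h, PM.ak, q1]
    exact ⟨.inl q, by rw [PM.nu1_col, hq, q2, ← hT]⟩
  · exact ⟨.inr ⟨_, h1⟩, Prod.ext rfl hT.symm⟩

lemma PM.nu1_three [Finite Q] (ε : ℝ) :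
    ld ε (M.Ablk 1) = ld ε (sub (M.dR 1) (M.nu1_R 3) (M.nu1_C 3)) := by
  obtain ⟨e, he⟩ := M.nu1_row_eq
  obtain ⟨f, hf⟩ := M.nu1_col_eq
  refine ld_sign _ _ e f
    (Sum.elim (fun q => M.nu1_sg q.1 (M.ak q.1)) (Sum.elim (fun q => M.nu1_sg q.1 (M.ak q.1))
      (Sum.elim (fun q => M.nu1_sg q.1 (M.ak q.1)) fun q => M.nu1_sg q.1 vyh)))
    (Sum.elim (fun u => M.nu1_sg u (M.ak u)) fun _ => 1)
    (by rintro (q | q | q | q) <;> exact M.nu1_sg_sq _ _)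
    (by rintro (u | u); exacts [M.nu1_sg_sq _ _, one_pow 2]) ?_
  rintro (q | q | q | q) (u | u)
  · exact M.nu1_e1 (.inl rfl) (he _) (hf _)
  · exact (if_neg (by decide)).symm.trans (M.nu1_e2 (.inl rfl) (he _) (hf _))
  · exact M.nu1_e1 (.inr (.inl rfl)) (he _) (hf _)
  · exact (if_neg (M.nu1_xk _).2).symm.trans (M.nu1_e2 (.inr (.inl rfl)) (he _) (hf _))
  · exact M.nu1_e1 (.inr (.inr rfl)) (he _) (hf _)
  · refine Eq.trans ?_ (M.nu1_e2 (.inr (.inr rfl)) (he _) (hf _))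
    simp [PM.Ablk]
  · rw [sub, submatrix_apply, M.nu1_e4 (he _) (hf _), mul_zero]
    rfl
  · exact M.nu1_e3 (he _) (hf _)

theorem u_ge {γ ε : ℝ} (hγ : 0 < γ) (hε : 0 < ε) : ∃ j, ∀ (Q : Type) [Group Q] [Finite Q]
    (M : FM j Q), ld ε (M.toPM.Ablk 1) - γ * Nat.card Q ≤ ld ε M.toPM.UU := by
  obtain ⟨j, hj⟩ := nu1_cyc (γ := γ / 6) (by positivity) hε
  refine ⟨j, fun Q _ _ M => ?_⟩
  have h := M.toPM.nu1_lev hε
  have h4 := M.toPM.nu1_four hε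
  have := hj Q M
  simp only [nu1_L, List.forall_mem_cons] at this
  simp only [Finset.sum_range_succ, Finset.sum_range_zero] at h
  rw [M.toPM.nu1_three]
  linarith [this.1, this.2.1, this.2.2.1, this.2.2.2.1, this.2.2.2.2.1, this.2.2.2.2.2.1]

end

end Pool.Agent.Lib.MP_b65ff2_gt
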