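import Pool.Agent.Lib.MP_b65ff2_gt.NL11

namespace Pool.Agent.Lib.MP_b65ff2_gt

open Matrix Filter Topology

set_option linter.unusedSectionVars false

noncomputable section

lemma nu2_half {Q : Type} [Finite Q] (σ : Q → Q) (hσ : Function.Injective σ) (P φ R : Q → Prop)
    (hR : ∀ q, R q ↔ P q ∧ φ q) (h1 : ∀ q, P q → P (σ q)) (h2 : ∀ q, φ (σ q) ↔ ¬φ q) :
    2 * Nat.card {q // R q} = Nat.card {q // P q} := by
  classical
  have e : Nat.card {q // P q} = Nat.card {q // R q} + Nat.card {q // P q ∧ ¬φ q} := by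
    rw [← Nat.card_sum]
    refine Nat.card_congr ?_
    refine (Equiv.sumCompl fun x : {q // P q} => φ x.1).symm.trans (Equiv.sumCongr ?_ ?_)
    · exact (Equiv.subtypeSubtypeEquivSubtypeInter P φ).trans
        (Equiv.subtypeEquivRight fun q => (hR q).symm)
    · exact Equiv.subtypeSubtypeEquivSubtypeInter P fun q => ¬φ q
  have a : Nat.card {q // R q} ≤ Nat.card {q // P q ∧ ¬φ q} :=
    Nat.card_le_card_of_injective
      (fun x => ⟨σ x.1, h1 _ ((hR _).1 x.2).1, fun h => (h2 _).1 h ((hR _).1 x.2).2⟩)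
      fun x y h => Subtype.ext (hσ (congrArg Subtype.val h))
  have b : Nat.card {q // P q ∧ ¬φ q} ≤ Nat.card {q // R q} :=
    Nat.card_le_card_of_injective
      (fun x => ⟨σ x.1, (hR _).2 ⟨h1 _ x.2.1, (h2 _).2 x.2.2⟩⟩)
      fun x y h => Subtype.ext (hσ (congrArg Subtype.val h))
  omega

lemma nu2_row {n Q ι κ : Type} [Fintype ι] [Fintype κ] (v : n → ℝ) (e : n → Q × κ)
    (he : Function.Injective e) (φ : ι → Q) {C : ℝ} (hC : 0 ≤ C) (h1 : ∀ j, |v j| ≤ C)
    (h2 : ∀ j, v j ≠ 0 → ∃ t, (e j).1 = φ t) (s : Finset n) :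
    ∑ j ∈ s, |v j| ≤ C * (Fintype.card ι * Fintype.card κ) := by
  classical
  rw [← Finset.sum_filter_of_ne (p := fun j => v j ≠ 0) fun j _ h => by simpa using h]
  have c : (s.filter fun j => v j ≠ 0).card ≤ Fintype.card ι * Fintype.card κ := by
    have : (s.filter fun j => v j ≠ 0).card ≤
        ((Finset.univ.image φ) ×ˢ (Finset.univ : Finset κ)).card := by
      refine Finset.card_le_card_of_injOn e (fun j hj => ?_) he.injOn
      obtain ⟨t, ht⟩ := h2 j (by simpa using (Finset.mem_filter.1 hj).2)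
      simp [ht]
    refine this.trans ?_
    rw [Finset.card_product, Finset.card_univ]
    exact Nat.mul_le_mul_right _ (Finset.card_image_le.trans (by simp))
  refine (Finset.sum_le_card_nsmul _ _ C fun j _ => h1 j).trans ?_
  rw [nsmul_eq_mul, mul_comm]
  exact mul_le_mul_of_nonneg_left (by exact_mod_cast c) hC

lemma nu2_rb {m n Q ι κ : Type} [Group Q] [Fintype ι] [Fintype κ] (A : Matrix m n ℝ)
    (e : m → Q × κ) (he : Function.Injective e) (e' : n → Q × κ) (he' : Function.Injective e')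
    (φ : ι → Q) {C : ℝ} (hC : 0 ≤ C) (h1 : ∀ i j, |A i j| ≤ C)
    (h2 : ∀ i j, A i j ≠ 0 → ∃ t, (e' j).1 = (e i).1 * φ t) :
    RB A (C * (Fintype.card ι * Fintype.card κ)) :=
  ⟨fun i => nu2_row (A i) e' he' (fun t => (e i).1 * φ t) hC (h1 i) (h2 i),
    fun j => nu2_row (fun i => A i j) e he (fun t => (e' j).1 * (φ t)⁻¹) hC (fun i => h1 i j)
      fun i h => by obtain ⟨t, ht⟩ := h2 i j h; exact ⟨t, by simp [ht]⟩⟩

lemma nu2_z1 (x : ZMod 2) : x + 1 = 0 ↔ ¬x = 0 := by revert x; decide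

lemma nu2_val {k : ℕ} [NeZero k] (x : ZMod k) (h : x + 1 ≠ 0) : (x + 1).val = x.val + 1 := by
  have e : x + 1 = ((x.val + 1 : ℕ) : ZMod k) := by simp
  have l := ZMod.val_lt x
  rcases (Nat.succ_le_of_lt l).lt_or_eq with l | l
  · rw [e, ZMod.val_natCast, Nat.mod_eq_of_lt l]
  · exact absurd (by rw [e, show x.val + 1 = k from l]; simp) h

variable {Q : Type} [Group Q]

section
variable (M : PM L11 Q)

lemma nu2_ka (q : Q) (s : V) : M.ka (q * M.g s) =
    M.ka q + if s = va0 ∨ s = va1 ∨ s = vyh ∨ s = vz then 1 else 0 := by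
  simp only [PM.ka, PM.p_mul_g]
  fin_cases s <;> simp +decide <;> ring

lemma nu2_xk (q : Q) : M.xk q = vx0 ∨ M.xk q = vx1 := by
  unfold PM.xk; split_ifs <;> simp

lemma nu2_ak (q : Q) : M.ak q = va0 ∨ M.ak q = va1 := by
  unfold PM.ak; split_ifs <;> simp

lemma nu2_xk_y (q : Q) : M.xk (q * M.g vy0) = M.xk q := by
  simp +decide [PM.xk, nu2_ka]

lemma nu2_xk_x (q : Q) : M.xk (q * M.g (M.xk q)) = M.xk q := by
  have : M.ka (q * M.g (M.xk q)) = M.ka q := by
    rcases nu2_xk M q with h | h <;> simp +decide [nu2_ka, h]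
  conv_lhs => rw [PM.xk, this]
  rfl

lemma nu2_p_y (q : Q) : M.p (q * M.g vy0) vy0 = M.p q vy0 + 1 := by simp [PM.p_mul_g]

lemma nu2_p_xy (q : Q) : M.p (q * M.g (M.xk q)) vy0 = M.p q vy0 := by
  rcases nu2_xk M q with h | h <;> simp +decide [PM.p_mul_g, h]

lemma nu2_p_yx (q : Q) : M.p (q * M.g vy0) (M.xk q) = M.p q (M.xk q) := by
  rcases nu2_xk M q with h | h <;> simp +decide [PM.p_mul_g, h]

lemma nu2_p_x (q : Q) :
    M.p (q * M.g (M.xk q)) (M.xk (q * M.g (M.xk q))) = M.p q (M.xk q) + 1 := by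
  rw [nu2_xk_x]; simp [PM.p_mul_g]

lemma nu2_gg (q : Q) (s : V) : q * M.g s * M.g s = q := by rw [mul_assoc, M.sq, mul_one]

lemma nu2_inj_x : Function.Injective fun q => q * M.g (M.xk q) :=
  Function.LeftInverse.injective (g := fun q => q * M.g (M.xk q)) fun q => by
    simp only [nu2_xk_x, nu2_gg]

lemma nu2_be_col {q : Q} (h1 : M.p q (M.xk q) = 0) (h2 : M.p q vy0 = 0) : M.be q = q := by
  simp [PM.be, h1, h2]

lemma nu2_be_y {q : Q} (h : M.p q vy0 = 0) : M.be (q * M.g vy0) = M.be q := by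
  have c : M.g vy0 * M.g (M.xk q) = M.g (M.xk q) * M.g vy0 :=
    M.cm _ _ (by rcases nu2_xk M q with h | h <;> rw [h] <;> decide)
  simp only [PM.be, nu2_xk_y, nu2_p_yx, nu2_p_y, h, zero_add, one_ne_zero, if_true, if_false]
  split_ifs
  · simp [nu2_gg]
  · rw [mul_assoc q, c, ← mul_assoc, nu2_gg, mul_one]

lemma nu2_be_x {q : Q} (h1 : M.p q (M.xk q) = 0) (h2 : M.p q vy0 = 0) :
    M.be (q * M.g (M.xk q)) = q := by
  have := nu2_p_x M q
  rw [nu2_xk_x] at this
  simp [PM.be, nu2_xk_x, this, nu2_p_xy, h1, h2, nu2_gg]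

def nu2_o : Option V → Q
  | none => 1
  | some s => M.g s

def nu2_w (t : Option V × Option V × Option V) : Q :=
  nu2_o M t.1 * nu2_o M t.2.1 * nu2_o M t.2.2

lemma nu2_be_w (q : Q) : ∃ a b, M.be q = q * nu2_o M a * nu2_o M b := by
  unfold PM.be
  split_ifs
  · exact ⟨none, none, rfl⟩
  · exact ⟨none, some _, rfl⟩
  · exact ⟨some _, none, rfl⟩
  · exact ⟨some _, some _, rfl⟩

variable [Finite Q]

lemma nu2_c1 : 2 * Nat.card {q : Q // M.p q vy0 = 0} = Nat.card Q := by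
  rw [nu2_half (· * M.g vy0) (mul_left_injective _) (fun _ => True) (M.p · vy0 = 0) _ (by simp)
    (by simp) fun q => by rw [nu2_p_y, nu2_z1]]
  simp

lemma nu2_c3 : 2 * Nat.card {q : Q // M.p q vw = 0} = Nat.card Q := by
  rw [nu2_half (· * M.g vw) (mul_left_injective _) (fun _ => True) (M.p · vw = 0) _ (by simp)
    (by simp) fun q => by simp [PM.p_mul_g, nu2_z1]]
  simp

lemma nu2_c2 : 2 * Nat.card M.Cols = Nat.card {q : Q // M.p q vy0 = 0} :=
  nu2_half _ (nu2_inj_x M) _ (fun q => M.p q (M.xk q) = 0) _ (fun _ => and_comm)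
    (fun q h => by rw [nu2_p_xy, h]) fun q => by rw [nu2_p_x, nu2_z1]

lemma nu2_c4 : 2 * Nat.card M.Rows = Nat.card {q : Q // M.p q vw = 0} :=
  nu2_half (· * M.g vyh) (mul_left_injective _) _ (M.ka · = 0) _ (fun _ => Iff.rfl)
    (fun q h => by simpa +decide [PM.p_mul_g] using h) fun q => by simp +decide [nu2_ka, nu2_z1]

end

open DihedralGroup

def nu2_rot {k : ℕ} : DihedralGroup k → ZMod 2
  | r _ => 0
  | sr _ => 1

def nu2_ht {k : ℕ} : DihedralGroup k → ZMod k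
  | r i => i
  | sr i => -i

lemma nu2_rot_mul {k : ℕ} (x y : DihedralGroup k) : nu2_rot (x * y) = nu2_rot x + nu2_rot y := by
  cases x <;> cases y <;> simp [nu2_rot] <;> decide

lemma nu2_rot_one {k : ℕ} : nu2_rot (1 : DihedralGroup k) = 0 := rfl

lemma nu2_rot_sr {k : ℕ} (i : ZMod k) : nu2_rot (sr i) = 1 := rfl

variable {j : ℕ} (M : FM j Q)

lemma nu2_rot_ka (q : Q) : nu2_rot (M.η q) = M.toPM.ka q := by
  induction q using M.toPM.ind with
  | h1 => rw [map_one]; simp [PM.ka, PM.p_one, nu2_rot_one]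
  | hs q s ih =>
    rw [map_mul, nu2_rot_mul, ih, nu2_ka, M.η_g]
    fin_cases s <;> simp +decide [nu2_rot_one, nu2_rot_sr]

def nu2_h (q : Q) : ZMod M.m3 := nu2_ht (M.η q)

lemma nu2_h_ak (q : Q) : nu2_h M (q * M.g (M.toPM.ak q)) = nu2_h M q + 1 := by
  have := nu2_rot_ka M q
  unfold nu2_h PM.ak
  rw [map_mul, M.η_g, ← this]
  cases M.η q <;> simp +decide [nu2_rot, nu2_ht] <;> ring

lemma nu2_h_g (q : Q) {s : V} (h0 : s ≠ va0) (h1 : s ≠ va1) :
    nu2_h M (q * M.g s) = nu2_h M q := by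
  unfold nu2_h
  rw [map_mul, M.η_g, if_neg h0, if_neg h1]
  split_ifs
  · cases M.η q <;> simp [nu2_ht]
  · rw [mul_one]

lemma nu2_h_left (k : ℕ) (q : Q) : nu2_h M ((M.g va0 * M.g vyh) ^ k * q) = nu2_h M q + k := by
  induction k with
  | zero => simp
  | succ k ih =>
    rw [pow_succ', mul_assoc, Nat.cast_succ, ← add_assoc, ← ih]
    unfold nu2_h
    rw [map_mul, map_mul, M.η_g, M.η_g]
    cases M.η ((M.g va0 * M.g vyh) ^ k * q) <;> simp +decide [nu2_ht] <;> ring

lemma nu2_card_h [Finite Q] (x : ZMod M.m3) :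
    M.m3 * Nat.card {q // nu2_h M q = x} ≤ Nat.card Q := by
  have := Nat.card_le_card_of_injective
    (fun y : Fin M.m3 × {q // nu2_h M q = x} => (M.g va0 * M.g vyh) ^ y.1.val * y.2.1)
    fun y z h => by
      have e := congrArg (nu2_h M) h
      simp only [nu2_h_left, y.2.2, z.2.2, add_right_inj] at e
      have e1 : y.1 = z.1 := by
        have := congrArg ZMod.val e
        rw [ZMod.val_natCast, ZMod.val_natCast, Nat.mod_eq_of_lt y.1.2,
          Nat.mod_eq_of_lt z.1.2] at this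
        exact Fin.ext this
      simp only [e1, mul_right_inj] at h
      exact Prod.ext e1 (Subtype.ext h)
  simpa using this

end

end Pool.Agent.Lib.MP_b65ff2_gt
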