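import Pool.Agent.Lib.MP_b65ff2_gt.NCell
import Pool.Agent.Lib.MP_b65ff2_gt.NDet2
import Pool.Agent.Lib.MP_b65ff2_gt.NU2A

namespace Pool.Agent.Lib.MP_b65ff2_gt

open Matrix Filter Topology

set_option linter.unusedSectionVars false

noncomputable section

section
variable {Q : Type} [Group Q] (M : PM L11 Q)

abbrev nu2_m : Type := {q : Q // M.p q vy0 = 0} ⊕ M.Cols ⊕ {q : Q // M.p q vw = 0} ⊕ M.Rows

abbrev nu2_n : Type := Q ⊕ {q : Q // M.p q vw = 0}

def nu2_em : nu2_m M → Q × Fin 4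
  | .inl q => (q.1, 0)
  | .inr (.inl q) => (q.1, 1)
  | .inr (.inr (.inl q)) => (q.1, 2)
  | .inr (.inr (.inr q)) => (q.1, 3)

def nu2_en : nu2_n M → Q × Fin 4
  | .inl q => (q, 0)
  | .inr q => (q.1, 1)

lemma nu2_em_inj : Function.Injective (nu2_em M) := by
  rintro (a | a | a | a) (b | b | b | b) h <;> simp_all +decide [nu2_em, Subtype.ext_iff]

lemma nu2_en_inj : Function.Injective (nu2_en M) := by
  rintro (a | a) (b | b) h <;> simp_all +decide [nu2_en, Subtype.ext_iff]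

def nu2_c : ℝ := 2 * (Fintype.card (Option V × Option V × Option V) * Fintype.card (Fin 4))

lemma nu2_ne {a b : Prop} [Decidable a] [Decidable b]
    (h : (if a then 1 else 0 : ℝ) - (if b then 1 else 0) ≠ 0) : a ∨ b := by
  by_contra hn
  rw [not_or] at hn
  simp [hn.1, hn.2] at h

lemma nu2_ab (a b : Prop) [Decidable a] [Decidable b] :
    |(if a then 1 else 0 : ℝ) - (if b then 1 else 0)| ≤ 1 := by
  split_ifs <;> simp

lemma nu2_A_ne {t : ℝ} {i : nu2_m M} {y : nu2_n M} (h : M.Ablk t i y ≠ 0) :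
    ∃ s, (nu2_en M y).1 = (nu2_em M i).1 * nu2_o M s := by
  classical
  rcases i with q | q | q | q <;> rcases y with u | u
  · rcases nu2_ne h with rfl | rfl
    exacts [⟨none, (mul_one _).symm⟩, ⟨some _, rfl⟩]
  · exact absurd rfl h
  · rcases nu2_ne h with rfl | rfl
    exacts [⟨none, (mul_one _).symm⟩, ⟨some _, rfl⟩]
  · exact absurd rfl h
  · rcases nu2_ne h with rfl | rfl
    exacts [⟨none, (mul_one _).symm⟩, ⟨some _, rfl⟩]
  · by_cases a : q.1 * M.g (M.ak q.1) = u.1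
    · exact ⟨some _, a.symm⟩
    by_cases b : q.1 = u.1
    · exact ⟨none, b.symm.trans (mul_one _).symm⟩
    · simp [PM.Ablk, a, b] at h
  · exact absurd rfl h
  · rcases nu2_ne h with a | a
    exacts [⟨none, a.symm.trans (mul_one _).symm⟩, ⟨some _, a.symm⟩]

lemma nu2_rb_A : RB (M.Ablk 0) nu2_c := by
  classical
  refine nu2_rb _ _ (nu2_em_inj M) _ (nu2_en_inj M) (nu2_w M) zero_le_two (fun i y => ?_)
    fun i y h => ?_
  · rcases i with q | q | q | q <;> rcases y with u | u <;>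
      simp only [PM.Ablk, of_apply, zero_mul, abs_zero, zero_le_two] <;> split_ifs <;> simp
  · obtain ⟨s, hs⟩ := nu2_A_ne M h
    exact ⟨(s, none, none), by simp [hs, nu2_w, nu2_o]⟩

open Classical in
def nu2_t : nu2_n M → Q → ℝ
  | .inl u, c => if M.be u = c then 1 else 0
  | .inr o, c => (if M.be o.1 = c then 1 else 0) - if M.be (o.1 * M.g vw) = c then 1 else 0

def nu2_R : nu2_n M → Prop
  | .inl u => M.p u (M.xk u) = 0 ∧ M.p u vy0 = 0
  | .inr _ => False

def nu2_P : nu2_m M → Prop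
  | .inr (.inr (.inr _)) => True
  | _ => False

def nu2_T : Matrix (nu2_n M) {y // nu2_R M y} ℝ := .of fun y c => nu2_t M y (nu2_en M c.1).1

lemma nu2_rb_T : RB (nu2_T M) nu2_c := by
  classical
  refine nu2_rb _ _ (nu2_en_inj M) (fun c => nu2_en M c.1)
    (fun a b h => Subtype.ext (nu2_en_inj M h)) (nu2_w M) zero_le_two (fun y c => ?_) fun y c h => ?_
  · rcases y with u | u <;> simp only [nu2_T, nu2_t, of_apply] <;> split_ifs <;> simp
  · rcases y with u | u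
    · obtain ⟨a, b, e⟩ := nu2_be_w M u
      have : M.be u = (nu2_en M c.1).1 := by simpa [nu2_T, nu2_t] using h
      exact ⟨(none, a, b), (this.symm.trans e).trans (by simp [nu2_w, nu2_en, nu2_o, mul_assoc])⟩
    · rcases nu2_ne h with h | h
      · obtain ⟨a, b, e⟩ := nu2_be_w M u.1
        exact ⟨(none, a, b), (h.symm.trans e).trans (by simp [nu2_w, nu2_en, nu2_o, mul_assoc])⟩
      · obtain ⟨a, b, e⟩ := nu2_be_w M (u.1 * M.g vw)
        exact ⟨(some vw, a, b), (h.symm.trans e).trans (by simp [nu2_w, nu2_en, nu2_o, mul_assoc])⟩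

def nu2_eP : M.Rows ≃ {i // nu2_P M i} where
  toFun q := ⟨.inr (.inr (.inr q)), trivial⟩
  invFun i := match i with
    | ⟨.inr (.inr (.inr q)), _⟩ => q
    | ⟨.inl _, h⟩ => h.elim
    | ⟨.inr (.inl _), h⟩ => h.elim
    | ⟨.inr (.inr (.inl _)), h⟩ => h.elim
  left_inv _ := rfl
  right_inv := by
    rintro ⟨q | q | q | q, h⟩
    exacts [h.elim, h.elim, h.elim, rfl]

def nu2_eR : M.Cols ≃ {y // nu2_R M y} where
  toFun c := ⟨.inl c.1, c.2⟩
  invFun y := match y with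
    | ⟨.inl u, h⟩ => ⟨u, h⟩
    | ⟨.inr _, h⟩ => h.elim
  left_inv _ := rfl
  right_inv := by
    rintro ⟨u | u, h⟩
    exacts [rfl, h.elim]

lemma nu2_T_one (c : {y // nu2_R M y}) : nu2_T M c.1 c = 1 := by
  obtain ⟨c, rfl⟩ := (nu2_eR M).surjective c
  simp [nu2_T, nu2_eR, nu2_t, nu2_en, nu2_be_col M c.2.1 c.2.2]

lemma nu2_T_zero (c d : {y // nu2_R M y}) (h : c ≠ d) : nu2_T M c.1 d = 0 := by
  obtain ⟨c, rfl⟩ := (nu2_eR M).surjective c
  obtain ⟨d, rfl⟩ := (nu2_eR M).surjective d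
  have : c.1 ≠ d.1 := fun e => h (congrArg _ (Subtype.ext e))
  simp [nu2_T, nu2_eR, nu2_t, nu2_en, nu2_be_col M c.2.1 c.2.2, this]

def nu2_piv : nu2_m M → nu2_n M
  | .inl q => .inl (q.1 * M.g vy0)
  | .inr (.inl q) => .inl (q.1 * M.g (M.xk q.1))
  | .inr (.inr (.inl q)) => .inr q
  | .inr (.inr (.inr q)) => .inl q.1

def nu2_l : nu2_m M → ℕ
  | .inl _ => 1
  | .inr (.inl _) => 2
  | _ => 0

lemma nu2_n1 {a b : Q} (ha : M.p a vy0 = 0) (hb : M.p b vy0 = 0) : a ≠ b * M.g vy0 := by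
  rintro rfl
  simp [nu2_p_y, hb] at ha

lemma nu2_n2 {a b : Q} (ha : M.p a (M.xk a) = 0) (hb : M.p b (M.xk b) = 0) :
    a ≠ b * M.g (M.xk b) := by
  rintro rfl
  simp [nu2_p_x, hb] at ha

lemma nu2_piv_R (i : nu2_m M) (h : ¬nu2_P M i) : ¬nu2_R M (nu2_piv M i) := by
  rcases i with q | q | q | q
  · exact fun h => nu2_n1 M h.2 q.2 rfl
  · exact fun h => nu2_n2 M h.1 q.2.1 rfl
  · exact id
  · exact absurd trivial h

lemma nu2_piv_inj {i k : nu2_m M} (hi : ¬nu2_P M i) (hk : ¬nu2_P M k)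
    (h : nu2_piv M i = nu2_piv M k) : i = k := by
  rcases i with q | q | q | q <;> rcases k with u | u | u | u <;>
    first
    | exact absurd trivial hi
    | exact absurd trivial hk
    | simp only [nu2_piv, Sum.inl.injEq, Sum.inr.injEq, reduceCtorEq] at h ⊢
  · exact Subtype.ext (mul_right_cancel h)
  · exact nu2_n1 M ((nu2_p_xy M _).trans u.2.2) q.2 h.symm
  · exact nu2_n1 M ((nu2_p_xy M _).trans q.2.2) u.2 h
  · exact Subtype.ext (nu2_inj_x M h)
  · exact h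

lemma nu2_piv_sq (i : nu2_m M) (h : ¬nu2_P M i) : M.Ablk 0 i (nu2_piv M i) ^ 2 = 1 := by
  rcases i with q | q | q | q
  · simp [PM.Ablk, nu2_piv, nu2_n1 M q.2 q.2]
  · simp [PM.Ablk, nu2_piv, nu2_n2 M q.2.1 q.2.1]
  · simp [PM.Ablk, nu2_piv]
  · exact absurd trivial h

lemma nu2_piv_tri {i k : nu2_m M} (hi : ¬nu2_P M i) (hk : ¬nu2_P M k)
    (h : M.Ablk 0 i (nu2_piv M k) ≠ 0) : i = k ∨ nu2_l M i < nu2_l M k := by
  classical
  rcases i with q | q | q | q <;> rcases k with u | u | u | u <;>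
    first
    | exact absurd trivial hi
    | exact absurd trivial hk
    | exact absurd rfl h
    | exact .inr one_lt_two
    | exact .inr zero_lt_one
    | exact .inr zero_lt_two
    | left
  · rcases nu2_ne h with h | h
    · exact absurd h (nu2_n1 M q.2 u.2)
    · rw [Subtype.ext (mul_right_cancel h : q.1 = u.1)]
  · rcases nu2_ne h with h | h
    · exact absurd h (nu2_n1 M q.2.2 u.2)
    · exact absurd h (nu2_n1 M ((nu2_p_xy M _).trans q.2.2) u.2)
  · rcases nu2_ne h with h | h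
    · exact absurd h (nu2_n2 M q.2.1 u.2.1)
    · rw [Subtype.ext (nu2_inj_x M h : q.1 = u.1)]
  · have : q.1 = u.1 := by simpa [PM.Ablk, nu2_piv] using h
    rw [Subtype.ext this]

lemma nu2_rest [Finite Q] {θ : ℝ} (hθ : 0 < θ) :
    0 ≤ ld θ (sub (M.Ablk 0) (¬nu2_P M ·) (¬nu2_R M ·)) :=
  ld_utl _ hθ (piv := fun i => ⟨nu2_piv M i.1, nu2_piv_R M _ i.2⟩)
    (fun i k h => Subtype.ext (nu2_piv_inj M i.2 k.2 (congrArg Subtype.val h)))
    (fun i => nu2_l M i.1) (fun i => nu2_piv_sq M _ i.2)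
    fun i k h => (nu2_piv_tri M i.2 k.2 h).imp_left Subtype.ext

lemma nu2_sum {X : Type} {P : X → Prop} [Fintype {x // P x}] [DecidableEq X] {a : X} (ha : P a)
    (F : {x // P x} → ℝ) : ∑ o : {x // P x}, (if a = o.1 then 1 else 0) * F o = F ⟨a, ha⟩ := by
  rw [Finset.sum_eq_single ⟨a, ha⟩ (fun o _ h => ?_) (by simp)]
  · simp
  · rw [if_neg fun e => h (Subtype.ext e.symm), zero_mul]

variable [Fintype Q] [Fintype {q : Q // M.p q vw = 0}]

lemma nu2_AT_zero (i : nu2_m M) (c : {y // nu2_R M y}) (h : ¬nu2_P M i) :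
    (M.Ablk 0 * nu2_T M) i c = 0 := by
  classical
  rw [mul_apply, Fintype.sum_sum_type]
  rcases i with q | q | q | q
  · simp only [PM.Ablk, of_apply, sub_mul, Finset.sum_sub_distrib, ite_mul, one_mul, zero_mul,
      Finset.sum_ite_eq]
    simp [nu2_T, nu2_t, nu2_be_y M q.2]
  · simp only [PM.Ablk, of_apply, sub_mul, Finset.sum_sub_distrib, ite_mul, one_mul, zero_mul,
      Finset.sum_ite_eq]
    simp [nu2_T, nu2_t, nu2_be_x M q.2.1 q.2.2, nu2_be_col M q.2.1 q.2.2]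
  · simp only [PM.Ablk, of_apply, zero_mul, zero_sub, neg_mul, Finset.sum_neg_distrib]
    rw [nu2_sum (P := fun q => M.p q vw = 0) q.2]
    simp only [sub_mul, Finset.sum_sub_distrib, ite_mul, one_mul, zero_mul, Finset.sum_ite_eq]
    simp [nu2_T, nu2_t]
  · exact absurd trivial h

lemma nu2_AT (q : M.Rows) (c : M.Cols) :
    M.Alat q c = (M.Ablk 0 * nu2_T M) (nu2_eP M q).1 (nu2_eR M c) := by
  classical
  have h : M.p (q.1 * M.g vyh) vw = 0 := by simpa +decide [PM.p_mul_g] using q.2.1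
  have e : q.1 * M.g vyh * M.g vw = q.1 * M.g vw * M.g vyh := by
    rw [mul_assoc, mul_assoc, M.cm vw vyh (by decide)]
  rw [mul_apply, Fintype.sum_sum_type]
  simp only [PM.Ablk, nu2_eP, Equiv.coe_fn_mk, of_apply, zero_mul, sub_mul, Finset.sum_sub_distrib,
    Finset.sum_const_zero, zero_add]
  rw [nu2_sum (P := fun q => M.p q vw = 0) q.2.1, nu2_sum (P := fun q => M.p q vw = 0) h]
  simp only [PM.Alat, PM.dl, nu2_T, nu2_t, nu2_eR, nu2_en, of_apply, Equiv.coe_fn_mk, e]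
  ring

end

lemma nu2_pert {j : ℕ} {Q : Type} [Group Q] [Finite Q] (M : FM j Q) {ε : ℝ} (hε : 0 < ε) :
    ld ε (M.toPM.Ablk 0) - Nat.card {q // nu2_h M q = -1} * (Real.log (nu2_c ^ 2 + ε) - Real.log ε)
      ≤ ld ε (M.toPM.Ablk 1) := by
  classical
  have : NeZero M.m3 := ⟨(Nat.zero_lt_of_lt M.le3).ne'⟩
  let bad : nu2_m M.toPM → Prop := fun i =>
    (nu2_em M.toPM i).2 = 2 ∧ nu2_h M (nu2_em M.toPM i).1 = -1
  have hx : ∀ q, nu2_h M (q * M.g (M.toPM.xk q)) = nu2_h M q := fun q => by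
    rcases nu2_xk M.toPM q with h | h <;> rw [h] <;> exact nu2_h_g M q (by decide) (by decide)
  have hy : ∀ q, nu2_h M (q * M.g vy0) = nu2_h M q := fun q => nu2_h_g M q (by decide) (by decide)
  have hw : ∀ q, nu2_h M (q * M.g vw) = nu2_h M q := fun q => nu2_h_g M q (by decide) (by decide)
  have hh : ∀ q, nu2_h M (q * M.g vyh) = nu2_h M q := fun q => nu2_h_g M q (by decide) (by decide)
  have ha : ∀ q : {q : Q // M.p q vw = 0}, ¬bad (.inr (.inr (.inl q))) →
      (nu2_h M (q.1 * M.g (M.toPM.ak q.1))).val = (nu2_h M q.1).val + 1 := fun q h => by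
    rw [nu2_h_ak]
    exact nu2_val _ fun e => h ⟨rfl, eq_neg_of_add_eq_zero_left e⟩
  have key : ∀ i y, (∀ q u, i = .inr (.inr (.inl q)) → y ≠ .inr u) →
      M.toPM.Ablk 0 i y = M.toPM.Ablk 1 i y ∧ (M.toPM.Ablk 1 i y ≠ 0 →
        nu2_h M (nu2_em M.toPM i).1 = nu2_h M (nu2_en M.toPM y).1) := by
    rintro (q | q | q | q) (u | u) h <;> first | exact absurd rfl (h _ _ rfl) | refine ⟨rfl, ?_⟩
    all_goals first | exact fun h => absurd rfl h | intro h
    all_goals rcases nu2_ne h with h | h <;> simp [nu2_em, nu2_en, ← h, hx, hy, hw, hh]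
  have main := ld_pert (M.toPM.Ablk 1) (M.toPM.Ablk 0) hε
    (fun i => ((nu2_h M (nu2_em M.toPM i).1).val : ℤ))
    (fun y => ((nu2_h M (nu2_en M.toPM y).1).val : ℤ)) bad (fun i y hb h => ?_) (fun i y hb => ?_)
    (nu2_rb_A M.toPM)
  · refine le_trans (sub_le_sub_left (mul_le_mul_of_nonneg_right ?_ ?_) _) main
    · exact_mod_cast Nat.card_le_card_of_injective
        (fun i : {i // bad i} => (⟨(nu2_em M.toPM i.1).1, i.2.2⟩ : {q // nu2_h M q = -1}))
        fun i k h => Subtype.ext (nu2_em_inj _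
          (Prod.ext (congrArg Subtype.val h) (i.2.1.trans k.2.1.symm)))
    · exact sub_nonneg.2 (Real.log_le_log hε (by nlinarith [sq_nonneg nu2_c]))
  · by_cases hc : ∀ q u, i = .inr (.inr (.inl q)) → y ≠ .inr u
    · exact le_of_eq (by simp only [(key i y hc).2 h])
    push Not at hc
    obtain ⟨q, u, rfl, rfl⟩ := hc
    by_cases a : q.1 * M.g (M.toPM.ak q.1) = u.1
    · simp [nu2_em, nu2_en, ← a, ha q hb]
    by_cases b : q.1 = u.1
    · simp [nu2_em, nu2_en, b]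
    · simp [PM.Ablk, a, b] at h
  · by_cases hc : ∀ q u, i = .inr (.inr (.inl q)) → y ≠ .inr u
    · rw [(key i y hc).1]
      split_ifs with e
      · rfl
      · by_contra h
        exact e (by simp only [(key i y hc).2 h])
    push Not at hc
    obtain ⟨q, u, rfl, rfl⟩ := hc
    split_ifs with e
    · have : q.1 * M.g (M.toPM.ak q.1) ≠ u.1 := fun a => by
        simp [nu2_em, nu2_en, ← a, ha q hb] at e
      simp [PM.Ablk, this]
    · have : q.1 ≠ u.1 := fun a => e (by simp [nu2_em, nu2_en, a])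
      simp [PM.Ablk, this]

theorem ablk_ge {γ ε : ℝ} (hγ : 0 < γ) (hε : 0 < ε) : ∃ η > 0, ∃ j, ∀ (Q : Type) [Group Q]
    [Finite Q] (M : FM j Q), ld η M.toPM.Alat - γ * Nat.card Q ≤ ld ε (M.toPM.Ablk 1) := by
  obtain ⟨η, hη, H⟩ := ld_elim nu2_c (γ := γ / 4) (by positivity) hε
  set K := Real.log (nu2_c ^ 2 + ε) - Real.log ε
  obtain ⟨j, hj⟩ := exists_nat_ge (2 * K / γ)
  refine ⟨η, hη, j, fun Q _ _ M => ?_⟩
  classical
  cases nonempty_fintype Q
  have c1 := nu2_c1 M.toPM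
  have c2 := nu2_c2 M.toPM
  have c3 := nu2_c3 M.toPM
  have c4 := nu2_c4 M.toPM
  have cm : Nat.card (nu2_m M.toPM) = Nat.card (nu2_n M.toPM) := by
    simp only [Nat.card_sum]; omega
  have cl : (Nat.card (nu2_m M.toPM) : ℝ) ≤ 2 * Nat.card Q := by
    have : Nat.card (nu2_m M.toPM) ≤ 2 * Nat.card Q := by simp only [Nat.card_sum]; omega
    exact_mod_cast this
  have h1 := H _ _ (M.toPM.Ablk 0) (nu2_P M.toPM) (nu2_R M.toPM) (nu2_T M.toPM) cm (nu2_rb_T _)
    (nu2_T_one _) (nu2_T_zero _) (nu2_AT_zero _) fun θ hθ => nu2_rest _ hθ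
  rw [← ld_sign _ M.toPM.Alat (nu2_eP _) (nu2_eR _) 1 1 (by simp) (by simp)
    fun q c => by simpa using nu2_AT M.toPM q c] at h1
  have h2 := nu2_pert M hε
  have h3 : (M.m3 : ℝ) * Nat.card {q // nu2_h M q = -1} ≤ Nat.card Q := by
    exact_mod_cast nu2_card_h M (-1)
  have h4 : (j : ℝ) ≤ M.m3 := by exact_mod_cast M.le3.le
  have h5 : 2 * K ≤ M.m3 * γ := by rw [div_le_iff₀ hγ] at hj; nlinarith
  have h6 : (0 : ℝ) ≤ Nat.card {q // nu2_h M q = -1} := Nat.cast_nonneg _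
  have h7 := mul_le_mul_of_nonneg_left h5 h6
  have h8 := mul_le_mul_of_nonneg_left h3 hγ.le
  have h9 := mul_le_mul_of_nonneg_left cl hγ.le
  nlinarith

end

end Pool.Agent.Lib.MP_b65ff2_gt
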