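import Pool.Agent.Lib.MP_b65ff2_gt.NKdj
import Pool.Agent.Lib.MP_b65ff2_gt.NKJ
import Pool.Agent.Lib.MP_b65ff2_gt.NJT
import Pool.Agent.Lib.MP_b65ff2_gt.NU1
import Pool.Agent.Lib.MP_b65ff2_gt.NU2
import Pool.Agent.Lib.MP_b65ff2_gt.NLat

namespace Pool.Agent.Lib.MP_b65ff2_gt

open Matrix Filter Topology

set_option linter.unusedSectionVars false

noncomputable section

theorem fin_ineq {γ : ℝ} (hγ : 0 < γ) : ∀ᶠ δ in 𝓝[>] (0 : ℝ), ∃ η > 0, ∃ j, ∀ (Q : Type)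
    [Group Q] [Finite Q] (M : FM j Q), (Real.log (5 / 4) / 8 - γ) * Nat.card Q +
      2 * lp (fun x : M.toPM.Cell => x.1.2.card) M.toPM.bd 3 η +
      2 * lp (fun x : M.toPM.Cell => x.1.2.card) M.toPM.bd 0 η ≤
      lp (fun x : M.toPM.Cell => x.1.2.card) M.toPM.bd 2 δ +
        lp (fun x : M.toPM.Cell => x.1.2.card) M.toPM.bd 0 δ := by
  have h6 : 0 < γ / 10 := by positivity
  obtain ⟨κ, hκ, hk⟩ : ∃ κ > 0, 4 * κ ≤ γ / 10 := ⟨γ / 40, by positivity, by linarith⟩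
  filter_upwards [kk_le h6, jt_le h6, Ioo_mem_nhdsGT hκ] with δ ⟨j1, h1⟩ ⟨j2, h2⟩ hδ
  have d3 : 0 < δ ^ 3 := pow_pos hδ.1 3
  obtain ⟨j3, h3⟩ := u_ge h6 d3
  obtain ⟨η, hη, j4, h4⟩ := ablk_ge h6 d3
  obtain ⟨j5, h5⟩ := lat_ge h6 hη
  refine ⟨√(κ * δ ^ 3), Real.sqrt_pos.2 (mul_pos hκ d3), j1 + j2 + j3 + j4 + j5, fun Q _ _ M => ?_⟩
  have k1 := h1 Q (M.mono (by omega))
  have k2 := h2 Q (M.mono (by omega))
  have k3 := h3 Q (M.mono (by omega))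
  have k4 := h4 Q (M.mono (by omega))
  have k5 := h5 Q (M.mono (by omega))
  simp only [FM.mono_toPM] at k1 k2 k3 k4 k5
  cases M with | mk N =>
  simp only at k1 k2 k3 k4 k5 ⊢
  have c0 := N.card_C0
  have c1 := N.card_C1
  have c2 := N.card_C2
  have c3 := N.card_C3
  have ca := N.card_pa
  have cb := N.card_pb
  let _ : ∀ n, Fintype (N.C n) := fun n => Fintype.ofFinite _
  have k : ld (δ ^ 3) N.UU + 2 * ld √(κ * δ ^ 3) (N.dR 2) + 2 * ld √(κ * δ ^ 3) (N.dR 0)ᵀ ≤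
      ld δ (fromCols (N.dR 1) (N.dR (1 + 1))ᵀ) + ld δ (N.dR 0)ᵀ + ld δ N.KK + ld δ N.JT +
        (Nat.card (N.C 0) + Nat.card (N.C 3)) * (Real.log (1 + δ) + Real.log (1 + κ)) :=
    kdj (C0 := N.C 0) (C1 := N.C 1) (C2 := N.C 2) (C3 := N.C 3) (N.dR 0) (N.dR 1) (N.dR 2)
    (N.dR_mul 0) (N.dR_mul 1) N.pa N.pb (by omega) (by omega) (by omega) hδ.1 hκ
  have l1 := Real.log_le_sub_one_of_pos (add_pos one_pos hδ.1)
  have l2 := Real.log_le_sub_one_of_pos (add_pos one_pos hκ)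
  have l3 := Real.log_nonneg (le_add_of_nonneg_right hδ.1.le : 1 ≤ 1 + δ)
  have l4 := Real.log_nonneg (le_add_of_nonneg_right hκ.le : 1 ≤ 1 + κ)
  have c4 : (Nat.card (N.C 0) + Nat.card (N.C 3) : ℝ) ≤ 4 * Nat.card Q := by
    exact_mod_cast (by omega : Nat.card (N.C 0) + Nat.card (N.C 3) ≤ 4 * Nat.card Q)
  have l5 := mul_le_mul c4 (show Real.log (1 + δ) + Real.log (1 + κ) ≤ γ / 20 by
    linarith [hδ.2]) (add_nonneg l3 l4) (by positivity)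
  rw [N.lp_three, N.lp_zero, N.lp_zero, N.lp_succ 1]
  have q0 : (0 : ℝ) ≤ γ * Nat.card Q := by positivity
  linarith

end

end Pool.Agent.Lib.MP_b65ff2_gt
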