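import Pool.Agent.Lib.MP_b65ff2_gt.NRes

namespace Pool.Agent.Lib.MP_b65ff2_gt

open Matrix Filter Topology DihedralGroup

set_option linter.unusedSectionVars false

noncomputable section

def nfm_xi (m : ℕ) : W →* DihedralGroup m :=
  RA.lift L11 (fun s => if s = vx0 then sr 0 else if s = vx1 then sr 1 else 1)
    (fun s => by split_ifs <;> simp) fun s t h => by
      revert h; fin_cases s <;> fin_cases t <;> simp +decide

def nfm_up (n : ℕ) : W →* DihedralGroup (2 * 3 ^ n) :=
  RA.lift L11 (fun s => if s = vy0 then sr 0 else if s = vyh then sr 1 else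
      if s = vz then r 1 ^ 3 ^ n else 1)
    (fun s => by
      split_ifs
      · simp
      · simp
      · rw [← pow_add, ← two_mul, r_one_pow_n]
      · simp) fun s t h => by
      have h2 : ((3 : ZMod (2 * 3 ^ n)) ^ n) = -3 ^ n := by
        rw [eq_neg_iff_add_eq_zero, ← two_mul]
        exact_mod_cast ZMod.natCast_self (2 * 3 ^ n)
      revert h; fin_cases s <;> fin_cases t <;> simp +decide [sub_eq_add_neg, ← h2]

lemma nfm_up_gn (n : ℕ) (s : V) : nfm_up n (gW s) = if s = vy0 then sr 0 else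
    if s = vyh then sr 1 else if s = vz then r 1 ^ 3 ^ n else 1 := RA.lift_gn ..

def nfm_eta (m : ℕ) : W →* DihedralGroup m :=
  RA.lift L11 (fun s => if s = va0 then sr (-1) else if s = va1 then sr 1
      else if s = vyh ∨ s = vz then sr 0 else 1)
    (fun s => by split_ifs <;> simp) fun s t h => by
      revert h; fin_cases s <;> fin_cases t <;> simp +decide

lemma nfm_xi_gn (m : ℕ) (s : V) : nfm_xi m (gW s) =
    if s = vx0 then sr 0 else if s = vx1 then sr 1 else 1 := RA.lift_gn ..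

lemma nfm_eta_gn (m : ℕ) (s : V) : nfm_eta m (gW s) = if s = va0 then sr (-1) else
    if s = va1 then sr 1 else if s = vyh ∨ s = vz then sr 0 else 1 := RA.lift_gn ..

lemma nfm_kill {n : ℕ} {H : Type} [Group H] (φ : W →* H) (h : ∀ x ∈ relP n, φ x = 1) {g : W}
    (hg : psi n g = 1) : φ g = 1 :=
  Subgroup.normalClosure_le_normal (N := φ.ker) h ((QuotientGroup.eq_one_iff g).1 hg)

lemma nfm_xi_kill {n : ℕ} {g : W} (hg : psi n g = 1) : nfm_xi (2 ^ (n + 1)) g = 1 := by
  refine nfm_kill _ ?_ hg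
  rintro x (rfl | rfl | rfl)
  · simp +decide only [map_pow, map_mul, nfm_xi, RA.lift_gn, if_true, if_false, sr_mul_sr,
      sub_zero, r_one_pow_n]
  · simp +decide [nfm_xi]
  · simp +decide [nfm_xi]

lemma nfm_up_kill {n : ℕ} {g : W} (hg : psi n g = 1) : nfm_up n g = 1 := by
  refine nfm_kill _ ?_ hg
  rintro x (rfl | rfl | rfl)
  · simp +decide [nfm_up]
  · simp +decide only [map_pow, map_mul, nfm_up, RA.lift_gn, if_true, if_false, sr_mul_sr,
      sub_zero, r_one_pow_n]
  · simp +decide only [map_pow, map_mul, map_inv, nfm_up, RA.lift_gn, if_true, if_false,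
      sr_mul_sr, sub_zero, mul_inv_cancel]

lemma nfm_eta_kill {n m : ℕ} {g : W} (hg : psi n g = 1) : nfm_eta m g = 1 := by
  have h2 : (sr 0 : DihedralGroup m) ^ 2 = 1 := by simp [pow_two]
  refine nfm_kill _ ?_ hg
  rintro x (rfl | rfl | rfl)
  · simp +decide [nfm_eta]
  · simp +decide [nfm_eta, pow_mul, h2]
  · obtain ⟨k, hk⟩ : Odd (3 ^ n) := Odd.pow (by decide)
    simp +decide only [map_pow, map_mul, map_inv, nfm_eta, RA.lift_gn, if_true, if_false,
      one_mul, hk, pow_succ, pow_mul, h2, one_pow, mul_inv_cancel]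

def nfm_pm (N : Subgroup W) [N.Normal] (h : N ≤ GG L11) : PM L11 (W ⧸ N) where
  g s := (gW s : W ⧸ N)
  p q := (QuotientGroup.lift N (parH L11) h q).toAdd
  sq s := by rw [← QuotientGroup.mk_mul, gn_sq, QuotientGroup.mk_one]
  cm s t a := by rw [← QuotientGroup.mk_mul, gn_cm L11 a, QuotientGroup.mk_mul]
  p_mul a b := by simp
  p_g s := par_gn L11 s
  gen := by
    have := congrArg (Subgroup.map (QuotientGroup.mk' N)) (gn_closure L11)
    rw [MonoidHom.map_closure, ← Set.range_comp,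
      Subgroup.map_top_of_surjective _ (QuotientGroup.mk'_surjective N)] at this
    exact this

lemma nfm_pm_f (N : Subgroup W) [N.Normal] (h : N ≤ GG L11) (w : W) :
    (nfm_pm N h).f w = (w : W ⧸ N) := by
  induction w using RA.ind with
  | h1 => simp
  | hs w s ih => rw [map_mul, ih, PM.f_gn, QuotientGroup.mk_mul]; rfl

lemma nfm_D0 {Q : Type} [Group Q] (M : PM L11 Q) {d : Q} (hd : d ∈ M.D0) :
    ∃ e ∈ (pmW L11).D0, M.f e = d := by
  have : M.D0 = (pmW L11).D0.map M.f := by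
    simp [PM.D0, MonoidHom.map_closure, Set.image_insert_eq, pmW]
  rw [this] at hd
  exact hd

lemma nfm_D0_z {Q : Type} [Group Q] (M : PM L11 Q) {d : Q} (hd : d ∈ M.D0) : M.p d vz = 0 := by
  induction hd using Subgroup.closure_induction with
  | mem x hx =>
    rcases hx with rfl | rfl | rfl | rfl <;> simp +decide [M.p_mul, M.p_g]
  | one => simp [M.p_one]
  | mul x y _ _ hx hy => simp [M.p_mul, hx, hy]
  | inv x _ hx =>
    have := congrFun (M.p_mul x x⁻¹) vz
    simpa [M.p_one, hx] using this.symm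

lemma nfm_lift {Q : Type} [Group Q] (M : PM L11 Q) (l : List Q) (h : ∀ d ∈ l, d ∈ M.D0) :
    ∃ l' : List W, l'.map M.f = l ∧ ∀ e ∈ l', e ∈ (pmW L11).D0 := by
  induction l with
  | nil => exact ⟨[], rfl, by simp⟩
  | cons d l ih =>
    obtain ⟨l', h1, h2⟩ := ih fun e he => h e (List.mem_cons_of_mem _ he)
    obtain ⟨e, h3, h4⟩ := nfm_D0 M (h d List.mem_cons_self)
    exact ⟨e :: l', by simp [h1, h4], by simpa [h3] using h2⟩

lemma nfm_fin {n : ℕ} (F : Finset W) (h : ∀ g ∈ F, par L11 g vz ≠ 0 ∨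
    ∃ N : Subgroup (Fil n), N.Normal ∧ N.FiniteIndex ∧ psi n g ∉ N) :
    ∃ N : Subgroup (Fil n), N.Normal ∧ N.FiniteIndex ∧
      ∀ g ∈ F, par L11 g vz ≠ 0 ∨ psi n g ∉ N := by
  classical
  induction F using Finset.induction_on with
  | empty => exact ⟨⊤, inferInstance, inferInstance, by simp⟩
  | insert a F _ ih =>
    obtain ⟨N, h1, h2, h3⟩ := ih fun g hg => h g (Finset.mem_insert_of_mem hg)
    rcases h a (Finset.mem_insert_self _ _) with ha | ⟨N', k1, k2, k3⟩
    · exact ⟨N, h1, h2, Finset.forall_mem_insert .. |>.2 ⟨.inl ha, h3⟩⟩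
    · exact ⟨N ⊓ N', inferInstance, inferInstance, Finset.forall_mem_insert .. |>.2
        ⟨.inr fun k => k3 k.2, fun g hg => (h3 g hg).imp_right fun k k' => k k'.1⟩⟩

theorem fmex (j : ℕ) (F : Finset W) (hF : 1 ∉ F) : ∃ (Q : Type) (_ : Group Q) (_ : Finite Q)
    (M : FM j Q), ∀ g ∈ F, M.toPM.f g ≠ 1 := by
  obtain ⟨n, hn, hj⟩ := (((eventually_all_finset F).2 fun g hg =>
    res1 (g := g) fun e => hF (e ▸ hg)).and (eventually_ge_atTop j)).exists
  obtain ⟨N1, a1, b1, c1⟩ := nfm_fin F hn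
  obtain ⟨N2, a2, b2, c2⟩ := res2 n j
  let N : Subgroup W := (N1 ⊓ N2).comap (psi n) ⊓ (parH L11).ker ⊓ (nfm_xi (2 ^ (n + 1))).ker ⊓
    (nfm_up n).ker ⊓ (nfm_eta (j + 1)).ker
  have : N.Normal := inferInstance
  have : ((N1 ⊓ N2).comap (psi n)).FiniteIndex :=
    ⟨by rw [Subgroup.index_comap_of_surjective _ (f := psi n) (QuotientGroup.mk'_surjective _)]
        exact Subgroup.FiniteIndex.index_ne_zero⟩
  have : N.FiniteIndex := inferInstance
  have hG : N ≤ GG L11 := fun g hg => hg.1.1.1.2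
  have hk : ∀ g, psi n g = 1 → par L11 g vz = 0 → g ∈ N := fun g h1 h2 =>
    ⟨⟨⟨⟨Subgroup.mem_comap.2 (h1 ▸ one_mem _), psi_par h1 h2⟩, nfm_xi_kill h1⟩,
      nfm_up_kill h1⟩, nfm_eta_kill h1⟩
  refine ⟨W ⧸ N, inferInstance, inferInstance,
    { toPM := nfm_pm N hG
      m1 := 2 ^ (n + 1), m2 := 2 * 3 ^ n, m3 := j + 1
      le1 := by have := Nat.lt_two_pow_self (n := n + 1); omega
      le2 := by have := Nat.lt_pow_self (n := n) (a := 3) (by norm_num); omega
      le3 := Nat.lt_succ_self j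
      ξ := QuotientGroup.lift N (nfm_xi _) fun g hg => hg.1.1.2
      υ := QuotientGroup.lift N (nfm_up n) fun g hg => hg.1.2
      η := QuotientGroup.lift N (nfm_eta _) fun g hg => hg.2
      ξ_g := nfm_xi_gn _
      υ_g := fun s hs => (nfm_up_gn n s).trans (by rw [if_neg hs])
      υ_z := ⟨_, (nfm_up_gn n vz).trans (r_one_pow _)⟩
      η_g := nfm_eta_gn _
      free := fun l h1 h2 h3 h4 => ?_ }, fun g hg (h : _ = 1) => ?_⟩
  · obtain ⟨l', rfl, k⟩ := nfm_lift _ l fun d hd => (h3 d hd).1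
    refine c2 l' (by simpa using h1) (by simpa using h2) (fun d hd => ⟨k d hd, fun e => ?_⟩) ?_
    · refine (h3 _ (List.mem_map_of_mem hd)).2 ?_
      rw [nfm_pm_f, QuotientGroup.eq_one_iff]
      exact hk d e (nfm_D0_z (pmW L11) (k d hd))
    · have e : (nfm_pm N hG).f (l'.map (· * gW vw)).prod = 1 := by
        rw [← h4, map_list_prod, List.map_map, List.map_map]
        simp [Function.comp_def]
      rw [nfm_pm_f, QuotientGroup.eq_one_iff] at e
      exact e.1.1.1.1.2
  · rw [nfm_pm_f, QuotientGroup.eq_one_iff] at h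
    rcases c1 g hg with k | k
    · exact k (congrFun ((mem_GG L11).1 (hG h)) vz)
    · exact k h.1.1.1.1.1

end

end Pool.Agent.Lib.MP_b65ff2_gt
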