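import Pool.Agent.Lib.MP_b65ff2_gt.NL11

namespace Pool.Agent.Lib.MP_b65ff2_gt

namespace NGame

noncomputable section

section Abs

variable {G : Type} [AddCommGroup G]

/-- Position on the orbit of `g`. -/
def idx (g o : G) : ℕ := sInf {i : ℕ | i • g = o}

lemma idx_spec {g o : G} (h : ∃ i : ℕ, i • g = o) : idx g o • g = o := Nat.sInf_mem h

lemma idx_le {g o : G} {i : ℕ} (h : i • g = o) : idx g o ≤ i := Nat.sInf_le h

lemma idx_succ {g o : G} (h : ∃ i : ℕ, i • g = o) : idx g (o + g) = idx g o + 1 ∨ o + g = 0 := by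
  have h1 : (idx g o + 1) • g = o + g := by rw [succ_nsmul, idx_spec h]
  have h2 := idx_le h1
  have h3 := idx_spec ⟨_, h1⟩
  rcases hm : idx g (o + g) with _ | m
  · right; rw [hm, zero_nsmul] at h3; exact h3.symm
  · left
    rw [hm, succ_nsmul] at h3
    have := idx_le (add_right_cancel h3)
    omega

variable {H : AddSubgroup G} {R : G → G → Prop} {g h : G} {i : ℕ}

lemma funnel (hR : Equivalence R) (hh : h ∈ H) (gen : ∀ o ∈ H, ∃ t : ℕ, t • h = o) {z : G}
    (hz : z ∈ H) (st : ∀ o ∈ H, R o z ∨ R o (o + h)) : ∀ o ∈ H, R o z := by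
  have key : ∀ (t : ℕ) (o : G), o ∈ H → o + t • h = z → R o z := by
    intro t
    induction t with
    | zero => intro o _ e; rw [zero_nsmul, add_zero] at e; rw [e]; exact hR.refl _
    | succ t ih =>
      intro o ho e
      rcases st o ho with h1 | h1
      · exact h1
      · refine hR.trans h1 (ih _ (H.add_mem ho hh) ?_)
        rw [← e, succ_nsmul]; abel
  intro o ho
  obtain ⟨t, ht⟩ := gen (z - o) (H.sub_mem hz ho)
  exact key t o ho (by rw [ht]; abel)

lemma map1 (hR : Equivalence R) (hg : g ∈ H) (geng : ∀ o ∈ H, ∃ t : ℕ, t • g = o)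
    (hh : h ∈ H) (gen : ∀ o ∈ H, ∃ t : ℕ, t • h = o)
    (s1 : ∀ o ∈ H, idx g o < i → R o (o + g)) (s2 : ∀ o ∈ H, i < idx g o → R o (o + h)) :
    ∀ o ∈ H, R o 0 := by
  have key : ∀ m : ℕ, m ≤ i → R (m • g) 0 := by
    intro m
    induction m with
    | zero => intro _; rw [zero_nsmul]; exact hR.refl _
    | succ m ih =>
      intro hm
      have := s1 (m • g) (H.nsmul_mem hg m) ((idx_le rfl).trans_lt (by omega))
      rw [succ_nsmul]
      exact hR.trans (hR.symm this) (ih (by omega))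
  refine funnel hR hh gen H.zero_mem fun o ho => ?_
  rcases le_or_gt (idx g o) i with h1 | h1
  · left
    have := key _ h1
    rwa [idx_spec (geng o ho)] at this
  · exact Or.inr (s2 o ho h1)

lemma map2 (hR : Equivalence R) (hg : g ∈ H) (geng : ∀ o ∈ H, ∃ t : ℕ, t • g = o)
    (hh : h ∈ H) (gen : ∀ o ∈ H, ∃ t : ℕ, t • h = o)
    (s1 : ∀ o ∈ H, idx g o < i → R o (o + h)) (s2 : ∀ o ∈ H, i ≤ idx g o → R o (o + g)) :
    ∀ o ∈ H, R o 0 := by
  have key : ∀ (t : ℕ) (o : G), o ∈ H → (i ≤ idx g o ∨ o = 0) → o + t • g = 0 → R o 0 := by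
    intro t
    induction t with
    | zero => intro o _ _ e; rw [zero_nsmul, add_zero] at e; rw [e]; exact hR.refl _
    | succ t ih =>
      intro o ho h1 e
      rcases h1 with h1 | h1
      · refine hR.trans (s2 o ho h1) (ih _ (H.add_mem ho hg) ?_ ?_)
        · rcases idx_succ (geng o ho) with h2 | h2
          · left; omega
          · exact Or.inr h2
        · rw [← e, succ_nsmul]; abel
      · rw [h1]; exact hR.refl _
  refine funnel hR hh gen H.zero_mem fun o ho => ?_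
  rcases le_or_gt i (idx g o) with h1 | h1
  · left
    obtain ⟨t, ht⟩ := geng (-o) (H.neg_mem ho)
    exact key t o ho (Or.inl h1) (by rw [ht]; abel)
  · exact Or.inr (s1 o ho h1)

lemma map3 (hR : Equivalence R) (hg : g ∈ H) (geng : ∀ o ∈ H, ∃ t : ℕ, t • g = o)
    (hh : h ∈ H) (gen : ∀ o ∈ H, ∃ t : ℕ, t • h = o)
    (s1 : ∀ o ∈ H, idx g o < i → R o (o + h)) (s2 : ∀ o ∈ H, i < idx g o → R o (o - g)) :
    ∀ o ∈ H, R o (i • g) := by
  have key : ∀ (m : ℕ) (o : G), o ∈ H → idx g o = i + m → R o (i • g) := by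
    intro m
    induction m with
    | zero =>
      intro o ho e
      have := idx_spec (geng o ho)
      rw [e, add_zero] at this
      rw [this]; exact hR.refl _
    | succ m ih =>
      intro o ho e
      refine hR.trans (s2 o ho (by omega)) (ih _ (H.sub_mem ho hg) ?_)
      rcases idx_succ (geng _ (H.sub_mem ho hg)) with h2 | h2
      · rw [sub_add_cancel] at h2; omega
      · rw [sub_add_cancel] at h2
        have : idx g o ≤ 0 := idx_le (by rw [h2, zero_nsmul])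
        omega
  refine funnel hR hh gen (H.nsmul_mem hg i) fun o ho => ?_
  rcases le_or_gt i (idx g o) with h1 | h1
  · exact Or.inl (key (idx g o - i) o ho (by omega))
  · exact Or.inr (s1 o ho h1)

lemma map4 (hR : Equivalence R) (hg : g ∈ H) (geng : ∀ o ∈ H, ∃ t : ℕ, t • g = o)
    (hh : h ∈ H) (gen : ∀ o ∈ H, ∃ t : ℕ, t • h = o)
    (s1 : ∀ o ∈ H, idx g o < i → R o (o - g)) (s2 : ∀ o ∈ H, i ≤ idx g o → R o (o + h)) :
    ∀ o ∈ H, R o (-g) := by
  have key : ∀ m : ℕ, m < i → R (m • g) (-g) := by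
    intro m
    induction m with
    | zero =>
      intro hm
      have := s1 0 H.zero_mem ((idx_le (zero_nsmul g)).trans_lt hm)
      rwa [zero_sub, ← zero_nsmul g] at this
    | succ m ih =>
      intro hm
      have := s1 ((m + 1) • g) (H.nsmul_mem hg _) ((idx_le rfl).trans_lt hm)
      refine hR.trans this ?_
      rw [succ_nsmul, add_sub_cancel_right]
      exact ih (by omega)
  refine funnel hR hh gen (H.neg_mem hg) fun o ho => ?_
  rcases le_or_gt i (idx g o) with h1 | h1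
  · exact Or.inr (s2 o ho h1)
  · left
    have := key _ h1
    rwa [idx_spec (geng o ho)] at this

end Abs

abbrev Z4 : Type := ZMod 4 × ZMod 4

/-- Reduction modulo four. -/
def c4 (n : ℕ) : Tor n →+ Z4 :=
  AddMonoidHom.prodMap (ZMod.castHom (dvd_mul_right 4 _) (ZMod 4)).toAddMonoidHom
    (ZMod.castHom (dvd_mul_right 4 _) (ZMod 4)).toAddMonoidHom

lemma c4_prj (n : ℕ) (A : ℤ × ℤ) : c4 n (prj n A) = ((A.1 : ZMod 4), (A.2 : ZMod 4)) := by
  simp [c4, prj]

lemma prj_add (n : ℕ) (A B : ℤ × ℤ) : prj n (A + B) = prj n A + prj n B := by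
  simp [prj]

lemma prj_val (n : ℕ) (P : Tor n) : prj n ((P.1.val : ℤ), (P.2.val : ℤ)) = P := by
  simp [prj]

def col4 (x : Z4) : Fin 3 := colZ ((x.1.val : ℤ), (x.2.val : ℤ))

lemma colZ_eq (A : ℤ × ℤ) : colZ A = col4 ((A.1 : ZMod 4), (A.2 : ZMod 4)) := by
  have h1 : (((A.1 : ZMod 4).val : ℕ) : ℤ) = A.1 % 4 := ZMod.val_intCast _
  have h2 : (((A.2 : ZMod 4).val : ℕ) : ℤ) = A.2 % 4 := ZMod.val_intCast _
  simp only [col4, colZ, h1, h2]
  split_ifs <;> first | rfl | omega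

lemma colT_eq (n : ℕ) (P : Tor n) : colT n P = col4 (c4 n P) := by
  conv_rhs => rw [← prj_val n P, c4_prj]
  exact colZ_eq _

lemma colT_prj (n : ℕ) (A : ℤ × ℤ) : colT n (prj n A) = colZ A := by
  rw [colT_eq, c4_prj, colZ_eq]

lemma col_ne (n : ℕ) (P R : Tor n) (h : (torG n).Adj P R) : colT n P ≠ colT n R := by
  obtain ⟨_, A, B, h1, rfl, rfl⟩ := h
  rw [colT_prj, colT_prj]
  simp only [plane] at h1
  unfold colZ
  rcases h1 with h1 | ⟨h1, h2, h3⟩
  · rcases abs_cases (A.1 - B.1) with ⟨e1, _⟩ | ⟨e1, _⟩ <;>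
      rcases abs_cases (A.2 - B.2) with ⟨e2, _⟩ | ⟨e2, _⟩ <;>
      split_ifs <;> first | decide | omega
  · rw [abs_eq zero_le_one] at h1 h2
    split_ifs <;> first | decide | omega

lemma adj_of (n : ℕ) (P : Tor n) (a b : ℤ)
    (h : |a| + |b| = 1 ∨ (|a| = 1 ∧ |b| = 1 ∧ col4 (c4 n P) ≠ 2))
    (h0 : ((a : ZMod 4), (b : ZMod 4)) ≠ 0) : (torG n).Adj P (P + prj n (a, b)) := by
  refine ⟨fun e => h0 ?_, ((P.1.val : ℤ), (P.2.val : ℤ)), ((P.1.val : ℤ), (P.2.val : ℤ)) + (a, b),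
    ?_, prj_val n P, by rw [prj_add, prj_val]⟩
  · have : prj n (a, b) = 0 := by simpa using e
    have h2 := c4_prj n (a, b)
    rw [this, map_zero] at h2
    exact h2.symm
  · simp only [plane, Prod.fst_add, Prod.snd_add, sub_add_cancel_left, abs_neg]
    refine h.imp_right fun h => ⟨h.1, h.2.1, ?_⟩
    have h3 := h.2.2
    rw [← colT_eq] at h3
    unfold colT colZ at h3
    by_contra h4
    apply h3
    rw [if_pos (by dsimp only; omega)]

def H4 : AddSubgroup Z4 where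
  carrier := {x | x = 0 ∨ x = (2, 2)}
  zero_mem' := Or.inl rfl
  add_mem' := by
    rintro a b (rfl | rfl) (rfl | rfl) <;> simp only [Set.mem_ofPred_eq] <;> decide
  neg_mem' := by
    rintro a (rfl | rfl) <;> simp only [Set.mem_ofPred_eq] <;> decide

/-- The owners. -/
def HO (n : ℕ) : AddSubgroup (Tor n) := H4.comap (c4 n)

lemma mem_HO {n : ℕ} {P : Tor n} : P ∈ HO n ↔ c4 n P = 0 ∨ c4 n P = (2, 2) := Iff.rfl

lemma gen_int (n : ℕ) (s : ℤ) (hs : s = 1 ∨ s = -1) (o : Tor n) (ho : o ∈ HO n) :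
    ∃ t : ℤ, t • prj n (2 * s, 2) = o := by
  rw [← prj_val n o] at ho ⊢
  generalize (o.1.val : ℤ) = a at *
  generalize (o.2.val : ℤ) = b at *
  rw [mem_HO, c4_prj] at ho
  have hab : a % 2 = 0 ∧ (a - b) % 4 = 0 := by
    have h1 : (((a : ZMod 4).val : ℕ) : ℤ) = a % 4 := ZMod.val_intCast _
    have h2 : (((b : ZMod 4).val : ℕ) : ℤ) = b % 4 := ZMod.val_intCast _
    rcases ho with ho | ho
    · obtain ⟨e1, e2⟩ := Prod.ext_iff.1 ho
      dsimp only at e1 e2
      rw [e1] at h1; rw [e2] at h2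
      have : ((0 : Z4).1.val : ℤ) = 0 := rfl
      have : ((0 : Z4).2.val : ℤ) = 0 := rfl
      omega
    · obtain ⟨e1, e2⟩ := Prod.ext_iff.1 ho
      dsimp only at e1 e2
      rw [e1] at h1; rw [e2] at h2
      have : ((2 : ZMod 4).val : ℤ) = 2 := rfl
      omega
  obtain ⟨x, d, hx, hd⟩ : ∃ x d : ℤ, a = 2 * s * x ∧ b = 2 * x - 4 * d := by
    rcases hs with rfl | rfl
    · exact ⟨a / 2, (a - b) / 4, by omega, by omega⟩
    · exact ⟨-(a / 2), (-a - b) / 4, by omega, by omega⟩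
  have hc : IsCoprime ((2 : ℤ) ^ (n + 1)) ((3 : ℤ) ^ n) :=
    IsCoprime.pow (by rw [Int.isCoprime_iff_gcd_eq_one]; rfl)
  obtain ⟨u, v, huv⟩ := hc
  refine ⟨x - 2 * d * u * 2 ^ (n + 1), ?_⟩
  have e : ∀ t : ℤ, t • prj n (2 * s, 2) = prj n (t * (2 * s), t * 2) := by
    intro t; simp [prj]
  rw [e]
  refine Prod.ext ?_ ?_
  · refine (ZMod.intCast_eq_intCast_iff_dvd_sub _ _ _).2 ⟨s * d * u, ?_⟩
    push_cast
    rw [hx]; ring
  · refine (ZMod.intCast_eq_intCast_iff_dvd_sub _ _ _).2 ⟨-(d * v), ?_⟩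
    push_cast
    rw [hd]; linear_combination (4 * d) * huv

lemma nat_of_int {n : ℕ} {g o : Tor n} (h : ∃ t : ℤ, t • g = o) : ∃ t : ℕ, t • g = o := by
  have : o ∈ AddSubgroup.zmultiples g := h
  exact (mem_multiples_iff_mem_zmultiples.2 this : o ∈ AddSubmonoid.multiples g)

lemma gen_g (n : ℕ) : ∀ o ∈ HO n, ∃ t : ℕ, t • prj n (2, 2) = o := fun o ho =>
  nat_of_int (by simpa using gen_int n 1 (Or.inl rfl) o ho)

lemma gen_h (n : ℕ) : ∀ o ∈ HO n, ∃ t : ℕ, t • prj n (-2, 2) = o := fun o ho =>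
  nat_of_int (by simpa using gen_int n (-1) (Or.inr rfl) o ho)

lemma gen_h' (n : ℕ) : ∀ o ∈ HO n, ∃ t : ℕ, t • prj n (2, -2) = o := fun o ho => by
  obtain ⟨t, ht⟩ := gen_h n (-o) ((HO n).neg_mem ho)
  refine ⟨t, ?_⟩
  have : prj n (2, -2) = -prj n (-2, 2) := by simp [prj]
  rw [this, smul_neg, ht, neg_neg]

end

end NGame

end Pool.Agent.Lib.MP_b65ff2_gt
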