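import Pool.Agent.Lib.MP_b65ff2_gt.NBase

namespace Pool.Agent.Lib.MP_b65ff2_gt

set_option linter.unusedSectionVars false

noncomputable section

namespace NGrp

variable {H Q : Type} [Group H] [Group Q] {A B : Set H}

lemma one (A : Set H) (L : ℕ) : WL A L 1 := ⟨[], by simp, by simp, rfl⟩

lemma mono {L L' : ℕ} {g : H} (h : WL A L g) (hL : L ≤ L') : WL A L' g := by
  obtain ⟨l, h1, h2, h3⟩ := h
  exact ⟨l, h1.trans hL, h2, h3⟩

lemma letter {x : H} (hx : x ∈ A ∨ x⁻¹ ∈ A) : WL A 1 x := ⟨[x], by simp, by simpa using hx, by simp⟩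

lemma mul {L L' : ℕ} {g g' : H} (h : WL A L g) (h' : WL A L' g') : WL A (L + L') (g * g') := by
  obtain ⟨l, h1, h2, rfl⟩ := h
  obtain ⟨l', h1', h2', rfl⟩ := h'
  refine ⟨l ++ l', by simp; omega, fun x hx => ?_, by simp⟩
  rcases List.mem_append.1 hx with hx | hx
  exacts [h2 x hx, h2' x hx]

/-- Induction on words, new letters on the left. -/
lemma ind {P : ℕ → H → Prop} (h1 : ∀ L, P L 1)
    (hs : ∀ L x g, (x ∈ A ∨ x⁻¹ ∈ A) → WL A L g → P L g → P (L + 1) (x * g)) {L : ℕ} {g : H}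
    (h : WL A L g) : P L g := by
  obtain ⟨l, hl, h2, rfl⟩ := h
  induction l generalizing L with
  | nil => exact h1 L
  | cons x l ih =>
    obtain ⟨L, rfl⟩ : ∃ L', L = L' + 1 := ⟨L - 1, by simp at hl; omega⟩
    have hl' : l.length ≤ L := by simpa using hl
    have h3 : ∀ y ∈ l, y ∈ A ∨ y⁻¹ ∈ A := fun y hy => h2 y (List.mem_cons_of_mem _ hy)
    rw [List.prod_cons]
    exact hs L x _ (h2 x List.mem_cons_self) ⟨l, hl', h3, rfl⟩ (ih hl' h3)

lemma inv {L : ℕ} {g : H} (h : WL A L g) : WL A L g⁻¹ := by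
  refine ind (P := fun L g => WL A L g⁻¹) (fun L => by simpa using one A L) ?_ h
  intro L x g hx _ ih
  rw [mul_inv_rev]
  exact mul ih (letter (by simpa [or_comm] using hx))

lemma subst {c L : ℕ} {g : H} (hc : ∀ x ∈ A, WL B c x) (h : WL A L g) : WL B (c * L) g := by
  refine ind (P := fun L g => WL B (c * L) g) (fun L => one _ _) ?_ h
  intro L x g hx _ ih
  have : WL B c x := hx.elim (hc x) fun hx => by simpa using inv (hc _ hx)
  exact mono (mul this ih) (by rw [Nat.mul_succ]; omega)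

lemma sub {L : ℕ} {g : H} (hAB : A ⊆ B) (h : WL A L g) : WL B L g := by
  simpa using subst (fun x hx => letter (.inl (hAB hx))) h

lemma mem {L : ℕ} {g : H} {M : Subgroup H} (hA : A ⊆ M) (h : WL A L g) : g ∈ M := by
  refine ind (P := fun _ g => g ∈ M) (fun _ => M.one_mem) ?_ h
  intro L x g hx _ ih
  exact M.mul_mem (hx.elim (fun h => hA h) fun h => M.inv_mem_iff.1 (hA h)) ih

lemma ex {g : H} (h : g ∈ Subgroup.closure A) : ∃ L, WL A L g := by
  induction h using Subgroup.closure_induction with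
  | mem x hx => exact ⟨1, letter (.inl hx)⟩
  | one => exact ⟨0, one _ _⟩
  | mul x y _ _ hx hy =>
    obtain ⟨L, hx⟩ := hx
    obtain ⟨L', hy⟩ := hy
    exact ⟨_, mul hx hy⟩
  | inv x _ hx => exact hx.imp fun _ => inv

lemma unif {F : Set H} (hF : F.Finite) (h : F ⊆ Subgroup.closure A) :
    ∃ c, 1 ≤ c ∧ ∀ x ∈ F, WL A c x := by
  induction F, hF using Set.Finite.induction_on with
  | empty => exact ⟨1, le_rfl, by simp⟩
  | insert _ _ ih =>
    obtain ⟨c, hc, h1⟩ := ih ((Set.subset_insert _ _).trans h)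
    obtain ⟨L, hL⟩ := ex (h (Set.mem_insert _ _))
    refine ⟨c + L, by omega, ?_⟩
    rintro x (rfl | hx)
    exacts [mono hL (by omega), mono (h1 x hx) (by omega)]

lemma pow {x : H} {c : ℕ} (hx : WL A c x) (n : ℕ) : WL A (c * n) (x ^ n) := by
  induction n with
  | zero => simpa using one A 0
  | succ n ih => rw [pow_succ, Nat.mul_succ]; exact mul ih hx

lemma zpow {x : H} {c : ℕ} (hx : WL A c x) (n : ℤ) : WL A (c * n.natAbs) (x ^ n) := by
  rcases Int.natAbs_eq n with h | h
  · rw [h, zpow_natCast, Int.natAbs_natCast]; exact pow hx _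
  · rw [h, zpow_neg, zpow_natCast, Int.natAbs_neg, Int.natAbs_natCast]; exact inv (pow hx _)

lemma fin (hA : A.Finite) (L : ℕ) : {g | WL A L g}.Finite := by
  induction L with
  | zero =>
    refine (Set.finite_singleton (1 : H)).subset fun g hg => ?_
    obtain ⟨l, h1, -, rfl⟩ := hg
    simp [List.length_eq_zero_iff.1 (Nat.le_zero.1 h1)]
  | succ L ih =>
    refine (((hA.union hA.inv).image2 (· * ·) ih).insert 1).subset fun g hg => ?_
    obtain ⟨l, h1, h2, rfl⟩ := hg
    cases l with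
    | nil => simp
    | cons x l =>
      exact .inr ⟨x, h2 x List.mem_cons_self, l.prod,
        ⟨l, by simpa using h1, fun y hy => h2 y (List.mem_cons_of_mem _ hy), rfl⟩, by simp⟩

/-- Conjugation. -/
lemma conj {c L : ℕ} {g y : H} (hc : ∀ x ∈ A, WL B c (y * x * y⁻¹)) (h : WL A L g) :
    WL B (c * L) (y * g * y⁻¹) := by
  refine ind (P := fun L g => WL B (c * L) (y * g * y⁻¹)) (fun L => by simpa using one _ _) ?_ h
  intro L x g hx _ ih
  have : WL B c (y * x * y⁻¹) := hx.elim (hc x) fun hx => by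
    simpa [mul_assoc] using inv (hc _ hx)
  have e : y * (x * g) * y⁻¹ = y * x * y⁻¹ * (y * g * y⁻¹) := by group
  rw [e]
  exact mono (mul this ih) (by rw [Nat.mul_succ]; omega)

/-- Schreier rewriting. -/
lemma schreier (ρ : H →* Q) (σ : Q → H) {c L : ℕ} {w : H}
    (hc : ∀ g ∈ Subgroup.closure A, ∀ y ∈ A, WL B c ((σ (ρ (y * g)))⁻¹ * y * σ (ρ g)))
    (h : WL A L w) : WL B (c * L) ((σ (ρ w))⁻¹ * w * σ 1) := by
  refine ind (P := fun L w => WL B (c * L) ((σ (ρ w))⁻¹ * w * σ 1))
    (fun L => by simpa using one _ _) ?_ h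
  intro L x g hx hg ih
  have hg' : g ∈ Subgroup.closure A := mem Subgroup.subset_closure hg
  have : WL B c ((σ (ρ (x * g)))⁻¹ * x * σ (ρ g)) := hx.elim (hc g hg' x) fun hx => by
    have := inv (hc (x * g) (Subgroup.mul_mem _
      ((Subgroup.inv_mem_iff _).1 (Subgroup.subset_closure hx)) hg') _ hx)
    simpa [mul_assoc] using this
  have e : (σ (ρ (x * g)))⁻¹ * (x * g) * σ 1 =
      (σ (ρ (x * g)))⁻¹ * x * σ (ρ g) * ((σ (ρ g))⁻¹ * g * σ 1) := by group
  rw [e]
  exact mono (mul this ih) (by rw [Nat.mul_succ]; omega)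

/-- Short representatives in a commutative quotient of exponent `k`. -/
lemma short (ρ : H →* Q) (M : Subgroup H) {k : ℕ} (hk : 1 ≤ k)
    (hc : ∀ x ∈ M, ∀ y ∈ M, Commute (ρ x) (ρ y)) (hp : ∀ x ∈ M, ρ x ^ k = 1) {F : Set H}
    (hF : F.Finite) (hM : F ⊆ M) :
    ∀ x ∈ Subgroup.closure F, ∃ y, WL F (F.ncard * k) y ∧ ρ y = ρ x := by
  induction F, hF using Set.Finite.induction_on with
  | empty =>
    intro x hx
    exact ⟨1, one _ _, by simp_all⟩
  | @insert f F hf hF ih =>
    have hM' : F ⊆ M := (Set.subset_insert _ _).trans hM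
    have hfM : f ∈ M := hM (Set.mem_insert _ _)
    have hle : Subgroup.closure F ≤ M := (Subgroup.closure_le _).2 hM'
    intro x hx
    have key : ∃ e : ℤ, ∃ y ∈ Subgroup.closure F, ρ x = ρ f ^ e * ρ y := by
      induction hx using Subgroup.closure_induction with
      | mem x hx =>
        rcases hx with rfl | hx
        · exact ⟨1, 1, Subgroup.one_mem _, by simp⟩
        · exact ⟨0, x, Subgroup.subset_closure hx, by simp⟩
      | one => exact ⟨0, 1, Subgroup.one_mem _, by simp⟩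
      | mul x x' _ _ h h' =>
        obtain ⟨e, y, hy, h⟩ := h
        obtain ⟨e', y', hy', h'⟩ := h'
        refine ⟨e + e', y * y', Subgroup.mul_mem _ hy hy', ?_⟩
        have := ((hc f hfM y (hle hy)).zpow_left e').eq
        rw [map_mul, h, h', zpow_add, map_mul, mul_assoc, ← mul_assoc (ρ y), ← this]
        simp only [mul_assoc]
      | inv x _ h =>
        obtain ⟨e, y, hy, h⟩ := h
        refine ⟨-e, y⁻¹, Subgroup.inv_mem _ hy, ?_⟩
        have := ((hc f hfM y (hle hy)).zpow_left e).eq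
        rw [map_inv, h, this, mul_inv_rev, zpow_neg, map_inv]
    obtain ⟨e, y, hy, h⟩ := key
    obtain ⟨z, hz, hz'⟩ := ih hM' y hy
    have hk' : (0 : ℤ) < k := by exact_mod_cast hk
    have h0 := Int.emod_nonneg e hk'.ne'
    have h1 := Int.emod_lt_of_pos e hk'
    refine ⟨f ^ (e % k) * z, ?_, ?_⟩
    · refine mono (mul (zpow (letter (.inl (Set.mem_insert _ _))) _)
        (sub (Set.subset_insert _ _) hz)) ?_
      rw [Set.ncard_insert_of_notMem hf hF, add_mul]
      omega
    · rw [map_mul, hz', h, map_zpow]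
      congr 1
      conv_rhs => rw [← Int.mul_ediv_add_emod e k, zpow_add, zpow_mul, zpow_natCast, hp f hfM]
      simp

end NGrp

end

end Pool.Agent.Lib.MP_b65ff2_gt
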