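import Pool.Agent.Lib.MP_b65ff2_gt.NGrpA

namespace Pool.Agent.Lib.MP_b65ff2_gt

set_option linter.unusedSectionVars false

noncomputable section

namespace NGrp

variable {H : Type} [Group H]

/-- A subgroup that maps onto the plane lattice with finitely generated kernel. -/
structure St (M : Subgroup H) where
  Φ : H → ℤ × ℤ
  t : H
  u : H
  S : Set H
  add : ∀ x ∈ M, ∀ y ∈ M, Φ (x * y) = Φ x + Φ y
  ht : t ∈ M
  hu : u ∈ M
  Φt : Φ t = (1, 0)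
  Φu : Φ u = (0, 1)
  fin : S.Finite
  SM : S ⊆ M
  ΦS : ∀ x ∈ S, Φ x = 0
  ker : ∀ x ∈ M, Φ x = 0 → x ∈ Subgroup.closure S

lemma fg_map {G : Type} [Group G] {K : Subgroup G} (h : K.FG) (f : G →* H) : (K.map f).FG := by
  obtain ⟨S, rfl, hS⟩ := (Subgroup.fg_iff _).1 h
  exact (Subgroup.fg_iff _).2 ⟨f '' S, (MonoidHom.map_closure f S).symm, hS.image _⟩

lemma setup (hF : Fib H) (N0 : Subgroup H) [N0.Normal] [N0.FiniteIndex] :
    ∃ M : Subgroup H, M.Normal ∧ M.FiniteIndex ∧ M ≤ N0 ∧ Nonempty (St M) := by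
  classical
  obtain ⟨P, hP, φ, hK, a, b, hab⟩ := hF
  let M : Subgroup H := N0 ⊓ P.normalCore
  have hMP : M ≤ P := inf_le_right.trans P.normalCore_le
  have hM : M.FiniteIndex := inferInstance
  have hMn : M.Normal := inferInstance
  refine ⟨M, hMn, hM, inf_le_left, ?_⟩
  let ψ : M →* Multiplicative (ℤ × ℤ) := φ.comp (Subgroup.inclusion hMP)
  let Λ : Submodule ℤ (ℤ × ℤ) := (Subgroup.toAddSubgroup' ψ.range).toIntSubmodule
  have hΛ : ∀ x : M, (ψ x).toAdd ∈ Λ := fun x => ⟨x, rfl⟩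
  have hΛ' : ∀ v ∈ Λ, ∃ x : M, (ψ x).toAdd = v := fun v ⟨x, hx⟩ => ⟨x, by rw [hx]; rfl⟩
  have hpow : ∀ c : P, (M.index : ℤ) • (φ c).toAdd ∈ Λ := fun c => by
    have := hΛ ⟨c.1 ^ M.index, M.pow_index_mem _⟩
    have e : ψ ⟨c.1 ^ M.index, M.pow_index_mem _⟩ = φ c ^ M.index := by
      rw [← map_pow]; rfl
    rwa [e, toAdd_pow, ← natCast_zsmul] at this
  have hi : (M.index : ℤ) ≠ 0 := by exact_mod_cast hM.index_ne_zero
  have hli : LinearIndependent ℤ ![(⟨_, hpow a⟩ : Λ), ⟨_, hpow b⟩] := by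
    rw [LinearIndependent.pair_iff]
    intro s t h
    have h1 := congrArg (fun v : Λ => v.1.1) h
    have h2 := congrArg (fun v : Λ => v.1.2) h
    simp only [Submodule.coe_add, Submodule.coe_smul, Prod.fst_add, Prod.smul_fst, smul_eq_mul,
      Prod.snd_add, Prod.smul_snd, Submodule.coe_zero, Prod.fst_zero, Prod.snd_zero] at h1 h2
    have hd := mul_ne_zero hi (sub_ne_zero.2 hab)
    constructor
    · refine (mul_eq_zero.1 ?_).resolve_right hd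
      linear_combination (φ b).toAdd.2 * h1 - (φ b).toAdd.1 * h2
    · refine (mul_eq_zero.1 ?_).resolve_right hd
      linear_combination (φ a).toAdd.1 * h2 - (φ a).toAdd.2 * h1
  have hr : Module.finrank ℤ Λ = Module.finrank ℤ (ℤ × ℤ) := by
    refine le_antisymm Λ.finrank_le ?_
    simpa using hli.fintype_card_le_finrank
  let e : Λ ≃ₗ[ℤ] ℤ × ℤ := LinearEquiv.ofFinrankEq _ _ hr
  let Φ : H → ℤ × ℤ := fun x => if h : x ∈ M then e ⟨_, hΛ ⟨x, h⟩⟩ else 0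
  have hΦ : ∀ x : M, Φ x = e ⟨_, hΛ x⟩ := fun x => dif_pos x.2
  have hs : ∀ v, ∃ x ∈ M, Φ x = v := fun v => by
    obtain ⟨x, hx⟩ := hΛ' _ (e.symm v).2
    refine ⟨x, x.2, ?_⟩
    rw [hΦ, ← e.apply_symm_apply v]
    exact congrArg e (Subtype.ext hx)
  obtain ⟨t, ht, Φt⟩ := hs (1, 0)
  obtain ⟨u, hu, Φu⟩ := hs (0, 1)
  let K : Subgroup H := φ.ker.map P.subtype
  have : Group.FG K := (Group.fg_iff_subgroup_fg _).2 (fg_map hK _)
  have h3 : (M ⊓ K).FG := by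
    rw [← Subgroup.subgroupOf_map_subtype]
    exact fg_map ((Group.fg_iff_subgroup_fg _).1 inferInstance) _
  obtain ⟨S, hS, hf⟩ := (Subgroup.fg_iff _).1 h3
  have hker : ∀ x : M, Φ x = 0 ↔ x.1 ∈ K := fun x => by
    rw [hΦ, e.map_eq_zero_iff, Subtype.ext_iff]
    constructor
    · exact fun h => ⟨⟨x, hMP x.2⟩, h, rfl⟩
    · rintro ⟨y, hy, h⟩
      have : Subgroup.inclusion hMP x = y := Subtype.ext h.symm
      exact (congrArg φ this).trans hy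
  have hSM : ∀ x ∈ S, x ∈ M ⊓ K := fun x hx => hS ▸ Subgroup.subset_closure hx
  refine ⟨⟨Φ, t, u, S, fun x hx y hy => ?_, ht, hu, Φt, Φu, hf, fun x hx => (hSM x hx).1,
    fun x hx => (hker ⟨x, (hSM x hx).1⟩).2 (hSM x hx).2,
    fun x hx h => hS ▸ ⟨hx, (hker ⟨x, hx⟩).1 h⟩⟩⟩
  rw [hΦ ⟨x, hx⟩, hΦ ⟨y, hy⟩, ← map_add]
  refine (hΦ (⟨x, hx⟩ * ⟨y, hy⟩)).trans (congrArg e (Subtype.ext ?_))
  exact congrArg Multiplicative.toAdd (map_mul ψ _ _)

namespace St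

variable {M : Subgroup H} (s : St M)

lemma Φ_one : s.Φ 1 = 0 := by simpa using s.add 1 M.one_mem 1 M.one_mem

lemma Φ_inv {x : H} (hx : x ∈ M) : s.Φ x⁻¹ = -s.Φ x := by
  have := s.add x⁻¹ (M.inv_mem hx) x hx
  rw [inv_mul_cancel, s.Φ_one] at this
  exact eq_neg_of_add_eq_zero_left this.symm

lemma Φ_zpow {x : H} (hx : x ∈ M) (n : ℤ) : s.Φ (x ^ n) = n • s.Φ x := by
  induction n using Int.induction_on with
  | zero => simp [s.Φ_one]
  | succ n ih => rw [zpow_add_one, s.add _ (M.zpow_mem hx _) _ hx, ih, add_smul, one_smul]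
  | pred n ih =>
    rw [zpow_sub_one, s.add _ (M.zpow_mem hx _) _ (M.inv_mem hx), ih, s.Φ_inv hx, sub_smul,
      one_smul, sub_eq_add_neg]

lemma Φ_cl {x : H} (hx : x ∈ Subgroup.closure s.S) : s.Φ x = 0 := by
  have hle : Subgroup.closure s.S ≤ M := (Subgroup.closure_le _).2 s.SM
  induction hx using Subgroup.closure_induction with
  | mem x hx => exact s.ΦS x hx
  | one => exact s.Φ_one
  | mul x y hx hy h h' => rw [s.add x (hle hx) y (hle hy), h, h', add_zero]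
  | inv x hx h => rw [s.Φ_inv (hle hx), h, neg_zero]

def T (v : ℤ × ℤ) : H := s.t ^ v.1 * s.u ^ v.2

lemma T_mem (v : ℤ × ℤ) : s.T v ∈ M := M.mul_mem (M.zpow_mem s.ht _) (M.zpow_mem s.hu _)

lemma Φ_T (v : ℤ × ℤ) : s.Φ (s.T v) = v := by
  rw [T, s.add _ (M.zpow_mem s.ht _) _ (M.zpow_mem s.hu _), s.Φ_zpow s.ht, s.Φ_zpow s.hu, s.Φt,
    s.Φu]
  simp

def G : Set H := insert s.t (insert s.u s.S)

lemma G_fin : s.G.Finite := (s.fin.insert _).insert _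

lemma GM : s.G ⊆ M := by
  rintro x (rfl | rfl | h)
  exacts [s.ht, s.hu, s.SM h]

lemma nu_mem {x : H} (hx : x ∈ M) : x * (s.T (s.Φ x))⁻¹ ∈ Subgroup.closure s.S := by
  refine s.ker _ (M.mul_mem hx (M.inv_mem (s.T_mem _))) ?_
  rw [s.add _ hx _ (M.inv_mem (s.T_mem _)), s.Φ_inv (s.T_mem _), s.Φ_T, add_neg_cancel]

lemma G_gen {x : H} (hx : x ∈ M) : x ∈ Subgroup.closure s.G := by
  have h1 : x * (s.T (s.Φ x))⁻¹ ∈ Subgroup.closure s.G :=
    Subgroup.closure_mono (fun _ h => .inr (.inr h)) (s.nu_mem hx)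
  have h2 : s.T (s.Φ x) ∈ Subgroup.closure s.G :=
    Subgroup.mul_mem _ (Subgroup.zpow_mem _ (Subgroup.subset_closure (.inl rfl)) _)
      (Subgroup.zpow_mem _ (Subgroup.subset_closure (.inr (.inl rfl))) _)
  simpa using Subgroup.mul_mem _ h1 h2

lemma cm_mem {x y : H} (hx : x ∈ M) (hy : y ∈ M) :
    x * y * x⁻¹ * y⁻¹ ∈ Subgroup.closure s.S := by
  have h1 := M.mul_mem hx hy
  have h2 := M.mul_mem h1 (M.inv_mem hx)
  refine s.ker _ (M.mul_mem h2 (M.inv_mem hy)) ?_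
  rw [s.add _ h2 _ (M.inv_mem hy), s.add _ h1 _ (M.inv_mem hx), s.add _ hx _ hy, s.Φ_inv hx,
    s.Φ_inv hy]
  abel

/-- The kernel is at most exponentially distorted. -/
lemma dist : ∃ c, 1 ≤ c ∧ ∀ L x, WL s.G L x → WL s.S (c ^ L) (x * (s.T (s.Φ x))⁻¹) ∧
    (s.Φ x).1.natAbs + (s.Φ x).2.natAbs ≤ L := by
  let G' : Set H := s.G ∪ s.G⁻¹
  have hG' : G'.Finite := s.G_fin.union s.G_fin.inv
  have hGM : ∀ x ∈ G', x ∈ M := fun x hx =>
    hx.elim (fun h => s.GM h) fun h => M.inv_mem_iff.1 (s.GM h)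
  obtain ⟨c, hc, h1⟩ := unif (A := s.S) (hG'.image2 (fun x y => x * y * x⁻¹ * y⁻¹) hG') (by
    rintro _ ⟨x, hx, y, hy, rfl⟩
    exact s.cm_mem (hGM x hx) (hGM y hy))
  have hcj : ∀ y ∈ G', ∀ L g, WL s.S L g → WL s.S ((c + 1) * L) (y * g * y⁻¹) := by
    intro y hy L g hg
    refine conj (fun x hx => ?_) hg
    have := mul (h1 _ ⟨y, hy, x, .inl (.inr (.inr hx)), rfl⟩) (letter (.inl hx))
    simpa using this
  have hcm : ∀ y ∈ G', ∀ L g, WL s.G L g → WL s.S ((2 * c + 1) ^ L) (y * g * y⁻¹ * g⁻¹) := by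
    intro y hy L g hg
    refine ind (P := fun L g => WL s.S ((2 * c + 1) ^ L) (y * g * y⁻¹ * g⁻¹))
      (fun L => by simpa using one _ _) ?_ hg
    intro L x g hx _ ih
    have e : y * (x * g) * y⁻¹ * (x * g)⁻¹ =
        y * x * y⁻¹ * x⁻¹ * (x * (y * g * y⁻¹ * g⁻¹) * x⁻¹) := by group
    rw [e]
    refine mono (mul (h1 _ ⟨y, hy, x, hx, rfl⟩) (hcj x hx _ _ ih)) ?_
    have : 1 ≤ (2 * c + 1) ^ L := Nat.one_le_pow _ _ (by omega)
    rw [pow_succ]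
    nlinarith
  refine ⟨2 * c + 2, by omega, fun L x hx => ?_⟩
  refine ind (P := fun L x => WL s.S ((2 * c + 2) ^ L) (x * (s.T (s.Φ x))⁻¹) ∧
    (s.Φ x).1.natAbs + (s.Φ x).2.natAbs ≤ L) (fun L => by
      simpa [s.Φ_one, T] using one _ _) ?_ hx
  intro L y x hy hx ⟨ih, ih'⟩
  have hxM : x ∈ M := mem s.GM hx
  have hyM : y ∈ M := hGM y hy
  have hp : 1 ≤ (2 * c + 2) ^ L := Nat.one_le_pow _ _ (by omega)
  have main : WL s.S ((2 * c + 2) ^ L) (y * s.T (s.Φ x) * (s.T (s.Φ y + s.Φ x))⁻¹) ∧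
      (s.Φ y).1.natAbs + (s.Φ y).2.natAbs ≤ 1 := by
    have hu : ∀ ε : ℤ, y = s.u ^ ε → ε.natAbs = 1 →
        WL s.S ((2 * c + 2) ^ L) (y * s.T (s.Φ x) * (s.T (s.Φ y + s.Φ x))⁻¹) ∧
        (s.Φ y).1.natAbs + (s.Φ y).2.natAbs ≤ 1 := by
      intro ε h hε
      have h2 : s.Φ y = (0, ε) := by rw [h, s.Φ_zpow s.hu, s.Φu]; simp
      have h3 := hcm y hy _ _ (zpow (letter (A := s.G) (x := s.t) (.inl (.inl rfl))) (s.Φ x).1)
      refine ⟨?_, by simp [h2, hε]⟩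
      have e : y * s.T (s.Φ x) * (s.T (s.Φ y + s.Φ x))⁻¹ =
          y * s.t ^ (s.Φ x).1 * y⁻¹ * (s.t ^ (s.Φ x).1)⁻¹ := by
        rw [h2, h]; simp only [T, Prod.fst_add, Prod.snd_add, zero_add]; group
      rw [e]
      exact mono h3 ((Nat.pow_le_pow_left (by omega) _).trans
        (Nat.pow_le_pow_right (by omega) (by omega)))
    have ht : ∀ ε : ℤ, y = s.t ^ ε → ε.natAbs = 1 →
        WL s.S ((2 * c + 2) ^ L) (y * s.T (s.Φ x) * (s.T (s.Φ y + s.Φ x))⁻¹) ∧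
        (s.Φ y).1.natAbs + (s.Φ y).2.natAbs ≤ 1 := by
      intro ε h hε
      have h2 : s.Φ y = (ε, 0) := by rw [h, s.Φ_zpow s.ht, s.Φt]; simp
      refine ⟨?_, by simp [h2, hε]⟩
      have e : y * s.T (s.Φ x) * (s.T (s.Φ y + s.Φ x))⁻¹ = 1 := by
        rw [h2, h]; simp only [T, Prod.fst_add, Prod.snd_add, zero_add]; group
      rw [e]
      exact one _ _
    have hS : (y ∈ s.S ∨ y⁻¹ ∈ s.S) →
        WL s.S ((2 * c + 2) ^ L) (y * s.T (s.Φ x) * (s.T (s.Φ y + s.Φ x))⁻¹) ∧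
        (s.Φ y).1.natAbs + (s.Φ y).2.natAbs ≤ 1 := by
      intro h
      have h2 : s.Φ y = 0 := s.Φ_cl (mem Subgroup.subset_closure (letter h))
      refine ⟨?_, by simp [h2]⟩
      simpa [h2] using mono (letter h) hp
    rcases hy with (h | h | h) | (h | h | h)
    · exact ht 1 (by simpa using h) rfl
    · exact hu 1 (by simpa using h) rfl
    · exact hS (.inl h)
    · exact ht (-1) (by simp [← h]) rfl
    · exact hu (-1) (by simp [← h]) rfl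
    · exact hS (.inr h)
  rw [s.add y hyM x hxM]
  refine ⟨?_, ?_⟩
  · have e : y * x * (s.T (s.Φ y + s.Φ x))⁻¹ = y * (x * (s.T (s.Φ x))⁻¹) * y⁻¹ *
        (y * s.T (s.Φ x) * (s.T (s.Φ y + s.Φ x))⁻¹) := by group
    rw [e]
    refine mono (mul (hcj y hy _ _ ih) main.1) ?_
    rw [pow_succ]
    nlinarith
  · have := main.2
    simp only [Prod.fst_add, Prod.snd_add]
    omega

end St

end NGrp

end

end Pool.Agent.Lib.MP_b65ff2_gt
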