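import Pool.Agent.Lib.MP_b65ff2_gt.NDet2

namespace Pool.Agent.Lib.MP_b65ff2_gt

open Matrix Filter Topology

set_option linter.unusedSectionVars false

noncomputable section

section aux
variable {m n k l : Type} [Fintype m] [Fintype n] [Fintype k] [Fintype l] {ε : ℝ}

lemma nkdj_rows (A : Matrix m k ℝ) (B : Matrix n k ℝ) (hε : 0 < ε) :
    ld ε (fromRows A B) ≤ ld ε A + ld ε B := by
  classical
  rw [ndet1_rows _ _ hε, add_comm, ld_eq_lam ε A]
  refine add_le_add (lam_mono (ndet1_schur _ _ hε) ?_ hε le_rfl) le_rfl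
  rw [sub_sub_cancel]
  have := ndet1_conj (ndet1_pd (psd_real B) hε).inv.posSemidef (A * Bᵀ)
  rwa [transpose_mul, transpose_transpose] at this

lemma nkdj_tri (A : Matrix m k ℝ) (W : Matrix m l ℝ) (B : Matrix n l ℝ) (hε : 0 < ε) :
    ld ε A + ld ε B ≤ ld ε (fromRows (fromCols A W) (fromCols 0 B)) := by
  classical
  rw [ndet1_rows _ _ hε, add_comm]
  simp only [transpose_fromCols, fromCols_mul_fromRows, transpose_zero,
    Matrix.mul_zero, zero_add, ld_eq_lam]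
  refine add_le_add le_rfl (lam_mono (psd_real _) ?_ hε le_rfl)
  convert ndet1_schur W B hε using 1
  simp only [Matrix.zero_mul, zero_add]
  abel

lemma nkdj_congr {A : Matrix m k ℝ} {B : Matrix m l ℝ} (h : A * Aᵀ = B * Bᵀ) :
    ld ε A = ld ε B := by rw [ld_eq_lam, ld_eq_lam, h]

lemma nkdj_one [i : DecidableEq m] {A : Matrix m k ℝ} (h : A * Aᵀ = 1) :
    ld ε A = Nat.card m * Real.log (1 + ε) := by
  obtain rfl : i = fun a b => Classical.propDecidable (a = b) := Subsingleton.elim _ _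
  rw [ld_eq_lam, h, ← ndet1_lam_smul, one_smul]

lemma nkdj_swap (A : Matrix m k ℝ) (B : Matrix n k ℝ) :
    ld ε (fromRows A B) = ld ε (fromRows B A) :=
  ld_sign _ _ (Equiv.sumComm _ _) (Equiv.refl _) 1 1 (by simp) (by simp) (by
    rintro (i | i) j <;> simp)

lemma nkdj_sq (d : Matrix m k ℝ) {t κ : ℝ} (ht : 0 < t) (hκ : 0 < κ) :
    2 * ld √(κ * t) d ≤ ld t (d * dᵀ) + Nat.card m * Real.log (1 + κ) := by
  classical
  have he : 0 < √(κ * t) := Real.sqrt_pos.2 (mul_pos hκ ht)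
  have hs : √(κ * t) * √(κ * t) = κ * t := Real.mul_self_sqrt (mul_pos hκ ht).le
  generalize √(κ * t) = e at he hs
  have hΔ := psd_real d
  rw [ld_eq, ld_eq]
  generalize d * dᵀ = Δ at hΔ
  have h1 := ndet1_pd hΔ he
  have h2 := ndet1_pd (psd_real Δ) ht
  have h3 : ((Δ + e • 1) * (Δ + e • (1 : Matrix m m ℝ))).PosDef := by
    have := PosDef.one.mul_mul_conjTranspose_same (B := Δ + e • (1 : Matrix m m ℝ))
      (vecMul_injective_iff_isUnit.2 h1.isUnit)
    rwa [Matrix.mul_one, h1.1] at this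
  have h4 := ndet1_log (B := (1 + κ) • (Δ * Δᵀ + t • 1)) h3 (by
    convert (psd_real (κ • Δ - e • 1)).smul (inv_nonneg.2 hκ.le) using 1
    have ht' : t = e * e / κ := by rw [hs]; field_simp
    simp only [transpose_sub, transpose_smul, transpose_one, ndet1_sym hΔ, Matrix.mul_add,
      Matrix.add_mul, Matrix.mul_sub, Matrix.sub_mul, Matrix.mul_smul, Matrix.smul_mul,
      Matrix.mul_one, Matrix.one_mul, ht']
    match_scalars <;> field_simp <;> ring)
  rw [det_mul, det_smul, Real.log_mul h1.det_pos.ne' h1.det_pos.ne',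
    Real.log_mul (by positivity) h2.det_pos.ne', Real.log_pow] at h4
  rw [Nat.card_eq_fintype_card]
  linarith

lemma nkdj_sel (A : Matrix m n ℝ) (P : m → Prop) (R : n → Prop) :
    sel P * A * (sel R)ᵀ = sub A P R := by
  classical
  ext i j
  simp only [sel, sub, Matrix.mul_apply, of_apply, transpose_apply, submatrix_apply, ite_mul,
    mul_ite, one_mul, mul_one, zero_mul, mul_zero]
  rw [Finset.sum_eq_single j.1 (fun _ _ h => if_neg h.symm) (by simp), if_pos rfl,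
    Finset.sum_eq_single i.1 (fun _ _ h => if_neg h.symm) (by simp), if_pos rfl]

end aux

theorem kdj {C0 C1 C2 C3 : Type} [Fintype C0] [Fintype C1] [Fintype C2] [Fintype C3]
    (d1 : Matrix C1 C0 ℝ) (d2 : Matrix C2 C1 ℝ) (d3 : Matrix C3 C2 ℝ) (h21 : d2 * d1 = 0)
    (h32 : d3 * d2 = 0) (a : C1 → Prop) (b : C2 → Prop)
    (ha : Nat.card {x // a x} = Nat.card C0) (hb : Nat.card {x // b x} = Nat.card C3)
    (h : Nat.card C2 + Nat.card C0 = Nat.card C1 + Nat.card C3) {δ κ : ℝ} (hδ : 0 < δ)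
    (hκ : 0 < κ) :
    ld (δ ^ 3) (sub d2 (¬b ·) (¬a ·)) + 2 * ld √(κ * δ ^ 3) d3 + 2 * ld √(κ * δ ^ 3) d1ᵀ ≤
      ld δ (fromCols d2 d3ᵀ) + ld δ d1ᵀ + ld δ (fromRows d3 (sel (¬b ·))) +
        ld δ (fromRows d1ᵀ (sel (¬a ·))) +
        (Nat.card C0 + Nat.card C3) * (Real.log (1 + δ) + Real.log (1 + κ)) := by
  classical
  have ca := Nat.card_congr (Equiv.sumCompl a)
  have cb := Nat.card_congr (Equiv.sumCompl b)
  rw [Nat.card_sum] at ca cb
  set sa : Matrix {x // ¬a x} C1 ℝ := sel (¬a ·) with hsa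
  set sb : Matrix {x // ¬b x} C2 ℝ := sel (¬b ·) with hsb
  set K : Matrix (C0 ⊕ ({x // ¬b x} ⊕ C3)) (C2 ⊕ C0) ℝ :=
    fromRows (fromCols 0 1) (fromCols (fromRows sb d3) 0) with hK
  set D : Matrix (C2 ⊕ C0) (C1 ⊕ C3) ℝ := fromRows (fromCols d2 d3ᵀ) (fromCols d1ᵀ 0) with hD
  set J : Matrix (C1 ⊕ C3) (C0 ⊕ ({x // ¬a x} ⊕ C3)) ℝ :=
    fromRows (fromCols d1 (fromCols saᵀ 0)) (fromCols 0 (fromCols 0 1)) with hJ
  have hX : K * D * J = fromRows (fromCols (d1ᵀ * d1ᵀᵀ) (fromCols (d1ᵀ * saᵀ) 0))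
      (fromCols 0 (fromRows (fromCols (sub d2 (¬b ·) (¬a ·)) (sb * d3ᵀ))
        (fromCols 0 (d3 * d3ᵀ)))) := by
    rw [← nkdj_sel, ← hsa, ← hsb, hK, hD, hJ]
    simp only [fromRows_mul, fromCols_mul_fromRows, mul_fromCols, Matrix.zero_mul, Matrix.one_mul,
      Matrix.mul_zero, Matrix.mul_one, zero_add, add_zero, h32, transpose_transpose,
      fromRows_zero, Matrix.mul_assoc, h21]
    ext (i | i | i) (j | j | j) <;> simp
  have h3 : 0 < δ ^ 3 := by positivity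
  have l1 := nkdj_tri (d1ᵀ * d1ᵀᵀ) (fromCols (d1ᵀ * saᵀ) (0 : Matrix C0 C3 ℝ))
    (fromRows (fromCols (sub d2 (¬b ·) (¬a ·)) (sb * d3ᵀ)) (fromCols 0 (d3 * d3ᵀ))) h3
  have l2 := nkdj_tri (sub d2 (¬b ·) (¬a ·)) (sb * d3ᵀ) (d3 * d3ᵀ) h3
  have l3 := nkdj_sq d3 h3 hκ
  have l4 := nkdj_sq d1ᵀ h3 hκ
  have u1 := ld_mul_le (K * D) J (by simp only [Nat.card_sum]; omega) (mul_pos hδ hδ) hδ
  have u2 := ld_mul_le K D (by simp only [Nat.card_sum]; omega) hδ hδ
  rw [hX, show δ * δ * δ = δ ^ 3 by ring] at u1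
  have u3 : ld δ K ≤ Nat.card C0 * Real.log (1 + δ) + ld δ (fromRows d3 sb) := by
    refine (nkdj_rows _ _ hδ).trans (le_of_eq ?_)
    rw [nkdj_one (by simp [transpose_fromCols, fromCols_mul_fromRows]), nkdj_swap d3,
      nkdj_congr (B := fromRows sb d3) (by simp [transpose_fromCols, fromCols_mul_fromRows])]
  have u4 : ld δ D ≤ ld δ (fromCols d2 d3ᵀ) + ld δ d1ᵀ := by
    refine (nkdj_rows _ _ hδ).trans (le_of_eq ?_)
    rw [nkdj_congr (A := fromCols d1ᵀ 0) (B := d1ᵀ)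
      (by simp [transpose_fromCols, fromCols_mul_fromRows])]
  have u5 : ld δ J ≤ ld δ (fromRows d1ᵀ sa) + Nat.card C3 * Real.log (1 + δ) := by
    refine (nkdj_rows _ _ hδ).trans (le_of_eq ?_)
    rw [nkdj_one (m := C3) (by simp [transpose_fromCols, fromCols_mul_fromRows]),
      ← ld_tr (fromRows d1ᵀ sa) hδ (by simp only [Nat.card_sum]; omega),
      nkdj_congr (B := (fromRows d1ᵀ sa)ᵀ)
        (by simp [transpose_fromCols, transpose_fromRows, fromCols_mul_fromRows])]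
  linarith

end

end Pool.Agent.Lib.MP_b65ff2_gt
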