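import Pool.Agent.Lib.MP_b65ff2_gt.NBase

namespace Pool.Agent.Lib.MP_b65ff2_gt

open Matrix

set_option linter.unusedSectionVars false

noncomputable section

abbrev V : Type := Fin 11
abbrev va0 : V := 0
abbrev va1 : V := 1
abbrev vcB : V := 2
abbrev vcL : V := 3
abbrev vcR : V := 4
abbrev vw : V := 5
abbrev vx0 : V := 6
abbrev vx1 : V := 7
abbrev vy0 : V := 8
abbrev vyh : V := 9
abbrev vz : V := 10

def edgeL : List (V × V) :=
  [(0, 2), (0, 3), (0, 5), (0, 6), (0, 8), (1, 2), (1, 4), (1, 5), (1, 7), (1, 8), (2, 5), (2, 8),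
    (3, 5), (3, 6), (3, 9), (4, 5), (4, 7), (4, 9), (5, 9), (6, 8), (6, 9), (6, 10), (7, 8), (7, 9),
    (7, 10), (8, 10), (9, 10)]

/-- A flag triangulation of the two-sphere with eleven vertices. -/
def L11 : SimpleGraph V where
  Adj s t := (s, t) ∈ edgeL ∨ (t, s) ∈ edgeL
  symm := ⟨fun _ _ h => h.symm⟩
  loopless := ⟨by decide⟩

instance : DecidableRel L11.Adj := fun s t =>
  inferInstanceAs (Decidable ((s, t) ∈ edgeL ∨ (t, s) ∈ edgeL))

abbrev W : Type := RA L11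

abbrev gW (s : V) : W := gn L11 s

/-- The four mirrors of the cusp. -/
def XY : Finset V := {vx0, vx1, vy0, vyh}

/-- The six generators that act as reflections at points of the plane. -/
def Six : Finset V := {va0, va1, vcB, vcL, vcR, vw}

/-! The plane and the torus -/

def plane : SimpleGraph (ℤ × ℤ) where
  Adj P R := |P.1 - R.1| + |P.2 - R.2| = 1 ∨
    (|P.1 - R.1| = 1 ∧ |P.2 - R.2| = 1 ∧ (P.1 + P.2) % 2 = 0)
  symm := ⟨fun P R h => by
    rw [abs_sub_comm R.1, abs_sub_comm R.2]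
    refine h.imp_right fun h => ⟨h.1, h.2.1, ?_⟩
    rcases h with ⟨h1, h2, h3⟩
    rw [abs_eq zero_le_one] at h1 h2
    omega⟩
  loopless := ⟨fun P => by simp⟩

def colZ (P : ℤ × ℤ) : Fin 3 := if (P.1 + P.2) % 2 = 1 then 2 else if P.1 % 2 = 0 then 0 else 1

abbrev Tor (n : ℕ) : Type := ZMod (4 * 2 ^ (n + 1)) × ZMod (4 * 3 ^ n)

def prj (n : ℕ) (P : ℤ × ℤ) : Tor n := (P.1, P.2)

def torG (n : ℕ) : SimpleGraph (Tor n) where
  Adj P R := P ≠ R ∧ ∃ A B, plane.Adj A B ∧ prj n A = P ∧ prj n B = R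
  symm := ⟨fun _ _ ⟨h, A, B, h1, h2, h3⟩ => ⟨h.symm, B, A, h1.symm, h3, h2⟩⟩
  loopless := ⟨fun _ h => h.1 rfl⟩

def colT (n : ℕ) (P : Tor n) : Fin 3 := colZ (P.1.val, P.2.val)

/-- The rotation game. -/
def Game {T : Type} (Γ : SimpleGraph T) (col : T → Fin 3) (τ : T → ℕ) (sg : T → ZMod 2) : Prop :=
  Function.Injective τ ∧ (∀ P R, Γ.Adj P R → col P ≠ col R) ∧
    (∃ P R U, col P = col R ∧ col P = col U ∧ P ≠ R ∧ sg P = sg R ∧ sg P ≠ sg U) ∧
    ∀ (k : ℕ) (ε : Fin 3 → ZMod 2),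
      (Γ.induce {P | ε (col P) + sg P + (if τ P < k then 1 else 0) = 0}).Connected

def xw (u : ℤ) : W := (gW vx1 * gW vx0) ^ (u / 2) * if u % 2 = 0 then 1 else gW vx1

def yw (v : ℤ) : W := (gW vyh * gW vy0) ^ (v / 2) * if v % 2 = 0 then 1 else gW vyh

def dd (u v : ℤ) : W := xw u * yw v

def base (s : V) : ℤ × ℤ :=
  if s = va1 then (2, 0) else if s = vcB then (1, 0) else if s = vcL then (0, 1)
  else if s = vcR then (2, 1) else if s = vw then (1, 1) else (0, 0)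

def pos (u v : ℤ) (s : V) : ℤ × ℤ :=
  (2 * u + if u % 2 = 0 then (base s).1 else 2 - (base s).1,
    v + if v % 2 = 0 then (base s).2 else 1 - (base s).2)

def typ (P : ℤ × ℤ) : V :=
  if P.2 % 2 = 0 then (if P.1 % 4 = 0 then va0 else if P.1 % 4 = 2 then va1 else vcB)
  else if P.1 % 4 = 0 then vcL else if P.1 % 4 = 2 then vcR else vw

def rr (P : ℤ × ℤ) : W := dd (P.1 / 2) P.2 * gW (typ P) * (dd (P.1 / 2) P.2)⁻¹

def mir (t : V) (P : ℤ × ℤ) : ℤ × ℤ :=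
  if t = vx0 then (-P.1, P.2) else if t = vx1 then (4 - P.1, P.2)
  else if t = vy0 then (P.1, -P.2) else if t = vyh then (P.1, 2 - P.2) else P

/-! The filled groups -/

def relP (n : ℕ) : Set W :=
  {(gW vx0 * gW vx1) ^ 2 ^ (n + 1), (gW vy0 * gW vyh) ^ (2 * 3 ^ n),
    gW vz * ((gW vy0 * gW vyh) ^ 3 ^ n)⁻¹}

abbrev Fil (n : ℕ) : Type := W ⧸ Subgroup.normalClosure (relP n)

def psi (n : ℕ) : W →* Fil n := QuotientGroup.mk' _

/-- The generators of the filled group. -/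
def gP (n : ℕ) (s : {s : V // s ≠ vz}) : Fil n := psi n (gW s.1)

def Typ (n : ℕ) (N : Subgroup W) : Prop :=
  N.Normal ∧ N.FiniteIndex ∧ (∀ g ∈ N, par L11 g = 0) ∧
    ∀ g, psi n g = 1 → par L11 g vz = 0 → g ∈ N

/-- Finite models for the torsion estimate. -/
structure TD (n : ℕ) (Q : Type) [Group Q] extends PM L11 Q where
  ρ : Fil n →* Q
  ρ_g : ∀ s, s ≠ vz → ρ (psi n (gW s)) = g s
  cen : ∀ s, Commute (g vz * ρ (psi n (gW vz))) (g s)

/-- The subgroup of the lattice model. -/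
def PM.D0 {Q : Type} [Group Q] (M : PM L11 Q) : Subgroup Q :=
  Subgroup.closure {M.g vx0, M.g vx1, M.g vy0, M.g vyh * M.g vy0 * M.g vyh}

open DihedralGroup in
/-- Finite models for the determinant estimate. -/
structure FM (j : ℕ) (Q : Type) [Group Q] extends PM L11 Q where
  m1 : ℕ
  m2 : ℕ
  m3 : ℕ
  le1 : j < m1
  le2 : j < m2
  le3 : j < m3
  ξ : Q →* DihedralGroup m1
  υ : Q →* DihedralGroup m2
  η : Q →* DihedralGroup m3
  ξ_g : ∀ s, ξ (g s) = if s = vx0 then sr 0 else if s = vx1 then sr 1 else 1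
  υ_g : ∀ s, s ≠ vz → υ (g s) = if s = vy0 then sr 0 else if s = vyh then sr 1 else 1
  υ_z : ∃ i, υ (g vz) = r i
  η_g : ∀ s, η (g s) = if s = va0 then sr (-1) else if s = va1 then sr 1
    else if s = vyh ∨ s = vz then sr 0 else 1
  free : ∀ l : List Q, l ≠ [] → l.length ≤ j → (∀ d ∈ l, d ∈ toPM.D0 ∧ d ≠ 1) →
    (l.map (· * g vw)).prod ≠ 1

def FM.mono {j j' : ℕ} {Q : Type} [Group Q] (M : FM j Q) (h : j' ≤ j) : FM j' Q :=
  { M with
    le1 := h.trans_lt M.le1, le2 := h.trans_lt M.le2, le3 := h.trans_lt M.le3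
    free := fun l h1 h2 => M.free l h1 (h2.trans h) }

lemma FM.mono_toPM {j j' : ℕ} {Q : Type} [Group Q] (M : FM j Q) (h : j' ≤ j) :
    (M.mono h).toPM = M.toPM := rfl

variable {Q : Type} [Group Q] (M : PM L11 Q)

/-- Cells of the manifold with boundary. -/
def PM.in0 (x : M.Cell) : Prop := M.p x.1.1 vz = 0 ∧ vz ∉ x.1.2

def PM.d20 : Matrix {x : M.C 2 // M.in0 x.1} {x : M.C 1 // M.in0 x.1} ℤ := sub (M.dZ 1) _ _

/-- Pivot edges. -/
def PM.pa (x : M.C 1) : Prop := x.1.1.2 = {vx0} ∨ x.1.1.2 = {vx1}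

/-- Pivot squares. -/
def PM.pb (x : M.C 2) : Prop :=
  x.1.1.2 ∈ ({{vcB, vw}, {vcB, vy0}, {vcL, vw}, {vcL, vx0}, {vcR, vw}, {vcR, vx1}} :
      Finset (Finset V)) ∨
    (x.1.1.2 ∈ ({{va0, vx0}, {va1, vx1}} : Finset (Finset V)) ∧ M.p x.1.1.1 vy0 = 1) ∨
    (x.1.1.2 ∈ ({{vx0, vy0}, {vx0, vyh}, {vx1, vy0}, {vx1, vyh}} : Finset (Finset V)) ∧
      M.p x.1.1.1 vz = 1)

def PM.KK : Matrix (M.C 3 ⊕ {x : M.C 2 // ¬M.pb x}) (M.C 2) ℝ := fromRows (M.dR 2) (sel _)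

def PM.JT : Matrix (M.C 0 ⊕ {x : M.C 1 // ¬M.pa x}) (M.C 1) ℝ := fromRows (M.dR 0)ᵀ (sel _)

def PM.UU : Matrix {x : M.C 2 // ¬M.pb x} {x : M.C 1 // ¬M.pa x} ℝ := sub (M.dR 1) _ _

def PM.ka (q : Q) : ZMod 2 := M.p q va0 + M.p q va1 + M.p q vyh + M.p q vz

def PM.xk (q : Q) : V := if M.ka q = 0 then vx0 else vx1

def PM.ak (q : Q) : V := if M.ka q = 0 then va0 else va1

def PM.be (q : Q) : Q :=
  q * (if M.p q (M.xk q) = 0 then 1 else M.g (M.xk q)) * if M.p q vy0 = 0 then 1 else M.g vy0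

abbrev PM.Vv : Type := {q : Q // M.ka q = 0}

abbrev PM.Rows : Type := {q : Q // M.p q vw = 0 ∧ M.ka q = 0}

abbrev PM.Cols : Type := {q : Q // M.p q (M.xk q) = 0 ∧ M.p q vy0 = 0}

def PM.jw (q : M.Vv) : M.Vv :=
  ⟨q.1 * M.g vw, by simpa +decide [PM.ka, PM.p_mul_g] using q.2⟩

open Classical in
/-- The coboundary of the square lattice graph, as a function of the chamber. -/
def PM.dl (q : Q) (c : M.Cols) : ℝ :=
  (if M.be q = c.1 then 1 else 0) - if M.be (q * M.g vyh) = c.1 then 1 else 0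

def PM.dlt : Matrix M.Vv M.Cols ℝ := .of fun q c => M.dl q.1 c

def PM.Alat : Matrix M.Rows M.Cols ℝ := .of fun q c => M.dl q.1 c - M.dl (q.1 * M.g vw) c

open Classical in
/-- The block of the edges of types `a0`, `a1`, `w`; `t = 1` is the block, `t = 0` its leading part. -/
def PM.Ablk (t : ℝ) : Matrix
    ({q : Q // M.p q vy0 = 0} ⊕ M.Cols ⊕ {q : Q // M.p q vw = 0} ⊕ M.Rows)
    (Q ⊕ {q : Q // M.p q vw = 0}) ℝ := .of fun x y =>
  match x, y with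
  | .inl q, .inl u => (if q.1 = u then 1 else 0) - if q.1 * M.g vy0 = u then 1 else 0
  | .inr (.inl q), .inl u => (if q.1 = u then 1 else 0) - if q.1 * M.g (M.xk q.1) = u then 1 else 0
  | .inr (.inr (.inl q)), .inl u =>
      (if q.1 = u then 1 else 0) - if q.1 * M.g vw = u then 1 else 0
  | .inr (.inr (.inl q)), .inr o =>
      t * (if q.1 * M.g (M.ak q.1) = o.1 then 1 else 0) - if q.1 = o.1 then 1 else 0
  | .inr (.inr (.inr q)), .inr o =>
      (if q.1 = o.1 then 1 else 0) - if q.1 * M.g vyh = o.1 then 1 else 0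
  | _, _ => 0

end

end Pool.Agent.Lib.MP_b65ff2_gt
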