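import Pool.Agent.Lib.MP_b65ff2_gt.NBase

namespace Pool.Agent.Lib.MP_b65ff2_gt

open Matrix Filter Topology

set_option linter.unusedSectionVars false

noncomputable section

variable {S : Type} [Fintype S] [DecidableEq S] [LinearOrder S] {Γ : SimpleGraph S}

section
variable {Q Q0 : Type} [Group Q] [Group Q0] (M : PM Γ Q) {π : GG Γ →* Q0}

/-- The vertex with coset `q` and parity `p`. -/
def ntr_E (sur : Function.Surjective π) (q : Q0) (p : S → ZMod 2) : Q :=
  M.f (Function.surjInv sur q : GG Γ) * M.f (sec Γ p)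

lemma ntr_lift (sur : Function.Surjective π) (hk : ∀ g, π g = 1 ↔ M.f g = 1) (g : GG Γ) :
    M.f (Function.surjInv sur (π g) : GG Γ) = M.f g := by
  have := (hk ((Function.surjInv sur (π g))⁻¹ * g)).1 (by
    rw [map_mul, map_inv, Function.surjInv_eq sur, inv_mul_cancel])
  rwa [Subgroup.coe_mul, Subgroup.coe_inv, map_mul, map_inv, inv_mul_eq_one] at this

lemma ntr_E_pi (sur : Function.Surjective π) (hk : ∀ g, π g = 1 ↔ M.f g = 1) (g : GG Γ)
    (p : S → ZMod 2) : ntr_E M sur (π g) p = M.f g * M.f (sec Γ p) := by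
  rw [ntr_E, ntr_lift M sur hk]

lemma ntr_p (sur : Function.Surjective π) (q : Q0) (p : S → ZMod 2) :
    M.p (ntr_E M sur q p) = p := by
  rw [ntr_E, M.p_mul, M.p_f, M.p_f, par_sec, (mem_GG Γ).1 (Function.surjInv sur q).2, zero_add]

lemma ntr_inj (sur : Function.Surjective π) (hk : ∀ g, π g = 1 ↔ M.f g = 1) {q q' : Q0}
    {p p' : S → ZMod 2} : ntr_E M sur q p = ntr_E M sur q' p' ↔ q = q' ∧ p = p' := by
  refine ⟨fun h => ?_, fun h => by rw [h.1, h.2]⟩
  have hp : p = p' := by rw [← ntr_p M sur q p, h, ntr_p]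
  subst hp
  obtain ⟨g, rfl⟩ := sur q
  obtain ⟨g', rfl⟩ := sur q'
  rw [ntr_E_pi M sur hk, ntr_E_pi M sur hk, mul_left_inj] at h
  refine ⟨?_, rfl⟩
  have := (hk (g⁻¹ * g')).2 (by
    rw [Subgroup.coe_mul, Subgroup.coe_inv, map_mul, map_inv, h, inv_mul_cancel])
  rwa [map_mul, map_inv, inv_mul_eq_one] at this

lemma ntr_surj (sur : Function.Surjective π) (hk : ∀ g, π g = 1 ↔ M.f g = 1) (u : Q) :
    ∃ q, ntr_E M sur q (M.p u) = u := by
  obtain ⟨w, rfl⟩ := M.f_surj u
  refine ⟨π ⟨w * (sec Γ (par Γ w))⁻¹, ?_⟩, ?_⟩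
  · have := par_sec Γ (par Γ w)
    simp_all [mem_GG, par]
  · rw [ntr_E_pi M sur hk, M.p_f]
    simp

lemma ntr_step (sur : Function.Surjective π) (hk : ∀ g, π g = 1 ↔ M.f g = 1) (q : Q0)
    (p : S → ZMod 2) (s : S) :
    ntr_E M sur q p * M.g s = ntr_E M sur (q * π (gam Γ p s)) (p + Pi.single s 1) := by
  obtain ⟨g, rfl⟩ := sur q
  rw [← map_mul, ntr_E_pi M sur hk, ntr_E_pi M sur hk]
  simp [gam, mul_assoc]

end

theorem transfer {Q Q0 : Type} [Group Q] [Group Q0] (M : PM Γ Q) (π : GG Γ →* Q0)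
    (sur : Function.Surjective π) (hk : ∀ g, π g = 1 ↔ M.f g = 1) :
    Nat.card Q = Nat.card Q0 * 2 ^ Fintype.card S ∧
    ∃ e : Q0 × Iota Γ ≃ M.Cell, (∀ x, (e x).1.2.card = degI Γ x.2) ∧
      ∀ x y, (push π (dG Γ) x.2 y.2).coeff (x.1⁻¹ * y.1) = M.bd (e x) (e y) := by
  classical
  constructor
  · have b : Function.Bijective fun x : Q0 × (S → ZMod 2) => ntr_E M sur x.1 x.2 :=
      ⟨fun x y h => Prod.ext ((ntr_inj M sur hk).1 h).1 ((ntr_inj M sur hk).1 h).2,
        fun u => by obtain ⟨q, hq⟩ := ntr_surj M sur hk u; exact ⟨(q, M.p u), hq⟩⟩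
    rw [← Nat.card_congr (Equiv.ofBijective _ b), Nat.card_prod, Nat.card_fun, Nat.card_zmod,
      Nat.card_eq_fintype_card (α := S)]
  · let φ : Q0 × Iota Γ → M.Cell := fun x =>
      ⟨(ntr_E M sur x.1 x.2.1.1, x.2.1.2), x.2.2.1, fun s hs => by
        rw [ntr_p]; exact x.2.2.2 s hs⟩
    have b : Function.Bijective φ := by
      constructor
      · intro x y h
        have h0 := congrArg Subtype.val h
        have h1 := (ntr_inj M sur hk).1 (congrArg Prod.fst h0)
        have h2 : x.2.1.2 = y.2.1.2 := congrArg (fun c : M.Cell => c.1.2) h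
        exact Prod.ext h1.1 (Subtype.ext (Prod.ext h1.2 h2))
      · intro c
        obtain ⟨q, hq⟩ := ntr_surj M sur hk c.1.1
        exact ⟨(q, ⟨(M.p c.1.1, c.1.2), c.2⟩), Subtype.ext (Prod.ext hq rfl)⟩
    refine ⟨Equiv.ofBijective φ b, fun x => rfl, fun x y => ?_⟩
    obtain ⟨q, ⟨p, T⟩, hx⟩ := x
    obtain ⟨q', ⟨p', T'⟩, hy⟩ := y
    simp only [push, dG, PM.bd, Equiv.ofBijective_apply, φ, map_apply, of_apply, map_sum,
      MonoidAlgebra.coeff_sum, Finsupp.finsetSum_apply, Prod.mk.injEq]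
    refine Finset.sum_congr rfl fun s _ => ?_
    rw [ntr_step M sur hk, ntr_inj M sur hk, ntr_inj M sur hk, map_zsmul,
      MonoidAlgebra.coeff_smul_apply, smul_eq_mul, map_sub]
    congr 1
    rw [MonoidAlgebra.coeff_sub, Finsupp.sub_apply]
    congr 1
    · by_cases c : p' = p + Pi.single s 1 ∧ T' = T.erase s
      · rw [if_pos c]
        simp [c, Finsupp.single_apply, eq_inv_mul_iff_mul_eq, eq_comm (a := q')]
      · rw [if_neg c, if_neg (by tauto)]
        simp
    · by_cases c : p' = p ∧ T' = T.erase s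
      · rw [if_pos c]
        simp [c, MonoidAlgebra.one_def, Finsupp.single_apply, eq_inv_mul_iff_mul_eq,
          eq_comm (a := q')]
      · rw [if_neg c, if_neg (by tauto)]
        simp

theorem isCx_push {G H I : Type} [Group G] [Group H] [Fintype I] [DecidableEq I] {deg : I → ℕ}
    {d : Matrix I I (MonoidAlgebra ℤ G)} (h : IsCx deg d) (f : G →* H) : IsCx deg (push f d) :=
  ⟨fun i j e => h.1 i j fun e' => e (by simp [push, e']), by
    rw [push, ← Matrix.map_mul, h.2]; simp⟩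

lemma ntr_tors {A A' : Type} [AddCommGroup A] [AddCommGroup A'] (f : A →+ A')
    (hf : Function.Injective f) (hr : ∀ y, IsOfFinAddOrder y → ∃ x, f x = y) :
    torsCard A = torsCard A' := by
  refine Nat.card_congr (Equiv.ofBijective
    (fun x : AddCommGroup.torsion A => (⟨f x, f.isOfFinAddOrder x.2⟩ : AddCommGroup.torsion A'))
    ⟨fun x y e => Subtype.ext (hf (congrArg Subtype.val e)), fun y => ?_⟩)
  obtain ⟨x, hx⟩ := hr y y.2
  exact ⟨⟨x, hf.isOfFinAddOrder_iff.1 (hx ▸ y.2)⟩, Subtype.ext hx⟩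

theorem tors_tc {Q0 I Ω : Type} [Group Q0] [Finite Q0] [Fintype I] [DecidableEq I] {deg : I → ℕ}
    {d : Matrix I I (MonoidAlgebra ℤ Q0)} (h : IsCx deg d) (dg : Ω → ℕ) (B : Matrix Ω Ω ℤ)
    (e : Q0 × I ≃ Ω) (h1 : ∀ x, dg (e x) = deg x.2)
    (h2 : ∀ x y, (d x.2 y.2).coeff (x.1⁻¹ * y.1) = B (e x) (e y)) (n : ℕ) :
    tors deg d n = tc (sub B (dg · = n + 1) (dg · = n)) := by
  classical
  cases nonempty_fintype Q0
  let _ : Fintype Ω := Fintype.ofEquiv _ e
  let ψ : ∀ m, (I → MonoidAlgebra ℤ Q0) →ₗ[ℤ] ({j // dg j = m} → ℤ) := fun m =>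
    { toFun := fun x j => (x (e.symm j.1).2).coeff (e.symm j.1).1
      map_add' := fun _ _ => by ext; simp
      map_smul' := fun _ _ => rfl }
  have hψ : ∀ m x j, ψ m x j = (x (e.symm j.1).2).coeff (e.symm j.1).1 := fun _ _ _ => rfl
  have inj : ∀ m, ∀ x ∈ chains (MonoidAlgebra ℤ Q0) deg m, ψ m x = 0 → x = 0 := by
    intro m x hx h0
    ext i q
    by_cases hi : deg i = m
    · have := congrFun h0 ⟨e (q, i), (h1 _).trans hi⟩
      simpa [hψ] using this
    · rw [show x i = 0 from hx i hi]; rfl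
  have srj : ∀ m v, ∃ x ∈ chains (MonoidAlgebra ℤ Q0) deg m, ψ m x = v := by
    intro m v
    refine ⟨fun i => .ofCoeff (Finsupp.equivFunOnFinite.symm fun q =>
      if hi : deg i = m then v ⟨e (q, i), (h1 _).trans hi⟩ else 0), fun i hi => ?_, ?_⟩
    · have hi' : deg i ≠ m := hi
      change _ = 0
      ext q
      simp [hi']
    · funext j
      have : deg (e.symm j.1).2 = m := by rw [← h1, e.apply_symm_apply, j.2]
      simp [hψ, this]
  have nat : ∀ x ∈ chains (MonoidAlgebra ℤ Q0) deg (n + 1),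
      ψ n (bdry d x) = ψ (n + 1) x ᵥ* sub B (dg · = n + 1) (dg · = n) := by
    intro x hx
    funext j
    have e1 : ψ n (bdry d x) j =
        ∑ ω : Ω, (x (e.symm ω).2).coeff (e.symm ω).1 * B ω j.1 := by
      rw [hψ, ← e.sum_comp]
      change ((x ᵥ* d) _).coeff _ = _
      simp only [vecMul, dotProduct, MonoidAlgebra.coeff_sum, Finsupp.finsetSum_apply,
        Fintype.sum_prod_type_right, Equiv.symm_apply_apply]
      refine Finset.sum_congr rfl fun i _ => ?_
      rw [MonoidAlgebra.coeff_mul_apply_left, Finsupp.sum_fintype _ _ (by simp)]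
      refine Finset.sum_congr rfl fun q _ => ?_
      rw [h2 (q, i) (e.symm j.1), e.apply_symm_apply]
    rw [e1, ← Finset.sum_filter_of_ne (p := fun ω => dg ω = n + 1), Finset.sum_subtype
      (p := fun ω => dg ω = n + 1) _ (by simp)]
    · rfl
    · intro ω _ hω
      by_contra hne
      refine hω ?_
      rw [show x (e.symm ω).2 = 0 from hx _ (by
        change deg _ ≠ _
        rwa [← h1, e.apply_symm_apply])]
      simp
  have hB : ∀ x ∈ chains (MonoidAlgebra ℤ Q0) deg (n + 1), bdry d x ∈ cycles deg d n := by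
    intro x hx
    refine ⟨fun k hk => Finset.sum_eq_zero fun i _ => ?_, ?_⟩
    · by_cases e : d i k = 0
      · simp [e]
      · rw [show x i = 0 from hx i fun e' => hk (by have := h.1 i k e; omega), zero_mul]
    · change (x ᵥ* d) ᵥ* d = 0
      rw [vecMul_vecMul, h.2, vecMul_zero]
  have key : ∀ x ∈ chains (MonoidAlgebra ℤ Q0) deg n,
      ψ n x ∈ Submodule.span ℤ (Set.range (sub B (dg · = n + 1) (dg · = n)).row) ↔
        x ∈ (chains _ deg (n + 1)).map (bdry d) := by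
    intro x hx
    rw [← range_vecMulLinear]
    constructor
    · rintro ⟨v, hv⟩
      obtain ⟨y, hy, rfl⟩ := srj _ v
      refine ⟨y, hy, sub_eq_zero.1 (inj n _ (Submodule.sub_mem _ (hB y hy).1 hx) ?_)⟩
      rw [map_sub, nat y hy, ← hv, vecMulLinear_apply, sub_self]
    · rintro ⟨y, hy, rfl⟩
      exact ⟨_, (nat y hy).symm⟩
  refine ntr_tors (Submodule.mapQ
    (((chains _ deg (n + 1)).map (bdry d)).submoduleOf (cycles deg d n))
    (Submodule.span ℤ (Set.range (sub B (dg · = n + 1) (dg · = n)).row))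
    ((ψ n).comp (cycles deg d n).subtype)
    fun z hz => Submodule.mem_comap.2 ((key z.1 z.2.1).2 hz)).toAddMonoidHom ?_ ?_
  · rw [injective_iff_map_eq_zero]
    intro a ha
    obtain ⟨z, rfl⟩ := Submodule.Quotient.mk_surjective _ a
    exact (Submodule.Quotient.mk_eq_zero _).2
      ((key z.1 z.2.1).1 ((Submodule.Quotient.mk_eq_zero _).1 ha))
  · intro y hy
    obtain ⟨v, rfl⟩ := Submodule.Quotient.mk_surjective _ y
    obtain ⟨x, hx, rfl⟩ := srj n v
    obtain ⟨m, hm, e0⟩ := isOfFinAddOrder_iff_zsmul_eq_zero.1 hy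
    rw [← Submodule.Quotient.mk_smul, Submodule.Quotient.mk_eq_zero, ← map_smul,
      key _ (Submodule.smul_mem _ _ hx)] at e0
    obtain ⟨y, hy', e1⟩ := e0
    have e2 := (hB y hy').2
    rw [e1] at e2
    exact ⟨Submodule.Quotient.mk ⟨x, hx,
      (smul_eq_zero.1 ((map_smul _ _ _).symm.trans e2)).resolve_left hm⟩, rfl⟩

end

end Pool.Agent.Lib.MP_b65ff2_gt
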