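import Pool.Agent.Lib.MP_b65ff2_gt.NFin
import Pool.Agent.Lib.MP_b65ff2_gt.NApx
import Pool.Agent.Lib.MP_b65ff2_gt.NFm
import Pool.Agent.Lib.MP_b65ff2_gt.NTr
import Pool.Agent.Lib.MP_b65ff2_gt.NEx

namespace Pool.Agent.Lib.MP_b65ff2_gt

open Matrix Filter Topology

set_option linter.unusedSectionVars false

noncomputable section

lemma nl2_count : Countable W :=
  Function.Surjective.countable (f := wd L11) fun w => (exists_red w).imp fun _ h => h.2

lemma nl2_zero {G K : Type} [Group G] [Fintype K] [DecidableEq K] (deg : K → ℕ)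
    (L : Matrix K K (QG G)) {p : ℕ} (h : ∀ i, deg i ≠ p) (ε : ℝ) : FF deg L p ε = 0 :=
  Finset.sum_eq_zero fun i hi => absurd (Finset.mem_filter.1 hi).2 (h i)

theorem l2main : ∃ ρ < 0, HasL2Torsion (degI L11) (dG L11) 3 ρ := by
  classical
  have := nl2_count
  obtain ⟨en, hen⟩ := exists_surjective_nat W
  choose Q i1 i2 M hM using fun k : ℕ =>
    fmex k (((Finset.range (k + 1)).image en).erase 1) (Finset.notMem_erase _ _)
  let π := fun k => QuotientGroup.mk' ((M k).toPM.f.ker.subgroupOf (GG L11))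
  have hk : ∀ k g, π k g = 1 ↔ (M k).toPM.f g = 1 := fun k g => QuotientGroup.eq_one_iff g
  have sep : ∀ g ≠ 1, ∀ᶠ k in atTop, π k g ≠ 1 := fun g hg => by
    obtain ⟨n, hn⟩ := hen g
    refine (eventually_ge_atTop n).mono fun k h e => hM k g ?_ ((hk k g).1 e)
    exact Finset.mem_erase.2 ⟨fun e => hg (Subtype.ext e),
      Finset.mem_image.2 ⟨n, Finset.mem_range.2 (by omega), hn⟩⟩
  choose hc e e1 e2 using fun k => transfer (M k).toPM (π k) (QuotientGroup.mk'_surjective _) (hk k)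
  have hd := (dG_res L11).1
  have hd' := hd.map (cq (GG L11))
  let L := fun k p ε => lp (fun x : (M k).toPM.Cell => x.1.2.card) (M k).toPM.bd p ε
  let F := FF (degI L11) (Lap ((dG L11).map (cq _)))
  let c := fun k => (Nat.card (GG L11 ⧸ (M k).toPM.f.ker.subgroupOf (GG L11)) : ℝ)
  have A : ∀ p, ∀ ε > 0, Tendsto (fun k => L k p ε / c k) atTop (𝓝 (F p ε)) := fun p ε hε =>
    apx hd π sep _ _ e e1 e2 p hε
  have c0 : ∀ k, 0 < c k := fun k => by
    simp only [c]
    exact_mod_cast Nat.card_pos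
  have c1 : ∀ k, (Nat.card (Q k) : ℝ) = c k * 2 ^ 11 := fun k => by
    rw [hc, Fintype.card_fin]; simp only [c]; norm_num
  have B : ∀ p, ∀ ε > 0, (∀ γ > 0, ∃ j, ∀ k ≥ j, -(γ * (Nat.card (Q k) : ℝ)) ≤ L k p ε) →
      0 ≤ F p ε := fun p ε hε h => by
    refine le_of_forall_pos_le_add fun γ hγ => ?_
    obtain ⟨j, hj⟩ := h (γ / 2 ^ 11) (by positivity)
    have : -γ ≤ F p ε := ge_of_tendsto (A p ε hε) ((eventually_ge_atTop j).mono fun k h => by
      have := hj k h
      rw [c1] at this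
      rw [le_div_iff₀ (c0 k)]
      linarith)
    linarith
  have B0 : ∀ ε > 0, 0 ≤ F 0 ε := fun ε hε => B 0 ε hε fun γ hγ => by
    obtain ⟨j, hj⟩ := d1_ge hγ hε
    exact ⟨j, fun k h => by simpa only [L, PM.lp_zero, FM.mono_toPM] using hj _ ((M k).mono h)⟩
  have B3 : ∀ ε > 0, 0 ≤ F 3 ε := fun ε hε => B 3 ε hε fun γ hγ => by
    obtain ⟨j, hj⟩ := d3_ge hγ hε
    exact ⟨j, fun k h => by simpa only [L, PM.lp_three, FM.mono_toPM] using hj _ ((M k).mono h)⟩
  have l5 : 0 < Real.log (5 / 4) := Real.log_pos (by norm_num)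
  have K : ∀ᶠ δ in 𝓝[>] (0 : ℝ), ∃ η > 0,
      Real.log (5 / 4) + 2 * F 3 η + 2 * F 0 η ≤ F 2 δ + F 0 δ := by
    filter_upwards [fin_ineq (γ := Real.log (5 / 4) / 16) (by positivity), self_mem_nhdsWithin]
      with δ ⟨η, hη, j, hj⟩ hδ
    refine ⟨η, hη, le_of_tendsto_of_tendsto ((tendsto_const_nhds.add ((A 3 η hη).const_mul 2)).add
      ((A 0 η hη).const_mul 2)) ((A 2 δ hδ).add (A 0 δ hδ))
      ((eventually_ge_atTop j).mono fun k h => ?_)⟩
    have := hj _ ((M k).mono h)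
    simp only [FM.mono_toPM, c1] at this
    have p := c0 k
    simp only
    rw [← add_div, ← mul_div_assoc, ← mul_div_assoc, add_assoc, ← add_div, le_div_iff₀ p, add_mul,
      div_mul_cancel₀ _ p.ne']
    simp only [L]
    nlinarith [mul_pos l5 p]
  have mono : ∀ p ε η, 0 < ε → ε ≤ η → F p ε ≤ F p η := fun p ε η h1 h2 =>
    Finset.sum_le_sum fun _ _ => logAdd_mono (by rw [Phi_lap]; exact lap_pos _) h1 h2 _
  have dl : ∀ i, degI L11 i ≤ 3 := fun i => clique_le i.2.1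
  have alt : ∀ ε > 0, F 0 ε - F 1 ε + F 2 ε - F 3 ε = 0 := fun ε hε => by
    have := ff_alt hd' dl chi_zero hε
    simp only [Finset.sum_range_succ, Finset.sum_range_zero] at this
    simp only [F]
    linarith
  obtain ⟨C, hC⟩ := ff_le (degI L11) ((dG L11).map (cq (GG L11)))
  have C0 : 0 ≤ C := (B0 (1 / 2) (by norm_num)).trans (hC 0 _ (by norm_num))
  have B2 : ∀ ε ∈ Set.Ioo (0 : ℝ) 1, -C ≤ F 2 ε := fun ε hε => by
    obtain ⟨δ, ⟨η, hη, h⟩, hδ⟩ := (K.and (Ioo_mem_nhdsGT hε.1)).exists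
    have : F 0 δ ≤ C := hC 0 δ ⟨hδ.1, hδ.2.trans hε.2⟩
    linarith [B0 η hη, B3 η hη, mono 2 δ ε hδ.1 hδ.2.le]
  have dec : Dec (Lap ((dG L11).map (cq (GG L11)))) :=
    dec_of_bdd (deg := degI L11) (C := 2 * C) fun p ε hε => by
      change _ ≤ F p ε
      have h3 : F 3 ε ≤ C := hC 3 ε hε
      have := alt ε hε.1
      have := B0 ε hε.1
      have := B2 ε hε
      have := B3 ε hε.1
      rcases p with _ | _ | _ | _ | p
      · linarith
      iterate 3 simp only [zero_add, Nat.reduceAdd]; linarith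
      have : F (p + 1 + 1 + 1 + 1) ε = 0 := nl2_zero _ _ (fun i => by have := dl i; omega) ε
      linarith
  let _ : ∀ k, Fintype (GG L11 ⧸ (M k).toPM.f.ker.subgroupOf (GG L11)) := fun k =>
    Fintype.ofFinite _
  choose r hr using exists_logdet sep hd' (inZ_cq _) dec
  have hD := (isOp_iff (d := dG L11)).2 rfl
  have r1 : ∀ p, ∀ η > 0, r p ≤ F p η := fun p η hη =>
    le_of_tendsto (hr p) (mem_of_superset (Ioo_mem_nhdsGT hη) fun ε h => mono p ε η h.1 h.2.le)
  have r2 : Real.log (5 / 4) + 2 * r 3 + 2 * r 0 ≤ r 2 + r 0 :=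
    ge_of_tendsto ((hr 2).add (hr 0)) (K.mono fun δ ⟨η, hη, h⟩ => by
      have := r1 3 η hη
      have := r1 0 η hη
      change _ ≤ F 2 δ + F 0 δ
      linarith)
  have r3 : r 0 - r 1 + r 2 - r 3 = 0 := tendsto_nhds_unique
    ((((hr 0).sub (hr 1)).add (hr 2)).sub (hr 3))
    (tendsto_const_nhds.congr' (eventually_mem_nhdsWithin.mono fun ε hε => (alt ε hε).symm))
  refine ⟨_, ?_, _, hD, ?_, r, fun p => ?_, rfl⟩
  · simp only [Finset.sum_range_succ, Finset.sum_range_zero]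
    push_cast
    linarith
  · rw [LapInj, lap_eq hD]
    exact (injective_iff_map_eq_zero _).2 fun v hv => dec.inj (Lap_star _) hv
  · rw [LogDet, lap_eq hD]
    exact hr p

end

end Pool.Agent.Lib.MP_b65ff2_gt
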