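import Pool.Agent.Lib.MP_b65ff2_gt.NCell
import Pool.Agent.Lib.MP_b65ff2_gt.NDet2

namespace Pool.Agent.Lib.MP_b65ff2_gt

open Matrix Filter Topology

set_option linter.unusedSectionVars false

noncomputable section

namespace NLap

open DihedralGroup

section gen
variable {Q : Type} [Group Q]

lemma cov [Finite Q] (P R : Q → Prop) (U : List Q) (h : ∀ q, P q → ∃ u ∈ U, R (q * u)) :
    Nat.card {q // P q} ≤ U.length * Nat.card {q // R q} := by
  classical
  choose f hf hR using h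
  have := Nat.card_le_card_of_injective
    (fun q : {q // P q} => ((⟨f q.1 q.2, List.mem_toFinset.2 (hf _ _)⟩, ⟨_, hR q.1 q.2⟩) :
      {u // u ∈ U.toFinset} × {q // R q})) (by
    rintro ⟨a, ha⟩ ⟨b, hb⟩ e
    simp only [Prod.mk.injEq, Subtype.mk.injEq] at e
    obtain ⟨e1, e2⟩ := e
    rw [e1] at e2
    exact Subtype.ext (mul_right_cancel e2))
  rw [Nat.card_prod, Nat.card_eq_finsetCard] at this
  exact this.trans (Nat.mul_le_mul_right _ (List.toFinset_card_le U))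

lemma rb {m n : Type} (A : Matrix m n ℝ) (κ : m → Q) (ι : n → Q) (hκ : Function.Injective κ)
    (hι : Function.Injective ι) (U : List Q) (h1 : ∀ i j, |A i j| ≤ 1)
    (h : ∀ i j, A i j ≠ 0 → ∃ u ∈ U, ι j = κ i * u) : RB A U.length := by
  classical
  have key : ∀ i j, |A i j| ≤ ∑ u ∈ U.toFinset, if ι j = κ i * u then (1 : ℝ) else 0 := by
    intro i j
    by_cases h0 : A i j = 0
    · rw [h0, abs_zero]; exact Finset.sum_nonneg fun _ _ => by split_ifs <;> norm_num
    · obtain ⟨u, hu, e⟩ := h i j h0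
      refine (h1 i j).trans ?_
      have := Finset.single_le_sum (f := fun u => if ι j = κ i * u then (1 : ℝ) else 0)
        (fun _ _ => by split_ifs <;> norm_num) (List.mem_toFinset.2 hu)
      simpa [e] using this
  have fin : ∑ _u ∈ U.toFinset, (1 : ℝ) ≤ U.length := by
    simpa using List.toFinset_card_le U
  constructor
  · intro i s
    refine (Finset.sum_le_sum fun j _ => key i j).trans ?_
    rw [Finset.sum_comm]
    refine (Finset.sum_le_sum fun u _ => ?_).trans fin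
    rw [Finset.sum_boole]
    have : (s.filter fun j => ι j = κ i * u).card ≤ 1 := Finset.card_le_one.2 fun a ha b hb =>
      hι ((Finset.mem_filter.1 ha).2.trans (Finset.mem_filter.1 hb).2.symm)
    exact_mod_cast this
  · intro j s
    refine (Finset.sum_le_sum fun i _ => key i j).trans ?_
    rw [Finset.sum_comm]
    refine (Finset.sum_le_sum fun u _ => ?_).trans fin
    rw [Finset.sum_boole]
    have : (s.filter fun i => ι j = κ i * u).card ≤ 1 := Finset.card_le_one.2 fun a ha b hb =>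
      hκ (mul_right_cancel ((Finset.mem_filter.1 ha).2.symm.trans (Finset.mem_filter.1 hb).2))
    exact_mod_cast this

end gen

section dih
variable {m : ℕ}

def fl : DihedralGroup m → ZMod 2
  | r _ => 0
  | sr _ => 1

def ps (k : ZMod m) : DihedralGroup m → ZMod m
  | r i => -i
  | sr i => i - k

lemma fl_one : fl (1 : DihedralGroup m) = 0 := rfl

lemma fl_r (i : ZMod m) : fl (r i) = 0 := rfl

lemma fl_sr (i : ZMod m) : fl (sr i) = 1 := rfl

lemma fl_mul (a b : DihedralGroup m) : fl (a * b) = fl a + fl b := by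
  cases a <;> cases b <;> simp +decide [fl]

lemma ps_sr (k : ZMod m) (a : DihedralGroup m) : ps k (a * sr k) = ps k a := by
  cases a <;> simp [ps]

lemma ps_r (k : ZMod m) (a : DihedralGroup m) : ps 0 (r k * a) = ps 0 a - k := by
  cases a <;> simp [ps]; ring

lemma ps_val [NeZero m] (k : ℕ) (a : DihedralGroup m) (h : k ≤ (ps 0 a).val) :
    ((ps k a).val : ℤ) = (ps 0 a).val - if fl a = 0 then 0 else k := by
  cases a with
  | r i => simp [ps, fl]
  | sr i =>
    simp only [ps, sub_zero] at h ⊢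
    have hk : (k : ZMod m).val = k := ZMod.val_cast_of_lt (h.trans_lt (ZMod.val_lt i))
    rw [ZMod.val_sub (hk.trans_le h), hk, if_neg (by simp [fl])]
    push_cast [h]; rfl

lemma fib {Q : Type} [Group Q] [Finite Q] [NeZero m] (φ : Q →* DihedralGroup m) (t : Q)
    (ht : φ t = r 1) (i : ZMod m) : m * Nat.card {q // ps 0 (φ q) = i} ≤ Nat.card Q := by
  have e : ∀ (k : ZMod m) (q : Q), ps 0 (φ (t ^ k.val * q)) = ps 0 (φ q) - k := by
    intro k q
    rw [map_mul, map_pow, ht, r_one_pow, ZMod.natCast_zmod_val, ps_r]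
  have := Nat.card_le_card_of_injective
    (fun x : ZMod m × {q // ps 0 (φ q) = i} => t ^ x.1.val * x.2.1) (by
    rintro ⟨k, a, ha⟩ ⟨l, b, hb⟩ h
    have h1 := e k a
    simp only at h
    rw [h, e, ha, hb] at h1
    obtain rfl : l = k := by simpa using h1
    simpa using h)
  rwa [Nat.card_prod, Nat.card_zmod] at this

end dih

section pm
variable {Q : Type} [Group Q] (M : PM L11 Q)

def fx (q : Q) : ZMod 2 := M.p q vx0 + M.p q vx1

def fy (q : Q) : ZMod 2 := M.p q vy0 + M.p q vyh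

lemma z2 (a : ZMod 2) : a = 0 ∨ a = 1 := by revert a; decide

lemma ka_g (q : Q) (s : V) : M.ka (q * M.g s) =
    M.ka q + if s = va0 ∨ s = va1 ∨ s = vyh ∨ s = vz then 1 else 0 := by
  simp only [PM.ka, PM.p_mul_g]
  fin_cases s <;> simp +decide <;> ring

lemma fx_g (q : Q) (s : V) : fx M (q * M.g s) = fx M q + if s = vx0 ∨ s = vx1 then 1 else 0 := by
  simp only [fx, PM.p_mul_g]
  fin_cases s <;> simp +decide <;> ring

lemma fy_g (q : Q) (s : V) : fy M (q * M.g s) = fy M q + if s = vy0 ∨ s = vyh then 1 else 0 := by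
  simp only [fy, PM.p_mul_g]
  fin_cases s <;> simp +decide <;> ring

lemma gg (q : Q) (s : V) : q * M.g s * M.g s = q := by rw [mul_assoc, M.sq, mul_one]

lemma sw (q : Q) {s t : V} (h : L11.Adj s t) : q * M.g s * M.g t = q * M.g t * M.g s := by
  rw [mul_assoc, M.cm s t h, mul_assoc]

lemma xk_cases (q : Q) : (M.ka q = 0 ∧ M.xk q = vx0) ∨ (M.ka q = 1 ∧ M.xk q = vx1) := by
  rcases z2 (M.ka q) with h | h <;> simp [PM.xk, h]

lemma be_cases (q : Q) : M.be q = q ∨ M.be q = q * M.g (M.xk q) ∨ M.be q = q * M.g vy0 ∨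
    M.be q = q * M.g (M.xk q) * M.g vy0 := by
  unfold PM.be; split_ifs <;> simp

lemma ka_be (q : Q) : M.ka (M.be q) = M.ka q := by
  rcases xk_cases M q with ⟨-, h⟩ | ⟨-, h⟩ <;> rcases be_cases M q with e | e | e | e <;>
    simp +decide [e, h, ka_g]

lemma xk_eq {q q' : Q} (h : M.ka q = M.ka q') : M.xk q = M.xk q' := by simp [PM.xk, h]

lemma be_col (q : Q) : M.p (M.be q) (M.xk (M.be q)) = 0 ∧ M.p (M.be q) vy0 = 0 := by
  rw [xk_eq M (ka_be M q)]
  unfold PM.be
  rcases xk_cases M q with ⟨-, h⟩ | ⟨-, h⟩ <;> rw [h] <;>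
    rcases z2 (M.p q vx0) with h0 | h0 <;> rcases z2 (M.p q vx1) with h1 | h1 <;>
    rcases z2 (M.p q vy0) with h2 | h2 <;> simp +decide [PM.p_mul_g, h0, h1, h2]

lemma be_self (c : M.Cols) : M.be c.1 = c.1 := by simp [PM.be, c.2.1, c.2.2]

lemma be_x (q : Q) : M.be (q * M.g (M.xk q)) = M.be q := by
  have e : M.xk (q * M.g (M.xk q)) = M.xk q := xk_eq M (by
    rcases xk_cases M q with ⟨-, h⟩ | ⟨-, h⟩ <;> simp +decide [h, ka_g])
  unfold PM.be
  rw [e]
  rcases xk_cases M q with ⟨-, h⟩ | ⟨-, h⟩ <;> rw [h] <;>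
    rcases z2 (M.p q vx0) with h0 | h0 <;> rcases z2 (M.p q vx1) with h1 | h1 <;>
    simp +decide [PM.p_mul_g, h0, h1, gg]

lemma be_y (q : Q) : M.be (q * M.g vy0) = M.be q := by
  have e : M.xk (q * M.g vy0) = M.xk q := xk_eq M (by simp +decide [ka_g])
  have s0 : ∀ q, q * M.g vy0 * M.g vx0 = q * M.g vx0 * M.g vy0 := fun q => sw M q (by decide)
  have s1 : ∀ q, q * M.g vy0 * M.g vx1 = q * M.g vx1 * M.g vy0 := fun q => sw M q (by decide)
  unfold PM.be
  rw [e]
  rcases xk_cases M q with ⟨-, h⟩ | ⟨-, h⟩ <;> rw [h] <;>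
    rcases z2 (M.p q vx0) with h0 | h0 <;> rcases z2 (M.p q vx1) with h1 | h1 <;>
    rcases z2 (M.p q vy0) with h2 | h2 <;> simp +decide [PM.p_mul_g, h0, h1, h2, gg, s0, s1]

lemma be_inv (q : Q) : q = M.be q ∨ q = M.be q * M.g (M.xk q) ∨ q = M.be q * M.g vy0 ∨
    q = M.be q * M.g (M.xk q) * M.g vy0 := by
  have s0 : ∀ u, u * M.g vy0 * M.g (M.xk q) = u * M.g (M.xk q) * M.g vy0 := fun u => sw M u (by
    rcases xk_cases M q with ⟨-, h⟩ | ⟨-, h⟩ <;> rw [h] <;> decide)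
  rcases be_cases M q with e | e | e | e <;> rw [e] <;> simp [gg, s0]

lemma be_uniq {q q' : Q} (h : M.be q = M.be q') (hx : fx M q = fx M q') (hy : fy M q = fy M q') :
    q = q' := by
  have e : M.xk q' = M.xk q := xk_eq M (by rw [← ka_be M q, h, ka_be])
  have a := be_inv M q
  have b := be_inv M q'
  rw [← h, e] at b
  generalize M.be q = c at a b
  generalize hs : M.xk q = s at a b
  have hs' : s = vx0 ∨ s = vx1 := by
    rcases xk_cases M q with ⟨-, h⟩ | ⟨-, h⟩ <;> simp [← hs, h]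
  rcases hs' with rfl | rfl <;> rcases a with rfl | rfl | rfl | rfl <;>
    rcases b with rfl | rfl | rfl | rfl <;>
    first | rfl | (exfalso; simp +decide [fx_g, fy_g] at hx hy)

/-- The words that lead from a vertex to its edges. -/
def UU : List Q :=
  let a := [1, M.g vx0, M.g vx1, M.g vy0, M.g vx0 * M.g vy0, M.g vx1 * M.g vy0]
  a ++ a.map (· * M.g vyh)

lemma adj {q c : Q} (h : M.be q = c ∨ M.be (q * M.g vyh) = c) : ∃ u ∈ UU M, q = c * u := by
  rcases h with rfl | rfl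
  · rcases xk_cases M q with ⟨-, h⟩ | ⟨-, h⟩ <;> rcases be_inv M q with e | e | e | e <;>
      rw [h] at * <;> (try simp only [mul_assoc] at e) <;>
      first
        | exact ⟨1, by simp [UU], by simpa using e⟩
        | exact ⟨_, by simp [UU], e⟩
  · have e0 : ∀ u, q * M.g vyh = u → q = u * M.g vyh := fun u e => by rw [← e, gg]
    rcases xk_cases M (q * M.g vyh) with ⟨-, h⟩ | ⟨-, h⟩ <;>
      rcases be_inv M (q * M.g vyh) with e | e | e | e <;>
      rw [h] at * <;> have e := e0 _ e <;> (try simp only [mul_assoc] at e) <;>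
      exact ⟨_, by simp [UU, mul_assoc], e⟩

abbrev D : Type := {q : Q // M.ka q = 0 ∧ fx M q = 0 ∧ fy M q = 0}

lemma card_D [Finite Q] : Nat.card Q ≤ 8 * Nat.card (D M) := by
  have := cov (fun _ => True) (fun q => M.ka q = 0 ∧ fx M q = 0 ∧ fy M q = 0)
    [1, M.g va0, M.g vx0, M.g vy0, M.g va0 * M.g vx0, M.g va0 * M.g vy0, M.g vx0 * M.g vy0,
      M.g va0 * M.g vx0 * M.g vy0] (fun q _ => by
    rcases z2 (M.ka q) with h0 | h0 <;> rcases z2 (fx M q) with h1 | h1 <;>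
      rcases z2 (fy M q) with h2 | h2 <;>
      simp +decide [← mul_assoc, ka_g, fx_g, fy_g, h0, h1, h2])
  simpa using this

def row (x : Fin 2 × D M) : M.Cols :=
  ⟨M.be (if x.1 = 0 then x.2.1 else x.2.1 * M.g vyh), be_col M _⟩

lemma row_inj : Function.Injective (row M) := by
  rintro ⟨i, d, h0, h1, h2⟩ ⟨k, d', h3, h4, h5⟩ h
  have h := congrArg Subtype.val h
  have hk := congrArg M.ka h
  simp only [row, ka_be] at h hk
  fin_cases i <;> fin_cases k <;> simp +decide [ka_g, h0, h3] at h hk ⊢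
  · exact be_uniq M h (h1.trans h4.symm) (h2.trans h5.symm)
  · exact mul_right_cancel (be_uniq M h (by simp +decide [fx_g, h1, h4])
      (by simp +decide [fy_g, h2, h5]))

lemma row_surj : Function.Surjective (row M) := by
  intro c
  have hc := be_self M c
  have hx := be_x M c.1
  have hy := be_y M c.1
  have hz := be_y M (c.1 * M.g (M.xk c.1))
  rw [hx] at hz
  rw [hc] at hx hy hz
  rcases xk_cases M c.1 with ⟨h0, h⟩ | ⟨h0, h⟩ <;> rw [h] at hx hz <;>
    rcases z2 (fx M c.1) with h1 | h1 <;> rcases z2 (fy M c.1) with h2 | h2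
  · exact ⟨(0, ⟨c.1, h0, h1, h2⟩), Subtype.ext hc⟩
  · exact ⟨(0, ⟨c.1 * M.g vy0, by simp +decide [ka_g, fx_g, fy_g, h0, h1, h2]⟩), Subtype.ext hy⟩
  · exact ⟨(0, ⟨c.1 * M.g vx0, by simp +decide [ka_g, fx_g, fy_g, h0, h1, h2]⟩), Subtype.ext hx⟩
  · exact ⟨(0, ⟨c.1 * M.g vx0 * M.g vy0, by simp +decide [ka_g, fx_g, fy_g, h0, h1, h2]⟩),
      Subtype.ext hz⟩
  · exact ⟨(1, ⟨c.1 * M.g vy0 * M.g vyh, by simp +decide [ka_g, fx_g, fy_g, h0, h1, h2]⟩),
      Subtype.ext (by simpa [row, gg] using hy)⟩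
  · exact ⟨(1, ⟨c.1 * M.g vyh, by simp +decide [ka_g, fx_g, fy_g, h0, h1, h2]⟩),
      Subtype.ext (by simpa [row, gg] using hc)⟩
  · exact ⟨(1, ⟨c.1 * M.g vx1 * M.g vy0 * M.g vyh,
      by simp +decide [ka_g, fx_g, fy_g, h0, h1, h2]⟩), Subtype.ext (by simpa [row, gg] using hz)⟩
  · exact ⟨(1, ⟨c.1 * M.g vx1 * M.g vyh, by simp +decide [ka_g, fx_g, fy_g, h0, h1, h2]⟩),
      Subtype.ext (by simpa [row, gg] using hx)⟩

def col (x : Fin 4 × D M) : M.Vv :=
  ⟨![x.2.1, x.2.1 * M.g vx0, x.2.1 * M.g vx0 * M.g vy0, x.2.1 * M.g vyh * M.g vy0 * M.g vyh] x.1, by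
    obtain ⟨i, d, h0, -⟩ := x
    fin_cases i <;> simp +decide [ka_g, h0]⟩

lemma col_inj : Function.Injective (col M) := by
  rintro ⟨i, d, h0, h1, h2⟩ ⟨k, d', h3, h4, h5⟩ h
  have h := congrArg Subtype.val h
  have hx := congrArg (fx M) h
  have hy := congrArg (fy M) h
  simp only [col] at h hx hy
  fin_cases i <;> fin_cases k <;> simp +decide [fx_g, fy_g, h1, h2, h4, h5] at h hx hy ⊢ <;>
    exact h

open Classical in
def A0 : Matrix M.Cols M.Vv ℝ := .of fun c q =>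
  (if M.be q.1 = c.1 ∧ ¬(fx M q.1 = 0 ∧ fy M q.1 = 1) then 1 else 0) -
    if M.be (q.1 * M.g vyh) = c.1 ∧ fx M q.1 = 0 then 1 else 0

def MM : Matrix (Fin 2) (Fin 4) ℝ := !![1, 1, 1, 0; -1, 0, 0, -1]

open Classical in
lemma blk (x : Fin 2 × D M) (y : Fin 4 × D M) :
    A0 M (row M x) (col M y) = blockDiagonal (fun _ : D M => MM) x y := by
  obtain ⟨i, d⟩ := x
  obtain ⟨k, d'⟩ := y
  have e0 : M.be d'.1 = (row M (i, d)).1 ↔ 0 = i ∧ d' = d := by
    rw [← Prod.mk.injEq, ← (row_inj M).eq_iff, Subtype.ext_iff]; rfl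
  have e1 : M.be (d'.1 * M.g vyh) = (row M (i, d)).1 ↔ 1 = i ∧ d' = d := by
    rw [← Prod.mk.injEq, ← (row_inj M).eq_iff, Subtype.ext_iff]; rfl
  obtain ⟨h0, h1, h2⟩ := d'.2
  have hx := be_x M d'.1
  rw [show M.xk d'.1 = vx0 by simp [PM.xk, h0]] at hx
  rw [blockDiagonal_apply]
  fin_cases k <;>
    simp +decide [A0, col, fx_g, fy_g, h1, h2, gg, be_y, hx, e0, e1] <;>
    fin_cases i <;> by_cases e : d' = d <;> simp [MM, e, eq_comm (a := d)]

lemma A0_ge [Finite Q] {ε : ℝ} (hε : 0 < ε) :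
    Real.log 5 / 8 * Nat.card Q ≤ ld ε (A0 M) := by
  classical
  cases nonempty_fintype (D M)
  refine le_trans ?_ (ld_cols (A0 M) hε (col_inj M))
  rw [← ld_sign _ (blockDiagonal fun _ : D M => MM)
    (Equiv.ofBijective _ ⟨row_inj M, row_surj M⟩) (Equiv.refl _) 1 1 (by simp) (by simp)
    (fun i j => by simpa using (blk M i j).symm), ld_eq, blockDiagonal_transpose,
    ← blockDiagonal_mul, ← blockDiagonal_one, ← blockDiagonal_smul, ← blockDiagonal_add,
    det_blockDiagonal]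
  have e : ∀ d : D M, (((fun _ : D M => MM * MMᵀ) + ε • (1 : D M → Matrix (Fin 2) (Fin 2) ℝ)) d).det
      = 5 + 5 * ε + ε ^ 2 := fun d => by
    have e : MM * MMᵀ = !![3, -1; -1, 2] := by
      ext i j
      rw [Matrix.mul_apply, Fin.sum_univ_four]
      fin_cases i <;> fin_cases j <;> simp [MM] <;> norm_num
    simp [det_fin_two, e]; ring
  rw [Finset.prod_congr rfl fun d _ => e d, Finset.prod_const, Real.log_pow, Finset.card_univ,
    ← Nat.card_eq_fintype_card]
  have h1 : Real.log 5 ≤ Real.log (5 + 5 * ε + ε ^ 2) :=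
    Real.log_le_log (by norm_num) (by nlinarith)
  have h2 : (Nat.card Q : ℝ) ≤ 8 * Nat.card (D M) := by exact_mod_cast card_D M
  have h3 : 0 ≤ Real.log 5 := Real.log_nonneg (by norm_num)
  have h4 : (0 : ℝ) ≤ Nat.card (D M) := Nat.cast_nonneg _
  nlinarith

lemma A0_rb : RB (A0 M) (12 : ℕ) := by
  refine rb (A0 M) Subtype.val Subtype.val Subtype.val_injective Subtype.val_injective (UU M)
    (fun i j => ?_) fun i j h => adj M ?_
  · simp only [A0, of_apply]; split_ifs <;> norm_num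
  · by_contra hn
    push Not at hn
    simp [A0, hn.1, hn.2] at h

end pm

section fm
variable {j : ℕ} {Q : Type} [Group Q] (M : FM j Q)

instance : NeZero M.m1 := ⟨(Nat.zero_lt_of_lt M.le1).ne'⟩

instance : NeZero M.m2 := ⟨(Nat.zero_lt_of_lt M.le2).ne'⟩

lemma fl_x (q : Q) : fl (M.ξ q) = fx M.toPM q := by
  induction q using M.toPM.ind with
  | h1 => simp [fx, PM.p_one, fl_one]
  | hs q s ih =>
    rw [map_mul, fl_mul, fx_g, ih, M.ξ_g]
    fin_cases s <;> simp +decide [fl_one, fl_sr]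

lemma fl_y (q : Q) : fl (M.υ q) = fy M.toPM q := by
  induction q using M.toPM.ind with
  | h1 => simp [fy, PM.p_one, fl_one]
  | hs q s ih =>
    rw [map_mul, fl_mul, fy_g, ih]
    by_cases h : s = vz
    · obtain ⟨i, hi⟩ := M.υ_z
      simp +decide [h, hi, fl_r]
    · rw [M.υ_g s h]
      fin_cases s <;> simp +decide [fl_one, fl_sr]

def lb (q : Q) : ℤ := 4 * ((ps 0 (M.ξ q)).val : ℤ) - (ps 0 (M.υ q)).val

def lw (q : Q) : ℤ := 4 * ((ps (1 : ℕ) (M.ξ q)).val : ℤ) - (ps (2 : ℕ) (M.υ q)).val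

def lv (c : Q) : ℤ := if M.toPM.ka c = 0 then lb M c else lw M (c * M.g vyh)

def bad (q : Q) : Prop := ps 0 (M.ξ q) = 0 ∨ ps 0 (M.υ q) = 0 ∨ ps 0 (M.υ q) = 1

lemma lv_b {q : Q} (h : M.toPM.ka q = 0) : lv M (M.toPM.be q) = lb M q := by
  rw [lv, ka_be, if_pos h]
  have e : M.toPM.xk q = vx0 := by simp [PM.xk, h]
  rcases be_cases M.toPM q with e' | e' | e' | e' <;>
    simp +decide [e', e, lb, M.ξ_g, M.υ_g, ps_sr]

lemma lv_w {q : Q} (h : M.toPM.ka q = 0) : lv M (M.toPM.be (q * M.g vyh)) = lw M q := by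
  have h' : M.toPM.ka (q * M.g vyh) = 1 := by simp +decide [ka_g, h]
  rw [lv, ka_be, if_neg (by simp [h'])]
  have e : M.toPM.xk (q * M.g vyh) = vx1 := by simp [PM.xk, h']
  have e2 : ∀ a : DihedralGroup M.m2, ps 2 (a * sr 1 * sr 0 * sr 1) = ps 2 a := fun a => by
    rw [← ps_sr 2 a, mul_assoc, mul_assoc]; congr 2; simp; norm_num
  have e3 : ∀ a : DihedralGroup M.m2, a * sr 1 * sr 1 = a := fun a => by
    rw [mul_assoc, sr_mul_self, mul_one]
  rcases be_cases M.toPM (q * M.g vyh) with e' | e' | e' | e' <;>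
    simp +decide [e', e, lw, M.ξ_g, M.υ_g, ps_sr, e2, e3, gg]

lemma diff {q : Q} (h : ¬bad M q) : lb M q - lw M q =
    (if fx M.toPM q = 0 then 0 else 4) - if fy M.toPM q = 0 then 0 else 2 := by
  simp only [bad, not_or] at h
  obtain ⟨h1, h2, h3⟩ := h
  have a1 : 1 ≤ (ps 0 (M.ξ q)).val := Nat.pos_of_ne_zero fun e => h1 ((ZMod.val_eq_zero _).1 e)
  have a2 : 2 ≤ (ps 0 (M.υ q)).val := by
    by_contra hn
    have : (ps 0 (M.υ q)).val = 0 ∨ (ps 0 (M.υ q)).val = 1 := by omega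
    rcases this with e | e
    · exact h2 ((ZMod.val_eq_zero _).1 e)
    · exact h3 (by rw [← ZMod.natCast_zmod_val (ps 0 (M.υ q)), e, Nat.cast_one])
  rw [lb, lw, ps_val 1 _ a1, ps_val 2 _ a2, fl_x, fl_y]
  split_ifs <;> push_cast <;> ring

lemma card_bad [Finite Q] : j * Nat.card {q // bad M q} ≤ 3 * Nat.card Q := by
  have h1 := fib M.ξ (M.g vx0 * M.g vx1) (by simp +decide [M.ξ_g]) 0
  have h2 := fib M.υ (M.g vy0 * M.g vyh) (by simp +decide [M.υ_g]) 0
  have h3 := fib M.υ (M.g vy0 * M.g vyh) (by simp +decide [M.υ_g]) 1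
  have e : Nat.card {q // bad M q} ≤ Nat.card {q // ps 0 (M.ξ q) = 0} +
      (Nat.card {q // ps 0 (M.υ q) = 0} + Nat.card {q // ps 0 (M.υ q) = 1}) :=
    (Set.ncard_union_le {q | ps 0 (M.ξ q) = 0} _).trans (Nat.add_le_add_left
      (Set.ncard_union_le {q | ps 0 (M.υ q) = 0} {q | ps 0 (M.υ q) = 1}) _)
  have := M.le1
  have := M.le2
  nlinarith

def badR (c : Q) : Prop := ∃ u ∈ UU M.toPM, bad M (c * u)

lemma pert [Finite Q] {ε : ℝ} (hε : 0 < ε) :
    ld ε (A0 M.toPM) - Nat.card {c : M.toPM.Cols // badR M c.1} *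
      (Real.log (((12 : ℕ) : ℝ) ^ 2 + ε) - Real.log ε) ≤ ld ε M.toPM.dltᵀ := by
  refine ld_pert _ _ hε (fun c => lv M c.1) (fun q => max (lb M q.1) (lw M q.1)) _ ?_ ?_
    (A0_rb M.toPM)
  · intro c q _ h
    by_cases h1 : M.toPM.be q.1 = c.1
    · rw [← h1, lv_b M q.2]; exact le_max_left _ _
    by_cases h2 : M.toPM.be (q.1 * M.g vyh) = c.1
    · rw [← h2, lv_w M q.2]; exact le_max_right _ _
    simp [PM.dlt, PM.dl, h1, h2] at h
  · intro c q hb
    have hq : M.toPM.ka q.1 = 0 := q.2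
    have ne : M.toPM.be q.1 ≠ M.toPM.be (q.1 * M.g vyh) := fun e => by
      simpa +decide [ka_be, ka_g, hq] using congrArg M.toPM.ka e
    have gd : M.toPM.be q.1 = c.1 ∨ M.toPM.be (q.1 * M.g vyh) = c.1 → ¬bad M q.1 := fun h h' => by
      obtain ⟨u, hu, e⟩ := adj M.toPM h
      exact hb ⟨u, hu, e ▸ h'⟩
    by_cases h1 : M.toPM.be q.1 = c.1
    · have h2 : M.toPM.be (q.1 * M.g vyh) ≠ c.1 := fun e => ne (h1.trans e.symm)
      have e := lv_b M hq
      have d := diff M (gd (.inl h1))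
      rw [h1] at e
      rcases z2 (fx M.toPM q.1) with a | a <;> rcases z2 (fy M.toPM q.1) with b | b <;>
        simp +decide [a, b] at d <;> simp +decide [A0, PM.dlt, PM.dl, h1, h2, e, a, b] <;> omega
    by_cases h2 : M.toPM.be (q.1 * M.g vyh) = c.1
    · have e := lv_w M hq
      have d := diff M (gd (.inr h2))
      rw [h2] at e
      rcases z2 (fx M.toPM q.1) with a | a <;> rcases z2 (fy M.toPM q.1) with b | b <;>
        simp +decide [a, b] at d <;> simp +decide [A0, PM.dlt, PM.dl, h1, h2, e, a, b] <;> omega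
    simp [A0, PM.dlt, PM.dl, h1, h2]

lemma card_badR [Finite Q] :
    j * Nat.card {c : M.toPM.Cols // badR M c.1} ≤ 36 * Nat.card Q := by
  have h1 : Nat.card {c : M.toPM.Cols // badR M c.1} ≤ Nat.card {c // badR M c} :=
    Nat.card_le_card_of_injective (fun c => ⟨c.1.1, c.2⟩) fun a b h =>
      Subtype.ext (Subtype.ext (congrArg (fun x : {c // badR M c} => x.1) h))
  have h2 : Nat.card {c // badR M c} ≤ 12 * Nat.card {q // bad M q} :=
    cov (badR M) (bad M) (UU M.toPM) fun _ h => h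
  have := card_bad M
  nlinarith

end fm

end NLap

theorem lap_ge {γ ε : ℝ} (hγ : 0 < γ) (hε : 0 < ε) : ∃ j, ∀ (Q : Type) [Group Q] [Finite Q]
    (M : FM j Q), (Real.log 5 / 8 - γ) * Nat.card Q ≤ ld ε M.toPM.dltᵀ := by
  set L := Real.log (((12 : ℕ) : ℝ) ^ 2 + ε) - Real.log ε with hL
  obtain ⟨j, hj⟩ := exists_nat_gt (36 * |L| / γ)
  refine ⟨j, fun Q _ _ M => le_trans ?_ (NLap.pert M hε)⟩
  have h1 := NLap.A0_ge M.toPM hε
  have h2 : (j : ℝ) * Nat.card {c : M.toPM.Cols // NLap.badR M c.1} ≤ 36 * Nat.card Q := by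
    exact_mod_cast NLap.card_badR M
  rw [div_lt_iff₀ hγ] at hj
  have hj0 : (0 : ℝ) < j := by
    by_contra hn
    have := abs_nonneg L
    nlinarith
  rw [← hL]
  generalize (Nat.card {c : M.toPM.Cols // NLap.badR M c.1}) = b at h2
  have hb : (0 : ℝ) ≤ b := Nat.cast_nonneg _
  have hQ : (0 : ℝ) ≤ Nat.card Q := Nat.cast_nonneg _
  have h3 : (b : ℝ) * |L| ≤ γ * Nat.card Q := by
    refine le_of_mul_le_mul_left ?_ hj0
    nlinarith [abs_nonneg L]
  nlinarith [le_abs_self L]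

end

end Pool.Agent.Lib.MP_b65ff2_gt
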