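import Pool.Agent.Lib.MP_b65ff2_gt.NTl
import Pool.Agent.Lib.MP_b65ff2_gt.NCell

namespace Pool.Agent.Lib.MP_b65ff2_gt

open Matrix Filter Topology

set_option linter.unusedSectionVars false

noncomputable section

variable {Q : Type} [Group Q] [Finite Q] (M : PM L11 Q)

theorem PM.tc_zero : tc (M.dZ 0) = 1 := by
  classical
  refine tc_inc _ (fun _ => 1) (fun _ => one_pow 2) fun i => ?_
  obtain ⟨⟨⟨q, T⟩, hT⟩, h⟩ := i
  obtain ⟨s, rfl⟩ := Finset.card_eq_one.1 h
  refine ⟨⟨⟨(q * M.g s, ∅), by simp⟩, rfl⟩, ⟨⟨(q, ∅), by simp⟩, rfl⟩, 1, one_pow 2, fun j => ?_⟩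
  have e : ∀ (a : M.C 0), a = j ↔ j.1.1 = a.1.1 := fun a =>
    ⟨fun h => h ▸ rfl, fun h => Subtype.ext (Subtype.ext h.symm)⟩
  simp [PM.dZ, PM.bd, sgn, Finset.filter_singleton, e]

def nt02_e (a : ZMod 2) : ℤ := if a = 0 then 1 else -1

def nt02_ori (T : Finset V) : ℤ :=
  if T ∈ ({{0, 2, 5}, {0, 3, 6}, {0, 6, 8}, {1, 2, 8}, {1, 4, 5}, {3, 5, 9}, {4, 7, 9},
    {6, 9, 10}, {7, 8, 10}} : Finset (Finset V)) then 1 else -1

lemma nt02_edge : ∀ e ∈ edgeL, ∃ u v : V, u ≠ v ∧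
    (∀ s, (L11.Adj s e.1 ∧ L11.Adj s e.2) ↔ s = u ∨ s = v) ∧
    sgn u {u, e.1, e.2} * nt02_ori {u, e.1, e.2} =
      -(sgn v {v, e.1, e.2} * nt02_ori {v, e.1, e.2}) := by decide +kernel

def PM.nt02_bs (q : Q) (s : V) : Q := if M.p q s = 0 then q else q * M.g s

lemma nt02_z (a : ZMod 2) (h : a ≠ 0) : a + 1 = 0 := by revert a; decide

lemma PM.nt02_p (q : Q) (s t : V) : M.p (M.nt02_bs q s) t = if t = s then 0 else M.p q t := by
  unfold PM.nt02_bs
  split_ifs with h1 h2 h2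
  · rw [h2, h1]
  · rfl
  · rw [M.p_mul_g, if_pos h2, h2, nt02_z _ h1]
  · rw [M.p_mul_g, if_neg h2, add_zero]

lemma PM.nt02_chi (q : Q) (s : V) :
    nt02_e (M.p q s) * nt02_e (∑ t, M.p (M.nt02_bs q s) t) = nt02_e (∑ t, M.p q t) := by
  unfold PM.nt02_bs
  split_ifs with h
  · simp [h, nt02_e]
  · simp only [M.p_mul_g, Finset.sum_add_distrib, Finset.sum_ite_eq', Finset.mem_univ, if_true]
    generalize ∑ t, M.p q t = a
    revert h a
    generalize M.p q s = b
    revert b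
    decide

open Classical in
lemma PM.nt02_col (x y : M.Cell) : M.bd x y = ∑ s, if s ∉ y.1.2 ∧
    x.1 = (M.nt02_bs y.1.1 s, insert s y.1.2) then -(nt02_e (M.p y.1.1 s) * sgn s x.1.2) else 0 := by
  obtain ⟨⟨q', D⟩, hD, hp⟩ := x
  obtain ⟨⟨q, T⟩, hT⟩ := y
  simp only [PM.bd, of_apply, Prod.mk.injEq]
  rw [← Finset.sum_subset (Finset.subset_univ D)]
  · refine Finset.sum_congr rfl fun s hs => ?_
    have h0 : M.p q' s = 0 := hp s hs
    have e : T = D.erase s ↔ s ∉ T ∧ D = insert s T :=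
      ⟨fun h => by simp [h, Finset.insert_erase hs], fun h => by rw [h.2, Finset.erase_insert h.1]⟩
    by_cases h1 : T = D.erase s
    · have h2 := e.1 h1
      simp only [← h1, h2.1, ← h2.2, and_true, not_false_eq_true, true_and, PM.nt02_bs, nt02_e]
      by_cases h3 : M.p q s = 0
      · have h4 : q ≠ q' * M.g s := fun h => by simp [h, M.p_mul_g, h0] at h3
        simp only [h3, h4, if_true, if_false, eq_comm (a := q')]
        split_ifs <;> simp
      · have h4 : q ≠ q' := fun h => h3 (h ▸ h0)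
        have h5 : q' = q * M.g s ↔ q = q' * M.g s := by
          constructor <;> rintro rfl <;> rw [mul_assoc, M.sq, mul_one]
        simp only [h3, h4, if_false, h5]
        split_ifs <;> simp
    · rw [if_neg fun h => h1 h.2, if_neg fun h => h1 h.2, if_neg fun h => h1 (e.2 ⟨h.1, h.2.2⟩)]
      simp
  · intro s _ hs
    exact if_neg fun h => hs (by rw [h.2.2]; exact Finset.mem_insert_self _ _)

theorem PM.tc_two : tc (M.dZ 2) = 1 := by
  classical
  rw [← tc_tr]
  refine tc_inc _ (fun j => nt02_e (∑ t, M.p j.1.1.1 t) * nt02_ori j.1.1.2) (fun j => by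
    unfold nt02_e nt02_ori; split_ifs <;> rfl) fun i => ?_
  obtain ⟨⟨⟨q, T⟩, hT, hp⟩, h⟩ := i
  obtain ⟨e, he, rfl⟩ := clique_two hT h
  obtain ⟨u, v, huv, hs, ho⟩ := nt02_edge e he
  have hn : ∀ s, s = u ∨ s = v → s ∉ ({e.1, e.2} : Finset V) := fun s h => by
    have := (hs s).2 h
    simp [this.1.ne, this.2.ne]
  let X : ∀ s, s = u ∨ s = v → M.C 3 := fun s k =>
    ⟨⟨(M.nt02_bs q s, {s, e.1, e.2}), by
      have := (hs s).2 k
      rw [Finset.coe_insert]
      exact hT.insert (by simp [this.1, this.2]), fun t ht => by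
      rw [M.nt02_p]
      split_ifs with k'
      · rfl
      · exact hp t ((Finset.mem_insert.1 ht).resolve_left k')⟩,
      (Finset.card_insert_of_notMem (hn s k)).trans (congrArg (· + 1) h)⟩
  refine ⟨X u (.inl rfl), X v (.inr rfl), -(nt02_e (∑ t, M.p q t) *
    (sgn u {u, e.1, e.2} * nt02_ori {u, e.1, e.2})), ?_, fun j => ?_⟩
  · have : ∀ k : ℕ, ((-1 : ℤ) ^ k) ^ 2 = 1 := fun k => by rw [← pow_mul, mul_comm, pow_mul]; simp
    unfold nt02_e nt02_ori sgn
    split_ifs <;> simp [this]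
  have key : ∀ s (k : s = u ∨ s = v), (if s ∉ ({e.1, e.2} : Finset V) ∧
      j.1.1 = (M.nt02_bs q s, {s, e.1, e.2}) then -(nt02_e (M.p q s) * sgn s j.1.1.2) else 0) *
      (nt02_e (∑ t, M.p j.1.1.1 t) * nt02_ori j.1.1.2) = -(nt02_e (∑ t, M.p q t) *
        (sgn s {s, e.1, e.2} * nt02_ori {s, e.1, e.2})) * if X s k = j then 1 else 0 := by
    intro s k
    by_cases hj : X s k = j
    · subst hj
      rw [if_pos ⟨hn s k, rfl⟩, if_pos rfl, ← M.nt02_chi q s]
      simp only [X]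
      ring
    · rw [if_neg hj, if_neg fun h => hj (Subtype.ext (Subtype.ext h.2.symm))]
      simp
  simp only [PM.dZ, transpose_apply, submatrix_apply]
  rw [M.nt02_col, Finset.sum_eq_add u v huv, add_mul, key u (.inl rfl), key v (.inr rfl), ho]
  · ring
  · refine fun s _ k => if_neg fun h' => ?_
    have c := j.1.2.1
    rw [h'.2] at c
    have c1 : s ≠ e.1 ∧ s ≠ e.2 := by simpa using h'.1
    exact (not_or.2 k) ((hs s).1 ⟨c (by simp) (by simp) c1.1, c (by simp) (by simp) c1.2⟩)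
  · simp
  · simp

theorem PM.tc_three : tc (M.dZ 3) = 1 := by
  classical
  refine tc_inc _ (fun _ => 1) (fun _ => one_pow 2) fun i => ?_
  have := clique_le i.1.2.1
  have := i.2
  omega

end

end Pool.Agent.Lib.MP_b65ff2_gt
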