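import Pool.Agent.Lib.MP_b65ff2_gt.NL11

namespace Pool.Agent.Lib.MP_b65ff2_gt

/-! The dual graph of the link, with the four triangles at `z` collapsed to the point `14`. -/

def npRtL : List (List (Fin 15)) :=
  [[14, 14, 1, 2, 14, 0, 3, 14, 4, 14, 14],
   [14, 14, 5, 14, 8, 7, 14, 9, 6, 14, 14],
   [0, 6, 14, 14, 14, 5, 14, 14, 1, 14, 14],
   [3, 14, 14, 14, 14, 2, 11, 14, 14, 10, 14],
   [14, 7, 14, 14, 14, 12, 14, 8, 14, 13, 14],
   [2, 5, 0, 10, 7, 14, 14, 14, 14, 12, 14],
   [4, 14, 14, 3, 14, 14, 14, 14, 14, 11, 14],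
   [14, 8, 14, 14, 13, 14, 14, 14, 9, 14, 14],
   [1, 9, 6, 14, 14, 14, 4, 14, 14, 14, 14],
   [14, 14, 14, 11, 12, 10, 14, 13, 14, 14, 14],
   [14, 14, 14, 14, 14, 14, 14, 14, 14, 14, 14]]

def npPthL : List (List (V × V)) :=
  [[(8, 6), (8, 0), (2, 0)],
   [(8, 6), (8, 0)],
   [(6, 9), (3, 9), (3, 5)],
   [(6, 9), (6, 3)],
   [(8, 6)],
   [(7, 8), (1, 8), (1, 2)],
   [(7, 8), (1, 8)],
   [(7, 8), (7, 1), (4, 1)],
   [(7, 8), (7, 1)],
   [(7, 8)],
   [(6, 9), (3, 9)],
   [(6, 9)],
   [(9, 7), (9, 4)],
   [(9, 7)],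
   []]

def npNbL : List (List V) :=
  [[2, 3, 5, 6, 8], [2, 4, 5, 7, 8], [0, 1, 5, 8], [0, 5, 6, 9], [1, 5, 7, 9], [0, 1, 2, 3, 4, 9], [0, 3, 8, 9], [1, 4, 8, 9], [0, 1, 2, 6, 7], [3, 4, 5, 6, 7], []]

def npVsL : List (List V) :=
  [[0, 2, 5], [0, 2, 8], [0, 3, 5], [0, 3, 6], [0, 6, 8], [1, 2, 5], [1, 2, 8], [1, 4, 5], [1, 4, 7], [1, 7, 8], [3, 5, 9], [3, 6, 9], [4, 5, 9], [4, 7, 9], [6, 7, 8, 9]]

def npEdg : List (V × V) :=
  [(0, 2), (0, 3), (0, 5), (0, 6), (0, 8), (1, 2), (1, 4), (1, 5), (1, 7), (1, 8), (2, 5), (2, 8), (3, 5), (3, 6), (3, 9), (4, 5), (4, 7), (4, 9), (5, 9), (6, 8), (6, 9), (7, 8), (7, 9)]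

def npD0L : List (Fin 15) := [0, 5, 0, 2, 7, 0, 14, 14, 14, 14, 14]

def npRt (s t : V) : Fin 15 := (npRtL.getD s []).getD t 14

def npPth (d : Fin 15) : List (V × V) := npPthL.getD d []

def npNb (v : V) : List V := npNbL.getD v []

def npVs (d : Fin 15) : List V := npVsL.getD d []

def npD0 (s : V) : Fin 15 := npD0L.getD s 14

abbrev npAd (s t : V) : Prop := L11.Adj s t ∧ s ≠ vz ∧ t ≠ vz

def npPot {A : Type} [AddCommGroup A] (a : V → V → A) (d : Fin 15) : A :=
  ((npPth d).map fun e => a e.1 e.2).sum

def npReach (s : V) : ℕ → Fin 15 → Bool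
  | 0, d => d == npD0 s
  | k + 1, d => npReach s k d || (npNb s).any fun t => npRt s t == d && npReach s k (npRt t s)

lemma np_ad_symm {s t : V} (h : npAd s t) : npAd t s := ⟨h.1.symm, h.2.2, h.2.1⟩

lemma np_nb : ∀ v t, t ∈ npNb v ↔ npAd v t := by decide +kernel

lemma np_nb_nodup : ∀ v, (npNb v).Nodup := by decide +kernel

lemma np_nb_len : ∀ v, (npNb v).length ≤ 6 := by decide +kernel

lemma np_edg : ∀ s t, npAd s t → (s, t) ∈ npEdg ∨ (t, s) ∈ npEdg := by decide +kernel

lemma np_mem : ∀ s t, npAd s t → s ∈ npVs (npRt s t) ∧ t ∈ npVs (npRt s t) := by decide +kernel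

lemma np_d0 : ∀ s, s ≠ vz → s ∈ npVs (npD0 s) := by decide +kernel

lemma np_d0_xy : ∀ s ∈ XY, npD0 s = 14 := by decide +kernel

lemma np_vs_ne : ∀ d, ∀ s ∈ npVs d, s ≠ vz := by decide +kernel

lemma np_star : ∀ v, ((npNb v).map (npRt v)).Perm ((npNb v).map fun t => npRt t v) := by
  decide +kernel

lemma np_tel : ∀ d, (14 :: (npPth d).map fun e => npRt e.1 e.2).Perm
    (d :: (npPth d).map fun e => npRt e.2 e.1) := by decide +kernel

lemma np_pth_ad : ∀ d, ∀ e ∈ npPth d, npAd e.1 e.2 := by decide +kernel

lemma np_pth_len : ∀ d, (npPth d).length ≤ 3 := by decide +kernel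

lemma np_reach : ∀ s d, s ∈ npVs d → npReach s 6 d = true := by decide +kernel

lemma np_vs_cases : ∀ d, d = 14 ∨ ∀ s ∈ npVs d, ∀ t ∈ npVs d, s = t ∨ L11.Adj s t := by
  decide +kernel

lemma np_vs_xy : ∀ s, s ∈ npVs 14 ↔ s ∈ XY := by decide +kernel

lemma np_conn {α : Type} (s : V) (f : Fin 15 → α)
    (h : ∀ t, npAd s t → f (npRt s t) = f (npRt t s)) {d : Fin 15} (hd : s ∈ npVs d) :
    f d = f (npD0 s) := by
  have key : ∀ k d, npReach s k d = true → f d = f (npD0 s) := by
    intro k
    induction k with
    | zero => intro d hd; simp only [npReach, beq_iff_eq] at hd; rw [hd]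
    | succ k ih =>
      intro d hd
      simp only [npReach, Bool.or_eq_true, List.any_eq_true, Bool.and_eq_true, beq_iff_eq] at hd
      rcases hd with hd | ⟨t, ht, h1, h2⟩
      · exact ih d hd
      · rw [← h1, h t ((np_nb s t).1 ht), ih _ h2]
  exact key 6 d (np_reach s d hd)

variable {A : Type} [AddCommGroup A]

lemma np_pot_cusp (a : V → V → A) : npPot a 14 = 0 := rfl

lemma np_p1_aux (a : V → V → A) (an : ∀ s t, npAd s t → a s t + a t s = 0)
    (h : ∀ v, v ≠ vz → ((npNb v).map (a v)).sum = 0) :
    ∀ e ∈ npEdg, npPot a (npRt e.1 e.2) - npPot a (npRt e.2 e.1) = a e.1 e.2 := by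
  have r0 : a 0 2 + a 0 3 + a 0 5 + a 0 6 + a 0 8 = 0 := by
    have := h 0 (by decide)
    rw [show npNb 0 = [2, 3, 5, 6, 8] from by decide] at this
    simpa only [List.map_cons, List.map_nil, List.sum_cons, List.sum_nil, add_zero, add_assoc] using this
  have r1 : a 1 2 + a 1 4 + a 1 5 + a 1 7 + a 1 8 = 0 := by
    have := h 1 (by decide)
    rw [show npNb 1 = [2, 4, 5, 7, 8] from by decide] at this
    simpa only [List.map_cons, List.map_nil, List.sum_cons, List.sum_nil, add_zero, add_assoc] using this
  have r2 : a 2 0 + a 2 1 + a 2 5 + a 2 8 = 0 := by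
    have := h 2 (by decide)
    rw [show npNb 2 = [0, 1, 5, 8] from by decide] at this
    simpa only [List.map_cons, List.map_nil, List.sum_cons, List.sum_nil, add_zero, add_assoc] using this
  have r3 : a 3 0 + a 3 5 + a 3 6 + a 3 9 = 0 := by
    have := h 3 (by decide)
    rw [show npNb 3 = [0, 5, 6, 9] from by decide] at this
    simpa only [List.map_cons, List.map_nil, List.sum_cons, List.sum_nil, add_zero, add_assoc] using this
  have r4 : a 4 1 + a 4 5 + a 4 7 + a 4 9 = 0 := by
    have := h 4 (by decide)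
    rw [show npNb 4 = [1, 5, 7, 9] from by decide] at this
    simpa only [List.map_cons, List.map_nil, List.sum_cons, List.sum_nil, add_zero, add_assoc] using this
  have r5 : a 5 0 + a 5 1 + a 5 2 + a 5 3 + a 5 4 + a 5 9 = 0 := by
    have := h 5 (by decide)
    rw [show npNb 5 = [0, 1, 2, 3, 4, 9] from by decide] at this
    simpa only [List.map_cons, List.map_nil, List.sum_cons, List.sum_nil, add_zero, add_assoc] using this
  have r6 : a 6 0 + a 6 3 + a 6 8 + a 6 9 = 0 := by
    have := h 6 (by decide)
    rw [show npNb 6 = [0, 3, 8, 9] from by decide] at this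
    simpa only [List.map_cons, List.map_nil, List.sum_cons, List.sum_nil, add_zero, add_assoc] using this
  have r7 : a 7 1 + a 7 4 + a 7 8 + a 7 9 = 0 := by
    have := h 7 (by decide)
    rw [show npNb 7 = [1, 4, 8, 9] from by decide] at this
    simpa only [List.map_cons, List.map_nil, List.sum_cons, List.sum_nil, add_zero, add_assoc] using this
  have r8 : a 8 0 + a 8 1 + a 8 2 + a 8 6 + a 8 7 = 0 := by
    have := h 8 (by decide)
    rw [show npNb 8 = [0, 1, 2, 6, 7] from by decide] at this
    simpa only [List.map_cons, List.map_nil, List.sum_cons, List.sum_nil, add_zero, add_assoc] using this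
  have r9 : a 9 3 + a 9 4 + a 9 5 + a 9 6 + a 9 7 = 0 := by
    have := h 9 (by decide)
    rw [show npNb 9 = [3, 4, 5, 6, 7] from by decide] at this
    simpa only [List.map_cons, List.map_nil, List.sum_cons, List.sum_nil, add_zero, add_assoc] using this
  simp only [npEdg, List.forall_mem_cons, List.not_mem_nil, false_imp_iff, implies_true, and_true]
  refine ⟨?_, ?_, ?_, ?_, ?_, ?_, ?_, ?_, ?_, ?_, ?_, ?_, ?_, ?_, ?_, ?_, ?_, ?_, ?_, ?_, ?_, ?_, ?_⟩
  · rw [npPot, npPot, show npPth (npRt 0 2) = [(8, 6), (8, 0)] from by decide,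
      show npPth (npRt 2 0) = [(8, 6), (8, 0), (2, 0)] from by decide]
    simp only [List.map_cons, List.map_nil, List.sum_cons, List.sum_nil]
    linear_combination (norm := abel1) -(an 0 2 (by decide)) 
  · rw [npPot, npPot, show npPth (npRt 0 3) = [(6, 9), (3, 9), (3, 5)] from by decide,
      show npPth (npRt 3 0) = [(6, 9), (6, 3)] from by decide]
    simp only [List.map_cons, List.map_nil, List.sum_cons, List.sum_nil]
    linear_combination (norm := abel1) r3 - an 0 3 (by decide) - an 3 6 (by decide)
  · rw [npPot, npPot, show npPth (npRt 0 5) = [(8, 6), (8, 0), (2, 0)] from by decide,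
      show npPth (npRt 5 0) = [(6, 9), (3, 9), (3, 5)] from by decide]
    simp only [List.map_cons, List.map_nil, List.sum_cons, List.sum_nil]
    linear_combination (norm := abel1) r1 + r2 + r4 + r5 + r7 + r8 + r9 - an 0 5 (by decide) - an 1 2 (by decide) - an 1 4 (by decide) - an 1 5 (by decide) - an 1 7 (by decide) - an 1 8 (by decide) - an 2 5 (by decide) - an 2 8 (by decide) - an 3 5 (by decide) - an 3 9 (by decide) - an 4 5 (by decide) - an 4 7 (by decide) - an 4 9 (by decide) - an 5 9 (by decide) - an 6 9 (by decide) - an 7 8 (by decide) - an 7 9 (by decide)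
  · rw [npPot, npPot, show npPth (npRt 0 6) = [(6, 9), (6, 3)] from by decide,
      show npPth (npRt 6 0) = [(8, 6)] from by decide]
    simp only [List.map_cons, List.map_nil, List.sum_cons, List.sum_nil]
    linear_combination (norm := abel1) r6 - an 0 6 (by decide) - an 6 8 (by decide)
  · rw [npPot, npPot, show npPth (npRt 0 8) = [(8, 6)] from by decide,
      show npPth (npRt 8 0) = [(8, 6), (8, 0)] from by decide]
    simp only [List.map_cons, List.map_nil, List.sum_cons, List.sum_nil]
    linear_combination (norm := abel1) -(an 0 8 (by decide)) 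
  · rw [npPot, npPot, show npPth (npRt 1 2) = [(7, 8), (1, 8), (1, 2)] from by decide,
      show npPth (npRt 2 1) = [(7, 8), (1, 8)] from by decide]
    simp only [List.map_cons, List.map_nil, List.sum_cons, List.sum_nil]
    abel1
  · rw [npPot, npPot, show npPth (npRt 1 4) = [(7, 8), (7, 1)] from by decide,
      show npPth (npRt 4 1) = [(7, 8), (7, 1), (4, 1)] from by decide]
    simp only [List.map_cons, List.map_nil, List.sum_cons, List.sum_nil]
    linear_combination (norm := abel1) -(an 1 4 (by decide)) 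
  · rw [npPot, npPot, show npPth (npRt 1 5) = [(7, 8), (7, 1), (4, 1)] from by decide,
      show npPth (npRt 5 1) = [(7, 8), (1, 8), (1, 2)] from by decide]
    simp only [List.map_cons, List.map_nil, List.sum_cons, List.sum_nil]
    linear_combination (norm := abel1) -(r1) + an 1 4 (by decide) + an 1 7 (by decide)
  · rw [npPot, npPot, show npPth (npRt 1 7) = [(7, 8)] from by decide,
      show npPth (npRt 7 1) = [(7, 8), (7, 1)] from by decide]
    simp only [List.map_cons, List.map_nil, List.sum_cons, List.sum_nil]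
    linear_combination (norm := abel1) -(an 1 7 (by decide)) 
  · rw [npPot, npPot, show npPth (npRt 1 8) = [(7, 8), (1, 8)] from by decide,
      show npPth (npRt 8 1) = [(7, 8)] from by decide]
    simp only [List.map_cons, List.map_nil, List.sum_cons, List.sum_nil]
    abel1
  · rw [npPot, npPot, show npPth (npRt 2 5) = [(7, 8), (1, 8), (1, 2)] from by decide,
      show npPth (npRt 5 2) = [(8, 6), (8, 0), (2, 0)] from by decide]
    simp only [List.map_cons, List.map_nil, List.sum_cons, List.sum_nil]
    linear_combination (norm := abel1) -(r2) - r8 + an 1 2 (by decide) + an 1 8 (by decide) + an 2 8 (by decide) + an 7 8 (by decide)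
  · rw [npPot, npPot, show npPth (npRt 2 8) = [(8, 6), (8, 0)] from by decide,
      show npPth (npRt 8 2) = [(7, 8), (1, 8)] from by decide]
    simp only [List.map_cons, List.map_nil, List.sum_cons, List.sum_nil]
    linear_combination (norm := abel1) r8 - an 1 8 (by decide) - an 2 8 (by decide) - an 7 8 (by decide)
  · rw [npPot, npPot, show npPth (npRt 3 5) = [(6, 9), (3, 9), (3, 5)] from by decide,
      show npPth (npRt 5 3) = [(6, 9), (3, 9)] from by decide]
    simp only [List.map_cons, List.map_nil, List.sum_cons, List.sum_nil]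
    abel1
  · rw [npPot, npPot, show npPth (npRt 3 6) = [(6, 9)] from by decide,
      show npPth (npRt 6 3) = [(6, 9), (6, 3)] from by decide]
    simp only [List.map_cons, List.map_nil, List.sum_cons, List.sum_nil]
    linear_combination (norm := abel1) -(an 3 6 (by decide)) 
  · rw [npPot, npPot, show npPth (npRt 3 9) = [(6, 9), (3, 9)] from by decide,
      show npPth (npRt 9 3) = [(6, 9)] from by decide]
    simp only [List.map_cons, List.map_nil, List.sum_cons, List.sum_nil]
    abel1
  · rw [npPot, npPot, show npPth (npRt 4 5) = [(9, 7), (9, 4)] from by decide,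
      show npPth (npRt 5 4) = [(7, 8), (7, 1), (4, 1)] from by decide]
    simp only [List.map_cons, List.map_nil, List.sum_cons, List.sum_nil]
    linear_combination (norm := abel1) -(r4) - r7 + an 4 7 (by decide) + an 4 9 (by decide) + an 7 9 (by decide)
  · rw [npPot, npPot, show npPth (npRt 4 7) = [(7, 8), (7, 1)] from by decide,
      show npPth (npRt 7 4) = [(9, 7)] from by decide]
    simp only [List.map_cons, List.map_nil, List.sum_cons, List.sum_nil]
    linear_combination (norm := abel1) r7 - an 4 7 (by decide) - an 7 9 (by decide)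
  · rw [npPot, npPot, show npPth (npRt 4 9) = [(9, 7)] from by decide,
      show npPth (npRt 9 4) = [(9, 7), (9, 4)] from by decide]
    simp only [List.map_cons, List.map_nil, List.sum_cons, List.sum_nil]
    linear_combination (norm := abel1) -(an 4 9 (by decide)) 
  · rw [npPot, npPot, show npPth (npRt 5 9) = [(9, 7), (9, 4)] from by decide,
      show npPth (npRt 9 5) = [(6, 9), (3, 9)] from by decide]
    simp only [List.map_cons, List.map_nil, List.sum_cons, List.sum_nil]
    linear_combination (norm := abel1) r9 - an 3 9 (by decide) - an 5 9 (by decide) - an 6 9 (by decide)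
  · rw [npPot, npPot, show npPth (npRt 6 8) = [] from by decide,
      show npPth (npRt 8 6) = [(8, 6)] from by decide]
    simp only [List.map_cons, List.map_nil, List.sum_cons, List.sum_nil]
    linear_combination (norm := abel1) -(an 6 8 (by decide)) 
  · rw [npPot, npPot, show npPth (npRt 6 9) = [(6, 9)] from by decide,
      show npPth (npRt 9 6) = [] from by decide]
    simp only [List.map_cons, List.map_nil, List.sum_cons, List.sum_nil]
    abel1
  · rw [npPot, npPot, show npPth (npRt 7 8) = [(7, 8)] from by decide,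
      show npPth (npRt 8 7) = [] from by decide]
    simp only [List.map_cons, List.map_nil, List.sum_cons, List.sum_nil]
    abel1
  · rw [npPot, npPot, show npPth (npRt 7 9) = [] from by decide,
      show npPth (npRt 9 7) = [(9, 7)] from by decide]
    simp only [List.map_cons, List.map_nil, List.sum_cons, List.sum_nil]
    linear_combination (norm := abel1) -(an 7 9 (by decide)) 

lemma np_p1 (a : V → V → A) (an : ∀ s t, npAd s t → a s t + a t s = 0)
    (h : ∀ v, v ≠ vz → ((npNb v).map (a v)).sum = 0) {s t : V} (hst : npAd s t) :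
    npPot a (npRt s t) - npPot a (npRt t s) = a s t := by
  rcases np_edg s t hst with he | he
  · exact np_p1_aux a an h _ he
  · have h1 := np_p1_aux a an h _ he
    have h2 := an s t hst
    linear_combination (norm := abel1) -h1 - h2

/-- The sum of the dual edges around a vertex has no boundary. -/
lemma np_star_sum (f : Fin 15 → A) (v : V) :
    ((npNb v).map fun t => f (npRt v t) - f (npRt t v)).sum = 0 := by
  have h := ((np_star v).map f).sum_eq
  simp only [List.map_map] at h
  have e : ∀ l : List V, (l.map fun t => f (npRt v t) - f (npRt t v)).sum =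
      (l.map (f ∘ npRt v)).sum - (l.map (f ∘ fun t => npRt t v)).sum := by
    intro l
    induction l with
    | nil => simp
    | cons x l ih => simp only [List.map_cons, List.sum_cons, ih, Function.comp]; abel
  rw [e, h, sub_self]

lemma np_tel_sum (f : Fin 15 → A) (d : Fin 15) :
    ((npPth d).map fun e => f (npRt e.1 e.2) - f (npRt e.2 e.1)).sum = f d - f 14 := by
  have h := ((np_tel d).map f).sum_eq
  simp only [List.map_map, List.map_cons, List.sum_cons] at h
  have e : ∀ l : List (V × V), (l.map fun e => f (npRt e.1 e.2) - f (npRt e.2 e.1)).sum =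
      (l.map (f ∘ fun e => npRt e.1 e.2)).sum - (l.map (f ∘ fun e => npRt e.2 e.1)).sum := by
    intro l
    induction l with
    | nil => simp
    | cons x l ih => simp only [List.map_cons, List.sum_cons, ih, Function.comp]; abel
  rw [e]
  linear_combination (norm := abel1) h

/-- Elements of a group generated by commuting involutions are short words. -/
lemma np_short {H : Type} [Group H] (x : V → H) (sq : ∀ s, x s * x s = 1) (T : List V)
    (cm : ∀ s ∈ T, ∀ t ∈ T, Commute (x s) (x t)) {w : H}
    (hw : w ∈ Subgroup.closure (x '' {s | s ∈ T})) :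
    ∃ l : List V, l.length ≤ 11 ∧ (∀ t ∈ l, t ∈ T) ∧ (l.map x).prod = w := by
  have key : ∃ l : List V, l.Nodup ∧ (∀ t ∈ l, t ∈ T) ∧ (l.map x).prod = w := by
    have e : x '' {s | s ∈ T} = Set.range fun s : {s // s ∈ T} => x s.1 := by
      ext y; simp
    rw [e] at hw
    refine ind_right (a := fun s : {s // s ∈ T} => x s.1) (fun s => sq _)
      (P := fun w => ∃ l : List V, l.Nodup ∧ (∀ t ∈ l, t ∈ T) ∧ (l.map x).prod = w)
      ⟨[], by simp⟩ ?_ hw
    rintro _ ⟨s, hs⟩ ⟨l, h1, h2, rfl⟩
    by_cases hm : s ∈ l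
    · refine ⟨l.erase s, h1.erase _, fun t ht => h2 t (List.mem_of_mem_erase ht), ?_⟩
      have hp : l.Perm (l.erase s ++ [s]) :=
        (List.perm_cons_erase hm).trans (List.perm_append_singleton _ _).symm
      have hc : (l.map x).Pairwise Commute := by
        rw [List.pairwise_map]
        exact List.pairwise_of_forall_mem_list fun a ha b hb => cm a (h2 a ha) b (h2 b hb)
      rw [(hp.map x).prod_eq' hc]
      simp [mul_assoc, sq]
    · refine ⟨l ++ [s], ?_, ?_, by simp⟩
      · exact List.Nodup.append h1 (List.nodup_singleton s) (by simpa using hm)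
      · intro t ht
        rcases List.mem_append.1 ht with ht | ht
        · exact h2 t ht
        · rw [List.mem_singleton.1 ht]; exact hs
  obtain ⟨l, h1, h2, h3⟩ := key
  exact ⟨l, by simpa using h1.length_le_card, h2, h3⟩

end Pool.Agent.Lib.MP_b65ff2_gt
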