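import Pool.Agent.Lib.MP_b65ff2_gt.NFil
import Pool.Agent.Lib.MP_b65ff2_gt.NTl
import Pool.Agent.Lib.MP_b65ff2_gt.NPolyA

namespace Pool.Agent.Lib.MP_b65ff2_gt

set_option linter.unusedSectionVars false

noncomputable section

variable {n : ℕ} {Q : Type} [Group Q]

def npSub (M : PM L11 Q) (d : Fin 15) : Subgroup Q := Subgroup.closure (M.g '' {s | s ∈ npVs d})

/-- Dual vertices: cubes and cusps. -/
abbrev npF (M : PM L11 Q) : Type := (Σ d : Fin 15, Q ⧸ npSub M d) →₀ ℤ

def npPt (M : PM L11 Q) (q : Q) (d : Fin 15) : npF M :=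
  Finsupp.single ⟨d, QuotientGroup.mk q⟩ 1

lemma npPt_mul (M : PM L11 Q) (q : Q) {d : Fin 15} {s : V} (hs : s ∈ npVs d) :
    npPt M (q * M.g s) d = npPt M q d := by
  unfold npPt
  have h : M.g s ∈ npSub M d := Subgroup.subset_closure ⟨s, hs, rfl⟩
  rw [QuotientGroup.mk_mul_of_mem q h]

/-- `x` is the image of a vector of size at most `K`. -/
def npNB {E A : Type} [Fintype E] [AddCommGroup A] (π : (E → ℤ) →ₗ[ℤ] A) (K : ℕ) (x : A) : Prop :=
  ∃ v : E → ℤ, ∑ e, |v e| ≤ K ∧ π v = x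

section NB
variable {E A : Type} [Fintype E] [AddCommGroup A] {π : (E → ℤ) →ₗ[ℤ] A}

lemma npNB.zero : npNB π 0 0 := ⟨0, by simp, map_zero _⟩

lemma npNB.mono {K K' : ℕ} {x : A} (h : npNB π K x) (hK : K ≤ K') : npNB π K' x := by
  obtain ⟨v, h1, h2⟩ := h
  exact ⟨v, h1.trans (by exact_mod_cast hK), h2⟩

lemma npNB.add {K K' : ℕ} {x y : A} (h : npNB π K x) (h' : npNB π K' y) :
    npNB π (K + K') (x + y) := by
  obtain ⟨v, h1, rfl⟩ := h
  obtain ⟨w, h2, rfl⟩ := h'
  refine ⟨v + w, ?_, map_add _ _ _⟩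
  calc ∑ e, |(v + w) e| ≤ ∑ e, (|v e| + |w e|) := Finset.sum_le_sum fun e _ => abs_add_le _ _
    _ ≤ _ := by rw [Finset.sum_add_distrib]; push_cast; exact add_le_add h1 h2

lemma npNB.neg {K : ℕ} {x : A} (h : npNB π K x) : npNB π K (-x) := by
  obtain ⟨v, h1, rfl⟩ := h
  exact ⟨-v, by simpa using h1, map_neg _ _⟩

lemma npNB.list {X : Type} {K : ℕ} (f : X → A) (h : ∀ x, npNB π K (f x)) (l : List X) :
    npNB π (l.length * K) (l.map f).sum := by
  induction l with
  | nil => simpa using npNB.zero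
  | cons x l ih =>
    rw [List.map_cons, List.sum_cons]
    exact ((h x).add ih).mono (by rw [List.length_cons]; nlinarith)

end NB

lemma np_p_rho (M : TD n Q) (h : Fil n) : M.p (M.ρ h) vz = 0 := by
  refine ind_right (gP_sq n) (P := fun h => M.p (M.ρ h) vz = 0) ?_ ?_
    (gP_gen n ▸ Subgroup.mem_top h)
  · rw [map_one, M.toPM.p_one]; rfl
  · intro w s ih
    rw [map_mul, gP, M.ρ_g _ s.2, M.toPM.p_mul_g, ih, if_neg s.2.symm, add_zero]

lemma np_range (M : TD n Q) {q : Q} (hq : M.p q vz = 0) : ∃ h, M.ρ h = q := by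
  set ζ := M.ρ (psi n (gW vz)) with hζ
  have hz : ζ * ζ = 1 := by rw [hζ, ← map_mul, ← map_mul, gn_sq, map_one, map_one]
  have hc : ∀ s, M.g vz * ζ * M.g s = M.g s * (M.g vz * ζ) := fun s => (M.cen s).eq
  have hcc : M.g vz * ζ * M.g vz = ζ := by rw [hc, ← mul_assoc, M.sq, one_mul]
  have key : ∀ q : Q, (∃ h, M.ρ h = q) ∨ ∃ h, M.ρ h * (M.g vz * ζ) = q := by
    intro q
    induction q using M.toPM.ind with
    | h1 => exact .inl ⟨1, map_one _⟩
    | hs q s ih =>
      by_cases hs : s = vz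
      · subst hs
        rcases ih with ⟨h, rfl⟩ | ⟨h, rfl⟩
        · refine .inr ⟨h * psi n (gW vz), ?_⟩
          have : ζ * (M.g vz * ζ) = M.g vz := by
            calc ζ * (M.g vz * ζ) = M.g vz * (M.g vz * ζ * M.g vz) * ζ := by
                  rw [← mul_assoc, ← mul_assoc, ← mul_assoc, M.sq, one_mul]
              _ = M.g vz := by rw [hcc, mul_assoc, hz, mul_one]
          rw [map_mul, ← hζ, mul_assoc, this]
        · exact .inl ⟨h * psi n (gW vz), by rw [map_mul, ← hζ, mul_assoc, hcc]⟩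
      · rcases ih with ⟨h, rfl⟩ | ⟨h, rfl⟩
        · exact .inl ⟨h * psi n (gW s), by rw [map_mul, M.ρ_g s hs]⟩
        · exact .inr ⟨h * psi n (gW s), by
            rw [map_mul, M.ρ_g s hs, mul_assoc, ← hc, mul_assoc (M.ρ h)]⟩
  rcases key q with h | ⟨h, rfl⟩
  · exact h
  · exfalso
    rw [M.p_mul, M.p_mul, Pi.add_apply, Pi.add_apply, np_p_rho, hζ, np_p_rho, M.p_g] at hq
    simp at hq

lemma np_words (n : ℕ) : ∃ L : ℕ, ∀ (Q : Type) [Group Q] (M : TD n Q) (d : Fin 15),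
    ∀ w ∈ npSub M.toPM d, ∃ l : List V, l.length ≤ L ∧ (∀ t ∈ l, t ∈ npVs d) ∧
      (l.map M.g).prod = w := by
  obtain ⟨L, hL⟩ := xy_short n
  refine ⟨max L 11, fun Q _ M d w hw => ?_⟩
  rcases np_vs_cases d with rfl | hd
  · have e : npSub M.toPM 14 =
        (Subgroup.closure (gW '' (XY : Set V))).map (M.ρ.comp (psi n)) := by
      rw [MonoidHom.map_closure, npSub, Set.image_image]
      congr 1
      have : {s | s ∈ npVs 14} = (XY : Set V) := Set.ext fun s => np_vs_xy s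
      rw [this]
      refine Set.image_congr fun s hs => ?_
      exact (M.ρ_g s (np_vs_ne 14 s ((np_vs_xy s).2 hs))).symm
    rw [e] at hw
    obtain ⟨u, hu, rfl⟩ := hw
    obtain ⟨l, h1, h2, h3⟩ := hL u hu
    refine ⟨l, h1.trans (le_max_left _ _), fun t ht => (np_vs_xy t).2 (h2 t ht), ?_⟩
    rw [MonoidHom.comp_apply, ← h3, wd, map_list_prod, map_list_prod, List.map_map, List.map_map]
    congr 1
    refine List.map_congr_left fun t ht => ?_
    exact (M.ρ_g t (np_vs_ne 14 t ((np_vs_xy t).2 (h2 t ht)))).symm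
  · obtain ⟨l, h1, h2, h3⟩ := np_short M.g M.sq (npVs d) (fun s hs t ht => by
      rcases hd s hs t ht with rfl | h
      · exact Commute.refl _
      · exact M.cm s t h) hw
    exact ⟨l, h1.trans (le_max_right _ _), h2, h3⟩

theorem np_core (n : ℕ) : ∃ L : ℕ, ∀ (Q : Type) [Group Q] (M : TD n Q) (D B : ℕ),
    SG (gP n) M.ρ D B → ∀ {E A : Type} [Fintype E] [AddCommGroup A] (π : (E → ℤ) →ₗ[ℤ] A)
    (a : Q → V → V → A), (∀ q s t, npNB π 1 (a q s t)) →
    (∀ q s t, npAd s t → a q s t + a q t s = 0) →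
    (∀ q s t, npAd s t → a (q * M.g s) s t = a q s t) →
    (∀ q v, v ≠ vz → ((npNb v).map (a q v)).sum = 0) → ∀ b : A →+ npF M.toPM,
    (∀ q s t, M.p q vz = 0 → npAd s t →
      b (a q s t) = npPt M.toPM q (npRt s t) - npPt M.toPM q (npRt t s)) →
    ∃ (l : npF M.toPM →+ A) (y : Fin D → A), (∀ i, b (y i) = 0) ∧ (∀ i, npNB π (B * 6) (y i)) ∧
      ∀ q s t, M.p q vz = 0 → npAd s t → Sm y (L * B + L * B) (a q s t - l (b (a q s t))) := by
  obtain ⟨L, hL⟩ := np_words n
  refine ⟨L, fun Q _ M D B hSG E A _ _ π a nb an inv rel b hb => ?_⟩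
  have p1 : ∀ q {s t : V}, npAd s t →
      npPot (a q) (npRt s t) - npPot (a q) (npRt t s) = a q s t :=
    fun q _ _ h => np_p1 (a q) (an q) (rel q) h
  set c : Q → V → A := fun q s => npPot (a q) (npD0 s) - npPot (a (q * M.g s)) (npD0 s) with hc
  have ceq : ∀ q {s : V} {d : Fin 15}, s ∈ npVs d →
      c q s = npPot (a q) d - npPot (a (q * M.g s)) d := by
    intro q s d hd
    refine (np_conn s (fun d => npPot (a q) d - npPot (a (q * M.g s)) d) (fun t ht => ?_) hd).symm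
    have h1 := p1 q ht
    have h2 := p1 (q * M.g s) ht
    rw [inv q s t ht] at h2
    linear_combination (norm := abel1) h1 - h2
  obtain ⟨κ, κ1, hκ⟩ := kap n M.ρ c
    (fun q s hs => by
      rw [M.ρ_g s hs]
      simp only [hc, mul_assoc, M.sq, mul_one]
      abel)
    (fun q s t hs ht h => by
      rw [M.ρ_g s hs, M.ρ_g t ht]
      obtain ⟨m1, m2⟩ := np_mem s t ⟨h, hs, ht⟩
      rw [ceq q m1, ceq _ m2, ceq q m2, ceq _ m1, mul_assoc, mul_assoc, M.cm s t h]
      abel)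
    0 (fun q t ht => by simp only [hc, np_d0_xy t ht, np_pot_cusp, Pi.zero_apply])
  obtain ⟨m, τ, hm, -, hl, hs⟩ := sg_kap (c := fun q (s : {s : V // s ≠ vz}) => c q s.1)
    (gP_sq n) (gP_gen n) hSG κ κ1 hκ
  have hρ : ∀ h (s : {s : V // s ≠ vz}), M.ρ (h * gP n s) = M.ρ h * M.g s := fun h s => by
    rw [map_mul, gP, M.ρ_g _ s.2]
  have bpot : ∀ q d, M.p q vz = 0 → b (npPot (a q) d) = npPt M.toPM q d - npPt M.toPM q 14 := by
    intro q d hq
    rw [npPot, map_list_sum, List.map_map, ← np_tel_sum (npPt M.toPM q) d]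
    congr 1
    exact List.map_congr_left fun e he => hb q _ _ hq (np_pth_ad d e he)
  have bκ : ∀ h, b (κ h) = npPt M.toPM (M.ρ h) 14 - npPt M.toPM 1 14 := by
    intro h
    refine ind_right (gP_sq n)
      (P := fun h => b (κ h) = npPt M.toPM (M.ρ h) 14 - npPt M.toPM 1 14) ?_ ?_
      (gP_gen n ▸ Subgroup.mem_top h)
    · simp [κ1]
    · intro w s ih
      have h2 := np_p_rho M (w * gP n s)
      rw [hρ] at h2
      rw [hκ, map_add, ih, hρ, hc]
      simp only [map_sub]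
      rw [bpot _ _ (np_p_rho M w), bpot _ _ h2, npPt_mul _ _ (np_d0 s.1 s.2)]
      abel
  set φ : Q → Fin 15 → A := fun q d => κ (τ q) + npPot (a q) d with hφ
  have word : ∀ (d : Fin 15) (l : List V), (∀ t ∈ l, t ∈ npVs d) → ∀ h,
      Sm (fun i => κ (m i)) (l.length * B) (φ (M.ρ h) d - φ (M.ρ h * (l.map M.g).prod) d) := by
    intro d l
    induction l with
    | nil => intro _ h; simpa using Sm.zero _
    | cons s l ih =>
      intro hl h
      have hsd := hl s List.mem_cons_self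
      have h1 := hs h ⟨s, np_vs_ne d s hsd⟩
      have h2 := ih (fun t ht => hl t (List.mem_cons_of_mem _ ht)) (h * gP n ⟨s, np_vs_ne d s hsd⟩)
      rw [hρ] at h1 h2
      have h3 := h1.add h2
      simp only [ceq _ hsd] at h3
      rw [List.map_cons, List.prod_cons, ← mul_assoc]
      refine Sm.mono (a := B + l.length * B) ?_ (by rw [List.length_cons]; nlinarith)
      convert h3 using 1
      simp only [hφ]
      abel
  have cls : ∀ (d : Fin 15) h, Sm (fun i => κ (m i)) (L * B)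
      (φ (M.ρ h) d - φ (QuotientGroup.mk (s := npSub M.toPM d) (M.ρ h)).out d) := by
    intro d h
    obtain ⟨w, hw⟩ := QuotientGroup.mk_out_eq_mul (npSub M.toPM d) (M.ρ h)
    obtain ⟨l, h1, h2, h3⟩ := hL Q M d w w.2
    rw [hw, ← h3]
    exact (word d l h2 h).mono (Nat.mul_le_mul_right _ h1)
  refine ⟨(Finsupp.linearCombination ℤ
    fun x : (Σ d : Fin 15, Q ⧸ npSub M.toPM d) => φ x.2.out x.1).toAddMonoidHom,
    fun i => κ (m i), fun i => by rw [bκ, hm, sub_self], fun i => ?_, fun q s t hq h => ?_⟩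
  · obtain ⟨l, h1, h2⟩ := hl i
    have pot : ∀ q d, npNB π 3 (npPot (a q) d) := fun q d =>
      (npNB.list (fun e : V × V => a q e.1 e.2) (fun e => nb q _ _) _).mono
        (by simpa using np_pth_len d)
    beta_reduce
    rw [h2]
    refine (npNB.list (K := 6) _ (fun x => ?_) l).mono (Nat.mul_le_mul_right _ h1)
    simp only [hc, sub_eq_add_neg]
    exact (pot _ _).add (pot _ _).neg
  · obtain ⟨u, rfl⟩ := np_range M hq
    have h1 := (cls (npRt s t) u).add (cls (npRt t s) u).neg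
    convert h1 using 1
    rw [hb _ s t hq h, map_sub]
    simp only [npPt, LinearMap.toAddMonoidHom_coe, Finsupp.linearCombination_single, one_smul]
    rw [← p1 (M.ρ u) h]
    simp only [hφ]
    abel

end

end Pool.Agent.Lib.MP_b65ff2_gt
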