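import Pool.Agent.Lib.MP_b65ff2_gt.NBase

namespace Pool.Agent.Lib.MP_b65ff2_gt

open Matrix Filter Topology

set_option linter.unusedSectionVars false

noncomputable section

variable {S : Type} {Γ : SimpleGraph S}

def nr_f (w : RA Γ) : S → ℤ := tits Γ ℤ w⁻¹ 1

lemma nr_f_one : nr_f (1 : RA Γ) = 1 := by simp [nr_f]

lemma nr_f_mul (w : RA Γ) (s : S) : nr_f (w * gn Γ s) = mv Γ s (nr_f w) := by
  simp only [nr_f, _root_.mul_inv_rev, map_mul, gn_inv, tits, RA.lift_gn]; rfl

lemma nr_self (w : RA Γ) (s : S) : nr_f (w * gn Γ s) s = -nr_f w s := by simp [nr_f_mul, mv]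

lemma nr_adj (w : RA Γ) {s t : S} (h : Γ.Adj s t) : nr_f (w * gn Γ s) t = nr_f w t := by
  simp [nr_f_mul, mv, h, h.ne']

lemma nr_non (w : RA Γ) {s t : S} (h : ¬Γ.Adj s t) (h' : t ≠ s) :
    nr_f (w * gn Γ s) t = nr_f w t + 2 * nr_f w s := by simp [nr_f_mul, mv, h, h']

lemma nr_odd (w : RA Γ) : ∀ s, Odd (nr_f w s) := by
  induction w using RA.ind with
  | h1 => simp [nr_f_one]
  | hs w t ih =>
    intro s
    by_cases h : s = t
    · subst h; rw [nr_self]; exact (ih s).neg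
    by_cases h' : Γ.Adj t s
    · rw [nr_adj w h']; exact ih s
    · rw [nr_non w h' h]; exact (ih s).add_even (even_two_mul _)

lemma nr_pos {w : RA Γ} {s : S} : ¬Dn Γ w s ↔ 0 < nr_f w s := by
  have := nr_odd w s
  rw [Int.odd_iff] at this
  change ¬nr_f w s < 0 ↔ _
  omega

inductive NrG (Γ : SimpleGraph S) : ℕ → RA Γ → Prop
  | one : NrG Γ 0 1
  | up {n w s} : NrG Γ n w → 0 < nr_f w s → NrG Γ (n + 1) (w * gn Γ s)

lemma NrG.inv {n : ℕ} {w : RA Γ} (h : NrG Γ n w) :
    ∀ s t, s ≠ t → ¬Γ.Adj s t → 0 < nr_f w s + nr_f w t := by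
  induction h with
  | one => simp [nr_f_one]
  | @up n w u _ hu ih =>
    have k : ∀ s, s ≠ u → nr_f w s ≤ nr_f (w * gn Γ u) s := fun s hs => by
      by_cases h' : Γ.Adj u s
      · rw [nr_adj w h']
      · rw [nr_non w h' hs]; omega
    intro s t hst ha
    by_cases h1 : s = u
    · subst h1
      have := ih s t hst ha
      rw [nr_self, nr_non w ha hst.symm]; omega
    by_cases h2 : t = u
    · subst h2
      have := ih s t hst ha
      rw [nr_self, nr_non w (fun h => ha h.symm) hst]; omega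
    have := ih s t hst ha
    have := k s h1
    have := k t h2
    omega

lemma NrG.down {n : ℕ} {w : RA Γ} (h : NrG Γ n w) :
    ∀ s, nr_f w s < 0 → ∃ m, n = m + 1 ∧ NrG Γ m (w * gn Γ s) := by
  induction h with
  | one => simp [nr_f_one]
  | @up n w t hw ht ih =>
    intro s hs
    by_cases h1 : s = t
    · subst h1
      exact ⟨n, rfl, by rwa [mul_assoc, gn_sq, mul_one]⟩
    by_cases h2 : Γ.Adj t s
    · rw [nr_adj w h2] at hs
      obtain ⟨m, rfl, hm⟩ := ih s hs
      refine ⟨_, rfl, ?_⟩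
      rw [mul_assoc, gn_cm Γ h2, ← mul_assoc]
      exact hm.up (by rwa [nr_adj w h2.symm])
    · have := hw.inv t s (Ne.symm h1) h2
      rw [nr_non w h2 h1] at hs
      omega

lemma nr_ex (w : RA Γ) : ∃ n, NrG Γ n w := by
  induction w using RA.ind with
  | h1 => exact ⟨0, .one⟩
  | hs w s ih =>
    obtain ⟨n, h⟩ := ih
    by_cases hs : Dn Γ w s
    · obtain ⟨m, -, hm⟩ := h.down s hs
      exact ⟨m, hm⟩
    · exact ⟨_, h.up (nr_pos.1 hs)⟩

lemma NrG.cases' {n : ℕ} {w : RA Γ} (h : NrG Γ n w) :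
    (n = 0 ∧ w = 1) ∨ ∃ s, nr_f w s < 0 := by
  cases h with
  | one => exact .inl ⟨rfl, rfl⟩
  | @up n w s _ hs => exact .inr ⟨s, by rw [nr_self]; omega⟩

lemma NrG.uniq {n : ℕ} : ∀ {m : ℕ} {w : RA Γ}, NrG Γ n w → NrG Γ m w → n = m := by
  induction n with
  | zero =>
    intro m w h h'
    rcases h'.cases' with h1 | ⟨s, hs⟩
    · exact h1.1.symm
    · obtain ⟨k, hk, -⟩ := h.down s hs
      omega
  | succ n ih =>
    intro m w h h'
    rcases h.cases' with h1 | ⟨s, hs⟩
    · omega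
    · obtain ⟨k, hk, h2⟩ := h.down s hs
      obtain ⟨k', rfl, h3⟩ := h'.down s hs
      obtain rfl : n = k := by omega
      rw [ih h2 h3]

lemma wd_nil : wd Γ [] = 1 := rfl

lemma wd_append (a b : List S) : wd Γ (a ++ b) = wd Γ a * wd Γ b := by simp [wd]

lemma wd_cons (s : S) (b : List S) : wd Γ (s :: b) = gn Γ s * wd Γ b := by simp [wd]

lemma wd_concat (a : List S) (s : S) : wd Γ (a ++ [s]) = wd Γ a * gn Γ s := by simp [wd]

lemma NrG.word {n : ℕ} {w : RA Γ} (h : NrG Γ n w) : ∃ l : List S, l.length = n ∧ wd Γ l = w := by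
  induction h with
  | one => exact ⟨[], rfl, rfl⟩
  | @up n w s _ _ ih =>
    obtain ⟨l, rfl, rfl⟩ := ih
    exact ⟨l ++ [s], by simp, wd_concat l s⟩

lemma nr_le (l : List S) : ∀ n, NrG Γ n (wd Γ l) → n ≤ l.length := by
  induction l using List.reverseRecOn with
  | nil => exact fun n h => (h.uniq .one).le
  | append_singleton l s ih =>
    intro n h
    obtain ⟨m, hm⟩ := nr_ex (wd Γ l)
    have := ih m hm
    rw [wd_concat] at h
    rw [List.length_append, List.length_singleton]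
    by_cases hs : Dn Γ (wd Γ l) s
    · obtain ⟨k, rfl, hk⟩ := hm.down s hs
      have := h.uniq hk
      omega
    · have := h.uniq (hm.up (nr_pos.1 hs))
      omega

lemma NrG.len_eq {n : ℕ} {w : RA Γ} (h : NrG Γ n w) : len Γ w = n := by
  refine le_antisymm (Nat.sInf_le h.word) (le_csInf ⟨n, h.word⟩ ?_)
  rintro _ ⟨l, rfl, rfl⟩
  exact nr_le l n h

lemma nr_len (w : RA Γ) : NrG Γ (len Γ w) w := by
  obtain ⟨n, h⟩ := nr_ex w
  rwa [h.len_eq]

theorem Dn_clique {w : RA Γ} {s t : S} (hs : Dn Γ w s) (ht : Dn Γ w t) (h : s ≠ t) : Γ.Adj s t := by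
  by_contra ha
  have := (nr_len w).inv s t h ha
  change nr_f w s < 0 at hs
  change nr_f w t < 0 at ht
  omega

theorem Dn_mul_self (w : RA Γ) (s : S) : Dn Γ (w * gn Γ s) s ↔ ¬Dn Γ w s := by
  rw [nr_pos]
  change nr_f _ s < 0 ↔ _
  rw [nr_self]; omega

theorem Dn_mul_adj (w : RA Γ) {s t : S} (h : Γ.Adj s t) : Dn Γ (w * gn Γ s) t ↔ Dn Γ w t := by
  change nr_f _ t < 0 ↔ _
  rw [nr_adj w h]; rfl

theorem not_Dn_one (s : S) : ¬Dn Γ 1 s := by simp [nr_pos, nr_f_one]

theorem eq_one_of_not_Dn {w : RA Γ} (h : ∀ s, ¬Dn Γ w s) : w = 1 :=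
  ((nr_len w).cases'.resolve_right fun ⟨s, hs⟩ => h s hs).2

theorem len_one : len Γ 1 = 0 := NrG.one.len_eq

theorem len_up {w : RA Γ} {s : S} (h : ¬Dn Γ w s) : len Γ (w * gn Γ s) = len Γ w + 1 :=
  ((nr_len w).up (nr_pos.1 h)).len_eq

theorem len_down {w : RA Γ} {s : S} (h : Dn Γ w s) : len Γ (w * gn Γ s) + 1 = len Γ w := by
  obtain ⟨m, hm, h'⟩ := (nr_len w).down s h
  rw [h'.len_eq, hm]

theorem len_le (l : List S) : len Γ (wd Γ l) ≤ l.length := nr_le l _ (nr_len _)

/-- Induction along ascents. -/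
theorem RA.ind_up {P : RA Γ → Prop} (h1 : P 1)
    (hs : ∀ w s, ¬Dn Γ w s → P w → P (w * gn Γ s)) (w : RA Γ) : P w := by
  obtain ⟨n, h⟩ := nr_ex w
  induction h with
  | one => exact h1
  | up _ h ih => exact hs _ _ (nr_pos.2 h) ih

lemma nr_comm {s : S} {b : List S} (h : ∀ t ∈ b, t = s ∨ Γ.Adj s t) :
    gn Γ s * wd Γ b = wd Γ b * gn Γ s := by
  induction b with
  | nil => simp [wd]
  | cons t b ih =>
    have : gn Γ s * gn Γ t = gn Γ t * gn Γ s := by
      rcases h t (by simp) with rfl | h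
      exacts [rfl, gn_cm Γ h]
    rw [wd_cons, ← mul_assoc, this, mul_assoc, ih fun u hu => h u (by simp [hu]), mul_assoc]

theorem exists_red (w : RA Γ) : ∃ l, Red Γ l ∧ wd Γ l = w := by
  obtain ⟨l, hl, rfl⟩ := (nr_len w).word
  refine ⟨l, ?_, rfl⟩
  rintro a s b c rfl
  by_contra! h
  have e : wd Γ (a ++ s :: (b ++ s :: c)) = wd Γ (a ++ (b ++ c)) := by
    rw [wd_append, wd_cons, wd_append, wd_cons, ← mul_assoc (gn Γ s),
      nr_comm fun t ht => (eq_or_ne t s).imp_right (h t ht), mul_assoc, ← mul_assoc (gn Γ s), gn_sq,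
      one_mul, wd_append, wd_append]
  have := len_le (Γ := Γ) (a ++ (b ++ c))
  rw [← e, ← hl] at this
  simp only [List.length_append, List.length_cons] at this
  omega

lemma nr_red (l : List S) : Red Γ l →
    ∀ s, Dn Γ (wd Γ l) s → ∃ a b, l = a ++ s :: b ∧ ∀ t ∈ b, Γ.Adj s t := by
  induction l using List.reverseRecOn with
  | nil => exact fun _ s hs => absurd hs (not_Dn_one s)
  | append_singleton l t ih =>
    intro h s hs
    have ih := ih fun a s b c e => h a s b (c ++ [t]) (by simp [e])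
    have ht : ¬Dn Γ (wd Γ l) t := fun ht => by
      obtain ⟨a, b, rfl, hb⟩ := ih t ht
      obtain ⟨u, hu, -, h2⟩ := h a t b [] (by simp)
      exact h2 (hb u hu)
    by_cases e : s = t
    · exact ⟨l, [], by rw [e], by simp⟩
    rw [wd_concat] at hs
    have ha := Dn_clique hs ((Dn_mul_self _ t).2 ht) e
    obtain ⟨a, b, rfl, hb⟩ := ih s ((Dn_mul_adj _ ha.symm).1 hs)
    refine ⟨a, b ++ [t], by simp, fun u hu => ?_⟩
    rcases List.mem_append.1 hu with hu | hu
    exacts [hb u hu, by rwa [List.mem_singleton.1 hu]]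

theorem red_Dn {l : List S} {s : S} (h : Red Γ (l ++ [s])) : Dn Γ (wd Γ (l ++ [s])) s := by
  rw [wd_concat, Dn_mul_self]
  intro hs
  obtain ⟨a, b, rfl, hb⟩ := nr_red l (fun a t b c e => h a t b (c ++ [s]) (by simp [e])) s hs
  obtain ⟨u, hu, -, h2⟩ := h a s b [] (by simp)
  exact h2 (hb u hu)

theorem nn_one : nn Γ 1 = 0 := by simp [nn]

lemma nr_wall (w : RA Γ) : ∀ φ, wallH Γ w φ = nn Γ w + φ.mapDomain fun r => w * r * w⁻¹ := by
  induction w using RA.ind with
  | h1 => intro φ; simp only [nn_one, map_one, one_mul, inv_one, mul_one, zero_add]; exact Finsupp.mapDomain_id.symm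
  | hs w s ih =>
    have e : ∀ φ, wallH Γ (w * gn Γ s) φ = nn Γ w + Finsupp.single (w * gn Γ s * w⁻¹) 1 +
        φ.mapDomain fun r => w * gn Γ s * r * (w * gn Γ s)⁻¹ := fun φ => by
      rw [map_mul, Equiv.Perm.mul_apply, ih, wallH, RA.lift_gn, wallP,
        Function.Involutive.coe_toPerm, Finsupp.mapDomain_add, Finsupp.mapDomain_single,
        ← Finsupp.mapDomain_comp, add_assoc]
      congr 3
      funext r
      simp [gn_inv, mul_assoc]
    intro φ
    rw [e, nn.eq_1 Γ (w * gn Γ s), e, Finsupp.mapDomain_zero, add_zero]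

theorem nn_mul (g u r : RA Γ) : nn Γ (g * u) r = nn Γ g r + nn Γ u (g⁻¹ * r * g) := by
  have := Finsupp.mapDomain_apply (f := fun r => g * r * g⁻¹) (fun a b h => by simpa using h)
    (nn Γ u) (g⁻¹ * r * g)
  rw [nn, map_mul, Equiv.Perm.mul_apply, nr_wall, Finsupp.add_apply, ← this]
  simp [mul_assoc, nn]

theorem nn_mul_gn (u : RA Γ) (s : S) :
    nn Γ (u * gn Γ s) = nn Γ u + Finsupp.single (u * gn Γ s * u⁻¹) 1 := by
  rw [nn, map_mul, Equiv.Perm.mul_apply, nr_wall, wallH, RA.lift_gn, wallP,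
    Function.Involutive.coe_toPerm]
  simp

theorem len_lt_of_nn (u : RA Γ) : ∀ r, nn Γ u r = 1 → len Γ (r * u) < len Γ u := by
  classical
  induction u using RA.ind_up with
  | h1 => simp [nn_one]
  | hs u t ht ih =>
    intro r hr
    rw [len_up ht]
    by_cases e : u * gn Γ t * u⁻¹ = r
    · subst e
      simp [mul_assoc, gn_sq]
    · rw [nn_mul_gn, Finsupp.add_apply, Finsupp.single_apply, if_neg e, add_zero] at hr
      have := ih r hr
      rw [← mul_assoc]
      by_cases h : Dn Γ (r * u) t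
      · have := len_down h; omega
      · have := len_up h; omega

theorem nn_wall (u : RA Γ) (s : S) : nn Γ u (u * gn Γ s * u⁻¹) = 1 ↔ Dn Γ u s := by
  have k : ∀ u : RA Γ, nn Γ u (u * gn Γ s * u⁻¹) = 1 → Dn Γ u s := fun u h => by
    have := len_lt_of_nn u _ h
    rw [inv_mul_cancel_right] at this
    by_contra hs
    have := len_up hs
    omega
  refine ⟨k u, fun h => ?_⟩
  have := mt (k (u * gn Γ s)) (by rw [Dn_mul_self]; exact not_not.2 h)
  rw [show u * gn Γ s * gn Γ s * (u * gn Γ s)⁻¹ = u * gn Γ s * u⁻¹ by group, nn_mul_gn,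
    Finsupp.add_apply, Finsupp.single_eq_same] at this
  revert this
  generalize nn Γ u (u * gn Γ s * u⁻¹) = x
  revert x
  decide

theorem nn_left (u : RA Γ) (s : S) : nn Γ u (gn Γ s) = 1 ↔ Dn Γ u⁻¹ s := by
  have := nn_mul u u⁻¹ (gn Γ s)
  rw [mul_inv_cancel, nn_one, Finsupp.zero_apply] at this
  rw [← nn_wall, inv_inv]
  revert this
  generalize nn Γ u (gn Γ s) = x
  generalize nn Γ u⁻¹ (u⁻¹ * gn Γ s * u) = y
  revert x y
  decide

theorem nn_inj : Function.Injective (nn Γ) := fun a b h => by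
  have e : ∀ r, nn Γ (a⁻¹ * b) r = 0 := fun r => by
    rw [nn_mul, ← h, ← nn_mul, inv_mul_cancel, nn_one]; rfl
  exact inv_mul_eq_one.1 (eq_one_of_not_Dn fun s hs => by
    rw [← nn_wall, e] at hs
    exact zero_ne_one hs)

theorem gn_inj : Function.Injective (gn Γ) := fun s t h => by
  classical
  have := congrFun (congrArg (par Γ) h) s
  rw [par_gn, par_gn, Pi.single_eq_same, Pi.single_apply] at this
  by_contra e
  rw [if_neg e] at this
  exact one_ne_zero this

theorem par_eq_sum [DecidableEq S] (y : RA Γ) :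
    par Γ y = (nn Γ y).sum fun r a => a • par Γ r := by
  induction y using RA.ind with
  | h1 => simp [nn_one, par]
  | hs y s ih =>
    rw [nn_mul_gn, Finsupp.sum_add_index' (by simp) (by simp [add_smul]), ← ih, par_mul,
      Finsupp.sum_single_index (by simp), one_smul]
    simp [par]

end

end Pool.Agent.Lib.MP_b65ff2_gt
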