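import Pool.Agent.Lib.MP_b65ff2_gt.NBase

namespace Pool.Agent.Lib.MP_b65ff2_gt

open Matrix

set_option linter.unusedSectionVars false

noncomputable section

variable {S : Type} [DecidableEq S] [LinearOrder S] {Γ : SimpleGraph S} {Q : Type} [Group Q]
  (M : PM Γ Q)

open Classical in
/-- The unit vector of an edge. -/
def nrelI (w : Q × Finset S) : M.C 1 → ℤ := fun y => if y.1.1 = w then 1 else 0

/-- The oriented edge from `q` to `q s`. -/
def nrelE (q : Q) (s : S) : M.C 1 → ℤ :=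
  if M.p q s = 0 then nrelI M (q, {s}) else -nrelI M (q * M.g s, {s})

/-- The boundary of the oriented square at `q`. -/
def nrelS (q : Q) (s t : S) : M.C 1 → ℤ :=
  nrelE M q s + nrelE M (q * M.g s) t - nrelE M q t - nrelE M (q * M.g t) s

lemma nrel_z2 : ∀ a : ZMod 2, a + 1 = 0 ↔ ¬a = 0 := by decide

lemma nrel_gg (q : Q) (s : S) : q * M.g s * M.g s = q := by rw [mul_assoc, M.sq, mul_one]

lemma nrel_ps (q : Q) (s : S) : M.p (q * M.g s) s = 0 ↔ ¬M.p q s = 0 := by
  rw [M.p_mul_g, if_pos rfl, nrel_z2]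

lemma nrel_pt (q : Q) {s t : S} (h : t ≠ s) : M.p (q * M.g s) t = M.p q t := by
  rw [M.p_mul_g, if_neg h, add_zero]

lemma nrelE_flip (q : Q) (s : S) : nrelE M (q * M.g s) s = -nrelE M q s := by
  unfold nrelE
  by_cases h : M.p q s = 0
  · rw [if_pos h, if_neg (by rw [nrel_ps]; simp [h]), nrel_gg]
  · rw [if_neg h, if_pos ((nrel_ps M q s).2 h), neg_neg]

lemma nrelS_symm (q : Q) (s t : S) : nrelS M q t s = -nrelS M q s t := by
  unfold nrelS; abel

lemma nrelS_flip (q : Q) {s t : S} (h : Γ.Adj s t) : nrelS M (q * M.g s) s t = -nrelS M q s t := by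
  unfold nrelS
  rw [nrelE_flip, nrel_gg, mul_assoc q (M.g s), M.cm s t h, ← mul_assoc, nrelE_flip]
  abel

lemma nrel_row (x : M.C 2) {s t : S} (h : s < t) (hx : x.1.1.2 = {s, t}) :
    (M.dZ 1).row x = nrelS M x.1.1.1 s t := by
  have hs : M.p x.1.1.1 s = 0 := x.1.2.2 s (by simp [hx])
  have ht : M.p x.1.1.1 t = 0 := x.1.2.2 t (by simp [hx])
  have e1 : ({s, t} : Finset S).erase s = {t} := by
    ext u; simp only [Finset.mem_erase, Finset.mem_insert, Finset.mem_singleton]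
    constructor
    · tauto
    · rintro rfl; exact ⟨h.ne', .inr rfl⟩
  have e2 : ({s, t} : Finset S).erase t = {s} := by
    ext u; simp only [Finset.mem_erase, Finset.mem_insert, Finset.mem_singleton]
    constructor
    · tauto
    · rintro rfl; exact ⟨h.ne, .inl rfl⟩
  have s1 : sgn s ({s, t} : Finset S) = 1 := by
    unfold sgn
    rw [Finset.filter_eq_empty_iff.2 (by simp [h.le])]; simp
  have s2 : sgn t ({s, t} : Finset S) = -1 := by
    unfold sgn
    have : ({s, t} : Finset S).filter (· < t) = {s} := by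
      ext u; simp only [Finset.mem_filter, Finset.mem_insert, Finset.mem_singleton]
      constructor
      · rintro ⟨rfl | rfl, h'⟩
        · rfl
        · exact absurd h' (lt_irrefl _)
      · rintro rfl; exact ⟨.inl rfl, h⟩
    rw [this]; simp
  funext y
  unfold nrelS nrelE
  rw [if_pos hs, if_pos ht, if_pos ((nrel_pt M _ h.ne').trans ht),
    if_pos ((nrel_pt M _ h.ne).trans hs)]
  have : (M.dZ 1).row x y = ∑ u ∈ x.1.1.2, sgn u x.1.1.2 *
      (nrelI M (x.1.1.1 * M.g u, x.1.1.2.erase u) y - nrelI M (x.1.1.1, x.1.1.2.erase u) y) := rfl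
  rw [this, hx, Finset.sum_pair h.ne, e1, e2, s1, s2]
  simp only [Pi.add_apply, Pi.sub_apply]
  ring

lemma nrel_row' (x : M.C 2) : ∃ s t, Γ.Adj s t ∧ x.1.1.2 = {s, t} ∧
    (M.dZ 1).row x = nrelS M x.1.1.1 s t := by
  obtain ⟨s, t, h, hx⟩ := Finset.card_eq_two.1 x.2
  have ha : Γ.Adj s t := x.1.2.1 (by simp [hx]) (by simp [hx]) h
  rcases lt_or_gt_of_ne h with h | h
  · exact ⟨s, t, ha, hx, nrel_row M x h hx⟩
  · rw [Finset.pair_comm] at hx
    exact ⟨t, s, ha.symm, hx, nrel_row M x h hx⟩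

lemma nrel_sq {X : Type} [AddCommGroup X] (φ : (M.C 1 → ℤ) →+ X) (P : Q → Prop) {s t : S}
    (ha : Γ.Adj s t) (hs : ∀ q, P q → P (q * M.g s)) (ht : ∀ q, P q → P (q * M.g t))
    (h : ∀ x : M.C 2, x.1.1.2 = {s, t} → P x.1.1.1 → φ ((M.dZ 1).row x) = 0) (q : Q) (hq : P q) :
    φ (nrelE M q s) + φ (nrelE M (q * M.g s) t) = φ (nrelE M q t) + φ (nrelE M (q * M.g t) s) := by
  have h0 : ∀ q, P q → M.p q s = 0 → M.p q t = 0 → φ (nrelS M q s t) = 0 := fun q hq h1 h2 => by
    let x : M.C 2 := ⟨⟨(q, {s, t}), by simpa [ha.ne] using ha, by simp [h1, h2]⟩,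
      Finset.card_pair ha.ne⟩
    have := h x rfl hq
    rcases lt_or_gt_of_ne ha.ne with h | h
    · rwa [nrel_row M x h rfl] at this
    · rw [nrel_row M x h (Finset.pair_comm _ _), nrelS_symm, map_neg, neg_eq_zero] at this
      exact this
  have h1 : ∀ q, P q → M.p q t = 0 → φ (nrelS M q s t) = 0 := fun q hq h2 => by
    by_cases h1 : M.p q s = 0
    · exact h0 q hq h1 h2
    · have := h0 _ (hs q hq) ((nrel_ps M q s).2 h1) ((nrel_pt M q ha.ne').trans h2)
      rwa [nrelS_flip M q ha, map_neg, neg_eq_zero] at this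
  have h2 : φ (nrelS M q s t) = 0 := by
    by_cases h2 : M.p q t = 0
    · exact h1 q hq h2
    · have := h1 _ (ht q hq) ((nrel_ps M q t).2 h2)
      rwa [nrelS_symm, nrelS_flip M q ha.symm, neg_neg, nrelS_symm, map_neg, neg_eq_zero] at this
  simp only [nrelS, map_sub, map_add] at h2
  rw [← sub_eq_zero, ← h2]; abel

lemma nrel_edge (e : M.C 1) : ∃ s, e.1.1.2 = {s} ∧ M.p e.1.1.1 s = 0 := by
  obtain ⟨s, hs⟩ := Finset.card_eq_one.1 e.2
  exact ⟨s, hs, e.1.2.2 s (by simp [hs])⟩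

/-- The edge with base point `q`. -/
def nrelC (q : Q) (s : S) (h : M.p q s = 0) : M.C 1 := ⟨⟨(q, {s}), by simp, by simp [h]⟩, by simp⟩

variable [DecidableEq (M.C 1)]

lemma nrelI_eq (e : M.C 1) : nrelI M e.1.1 = Pi.single e 1 := by
  funext y
  unfold nrelI
  rw [Pi.single_apply]
  congr 1
  exact propext ⟨fun h => Subtype.ext (Subtype.ext h), fun h => by rw [h]⟩

lemma nrelE_eq {q : Q} {s : S} (h : M.p q s = 0) : nrelE M q s = Pi.single (nrelC M q s h) 1 := by
  rw [← nrelI_eq, nrelE, if_pos h]; rfl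

lemma nrelE_edge (e : M.C 1) {s : S} (hs : e.1.1.2 = {s}) : nrelE M e.1.1.1 s = Pi.single e 1 := by
  rw [← nrelI_eq, nrelE, if_pos (e.1.2.2 s (by simp [hs])), ← hs]

variable [Fintype (M.C 1)]

lemma nrel_lift {X : Type} [AddCommGroup X] (f : Q → S → X)
    (hf : ∀ q s, f (q * M.g s) s = -f q s) :
    ∃ φ : (M.C 1 → ℤ) →ₗ[ℤ] X, ∀ q s, φ (nrelE M q s) = f q s := by
  let φ : (M.C 1 → ℤ) →ₗ[ℤ] X :=
    Fintype.linearCombination ℤ fun e : M.C 1 => ∑ s ∈ e.1.1.2, f e.1.1.1 s
  have h0 : ∀ q s, M.p q s = 0 → φ (nrelE M q s) = f q s := fun q s h => by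
    rw [nrelE_eq M h, Fintype.linearCombination_apply_single]
    simp [nrelC]
  refine ⟨φ, fun q s => ?_⟩
  by_cases h : M.p q s = 0
  · exact h0 q s h
  · have := h0 _ s ((nrel_ps M q s).2 h)
    rwa [nrelE_flip, map_neg, hf, neg_inj] at this

/-- The sum of the absolute values. -/
def nrelN (v : M.C 1 → ℤ) : ℤ := ∑ e, |v e|

lemma nrelN_add (v w : M.C 1 → ℤ) : nrelN M (v + w) ≤ nrelN M v + nrelN M w := by
  unfold nrelN
  rw [← Finset.sum_add_distrib]
  exact Finset.sum_le_sum fun e _ => abs_add_le _ _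

lemma nrelN_neg (v : M.C 1 → ℤ) : nrelN M (-v) = nrelN M v := by simp [nrelN]

lemma nrelN_single (e : M.C 1) : nrelN M (Pi.single e 1) = 1 := by
  unfold nrelN
  rw [Finset.sum_eq_single e] <;> simp +contextual

lemma nrelN_E (q : Q) (s : S) : nrelN M (nrelE M q s) = 1 := by
  by_cases h : M.p q s = 0
  · rw [nrelE_eq M h, nrelN_single]
  · rw [← nrelN_neg, ← nrelE_flip, nrelE_eq M ((nrel_ps M q s).2 h), nrelN_single]

lemma nrelN_S (q : Q) (s t : S) : nrelN M (nrelS M q s t) ≤ 4 := by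
  unfold nrelS
  rw [sub_eq_add_neg, sub_eq_add_neg]
  have h1 := nrelN_add M (nrelE M q s + nrelE M (q * M.g s) t + -nrelE M q t)
    (-nrelE M (q * M.g t) s)
  have h2 := nrelN_add M (nrelE M q s + nrelE M (q * M.g s) t) (-nrelE M q t)
  have h3 := nrelN_add M (nrelE M q s) (nrelE M (q * M.g s) t)
  simp only [nrelN_neg, nrelN_E] at h1 h2 h3
  omega

lemma nrelN_list {Y : Type} (l : List Y) (a : Y → Q) (b : Y → S) :
    nrelN M (l.map fun y => nrelE M (a y) (b y)).sum ≤ l.length := by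
  induction l with
  | nil => simp [nrelN]
  | cons y l ih =>
    have := nrelN_add M (nrelE M (a y) (b y)) (l.map fun y => nrelE M (a y) (b y)).sum
    rw [nrelN_E] at this
    simp only [List.map_cons, List.sum_cons, List.length_cons, Nat.cast_succ]
    omega

/-! Alternating paths -/

omit [Fintype (M.C 1)] [DecidableEq (M.C 1)]

/-- The alternating path. -/
def nrelA {X : Type} [AddCommGroup X] (F : Q → S → X) (a b : S) : ℕ → Q → X
  | 0, _ => 0
  | k + 1, q => F q a + F (q * M.g a) b + nrelA F a b k (q * M.g a * M.g b)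

lemma nrelA_shift {X : Type} [AddCommGroup X] (F : Q → S → X) (a b : S) (k : ℕ) (q : Q) :
    F q a + nrelA M F b a k (q * M.g a) = nrelA M F a b k q + F (q * (M.g a * M.g b) ^ k) a := by
  induction k generalizing q with
  | zero => simp [nrelA]
  | succ k ih =>
    simp only [nrelA]
    rw [pow_succ', ← mul_assoc, ← mul_assoc, add_assoc (F q a + _), ← ih]
    abel

lemma nrelA_ladder {X : Type} [AddCommGroup X] (F : Q → S → X) {a b t : S} (ha : Γ.Adj t a)
    (hb : Γ.Adj t b) (sa : ∀ q, F q t + F (q * M.g t) a = F q a + F (q * M.g a) t)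
    (sb : ∀ q, F q t + F (q * M.g t) b = F q b + F (q * M.g b) t) (k : ℕ) (q : Q) :
    F q t + nrelA M F a b k (q * M.g t) = nrelA M F a b k q + F (q * (M.g a * M.g b) ^ k) t := by
  induction k generalizing q with
  | zero => simp [nrelA]
  | succ k ih =>
    simp only [nrelA]
    have e1 : q * M.g t * M.g a = q * M.g a * M.g t := by rw [mul_assoc, M.cm t a ha, mul_assoc]
    have e2 : q * M.g a * M.g t * M.g b = q * M.g a * M.g b * M.g t := by
      rw [mul_assoc, M.cm t b hb, ← mul_assoc]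
    rw [pow_succ', ← mul_assoc, ← mul_assoc, add_assoc (F q a + _), ← ih, e1, e2, ← add_assoc,
      ← add_assoc, sa, add_assoc (F q a), sb]
    abel

lemma nrel_factor {E A F : Type} [AddCommGroup E] [AddCommGroup A] [AddCommGroup F]
    (π : E →ₗ[ℤ] A) (sur : Function.Surjective π) (φ : E →ₗ[ℤ] F)
    (h : LinearMap.ker π ≤ LinearMap.ker φ) : ∃ b : A →+ F, ∀ v, b (π v) = φ v :=
  ⟨(((LinearMap.ker π).liftQ φ h).comp
    (π.quotKerEquivOfSurjective sur).symm.toLinearMap).toAddMonoidHom, fun v => by simp⟩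

end

end Pool.Agent.Lib.MP_b65ff2_gt
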