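import Pool.Agent.Lib.MP_b65ff2_gt.NFil
import Pool.Agent.Lib.MP_b65ff2_gt.NRelA

namespace Pool.Agent.Lib.MP_b65ff2_gt

open Matrix

set_option linter.unusedSectionVars false

noncomputable section

variable {n : ℕ} {Q : Type} [Group Q] (M : TD n Q)

def nrelZ : Q := M.ρ (psi n (gW vz))

def nrelc : Q := M.g vz * nrelZ M

def nrelX (q : Q) : Q := if M.p q vz = 0 then q else q * nrelc M

lemma nrelZ_eq : (M.g vy0 * M.g vyh) ^ 3 ^ n = nrelZ M := by
  rw [nrelZ, psi_z, map_pow, map_pow, map_mul, map_mul, M.ρ_g _ (by decide), M.ρ_g _ (by decide)]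

lemma nrelZ_sq : nrelZ M * nrelZ M = 1 := by
  rw [nrelZ, ← map_mul, ← map_mul, gn_sq, map_one, map_one]

lemma nrelZ_eq' : (M.g vyh * M.g vy0) ^ 3 ^ n = nrelZ M := by
  rw [← inv_eq_of_mul_eq_one_right (nrelZ_sq M), ← nrelZ_eq, ← inv_pow, _root_.mul_inv_rev,
    inv_eq_of_mul_eq_one_right (M.sq _), inv_eq_of_mul_eq_one_right (M.sq _)]

lemma nrelc_cm (q : Q) : Commute (nrelc M) q := by
  induction q using M.toPM.ind with
  | h1 => exact Commute.one_right _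
  | hs q s ih => exact ih.mul_right (M.cen s)

lemma nrelZ_cz : Commute (M.g vz) (nrelZ M) := by
  rw [← nrelZ_eq]
  exact (Commute.mul_right (M.cm vz vy0 (by decide)) (M.cm vz vyh (by decide))).pow_right _

lemma nrelc_sq : nrelc M * nrelc M = 1 := by
  rw [nrelc, mul_assoc, ← mul_assoc (nrelZ M), ← (nrelZ_cz M).eq, mul_assoc, nrelZ_sq, mul_one,
    M.sq]

lemma nrel_gz : M.g vz = nrelZ M * nrelc M := by
  rw [← (nrelc_cm M _).eq, nrelc, mul_assoc, nrelZ_sq, mul_one]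

lemma nrelZ_cm {t : V} (ht : L11.Adj vz t) (q : Q) :
    q * nrelZ M * M.g t = q * M.g t * nrelZ M := by
  have : nrelZ M = M.g vz * nrelc M := by rw [nrelc, ← mul_assoc, M.sq, one_mul]
  have h : Commute (nrelZ M) (M.g t) := this ▸ Commute.mul_left (M.cm _ _ ht) (nrelc_cm M _)
  rw [mul_assoc, h.eq, mul_assoc]

lemma nrel_gP (s : {s : V // s ≠ vz}) : M.ρ (gP n s) = M.g s := M.ρ_g _ s.2

lemma nrel_find {P : Fil n → Prop} (h1 : P 1) (hs : ∀ h s, P h → P (h * gP n s)) (h : Fil n) :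
    P h := ind_right (gP_sq n) h1 hs (gP_gen n ▸ Subgroup.mem_top h)

lemma nrel_prho (h : Fil n) : M.p (M.ρ h) vz = 0 := by
  induction h using nrel_find with
  | h1 => rw [map_one, M.toPM.p_one]; rfl
  | hs h s ih => rw [map_mul, nrel_gP, nrel_pt _ _ s.2.symm, ih]

lemma nrel_pc (q : Q) : M.p (q * nrelc M) vz = 0 ↔ ¬M.p q vz = 0 := by
  rw [nrelc, ← mul_assoc, M.p_mul, Pi.add_apply, nrelZ, nrel_prho, add_zero, nrel_ps]

lemma nrelX_rho (q : Q) (h : Fil n) : nrelX M (q * M.ρ h) = nrelX M q * M.ρ h := by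
  unfold nrelX
  rw [M.p_mul, Pi.add_apply, nrel_prho, add_zero]
  split_ifs
  · rfl
  · rw [mul_assoc, ← (nrelc_cm M _).eq, mul_assoc]

lemma nrelX_g (q : Q) {s : V} (hs : s ≠ vz) : nrelX M (q * M.g s) = nrelX M q * M.g s := by
  rw [← M.ρ_g s hs, nrelX_rho]

lemma nrelX_zero {q : Q} (h : M.p q vz = 0) : nrelX M q = q := if_pos h

lemma nrelX_one {q : Q} (h : ¬M.p q vz = 0) : nrelX M q * nrelc M = q := by
  rw [nrelX, if_neg h, mul_assoc, nrelc_sq, mul_one]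

lemma nrelX_c (q : Q) : nrelX M (q * nrelc M) = nrelX M q := by
  by_cases h : M.p q vz = 0
  · rw [nrelX_zero M h, nrelX, if_neg (by rw [nrel_pc]; simp [h]), mul_assoc, nrelc_sq, mul_one]
  · rw [nrelX_zero M ((nrel_pc M q).2 h), nrelX, if_neg h]

lemma nrelX_z (q : Q) : nrelX M (q * M.g vz) = nrelX M q * nrelZ M := by
  rw [nrel_gz, ← mul_assoc, nrelX_c, nrelZ, nrelX_rho]

lemma nrelX_range (q : Q) : ∃ h, nrelX M q = M.ρ h := by
  induction q using M.toPM.ind with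
  | h1 => exact ⟨1, by rw [nrelX_zero M (by rw [M.toPM.p_one]; rfl), map_one]⟩
  | hs q s ih =>
    obtain ⟨h, e⟩ := ih
    by_cases hs : s = vz
    · exact ⟨h * psi n (gW vz), by rw [hs, nrelX_z, e, map_mul, nrelZ]⟩
    · exact ⟨h * psi n (gW s), by rw [nrelX_g M q hs, e, map_mul, M.ρ_g s hs]⟩

lemma nrelX_p (q : Q) : M.p (nrelX M q) vz = 0 := by
  obtain ⟨h, e⟩ := nrelX_range M q
  rw [e, nrel_prho]

lemma nrelX_X (q : Q) : nrelX M (nrelX M q) = nrelX M q := nrelX_zero M (nrelX_p M q)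

/-- The path that replaces the edge of type `z`. -/
def nrelP {X : Type} [AddCommGroup X] (F : Q → V → X) (q : Q) : X :=
  if M.p q vy0 + M.p q vyh = 0 then nrelA M.toPM F vy0 vyh (3 ^ n) q
  else nrelA M.toPM F vyh vy0 (3 ^ n) q

lemma nrelP_rel {X : Type} [AddCommGroup X] (F : Q → V → X)
    (h1 : ∀ q s, s ≠ vz → F (q * M.g s) s = -F q s)
    (h2 : ∀ q s t, s ≠ vz → t ≠ vz → L11.Adj s t →
      F q s + F (q * M.g s) t = F q t + F (q * M.g t) s) {t : V} (ht : L11.Adj vz t) (q : Q) :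
    F q t + nrelP M F (q * M.g t) = nrelP M F q + F (q * nrelZ M) t := by
  have hx : ∀ t, t ≠ vz → L11.Adj t vy0 → L11.Adj t vyh →
      F q t + nrelP M F (q * M.g t) = nrelP M F q + F (q * nrelZ M) t := fun t hz a0 a1 => by
    unfold nrelP
    rw [nrel_pt _ _ a0.ne', nrel_pt _ _ a1.ne']
    have s0 := fun q => h2 q t vy0 hz (by decide) a0
    have s1 := fun q => h2 q t vyh hz (by decide) a1
    split_ifs
    · rw [nrelA_ladder _ F a0 a1 s0 s1, nrelZ_eq]
    · rw [nrelA_ladder _ F a1 a0 s1 s0, nrelZ_eq']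
  have hf : ∀ t, L11.Adj vz t →
      F (q * M.g t) t + nrelP M F (q * M.g t * M.g t) =
        nrelP M F (q * M.g t) + F (q * M.g t * nrelZ M) t →
      F q t + nrelP M F (q * M.g t) = nrelP M F q + F (q * nrelZ M) t := fun t ht h => by
    rw [nrel_gg, ← nrelZ_cm M ht, h1 _ _ ht.ne', h1 _ _ ht.ne'] at h
    rw [← sub_eq_zero] at h ⊢
    rw [← neg_eq_zero, ← h]; abel
  have p0 : ∀ q, M.p (q * M.g vy0) vy0 + M.p (q * M.g vy0) vyh = 0 ↔
      ¬M.p q vy0 + M.p q vyh = 0 := fun q => by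
    rw [M.toPM.p_mul_g, if_pos rfl, nrel_pt _ _ (by decide), add_right_comm, nrel_z2]
  have p1 : ∀ q, M.p (q * M.g vyh) vy0 + M.p (q * M.g vyh) vyh = 0 ↔
      ¬M.p q vy0 + M.p q vyh = 0 := fun q => by
    rw [nrel_pt _ _ (by decide), M.toPM.p_mul_g, if_pos rfl, ← add_assoc, nrel_z2]
  have y0 : ∀ q, M.p q vy0 + M.p q vyh = 0 →
      F q vy0 + nrelP M F (q * M.g vy0) = nrelP M F q + F (q * nrelZ M) vy0 := fun q h => by
    unfold nrelP
    rw [if_pos h, if_neg (by rw [p0]; simp [h]), nrelA_shift, nrelZ_eq]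
  have y1 : ∀ q, ¬M.p q vy0 + M.p q vyh = 0 →
      F q vyh + nrelP M F (q * M.g vyh) = nrelP M F q + F (q * nrelZ M) vyh := fun q h => by
    unfold nrelP
    rw [if_neg h, if_pos ((p1 q).2 h), nrelA_shift, nrelZ_eq']
  have : ∀ t, L11.Adj vz t → t = vx0 ∨ t = vx1 ∨ t = vy0 ∨ t = vyh := by decide
  rcases this t ht with rfl | rfl | rfl | rfl
  · exact hx _ (by decide) (by decide) (by decide)
  · exact hx _ (by decide) (by decide) (by decide)
  · by_cases h : M.p q vy0 + M.p q vyh = 0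
    · exact y0 q h
    · exact hf _ ht (y0 _ ((p0 q).2 h))
  · by_cases h : M.p q vy0 + M.p q vyh = 0
    · exact hf _ ht (y1 _ (by rw [p1]; simp [h]))
    · exact y1 q h

variable [DecidableEq (M.toPM.C 1)] [Fintype (M.toPM.C 1)]

/-- A map out of the edge module, given off `z` by `F` and on `z` by `G`, that kills all rows. -/
lemma nrel_lift2 {X : Type} [AddCommGroup X] (F : Q → V → X) (G : Q → X)
    (h1 : ∀ q s, s ≠ vz → F (q * M.g s) s = -F q s)
    (h2 : ∀ q s t, s ≠ vz → t ≠ vz → L11.Adj s t →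
      F q s + F (q * M.g s) t = F q t + F (q * M.g t) s)
    (h3 : ∀ q t, M.p q vz = 0 → L11.Adj vz t →
      F q t + G (q * M.g t) = G q + F (q * M.g vz) t) :
    ∃ φ : (M.toPM.C 1 → ℤ) →ₗ[ℤ] X, (∀ q s, s ≠ vz → φ (nrelE M.toPM q s) = F q s) ∧
      (∀ q, M.p q vz = 0 → φ (nrelE M.toPM q vz) = G q) ∧ ∀ x, φ ((M.toPM.dZ 1).row x) = 0 := by
  obtain ⟨φ, hφ⟩ := nrel_lift M.toPM
    (fun q s => if s = vz then (if M.p q vz = 0 then G q else -G (q * M.g vz)) else F q s)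
    fun q s => by
      by_cases hs : s = vz
      · subst hs
        simp only [if_true, nrel_ps, nrel_gg]
        split_ifs <;> simp
      · simp only [if_neg hs, h1 q s hs]
  have a1 : ∀ q s, s ≠ vz → φ (nrelE M.toPM q s) = F q s := fun q s hs => by rw [hφ, if_neg hs]
  have a2 : ∀ q, M.p q vz = 0 → φ (nrelE M.toPM q vz) = G q := fun q h => by
    rw [hφ, if_pos rfl, if_pos h]
  have a3 : ∀ q t, M.p q vz = 0 → L11.Adj vz t → φ (nrelS M.toPM q vz t) = 0 := fun q t h ht => by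
    simp only [nrelS, map_sub, map_add]
    rw [a2 q h, a1 _ _ ht.ne', a1 _ _ ht.ne', a2 _ ((nrel_pt _ _ ht.ne).trans h), ← h3 q t h ht]
    abel
  refine ⟨φ, a1, a2, fun x => ?_⟩
  obtain ⟨s, t, ha, hx, e⟩ := nrel_row' M.toPM x
  rw [e]
  by_cases hs : s = vz
  · subst hs
    exact a3 _ t (x.1.2.2 _ (by simp [hx])) ha
  by_cases ht : t = vz
  · subst ht
    rw [nrelS_symm, map_neg, a3 _ s (x.1.2.2 _ (by simp [hx])) ha.symm, neg_zero]
  simp only [nrelS, map_sub, map_add]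
  rw [a1 _ _ hs, a1 _ _ ht, a1 _ _ ht, a1 _ _ hs, h2 _ s t hs ht ha]
  abel

/-- The relations of the relative group. -/
def nrelR : M.toPM.C 2 ⊕ {x : M.toPM.C 1 // M.toPM.in0 x.1} → M.toPM.C 1 → ℤ :=
  Sum.elim (M.toPM.dZ 1).row fun e => Pi.single e.1 1

theorem nrel_split : ∃ (i : Cok M.toPM.d20 →+ Cok (M.toPM.dZ 1))
    (r : Cok (M.toPM.dZ 1) →+ Cok M.toPM.d20), (∀ a, r (i a) = a) ∧
      ∀ v, Submodule.Quotient.mk v ∈ i.range ↔ v ∈ Submodule.span ℤ (Set.range (nrelR M)) := by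
  classical
  let E0 := {x : M.toPM.C 1 // M.toPM.in0 x.1}
  let res : (M.toPM.C 1 → ℤ) →ₗ[ℤ] (E0 → ℤ) := LinearMap.funLeft ℤ ℤ Subtype.val
  let ext : (E0 → ℤ) →ₗ[ℤ] (M.toPM.C 1 → ℤ) :=
    Fintype.linearCombination ℤ fun e : E0 => Pi.single e.1 1
  have r1 : ∀ e : E0, res (Pi.single e.1 1) = Pi.single e 1 := fun e => by
    funext y
    simp only [res, LinearMap.funLeft_apply, Pi.single_apply, Subtype.val_inj]
  have e1 : ∀ e : E0, ext (Pi.single e 1) = Pi.single e.1 1 := fun e => by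
    simp only [ext, Fintype.linearCombination_apply_single, one_smul]
  have e2 : ∀ q s, M.p q vz = 0 → s ≠ vz → ext (res (nrelE M.toPM q s)) = nrelE M.toPM q s := by
    have : ∀ q s, M.p q s = 0 → M.p q vz = 0 → s ≠ vz →
        ext (res (nrelE M.toPM q s)) = nrelE M.toPM q s := fun q s h hz hs => by
      have := e1 ⟨nrelC M.toPM q s h, hz, by simp [nrelC, hs.symm]⟩
      rw [← r1] at this
      rw [nrelE_eq _ h]; exact this
    intro q s hz hs
    by_cases h : M.p q s = 0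
    · exact this q s h hz hs
    · have := this _ s ((nrel_ps _ q s).2 h) ((nrel_pt _ _ hs.symm).trans hz) hs
      rwa [nrelE_flip, map_neg, map_neg, neg_inj] at this
  let mA := (Submodule.span ℤ (Set.range M.toPM.d20.row)).mkQ
  let mB := (Submodule.span ℤ (Set.range (M.toPM.dZ 1).row)).mkQ
  have zB : ∀ x, mB ((M.toPM.dZ 1).row x) = 0 := fun x =>
    (Submodule.Quotient.mk_eq_zero _).2 (Submodule.subset_span ⟨x, rfl⟩)
  have zA : ∀ x : M.toPM.C 2, M.toPM.in0 x.1 → mA (res ((M.toPM.dZ 1).row x)) = 0 := fun x h =>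
    (Submodule.Quotient.mk_eq_zero _).2 (Submodule.subset_span ⟨⟨x, h⟩, rfl⟩)
  let i : Cok M.toPM.d20 →ₗ[ℤ] Cok (M.toPM.dZ 1) := Submodule.liftQ _ (mB ∘ₗ ext) (by
    rw [Submodule.span_le]
    rintro _ ⟨⟨x, hz, hx⟩, rfl⟩
    obtain ⟨s, t, ha, hx', e⟩ := nrel_row' M.toPM x
    have hs : s ≠ vz := fun h => hx (by simp [hx', h])
    have ht : t ≠ vz := fun h => hx (by simp [hx', h])
    change mB (ext (res ((M.toPM.dZ 1).row x))) = 0
    rw [← zB x, e]
    simp only [nrelS, map_sub, map_add]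
    rw [e2 _ _ hz hs, e2 _ _ hz ht, e2 _ _ ((nrel_pt _ _ hs.symm).trans hz) ht,
      e2 _ _ ((nrel_pt _ _ ht.symm).trans hz) hs])
  let F : Q → V → Cok M.toPM.d20 := fun q s => mA (res (nrelE M.toPM (nrelX M q) s))
  have h1 : ∀ q s, s ≠ vz → F (q * M.g s) s = -F q s := fun q s hs => by
    simp only [F, nrelX_g M q hs, nrelE_flip, map_neg]
  have h2 : ∀ q s t, s ≠ vz → t ≠ vz → L11.Adj s t →
      F q s + F (q * M.g s) t = F q t + F (q * M.g t) s := fun q s t hs ht ha => by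
    simp only [F, nrelX_g M q hs, nrelX_g M q ht]
    exact nrel_sq M.toPM (mA ∘ₗ res).toAddMonoidHom (M.p · vz = 0) ha
      (fun q h => (nrel_pt _ _ hs.symm).trans h) (fun q h => (nrel_pt _ _ ht.symm).trans h)
      (fun x hx h => zA x ⟨h, by simp [hx, hs.symm, ht.symm]⟩) _ (nrelX_p M q)
  obtain ⟨φ, a1, -, a3⟩ := nrel_lift2 M F (nrelP M F) h1 h2 fun q t _ ht => by
    rw [nrelP_rel M F h1 h2 ht]
    simp only [F, nrelX_z, nrelZ, nrelX_rho]
  let r : Cok (M.toPM.dZ 1) →ₗ[ℤ] Cok M.toPM.d20 := Submodule.liftQ _ φ (by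
    rw [Submodule.span_le]
    rintro _ ⟨x, rfl⟩
    exact a3 x)
  have hr : φ ∘ₗ ext = mA := by
    refine (Pi.basisFun ℤ E0).ext fun e => ?_
    obtain ⟨s, hs, -⟩ := nrel_edge M.toPM e.1
    rw [Pi.basisFun_apply, LinearMap.comp_apply, e1, ← r1, ← nrelE_edge _ _ hs,
      a1 _ _ fun h => e.2.2 (by simp [hs, h])]
    simp only [F, nrelX_zero M e.2.1]
  refine ⟨i.toAddMonoidHom, r.toAddMonoidHom, fun a => ?_, fun v => ⟨?_, fun h => ?_⟩⟩
  · obtain ⟨w, rfl⟩ := Submodule.Quotient.mk_surjective _ a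
    exact LinearMap.congr_fun hr w
  · rintro ⟨a, ha⟩
    obtain ⟨w, rfl⟩ := Submodule.Quotient.mk_surjective _ a
    have h : ext w - v ∈ Submodule.span ℤ (Set.range (M.toPM.dZ 1).row) :=
      (Submodule.Quotient.eq _).1 ha
    have h' : ext w ∈ Submodule.span ℤ (Set.range (nrelR M)) := by
      rw [Fintype.linearCombination_apply]
      exact Submodule.sum_mem _ fun e _ =>
        Submodule.smul_mem _ _ (Submodule.subset_span ⟨.inr e, rfl⟩)
    have h'' := Submodule.span_mono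
      (show Set.range (M.toPM.dZ 1).row ⊆ Set.range (nrelR M) from
        fun _ ⟨x, hx⟩ => ⟨.inl x, hx⟩) h
    simpa using Submodule.sub_mem _ h' h''
  · have : Submodule.span ℤ (Set.range (nrelR M)) ≤ (LinearMap.range i).comap mB := by
      rw [Submodule.span_le]
      rintro _ ⟨x | e, rfl⟩
      · exact ⟨0, (map_zero i).trans (zB x).symm⟩
      · exact ⟨mA (Pi.single e 1), congrArg mB (e1 e)⟩
    exact this h

end

end Pool.Agent.Lib.MP_b65ff2_gt
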