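import Pool.Agent.Lib.MP_b65ff2_gt.NFil
import Pool.Agent.Lib.MP_b65ff2_gt.NTl
import Pool.Agent.Lib.MP_b65ff2_gt.NCell
import Pool.Agent.Lib.MP_b65ff2_gt.NRelB

namespace Pool.Agent.Lib.MP_b65ff2_gt

open Matrix Filter Topology

set_option linter.unusedSectionVars false

noncomputable section

theorem nrel_quot {n L : ℕ} (hL : ∀ d ∈ Subgroup.closure (gW '' (XY : Set V)),
      ∃ l : List V, l.length ≤ L ∧ (∀ t ∈ l, t ∈ XY) ∧ psi n (wd L11 l) = psi n d)
    {Q : Type} [Group Q] (M : TD n Q) [DecidableEq (M.toPM.C 1)] [Fintype (M.toPM.C 1)] {D B : ℕ}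
    (hS : SG (gP n) M.ρ D B) {X : Type} [AddCommGroup X] (π : (M.toPM.C 1 → ℤ) →ₗ[ℤ] X)
    (sur : Function.Surjective π)
    (hk : LinearMap.ker π = Submodule.span ℤ (Set.range (nrelR M))) :
    torsCard X ≤ (4 * ((L + 1) * B) + 1 + B * ((L + 1) * B)) ^ D := by
  have zR : ∀ r, π (nrelR M r) = 0 := fun r =>
    LinearMap.mem_ker.1 (hk ▸ Submodule.subset_span ⟨r, rfl⟩)
  have sq : ∀ q s t, L11.Adj s t → π (nrelE M.toPM q s) + π (nrelE M.toPM (q * M.g s) t) =
      π (nrelE M.toPM q t) + π (nrelE M.toPM (q * M.g t) s) := fun q s t ha =>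
    nrel_sq M.toPM π.toAddMonoidHom (fun _ => True) ha (fun _ _ => trivial) (fun _ _ => trivial)
      (fun x _ _ => zR (.inl x)) q trivial
  have z0 : ∀ q s, M.p q vz = 0 → s ≠ vz → π (nrelE M.toPM q s) = 0 := by
    have : ∀ q s, M.p q s = 0 → M.p q vz = 0 → s ≠ vz → π (nrelE M.toPM q s) = 0 :=
      fun q s h hz hs => by
        rw [nrelE_eq _ h]
        exact zR (.inr ⟨nrelC M.toPM q s h, hz, by simp [nrelC, hs.symm]⟩)
    intro q s hz hs
    by_cases h : M.p q s = 0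
    · exact this q s h hz hs
    · have := this _ s ((nrel_ps _ q s).2 h) ((nrel_pt _ _ hs.symm).trans hz) hs
      rwa [nrelE_flip, map_neg, neg_eq_zero] at this
  have xy : ∀ t ∈ XY, L11.Adj vz t := by decide
  have xy' : ∀ t, L11.Adj vz t → t ∈ XY := by decide
  have pc : ∀ q, ¬M.p (nrelX M q * nrelc M) vz = 0 := fun q => by
    rw [nrel_pc, not_not]; exact nrelX_p M q
  have mc : ∀ q s, s ≠ vz → nrelX M (q * M.g s) * nrelc M = nrelX M q * nrelc M * M.g s :=
    fun q s hs => by rw [nrelX_g M q hs, mul_assoc, ← (nrelc_cm M _).eq, mul_assoc]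
  let c : Q → V → X := fun q s => π (nrelE M.toPM (nrelX M q * nrelc M) s)
  let y : Q → X := fun q => π (nrelE M.toPM (nrelX M q * nrelc M) vz)
  have h3 : ∀ q, ∀ t ∈ XY, c q t = y q - y (q * M.g t) := fun q t ht => by
    have := sq (nrelX M q * nrelc M) vz t (xy t ht)
    rw [z0 _ t ((nrel_ps _ _ _).2 (pc q)) (xy t ht).ne', add_zero] at this
    simp only [c, y, mc q t (xy t ht).ne', this, add_sub_cancel_right]
  obtain ⟨κ, κ1, hκ⟩ := kap n M.ρ c
    (fun q s hs => by simp only [c, M.ρ_g s hs, mc q s hs, nrelE_flip, map_neg, add_neg_cancel])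
    (fun q s t hs ht ha => by
      simp only [c, M.ρ_g s hs, M.ρ_g t ht, mc q s hs, mc q t ht]
      exact sq _ s t ha) y
    (fun q t ht => by rw [M.ρ_g t (xy t ht).ne', h3 q t ht])
  obtain ⟨ν, τ, hν, hτ, hl, hs⟩ :=
    sg_kap (gP_sq n) (gP_gen n) hS κ (fun q s => c q s.1) κ1 hκ
  choose l hl1 hl2 using hl
  let D0 : Subgroup Q := (Subgroup.closure (gW '' (XY : Set V))).map (M.ρ.comp (psi n))
  have hD : ∀ (q : Q) (t : V), t ∈ XY → ((q * M.g t : Q) : Q ⧸ D0) = q := fun q t ht =>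
    QuotientGroup.mk_mul_of_mem q
      ⟨gW t, Subgroup.subset_closure ⟨t, ht, rfl⟩, M.ρ_g t (xy t ht).ne'⟩
  let a : Q → (Q ⊕ Q ⧸ D0) →₀ ℤ := fun q => Finsupp.single (.inl q) 1
  let o : Q → (Q ⊕ Q ⧸ D0) →₀ ℤ := fun q => Finsupp.single (.inr q) 1
  obtain ⟨φ, b1, b2, b3⟩ := nrel_lift2 M
    (fun q s => if M.p q vz = 0 then 0 else a (nrelX M q * M.g s) - a (nrelX M q))
    (fun q => a (q * nrelZ M) - o (q * nrelZ M))
    (fun q s hs => by
      rw [nrel_pt _ _ hs.symm, nrelX_g M q hs, nrel_gg]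
      split_ifs <;> simp)
    (fun q s t hs ht ha => by
      rw [nrel_pt _ _ hs.symm, nrel_pt _ _ ht.symm, nrelX_g M q hs, nrelX_g M q ht,
        mul_assoc _ (M.g s), M.cm s t ha, ← mul_assoc]
      split_ifs <;> simp)
    (fun q t h ht => by
      rw [if_pos h, if_neg (by rw [nrel_ps]; simp [h]), nrelX_z, nrelX_zero M h, ← nrelZ_cm M ht]
      simp only [o, hD _ t (xy' t ht)]
      abel)
  obtain ⟨b, hb⟩ := nrel_factor π sur φ (by
    rw [hk, Submodule.span_le]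
    rintro _ ⟨x | e, rfl⟩
    · exact b3 x
    · obtain ⟨s, hs, -⟩ := nrel_edge M.toPM e.1
      change φ (Pi.single e.1 1) = 0
      rw [← nrelE_edge _ _ hs, b1 _ _ fun h => e.2.2 (by simp [hs, h]), if_pos e.2.1])
  have bc : ∀ h (s : {s : V // s ≠ vz}), b (c (M.ρ h) s) = a (M.ρ (h * gP n s)) - a (M.ρ h) :=
    fun h s => by
      rw [hb, b1 _ _ s.2, if_neg (pc _), nrelX_c, nrelX_X, nrelX_zero M (nrel_prho M h), map_mul,
        nrel_gP]
  have e0 : ∀ q, M.p q vz = 0 → π (nrelE M.toPM q vz) = -y (q * nrelZ M) := fun q h => by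
    simp only [y]
    rw [nrelZ, nrelX_rho, nrelX_zero M h, ← nrelZ, mul_assoc, ← nrel_gz, nrelE_flip, map_neg,
      neg_neg]
  have bκ : ∀ h, b (κ h) = a (M.ρ h) - a 1 := fun h => by
    induction h using nrel_find with
    | h1 => rw [κ1, map_zero, map_one, sub_self]
    | hs h s ih => rw [hκ, map_add, ih, bc]; abel
  let lam0 : ((Q ⊕ Q ⧸ D0) →₀ ℤ) →+ X := (Finsupp.linearCombination ℤ
    (Sum.elim (fun q => κ (τ q)) fun o : Q ⧸ D0 => κ (τ o.out) + y o.out)).toAddMonoidHom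
  have la : ∀ q, lam0 (a q) = κ (τ q) := fun q => by simp [lam0, a]
  have lo : ∀ q, lam0 (o q) = κ (τ (q : Q ⧸ D0).out) + y (q : Q ⧸ D0).out := fun q => by
    simp [lam0, o]
  let z : Fin D → M.toPM.C 1 → ℤ := fun i =>
    ((l i).map fun x => nrelE M.toPM (nrelX M (M.ρ x.1) * nrelc M) x.2.1).sum
  have hz : ∀ i, π (z i) = κ (ν i) := fun i => by
    rw [hl2, map_list_sum, List.map_map]; rfl
  have walk : ∀ w : List V, (∀ t ∈ w, t ∈ XY) → ∀ h, Sm (fun i => κ (ν i)) (w.length * B)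
      (κ (τ (M.ρ h)) + y (M.ρ h) -
        (κ (τ (M.ρ (h * psi n (wd L11 w)))) + y (M.ρ (h * psi n (wd L11 w))))) := by
    intro w
    induction w with
    | nil => intro _ h; simpa [wd] using Sm.zero _
    | cons t w ih =>
      intro hw h
      have ht := hw t List.mem_cons_self
      have := (hs h ⟨t, (xy t ht).ne'⟩).add
        (ih (fun u hu => hw u (List.mem_cons_of_mem _ hu)) (h * gP n ⟨t, (xy t ht).ne'⟩))
      rw [List.length_cons, add_mul, one_mul, add_comm]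
      convert this using 1
      have e : h * psi n (wd L11 (t :: w)) = h * gP n ⟨t, (xy t ht).ne'⟩ * psi n (wd L11 w) := by
        simp [wd, gP, mul_assoc]
      rw [e, h3 _ t ht, ← nrel_gP M ⟨t, (xy t ht).ne'⟩, ← map_mul]
      abel
  refine tl0 π sur (nrelR M) hk (L := 4) ?_ b lam0 z
    (fun i => by rw [hz, bκ, hν, sub_self])
    (fun i => (nrelN_list _ _ _ _).trans (by exact_mod_cast hl1 i)) fun e => ?_
  · rintro (x | e)
    · obtain ⟨s, t, -, -, e⟩ := nrel_row' M.toPM x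
      change nrelN _ ((M.toPM.dZ 1).row x) ≤ _
      rw [e]; exact nrelN_S ..
    · change nrelN _ (Pi.single e.1 1) ≤ _
      rw [nrelN_single]; norm_num
  obtain ⟨s, hs', hp⟩ := nrel_edge M.toPM e
  simp only [hz, ← nrelE_edge _ _ hs']
  generalize e.1.1.1 = u at hp
  by_cases h1 : s = vz
  · subst h1
    obtain ⟨h, hh⟩ := nrelX_range M (u * nrelZ M)
    rw [nrelX_zero M (by rw [M.p_mul, Pi.add_apply, hp, nrelZ, nrel_prho, add_zero])] at hh
    obtain ⟨⟨_, d, hd, rfl⟩, e⟩ := QuotientGroup.mk_out_eq_mul D0 (M.ρ h)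
    obtain ⟨w, w1, w2, w3⟩ := hL d hd
    rw [hb, b2 _ hp, e0 _ hp, map_sub, la, lo, hh, e]
    have := (walk w w2 h).neg.mono
      (show w.length * B ≤ (L + 1) * B from Nat.mul_le_mul_right _ (by omega))
    convert this using 1
    rw [w3, map_mul]
    simp only [MonoidHom.comp_apply]
    abel
  by_cases h2 : M.p u vz = 0
  · rw [z0 u s h2 h1]
    simpa using (Sm.zero _).mono (Nat.zero_le _)
  · obtain ⟨h, hh⟩ := nrelX_range M u
    have e : π (nrelE M.toPM u s) = c (M.ρ h) s := by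
      simp only [c]
      rw [← hh, nrelX_X, nrelX_one M h2]
    rw [e, bc h ⟨s, h1⟩, map_sub, la, la]
    have := (hs h ⟨s, h1⟩).mono (show B ≤ (L + 1) * B by nlinarith)
    convert this using 1
    abel

theorem rel_bound (n : ℕ) : ∃ C : ℕ, ∀ (Q : Type) [Group Q] [Finite Q] (M : TD n Q) (D B : ℕ),
    1 ≤ B → SG (gP n) M.ρ D B → tc (M.toPM.dZ 1) ≤ tc M.toPM.d20 * (C * B ^ 2) ^ D := by
  classical
  obtain ⟨L, hL⟩ := xy_short n
  refine ⟨5 * (L + 1) + 1, fun Q _ _ M D B hB hS => ?_⟩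
  let _ := Fintype.ofFinite (M.toPM.C 1)
  obtain ⟨i, r, hr, hi⟩ := nrel_split M
  refine (tors_split i r hr).trans (Nat.mul_le_mul_left _ ?_)
  refine (nrel_quot hL M hS ((QuotientAddGroup.mk' i.range).toIntLinearMap ∘ₗ Submodule.mkQ _)
    ((QuotientAddGroup.mk'_surjective _).comp (Submodule.mkQ_surjective _)) ?_).trans
    (Nat.pow_le_pow_left ?_ _)
  · ext v
    rw [← hi, LinearMap.mem_ker]
    exact QuotientAddGroup.eq_zero_iff _
  · have : B ≤ B ^ 2 := by nlinarith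
    nlinarith

end

end Pool.Agent.Lib.MP_b65ff2_gt
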