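import Pool.Agent.Lib.MP_b65ff2_gt.NFil
import Pool.Agent.Lib.MP_b65ff2_gt.NR

namespace Pool.Agent.Lib.MP_b65ff2_gt

open Matrix Filter Topology

set_option linter.unusedSectionVars false

noncomputable section

/-- Permutations of the coordinates. -/
def nres_pb {X : Type} (R : Type) : Equiv.Perm X →* Equiv.Perm (X → R) where
  toFun σ := ⟨fun f => f ∘ σ.symm, fun f => f ∘ σ, fun f => by ext; simp, fun f => by ext; simp⟩
  map_one' := rfl
  map_mul' _ _ := rfl

lemma nres_pb_apply {X R : Type} (σ : Equiv.Perm X) (f : X → R) (x : X) :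
    nres_pb R σ f x = f (σ.symm x) := rfl

def nres_Aut {X : Type} (Γ : SimpleGraph X) (σ : Equiv.Perm X) : Prop :=
  ∀ a b, Γ.Adj (σ a) (σ b) ↔ Γ.Adj a b

lemma nres_pb_mv {X : Type} {Γ : SimpleGraph X} (R : Type) [CommRing R] {σ : Equiv.Perm X}
    (h : nres_Aut Γ σ) (s : X) : nres_pb R σ * mvP Γ R s = mvP Γ R (σ s) * nres_pb R σ := by
  ext f t
  obtain ⟨t, rfl⟩ := σ.surjective t
  have e1 : ∀ x, Equiv.symm σ (σ x) = x := σ.left_inv
  have e2 : σ t = σ s ↔ t = s := σ.injective.eq_iff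
  have e3 := h s t
  simp only [Equiv.Perm.mul_apply, mvP, Function.Involutive.coe_toPerm, nres_pb_apply, mv, e1]
  by_cases h1 : t = s <;> by_cases h2 : Γ.Adj s t <;> simp [h1, h2, e2, e3]

lemma nres_wd_cons {S : Type} (Γ : SimpleGraph S) (s : S) (l : List S) :
    wd Γ (s :: l) = gn Γ s * wd Γ l := by simp [wd]

lemma nres_tits_cons {S : Type} (Γ : SimpleGraph S) (R : Type) [CommRing R] (s : S) (l : List S) :
    tits Γ R (wd Γ (s :: l)) = mvP Γ R s * tits Γ R (wd Γ l) := by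
  rw [nres_wd_cons, map_mul, tits, RA.lift_gn]

lemma nres_tits_cast {S : Type} (Γ : SimpleGraph S) (R : Type) [CommRing R] (l : List S) (x : S) :
    tits Γ R (wd Γ l) 1 x = (tits Γ ℤ (wd Γ l) 1 x : ℤ) := by
  induction l generalizing x with
  | nil => simp [wd]
  | cons s l ih =>
    simp only [nres_tits_cons, Equiv.Perm.mul_apply, mvP, Function.Involutive.coe_toPerm, mv, ih]
    split_ifs <;> push_cast <;> rfl

lemma nres_red_ne {S : Type} {Γ : SimpleGraph S} {l : List S} (h : Red Γ l) (hl : l ≠ []) :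
    wd Γ l ≠ 1 := by
  obtain ⟨a, s, rfl⟩ := (List.eq_nil_or_concat' l).resolve_left hl
  intro e
  exact not_Dn_one s (e ▸ red_Dn h)

lemma nres_sep {S : Type} {Γ : SimpleGraph S} {l : List S} (h : wd Γ l ≠ 1) :
    ∀ᶠ m in atTop, tits Γ (ZMod (m + 1)) (wd Γ l) 1 ≠ 1 := by
  have : ¬∀ s, ¬Dn Γ (wd Γ l)⁻¹ s := fun h' => h (inv_eq_one.1 (eq_one_of_not_Dn h'))
  push Not at this
  obtain ⟨s, hs⟩ := this
  rw [Dn, inv_inv] at hs
  filter_upwards [eventually_ge_atTop (1 - tits Γ ℤ (wd Γ l) 1 s).toNat] with m hm e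
  have e1 := congrFun e s
  rw [nres_tits_cast] at e1
  have := Int.le_of_dvd (by omega)
    ((ZMod.intCast_eq_intCast_iff_dvd_sub _ 1 _).1 (e1.trans Int.cast_one.symm))
  omega

lemma nres_prj {n : ℕ} {A B : ℤ × ℤ} : prj n A = prj n B ↔
    (4 * 2 ^ (n + 1) : ℤ) ∣ B.1 - A.1 ∧ (4 * 3 ^ n : ℤ) ∣ B.2 - A.2 := by
  simp only [prj, Prod.mk.injEq, ZMod.intCast_eq_intCast_iff_dvd_sub]
  push_cast
  rfl

lemma nres_prj4 {n : ℕ} {A B : ℤ × ℤ} (h : prj n A = prj n B) :
    4 ∣ B.1 - A.1 ∧ 4 ∣ B.2 - A.2 :=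
  ⟨(dvd_mul_right _ _).trans (nres_prj.1 h).1, (dvd_mul_right _ _).trans (nres_prj.1 h).2⟩

lemma nres_plane {A B : ℤ × ℤ} : plane.Adj A B ↔ |A.1 - B.1| + |A.2 - B.2| = 1 ∨
    (|A.1 - B.1| = 1 ∧ |A.2 - B.2| = 1 ∧ (A.1 + A.2) % 2 = 0) := Iff.rfl

lemma nres_adj (n : ℕ) {A B : ℤ × ℤ} (h : plane.Adj A B) : (torG n).Adj (prj n A) (prj n B) := by
  refine ⟨fun e => ?_, A, B, h, rfl, rfl⟩
  have := nres_prj4 e
  rw [nres_plane] at h
  rcases abs_cases (A.1 - B.1) with h1 | h1 <;> rcases abs_cases (A.2 - B.2) with h2 | h2 <;> omega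

lemma nres_mir {t : V} (ht : t ∈ XY) {A B : ℤ × ℤ} (h : plane.Adj A B) :
    plane.Adj (mir t A) (mir t B) := by
  rw [nres_plane] at h ⊢
  simp only [XY, Finset.mem_insert, Finset.mem_singleton] at ht
  rcases ht with rfl | rfl | rfl | rfl <;> simp +decide only [mir, if_true, if_false] <;>
    simp only [abs_eq_max_neg] at h ⊢ <;> omega

abbrev nres_K : Subgroup W := Subgroup.closure (gW '' (XY : Set V))

/-- The Tits representation of the filled group. -/
theorem nres_T (n : ℕ) : ∃ δ : Fil n →* Equiv.Perm (Tor n),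
    (∀ u v, ∀ s ∈ Six, δ (psi n (dd u v)) (prj n (base s)) = prj n (pos u v s)) ∧
    ∀ (R : Type) [CommRing R], ∃ T : Fil n →* Equiv.Perm (Tor n → R),
      (∀ d ∈ nres_K, T (psi n d) 1 = 1) ∧
      ∀ d ∈ nres_K, ∀ s ∈ Six, T (psi n (d * gW s * d⁻¹)) =
        mvP (torG n) R (δ (psi n d) (prj n (base s))) := by
  obtain ⟨δ, -, h2, h3⟩ := exists_delta n
  have ha : ∀ d ∈ nres_K, nres_Aut (torG n) (δ (psi n d)) := by
    intro d hd
    induction hd using Subgroup.closure_induction with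
    | mem x hx =>
      obtain ⟨t, ht, rfl⟩ := hx
      have h : ∀ a b, (torG n).Adj a b →
          (torG n).Adj (δ (psi n (gW t)) a) (δ (psi n (gW t)) b) := by
        rintro _ _ ⟨-, A, B, h, rfl, rfl⟩
        rw [h2 t ht, h2 t ht]
        exact nres_adj n (nres_mir ht h)
      refine fun a b => ⟨fun h' => ?_, h a b⟩
      have := h _ _ h'
      simpa only [← Equiv.Perm.mul_apply, ← map_mul, gn_sq, map_one, Equiv.Perm.one_apply]
        using this
    | one => intro a b; simp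
    | mul x y _ _ hx hy => intro a b; simp only [map_mul, Equiv.Perm.mul_apply]; rw [hx, hy]
    | inv x _ hx => intro a b; rw [← hx]; simp
  refine ⟨δ, h3, fun R _ => ?_⟩
  have hXY : ∀ s : V, s ≠ vz → s ∉ Six → s ∈ XY := by decide
  have hK : ∀ t ∈ XY, gW t ∈ nres_K := fun t ht => Subgroup.subset_closure ⟨t, ht, rfl⟩
  have hm : ∀ s ∈ Six, ∀ t ∈ XY, L11.Adj s t → mir t (base s) = base s := by decide
  have hp : ∀ s ∈ Six, ∀ t ∈ Six, L11.Adj s t → plane.Adj (base s) (base t) := by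
    simp only [nres_plane]; decide
  have key : ∀ s ∈ Six, ∀ t ∈ XY, L11.Adj s t →
      nres_pb R (δ (psi n (gW t))) * mvP (torG n) R (prj n (base s)) =
        mvP (torG n) R (prj n (base s)) * nres_pb R (δ (psi n (gW t))) := fun s hs t ht h => by
    rw [nres_pb_mv R (ha _ (hK t ht)), h2 t ht, hm s hs t ht h]
  have hrel : ∀ r ∈ relP n, psi n r = 1 := fun r hr =>
    (QuotientGroup.eq_one_iff _).2 (Subgroup.subset_normalClosure hr)
  obtain ⟨T, hT⟩ := fil_lift n (fun s => if s ∈ Six then mvP (torG n) R (prj n (base s))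
    else nres_pb R (δ (psi n (gW s)))) (fun s _ => by
      split_ifs
      · exact Equiv.ext (mv_mv _ _)
      · rw [← map_mul, ← map_mul, ← map_mul, gn_sq, map_one, map_one, map_one])
    (fun s t hs ht h => by
      split_ifs with h1 h2 h2
      · exact Equiv.ext (mv_cm _ (nres_adj n (hp s h1 t h2 h)))
      · exact (key s h1 t (hXY t ht h2) h).symm
      · exact key t h2 s (hXY s hs h1) h.symm
      · simp only [← map_mul, gn_cm _ h])
    (by
      rw [if_neg (by decide), if_neg (by decide)]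
      simp only [← map_mul, ← map_pow]
      rw [hrel _ (by simp [relP]), map_one, map_one])
    (by
      rw [if_neg (by decide), if_neg (by decide)]
      simp only [← map_mul, ← map_pow]
      rw [hrel _ (by simp [relP]), map_one, map_one])
  have hTK : ∀ d ∈ nres_K, T (psi n d) = nres_pb R (δ (psi n d)) := by
    intro d hd
    induction hd using Subgroup.closure_induction with
    | mem x hx =>
      obtain ⟨t, ht, rfl⟩ := hx
      have : ∀ t ∈ XY, t ≠ vz ∧ t ∉ Six := by decide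
      rw [hT t (this t ht).1, if_neg (this t ht).2]
    | one => simp
    | mul x y _ _ hx hy => simp only [map_mul, hx, hy]
    | inv x _ hx => simp only [map_inv, hx]
  refine ⟨T, fun d hd => by rw [hTK d hd]; rfl, fun d hd s hs => ?_⟩
  have : ∀ s ∈ Six, s ≠ vz := by decide
  rw [map_mul, map_mul, map_mul, map_mul, map_inv, map_inv, hT s (this s hs), if_pos hs, hTK d hd,
    nres_pb_mv R (ha d hd), mul_inv_cancel_right]

lemma nres_ddK (u v : ℤ) : dd u v ∈ nres_K := mem_dd.2 ⟨u, v, rfl⟩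

lemma nres_par_inv (d : W) : par L11 d⁻¹ = -par L11 d := by simp [par]

lemma nres_parK {d : W} (hd : d ∈ nres_K) : par L11 d vz = 0 := by
  induction hd using Subgroup.closure_induction with
  | mem x hx =>
    obtain ⟨t, ht, rfl⟩ := hx
    have : ∀ t ∈ XY, vz ≠ t := by decide
    rw [par_gn, Pi.single_eq_of_ne (this t ht)]
  | one => simp [par]
  | mul x y _ _ hx hy => simp [par_mul, hx, hy]
  | inv x _ hx => simp [nres_par_inv, hx]

lemma nres_D0 {d : W} (hd : d ∈ (pmW L11).D0) : d ∈ nres_K ∧ par L11 d vyh = 0 := by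
  have hK : ∀ t ∈ XY, gW t ∈ nres_K := fun t ht => Subgroup.subset_closure ⟨t, ht, rfl⟩
  induction hd using Subgroup.closure_induction with
  | mem x hx =>
    simp only [pmW, Set.mem_insert_iff, Set.mem_singleton_iff] at hx
    rcases hx with rfl | rfl | rfl | rfl
    · exact ⟨hK _ (by decide), by rw [par_gn]; decide⟩
    · exact ⟨hK _ (by decide), by rw [par_gn]; decide⟩
    · exact ⟨hK _ (by decide), by rw [par_gn]; decide⟩
    · exact ⟨mul_mem (mul_mem (hK _ (by decide)) (hK _ (by decide))) (hK _ (by decide)), by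
        simp only [par_mul, par_gn]; decide⟩
  | one => exact ⟨one_mem _, by simp [par]⟩
  | mul x y _ _ hx hy => exact ⟨mul_mem hx.1 hy.1, by simp [par_mul, hx.2, hy.2]⟩
  | inv x _ hx => exact ⟨inv_mem hx.1, by simp [nres_par_inv, hx.2]⟩

lemma nres_dd00 : dd 0 0 = 1 := by simp [dd, xw, yw]

lemma nres_dd01 : dd 0 1 = gW vyh := by simp [dd, xw, yw]

lemma nres_posw (u v : ℤ) : pos u v vw = (2 * u + 1, if v % 2 = 0 then v + 1 else v) := by
  simp +decide only [pos, base, if_true, if_false]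
  split_ifs <;> simp

lemma nres_posa (u v : ℤ) : (pos u v va0).2 = if v % 2 = 0 then v else v + 1 := by
  simp +decide only [pos, base, if_false]
  split_ifs <;> simp

lemma nres_move {n : ℕ} {u v : ℤ} (h1 : psi n (dd u v) ≠ 1) (h2 : par L11 (dd u v) vyh = 0) :
    prj n (base vw) ≠ prj n (pos u v vw) := by
  intro e
  rw [nres_prj, nres_posw] at e
  obtain ⟨e1, e2⟩ := e
  simp +decide only [base, if_true, if_false] at e1 e2
  have hu : u ≡ 0 [ZMOD 2 * 2 ^ (n + 1)] := by
    obtain ⟨k, hk⟩ := e1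
    exact Int.modEq_zero_iff_dvd.2 ⟨k, by linarith⟩
  split_ifs at e2 with hv
  · refine h1 ?_
    rw [psi_dd hu (v' := 0) (Int.modEq_zero_iff_dvd.2 (by simpa using e2)), nres_dd00, map_one]
  · have e := psi_dd hu (v' := 1) (Int.modEq_iff_dvd.2 e2).symm
    rw [nres_dd01] at e
    have := psi_par (n := n) (g := dd u v * gW vyh) (by rw [map_mul, e, ← map_mul, gn_sq, map_one])
      (by rw [par_mul, Pi.add_apply, nres_parK (nres_ddK u v), par_gn]; decide)
    have := congrFun this vyh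
    rw [par_mul, Pi.add_apply, h2, par_gn] at this
    revert this
    decide

def nres_Wh (n : ℕ) (P : Tor n) : Prop := ∃ A : ℤ × ℤ, A.1 % 2 = 1 ∧ A.2 % 2 = 1 ∧ P = prj n A

lemma nres_wh_adj {n : ℕ} {P R : Tor n} (hP : nres_Wh n P) (hR : nres_Wh n R) :
    ¬(torG n).Adj P R := by
  rintro ⟨-, A, B, h, e1, e2⟩
  obtain ⟨A', a1, a2, rfl⟩ := hP
  obtain ⟨B', b1, b2, rfl⟩ := hR
  have := nres_prj4 e1
  have := nres_prj4 e2
  rw [nres_plane] at h
  simp only [abs_eq_max_neg] at h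
  omega

lemma nres_red_chain {S : Type} {Γ : SimpleGraph S} {L : List S} (h1 : L.IsChain (· ≠ ·))
    (h2 : ∀ a ∈ L, ∀ b ∈ L, ¬Γ.Adj a b) : Red Γ L := by
  rintro a s b c rfl
  have := (List.isChain_append.1 h1).2.1
  cases b with
  | nil => simp at this
  | cons t b =>
    refine ⟨t, by simp, ?_, h2 _ (by simp) _ (by simp)⟩
    simp only [List.cons_append, List.isChain_cons_cons] at this
    exact this.1.symm

theorem res2 (n j : ℕ) : ∃ N : Subgroup (Fil n), N.Normal ∧ N.FiniteIndex ∧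
    ∀ l : List W, l ≠ [] → l.length ≤ j → (∀ d ∈ l, d ∈ (pmW L11).D0 ∧ psi n d ≠ 1) →
      psi n (l.map (· * gW vw)).prod ∉ N := by
  obtain ⟨δ, h3, hT⟩ := nres_T n
  obtain ⟨m, hm⟩ := ((eventually_all_finite ((List.finite_length_le (Tor n) j).subset
    (t := {L | L.length ≤ j ∧ wd (torG n) L ≠ 1}) fun L hL => hL.1)).2
    fun L hL => nres_sep hL.2).exists
  obtain ⟨T, t1, t2⟩ := hT (ZMod (m + 1))
  refine ⟨T.ker, inferInstance, inferInstance, fun l hl hj hd e => ?_⟩
  have key : ∀ l : List W, (∀ d ∈ l, d ∈ (pmW L11).D0 ∧ psi n d ≠ 1) → ∀ D ∈ nres_K,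
      ∃ L : List (Tor n), L.length = l.length ∧ (∀ P ∈ L, nres_Wh n P) ∧
        (δ (psi n D) (prj n (base vw)) :: L).IsChain (· ≠ ·) ∧
        T (psi n (D * (l.map (· * gW vw)).prod)) 1 = tits _ _ (wd (torG n) L) 1 := by
    intro l
    induction l with
    | nil => exact fun _ D hD => ⟨[], rfl, by simp, by simp, by simp [t1 D hD, wd]⟩
    | cons d l ih =>
      intro hd D hD
      obtain ⟨d1, d2⟩ := hd d (by simp)
      have hK := mul_mem hD (nres_D0 d1).1
      obtain ⟨L, l1, l2, l3, l4⟩ := ih (fun x hx => hd x (by simp [hx])) _ hK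
      refine ⟨δ (psi n (D * d)) (prj n (base vw)) :: L, by simp [l1], ?_, ?_, ?_⟩
      · intro P hP
        rcases List.mem_cons.1 hP with rfl | hP
        · obtain ⟨u, v, e⟩ := mem_dd.1 hK
          refine ⟨pos u v vw, ?_, ?_, by rw [e, h3 u v vw (by decide)]⟩ <;> rw [nres_posw]
          · omega
          · dsimp only; split_ifs <;> omega
        · exact l2 P hP
      · refine List.isChain_cons_cons.2 ⟨?_, l3⟩
        obtain ⟨u, v, rfl⟩ := mem_dd.1 (nres_D0 d1).1
        rw [map_mul, map_mul, Equiv.Perm.mul_apply, (δ _).injective.ne_iff, h3 u v vw (by decide)]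
        exact nres_move d2 (nres_D0 d1).2
      · rw [nres_tits_cons, Equiv.Perm.mul_apply, ← l4, ← t2 _ hK vw (by decide),
          ← Equiv.Perm.mul_apply, ← map_mul, ← map_mul]
        congr 3
        simp only [List.map_cons, List.prod_cons]
        group
  obtain ⟨L, l1, l2, l3, l4⟩ := key l hd 1 (one_mem _)
  refine hm L ⟨l1 ▸ hj, nres_red_ne (nres_red_chain l3.tail fun a ha b hb =>
    nres_wh_adj (l2 a ha) (l2 b hb)) fun e => hl (List.length_eq_zero_iff.1 (by simp [← l1, e]))⟩ ?_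
  rw [← l4, one_mul, MonoidHom.mem_ker.1 e]
  rfl

/-- Two copies of the plane. -/
def nres_G2 : SimpleGraph ((ℤ × ℤ) × Bool) where
  Adj a b := a.2 = b.2 ∧ plane.Adj a.1 b.1
  symm := ⟨fun _ _ h => ⟨h.1.symm, h.2.symm⟩⟩
  loopless := ⟨fun _ h => h.2.ne rfl⟩

def nres_r (x : (ℤ × ℤ) × Bool) : W := if x.2 then gW vz * rr x.1 * gW vz else rr x.1

lemma nres_conj (a : W) : gW vz * a * gW vz = MulAut.conj (gW vz) a := by
  rw [MulAut.conj_apply, gn_inv]

def nres_phi : RA nres_G2 →* W := RA.lift _ nres_r (fun x => by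
    unfold nres_r
    split_ifs
    · rw [nres_conj, ← map_mul, rr_sq, map_one]
    · exact rr_sq _)
  (fun x y h => by
    unfold nres_r
    rw [← h.1]
    split_ifs
    · simp only [nres_conj, ← map_mul, rr_cm h.2]
    · exact rr_cm h.2)

lemma nres_phi_wd (l : List ((ℤ × ℤ) × Bool)) : nres_phi (wd _ l) = (l.map nres_r).prod := by
  induction l with
  | nil => simp [wd]
  | cons x l ih => rw [nres_wd_cons, map_mul, ih, nres_phi, RA.lift_gn]; simp

lemma nres_par_r (l : List ((ℤ × ℤ) × Bool)) : par L11 (l.map nres_r).prod vz = 0 := by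
  induction l with
  | nil => simp [par]
  | cons x l ih =>
    have : ∀ s ∈ Six, vz ≠ s := by decide
    have := Pi.single_eq_of_ne (M := fun _ => ZMod 2) (this _ (typ_mem x.1)) 1
    rw [List.map_cons, List.prod_cons, par_mul, Pi.add_apply, ih, nres_r]
    split_ifs
    · simp only [par_mul, par_rr, par_gn, Pi.add_apply, this]; decide
    · simp [par_rr, this]

def nres_sh (n : ℕ) (x : (ℤ × ℤ) × Bool) : ℤ × ℤ :=
  (x.1.1, x.1.2 - if x.2 then 2 * 3 ^ n else 0)

lemma nres_psi_r (n : ℕ) (x : (ℤ × ℤ) × Bool) : psi n (nres_r x) = psi n (rr (nres_sh n x)) := by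
  unfold nres_r nres_sh
  split_ifs
  · have e : (gW vy0 * gW vyh) ^ 3 ^ n = dd (2 * 0) (2 * -3 ^ n) := by
      rw [dd_even, zpow_zero, one_mul, _root_.zpow_neg, ← _root_.inv_zpow, _root_.mul_inv_rev, gn_inv, gn_inv]
      norm_cast
    have := rr_shift 0 (-3 ^ n) x.1
    rw [nres_conj, MulAut.conj_apply, map_mul, map_mul, map_inv, psi_z, e, ← map_inv, ← map_mul,
      ← map_mul, this]
    congr 3 <;> ring
  · simp

lemma nres_pos_typ (P : ℤ × ℤ) : pos (P.1 / 2) P.2 (typ P) = P := by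
  unfold typ
  split_ifs <;> simp +decide only [pos, base, if_true, if_false] <;> ext <;> dsimp only <;>
    split_ifs <;> omega

lemma nres_big (c : ℤ) : ∀ᶠ n in atTop, c < 2 ^ n := by
  filter_upwards [eventually_ge_atTop c.toNat] with n hn
  have : (n : ℤ) < 2 ^ n := by exact_mod_cast Nat.lt_two_pow_self
  omega

lemma nres_near (x y : (ℤ × ℤ) × Bool) : ∀ᶠ n in atTop, ∀ A B : ℤ × ℤ, |A.1 - B.1| ≤ 1 →
    |A.2 - B.2| ≤ 1 → prj n A = prj n (nres_sh n x) → prj n B = prj n (nres_sh n y) →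
    x.2 = y.2 ∧ x.1.1 - y.1.1 = A.1 - B.1 ∧ x.1.2 - y.1.2 = A.2 - B.2 ∧
      (x.1.1 + x.1.2) % 2 = (A.1 + A.2) % 2 := by
  filter_upwards [nres_big (|x.1.1 - y.1.1| + |x.1.2 - y.1.2| + 1)] with n hn A B h1 h2 e1 e2
  have e3 := nres_prj4 e1
  rw [nres_prj] at e1 e2
  have h3 : (2 : ℤ) ^ n ≤ 3 ^ n := pow_le_pow_left₀ (by norm_num) (by norm_num) n
  have d1 := dvd_sub e1.1 e2.1
  have d2 := dvd_sub e1.2 e2.2
  simp only [nres_sh, pow_succ] at d1 d2 e3
  generalize (2 : ℤ) ^ n = a at *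
  generalize (3 : ℤ) ^ n = b at *
  have f1 := Int.eq_zero_of_abs_lt_dvd d1 (by simp only [abs_eq_max_neg] at *; omega)
  by_cases h : x.2 = y.2
  · have f2 := Int.eq_zero_of_abs_lt_dvd d2 (by rw [h]; simp only [abs_eq_max_neg] at *; omega)
    rw [h] at f2
    split_ifs at e3 <;> exact ⟨h, by omega, by omega, by omega⟩
  · have f2 := Int.eq_zero_of_abs_lt_dvd d2 (by
      simp only [abs_eq_max_neg] at *; split_ifs <;> omega)
    simp only [abs_eq_max_neg] at *
    split_ifs at f2 with c1 c2 c2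
    · exact (h (c1.trans c2.symm)).elim
    · omega
    · omega
    · simp_all

lemma nres_inj (x y : (ℤ × ℤ) × Bool) : ∀ᶠ n in atTop,
    (prj n (nres_sh n x) = prj n (nres_sh n y) → x = y) ∧
      ((torG n).Adj (prj n (nres_sh n x)) (prj n (nres_sh n y)) → nres_G2.Adj x y) := by
  filter_upwards [nres_near x y] with n hn
  refine ⟨fun e => ?_, ?_⟩
  · obtain ⟨h1, h2, h3, -⟩ := hn (nres_sh n y) (nres_sh n y) (by simp) (by simp) e.symm rfl
    exact Prod.ext (Prod.ext (by omega) (by omega)) h1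
  · rintro ⟨-, A, B, h, e1, e2⟩
    rw [nres_plane] at h
    obtain ⟨h1, h2, h3, h4⟩ := hn A B (by simp only [abs_eq_max_neg] at *; omega)
      (by simp only [abs_eq_max_neg] at *; omega) e1 e2
    exact ⟨h1, by rw [nres_plane, h2, h3, h4]; exact h⟩

lemma nres_red_map {S S' : Type} {Γ : SimpleGraph S} {Γ' : SimpleGraph S'} {f : S → S'}
    {l : List S} (h : Red Γ l) (hf : ∀ x ∈ l, ∀ y ∈ l, (f x = f y → x = y) ∧
      (Γ'.Adj (f x) (f y) → Γ.Adj x y)) : Red Γ' (l.map f) := by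
  intro a s b c e
  obtain ⟨a', l1, rfl, -, e0⟩ := List.map_eq_append_iff.1 e
  obtain ⟨s1, l2, rfl, rfl, e⟩ := List.map_eq_cons_iff.1 e0
  obtain ⟨b', l3, rfl, rfl, e'⟩ := List.map_eq_append_iff.1 e
  obtain ⟨s2, c', rfl, e, -⟩ := List.map_eq_cons_iff.1 e'
  obtain rfl := (hf s2 (by simp) s1 (by simp)).1 e
  obtain ⟨t, ht, h1, h2⟩ := h _ _ _ _ rfl
  exact ⟨f t, List.mem_map_of_mem ht, fun e => h1 ((hf t (by simp [ht]) _ (by simp)).1 e),
    fun e => h2 ((hf _ (by simp) t (by simp [ht])).2 e)⟩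

theorem res1 {g : W} (hg : g ≠ 1) : ∀ᶠ n in atTop, par L11 g vz ≠ 0 ∨
    ∃ N : Subgroup (Fil n), N.Normal ∧ N.FiniteIndex ∧ psi n g ∉ N := by
  obtain ⟨l0, u, v, e, rfl⟩ := normal_form g
  change ((l0.map nres_r).prod * _ * _ ≠ _) at hg
  change ∀ᶠ n in atTop, par L11 ((l0.map nres_r).prod * _ * _) vz ≠ 0 ∨
    ∃ N : Subgroup (Fil n), N.Normal ∧ N.FiniteIndex ∧ psi n ((l0.map nres_r).prod * _ * _) ∉ N
  cases e with
  | true =>
    refine .of_forall fun n => .inl ?_
    simp only [if_true, par_mul, Pi.add_apply, nres_par_r, nres_parK (nres_ddK u v), par_gn]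
    decide
  | false =>
  simp only [Bool.false_eq_true, if_false, mul_one] at hg ⊢
  obtain ⟨l, hl, e⟩ := exists_red (wd nres_G2 l0)
  rw [← nres_phi_wd, ← e, nres_phi_wd] at hg ⊢
  by_cases h0 : l = []
  · subst h0
    simp only [List.map_nil, List.prod_nil, one_mul] at hg ⊢
    filter_upwards [nres_inj (base vw, false) (pos u v vw, false),
      nres_inj (base va0, false) (pos u v va0, false)] with n h1 h2
    obtain ⟨δ, h3, -⟩ := nres_T n
    refine .inr ⟨δ.ker, inferInstance, inferInstance, fun e => hg ?_⟩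
    have e1 := h3 u v vw (by decide)
    have e2 := h3 u v va0 (by decide)
    rw [MonoidHom.mem_ker.1 e] at e1 e2
    have f1 := h1.1 (by simpa [nres_sh] using e1)
    have f2 := congrArg (·.1.2) (h2.1 (by simpa [nres_sh] using e2))
    simp +decide only [nres_posw, nres_posa, base, if_true, if_false, Prod.mk.injEq] at f1 f2
    obtain rfl : u = 0 := by omega
    obtain rfl : v = 0 := by split_ifs at f1 f2 <;> omega
    exact nres_dd00
  have hf := (eventually_all_finite l.finite_toSet).2 fun x _ =>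
    (eventually_all_finite l.finite_toSet).2 fun y _ => nres_inj x y
  filter_upwards [hf] with n hn
  obtain ⟨m, hm⟩ := (nres_sep (nres_red_ne (nres_red_map (Γ' := torG n)
    (f := fun x => prj n (nres_sh n x)) hl hn) (by simpa using h0))).exists
  obtain ⟨δ, h3, hT⟩ := nres_T n
  obtain ⟨T, t1, t2⟩ := hT (ZMod (m + 1))
  refine .inr ⟨T.ker, inferInstance, inferInstance, fun e => hm ?_⟩
  have key : ∀ l : List ((ℤ × ℤ) × Bool), T (psi n (l.map nres_r).prod) =
      tits _ _ (wd (torG n) (l.map fun x => prj n (nres_sh n x))) := by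
    intro l
    induction l with
    | nil => simp [wd]
    | cons x l ih =>
      rw [List.map_cons, List.map_cons, List.prod_cons, map_mul, map_mul, ih, nres_tits_cons,
        nres_psi_r, rr, t2 _ (nres_ddK _ _) _ (typ_mem _), h3 _ _ _ (typ_mem _), nres_pos_typ]
  rw [← key, ← t1 _ (nres_ddK u v), ← Equiv.Perm.mul_apply, ← map_mul, ← map_mul,
    MonoidHom.mem_ker.1 e, t1 _ (nres_ddK u v)]
  rfl

end

end Pool.Agent.Lib.MP_b65ff2_gt
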