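import Pool.Agent.Lib.MP_b65ff2_gt.NL11

namespace Pool.Agent.Lib.MP_b65ff2_gt

open Matrix Filter Topology

set_option linter.unusedSectionVars false

noncomputable section

section Dih
variable {H : Type} [Group H]

/-- The alternating word in two involutions. -/
def nrr_dw (a b : H) (u : ℤ) : H := (a * b) ^ (u / 2) * if u % 2 = 0 then 1 else a

variable {a b : H}

lemma nrr_even (k : ℤ) : nrr_dw a b (2 * k) = (a * b) ^ k := by
  have h1 : 2 * k / 2 = k := by omega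
  have h2 : 2 * k % 2 = 0 := by omega
  simp [nrr_dw, h1, h2]

lemma nrr_odd (k : ℤ) : nrr_dw a b (2 * k + 1) = (a * b) ^ k * a := by
  have h1 : (2 * k + 1) / 2 = k := by omega
  have h2 : ¬(2 * k + 1) % 2 = 0 := by omega
  simp only [nrr_dw, h1, h2, if_false]

lemma nrr_add (k u : ℤ) : nrr_dw a b (2 * k + u) = (a * b) ^ k * nrr_dw a b u := by
  have h1 : (2 * k + u) / 2 = k + u / 2 := by omega
  have h2 : (2 * k + u) % 2 = u % 2 := by omega
  simp only [nrr_dw, h1, h2, _root_.zpow_add, mul_assoc]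

lemma nrr_succ_even {u : ℤ} (h : u % 2 = 0) : nrr_dw a b (u + 1) = nrr_dw a b u * a := by
  obtain ⟨k, rfl⟩ : ∃ k, u = 2 * k := ⟨u / 2, by omega⟩
  rw [nrr_odd, nrr_even]

lemma nrr_succ_odd {u : ℤ} (h : ¬u % 2 = 0) : nrr_dw a b (u + 1) = nrr_dw a b u * b := by
  obtain ⟨k, rfl⟩ : ∃ k, u = 2 * k + 1 := ⟨u / 2, by omega⟩
  rw [nrr_odd, show 2 * k + 1 + 1 = 2 * (k + 1) by ring, nrr_even, _root_.zpow_add_one, mul_assoc]

lemma nrr_mul_a (ha : a * a = 1) (u : ℤ) : ∃ u', nrr_dw a b u * a = nrr_dw a b u' := by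
  by_cases h : u % 2 = 0
  · exact ⟨_, (nrr_succ_even h).symm⟩
  · refine ⟨u - 1, ?_⟩
    have := nrr_succ_even (a := a) (b := b) (u := u - 1) (by omega)
    rw [sub_add_cancel] at this
    rw [this, mul_assoc, ha, mul_one]

lemma nrr_mul_b (hb : b * b = 1) (u : ℤ) : ∃ u', nrr_dw a b u * b = nrr_dw a b u' := by
  by_cases h : u % 2 = 0
  · refine ⟨u - 1, ?_⟩
    have := nrr_succ_odd (a := a) (b := b) (u := u - 1) (by omega)
    rw [sub_add_cancel] at this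
    rw [this, mul_assoc, hb, mul_one]
  · exact ⟨_, (nrr_succ_odd h).symm⟩

lemma nrr_inv (ha : a * a = 1) (hb : b * b = 1) : (a * b)⁻¹ = b * a := by
  rw [_root_.mul_inv_rev, inv_eq_of_mul_eq_one_right ha, inv_eq_of_mul_eq_one_right hb]

lemma nrr_a_pow (ha : a * a = 1) (hb : b * b = 1) (k : ℤ) :
    a * (a * b) ^ k = (a * b) ^ (-k) * a := by
  have h : SemiconjBy a (a * b) (a * b)⁻¹ := by
    rw [nrr_inv ha hb, SemiconjBy, ← mul_assoc, ha, one_mul, mul_assoc, ha, mul_one]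
  have := (h.zpow_right k).eq
  rwa [_root_.inv_zpow, ← _root_.zpow_neg] at this

lemma nrr_a_mul (ha : a * a = 1) (hb : b * b = 1) (u : ℤ) :
    a * nrr_dw a b u = nrr_dw a b (1 - u) := by
  rcases Int.even_or_odd' u with ⟨k, rfl | rfl⟩
  · rw [show 1 - 2 * k = 2 * (-k) + 1 by ring, nrr_odd, nrr_even, nrr_a_pow ha hb]
  · rw [show 1 - (2 * k + 1) = 2 * (-k) by ring, nrr_odd, nrr_even, ← mul_assoc, nrr_a_pow ha hb,
      mul_assoc, ha, mul_one]

lemma nrr_b_mul (ha : a * a = 1) (hb : b * b = 1) (u : ℤ) :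
    b * nrr_dw a b u = nrr_dw a b (-1 - u) := by
  rw [show -1 - u = 2 * (-1) + (1 - u) by ring, nrr_add, ← nrr_a_mul ha hb, _root_.zpow_neg_one,
    nrr_inv ha hb, mul_assoc, ← mul_assoc a, ha, one_mul]

lemma nrr_comm {c : H} (ha : Commute a c) (hb : Commute b c) (u : ℤ) :
    Commute (nrr_dw a b u) c := by
  refine ((ha.mul_left hb).zpow_left _).mul_left ?_
  split_ifs
  · exact Commute.one_left _
  · exact ha

lemma nrr_mem {K : Subgroup H} (ha : a ∈ K) (hb : b ∈ K) (u : ℤ) : nrr_dw a b u ∈ K := by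
  refine K.mul_mem (K.zpow_mem (K.mul_mem ha hb) _) ?_
  split_ifs
  · exact K.one_mem
  · exact ha

lemma nrr_cj {d c s : H} (h : Commute c s) : d * c * s * (d * c)⁻¹ = d * s * d⁻¹ := by
  rw [mul_assoc d c s, h.eq]; group

end Dih

lemma nrr_xw (u : ℤ) : xw u = nrr_dw (gW vx1) (gW vx0) u := rfl

lemma nrr_yw (v : ℤ) : yw v = nrr_dw (gW vyh) (gW vy0) v := rfl

lemma nrr_cm {s t : V} (h : L11.Adj s t) : Commute (gW s) (gW t) := gn_cm L11 h

lemma nrr_xw_cm {t : V} (h1 : L11.Adj vx1 t) (h0 : L11.Adj vx0 t) (u : ℤ) :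
    Commute (xw u) (gW t) := nrr_comm (nrr_cm h1) (nrr_cm h0) u

lemma nrr_yw_cm {t : V} (h1 : L11.Adj vyh t) (h0 : L11.Adj vy0 t) (u : ℤ) :
    Commute (yw u) (gW t) := nrr_comm (nrr_cm h1) (nrr_cm h0) u

lemma nrr_xy (u v : ℤ) : Commute (xw u) (yw v) :=
  (nrr_comm (nrr_xw_cm (by decide) (by decide) u).symm
    (nrr_xw_cm (by decide) (by decide) u).symm v).symm

lemma nrr_dd_x {t : V} (h1 : L11.Adj vyh t) (h0 : L11.Adj vy0 t) {u u' : ℤ}
    (h : xw u' = xw u * gW t) (v : ℤ) : dd u' v = dd u v * gW t := by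
  rw [dd, dd, h, mul_assoc, mul_assoc, (nrr_yw_cm h1 h0 v).eq]

lemma nrr_dd_y {t : V} {v v' : ℤ} (h : yw v' = yw v * gW t) (u : ℤ) :
    dd u v' = dd u v * gW t := by
  rw [dd, dd, h, mul_assoc]

/-- Crossing the vertical wall. -/
lemma nrr_step_x (u v : ℤ) {s : V} (h : L11.Adj (if u % 2 = 0 then vx1 else vx0) s) :
    dd (u + 1) v * gW s * (dd (u + 1) v)⁻¹ = dd u v * gW s * (dd u v)⁻¹ := by
  split_ifs at h with hu
  · rw [nrr_dd_x (t := vx1) (by decide) (by decide) (nrr_succ_even hu), nrr_cj (nrr_cm h)]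
  · rw [nrr_dd_x (t := vx0) (by decide) (by decide) (nrr_succ_odd hu), nrr_cj (nrr_cm h)]

/-- Crossing the horizontal wall. -/
lemma nrr_step_y (u v : ℤ) {s : V} (h : L11.Adj (if v % 2 = 0 then vyh else vy0) s) :
    dd u (v + 1) * gW s * (dd u (v + 1))⁻¹ = dd u v * gW s * (dd u v)⁻¹ := by
  split_ifs at h with hv
  · rw [nrr_dd_y (t := vyh) (nrr_succ_even hv), nrr_cj (nrr_cm h)]
  · rw [nrr_dd_y (t := vy0) (nrr_succ_odd hv), nrr_cj (nrr_cm h)]

lemma nrr_six {s : V} (hs : s ∈ Six) :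
    s = va0 ∨ s = va1 ∨ s = vcB ∨ s = vcL ∨ s = vcR ∨ s = vw := by
  simpa [Six] using hs

lemma nrr_XY {s : V} (hs : s ∈ XY) : s = vx0 ∨ s = vx1 ∨ s = vy0 ∨ s = vyh := by
  simpa [XY] using hs

lemma nrr_typ_pos (u v : ℤ) {s : V} (hs : s ∈ Six) : typ (pos u v s) = s := by
  rcases nrr_six hs with rfl | rfl | rfl | rfl | rfl | rfl <;>
  · simp +decide only [typ, pos, base, if_true, if_false]
    split_ifs <;> first | rfl | omega

lemma nrr_pos1 (u v : ℤ) {s : V} (hs : s ∈ Six) : (pos u v s).1 / 2 = u ∨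
    ((pos u v s).1 / 2 = u + 1 ∧ L11.Adj (if u % 2 = 0 then vx1 else vx0) s) := by
  rcases nrr_six hs with rfl | rfl | rfl | rfl | rfl | rfl <;>
  · simp +decide only [pos, base, if_true, if_false]
    split_ifs <;> first | (left; omega) | (right; exact ⟨by omega, by decide⟩)

lemma nrr_pos2 (u v : ℤ) {s : V} (hs : s ∈ Six) : (pos u v s).2 = v ∨
    ((pos u v s).2 = v + 1 ∧ L11.Adj (if v % 2 = 0 then vyh else vy0) s) := by
  rcases nrr_six hs with rfl | rfl | rfl | rfl | rfl | rfl <;>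
  · simp +decide only [pos, base, if_true, if_false]
    split_ifs <;> first | (left; omega) | (right; exact ⟨by omega, by decide⟩)

theorem dd_conj (u v : ℤ) {s : V} (hs : s ∈ Six) :
    dd u v * gW s * (dd u v)⁻¹ = rr (pos u v s) := by
  rw [rr, nrr_typ_pos u v hs]
  rcases nrr_pos1 u v hs with h1 | ⟨h1, a1⟩ <;> rcases nrr_pos2 u v hs with h2 | ⟨h2, a2⟩ <;>
    rw [h1, h2]
  · rw [nrr_step_y u v a2]
  · rw [nrr_step_x u v a1]
  · rw [nrr_step_y _ v a2, nrr_step_x u v a1]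

theorem rr_sq (P : ℤ × ℤ) : rr P * rr P = 1 := by
  rw [rr, conj_mul, gn_sq]; simp

theorem typ_mem (P : ℤ × ℤ) : typ P ∈ Six := by
  unfold typ
  split_ifs <;> decide

lemma nrr_pos_typ {u v : ℤ} {P : ℤ × ℤ} (h1 : 2 * u ≤ P.1) (h2 : P.1 ≤ 2 * u + 2) (h3 : v ≤ P.2)
    (h4 : P.2 ≤ v + 1) : pos u v (typ P) = P := by
  obtain ⟨x, y⟩ := P
  simp only at h1 h2 h3 h4
  unfold typ
  split_ifs <;>
  · simp +decide only [pos, base, if_true, if_false, Prod.mk.injEq] at *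
    split_ifs <;> omega

lemma nrr_rr {u v : ℤ} {P : ℤ × ℤ} (h1 : 2 * u ≤ P.1) (h2 : P.1 ≤ 2 * u + 2) (h3 : v ≤ P.2)
    (h4 : P.2 ≤ v + 1) : rr P = dd u v * gW (typ P) * (dd u v)⁻¹ := by
  rw [dd_conj u v (typ_mem P), nrr_pos_typ h1 h2 h3 h4]

lemma nrr_pos_self (P : ℤ × ℤ) : pos (P.1 / 2) P.2 (typ P) = P :=
  nrr_pos_typ (by omega) (by omega) le_rfl (by omega)

lemma nrr_adj {P R : ℤ × ℤ} (h : plane.Adj P R) :
    ((P.1 = R.1 ∧ (P.2 = R.2 + 1 ∨ R.2 = P.2 + 1)) ∨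
      (P.2 = R.2 ∧ (P.1 = R.1 + 1 ∨ R.1 = P.1 + 1))) ∨
    ((P.1 = R.1 + 1 ∨ R.1 = P.1 + 1) ∧ (P.2 = R.2 + 1 ∨ R.2 = P.2 + 1) ∧ (P.1 + P.2) % 2 = 0) := by
  change _ ∨ _ at h
  rcases abs_cases (P.1 - R.1) with h1 | h1 <;> rcases abs_cases (P.2 - R.2) with h2 | h2 <;> omega

lemma nrr_typ_adj {P R : ℤ × ℤ} (h : plane.Adj P R) : L11.Adj (typ P) (typ R) := by
  have := nrr_adj h
  unfold typ
  split_ifs <;> first | decide | omega

theorem rr_cm {P R : ℤ × ℤ} (h : plane.Adj P R) : rr P * rr R = rr R * rr P := by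
  have := nrr_adj h
  rw [nrr_rr (P := P) (u := min P.1 R.1 / 2) (v := min P.2 R.2) (by omega) (by omega) (by omega)
    (by omega), nrr_rr (P := R) (u := min P.1 R.1 / 2) (v := min P.2 R.2) (by omega) (by omega)
    (by omega) (by omega), conj_mul, conj_mul, (nrr_cm (nrr_typ_adj h)).eq]

lemma nrr_dd_zero : dd 0 0 = 1 := by simp [dd, xw, yw]

theorem rr_base {s : V} (hs : s ∈ Six) : rr (base s) = gW s := by
  have := dd_conj 0 0 hs
  rw [nrr_dd_zero] at this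
  simpa [pos] using this.symm

lemma nrr_left_x {t : V} {u u' : ℤ} (h : gW t * xw u = xw u') (v : ℤ) :
    gW t * dd u v = dd u' v := by
  rw [dd, dd, ← mul_assoc, h]

lemma nrr_left_y {t : V} (h1 : L11.Adj vx1 t) (h0 : L11.Adj vx0 t) {v v' : ℤ}
    (h : gW t * yw v = yw v') (u : ℤ) : gW t * dd u v = dd u v' := by
  rw [dd, dd, ← mul_assoc, ← (nrr_xw_cm h1 h0 u).eq, mul_assoc, h]

lemma nrr_mir {t s : V} {u v u' v' : ℤ} (hs : s ∈ Six) (h : gW t * dd u v = dd u' v') :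
    gW t * (dd u v * gW s * (dd u v)⁻¹) * gW t = rr (pos u' v' s) := by
  rw [← dd_conj _ _ hs, ← h, _root_.mul_inv_rev, gn_inv]
  simp only [mul_assoc]

theorem rr_mir {t : V} (ht : t ∈ XY) (P : ℤ × ℤ) : gW t * rr P * gW t = rr (mir t P) := by
  have e := nrr_pos_self P
  have hs := typ_mem P
  rw [rr]
  generalize typ P = s at *
  generalize P.1 / 2 = u at *
  generalize hv : P.2 = v at *
  clear hv
  subst e
  rcases nrr_XY ht with rfl | rfl | rfl | rfl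
  · rw [nrr_mir hs (nrr_left_x (nrr_b_mul (gn_sq _ _) (gn_sq _ _) u) v)]
    simp +decide only [mir, pos, if_true, if_false]
    congr 2
    split_ifs <;> omega
  · rw [nrr_mir hs (nrr_left_x (nrr_a_mul (gn_sq _ _) (gn_sq _ _) u) v)]
    simp +decide only [mir, pos, if_true, if_false]
    congr 2
    split_ifs <;> omega
  · rw [nrr_mir hs (nrr_left_y (by decide) (by decide) (nrr_b_mul (gn_sq _ _) (gn_sq _ _) v) u)]
    simp +decide only [mir, pos, if_true, if_false]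
    congr 2
    split_ifs <;> omega
  · rw [nrr_mir hs (nrr_left_y (by decide) (by decide) (nrr_a_mul (gn_sq _ _) (gn_sq _ _) v) u)]
    simp +decide only [mir, pos, if_true, if_false]
    congr 2
    split_ifs <;> omega

theorem dd_even (a b : ℤ) :
    dd (2 * a) (2 * b) = (gW vx1 * gW vx0) ^ a * (gW vyh * gW vy0) ^ b := by
  rw [dd, nrr_xw, nrr_yw, nrr_even, nrr_even]

theorem dd_add (a b u v : ℤ) : dd (2 * a + u) (2 * b + v) = dd (2 * a) (2 * b) * dd u v := by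
  have h1 : xw (2 * a + u) = xw (2 * a) * xw u := by rw [nrr_xw, nrr_add, nrr_xw, nrr_even]; rfl
  have h2 : yw (2 * b + v) = yw (2 * b) * yw v := by rw [nrr_yw, nrr_add, nrr_yw, nrr_even]; rfl
  rw [dd, dd, dd, h1, h2, (nrr_xy u (2 * b)).mul_mul_mul_comm]

theorem rr_shift (a b : ℤ) (P : ℤ × ℤ) :
    dd (2 * a) (2 * b) * rr P * (dd (2 * a) (2 * b))⁻¹ = rr (P.1 + 4 * a, P.2 + 2 * b) := by
  have e : typ (P.1 + 4 * a, P.2 + 2 * b) = typ P := by
    have h1 : (P.1 + 4 * a) % 4 = P.1 % 4 := by omega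
    have h2 : (P.2 + 2 * b) % 2 = P.2 % 2 := by omega
    simp only [typ, h1, h2]
  have h1 : (P.1 + 4 * a) / 2 = 2 * a + P.1 / 2 := by omega
  rw [rr, rr, e]
  simp only [h1, add_comm P.2, dd_add, _root_.mul_inv_rev, mul_assoc]

theorem dd_mul {t : V} (ht : t ∈ XY) (u v : ℤ) : ∃ u' v', dd u v * gW t = dd u' v' := by
  rcases nrr_XY ht with rfl | rfl | rfl | rfl
  · obtain ⟨u', h⟩ := nrr_mul_b (a := gW vx1) (gn_sq L11 vx0) u
    exact ⟨u', v, (nrr_dd_x (by decide) (by decide) h.symm v).symm⟩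
  · obtain ⟨u', h⟩ := nrr_mul_a (b := gW vx0) (gn_sq L11 vx1) u
    exact ⟨u', v, (nrr_dd_x (by decide) (by decide) h.symm v).symm⟩
  · obtain ⟨v', h⟩ := nrr_mul_b (a := gW vyh) (gn_sq L11 vy0) v
    exact ⟨u, v', (nrr_dd_y h.symm u).symm⟩
  · obtain ⟨v', h⟩ := nrr_mul_a (b := gW vy0) (gn_sq L11 vyh) v
    exact ⟨u, v', (nrr_dd_y h.symm u).symm⟩

theorem mem_dd {d : W} : d ∈ Subgroup.closure (gW '' (XY : Set V)) ↔ ∃ u v, d = dd u v := by
  constructor
  · intro h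
    rw [Set.image_eq_range] at h
    refine ind_right (P := fun d => ∃ u v, d = dd u v) (fun s => gn_sq L11 s.1)
      ⟨0, 0, nrr_dd_zero.symm⟩ ?_ h
    rintro _ s ⟨u, v, rfl⟩
    exact dd_mul s.2 u v
  · rintro ⟨u, v, rfl⟩
    have k : ∀ s ∈ XY, gW s ∈ Subgroup.closure (gW '' (XY : Set V)) := fun s hs =>
      Subgroup.subset_closure ⟨s, hs, rfl⟩
    exact Subgroup.mul_mem _ (nrr_mem (k _ (by decide)) (k _ (by decide)) u)
      (nrr_mem (k _ (by decide)) (k _ (by decide)) v)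

theorem dd_z (u v : ℤ) : Commute (dd u v) (gW vz) :=
  (nrr_xw_cm (by decide) (by decide) u).mul_left (nrr_yw_cm (by decide) (by decide) v)

theorem par_rr (P : ℤ × ℤ) : par L11 (rr P) = Pi.single (typ P) 1 := by
  rw [← par_gn L11, rr]
  simp [par]

theorem normal_form (g : W) : ∃ (l : List ((ℤ × ℤ) × Bool)) (u v : ℤ) (e : Bool),
    g = (l.map fun x => if x.2 then gW vz * rr x.1 * gW vz else rr x.1).prod * dd u v *
      if e then gW vz else 1 := by
  induction g using RA.ind with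
  | h1 => exact ⟨[], 0, 0, false, by simp [nrr_dd_zero]⟩
  | hs w s ih =>
    obtain ⟨l, u, v, e, rfl⟩ := ih
    have hz := gn_sq L11 vz
    have h3 : ∀ s : V, s = vz ∨ s ∈ XY ∨ s ∈ Six := by decide
    rcases h3 s with rfl | hs | hs
    · refine ⟨l, u, v, !e, ?_⟩
      cases e <;> simp [mul_assoc, hz]
    · obtain ⟨u', v', h⟩ := dd_mul hs u v
      have h4 : ∀ s ∈ XY, L11.Adj vz s := by decide
      refine ⟨l, u', v', e, ?_⟩
      rw [← h]
      cases e <;> simp [mul_assoc, (nrr_cm (h4 s hs)).eq]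
    · refine ⟨l ++ [(pos u v s, e)], u, v, e, ?_⟩
      have hc := (dd_z u v).eq
      have hz' : ∀ x, gW vz * (gW vz * x) = x := fun x => by rw [← mul_assoc, hz, one_mul]
      have hc' : ∀ x, gW vz * (dd u v * x) = dd u v * (gW vz * x) := fun x => by
        rw [← mul_assoc, ← hc, mul_assoc]
      cases e <;> simp [← dd_conj u v hs, mul_assoc, hz, hc']

end

end Pool.Agent.Lib.MP_b65ff2_gt
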