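import Pool.Agent.Lib.MP_b65ff2_gt.Hil
import Pool.Agent.Lib.MP_b65ff2_gt.Core

namespace Pool.Agent.Lib.MP_b65ff2_gt

open Matrix MonoidAlgebra Finset Filter Topology
open Polynomial (aeval)

set_option linter.unusedSectionVars false

noncomputable section

variable {G K : Type} [Group G] [Fintype K] [DecidableEq K]

lemma mq_id (x : QG G) : mq (MonoidHom.id G) x = x := by
  ext g; exact coeff_mq_inj (f := MonoidHom.id G) Function.injective_id x g

lemma exists_op (M : Matrix K K (QG G)) :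
    ∃ E : L2 (G × K) →L[ℂ] L2 (G × K), ∀ y z, E (delta z) y = (rep M y z : ℂ) := by
  obtain ⟨c, hc, h⟩ := exists_rc M
  have := h G (MonoidHom.id G)
  rw [show M.map (mq (MonoidHom.id G)) = M from Matrix.ext fun i j => mq_id _] at this
  have n : ∀ q : ℚ, ‖(q : ℂ)‖ = ((|q| : ℚ) : ℝ) := fun q => by simp
  refine schur _ c (by positivity) (fun y s => ?_) fun y s => ?_
  · simp only [n]; exact_mod_cast this.1 y s
  · simp only [n]; exact_mod_cast this.2 y s

def opx (M : Matrix K K (QG G)) : L2 (G × K) →L[ℂ] L2 (G × K) := (exists_op M).choose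

lemma opx_delta (M : Matrix K K (QG G)) (y z : G × K) : opx M (delta z) y = (rep M y z : ℂ) :=
  (exists_op M).choose_spec y z

lemma opx_eq {M : Matrix K K (QG G)} {E : L2 (G × K) →L[ℂ] L2 (G × K)}
    (h : ∀ y z, E (delta z) y = (rep M y z : ℂ)) : opx M = E :=
  ext_delta fun z => lp.ext (funext fun y => by rw [opx_delta, h])

lemma opx_expand (N : Matrix K K (QG G)) (z : G × K) : opx N (delta z) =
    ∑ j, ∑ g ∈ (N j z.2).coeff.support, ((N j z.2).coeff g : ℂ) • delta (z.1 * g⁻¹, j) := by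
  classical
  refine lp.ext (funext fun y => ?_)
  have : ∀ g, y.1 = z.1 * g⁻¹ ↔ y.1⁻¹ * z.1 = g := fun g => by
    rw [eq_mul_inv_iff_mul_eq, inv_mul_eq_iff_eq_mul, eq_comm]
  simp only [opx_delta, lp.coeFn_sum, Finset.sum_apply, lp.coeFn_smul, Pi.smul_apply, delta_apply,
    rep_apply, Prod.ext_iff, this, smul_eq_mul, mul_ite, mul_one, mul_zero]
  rw [sum_eq_single y.2 (fun j _ h => by simp [Ne.symm h]) (by simp)]
  by_cases e : (N y.2 z.2).coeff (y.1⁻¹ * z.1) = 0 <;> simp [e]

def Phi (G K : Type) [Group G] [Fintype K] [DecidableEq K] :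
    Matrix K K (QG G) →+* (L2 (G × K) →L[ℂ] L2 (G × K)) where
  toFun := opx
  map_zero' := opx_eq fun y z => by simp [rep_apply]
  map_add' M N := opx_eq fun y z => by simp [rep_apply, opx_delta]
  map_one' := opx_eq fun y z => by
    classical
    by_cases e : y.2 = z.2 <;>
      simp [rep_apply, delta_apply, one_apply, e, Prod.ext_iff, one_def, Finsupp.single_apply,
        eq_inv_mul_iff_mul_eq, apply_ite (Rat.cast : ℚ → ℂ)]
  map_mul' M N := opx_eq fun y z => by
    rw [mul_apply_eq_comp, opx_expand]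
    simp only [map_sum, map_smul, lp.coeFn_sum, Finset.sum_apply, lp.coeFn_smul, Pi.smul_apply,
      opx_delta]
    simp [rep_apply, Matrix.mul_apply, coeff_mul_apply_right, Finsupp.sum, mul_assoc, mul_comm]

lemma Phi_delta (M : Matrix K K (QG G)) (y z : G × K) : Phi G K M (delta z) y = (rep M y z : ℂ) :=
  opx_delta M y z

lemma Phi_smul (q : ℚ) (M : Matrix K K (QG G)) : Phi G K (q • M) = (q : ℂ) • Phi G K M :=
  opx_eq fun y z => by simp [rep_apply, Phi_delta]

lemma Phi_star (M : Matrix K K (QG G)) : Phi G K Mᴴ = (Phi G K M).adjoint :=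
  opx_eq fun y z => by
    rw [← inner_delta, ContinuousLinearMap.adjoint_inner_right, ← inner_conj_symm, inner_delta,
      Phi_delta, rep_star]
    simp

lemma Phi_lap (d : Matrix K K (QG G)) : Phi G K (Lap d) = lap (Phi G K d) := by
  rw [Lap, map_add, map_mul, map_mul, Phi_star]; rfl

lemma norm_Phi (M : Matrix K K (QG G)) (x : G × K) :
    ‖Phi G K M (delta x)‖ ^ 2 = ((Mᴴ * M) x.2 x.2).coeff 1 := by
  have := ContinuousLinearMap.adjoint_inner_right (Phi G K M) (delta x) (Phi G K M (delta x))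
  rw [← Phi_star, ← mul_apply_eq_comp, ← map_mul, inner_delta, Phi_delta, rep_apply,
    inv_mul_cancel, inner_self_eq_norm_sq_to_K] at this
  exact Complex.ofReal_injective (by push_cast; exact this.symm)

lemma aeval_star {L : Matrix K K (QG G)} (s : Lᴴ = L) (g : Polynomial ℚ) :
    (aeval L g)ᴴ = aeval L g := by
  induction g using Polynomial.induction_on' with
  | add p q hp hq => rw [map_add, conjTranspose_add, hp, hq]
  | monomial n a =>
    rw [Polynomial.aeval_monomial, ← Algebra.smul_def, conjTranspose_smul, conjTranspose_pow, s,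
      star_trivial]

lemma aeval_eq {A : Type} [Ring A] [Algebra ℚ A] (L : A) {g : Polynomial ℚ} (h : g.eval 0 = 1) :
    aeval L g = L * aeval L g.divX + 1 ∧ aeval L g = aeval L g.divX * L + 1 := by
  rw [← Polynomial.coeff_zero_eq_eval_zero] at h
  constructor
  · conv_lhs => rw [← g.X_mul_divX_add, h]
    simp
  · conv_lhs => rw [← g.divX_mul_X_add, h]
    simp

def Dec (L : Matrix K K (QG G)) : Prop :=
  ∀ δ : ℚ, 0 < δ → ∃ g : Polynomial ℚ, g.eval 0 = 1 ∧ ∀ i, (aeval L (g * g) i i).coeff 1 ≤ δ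

lemma sq_nonneg' {L : Matrix K K (QG G)} (s : Lᴴ = L) (g : Polynomial ℚ) (i : K) :
    0 ≤ (aeval L (g * g) i i).coeff 1 := by
  rw [map_mul]
  nth_rewrite 2 [← aeval_star s g]
  exact diag_nonneg _ i

theorem dec_of_inj {d : Matrix K K (QG G)} (h : Function.Injective (Phi G K (Lap d))) :
    Dec (Lap d) := by
  intro δ hδ
  obtain ⟨c, hc⟩ := exists_nat_gt ‖Phi G K (Lap d)‖
  have c0 : (0 : ℝ) < c := (norm_nonneg _).trans_lt hc
  have e := fun i : K => ergodic (by rw [Phi_lap]; exact lap_pos _) h hc.le c0 (delta ((1 : G), i))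
  obtain ⟨n, hn, hn'⟩ := ((eventually_gt_atTop 0).and (eventually_all.2 fun i =>
    ((e i).norm.pow 2).eventually (gt_mem_nhds (show ‖(0 : L2 (G × K))‖ ^ 2 < (δ : ℝ) by
      simpa)))).exists
  refine ⟨(n : ℚ)⁻¹ • ∑ k ∈ range n, (1 - (c : ℚ)⁻¹ • Polynomial.X) ^ k, by
    simp [Polynomial.eval_finsetSum, hn.ne'], fun i => ?_⟩
  rw [map_mul]
  nth_rewrite 1 [← aeval_star (Lap_star d)]
  have := hn' i
  rw [← Rat.cast_le (K := ℝ), ← norm_Phi _ (1, i)]
  refine le_of_eq_of_le ?_ this.le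
  simp [Phi_smul]

theorem Dec.inj {L : Matrix K K (QG G)} (s : Lᴴ = L) (h : Dec L) {v : L2 (G × K)}
    (hv : Phi G K L v = 0) : v = 0 := by
  refine lp.ext (funext fun x => ?_)
  have : ∀ δ : ℚ, 0 < δ → ‖v x‖ ^ 2 ≤ δ * ‖v‖ ^ 2 := fun δ hδ => by
    obtain ⟨g, g0, hg⟩ := h δ hδ
    have e : Phi G K (aeval L g) v = v := by rw [(aeval_eq L g0).2]; simp [hv]
    have n := norm_Phi (aeval L g) x
    rw [aeval_star s, ← map_mul] at n
    rw [← inner_delta]
    nth_rewrite 1 [← e]
    rw [← ContinuousLinearMap.adjoint_inner_left, ← Phi_star, aeval_star s]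
    refine (pow_le_pow_left₀ (norm_nonneg _) (norm_inner_le_norm _ _) 2).trans ?_
    rw [mul_pow, n]
    exact mul_le_mul_of_nonneg_right (by exact_mod_cast hg _) (by positivity)
  by_contra h0
  have p : 0 < ‖v x‖ ^ 2 := by positivity [show v x ≠ 0 from h0]
  obtain ⟨δ, d0, d1⟩ := exists_rat_btwn (show 0 < ‖v x‖ ^ 2 / (‖v‖ ^ 2 + 1) by positivity)
  rw [lt_div_iff₀ (by positivity)] at d1
  nlinarith [this δ (by exact_mod_cast d0)]

theorem Dec.euler {deg : K → ℕ} {d : Matrix K K (QG G)} (hd : IsCx deg d) (h : Dec (Lap d)) :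
    ∑ i, (-1 : ℚ) ^ deg i = 0 := by
  refine abs_nonpos_iff.1 (le_of_forall_pos_le_add fun δ hδ => ?_)
  obtain ⟨g, g0, hg⟩ := h (δ / (Fintype.card K + 1)) (by positivity)
  have := hd.tau_aeval (g * g)
  rw [Polynomial.eval_mul, g0, one_mul, one_mul] at this
  rw [← this, tau_apply]
  refine (abs_sum_le_sum_abs _ _).trans ((sum_le_card_nsmul _ _ (δ / (Fintype.card K + 1))
    fun i _ => ?_).trans ?_)
  · have := sq_nonneg' (Lap_star d) g i
    rw [sg, diagonal_mul]
    cases Nat.even_or_odd (deg i) with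
    | inl e => simpa [e.neg_one_pow, abs_of_nonneg this, -map_mul] using hg i
    | inr e => simpa [e.neg_one_pow, abs_of_nonneg this, -map_mul] using hg i
  · rw [card_univ, nsmul_eq_mul, zero_add, ← mul_div_assoc, div_le_iff₀ (by positivity)]
    nlinarith

section
variable {G1 G2 H I J : Type} [Group G1] [Group G2] [Group H] [Fintype I] [DecidableEq I]
  [Fintype J] [DecidableEq J]

lemma Dec.i1 {f : G1 →* H} (hf : Function.Injective f) {L : Matrix I I (QG G1)} (h : Dec L) :
    Dec (i1 J f L) := fun δ hδ => by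
  obtain ⟨g, g0, hg⟩ := h δ hδ
  refine ⟨g, g0, fun x => ?_⟩
  rw [Polynomial.aeval_algHom_apply, i1_apply, if_pos rfl, ← map_one f, coeff_mq_inj hf]
  exact hg _

theorem inj_pd {f1 : G1 →* H} {f2 : G2 →* H} (hc : ∀ x y, Commute (f1 x) (f2 y))
    (hf : Function.Injective f1) {d1 : I → ℕ} {a : Matrix I I (QG G1)} (b : Matrix J J (QG G2))
    (ha : IsCx d1 a) (h : Dec (Lap a)) : Function.Injective (Phi H _ (Lap (pd f1 f2 d1 a b))) := by
  refine (injective_iff_map_eq_zero _).2 fun v hv => ?_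
  have e : i1 J f1 (Lap a) = Lap (i1 J f1 a) := by simp [Lap, i1_star]
  rw [lap_pd hc ha, ← lap_d2 hc (d1 := d1), e, map_add, Phi_lap, Phi_lap] at hv
  refine (h.i1 (J := J) hf).inj (by rw [← i1_star, Lap_star]) ?_
  rw [e, Phi_lap]
  exact lap_zero hv

end

end

end Pool.Agent.Lib.MP_b65ff2_gt
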