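import Pool.Agent.Lib.MP_b65ff2_gt.Height

namespace Pool.Agent.Lib.MP_b65ff2_gt

open Matrix Polynomial

set_option linter.unusedSectionVars false

noncomputable section

variable {Ω Ω' ι ι' : Type} [Fintype Ω] [Fintype Ω'] [Fintype ι] [Fintype ι']

lemma tc_X_pow (k : ℕ) : (X ^ k : ℝ[X]).trailingCoeff = 1 := by
  simp [trailingCoeff, natTrailingDegree_X_pow]

lemma log_tc (lam : Ω → ℝ) (s : Finset Ω) :
    (∏ i ∈ s, (X - C (lam i))).trailingCoeff ≠ 0 ∧
      Real.log (∏ i ∈ s, (X - C (lam i))).trailingCoeff = ∑ i ∈ s, Real.log (lam i) := by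
  classical
  have h1 : ∀ a : ℝ, (X - C a).trailingCoeff ≠ 0 ∧ Real.log (X - C a).trailingCoeff = Real.log a := by
    intro a
    by_cases ha : a = 0
    · have := tc_X_pow 1
      rw [pow_one] at this
      simp [ha, this]
    · rw [trailingCoeff_eq_coeff_zero (by simpa)]
      simp [ha]
  induction s using Finset.induction_on with
  | empty =>
    have := tc_X_pow 0
    rw [pow_zero] at this
    simp [this]
  | insert a s ha ih =>
    rw [Finset.prod_insert ha, Finset.sum_insert ha, trailingCoeff_mul,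
      Real.log_mul (h1 _).1 ih.1, ih.2, (h1 _).2]
    exact ⟨mul_ne_zero (h1 _).1 ih.1, rfl⟩

lemma eig_le [DecidableEq Ω] {A : Matrix Ω Ω ℝ} (hA : A.IsHermitian) {k : ℝ}
    (h : (k • (1 : Matrix Ω Ω ℝ) - A).PosSemidef) (i : Ω) : hA.eigenvalues i ≤ k := by
  have := h.dotProduct_mulVec_nonneg (hA.eigenvectorBasis i)
  rw [sub_mulVec, smul_mulVec, one_mulVec, hA.mulVec_eigenvectorBasis, dotProduct_sub,
    dotProduct_smul, dotProduct_smul] at this
  have n : star (hA.eigenvectorBasis i).ofLp ⬝ᵥ (hA.eigenvectorBasis i).ofLp = 1 := by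
    rw [dotProduct_comm, ← EuclideanSpace.inner_eq_star_dotProduct, real_inner_self_eq_norm_sq,
      hA.eigenvectorBasis.orthonormal.1]
    simp
  rw [n] at this
  simpa using this

lemma trace_pow_eq [DecidableEq Ω] {A : Matrix Ω Ω ℝ} (hA : A.IsHermitian) (k : ℕ) :
    (A ^ k).trace = ∑ i, hA.eigenvalues i ^ k := by
  conv_lhs => rw [hA.spectral_theorem, ← map_pow, Unitary.conjStarAlgAut_apply, trace_mul_cycle,
    Unitary.coe_star_mul_self, one_mul, diagonal_pow, trace_diagonal]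
  simp

theorem spec [DecidableEq Ω] (M : Matrix Ω Ω' ℚ) : ∃ lam : Ω → ℝ, (∀ i, 0 ≤ lam i) ∧
    (∀ k : ℕ, (((M * Mᵀ) ^ k).trace : ℝ) = ∑ i, lam i ^ k) ∧
    ∑ i, Real.log (lam i) =
      Real.log (cov (mp M.vecMulLinear (Lam Ω))) + ht (LinearMap.ker M.vecMulLinear) ∧
    ∀ k : ℚ, (∀ x, (x ᵥ* M) ⬝ᵥ (x ᵥ* M) ≤ k * (x ⬝ᵥ x)) → ∀ i, lam i ≤ k := by
  have hS : ((M * Mᵀ).map (Rat.castHom ℝ)).PosSemidef :=
    psd_cast (by simp) fun c => by rw [dot_self_vecMul]; exact dotProduct_self_nonneg _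
  refine ⟨hS.1.eigenvalues, hS.eigenvalues_nonneg, fun k => ?_, ?_, fun k hk => eig_le hS.1 ?_⟩
  · rw [← trace_pow_eq, ← RingHom.mapMatrix_apply, ← map_pow, RingHom.mapMatrix_apply,
      ← AddMonoidHom.map_trace]
    rfl
  · obtain ⟨r, T, R, hR, f1, f2, f3⟩ := key fg_Lam M.vecMulLinear
    have iT : Ind T := fun c hc => hR.1 c (by rw [← f1, hc, map_zero])
    have eR : R = T * M := vecMul_ext fun c => by rw [← f1, ← vecMul_vecMul]; rfl
    change ∀ c, ∀ x ∈ sp (lat _), _ at f2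
    rw [sp_lat] at f2
    have e : pr T * M = M := vecMul_ext fun x => by
      obtain ⟨c, hc⟩ := (hR.mem_sp (x ᵥ* M)).1 (by rw [sp_mp, sp_Lam]; exact ⟨x, trivial, rfl⟩)
      have h1 : (x - c ᵥ* T) ᵥ* Tᵀ = 0 := by
        have := f2 ((x - c ᵥ* T) ᵥ* Tᵀ) (x - c ᵥ* T) (by
          rw [LinearMap.mem_ker, map_sub, f1, ← hc]; exact sub_self _)
        rwa [dot_vecMul, dotProduct_self_eq_zero] at this
      have h2 : (x - c ᵥ* T) ᵥ* pr T = 0 := by rw [pr, ← vecMul_vecMul, h1, zero_vecMul]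
      rw [sub_vecMul, vecMul_vecMul, mul_pr iT, sub_eq_zero] at h2
      rw [← vecMul_vecMul, h2, hc, eR, vecMul_vecMul]
    have c1 := charpoly_mul_comm' Tᵀ ((T * Tᵀ)⁻¹ * T * (M * Mᵀ))
    have e1 : Tᵀ * ((T * Tᵀ)⁻¹ * T * (M * Mᵀ)) = M * Mᵀ := by
      rw [← Matrix.mul_assoc, ← pr, ← Matrix.mul_assoc, e]
    have e2 : ((T * Tᵀ)⁻¹ * T * (M * Mᵀ) * Tᵀ).det = (gram T)⁻¹ * gram R := by
      rw [gram, gram, eR, transpose_mul, ← Ring.inverse_eq_inv', ← det_nonsing_inv, ← det_mul]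
      simp [Matrix.mul_assoc]
    rw [e1] at c1
    rw [cov_Lam] at f3
    have e3 : (gram T)⁻¹ = cov (lat (LinearMap.ker M.vecMulLinear)) :=
      (eq_inv_of_mul_eq_one_left f3.symm).symm
    rw [det_eq_sign_charpoly_coeff, e3, ← hR.cov_eq] at e2
    set q := ((T * Tᵀ)⁻¹ * T * (M * Mᵀ) * Tᵀ).charpoly
    have p1 := cov_pos' (lat (LinearMap.ker M.vecMulLinear))
    have p2 := cov_pos' (mp M.vecMulLinear (Lam Ω))
    have e4 := congrArg (fun a : ℚ => |(a : ℝ)|) e2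
    simp only [Rat.cast_mul, abs_mul, Rat.cast_pow, Rat.cast_neg, Rat.cast_one, abs_pow, abs_neg,
      abs_one, one_pow, one_mul, abs_of_pos p1, abs_of_pos p2] at e4
    have c2 := congrArg (fun p : ℚ[X] => (p.map (Rat.castHom ℝ)).trailingCoeff) c1
    have q0 : (q.map (Rat.castHom ℝ)).coeff 0 = (q.coeff 0 : ℝ) := by simp
    simp only [Polynomial.map_mul, Polynomial.map_pow, map_X, trailingCoeff_mul, tc_X_pow,
      one_mul] at c2
    rw [← charpoly_map, hS.1.charpoly_eq, trailingCoeff_eq_coeff_zero (p := q.map _) (by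
      rw [q0, ← abs_pos, e4]; positivity), q0] at c2
    rw [← (log_tc _ _).2]
    simp only [RCLike.ofReal_real_eq_id, id] at c2
    rw [c2, ← Real.log_abs, e4, Real.log_mul p1.ne' p2.ne', add_comm, ht]
  · have := psd_cast (M := k • (1 : Matrix Ω Ω ℚ) - M * Mᵀ) (by simp) fun c => by
      rw [vecMul_sub, sub_dotProduct, vecMul_smul, smul_dotProduct, dot_self_vecMul, vecMul_one]
      exact sub_nonneg.2 (hk c)
    convert this using 1
    ext i j
    simp [one_apply]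
    split_ifs <;> simp

lemma card_tors {E : Type} [AddCommGroup E] (Z B S : Submodule ℤ E) (hle : B ≤ Z)
    (hs : ∀ (m : ℤ) x, m ≠ 0 → m • x ∈ Z → x ∈ Z)
    (hS : ∀ x, x ∈ S ↔ ∃ m : ℤ, m ≠ 0 ∧ m • x ∈ B) :
    B.toAddSubgroup.relIndex S.toAddSubgroup =
      Nat.card (Submodule.torsion ℤ (Z ⧸ B.submoduleOf Z)) := by
  have sz : S ≤ Z := fun x hx => by
    obtain ⟨m, hm, h⟩ := (hS x).1 hx
    exact hs m x hm (hle h)
  let φ : S →ₗ[ℤ] Z ⧸ B.submoduleOf Z := (B.submoduleOf Z).mkQ ∘ₗ Submodule.inclusion sz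
  have k1 : φ.toAddMonoidHom.ker = B.toAddSubgroup.addSubgroupOf S.toAddSubgroup := by
    ext x
    exact Submodule.Quotient.mk_eq_zero _
  have k2 : LinearMap.range φ = Submodule.torsion ℤ _ := by
    ext y
    obtain ⟨y, rfl⟩ := Submodule.Quotient.mk_surjective _ y
    constructor
    · rintro ⟨x, hx⟩
      obtain ⟨m, hm, h⟩ := (hS x).1 x.2
      refine ⟨⟨m, mem_nonZeroDivisors_of_ne_zero hm⟩, ?_⟩
      rw [← hx]
      exact (Submodule.Quotient.mk_eq_zero _).2 h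
    · rintro ⟨m, hm⟩
      have : (m : ℤ) • y ∈ B.submoduleOf Z := (Submodule.Quotient.mk_eq_zero _).1 hm
      exact ⟨⟨y, (hS y).2 ⟨m, nonZeroDivisors.ne_zero m.2, this⟩⟩, rfl⟩
  rw [← k2, AddSubgroup.relIndex, ← k1]
  exact AddSubgroup.index_ker _

lemma relIndex_map {E F : Type} [AddCommGroup E] [AddCommGroup F] (j : E →ₗ[ℤ] F)
    (hj : Function.Injective j) (B S : Submodule ℤ E) :
    (B.map j).toAddSubgroup.relIndex (S.map j).toAddSubgroup =
      B.toAddSubgroup.relIndex S.toAddSubgroup := by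
  rw [Submodule.map_toAddSubgroup, Submodule.map_toAddSubgroup]
  exact AddSubgroup.relIndex_map_map_of_injective _ _ hj

theorem log_tors {E : Type} [AddCommGroup E] (j : E →ₗ[ℤ] (Ω → ℚ)) (hj : Function.Injective j)
    (hr : LinearMap.range j = Lam Ω) (Z B : Submodule ℤ E) (hle : B ≤ Z)
    (hs : ∀ (m : ℤ) x, m ≠ 0 → m • x ∈ Z → x ∈ Z) :
    2 * Real.log (Nat.card (Submodule.torsion ℤ (Z ⧸ B.submoduleOf Z))) =
      Real.log (cov (B.map j)) - ht (sp (B.map j)) := by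
  have l1 : B.map j ≤ Lam Ω := by rw [← hr]; exact LinearMap.map_le_range
  have l2 : B.map j ≤ lat (sp (B.map j)) := fun x hx => ⟨l1 hx, Submodule.subset_span hx⟩
  have e := cov_index (fg_lat _) l2 (sp_lat _).symm
  have hS : ∀ x, x ∈ (lat (sp (B.map j))).comap j ↔ ∃ m : ℤ, m ≠ 0 ∧ m • x ∈ B := fun x => by
    constructor
    · intro hx
      obtain ⟨r, T, hT⟩ := exists_isB (fg_Lam.of_le l1)
      obtain ⟨c, hc⟩ := (hT.mem_sp _).1 hx.2
      obtain ⟨d, hd, z, hz⟩ := exists_den c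
      obtain ⟨y, hy, e⟩ := (hT.2 _).2 ⟨z, rfl⟩
      refine ⟨d, by simpa, ?_⟩
      rw [← hz, smul_vecMul, ← hc] at e
      have : y = (d : ℤ) • x := hj (by rw [e, j.map_smul, natCast_zsmul, Nat.cast_smul_eq_nsmul])
      exact this ▸ hy
    · rintro ⟨m, hm, hx⟩
      refine ⟨by rw [← hr]; exact LinearMap.mem_range_self j x, ?_⟩
      have : j x = (m : ℚ)⁻¹ • j (m • x) := by
        rw [map_smul, ← Int.cast_smul_eq_zsmul ℚ, smul_smul, inv_mul_cancel₀ (by simpa), one_smul]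
      change j x ∈ sp _
      rw [this]
      exact Submodule.smul_mem _ _ (Submodule.subset_span ⟨_, hx, rfl⟩)
  have e3 := card_tors Z B _ hle hs hS
  have e1 : ((lat (sp (B.map j))).comap j).map j = lat (sp (B.map j)) :=
    Submodule.map_comap_eq_of_le (by rw [hr]; exact inf_le_left)
  have e2 := relIndex_map j hj B ((lat (sp (B.map j))).comap j)
  rw [e1] at e2
  rw [e2, e3] at e
  generalize Nat.card (Submodule.torsion ℤ (Z ⧸ B.submoduleOf Z)) = n at e ⊢
  have p := cov_pos (B.map j)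
  have p' := cov_pos' (lat (sp (B.map j)))
  have : (n : ℝ) ≠ 0 := fun h0 => by
    rw [Nat.cast_eq_zero] at h0
    rw [h0] at e; simp at e; linarith
  rw [ht, e]
  push_cast
  rw [Real.log_mul (by positivity) p'.ne', Real.log_pow]
  simp

end

end Pool.Agent.Lib.MP_b65ff2_gt
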