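import Pool.Agent.Lib.MP_b65ff2_gt.Alg

namespace Pool.Agent.Lib.MP_b65ff2_gt

open Matrix MonoidAlgebra Kronecker

set_option linter.unusedSectionVars false

noncomputable section

section
variable {A F : Type} [Ring A] [FunLike F A ℚ] [AddMonoidHomClass F A ℚ] {T : F}
  (hT : ∀ x y, T (x * y) = T (y * x)) {e d s : A}
include hT

lemma st0 (ed : e * d = -(d * e)) {X : A} (Xd : Commute X d) : T (e * X * (s * d + d * s)) = 0 := by
  have : d * (e * X * s) = -(e * X * (d * s)) := by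
    rw [← mul_assoc, ← mul_assoc, ← neg_neg (d * e), ← ed, mul_assoc e X, ← mul_assoc X, Xd.eq]
    noncomm_ring
  rw [mul_add, map_add, ← mul_assoc, hT _ d, this, map_neg, neg_add_cancel]

lemma st1 (ed : e * d = -(d * e)) (dd : d * d = 0) {a : A} (ad : Commute a d) (as : Commute a s)
    (k : ℕ) : ∀ X, Commute X d → T (e * X * (a + (s * d + d * s)) ^ k) = T (e * X * a ^ k) := by
  have c1 : Commute (s * d + d * s) d := by
    rw [Commute, SemiconjBy, add_mul, mul_add, mul_assoc, dd, ← mul_assoc d d, dd]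
    simp [mul_assoc]
  have c2 : Commute a (a + (s * d + d * s)) :=
    (Commute.refl a).add_right ((as.mul_right ad).add_right (ad.mul_right as))
  induction k with
  | zero => simp
  | succ k ih =>
    intro X hX
    have h0 := st0 hT (s := s) ed (hX.mul_left ((ad.add_left c1).pow_left k))
    rw [pow_succ, mul_add _ a, mul_add, map_add, ← (c2.pow_right k).eq, ← mul_assoc _ a,
      mul_assoc e X a, ih _ (hX.mul_left ad), pow_succ', ← mul_assoc (e * X) _ (s * d + d * s),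
      mul_assoc e X (_ ^ k), h0, add_zero]
    simp only [mul_assoc]

end

variable {G G1 G2 H I J K : Type} [Group G] [Group G1] [Group G2] [Group H] [Fintype I]
  [DecidableEq I] [Fintype J] [DecidableEq J] [Fintype K] [DecidableEq K]

def Lap {R : Type} [Ring R] [StarRing R] (d : Matrix K K R) : Matrix K K R := dᴴ * d + d * dᴴ

lemma Lap_star {R : Type} [Ring R] [StarRing R] (d : Matrix K K R) : (Lap d)ᴴ = Lap d := by
  simp [Lap]

def nm (R : Type) [Ring R] (deg : K → ℕ) : Matrix K K R := diagonal fun i => (deg i : R)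

section
variable {R : Type} [Ring R] {deg : K → ℕ} {d : Matrix K K R}

lemma IsCx.sg_mul (h : IsCx deg d) : sg R deg * d = -(d * sg R deg) := by
  ext i j
  rw [sg, Matrix.neg_apply, mul_diagonal, diagonal_mul]
  by_cases e : d i j = 0
  · simp [e]
  · rw [h.1 i j e, pow_succ, ← ((Commute.neg_one_left (d i j)).pow_left _).eq]; simp

lemma IsCx.mul_nm (h : IsCx deg d) : d * nm R deg = nm R deg * d - d := by
  ext i j
  rw [nm, Matrix.sub_apply, mul_diagonal, diagonal_mul]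
  by_cases e : d i j = 0
  · simp [e]
  · rw [h.1 i j e, ← (Nat.cast_commute _ _).eq]; simp [add_mul]

lemma sg_sg : sg R deg * sg R deg = 1 := by
  rw [sg, diagonal_mul_diagonal, ← diagonal_one]
  congr 1
  funext i
  rw [← pow_add, ← two_mul, pow_mul]; simp

lemma IsCx.map {S : Type} [Ring S] (h : IsCx deg d) (f : R →+* S) : IsCx deg (d.map f) :=
  ⟨fun i j e => h.1 i j fun h0 => e (by simp [h0]), by rw [← Matrix.map_mul, h.2]; simp⟩

lemma IsCx.of_map {S : Type} [Ring S] {f : R →+* S} (hf : Function.Injective f)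
    (h : IsCx deg (d.map f)) : IsCx deg d :=
  ⟨fun i j e => h.1 i j fun h0 => e (hf (by simpa using h0)),
    Matrix.map_injective hf (by have := h.2; rw [← Matrix.map_mul] at this; simpa)⟩

end

lemma sg_star (deg : K → ℕ) : (sg (QG G) deg)ᴴ = sg (QG G) deg := by
  rw [sg, diagonal_conjTranspose]; congr 1; funext i; simp

lemma coeff_sign (n : ℕ) : ((-1 : QG G) ^ n).coeff 1 = (-1) ^ n := by
  rcases neg_one_pow_eq_or (QG G) n with h | h <;> cases Nat.even_or_odd n with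
  | inl e => simp [e.neg_one_pow]
  | inr e => simp [e.neg_one_pow]

lemma tau_sg (deg : K → ℕ) : tau (sg (QG G) deg) = ∑ i, (-1) ^ deg i := by
  simp [tau_apply, sg, coeff_sign]

section
variable {deg : K → ℕ} {d : Matrix K K (QG G)}

lemma IsCx.tau_aeval (h : IsCx deg d) (g : Polynomial ℚ) :
    tau (sg _ deg * Polynomial.aeval (Lap d) g) = g.eval 0 * ∑ i, (-1) ^ deg i := by
  induction g using Polynomial.induction_on' with
  | add p q hp hq => simp [mul_add, add_mul, hp, hq]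
  | monomial n a =>
    have := st1 tau_comm (s := dᴴ) h.sg_mul h.2
      (Commute.zero_left _) (Commute.zero_left _) n 1 (Commute.one_left _)
    rw [Polynomial.aeval_monomial, ← Algebra.smul_def, mul_smul_comm, map_smul, ← tau_sg (G := G)]
    rw [zero_add, mul_one] at this
    rw [Lap, this]
    cases n <;> simp

lemma IsCx.tau_nm (h : IsCx deg d) (m : ℕ) :
    tau (sg _ deg * (d * dᴴ) ^ (m + 1)) = tau (sg _ deg * nm _ deg * Lap d ^ (m + 1)) := by
  have c1 : Commute (Lap d) d := by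
    rw [Commute, SemiconjBy, Lap, add_mul, mul_add, mul_assoc, h.2, ← mul_assoc d d, h.2]
    simp [mul_assoc]
  have ss : dᴴ * dᴴ = 0 := by rw [← conjTranspose_mul, h.2, conjTranspose_zero]
  have e1 : ∀ m, d * dᴴ * Lap d ^ m = (d * dᴴ) ^ (m + 1) := fun m => by
    induction m with
    | zero => simp
    | succ m ih =>
      rw [pow_succ, ← mul_assoc, ih, Lap, mul_add, pow_succ _ (m + 1), pow_succ, mul_assoc,
        mul_assoc d, ← mul_assoc dᴴ, ss]
      simp
  have e2 : d * (sg _ deg * nm _ deg * dᴴ * Lap d ^ m) =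
      sg _ deg * (d * dᴴ * Lap d ^ m) - sg _ deg * nm _ deg * (d * dᴴ * Lap d ^ m) := by
    have : d * sg _ deg = -(sg _ deg * d) := by rw [h.sg_mul, neg_neg]
    simp only [← mul_assoc]
    rw [this, neg_mul, mul_assoc _ d, h.mul_nm]
    noncomm_ring
  have e3 : sg _ deg * nm _ deg * Lap d ^ (m + 1) = sg _ deg * nm _ deg * dᴴ * Lap d ^ m * d +
      sg _ deg * nm _ deg * (d * dᴴ * Lap d ^ m) := by
    rw [mul_assoc _ _ d, (c1.pow_left m).eq, pow_succ']
    nth_rewrite 1 [Lap]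
    noncomm_ring
  rw [e3, map_add, tau_comm _ d, e2, map_sub, e1]
  abel

end

def klA (R I J : Type) [Ring R] [Algebra ℚ R] [Fintype I] [DecidableEq I] [Fintype J]
    [DecidableEq J] : Matrix I I R →ₐ[ℚ] Matrix (I × J) (I × J) R :=
  AlgHom.ofLinearMap ⟨⟨fun M => M ⊗ₖ (1 : Matrix J J R), fun _ _ => add_kronecker _ _ _⟩,
    fun _ _ => by ext; simp⟩ one_kronecker_one fun M N => by
      ext ⟨i, j⟩ ⟨i', j'⟩
      simp [Matrix.mul_apply, Fintype.sum_prod_type, one_apply]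

def krA (R I J : Type) [Ring R] [Algebra ℚ R] [Fintype I] [DecidableEq I] [Fintype J]
    [DecidableEq J] : Matrix J J R →ₐ[ℚ] Matrix (I × J) (I × J) R :=
  AlgHom.ofLinearMap ⟨⟨fun M => (1 : Matrix I I R) ⊗ₖ M, fun _ _ => kronecker_add _ _ _⟩,
    fun _ _ => by ext; simp⟩ one_kronecker_one fun M N => by
      ext ⟨i, j⟩ ⟨i', j'⟩
      simp [Matrix.mul_apply, Fintype.sum_prod_type, one_apply, Finset.mul_sum]

def i1 (J : Type) [Fintype J] [DecidableEq J] (f : G1 →* H) :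
    Matrix I I (QG G1) →ₐ[ℚ] Matrix (I × J) (I × J) (QG H) :=
  (klA _ I J).comp (mq f).mapMatrix

def i2 (I : Type) [Fintype I] [DecidableEq I] (f : G2 →* H) :
    Matrix J J (QG G2) →ₐ[ℚ] Matrix (I × J) (I × J) (QG H) :=
  (krA _ I J).comp (mq f).mapMatrix

lemma i1_apply (f : G1 →* H) (M : Matrix I I (QG G1)) (x y : I × J) :
    i1 J f M x y = if x.2 = y.2 then mq f (M x.1 y.1) else 0 := by
  change mq f (M x.1 y.1) * (1 : Matrix J J (QG H)) x.2 y.2 = _
  simp [one_apply]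

lemma i2_apply (f : G2 →* H) (M : Matrix J J (QG G2)) (x y : I × J) :
    i2 I f M x y = if x.1 = y.1 then mq f (M x.2 y.2) else 0 := by
  change (1 : Matrix I I (QG H)) x.1 y.1 * mq f (M x.2 y.2) = _
  simp [one_apply]

lemma i1_star (f : G1 →* H) (M : Matrix I I (QG G1)) : i1 J f Mᴴ = (i1 J f M)ᴴ := by
  ext1 x y
  simp [i1_apply, mq_star, eq_comm, apply_ite star]

lemma i2_star (f : G2 →* H) (M : Matrix J J (QG G2)) : i2 I f Mᴴ = (i2 I f M)ᴴ := by
  ext1 x y
  simp [i2_apply, mq_star, eq_comm, apply_ite star]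

lemma i1_mul_i2 (f1 : G1 →* H) (f2 : G2 →* H) (M : Matrix I I (QG G1)) (N : Matrix J J (QG G2))
    (x y : I × J) : (i1 J f1 M * i2 I f2 N) x y = mq f1 (M x.1 y.1) * mq f2 (N x.2 y.2) := by
  simp [Matrix.mul_apply, Fintype.sum_prod_type, i1_apply, i2_apply]

lemma mq_comm {f1 : G1 →* H} {f2 : G2 →* H} (hc : ∀ x y, Commute (f1 x) (f2 y)) (x : QG G1)
    (y : QG G2) : Commute (mq f1 x) (mq f2 y) := by
  induction x using induction_linear with
  | zero => simp
  | add a b ha hb => rw [map_add]; exact ha.add_left hb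
  | single g a =>
    induction y using induction_linear with
    | zero => simp
    | add a b ha hb => rw [map_add]; exact ha.add_right hb
    | single h b => rw [mq_single, mq_single]; exact single_commute_single (hc g h) (.all _ _)

lemma i_comm {f1 : G1 →* H} {f2 : G2 →* H} (hc : ∀ x y, Commute (f1 x) (f2 y))
    (M : Matrix I I (QG G1)) (N : Matrix J J (QG G2)) : Commute (i1 J f1 M) (i2 I f2 N) := by
  ext1 x y
  rw [i1_mul_i2, (mq_comm hc _ _).eq]
  simp [Matrix.mul_apply, Fintype.sum_prod_type_right, i1_apply, i2_apply]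

def pd (f1 : G1 →* H) (f2 : G2 →* H) (deg : I → ℕ) (a : Matrix I I (QG G1))
    (b : Matrix J J (QG G2)) : Matrix (I × J) (I × J) (QG H) :=
  i1 J f1 a + i1 J f1 (sg _ deg) * i2 I f2 b

def dsum (d1 : I → ℕ) (d2 : J → ℕ) (x : I × J) : ℕ := d1 x.1 + d2 x.2

section
variable {f1 : G1 →* H} {f2 : G2 →* H} (hc : ∀ x y, Commute (f1 x) (f2 y)) {d1 : I → ℕ}
  {d2 : J → ℕ} {a : Matrix I I (QG G1)} {b : Matrix J J (QG G2)}

lemma pd_eq : pd f1 f2 d1 a b = tens d1 (a.map (mq f1)) (b.map (mq f2)) := by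
  ext1 x y
  rw [pd, tens, Matrix.add_apply, Matrix.add_apply, i1_mul_i2]
  congr 1
  simp [sg, diagonal_apply, apply_ite (mq f1)]

lemma sg_dsum : sg (QG H) (dsum d1 d2) = i1 J f1 (sg _ d1) * i2 I f2 (sg _ d2) := by
  ext1 ⟨i, j⟩ ⟨i', j'⟩
  by_cases e : i = i' <;> by_cases e' : j = j' <;> simp [i1_mul_i2, sg, dsum, pow_add, e, e']

lemma nm_dsum : nm (QG H) (dsum d1 d2) = i1 J f1 (nm _ d1) + i2 I f2 (nm _ d2) := by
  ext1 ⟨i, j⟩ ⟨i', j'⟩
  by_cases e : i = i' <;> by_cases e' : j = j' <;>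
    simp [i1_apply, i2_apply, nm, dsum, e, e']

include hc

lemma isCx_pd (ha : IsCx d1 a) (hb : IsCx d2 b) : IsCx (dsum d1 d2) (pd f1 f2 d1 a b) := by
  refine ⟨fun x y h => ?_, ?_⟩
  · rw [pd, Matrix.add_apply, i1_mul_i2, i1_apply] at h
    by_cases e : x.2 = y.2
    · by_cases e1 : a x.1 y.1 = 0
      · have : b x.2 y.2 ≠ 0 := fun e2 => h (by simp [e1, e2])
        have := hb.1 _ _ this
        rw [e] at this
        omega
      · simp [dsum, ha.1 _ _ e1, e, add_right_comm]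
    · have e1 : x.1 = y.1 := by_contra fun e1 => h (by simp [e, sg, e1])
      have : b x.2 y.2 ≠ 0 := fun e2 => h (by simp [e, e2])
      simp [dsum, hb.1 _ _ this, e1, add_assoc]
  · have c := fun M => (i_comm (I := I) hc M b).eq
    rw [pd, add_mul, mul_add, mul_add, ← map_mul, ha.2, mul_assoc _ _ (i1 J f1 a), ← c,
      mul_assoc (i1 J f1 _) (i2 I f2 b), ← mul_assoc (i2 I f2 b), ← c, mul_assoc _ _ (i2 I f2 b),
      ← map_mul (i2 I f2), hb.2, ← mul_assoc, ← mul_assoc, ← map_mul, ← map_mul, ha.sg_mul]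
    simp

lemma lap_d2 : Lap (i1 J f1 (sg _ d1) * i2 I f2 b) = i2 I f2 (Lap b) := by
  have c := fun M N => (i_comm (I := I) (J := J) hc M N).eq
  rw [Lap, Lap, conjTranspose_mul, ← i1_star, ← i2_star, sg_star, map_add, map_mul, map_mul,
    mul_assoc, ← mul_assoc (i1 J f1 _), ← map_mul (i1 J f1), sg_sg, map_one, one_mul, c, mul_assoc,
    ← c, ← mul_assoc (i1 J f1 _), ← map_mul (i1 J f1), sg_sg, map_one, one_mul]

lemma lap_pd (ha : IsCx d1 a) : Lap (pd f1 f2 d1 a b) = i1 J f1 (Lap a) + i2 I f2 (Lap b) := by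
  have c := fun M N => (i_comm (I := I) (J := J) hc M N).eq
  have h1 : i1 J f1 (sg _ d1) * i1 J f1 a = -(i1 J f1 a * i1 J f1 (sg _ d1)) := by
    rw [← map_mul, ha.sg_mul, map_neg, map_mul]
  have h2 : (i1 J f1 (sg _ d1) * i2 I f2 b)ᴴ * i1 J f1 a +
      i1 J f1 a * (i1 J f1 (sg _ d1) * i2 I f2 b)ᴴ = 0 := by
    rw [conjTranspose_mul, ← i1_star, ← i2_star, sg_star, mul_assoc, h1, ← mul_assoc, c]
    simp [mul_assoc]
  have h3 := congrArg conjTranspose h2
  simp only [conjTranspose_add, conjTranspose_mul, conjTranspose_conjTranspose,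
    conjTranspose_zero] at h3
  rw [← lap_d2 hc (d1 := d1), pd, Lap, Lap, Lap, map_add, map_mul, map_mul, i1_star,
    conjTranspose_add, ← add_zero (_ + _ + _), ← add_zero (0 : Matrix (I × J) (I × J) (QG H))]
  nth_rewrite 1 [← h2, ← h3]
  noncomm_ring

omit hc in
lemma IsCx.lap_sg (ha : IsCx d1 a) : Commute (Lap a) (sg _ d1) := by
  have h := congrArg conjTranspose ha.sg_mul
  rw [conjTranspose_neg, conjTranspose_mul, conjTranspose_mul, sg_star] at h
  have h' : a * sg _ d1 = -(sg _ d1 * a) := by rw [ha.sg_mul, neg_neg]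
  rw [Commute, SemiconjBy, Lap, add_mul, mul_add, mul_assoc, h', mul_assoc, h, mul_neg, mul_neg,
    ← mul_assoc, ← mul_assoc, h, h']
  simp [mul_assoc]

lemma tau_pd1 (ha : IsCx d1 a) (hb : IsCx d2 b) (k : ℕ) :
    tau (i1 J f1 (sg _ d1) * i2 I f2 (sg _ d2) * i1 J f1 (nm _ d1) *
      (i1 J f1 (Lap a) + i2 I f2 (Lap b)) ^ k) =
    tau (i1 J f1 (sg _ d1) * i2 I f2 (sg _ d2) * i1 J f1 (nm _ d1) * i1 J f1 (Lap a) ^ k) := by
  have c := fun M N => i_comm (I := I) (J := J) hc M N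
  have s1 : Commute (nm (QG G1) d1) (sg _ d1) := by
    rw [Commute, SemiconjBy, nm, sg, diagonal_mul_diagonal, diagonal_mul_diagonal]
    simp only [(Nat.cast_commute _ _).eq]
  have s2 := ha.lap_sg.map (i1 J f1)
  rw [← lap_d2 hc (d1 := d1)]
  refine st1 tau_comm ?_ ?_ (s2.mul_right (c _ _)) ?_ k _ ((s1.map (i1 J f1)).mul_right (c _ _))
  · rw [(c _ _).symm.mul_mul_mul_comm, (c _ b).symm.mul_mul_mul_comm, ← map_mul (i2 I f2),
      hb.sg_mul, map_neg, map_mul (i2 I f2), mul_neg]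
  · rw [(c _ _).symm.mul_mul_mul_comm, ← map_mul (i2 I f2), hb.2, map_zero, mul_zero]
  · rw [conjTranspose_mul, ← i1_star, ← i2_star, sg_star]
    exact (c _ _).mul_right s2

lemma tau_pd2 (ha : IsCx d1 a) (k : ℕ) :
    tau (i1 J f1 (sg _ d1) * i2 I f2 (sg _ d2) * i2 I f2 (nm _ d2) *
      (i1 J f1 (Lap a) + i2 I f2 (Lap b)) ^ k) =
    tau (i1 J f1 (sg _ d1) * i2 I f2 (sg _ d2) * i2 I f2 (nm _ d2) * i2 I f2 (Lap b) ^ k) := by
  have c := fun M N => i_comm (I := I) (J := J) hc M N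
  have e : i1 J f1 (Lap a) = i1 J f1 aᴴ * i1 J f1 a + i1 J f1 a * i1 J f1 aᴴ := by
    rw [Lap, map_add, map_mul, map_mul]
  rw [add_comm, e]
  refine st1 tau_comm ?_ ?_ (c _ _).symm (c _ _).symm k _ (c _ _).symm
  · rw [mul_assoc, ← (c _ _).eq, ← mul_assoc, ← map_mul, ha.sg_mul, map_neg, map_mul, neg_mul,
      mul_assoc]
  · rw [← map_mul, ha.2, map_zero]

theorem tau_pd (ha : IsCx d1 a) (hb : IsCx d2 b) (x1 : ∑ i, (-1 : ℚ) ^ d1 i = 0)
    (x2 : ∑ j, (-1 : ℚ) ^ d2 j = 0) (k : ℕ) :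
    tau (sg _ (dsum d1 d2) * nm _ (dsum d1 d2) * Lap (pd f1 f2 d1 a b) ^ k) = 0 := by
  have c := fun M N => i_comm (I := I) (J := J) hc M N
  rw [lap_pd hc ha, sg_dsum (f1 := f1) (f2 := f2), nm_dsum (f1 := f1) (f2 := f2), mul_add, add_mul,
    map_add, tau_pd1 hc ha hb, tau_pd2 hc ha]
  have u1 : ∀ M, tau (i1 J f1 M * i2 I f2 (sg _ d2)) = 0 := fun M => by
    have : ∀ (x : QG H) n, (x * (-1) ^ n).coeff 1 = x.coeff 1 * (-1) ^ n := fun x n => by
      cases Nat.even_or_odd n with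
      | inl e => simp [e.neg_one_pow]
      | inr e => simp [e.neg_one_pow]
    simp [tau_apply, i1_mul_i2, Fintype.sum_prod_type, sg, this, ← Finset.mul_sum, x2]
  have u2 : ∀ M, tau (i1 J f1 (sg _ d1) * i2 I f2 M) = 0 := fun M => by
    have : ∀ (x : QG H) n, ((-1) ^ n * x).coeff 1 = x.coeff 1 * (-1) ^ n := fun x n => by
      cases Nat.even_or_odd n with
      | inl e => simp [e.neg_one_pow]
      | inr e => simp [e.neg_one_pow]
    simp [tau_apply, i1_mul_i2, Fintype.sum_prod_type_right, sg, this, ← Finset.mul_sum, x1]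
  rw [← map_pow, ← map_pow, mul_assoc _ (i1 J f1 _), ← map_mul, mul_assoc, ← (c _ _).eq,
    ← mul_assoc, ← map_mul, u1, mul_assoc, mul_assoc, ← map_mul, ← map_mul, u2, add_zero]

end

end

end Pool.Agent.Lib.MP_b65ff2_gt
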